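import Mathlib

/-! Smallness in the `C^r` sense on a set, smooth families, parametric integrals. -/

open Set Filter Topology Metric MeasureTheory
open scoped ContDiff

namespace Pool.Agent.Lib.MP_0281e9_an.BT

variable {D E F P : Type*} [NormedAddCommGroup D] [NormedSpace ℝ D]
  [NormedAddCommGroup E] [NormedSpace ℝ E] [NormedAddCommGroup F] [NormedSpace ℝ F]
  [NormedAddCommGroup P] [NormedSpace ℝ P]

theorem nat_le_infty (k : ℕ) : ((k : ℕ∞ω)) ≤ ∞ := by exact_mod_cast le_top

theorem nat_le_infty' (k : ℕ) : ((k : ℕ∞ω)) + 1 ≤ ∞ := by exact_mod_cast le_top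

theorem infty_add_one_le : (∞ : ℕ∞ω) + 1 ≤ ∞ := le_rfl

/-- All derivatives of order at most `r` of `h` are bounded by `η` on `K`. -/
def Sm (r : ℕ) (K : Set D) (η : ℝ) (h : D → E) : Prop :=
  ∀ k ≤ r, ∀ z ∈ K, ‖iteratedFDeriv ℝ k h z‖ ≤ η

theorem Sm.mono {r r' : ℕ} {K K' : Set D} {η η' : ℝ} {h : D → E} (H : Sm r K η h)
    (hr : r' ≤ r) (hK : K' ⊆ K) (hη : η ≤ η') : Sm r' K' η' h :=
  fun k hk z hz => (H k (hk.trans hr) z (hK hz)).trans hη

theorem Sm.norm_le {r : ℕ} {K : Set D} {η : ℝ} {h : D → E} (H : Sm r K η h) {z : D}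
    (hz : z ∈ K) : ‖h z‖ ≤ η := by
  simpa [norm_iteratedFDeriv_zero] using H 0 (Nat.zero_le _) z hz

theorem sm_zero_iff {K : Set D} {η : ℝ} {h : D → E} : Sm 0 K η h ↔ ∀ z ∈ K, ‖h z‖ ≤ η := by
  constructor
  · exact fun H z hz => H.norm_le hz
  · intro H k hk z hz
    obtain rfl : k = 0 := by omega
    simpa [norm_iteratedFDeriv_zero] using H z hz

theorem Sm.add {r : ℕ} {K : Set D} {η η' : ℝ} {g h : D → E} (hg : ContDiff ℝ ∞ g)
    (hh : ContDiff ℝ ∞ h) (G : Sm r K η g) (H : Sm r K η' h) :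
    Sm r K (η + η') (fun z => g z + h z) := by
  intro k hk z hz
  rw [fun_iteratedFDeriv_add_apply (hg.of_le (nat_le_infty k)).contDiffAt
    (hh.of_le (nat_le_infty k)).contDiffAt]
  exact (norm_add_le _ _).trans (add_le_add (G k hk z hz) (H k hk z hz))

theorem Sm.trans {r : ℕ} {K : Set D} {η η' : ℝ} {f g h : D → E} (hf : ContDiff ℝ ∞ f)
    (hg : ContDiff ℝ ∞ g) (hh : ContDiff ℝ ∞ h) (G : Sm r K η (fun z => f z - g z))
    (H : Sm r K η' (fun z => g z - h z)) : Sm r K (η + η') (fun z => f z - h z) := by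
  have := G.add (hf.sub hg) (hg.sub hh) H
  simpa using this

theorem Sm.symm {r : ℕ} {K : Set D} {η : ℝ} {f g : D → E}
    (G : Sm r K η (fun z => f z - g z)) : Sm r K η (fun z => g z - f z) := by
  intro k hk z hz
  have : (fun z => g z - f z) = -(fun z => f z - g z) := by ext; simp
  rw [this, iteratedFDeriv_neg_apply, norm_neg]
  exact G k hk z hz

theorem Sm.congr {r : ℕ} {K : Set D} {η : ℝ} {g h : D → E} (G : Sm r K η g)
    (e : ∀ z ∈ K, h =ᶠ[𝓝 z] g) : Sm r K η h := by
  intro k hk z hz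
  rw [((e z hz).iteratedFDeriv ℝ k).eq_of_nhds]
  exact G k hk z hz

theorem Sm.clm {r : ℕ} {K : Set D} {η : ℝ} {h : D → E} (hh : ContDiff ℝ ∞ h) (H : Sm r K η h)
    (L : E →L[ℝ] F) : Sm r K (‖L‖ * η) (fun z => L (h z)) := by
  intro k hk z hz
  exact (L.norm_iteratedFDeriv_comp_left hh.contDiffAt (nat_le_infty k)).trans
    (mul_le_mul_of_nonneg_left (H k hk z hz) (norm_nonneg _))

theorem Sm.fderiv {r : ℕ} {K : Set D} {η : ℝ} {h : D → E} (H : Sm (r + 1) K η h) :
    Sm r K η (fderiv ℝ h) := by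
  intro k hk z hz
  rw [norm_iteratedFDeriv_fderiv]
  exact H (k + 1) (by omega) z hz

theorem sm_pair {r : ℕ} {K : Set D} {η : ℝ} {g : D → E} {h : D → F} (hg : ContDiff ℝ ∞ g)
    (hh : ContDiff ℝ ∞ h) :
    Sm r K η (fun z => (g z, h z)) ↔ Sm r K η g ∧ Sm r K η h := by
  simp only [Sm, iteratedFDeriv_prodMk hg.contDiffAt hh.contDiffAt (nat_le_infty _),
    ContinuousMultilinearMap.opNorm_prod, max_le_iff]
  exact ⟨fun H => ⟨fun k hk z hz => (H k hk z hz).1, fun k hk z hz => (H k hk z hz).2⟩,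
    fun H k hk z hz => ⟨H.1 k hk z hz, H.2 k hk z hz⟩⟩

theorem sm_succ_iff {r : ℕ} {K : Set D} {η : ℝ} {h : D → E} (hh : ContDiff ℝ ∞ h) :
    Sm (r + 1) K η h ↔ Sm r K η (fun z => (h z, fderiv ℝ h z)) := by
  rw [sm_pair hh (hh.fderiv_right infty_add_one_le)]
  refine ⟨fun H => ⟨H.mono (by omega) subset_rfl le_rfl, H.fderiv⟩, fun H k hk z hz => ?_⟩
  rcases k with _ | k
  · exact H.1 0 (Nat.zero_le _) z hz
  · rw [← norm_iteratedFDeriv_fderiv]
    exact H.2 k (by omega) z hz

theorem Sm.comp_clm {r : ℕ} {K : Set D} {K' : Set P} {η : ℝ} {h : D → E} (hh : ContDiff ℝ ∞ h)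
    (H : Sm r K η h) (L : P →L[ℝ] D) (hL : ‖L‖ ≤ 1) (hK : MapsTo L K' K) :
    Sm r K' η (fun z => h (L z)) := by
  intro k hk z hz
  have := L.iteratedFDeriv_comp_right hh z (nat_le_infty k)
  rw [show (fun z => h (L z)) = h ∘ L from rfl, this]
  refine (ContinuousMultilinearMap.norm_compContinuousLinearMap_le _ _).trans ?_
  calc _ ≤ ‖iteratedFDeriv ℝ k h (L z)‖ * 1 := by
        gcongr
        exact Finset.prod_le_one (fun _ _ => norm_nonneg _) (fun _ _ => hL)
    _ ≤ η := by simpa using H k hk _ (hK hz)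

theorem exists_sm (r : ℕ) {K : Set D} (hK : IsCompact K) {h : D → E} (hh : ContDiff ℝ ∞ h) :
    ∃ C, 0 ≤ C ∧ Sm r K C h := by
  have : ∀ k : ℕ, ∃ C, ∀ z ∈ K, ‖iteratedFDeriv ℝ k h z‖ ≤ C := fun k =>
    hK.exists_bound_of_continuousOn (hh.continuous_iteratedFDeriv (nat_le_infty k)).continuousOn
  choose C hC using this
  refine ⟨∑ k ∈ Finset.range (r + 1), |C k|, Finset.sum_nonneg fun _ _ => abs_nonneg _,
    fun k hk z hz => (hC k z hz).trans ((le_abs_self _).trans ?_)⟩
  exact Finset.single_le_sum (f := fun k => |C k|) (fun _ _ => abs_nonneg _)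
    (Finset.mem_range.2 (by omega))

theorem Sm.bilin {G : Type*} [NormedAddCommGroup G] [NormedSpace ℝ G] {r : ℕ} {K : Set D}
    {a b : ℝ} {f : D → E} {g : D → F} (hf : ContDiff ℝ ∞ f) (hg : ContDiff ℝ ∞ g)
    (Hf : Sm r K a f) (Hg : Sm r K b g) (B : E →L[ℝ] F →L[ℝ] G) (hB : ‖B‖ ≤ 1) :
    Sm r K (2 ^ r * a * b) (fun z => B (f z) (g z)) := by
  intro k hk z hz
  have ha : 0 ≤ a := (norm_nonneg _).trans (Hf.norm_le hz)
  have hb : 0 ≤ b := (norm_nonneg _).trans (Hg.norm_le hz)
  refine (B.norm_iteratedFDeriv_le_of_bilinear_of_le_one hf hg z (nat_le_infty k) hB).trans ?_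
  calc _ ≤ ∑ i ∈ Finset.range (k + 1), (k.choose i : ℝ) * a * b := by
        refine Finset.sum_le_sum fun i hi => ?_
        have hi' : i ≤ k := Nat.lt_succ_iff.1 (Finset.mem_range.1 hi)
        gcongr
        · exact Hf i (by omega) z hz
        · exact Hg (k - i) (by omega) z hz
    _ = 2 ^ k * a * b := by
        rw [← Finset.sum_mul, ← Finset.sum_mul]
        congr 2
        exact_mod_cast Nat.sum_range_choose k
    _ ≤ 2 ^ r * a * b := by gcongr; norm_num

/-- The partial iterated derivative of a smooth family is jointly continuous. -/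
theorem continuous_iteratedFDeriv_param {G : P × D → E} (hG : ContDiff ℝ ∞ G) (k : ℕ) :
    Continuous fun q : P × D => iteratedFDeriv ℝ k (fun z => G (q.1, z)) q.2 := by
  have e : ∀ q : P × D, iteratedFDeriv ℝ k (fun z => G (q.1, z)) q.2 =
      (iteratedFDeriv ℝ k G q).compContinuousLinearMap
        (fun _ => ContinuousLinearMap.inr ℝ P D) := by
    intro q
    have h1 : ContDiff ℝ ∞ (fun w : P × D => G ((q.1, 0) + w)) := by fun_prop
    have := (ContinuousLinearMap.inr ℝ P D).iteratedFDeriv_comp_right h1 q.2 (nat_le_infty k)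
    rw [iteratedFDeriv_comp_add_left] at this
    convert this using 2
    · ext z; simp
    · simp
  simp only [e]
  exact (ContinuousMultilinearMap.compContinuousLinearMapL
    (fun _ : Fin k => ContinuousLinearMap.inr ℝ P D)).continuous.comp
      (hG.continuous_iteratedFDeriv (nat_le_infty k))

/-- A smooth family that vanishes near `K` for the parameter `p₀` is `C^r`-small on `K` for nearby
parameters. -/
theorem eventually_sm {G : P × D → E} (hG : ContDiff ℝ ∞ G) {K : Set D} (hK : IsCompact K)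
    {p₀ : P} (h0 : ∀ z ∈ K, (fun z => G (p₀, z)) =ᶠ[𝓝 z] fun _ => 0) (r : ℕ) {η : ℝ}
    (hη : 0 < η) : ∀ᶠ p in 𝓝 p₀, Sm r K η (fun z => G (p, z)) := by
  have : ∀ k : ℕ, ∀ᶠ p in 𝓝 p₀, ∀ z ∈ K, ‖iteratedFDeriv ℝ k (fun z => G (p, z)) z‖ ≤ η := by
    intro k
    apply hK.eventually_forall_of_forall_eventually
    intro z hz
    have hc := (continuous_iteratedFDeriv_param hG k).norm.continuousAt (x := (p₀, z))
    have h1 : ‖iteratedFDeriv ℝ k (fun z => G (p₀, z)) z‖ < η := by
      rw [((h0 z hz).iteratedFDeriv ℝ k).eq_of_nhds]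
      simpa using hη
    exact (hc.eventually (gt_mem_nhds h1)).mono fun q hq => le_of_lt hq
  have h2 := (eventually_all_finset (Finset.range (r + 1))).2 fun k _ => this k
  exact h2.mono fun p hp k hk => hp k (Finset.mem_range.2 (by omega))

theorem eventually_sm_sub {G : P × D → E} (hG : ContDiff ℝ ∞ G) {K : Set D} (hK : IsCompact K)
    (p₀ : P) (r : ℕ) {η : ℝ} (hη : 0 < η) :
    ∀ᶠ p in 𝓝 p₀, Sm r K η (fun z => G (p, z) - G (p₀, z)) :=
  eventually_sm (G := fun q => G q - G (p₀, q.2)) (by fun_prop) hK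
    (fun z _ => Eventually.of_forall fun w => by simp) r hη

/-! ### Parametric integrals -/

theorem hasFDerivAt_param_integral [FiniteDimensional ℝ D] [CompleteSpace E] {G : D × ℝ → E}
    (hG : ContDiff ℝ 1 G) (x : D) :
    HasFDerivAt (fun x => ∫ s in (0:ℝ)..1, G (x, s))
      (∫ s in (0:ℝ)..1, fderiv ℝ (fun y => G (y, s)) x) x := by
  have hc : Continuous fun q : D × ℝ => fderiv ℝ (fun y => G (y, q.2)) q.1 := by
    have : ContDiff ℝ 0 fun q : D × ℝ => fderiv ℝ (fun y => G (y, q.2)) q.1 :=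
      ContDiff.fderiv (f := fun (q : D × ℝ) y => G (y, q.2)) (g := fun q => q.1) (m := 1)
        (by unfold Function.uncurry; fun_prop) (by fun_prop) (by norm_num)
    exact this.continuous
  obtain ⟨C, hC⟩ := ((isCompact_closedBall x 1).prod (isCompact_uIcc (a := (0:ℝ)) (b := 1))
    ).exists_bound_of_continuousOn hc.continuousOn
  refine intervalIntegral.hasFDerivAt_integral_of_dominated_of_fderiv_le
    (F' := fun y s => fderiv ℝ (fun y => G (y, s)) y) (bound := fun _ => C)
    (closedBall_mem_nhds x one_pos) ?_ ?_ ?_ ?_ ?_ ?_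
  · exact Eventually.of_forall fun y =>
      (hG.continuous.comp (by fun_prop)).aestronglyMeasurable
  · exact (hG.continuous.comp (by fun_prop)).intervalIntegrable _ _
  · exact (hc.comp (f := fun s => (x, s)) (by fun_prop)).aestronglyMeasurable
  · exact Eventually.of_forall fun s hs y hy => hC (y, s) ⟨hy, uIoc_subset_uIcc hs⟩
  · exact intervalIntegrable_const
  · refine Eventually.of_forall fun s _ y _ => ?_
    exact ((hG.differentiable one_ne_zero).comp (f := fun y => (y, s)) (by fun_prop) y).hasFDerivAt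

theorem contDiff_param_integral_nat {D : Type} [NormedAddCommGroup D] [NormedSpace ℝ D]
    [FiniteDimensional ℝ D] (n : ℕ) : ∀ {E : Type} [NormedAddCommGroup E] [NormedSpace ℝ E]
    [CompleteSpace E] {G : D × ℝ → E}, ContDiff ℝ ∞ G →
    ContDiff ℝ n (fun x => ∫ s in (0:ℝ)..1, G (x, s)) := by
  induction n with
  | zero =>
    intro E _ _ _ G hG
    simp only [CharP.cast_eq_zero, contDiff_zero]
    exact continuous_iff_continuousAt.2 fun x =>
      (hasFDerivAt_param_integral (hG.of_le (by exact_mod_cast le_top)) x).continuousAt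
  | succ n ih =>
    intro E _ _ _ G hG
    refine contDiff_succ_iff_hasFDerivAt.2 ⟨_, ?_, fun x =>
      hasFDerivAt_param_integral (hG.of_le (by exact_mod_cast le_top)) x⟩
    refine ih (G := fun q => fderiv ℝ (fun y => G (y, q.2)) q.1) ?_
    exact ContDiff.fderiv (f := fun (q : D × ℝ) y => G (y, q.2)) (g := fun q => q.1) (m := ∞)
        (by unfold Function.uncurry; fun_prop) (by fun_prop) infty_add_one_le

theorem contDiff_param_integral {D : Type} [NormedAddCommGroup D] [NormedSpace ℝ D]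
    [FiniteDimensional ℝ D] {E : Type} [NormedAddCommGroup E] [NormedSpace ℝ E]
    [CompleteSpace E] {G : D × ℝ → E} (hG : ContDiff ℝ ∞ G) :
    ContDiff ℝ ∞ (fun x => ∫ s in (0:ℝ)..1, G (x, s)) :=
  contDiff_infty.2 fun n => contDiff_param_integral_nat n hG

/-- Hadamard's lemma with parameters. -/
theorem hadamard {D : Type} [NormedAddCommGroup D] [NormedSpace ℝ D]
    [FiniteDimensional ℝ D] {E : Type} [NormedAddCommGroup E] [NormedSpace ℝ E]
    [CompleteSpace E] {G : ℝ × D → E} (hG : ContDiff ℝ ∞ G) :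
    ∃ A : ℝ × D → E, ContDiff ℝ ∞ A ∧ (∀ s y, G (s, y) = G (0, y) + s • A (s, y)) ∧
      ∀ y, HasDerivAt (fun s => G (s, y)) (A (0, y)) 0 := by
  have hd : ∀ y s, HasDerivAt (fun s => G (s, y)) (fderiv ℝ G (s, y) (1, 0)) s := by
    intro y s
    have h1 := ((hG.differentiable (by simp)) (s, y)).hasFDerivAt
    have h2 : HasDerivAt (fun s : ℝ => (s, y)) (1, 0) s :=
      (hasDerivAt_id s).prodMk (hasDerivAt_const s y)
    exact h1.comp_hasDerivAt s h2
  have hF : ContDiff ℝ ∞ (fderiv ℝ G) := hG.fderiv_right infty_add_one_le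
  refine ⟨fun q => ∫ u in (0:ℝ)..1, fderiv ℝ G (u * q.1, q.2) (1, 0), ?_, ?_, ?_⟩
  · exact contDiff_param_integral (G := fun q : (ℝ × D) × ℝ =>
      fderiv ℝ G (q.2 * q.1.1, q.1.2) (1, 0)) (by fun_prop)
  · intro s y
    have := intervalIntegral.integral_eq_sub_of_hasDerivAt (a := 0) (b := 1)
      (f := fun u => G (u * s, y)) (f' := fun u => s • fderiv ℝ G (u * s, y) (1, 0))
      (fun u _ => by
        simpa [Function.comp_def] using (hd y (u * s)).scomp u ((hasDerivAt_id u).mul_const s))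
      (Continuous.intervalIntegrable (by have := hF.continuous; fun_prop) _ _)
    rw [intervalIntegral.integral_smul] at this
    simp only [one_mul, zero_mul] at this
    rw [this]; abel
  · intro y
    simpa using hd y 0

end Pool.Agent.Lib.MP_0281e9_an.BT
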