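import Pool.Agent.Lib.MP_0281e9_an.Defs

namespace Pool.Agent.Lib.MP_0281e9_an

open Set Filter Complex
open scoped ContDiff ComplexConjugate

noncomputable section

def henon (f : ℝ → ℝ) (z : ℂ) : ℂ := (z.im : ℂ) + ((f z.im - z.re : ℝ) : ℂ) * I

def hen : List (ℝ → ℝ) → ℂ → ℂ
  | [] => id
  | f :: fs => hen fs ∘ henon f

/-- the plane minus the lattice -/
def U : Set ℂ := {z | ¬ ((∃ m : ℤ, z.re = m) ∧ ∃ n : ℤ, z.im = n)}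

def lp (m n : ℤ) : ℂ := (m : ℂ) + (n : ℂ) * I

def Rel (z z' : ℂ) : Prop := ∃ m n : ℤ, z' = z + 2 * lp m n ∨ z' = -z + 2 * lp m n

def mat (a b c d : ℝ) : ℂ →L[ℝ] ℂ :=
  ofRealCLM.comp (a • reCLM + b • imCLM) + I • ofRealCLM.comp (c • reCLM + d • imCLM)

def gmat : ℂ →L[ℝ] ℂ := mat 5 2 2 1
def ginv : ℂ →L[ℝ] ℂ := mat 1 (-2) (-2) 5
def Amat : ℂ →L[ℝ] ℂ := mat 9 4 20 9
def Ainv : ℂ →L[ℝ] ℂ := mat 9 (-4) (-20) 9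

@[simp] lemma mat_re (a b c d : ℝ) (z : ℂ) : (mat a b c d z).re = a * z.re + b * z.im := by
  simp [mat]

@[simp] lemma mat_im (a b c d : ℝ) (z : ℂ) : (mat a b c d z).im = c * z.re + d * z.im := by
  simp [mat]

def cls (m n : ℤ) : Fin 4 :=
  if Even m then (if Even n then 3 else 1) else (if Even n then 0 else 2)

def lat (z : ℂ) : ℂ := lp (round z.re) (round z.im)
def fr (z : ℂ) : ℂ := z - lat z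
def zcls (z : ℂ) : Fin 4 := cls (round z.re) (round z.im)

def del : ℝ := 1 / 512
def cc : ℝ := 1 / 2048

def Sfun (ρ : ℝ) : ℝ :=
  (1 - Real.smoothTransition (256 * ρ - 1)) * (del ^ 2 + cc * ρ) +
    Real.smoothTransition (256 * ρ - 1) * ρ ^ 2

def chi2 (ρ : ℝ) : ℝ := Real.smoothTransition (2 - 512 * ρ)

/-- local radial map; `‖rad s w‖ ^ 4 = Sfun ρ + chi2 ρ * s ξ` -/
def rad (s : ℝ → ℝ) (w : ℂ) : ℂ :=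
  Real.sqrt (Real.sqrt (Sfun (normSq w) + chi2 (normSq w) * s ((w ^ 2).re / normSq w)) /
    normSq w) • w

def Erad (σ : Fin 4 → ℝ → ℝ) (z : ℂ) : ℂ := lat z + rad (σ (zcls z)) (fr z)

def om (z : ℂ) : ℂ := (Real.sqrt (del ^ 2 + cc * normSq z) / normSq z) • z ^ 2

structure Model where
  Φ : ℂ → ℂ
  Φi : ℂ → ℂ
  Ψ : ℂ → ℂ
  Ψi : ℂ → ℂ
  P0 : ℂ → ℂ
  P1 : ℂ → ℂ
  β0 : Fin 4 → ℂ → ℂ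
  ν0 : Fin 4 → ℂ → ℂ
  β1 : Fin 4 → ℂ → ℂ
  ν1 : Fin 4 → ℂ → ℂ
  x : Fin 4 → ℝ → ℝ
  R : ℝ
  hΦ : ContDiff ℝ ∞ Φ
  hΦi : ContDiff ℝ ∞ Φi
  Φl : Function.LeftInverse Φi Φ
  Φr : Function.RightInverse Φi Φ
  det : ∀ z, (fderiv ℝ Φ z).det = 1
  hΨ : ContDiff ℝ ∞ Ψ
  hΨi : ContDiff ℝ ∞ Ψi
  Ψl : Function.LeftInverse Ψi Ψ
  Ψr : Function.RightInverse Ψi Ψ
  P0s : ∀ z ∈ U, ContDiffAt ℝ ∞ P0 z ∧ Function.Injective (fderiv ℝ P0 z)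
  P0inj : ∀ z ∈ U, ∀ z' ∈ U, P0 z = P0 z' ↔ Rel z z'
  P0conj : ∀ z ∈ U, P0 (conj z) = conj (P0 z)
  P1conj : ∀ z ∈ U, P1 (conj z) = conj (P1 z)
  semi : ∀ z ∈ U, Ψ (P0 (Erad 0 z)) = P1 (Erad 0 (gmat z))
  agree : ∀ z ∈ U, Φ (P0 (Erad 0 z)) = Ψ (P0 (Erad 0 z))
  chart0 : ∀ (m n : ℤ) (z : ℂ), z ≠ 0 → ‖z‖ < 1 / 8 → P0 (lp m n + z) = β0 (cls m n) (z ^ 2)
  chart1 : ∀ (m n : ℤ) (z : ℂ), z ≠ 0 → ‖z‖ < 1 / 8 → P1 (lp m n + z) = β1 (cls m n) (z ^ 2)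
  hβ0 : ∀ j o, o ≠ 0 → ‖o‖ < 1 / 64 → ContDiffAt ℝ ∞ (β0 j) o ∧
    ContDiffAt ℝ ∞ (ν0 j) (β0 j o) ∧ ν0 j (β0 j o) = o ∧ β0 j (conj o) = conj (β0 j o)
  hβ1 : ∀ j o, o ≠ 0 → ‖o‖ < 1 / 64 → ContDiffAt ℝ ∞ (β1 j) o ∧
    ContDiffAt ℝ ∞ (ν1 j) (β1 j o) ∧ ν1 j (β1 j o) = o ∧ β1 j (conj o) = conj (β1 j o)
  xre : ∀ j (ζ : ℂ), ‖ζ‖ = 1 → (β1 j (del * ζ)).re = x j ζ.re
  xd : ∀ j, ∀ ξ ∈ Icc (-1 : ℝ) 1, DifferentiableAt ℝ (x j) ξ ∧ deriv (x j) ξ ≠ 0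
  sep : ∀ i j, j < i → ∀ ξ ∈ Icc (-1 : ℝ) 1, ∀ ξ' : ℝ,
    (ξ' ∈ Icc (1 / 2 : ℝ) (17 / 20) ∨ ξ' = 1 ∨ ξ' = -1) → x i ξ' ≠ x j ξ
  bound : ∀ z ∈ U, ‖P0 (Erad 0 z)‖ ≤ R

/-- signed distance of the line of normal angle `φ` through the boundary point of normal `ψ` -/
def fl (h : ℝ → ℝ) (φ ψ : ℝ) : ℝ := h ψ * Real.cos (ψ - φ) - deriv h ψ * Real.sin (ψ - φ)

def Next (h : ℝ → ℝ) (s s' : ℝ × ℝ) : Prop :=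
  s.2 ∈ Ioo 0 Real.pi ∧ s'.2 ∈ Ioo 0 Real.pi ∧ s.1 + s.2 = s'.1 - s'.2 ∧
    fl h (s.1 + s.2) s.1 = fl h (s.1 + s.2) s'.1

def psib (η : ℝ) (N i : ℕ) : ℝ :=
  if i = 0 then η / 2 else if i = N then N * (Real.pi + η) - η / 2 else i * (Real.pi + η)

def qpt (η : ℝ) (N i : ℕ) : ℂ :=
  exp ((i * (Real.pi + η) : ℝ) * I) +
    if i = 0 ∨ i = N then ((3 / 10 * η ^ 2 : ℝ) : ℂ) * exp (psib η N i * I) else 0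

def rr (N i : ℕ) : ℝ := if i = 0 ∨ i = N then 1 / 2 else 1

def Inc (ε δ : ℝ) (w : ℝ → ℝ) (z : ℂ) : ℂ :=
  ((z.re - z.im : ℝ) : ℂ) + ((-(deriv w z.re) * Real.sin (δ + ε * z.im) +
    ε * w z.re * Real.cos (δ + ε * z.im) : ℝ) : ℂ) * I

def w0 (ε a : ℝ) : ℝ := 3 / 4 * a ^ 2 + (1 - Real.cos (ε * a)) / (2 * ε ^ 2)

def In0 : ℂ →L[ℝ] ℂ := mat 1 (-1) (-2) 0

def Realizes (ε : ℝ) (Θ : ℂ → ℂ) (A : ℝ) : Prop :=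
  ∀ v : ℝ → ℝ, ContDiff ℝ ∞ v →
    (∀ a, |v a| ≤ 1 ∧ |deriv v a| ≤ 1 ∧ |deriv (deriv v) a| ≤ 1) →
    ∃ (Y : Set ℂ) (γ : ℝ → ℂ) (L : ℝ) (φ : ℝ × ℝ → ℝ × ℝ) (x : ℝ → ℝ) (M : ℕ) (ψ0 : ℝ),
      IsTable Y γ L ∧ IsBilliardMap γ L φ ∧ MeasureTheory.IsProbabilityMeasure (liouville L) ∧
      MeasureTheory.MeasurePreserving φ (liouville L) (liouville L) ∧ 0 < M ∧
      ContDiff ℝ ∞ x ∧ (∀ ψ, 0 < deriv x ψ) ∧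
      (∀ z : ℂ, ‖z‖ ≤ A → x (ψ0 + ε * z.re) ∈ Ioo 0 L ∧
        Real.pi / 2 + ε * z.im ∈ Ioo 0 Real.pi) ∧
      ∀ z z0 s : ℂ, ‖z‖ ≤ A → ‖z0‖ ≤ A → ‖s‖ ≤ A →
        Inc ε (Real.pi / 2) (w0 ε + v) s = Θ z →
        Inc ε (Real.pi / 2) (w0 ε + v) (conj s) = Θ z0 →
        φ^[M] (x (ψ0 + ε * z.re), Real.pi / 2 + ε * z.im) =
          (x (ψ0 + ε * z0.re), Real.pi / 2 - ε * z0.im)

end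

end Pool.Agent.Lib.MP_0281e9_an

theorem Pool.Agent.Lib.MP_0281e9_an.Base.rlz0 : True := by
  have := @Pool.Agent.Lib.MP_0281e9_an.hen.eq_def
  trivial
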