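import Pool.Agent.Lib.MP_0281e9_an.SuppB

namespace Pool.Agent.Lib.MP_0281e9_an.BS

open Set Filter Complex MeasureTheory Topology
open scoped ContDiff

noncomputable section

variable {h : ℝ → ℝ}

def M2 (a b c d : ℝ) : ℝ × ℝ →L[ℝ] ℝ × ℝ :=
  (a • ContinuousLinearMap.fst ℝ ℝ ℝ + b • ContinuousLinearMap.snd ℝ ℝ ℝ).prod
    (c • ContinuousLinearMap.fst ℝ ℝ ℝ + d • ContinuousLinearMap.snd ℝ ℝ ℝ)

lemma M2_det (a b c d : ℝ) : (M2 a b c d).det = a * d - b * c := by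
  rw [ContinuousLinearMap.det, ← LinearMap.det_toMatrix (Module.Basis.finTwoProd ℝ),
    Matrix.det_fin_two]
  simp [LinearMap.toMatrix_apply, M2]

/-- the open part of the phase annulus -/
def dom (L : ℝ) : Set (ℝ × ℝ) := Ico 0 L ×ˢ Ioo 0 Real.pi

lemma dom_meas (L : ℝ) : MeasurableSet (dom L) := measurableSet_Ico.prod measurableSet_Ioo

lemma phase_meas (L : ℝ) : MeasurableSet (phase L) := measurableSet_Ico.prod measurableSet_Icc

lemma liouville_apply (L : ℝ) {A : Set (ℝ × ℝ)} (hA : MeasurableSet A) :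
    liouville L A = (ENNReal.ofReal (2 * L))⁻¹ *
      ∫⁻ p in A ∩ dom L, ENNReal.ofReal (Real.sin p.2) := by
  rw [liouville, Measure.smul_apply, withDensity_apply _ hA, Measure.restrict_restrict hA,
    smul_eq_mul, ← lintegral_indicator (hA.inter (phase_meas L)),
    ← lintegral_indicator (hA.inter (dom_meas L))]
  congr 2
  funext p
  by_cases h1 : p ∈ A ∩ dom L
  · rw [indicator_of_mem h1, indicator_of_mem]
    exact ⟨h1.1, h1.2.1, Ioo_subset_Icc_self h1.2.2⟩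
  · rw [indicator_of_notMem h1]
    by_cases h2 : p ∈ A ∩ phase L
    · rw [indicator_of_mem h2]
      obtain ⟨a, b, c, d⟩ := h2
      rcases c.lt_or_eq with c | c
      · rcases d.lt_or_eq with d | d
        · exact absurd ⟨a, b, c, d⟩ h1
        · simp [d]
      · simp [← c]
    · rw [indicator_of_notMem h2]

lemma liouville_prob {L : ℝ} (hL : 0 < L) : IsProbabilityMeasure (liouville L) := by
  constructor
  rw [liouville_apply L MeasurableSet.univ, univ_inter, dom, Measure.volume_eq_prod,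
    ← Measure.prod_restrict, lintegral_prod _ (by fun_prop)]
  have h1 : ∫⁻ y in Ioo 0 Real.pi, ENNReal.ofReal (Real.sin y) = ENNReal.ofReal 2 := by
    rw [← ofReal_integral_eq_lintegral_ofReal]
    · rw [← integral_Ioc_eq_integral_Ioo, ← intervalIntegral.integral_of_le Real.pi_pos.le,
        integral_sin]
      norm_num
    · exact (Real.continuous_sin.integrableOn_Icc).mono_set Ioo_subset_Icc_self
    · refine (ae_restrict_iff' measurableSet_Ioo).2 (Eventually.of_forall fun y hy => ?_)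
      exact (Real.sin_pos_of_pos_of_lt_pi hy.1 hy.2).le
  simp only [h1]
  rw [setLIntegral_const, Real.volume_Ico, sub_zero, ← ENNReal.ofReal_mul (by norm_num)]
  exact ENNReal.inv_mul_cancel (by simpa using hL) ENNReal.ofReal_ne_top

namespace Hyp

variable (H : Hyp h)
include H

/-- signed distance of the line -/
def pp (σ : ℝ) (p : ℝ × ℝ) : ℝ :=
  h (H.ang p.1) * Real.cos p.2 + σ * (deriv h (H.ang p.1) * Real.sin p.2)

/-- normal angle of the line -/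
def an (σ : ℝ) (p : ℝ × ℝ) : ℝ := H.ang p.1 + σ * p.2

/-- the line as a point of the punctured plane -/
def ln (σ : ℝ) (p : ℝ × ℝ) : ℝ × ℝ :=
  (Real.exp (H.pp σ p) * Real.cos (H.an σ p), Real.exp (H.pp σ p) * Real.sin (H.an σ p))

lemma pp_eq {σ : ℝ} (hσ : σ = 1 ∨ σ = -1) (p : ℝ × ℝ) :
    H.pp σ p = fl h (H.an σ p) (H.ang p.1) := by
  rcases hσ with rfl | rfl
  · simp [pp, an, fl]
  · simp [pp, an, fl]
    ring

lemma ln_eq_iff {σ τ : ℝ} {p q : ℝ × ℝ} : H.ln σ p = H.ln τ q ↔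
    H.pp σ p = H.pp τ q ∧ ∃ n : ℤ, H.an σ p = H.an τ q + n * (2 * Real.pi) := by
  constructor
  · intro e
    have e1 : exp ((H.pp σ p : ℂ) + H.an σ p * I) = exp ((H.pp τ q : ℂ) + H.an τ q * I) := by
      simp only [ln, Prod.mk.injEq] at e
      apply Complex.ext
      · simpa [exp_re] using e.1
      · simpa [exp_im] using e.2
    obtain ⟨n, hn⟩ := exp_eq_exp_iff_exists_int.1 e1
    refine ⟨?_, n, ?_⟩
    · simpa using congrArg Complex.re hn
    · simpa using congrArg Complex.im hn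
  · rintro ⟨e, n, hn⟩
    simp only [ln, e, hn, Real.cos_add_int_mul_two_pi, Real.sin_add_int_mul_two_pi]

lemma ln_inj {σ : ℝ} (hσ : σ = 1 ∨ σ = -1) : InjOn (H.ln σ) (dom (len h)) := by
  intro p hp q hq e
  obtain ⟨e1, n, hn⟩ := H.ln_eq_iff.1 e
  rw [H.pp_eq hσ, H.pp_eq hσ, ← fl_per' (H.an σ q) _ n, ← hn,
    ← (H.fl_per _).zsmul n (H.ang q.1), zsmul_eq_mul] at e1
  have key : H.ang p.1 = H.ang q.1 + n * (2 * Real.pi) := by
    have a1 := hp.2.1
    have a2 := hp.2.2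
    have b1 := hq.2.1
    have b2 := hq.2.2
    rcases hσ with rfl | rfl
    · refine (H.fl_mono _).injOn ⟨?_, ?_⟩ ⟨?_, ?_⟩ e1
      all_goals simp only [an] at hn ⊢; linarith
    · refine (H.fl_anti _).injOn ⟨?_, ?_⟩ ⟨?_, ?_⟩ e1
      all_goals simp only [an] at hn ⊢; linarith
  refine Prod.ext (H.ang_inj hp.1 hq.1 key) ?_
  simp only [an] at hn
  rcases hσ with rfl | rfl <;> linarith

lemma ln_deriv {σ : ℝ} (hσ : σ = 1 ∨ σ = -1) (p : ℝ × ℝ) : ∃ A : ℝ × ℝ →L[ℝ] ℝ × ℝ,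
    HasFDerivAt (H.ln σ) A p ∧ A.det = Real.exp (H.pp σ p) ^ 2 * Real.sin p.2 := by
  set ψ := H.ang p.1 with hψ
  set r := (rho h ψ)⁻¹ with hr
  have f1 : HasFDerivAt (fun q : ℝ × ℝ => H.ang q.1) (r • ContinuousLinearMap.fst ℝ ℝ ℝ) p :=
    (H.ang_deriv p.1).comp_hasFDerivAt p hasFDerivAt_fst
  have f2 : HasFDerivAt (fun q : ℝ × ℝ => q.2) (ContinuousLinearMap.snd ℝ ℝ ℝ) p :=
    hasFDerivAt_snd
  have f3 : HasFDerivAt (fun q : ℝ × ℝ => h (H.ang q.1))
      (deriv h ψ • r • ContinuousLinearMap.fst ℝ ℝ ℝ) p := (H.d0 ψ).comp_hasFDerivAt p f1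
  have f4 : HasFDerivAt (fun q : ℝ × ℝ => deriv h (H.ang q.1))
      (deriv (deriv h) ψ • r • ContinuousLinearMap.fst ℝ ℝ ℝ) p :=
    HasDerivAt.comp_hasFDerivAt (h₂ := deriv h) p (H.d1 ψ) f1
  set a := (deriv h ψ * Real.cos p.2 + σ * (deriv (deriv h) ψ * Real.sin p.2)) * r with ha
  set b := -h ψ * Real.sin p.2 + σ * (deriv h ψ * Real.cos p.2) with hb
  have f5 : HasFDerivAt (H.pp σ)
      (a • ContinuousLinearMap.fst ℝ ℝ ℝ + b • ContinuousLinearMap.snd ℝ ℝ ℝ) p := by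
    refine ((f3.mul f2.cos).add ((f4.mul f2.sin).const_mul σ)).congr_fderiv ?_
    ext <;> simp [ha, hb, ← hψ] <;> ring
  have f6 : HasFDerivAt (H.an σ)
      (r • ContinuousLinearMap.fst ℝ ℝ ℝ + σ • ContinuousLinearMap.snd ℝ ℝ ℝ) p :=
    f1.add (f2.const_mul σ)
  set E := Real.exp (H.pp σ p) with hE
  set c := Real.cos (H.an σ p) with hc
  set s := Real.sin (H.an σ p) with hs
  refine ⟨M2 (E * (a * c - r * s)) (E * (b * c - σ * s)) (E * (a * s + r * c))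
    (E * (b * s + σ * c)), ?_, ?_⟩
  · refine ((f5.exp.mul f6.cos).prodMk (f5.exp.mul f6.sin)).congr_fderiv ?_
    ext <;> simp [M2, ← hE, ← hc, ← hs] <;> ring
  · rw [M2_det]
    have e1 : s ^ 2 + c ^ 2 = 1 := Real.sin_sq_add_cos_sq _
    have e2 : (h ψ + deriv (deriv h) ψ) * r = 1 := mul_inv_cancel₀ (H.rho_pos ψ).ne'
    have e3 : σ ^ 2 = 1 := by rcases hσ with rfl | rfl <;> norm_num
    have e4 : a * σ - b * r = Real.sin p.2 := by
      rw [ha, hb]
      linear_combination Real.sin p.2 * e2 + deriv (deriv h) ψ * Real.sin p.2 * r * e3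
    linear_combination E ^ 2 * (a * σ - b * r) * e1 + E ^ 2 * e4

lemma ln_int {σ : ℝ} (hσ : σ = 1 ∨ σ = -1) {A : Set (ℝ × ℝ)} (hA : MeasurableSet A)
    (hA' : A ⊆ dom (len h)) : MeasurableSet (H.ln σ '' A) ∧
      ∫⁻ w in H.ln σ '' A, ENNReal.ofReal (w.1 ^ 2 + w.2 ^ 2)⁻¹ =
        ∫⁻ p in A, ENNReal.ofReal (Real.sin p.2) := by
  choose D hD hdet using H.ln_deriv hσ
  have hinj := (H.ln_inj hσ).mono hA'
  refine ⟨measurable_image_of_fderivWithin hA (fun p _ => (hD p).hasFDerivWithinAt) hinj, ?_⟩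
  rw [lintegral_image_eq_lintegral_abs_det_fderiv_mul volume hA
    (fun p _ => (hD p).hasFDerivWithinAt) hinj]
  refine setLIntegral_congr_fun hA fun p hp => ?_
  have hs := Real.sin_pos_of_pos_of_lt_pi (hA' hp).2.1 (hA' hp).2.2
  have hE := Real.exp_pos (H.pp σ p)
  rw [← ENNReal.ofReal_mul (abs_nonneg _), hdet, abs_of_pos (by positivity)]
  congr 1
  have e : (H.ln σ p).1 ^ 2 + (H.ln σ p).2 ^ 2 = Real.exp (H.pp σ p) ^ 2 := by
    simp only [ln]
    linear_combination Real.exp (H.pp σ p) ^ 2 * Real.sin_sq_add_cos_sq (H.an σ p)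
  rw [e]
  field_simp

lemma ln_cont : Continuous (H.ln 1) :=
  continuous_iff_continuousAt.2 fun p =>
    (H.ln_deriv (Or.inl rfl) p).choose_spec.1.continuousAt

lemma bil_dom {p : ℝ × ℝ} (hp : p.2 ∈ Ioo 0 Real.pi) :
    H.bil p ∈ dom (len h) ∧ H.ln (-1) (H.bil p) = H.ln 1 p := by
  obtain ⟨s', hs'⟩ := H.next_exists (s := (H.ang p.1, p.2)) hp
  rw [H.bil_of_next hs']
  refine ⟨⟨H.XX_mem _, hs'.2.1⟩, ?_⟩
  obtain ⟨n, hn⟩ := H.ang_XX s'
  obtain ⟨-, a1, a2, a3⟩ := hs'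
  simp only at a2 a3
  have e2 : (H.XX s').2 = s'.2 := rfl
  have e3 : H.an (-1) (H.XX s') = H.an 1 p + n * (2 * Real.pi) := by
    simp only [an, hn, e2]
    linarith
  refine H.ln_eq_iff.2 ⟨?_, n, e3⟩
  rw [H.pp_eq (Or.inr rfl), H.pp_eq (Or.inl rfl), e3, fl_per', hn, ← zsmul_eq_mul,
    (H.fl_per _).zsmul n]
  simp only [an, one_mul]
  exact a3.symm

lemma bil_surj {q : ℝ × ℝ} (hq : q ∈ dom (len h)) : ∃ p ∈ dom (len h), H.bil p = q := by
  have h1 : Real.pi - q.2 ∈ Ioo 0 Real.pi := ⟨by linarith [hq.2.2], by linarith [hq.2.1]⟩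
  obtain ⟨s', hs'⟩ := H.next_exists (s := (H.ang q.1, Real.pi - q.2)) h1
  refine ⟨H.XX (s'.1, Real.pi - s'.2), ⟨H.XX_mem _, ?_⟩, ?_⟩
  · have := hs'.2.1
    exact ⟨by simp only [XX]; linarith [this.2], by simp only [XX]; linarith [this.1]⟩
  · rw [H.bil_rev hs']
    simp only [sub_sub_cancel]
    exact H.XX_ang hq.1

lemma bil_meas : Measurable H.bil := by
  intro E hE
  have h1 : H.bil ⁻¹' E = (Prod.snd ⁻¹' Ioo 0 Real.pi ∩
      H.ln 1 ⁻¹' (H.ln (-1) '' (E ∩ dom (len h)))) ∪ (E \ Prod.snd ⁻¹' Ioo 0 Real.pi) := by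
    ext p
    by_cases hp : p.2 ∈ Ioo 0 Real.pi
    · obtain ⟨a, b⟩ := H.bil_dom hp
      constructor
      · intro hb
        exact Or.inl ⟨hp, _, ⟨hb, a⟩, b⟩
      · rintro (⟨-, q, hq, e⟩ | hc)
        · have : q = H.bil p := H.ln_inj (Or.inr rfl) hq.2 a (e.trans b.symm)
          rw [mem_preimage, ← this]
          exact hq.1
        · exact absurd hp hc.2
    · have : H.bil p = p := by rw [bil, dif_neg hp]
      rw [mem_preimage, this]
      constructor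
      · intro hb
        exact Or.inr ⟨hb, hp⟩
      · rintro (hc | hc)
        · exact absurd hc.1 hp
        · exact hc.1
  rw [h1]
  have h2 : MeasurableSet (Prod.snd ⁻¹' Ioo 0 Real.pi : Set (ℝ × ℝ)) :=
    measurable_snd measurableSet_Ioo
  exact (h2.inter (H.ln_cont.measurable
    (H.ln_int (Or.inr rfl) (hE.inter (dom_meas _)) inter_subset_right).1)).union (hE.diff h2)

lemma bil_pres : MeasurePreserving H.bil (liouville (len h)) (liouville (len h)) := by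
  refine ⟨H.bil_meas, Measure.ext fun E hE => ?_⟩
  rw [Measure.map_apply H.bil_meas hE, liouville_apply _ hE, liouville_apply _ (H.bil_meas hE),
    ← (H.ln_int (Or.inr rfl) (hE.inter (dom_meas _)) inter_subset_right).2,
    ← (H.ln_int (Or.inl rfl) ((H.bil_meas hE).inter (dom_meas _)) inter_subset_right).2]
  congr 3
  ext w
  constructor
  · rintro ⟨p, hp, rfl⟩
    obtain ⟨a, b⟩ := H.bil_dom hp.2.2
    exact ⟨_, ⟨hp.1, a⟩, b⟩
  · rintro ⟨q, hq, rfl⟩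
    obtain ⟨p, hp, rfl⟩ := H.bil_surj hq.2
    exact ⟨p, ⟨hq.1, hp⟩, (H.bil_dom hp.2).2.symm⟩

end Hyp

end

end Pool.Agent.Lib.MP_0281e9_an.BS

namespace Pool.Agent.Lib.MP_0281e9_an

open Set Filter Complex MeasureTheory Topology
open scoped ContDiff

theorem exists_billiard (h : ℝ → ℝ) (hs : ContDiff ℝ ∞ h) (hp : Function.Periodic h (2 * Real.pi))
    (hc : ∀ ψ, 0 < h ψ + deriv (deriv h) ψ) :
    ∃ (Y : Set ℂ) (γ : ℝ → ℂ) (L : ℝ) (φ X : ℝ × ℝ → ℝ × ℝ) (x : ℝ → ℝ),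
      IsTable Y γ L ∧ IsBilliardMap γ L φ ∧ IsProbabilityMeasure (liouville L) ∧
      MeasurePreserving φ (liouville L) (liouville L) ∧
      (∀ s s', Next h s s' → φ (X s) = X s' ∧
        φ (X (s'.1, Real.pi - s'.2)) = X (s.1, Real.pi - s.2)) ∧
      ContDiff ℝ ∞ x ∧ (∀ ψ, 0 < deriv x ψ) ∧
      ∀ s : ℝ × ℝ, s.1 ∈ Ioo (-Real.pi) Real.pi → X s = (x s.1, s.2) ∧ x s.1 ∈ Ioo 0 L := by
  have H : BS.Hyp h := ⟨hs, hp, hc⟩
  refine ⟨BS.tab h, H.gam, BS.len h, H.bil, H.XX, BS.arc h, H.isTable, H.isBilliard,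
    BS.liouville_prob H.len_pos, H.bil_pres, fun s s' h1 => ⟨H.bil_XX h1, H.bil_rev h1⟩,
    H.arc_smooth, fun ψ => by rw [H.arc_deriv']; exact H.rho_pos ψ, fun s hs => ?_⟩
  have h1 : BS.arc h s.1 ∈ Ioo 0 (BS.len h) :=
    ⟨by rw [← BS.Hyp.arc_neg_pi (h := h)]; exact H.arc_mono hs.1, H.arc_mono hs.2⟩
  refine ⟨?_, h1⟩
  simp only [BS.Hyp.XX]
  rw [(toIcoMod_eq_self H.len_pos).2 (by simpa using Ioo_subset_Ico_self h1)]

end Pool.Agent.Lib.MP_0281e9_an
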