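import Pool.Agent.Lib.MP_0281e9_an.TabB

namespace Pool.Agent.Lib.MP_0281e9_an

open Set Filter Complex
open scoped ContDiff Topology

namespace BH

lemma psib_near {η : ℝ} (hη : 0 < η) (N i : ℕ) :
    |psib η N i - i * (Real.pi + η)| ≤ η / 2 := by
  unfold psib
  split_ifs with h1 h2
  · subst h1; simp [abs_of_pos (half_pos hη)]
  · subst h2; simp [abs_of_pos (half_pos hη)]
  · simp [(half_pos hη).le]

lemma re_exp (a x : ℝ) : (exp ((a : ℝ) * I) * exp (-((x : ℝ) * I))).re = Real.cos (x - a) := by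
  rw [← Complex.exp_add, show (a : ℂ) * I + -((x : ℂ) * I) = ((a - x : ℝ) : ℂ) * I by
    push_cast; ring, exp_ofReal_mul_I_re, ← Real.cos_neg, neg_sub]

lemma other_zero {η A : ℝ} (hη : 0 < η) {N i j : ℕ} (hNη : (N + 2) * η ≤ 1 / 2) (hi : i ≤ N)
    (hj : j ≤ N) (hij : j ≠ i) (v : ℝ → ℝ) {e : ℝ} (he : |e| ≤ η / 100) :
    per (bb η A v) (psib η N i + e - psib η N j) = 0 := by
  have hN0 : (0 : ℝ) ≤ N := Nat.cast_nonneg N
  have hη1 : η ≤ 1 / 4 := by nlinarith
  have hb : ∀ t, 1 ≤ |t| → bb η A v t = 0 := fun t ht => bb_zero hη A v (by linarith)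
  have p1 := abs_le.1 (psib_near hη N i)
  have p2 := abs_le.1 (psib_near hη N j)
  rw [abs_le] at he
  have hi' : (i : ℝ) ≤ N := by exact_mod_cast hi
  have hj' : (j : ℝ) ≤ N := by exact_mod_cast hj
  have hi0 : (0 : ℝ) ≤ i := Nat.cast_nonneg i
  have hj0 : (0 : ℝ) ≤ j := Nat.cast_nonneg j
  have q1 : (i - j) * η ≤ N * η := by nlinarith
  have q2 : -(N * η) ≤ (i - j) * η := by nlinarith
  have hpi := Real.pi_gt_three
  have hpi' := Real.pi_le_four
  rcases Int.even_or_odd' ((i : ℤ) - j) with ⟨k, hk | hk⟩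
  · have hk' : (i : ℝ) - j = 2 * k := by exact_mod_cast hk
    have e1 : psib η N i + e - psib η N j - 2 * Real.pi * k =
        (psib η N i - i * (Real.pi + η)) - (psib η N j - j * (Real.pi + η)) + e + (i - j) * η := by
      linear_combination Real.pi * hk'
    rw [per_eq hb _ k (by rw [e1, abs_le]; constructor <;> linarith), bb_zero hη]
    rw [e1, le_abs]
    have hk0 : k ≠ 0 := by omega
    rcases lt_or_gt_of_ne hk0 with h | h
    · have : (k : ℝ) ≤ -1 := by exact_mod_cast (show k ≤ -1 by omega)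
      right
      have : (i - j) * η ≤ -(2 * η) := by rw [hk']; nlinarith
      linarith
    · have : (1 : ℝ) ≤ k := by exact_mod_cast (show 1 ≤ k by omega)
      left
      have : 2 * η ≤ (i - j) * η := by rw [hk']; nlinarith
      linarith
  · have hk' : (i : ℝ) - j = 2 * k + 1 := by exact_mod_cast hk
    have e1 : psib η N i + e - psib η N j - 2 * Real.pi * k = Real.pi +
        ((psib η N i - i * (Real.pi + η)) - (psib η N j - j * (Real.pi + η)) + e + (i - j) * η) := by
      linear_combination Real.pi * hk'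
    rw [per_eq hb _ k (by rw [e1, abs_le]; constructor <;> linarith), bb_zero hη]
    rw [e1, le_abs]
    left
    linarith

end BH

open BH in
/-- BLOCK H -/
theorem exists_support (N : ℕ) (hN : 0 < N) (A C : ℝ) :
    ∀ᶠ η in 𝓝[>] (0 : ℝ), ∀ v : ℕ → ℝ → ℝ, (∀ i, ContDiff ℝ ∞ (v i)) →
      (∀ i a, 0 ≤ deriv (deriv (v i)) a) →
      (∀ i ≤ N, |v i 0| ≤ C ∧ ∀ a, |a| ≤ A + 1 → |deriv (v i) a| ≤ C) →
      ∃ h : ℝ → ℝ, ContDiff ℝ ∞ h ∧ Function.Periodic h (2 * Real.pi) ∧
        (∀ ψ, 0 < h ψ + deriv (deriv h) ψ) ∧ ∀ i ≤ N, ∀ a : ℝ, |a| < A →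
          h (psib η N i + η ^ 2 * a) =
            (qpt η N i * exp (-((psib η N i + η ^ 2 * a : ℝ) * I))).re +
              rr N i * (1 - Real.cos (η ^ 2 * a)) + η ^ 4 * v i a := by
  rcases lt_or_ge A 0 with hA | hA
  · refine Eventually.of_forall fun η v _ _ _ => ⟨fun _ => 1, contDiff_const, fun _ => rfl,
      fun ψ => by simp, fun i _ a ha => ?_⟩
    linarith [abs_nonneg a]
  obtain ⟨K, hK0, hK⟩ := chi_bound
  have small : ∀ c d : ℝ, 0 < d → ∀ᶠ η in 𝓝[>] (0 : ℝ), c * η < d := by
    intro c d hd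
    refine nhdsWithin_le_nhds ?_
    have : Tendsto (fun η : ℝ => c * η) (𝓝 0) (𝓝 (c * 0)) :=
      (continuous_const.mul continuous_id).tendsto 0
    rw [mul_zero] at this
    exact this.eventually (gt_mem_nhds hd)
  filter_upwards [self_mem_nhdsWithin, small (N + 2) (1 / 2) (by norm_num),
    small A (1 / 100) (by norm_num), small (((N + 1 : ℕ) : ℝ) * (30 * C * K)) (1 / 4) (by norm_num)]
    with η hη h1 h2 h3 v hv hvv hC
  have hη : 0 < η := hη
  have hN0 : (0 : ℝ) ≤ N := Nat.cast_nonneg N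
  have hη1 : η ≤ 1 / 4 := by nlinarith
  have hμ : 0 < η ^ 2 / 20 := by positivity
  set τ := 3 / 10 * η ^ 2 with hτ
  set u0 := Uf 0 (η / 2) τ with hu0
  set uN := Uf (N * (Real.pi + η)) (N * (Real.pi + η) - η / 2) τ with huN
  have g0 : Good (1 / 2) (smax (η ^ 2 / 20) uN (smax (η ^ 2 / 20) u0 fun _ => 1)) :=
    (good_Uf _ _ _).smax hμ ((good_Uf _ _ _).smax hμ ((good_const 1).mono (by norm_num)))
  have hb : ∀ i t, 1 ≤ |t| → bb η A (v i) t = 0 := fun i t ht => bb_zero hη A _ (by linarith)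
  have g1 := good_sum (c := -(30 * C * K * η))
    (f := fun i x => per (bb η A (v i)) (x - psib η N i)) (N + 1) fun i hi =>
      good_per (hb i) (bb_contDiff η A (hv i)) (bb_le hη (by linarith) hA (hv i) (hvv i)
        (hC i (by omega)).1 (hC i (by omega)).2 hK0 hK) _
  have g := g0.add g1
  refine ⟨_, g.cd, g.per, fun ψ => lt_of_lt_of_le (by linarith) (g.le ψ), fun i hi a ha => ?_⟩
  have he : |η ^ 2 * a| ≤ η / 100 := by
    rw [abs_mul, abs_of_pos (pow_pos hη 2)]
    nlinarith [mul_le_mul_of_nonneg_left ha.le (pow_pos hη 2).le]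
  have hsum : ∑ j ∈ Finset.range (N + 1),
      per (bb η A (v j)) (psib η N i + η ^ 2 * a - psib η N j) = η ^ 4 * v i a := by
    rw [Finset.sum_eq_single i]
    · rw [per_eq (hb i) _ 0 (by
        rw [abs_le] at he ⊢; push_cast; constructor <;> linarith [he.1, he.2])]
      rw [← bb_eq hη (by linarith) (hv i) ha.le]
      congr 1
      push_cast; ring
    · intro j hj hji
      exact other_zero hη h1.le hi (by simpa [Nat.lt_succ_iff] using hj) hji _ he
    · intro h; exact absurd (Finset.mem_range.2 (by omega)) h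
  simp only [hsum]
  congr 1
  have low0 : ∀ j : ℕ, 1 ≤ j → j ≤ N → ∀ x, |x - j * (Real.pi + η)| ≤ 6 / 10 * η →
      u0 x ≤ 1 - η ^ 2 / 20 := by
    intro j hj hjN x hx
    have hjN' : (j : ℝ) ≤ N := by exact_mod_cast hjN
    have := U_low hη hj (by nlinarith) (e := -(x - j * (Real.pi + η))) (by rwa [abs_neg])
      (t := -x) (by ring)
    rw [show -x + η / 2 = -(x - η / 2) by ring, Real.cos_neg, Real.cos_neg] at this
    simpa only [hu0, Uf, sub_zero] using this
  have lowN : ∀ j : ℕ, j < N → ∀ x, |x - j * (Real.pi + η)| ≤ 6 / 10 * η →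
      uN x ≤ 1 - η ^ 2 / 20 := by
    intro j hjN x hx
    have hc : ((N - j : ℕ) : ℝ) = N - j := by push_cast [Nat.cast_sub hjN.le]; ring
    have hj0 : (0 : ℝ) ≤ j := Nat.cast_nonneg j
    have := U_low hη (j := N - j) (by omega) (by rw [hc]; nlinarith) hx
      (t := x - N * (Real.pi + η)) (by rw [hc]; ring)
    rw [show x - N * (Real.pi + η) + η / 2 = x - (N * (Real.pi + η) - η / 2) by ring] at this
    exact this
  have hx : |psib η N i + η ^ 2 * a - i * (Real.pi + η)| ≤ 6 / 10 * η := by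
    have := abs_le.1 (psib_near hη N i)
    rw [abs_le] at he ⊢
    constructor <;> linarith [he.1, he.2, this.1, this.2]
  have hcos : η ^ 2 * a = psib η N i + η ^ 2 * a - psib η N i := by ring
  generalize hψ : psib η N i + η ^ 2 * a = x at *
  by_cases hi0 : i = 0
  · subst hi0
    have hp : psib η N 0 = η / 2 := by simp [psib]
    have hh : 1 + η ^ 2 / 20 ≤ u0 x := by
      have := U_high hη (by linarith) (t := -x) (by
        rw [show -x + η / 2 = -(x - η / 2) by ring, abs_neg, ← hp, ← hcos]; exact he)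
      rw [show -x + η / 2 = -(x - η / 2) by ring, Real.cos_neg, Real.cos_neg] at this
      simpa only [hu0, Uf, sub_zero] using this
    have e1 : smax (η ^ 2 / 20) u0 (fun _ => 1) x = u0 x := smax_left hμ hh
    rw [smax_right hμ (by rw [e1]; linarith [lowN 0 hN x hx]), e1, hcos]
    simp only [qpt, rr, true_or, if_true, add_mul, add_re, mul_assoc, re_ofReal_mul, re_exp, hp,
      hu0, Uf, hτ]
    simp only [Nat.cast_zero, zero_mul]
    ring
  have e1 : smax (η ^ 2 / 20) u0 (fun _ => 1) x = 1 :=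
    smax_right hμ (by linarith [low0 i (by omega) hi x hx])
  by_cases hiN : i = N
  · subst hiN
    have hp : psib η i i = i * (Real.pi + η) - η / 2 := by simp [psib, hi0]
    have hh : 1 + η ^ 2 / 20 ≤ uN x := by
      have := U_high hη (by linarith) (t := x - i * (Real.pi + η)) (by
        rw [show x - i * (Real.pi + η) + η / 2 = x - (i * (Real.pi + η) - η / 2) by ring, ← hp,
          ← hcos]; exact he)
      rw [show x - i * (Real.pi + η) + η / 2 = x - (i * (Real.pi + η) - η / 2) by ring] at this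
      exact this
    rw [smax_left hμ (by rw [e1]; exact hh), hcos]
    simp only [qpt, rr, or_true, if_true, add_mul, add_re, mul_assoc, re_ofReal_mul, re_exp, hp,
      huN, Uf, hτ]
    ring
  · have hp : psib η N i = i * (Real.pi + η) := by simp [psib, hi0, hiN]
    rw [smax_right hμ (by rw [e1]; linarith [lowN i (by omega) x hx]), e1, hcos]
    simp only [qpt, rr, hi0, hiN, or_self, if_false, add_zero, re_exp, hp]
    ring

end Pool.Agent.Lib.MP_0281e9_an
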