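import Pool.Agent.Lib.MP_0281e9_an.TurWord

/-! Divergence free fields are `C^r` limits of finite sums of ridge fields. -/

open Set Filter Topology Metric Complex MeasureTheory VectorFourier
open scoped ContDiff ComplexConjugate FourierTransform RealInnerProductSpace Real SchwartzMap

namespace Pool.Agent.Lib.MP_0281e9_an.BT

/-- The field `Y` is tangent at time zero to a smooth curve of words. -/
def Tan (Y : ℂ → ℂ) : Prop :=
  ∃ P : ℝ × ℂ → ℂ, ContDiff ℝ ∞ P ∧ (∀ s, Wd fun y => P (s, y)) ∧ (∀ y, P (0, y) = y) ∧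
    ∀ y, HasDerivAt (fun s => P (s, y)) (Y y) 0

theorem tan_zero : Tan fun _ => 0 :=
  ⟨fun q => q.2, contDiff_snd, fun _ => wd_id, fun _ => rfl, fun y => hasDerivAt_const _ y⟩

theorem Tan.add_ridge {Y : ℂ → ℂ} (hY : Tan Y) (ξ : ℂ) {g : ℝ → ℝ} (hg : ContDiff ℝ ∞ g) {C : ℝ}
    (hd : ∀ x, |deriv g x| ≤ C) : Tan fun y => g (conj ξ * y).re • (I * ξ) + Y y := by
  obtain ⟨P, hP, hW, h0, hD⟩ := hY
  have hR : ContDiff ℝ ∞ fun y : ℂ => g (conj ξ * y).re • (I * ξ) :=
    (hg.comp (contDiff_re'.comp (contDiff_const.mul contDiff_id))).smul contDiff_const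
  refine ⟨fun q => P q + q.1 • (g (conj ξ * P q).re • (I * ξ)),
    hP.add (contDiff_fst.smul (hR.comp hP)), fun s => ?_, fun y => by simp [h0], fun y => ?_⟩
  · have := wd_ridge ξ (g := fun x => s * g x) (by fun_prop) (C := |s| * C) (by
      intro x
      rw [deriv_const_mul_field, abs_mul]
      gcongr
      exact hd x)
    exact (this.comp (hW s)).congr fun y => by simp only [mul_smul]
  · have h1 := ((hR.differentiable (by simp) (P (0, y))).hasFDerivAt.comp_hasDerivAt (0:ℝ) (hD y))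
    have h2 := (hD y).fun_add ((hasDerivAt_id (0:ℝ)).fun_smul h1)
    simp only [id, zero_smul, one_smul, zero_add, Function.comp, h0] at h2
    rw [add_comm (Y y)] at h2
    exact h2

theorem tan_sum {ι : Type*} (s : Finset ι) (ξ : ι → ℂ) (g : ι → ℝ → ℝ)
    (hg : ∀ i, ContDiff ℝ ∞ (g i)) (hd : ∀ i, ∃ C, ∀ x, |deriv (g i) x| ≤ C) :
    Tan fun y => ∑ i ∈ s, g i (conj (ξ i) * y).re • (I * ξ i) := by
  classical
  induction s using Finset.induction_on with
  | empty => simpa using tan_zero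
  | insert a s ha ih =>
    simp only [Finset.sum_insert ha]
    obtain ⟨C, hC⟩ := hd a
    exact ih.add_ridge _ (hg a) hC

/-- Plane waves. -/
noncomputable def wave (q : ℂ × ℂ) : ℂ := cexp (((-2 * π * (conj q.1 * q.2).re : ℝ) : ℂ) * I)

theorem wave_smooth : ContDiff ℝ ∞ wave := by
  unfold wave
  refine ContDiff.cexp ((contDiff_ofReal'.comp (contDiff_const.mul (contDiff_re'.comp
    (ContDiff.mul ?_ contDiff_snd)))).mul contDiff_const)
  exact conjCLE.contDiff.comp contDiff_fst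

theorem wave_eq (ξ w : ℂ) : wave (ξ, w) = 𝐞 (-⟪ξ, w⟫) • (1 : ℂ) := by
  simp only [wave, Circle.smul_def, Real.fourierChar_apply, smul_eq_mul, mul_one, Complex.inner]
  congr 1
  push_cast
  rw [mul_comm w]
  ring

/-- Derivatives of plane waves. -/
noncomputable def ker (n : ℕ) (q : ℂ × ℂ) : ContinuousMultilinearMap ℝ (fun _ : Fin n => ℂ) ℂ :=
  iteratedFDeriv ℝ n (fun w => wave (q.1, w)) q.2

theorem ker_cont (n : ℕ) : Continuous (ker n) := continuous_iteratedFDeriv_param wave_smooth n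

theorem ker_eq (n : ℕ) (ξ w : ℂ) :
    ker n (ξ, w) = 𝐞 (-⟪ξ, w⟫) • fourierPowSMulRight (innerSL ℝ) (fun _ => (1:ℂ)) ξ n := by
  have h := iteratedFDeriv_fourierIntegral (μ := Measure.dirac ξ) (innerSL ℝ) (N := ⊤)
    (f := fun _ : ℂ => (1:ℂ)) (fun n _ => integrable_dirac (by simp)) aestronglyMeasurable_const
    (n := n) le_top
  have e : fourierIntegral 𝐞 (Measure.dirac ξ) (innerSL ℝ).toLinearMap₁₂ (fun _ : ℂ => (1:ℂ)) =
      fun w => wave (ξ, w) := by
    funext w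
    simp [fourierIntegral, wave_eq]
  rw [e] at h
  rw [ker, h]
  simp only [fourierIntegral, integral_dirac]
  rfl

theorem norm_ker_le (n : ℕ) (ξ w : ℂ) : ‖ker n (ξ, w)‖ ≤ (2 * π) ^ n * ‖ξ‖ ^ n := by
  rw [ker_eq, Circle.smul_def, norm_smul, Circle.norm_coe, one_mul]
  refine (norm_fourierPowSMulRight_le _ _ _ _).trans ?_
  simp only [norm_one, mul_one]
  have := norm_innerSL_le (𝕜 := ℝ) (E := ℂ)
  refine mul_le_mul_of_nonneg_right (pow_le_pow_left₀ (by positivity) ?_ _) (by positivity)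
  exact mul_le_of_le_one_right Real.two_pi_pos.le this

theorem iteratedFDeriv_fourier_eq (f : 𝓢(ℂ, ℂ)) (n : ℕ) (w : ℂ) :
    iteratedFDeriv ℝ n (𝓕 (f : ℂ → ℂ)) w = ∫ ξ, f ξ • ker n (ξ, w) := by
  rw [Real.iteratedFDeriv_fourier (N := ⊤) (fun n _ => f.integrable_pow_mul volume n)
    f.continuous.aestronglyMeasurable le_top, Real.fourier_eq]
  congr 1
  funext ξ
  rw [ker_eq, smul_comm]
  congr 1
  ext m
  simp [mul_comm]
  ring

theorem integral_simple {B : Type*} [NormedAddCommGroup B] [NormedSpace ℂ B] [CompleteSpace B]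
    {f : ℂ → ℂ} (hf : Integrable f) (p : SimpleFunc ℂ ℂ) (g : ℂ → B) :
    ∫ ξ, f ξ • g (p ξ) = ∑ η ∈ p.range, (∫ ξ in p ⁻¹' {η}, f ξ) • g η := by
  classical
  have e : ∀ ξ, f ξ • g (p ξ) = ∑ η ∈ p.range, (p ⁻¹' {η}).indicator f ξ • g η := by
    intro ξ
    rw [Finset.sum_eq_single (p ξ)]
    · simp
    · intro η _ hη
      rw [indicator_of_notMem (by simpa using hη.symm), zero_smul]
    · intro h; exact absurd (p.mem_range_self ξ) h
  simp only [e]
  rw [integral_finsetSum _ fun η _ => (hf.indicator (p.measurableSet_fiber η)).smul_const _]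
  refine Finset.sum_congr rfl fun η _ => ?_
  rw [integral_smul_const, integral_indicator (p.measurableSet_fiber η)]

theorem fourier_approx (f : 𝓢(ℂ, ℂ)) (r : ℕ) {K : Set ℂ} (hK : IsCompact K) {δ : ℝ} (hδ : 0 < δ) :
    ∃ (s : Finset ℂ) (c : ℂ → ℂ),
      Sm r K δ fun w => ∑ η ∈ s, c η • wave (η, w) - 𝓕 (f : ℂ → ℂ) w := by
  let p : ℕ → SimpleFunc ℂ ℂ := SimpleFunc.approxOn id measurable_id univ 0 (mem_univ _)
  have hp1 : ∀ ξ, Tendsto (fun m => p m ξ) atTop (𝓝 ξ) := fun ξ =>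
    SimpleFunc.tendsto_approxOn measurable_id (mem_univ _) (by simp)
  have hp2 : ∀ m ξ, ‖p m ξ‖ ≤ ‖ξ‖ + ‖ξ‖ := fun m ξ =>
    SimpleFunc.norm_approxOn_zero_le measurable_id (mem_univ _) ξ m
  have hF : ContDiff ℝ ∞ (𝓕 (f : ℂ → ℂ)) :=
    Real.contDiff_fourier (N := ⊤) fun n _ => f.integrable_pow_mul volume n
  have key : ∀ n : ℕ, ∀ᶠ m in atTop, ∀ w ∈ K,
      ‖(∫ ξ, f ξ • ker n (p m ξ, w)) - ∫ ξ, f ξ • ker n (ξ, w)‖ ≤ δ := by
    intro n
    have h1 : ∀ w ∈ K, {q : ℕ × ℂ |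
        ‖(∫ ξ, f ξ • ker n (p q.1 ξ, q.2)) - ∫ ξ, f ξ • ker n (ξ, q.2)‖ ≤ δ} ∈
        atTop ×ˢ 𝓝 w := by
      intro w _
      have t1 : Tendsto (fun q : ℕ × ℂ => ∫ ξ, f ξ • ker n (p q.1 ξ, q.2)) (atTop ×ˢ 𝓝 w)
          (𝓝 (∫ ξ, f ξ • ker n (ξ, w))) := by
        refine tendsto_integral_filter_of_dominated_convergence
          (fun ξ => (2 * π) ^ n * 2 ^ n * (‖ξ‖ ^ n * ‖f ξ‖)) ?_ ?_
          ((f.integrable_pow_mul volume n).const_mul _) ?_
        · refine Eventually.of_forall fun q => f.continuous.aestronglyMeasurable.smul ?_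
          exact ((p q.1).map fun η => ker n (η, q.2)).aestronglyMeasurable
        · refine Eventually.of_forall fun q => Eventually.of_forall fun ξ => ?_
          rw [norm_smul]
          calc _ ≤ ‖f ξ‖ * ((2 * π) ^ n * (‖ξ‖ + ‖ξ‖) ^ n) := by
                gcongr
                exact (norm_ker_le _ _ _).trans (by gcongr; exact hp2 _ _)
            _ = _ := by rw [← two_mul, mul_pow 2 ‖ξ‖]; ring
        · refine Eventually.of_forall fun ξ => Tendsto.const_smul ?_ _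
          exact ((ker_cont n).tendsto (ξ, w)).comp
            (((hp1 ξ).comp tendsto_fst).prodMk_nhds tendsto_snd)
      have t2 : Tendsto (fun q : ℕ × ℂ => ∫ ξ, f ξ • ker n (ξ, q.2)) (atTop ×ˢ 𝓝 w)
          (𝓝 (∫ ξ, f ξ • ker n (ξ, w))) := by
        simp only [← iteratedFDeriv_fourier_eq]
        exact ((hF.continuous_iteratedFDeriv (nat_le_infty n)).tendsto w).comp tendsto_snd
      have t3 := (t1.sub t2).norm
      simp only [sub_self, norm_zero] at t3
      exact (t3.eventually (gt_mem_nhds hδ)).mono fun q hq => le_of_lt hq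
    have h2 := hK.mem_prod_nhdsSet_of_forall h1
    exact (Eventually.curry h2).mono fun m hm w hw => hm.self_of_nhdsSet w hw
  obtain ⟨m, hm⟩ := ((eventually_all_finset (Finset.range (r + 1))).2 fun k _ => key k).exists
  refine ⟨(p m).range, fun η => ∫ ξ in p m ⁻¹' {η}, f ξ, fun k hk w hw => ?_⟩
  have hw' : ∀ η, ContDiff ℝ ∞ fun w => wave (η, w) := fun η =>
    wave_smooth.comp (contDiff_const.prodMk contDiff_id)
  rw [fun_iteratedFDeriv_sub_apply
    ((ContDiff.sum fun η _ => (hw' η).const_smul _).of_le (nat_le_infty k)).contDiffAt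
    (hF.of_le (nat_le_infty k)).contDiffAt, iteratedFDeriv_fourier_eq,
    iteratedFDeriv_fun_sum_apply fun η _ =>
      (((hw' η).const_smul _).of_le (nat_le_infty k)).contDiffAt]
  have := hm k (Finset.mem_range.2 (by omega)) w hw
  rw [integral_simple f.integrable (p m) (fun η => ker k (η, w))] at this
  convert this using 3
  refine Finset.sum_congr rfl fun η _ => ?_
  exact iteratedFDeriv_const_smul_apply' ((hw' η).of_le (nat_le_infty k)).contDiffAt

/-- The symplectic gradient of a covector. -/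
noncomputable def Jm : (ℂ →L[ℝ] ℝ) →L[ℝ] ℂ :=
  (ContinuousLinearMap.apply ℝ ℝ (1:ℂ)).smulRight I - (ContinuousLinearMap.apply ℝ ℝ I).smulRight 1

theorem Jm_apply (φ : ℂ →L[ℝ] ℝ) : Jm φ = φ 1 • I - φ I • (1:ℂ) := by simp [Jm]

theorem exists_ham {X : ℂ → ℂ} (hX : ContDiff ℝ ∞ X)
    (hdiv : ∀ z, (fderiv ℝ X z 1).re + (fderiv ℝ X z I).im = 0) :
    ∃ H : ℂ → ℝ, ContDiff ℝ ∞ H ∧ ∀ z, Jm (fderiv ℝ H z) = X z := by
  let B : ℂ →L[ℝ] ℂ →L[ℝ] ℝ := imCLM.smulRight reCLM - reCLM.smulRight imCLM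
  have hB : ∀ x y, B x y = x.im * y.re - x.re * y.im := fun x y => by simp [B]
  have hw : ContDiff ℝ ∞ fun z => B (X z) := B.contDiff.comp hX
  obtain ⟨H, hH⟩ := (convex_univ (𝕜 := ℝ) (E := ℂ)).exists_forall_hasFDerivAt_of_fderiv_symmetric
    isOpen_univ (hw.differentiable (by simp)).differentiableOn (by
      intro a _ x y
      have h1 := (B.hasFDerivAt.comp a (hX.differentiable (by simp) a).hasFDerivAt).fderiv
      rw [show (fun z => B (X z)) = B ∘ X from rfl, h1]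
      simp only [ContinuousLinearMap.comp_apply, hB]
      rw [clm_expand _ x, clm_expand _ y]
      have := hdiv a
      simp
      linear_combination (x.im * y.re - x.re * y.im) * this)
  have hf : fderiv ℝ H = fun z => B (X z) := funext fun z => (hH z (mem_univ _)).fderiv
  refine ⟨H, contDiff_infty_iff_fderiv.2 ⟨fun z => (hH z (mem_univ _)).differentiableAt,
    hf ▸ hw⟩, fun z => ?_⟩
  rw [hf, Jm_apply]
  apply Complex.ext <;> simp [hB]

theorem ham_approx {H : ℂ → ℝ} (hH : ContDiff ℝ ∞ H) (r : ℕ) (ρ : ℝ) {δ : ℝ} (hδ : 0 < δ) :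
    ∃ Y, Tan Y ∧ ContDiff ℝ ∞ Y ∧
      Sm r (closedBall 0 ρ) δ fun z => Y z - Jm (fderiv ℝ H z) := by
  let χ : ContDiffBump (0:ℂ) := ⟨|ρ| + 1, |ρ| + 2, by positivity, by linarith⟩
  have hc : ContDiff ℝ ∞ fun z => ((χ z * H z : ℝ) : ℂ) :=
    contDiff_ofReal'.comp (χ.contDiff.mul hH)
  have hs : HasCompactSupport fun z => ((χ z * H z : ℝ) : ℂ) :=
    (χ.hasCompactSupport.mul_right (f' := H)).comp_left (g := fun x : ℝ => (x:ℂ)) (by simp)
  let f : 𝓢(ℂ, ℂ) := 𝓕⁻ (hs.toSchwartzMap hc)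
  have hf : 𝓕 (f : ℂ → ℂ) = fun z => ((χ z * H z : ℝ) : ℂ) := by
    rw [← SchwartzMap.fourier_coe, FourierTransform.fourier_fourierInv_eq]
    rfl
  obtain ⟨s, c, hsc⟩ := fourier_approx f (r + 1) (isCompact_closedBall 0 ρ)
    (δ := δ / (‖Jm‖ + 1)) (by positivity)
  rw [hf] at hsc
  have hw' : ∀ η, ContDiff ℝ ∞ fun w => wave (η, w) := fun η =>
    wave_smooth.comp (contDiff_const.prodMk contDiff_id)
  have hS : ContDiff ℝ ∞ fun w => ∑ η ∈ s, c η • wave (η, w) :=
    ContDiff.sum fun η _ => (hw' η).const_smul _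
  let G : ℂ → ℝ → ℝ := fun η x => (c η).re * Real.cos (2 * π * x) + (c η).im * Real.sin (2 * π * x)
  let g : ℂ → ℝ → ℝ := fun η x =>
    2 * π * ((c η).im * Real.cos (2 * π * x) - (c η).re * Real.sin (2 * π * x))
  have hG : ∀ η x, HasDerivAt (G η) (g η x) x := by
    intro η x
    have h1 := (hasDerivAt_id x).const_mul (2 * π)
    refine ((h1.cos.const_mul (c η).re).fun_add (h1.sin.const_mul (c η).im)).congr_deriv ?_
    simp only [g, id]; ring
  have hg : ∀ η, ContDiff ℝ ∞ (g η) := fun η => by simp only [g]; fun_prop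
  have hg' : ∀ η, ∃ C, ∀ x, |deriv (g η) x| ≤ C := by
    intro η
    refine ⟨2 * π * (|(c η).im| * (2 * π) + |(c η).re| * (2 * π)), fun x => ?_⟩
    have h1 := (hasDerivAt_id x).const_mul (2 * π)
    have h2 := ((h1.cos.const_mul (c η).im).fun_sub (h1.sin.const_mul (c η).re)).const_mul (2 * π)
    rw [show deriv (g η) x = _ from h2.deriv, abs_mul, abs_of_pos Real.two_pi_pos]
    gcongr
    refine (abs_sub _ _).trans ?_
    rw [mul_one, abs_mul, abs_mul, abs_mul (c η).re, abs_mul (Real.cos _), abs_neg,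
      abs_of_pos Real.two_pi_pos]
    refine add_le_add (mul_le_mul_of_nonneg_left ?_ (abs_nonneg _))
      (mul_le_mul_of_nonneg_left ?_ (abs_nonneg _))
    · exact mul_le_of_le_one_left Real.two_pi_pos.le (Real.abs_sin_le_one _)
    · exact mul_le_of_le_one_left Real.two_pi_pos.le (Real.abs_cos_le_one _)
  have hre : ∀ w, reCLM (∑ η ∈ s, c η • wave (η, w)) = ∑ η ∈ s, G η (conj η * w).re := by
    intro w
    rw [map_sum]
    refine Finset.sum_congr rfl fun η _ => ?_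
    simp only [reCLM_apply, smul_eq_mul, mul_re (c η), wave, exp_ofReal_mul_I_re,
      exp_ofReal_mul_I_im, G, neg_mul, Real.cos_neg, Real.sin_neg]
    ring
  have hL : ∀ η w : ℂ, HasFDerivAt (fun w : ℂ => (conj η * w).re)
      (η.re • reCLM + η.im • imCLM) w := by
    intro η w
    convert (η.re • reCLM + η.im • imCLM).hasFDerivAt (x := w) using 1
    funext w; simp
  have hD : ∀ w, HasFDerivAt (fun w => ∑ η ∈ s, G η (conj η * w).re)
      (∑ η ∈ s, g η (conj η * w).re • (η.re • reCLM + η.im • imCLM)) w := fun w =>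
    HasFDerivAt.fun_sum fun η _ => (hG η _).comp_hasFDerivAt w (hL η w)
  refine ⟨_, tan_sum s id g hg hg', ContDiff.sum fun η _ => ((hg η).comp
    (contDiff_re'.comp (contDiff_const.mul contDiff_id))).smul contDiff_const, ?_⟩
  have h1 := hsc.clm (hS.sub hc) reCLM
  have hsm : ContDiff ℝ ∞ fun w => reCLM (∑ η ∈ s, c η • wave (η, w) - ((χ w * H w : ℝ) : ℂ)) :=
    reCLM.contDiff.comp (hS.sub hc)
  have h2 := h1.fderiv.clm (hsm.fderiv_right infty_add_one_le) Jm
  refine Sm.mono (Sm.congr h2 fun z hz => ?_) le_rfl subset_rfl ?_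
  · have hball : ball (0:ℂ) (|ρ| + 1) ∈ 𝓝 z := isOpen_ball.mem_nhds (by
      simp only [mem_closedBall, mem_ball, dist_zero_right] at hz ⊢
      linarith [le_abs_self ρ])
    filter_upwards [eventually_mem_nhds_iff.2 hball] with w hw
    have e : (fun w => reCLM (∑ η ∈ s, c η • wave (η, w) - ((χ w * H w : ℝ) : ℂ))) =ᶠ[𝓝 w]
        fun w => ∑ η ∈ s, G η (conj η * w).re - H w := by
      filter_upwards [hw] with v hv
      rw [map_sub, hre, χ.one_of_mem_closedBall (ball_subset_closedBall hv)]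
      simp
    rw [e.fderiv_eq, ((hD w).fun_sub (hH.differentiable (by simp) w).hasFDerivAt).fderiv, map_sub,
      map_sum]
    congr 1
    refine Finset.sum_congr rfl fun η _ => ?_
    rw [map_smul, Jm_apply]
    congr 1
    apply Complex.ext <;> simp
  · rw [reCLM_norm, one_mul, ← mul_div_assoc, div_le_iff₀ (by positivity)]
    nlinarith [norm_nonneg Jm]

theorem ridge_approx {X : ℂ → ℂ} (hX : ContDiff ℝ ∞ X)
    (hdiv : ∀ z, (fderiv ℝ X z 1).re + (fderiv ℝ X z I).im = 0) (r : ℕ) (ρ : ℝ) {δ : ℝ}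
    (hδ : 0 < δ) : ∃ Y, Tan Y ∧ ContDiff ℝ ∞ Y ∧ Sm r (closedBall 0 ρ) δ fun z => Y z - X z := by
  obtain ⟨H, hH, e⟩ := exists_ham hX hdiv
  simpa only [e] using ham_approx hH r ρ hδ

end Pool.Agent.Lib.MP_0281e9_an.BT
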