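import Pool.Agent.Lib.MP_0281e9_an.TurEuler
import Pool.Agent.Lib.MP_0281e9_an.TurRidge

/-! Every area preserving diffeomorphism of the plane is a `C^r` limit of Hénon words. -/

open Set Filter Topology Metric Complex MeasureTheory
open scoped ContDiff

namespace Pool.Agent.Lib.MP_0281e9_an

namespace BT

/-- `f` is approximable by words on `K` in every `C^r` norm. -/
def Ap (K : Set ℂ) (f : ℂ → ℂ) : Prop :=
  ∀ (r : ℕ) (η : ℝ), 0 < η → ∃ W, Wd W ∧ Sm r K η fun z => W z - f z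

theorem Wd.ap {W : ℂ → ℂ} (h : Wd W) (K : Set ℂ) : Ap K W := fun r η hη =>
  ⟨W, h, fun k _ z _ => by simpa using hη.le⟩

theorem step_words {X : ℝ × ℂ → ℂ} (hX : ContDiff ℝ ∞ X)
    (hdiv : ∀ t z, (fderiv ℝ (fun y => X (t, y)) z 1).re +
      (fderiv ℝ (fun y => X (t, y)) z I).im = 0) (r : ℕ) (ρ : ℝ) {δ : ℝ} (hδ : 0 < δ) :
    ∀ᶠ s in 𝓝 (0:ℝ), ∀ t ∈ Icc (0:ℝ) 1, ∃ A : ℂ → ℂ, ContDiff ℝ ∞ A ∧
      (Wd fun y => y + s • A y) ∧ Sm r (closedBall 0 ρ) δ fun y => A y - X (t, y) := by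
  apply isCompact_Icc.eventually_forall_of_forall_eventually
  intro t _
  have hXt : ∀ t, ContDiff ℝ ∞ fun y => X (t, y) := fun t => by fun_prop
  obtain ⟨Y, ⟨P, hP, hW, h0, hD⟩, hY, hYX⟩ :=
    ridge_approx (hXt t) (hdiv t) r ρ (δ := δ / 3) (by positivity)
  obtain ⟨A, hA, hA1, hA2⟩ := hadamard hP
  have hAY : ∀ y, A (0, y) = Y y := fun y => (hA2 y).unique (hD y)
  have e1 := eventually_sm_sub hA (isCompact_closedBall 0 ρ) 0 r (η := δ / 3) (by positivity)
  have e2 := eventually_sm_sub hX (isCompact_closedBall 0 ρ) t r (η := δ / 3) (by positivity)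
  rw [nhds_prod_eq]
  filter_upwards [e1.prod_mk e2] with q hq
  have hAs : ContDiff ℝ ∞ fun y => A (q.1, y) := by fun_prop
  refine ⟨fun y => A (q.1, y), hAs, (hW q.1).congr fun y => by rw [hA1, h0], ?_⟩
  have h1 := hq.1
  simp only [hAY] at h1
  have := (h1.trans hAs hY (hXt t) hYX).trans hAs (hXt t) (hXt q.2) hq.2.symm
  exact this.mono le_rfl subset_rfl (by linarith)

theorem flow_step {Φ X : ℝ × ℂ → ℂ} {V K : Set ℂ} (hΦ : ContDiff ℝ ∞ Φ) (hX : ContDiff ℝ ∞ X)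
    (hV : IsOpen V) (hK : IsCompact K) (hKV : K ⊆ V)
    (ode : ∀ t ∈ Icc (0:ℝ) 1, ∀ z ∈ V, HasDerivAt (fun s => Φ (s, z)) (X (t, Φ (t, z))) t)
    (hdiv : ∀ t z, (fderiv ℝ (fun y => X (t, y)) z 1).re +
      (fderiv ℝ (fun y => X (t, y)) z I).im = 0)
    (h0 : Ap K fun z => Φ (0, z)) : Ap K fun z => Φ (1, z) := by
  intro r η hη
  obtain ⟨δ, hδ, ρ, N0, H⟩ := euler r hΦ hX hV hK hKV ode hη
  obtain ⟨W0, hW0, hS0⟩ := h0 r δ hδ
  have h1 := (tendsto_one_div_atTop_nhds_zero_nat (𝕜 := ℝ)).eventually (step_words hX hdiv r ρ hδ)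
  obtain ⟨N, hN, hN0⟩ := (h1.and (eventually_ge_atTop N0)).exists
  have h2 : ∀ j : ℕ, ∃ A : ℂ → ℂ, ContDiff ℝ ∞ A ∧ (Wd fun y => y + (1 / N : ℝ) • A y) ∧
      (j < N → Sm r (closedBall 0 ρ) δ fun y => A y - X ((j:ℝ) / N, y)) := by
    intro j
    by_cases hj : j < N
    · have hNpos : (0:ℝ) < N := by exact_mod_cast (by omega : 0 < N)
      obtain ⟨A, hA⟩ := hN ((j:ℝ) / N) ⟨by positivity, by
        rw [div_le_one hNpos]; exact_mod_cast hj.le⟩
      exact ⟨A, hA.1, hA.2.1, fun _ => hA.2.2⟩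
    · exact ⟨fun _ => 0, contDiff_const, wd_id.congr fun y => by simp, fun h => absurd h hj⟩
  choose A hA1 hA2 hA3 using h2
  refine ⟨eul A (1 / N) W0 N, ?_, H N hN0 A W0 hA1 hW0.smooth hA3 hS0⟩
  have : ∀ j, Wd (eul A (1 / N) W0 j) := by
    intro j
    induction j with
    | zero => exact hW0
    | succ j ih => exact (hA2 j).comp ih
  exact this N

theorem div_free {Φ X : ℝ × ℂ → ℂ} (hΦ : ContDiff ℝ ∞ Φ) (hX : ContDiff ℝ ∞ X)
    (ode : ∀ t z, HasDerivAt (fun s => Φ (s, z)) (X (t, Φ (t, z))) t)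
    (hdet : ∀ t z, (fderiv ℝ (fun z => Φ (t, z)) z).det = 1) (t : ℝ) (z : ℂ) :
    (fderiv ℝ (fun y => X (t, y)) (Φ (t, z)) 1).re +
      (fderiv ℝ (fun y => X (t, y)) (Φ (t, z)) I).im = 0 := by
  have h := hasDerivAt_fderiv_ode hΦ hX isOpen_univ (fun z _ => ode t z) (mem_univ z)
  set B := fderiv ℝ (fun y => X (t, y)) (Φ (t, z))
  have a1 := h.clm_apply (hasDerivAt_const t (1:ℂ))
  have a2 := h.clm_apply (hasDerivAt_const t I)
  have b1 := reCLM.hasFDerivAt.comp_hasDerivAt t a1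
  have b2 := imCLM.hasFDerivAt.comp_hasDerivAt t a1
  have b3 := reCLM.hasFDerivAt.comp_hasDerivAt t a2
  have b4 := imCLM.hasFDerivAt.comp_hasDerivAt t a2
  have c := (b1.fun_mul b4).fun_sub (b3.fun_mul b2)
  have e : (fun s => (reCLM ∘ fun y => fderiv ℝ (fun z => Φ (y, z)) z 1) s *
      (imCLM ∘ fun y => fderiv ℝ (fun z => Φ (y, z)) z I) s -
      (reCLM ∘ fun y => fderiv ℝ (fun z => Φ (y, z)) z I) s *
      (imCLM ∘ fun y => fderiv ℝ (fun z => Φ (y, z)) z 1) s) = fun _ => 1 := by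
    funext s
    rw [← hdet s z, det_eq]
    rfl
  rw [e] at c
  have c0 := c.unique (hasDerivAt_const t (1:ℝ))
  have hd := hdet t z
  rw [det_eq] at hd
  simp only [Function.comp, ContinuousLinearMap.comp_apply, map_zero, add_zero, reCLM_apply,
    imCLM_apply] at c0
  generalize fderiv ℝ (fun z => Φ (t, z)) z 1 = a at c0 hd
  generalize fderiv ℝ (fun z => Φ (t, z)) z I = b at c0 hd
  rw [clm_expand B a, clm_expand B b] at c0
  simp at c0
  linear_combination c0 - ((B 1).re + (B I).im) * hd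

/-- The rescaled family `Φ (s z) / s`. -/
theorem alexander {Φ : ℂ → ℂ} (hΦ : ContDiff ℝ ∞ Φ) (h0 : Φ 0 = 0) :
    ∃ A : ℝ × ℂ → ℂ, ContDiff ℝ ∞ A ∧ (∀ s z, Φ (s • z) = s • A (s, z)) ∧
      ∀ z, A (0, z) = fderiv ℝ Φ 0 z := by
  obtain ⟨A, hA, h1, h2⟩ := hadamard (G := fun q : ℝ × ℂ => Φ (q.1 • q.2)) (by fun_prop)
  refine ⟨A, hA, fun s z => by simpa [h0] using h1 s z, fun z => (h2 z).unique ?_⟩
  have a : HasDerivAt (fun s : ℝ => s • z) z 0 := by simpa using (hasDerivAt_id (0:ℝ)).smul_const z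
  have b : HasFDerivAt Φ (fderiv ℝ Φ 0) ((fun s : ℝ => s • z) 0) := by
    simpa using (hΦ.differentiable (by simp) 0).hasFDerivAt
  exact b.comp_hasDerivAt 0 a

theorem ap_of_zero {Φ Φi : ℂ → ℂ} (hΦ : ContDiff ℝ ∞ Φ) (hΦi : ContDiff ℝ ∞ Φi)
    (hr : Function.RightInverse Φi Φ) (hl : Function.LeftInverse Φi Φ)
    (hdet : ∀ z, (fderiv ℝ Φ z).det = 1) (h0 : Φ 0 = 0) {K : Set ℂ} (hK : IsCompact K) :
    Ap K Φ := by
  have h0i : Φi 0 = 0 := by rw [← h0, hl, h0]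
  obtain ⟨A, hA, hA1, hA2⟩ := alexander hΦ h0
  obtain ⟨B, hB, hB1, -⟩ := alexander hΦi h0i
  have dense : Dense ({0}ᶜ : Set ℝ) := dense_compl_singleton 0
  have hAB : ∀ s w, A (s, B (s, w)) = w := by
    intro s w
    have : (fun s => A (s, B (s, w))) = fun _ => w := by
      refine Continuous.ext_on dense (by have := hA.continuous; have := hB.continuous; fun_prop)
        continuous_const fun s hs => ?_
      apply smul_right_injective ℂ (r := s) hs
      simp only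
      rw [← hA1, ← hB1, hr]
    exact congrFun this s
  have hBA : ∀ s w, B (s, A (s, w)) = w := by
    intro s w
    have : (fun s => B (s, A (s, w))) = fun _ => w := by
      refine Continuous.ext_on dense (by have := hA.continuous; have := hB.continuous; fun_prop)
        continuous_const fun s hs => ?_
      apply smul_right_injective ℂ (r := s) hs
      simp only
      rw [← hB1, ← hA1, hl]
    exact congrFun this s
  have hD : ∀ s z, fderiv ℝ (fun z => A (s, z)) z = fderiv ℝ Φ (s • z) := by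
    intro s z
    by_cases hs : s = 0
    · subst hs
      simp only [hA2, zero_smul]
      exact (fderiv ℝ Φ 0).fderiv
    · have e : (fun z => A (s, z)) = fun z => s⁻¹ • Φ (s • z) := by
        funext z; rw [hA1, smul_smul, inv_mul_cancel₀ hs, one_smul]
      have a := ((hΦ.differentiable (by simp) (s • z)).hasFDerivAt.comp z
        ((hasFDerivAt_id z).const_smul s)).const_smul s⁻¹
      rw [e]
      refine a.fderiv.trans ?_
      ext v
      simp [hs]
  have hF : ContDiff ℝ ∞ (fderiv ℝ A) := hA.fderiv_right infty_add_one_le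
  have hX : ContDiff ℝ ∞ fun q : ℝ × ℂ => fderiv ℝ A (q.1, B q) (1, 0) := by fun_prop
  have ode : ∀ t z, HasDerivAt (fun s => A (s, z))
      ((fun q : ℝ × ℂ => fderiv ℝ A (q.1, B q) (1, 0)) (t, A (t, z))) t := by
    intro t z
    simp only [hBA]
    exact hasDerivAt_time hA t z
  have := flow_step hA hX isOpen_univ hK (subset_univ _) (fun t _ z _ => ode t z) (fun t w => by
    have := div_free hA hX ode (fun t z => by rw [hD, hdet]) t (B (t, w))
    rwa [hAB] at this) (by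
      simp only [hA2]
      exact (wd_clm _ (hdet 0)).ap K)
  convert this using 2 with z
  simpa using hA1 1 z

/-- All orders version of the approximation theorem. -/
theorem ap_of_diffeo {Φ Φi : ℂ → ℂ} (hΦ : ContDiff ℝ ∞ Φ) (hΦi : ContDiff ℝ ∞ Φi)
    (hl : Function.LeftInverse Φi Φ) (hr : Function.RightInverse Φi Φ)
    (hdet : ∀ z, (fderiv ℝ Φ z).det = 1) {K : Set ℂ} (hK : IsCompact K) : Ap K Φ := by
  have := ap_of_zero (Φ := fun z => Φ z - Φ 0) (Φi := fun w => Φi (w + Φ 0)) (by fun_prop)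
    (by fun_prop) (fun w => by simp [hr _]) (fun z => by simp [hl _])
    (fun z => by rw [fderiv_sub_const, hdet]) (by simp) hK
  intro r η hη
  obtain ⟨W, hW, hS⟩ := this r η hη
  refine ⟨fun z => W z + Φ 0, (wd_translate _).comp hW, ?_⟩
  convert hS using 2 with z
  ring

end BT

/-- BLOCK T -/
theorem approx (Φ Φi : ℂ → ℂ) (hΦ : ContDiff ℝ ∞ Φ) (hΦi : ContDiff ℝ ∞ Φi)
    (hl : Function.LeftInverse Φi Φ) (hr : Function.RightInverse Φi Φ)
    (hdet : ∀ z, (fderiv ℝ Φ z).det = 1) (R e : ℝ) (he : 0 < e) :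
    ∃ fs : List (ℝ → ℝ), (∀ f ∈ fs, ContDiff ℝ ∞ f ∧ ∀ x, |deriv f x| ≤ 1 / 2) ∧
      ∀ z : ℂ, ‖z‖ ≤ R → ‖hen fs z - Φ z‖ ≤ e ∧ ‖fderiv ℝ (hen fs) z - fderiv ℝ Φ z‖ ≤ e ∧
        ‖fderiv ℝ (fderiv ℝ (hen fs)) z - fderiv ℝ (fderiv ℝ Φ) z‖ ≤ e := by
  obtain ⟨W, hW, hS⟩ := BT.ap_of_diffeo hΦ hΦi hl hr hdet (isCompact_closedBall 0 R) 2 e he
  have hs := hW.smooth
  obtain ⟨fs, hfs, rfl⟩ := hW
  refine ⟨fs, hfs, fun z hz => ?_⟩
  have hz' : z ∈ closedBall (0:ℂ) R := by simpa using hz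
  have e1 : fderiv ℝ (fun z => hen fs z - Φ z) = fun z => fderiv ℝ (hen fs) z - fderiv ℝ Φ z :=
    funext fun z => fderiv_fun_sub (hs.differentiable (by simp) z) (hΦ.differentiable (by simp) z)
  refine ⟨hS.norm_le hz', ?_, ?_⟩
  · have := hS.fderiv.norm_le hz'
    rwa [e1] at this
  · have := hS.fderiv.fderiv.norm_le hz'
    rwa [e1, fderiv_fun_sub ((hs.fderiv_right BT.infty_add_one_le).differentiable (by simp) z)
      ((hΦ.fderiv_right BT.infty_add_one_le).differentiable (by simp) z)] at this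

end Pool.Agent.Lib.MP_0281e9_an
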