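import Pool.Agent.Lib.MP_0281e9_an.ChainD
import Pool.Agent.Lib.MP_0281e9_an.TurMain
import Pool.Agent.Lib.MP_0281e9_an.SuppC
import Pool.Agent.Lib.MP_0281e9_an.TabMain

namespace Pool.Agent.Lib.MP_0281e9_an

open Set Filter Complex MeasureTheory Topology
open scoped ContDiff ComplexConjugate NNReal

/-- BLOCK C -/
theorem chain (Φ Φi : ℂ → ℂ) (hΦ : ContDiff ℝ ∞ Φ) (hΦi : ContDiff ℝ ∞ Φi)
    (hl : Function.LeftInverse Φi Φ) (hr : Function.RightInverse Φi Φ)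
    (hdet : ∀ z, (fderiv ℝ Φ z).det = 1) (A : ℝ) :
    ∃ (ε : ℕ → ℝ) (Θ : ℕ → ℂ → ℂ), (∀ n, 0 < ε n) ∧ Tendsto ε atTop (𝓝 0) ∧
      (∀ z : ℂ, ‖z‖ ≤ A → CV 2 atTop Θ (fun y => In0 (Φ y)) z) ∧
      ∀ n, Realizes (ε n) (Θ n) A :=
  BC.chain_of approx exists_billiard exists_support Φ Φi hΦ hΦi hl hr hdet A

end Pool.Agent.Lib.MP_0281e9_an
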