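import Mathlib

namespace Pool.Agent.Lib.MP_0281e9_an

open Set Filter Topology
open scoped ContDiff

variable {ι : Type} {E : Type} [NormedAddCommGroup E] [NormedSpace ℝ E]

/-- continuous convergence at `x` of the derivatives up to order `k` -/
def Cv (l : Filter ι) (x : E) : ℕ → ∀ {F : Type} [NormedAddCommGroup F] [NormedSpace ℝ F],
    (ι → E → F) → (E → F) → Prop
  | 0, _, _, _, f, g => Tendsto (fun p : ι × E => f p.1 p.2) (l ×ˢ 𝓝 x) (𝓝 (g x))
  | k + 1, _, _, _, f, g => Tendsto (fun p : ι × E => f p.1 p.2) (l ×ˢ 𝓝 x) (𝓝 (g x)) ∧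
      Cv l x k (fun i => fderiv ℝ (f i)) (fderiv ℝ g)

structure CV (k : ℕ) (l : Filter ι) {F : Type} [NormedAddCommGroup F] [NormedSpace ℝ F]
    (f : ι → E → F) (g : E → F) (x : E) : Prop where
  sm : ∀ᶠ p : ι × E in l ×ˢ 𝓝 x, ContDiffAt ℝ ∞ (f p.1) p.2
  smg : ∀ᶠ y in 𝓝 x, ContDiffAt ℝ ∞ g y
  cv : Cv l x k f g

section basic

variable {X : Type} [TopologicalSpace X]

lemma ev_ev {l : Filter ι} {x : X} {P : ι → X → Prop}
    (h : ∀ᶠ p : ι × X in l ×ˢ 𝓝 x, P p.1 p.2) :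
    ∀ᶠ p : ι × X in l ×ˢ 𝓝 x, ∀ᶠ y in 𝓝 p.2, P p.1 y := by
  obtain ⟨pa, ha, pb, hb, h⟩ := eventually_prod_iff.1 h
  refine eventually_prod_iff.2 ⟨pa, ha, fun y => ∀ᶠ z in 𝓝 y, pb z, hb.eventually_nhds, ?_⟩
  intro i hi y hy
  exact hy.mono fun z hz => h hi hz

lemma ev_self {l : Filter ι} {x : X} {P : ι → X → Prop}
    (h : ∀ᶠ p : ι × X in l ×ˢ 𝓝 x, P p.1 p.2) : ∀ᶠ i in l, P i x := by
  obtain ⟨pa, ha, pb, hb, h⟩ := eventually_prod_iff.1 h
  exact ha.mono fun i hi => h hi hb.self_of_nhds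

lemma ev_compact {l : Filter ι} {K : Set X} (hK : IsCompact K) {P : ι → X → Prop}
    (h : ∀ x ∈ K, ∀ᶠ p : ι × X in l ×ˢ 𝓝 x, P p.1 p.2) :
    ∃ V ∈ 𝓝ˢ K, ∀ᶠ i in l, ∀ y ∈ V, P i y := by
  refine hK.induction_on (p := fun s => ∃ V ∈ 𝓝ˢ s, ∀ᶠ i in l, ∀ y ∈ V, P i y) ?_ ?_ ?_ ?_
  · exact ⟨∅, by simp, Eventually.of_forall fun i y hy => hy.elim⟩
  · rintro s t hst ⟨V, hV, h⟩
    exact ⟨V, nhdsSet_mono hst hV, h⟩
  · rintro s t ⟨V, hV, h⟩ ⟨W, hW, h'⟩
    refine ⟨V ∪ W, union_mem_nhdsSet hV hW, (h.and h').mono fun i hi y hy => ?_⟩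
    exact hy.elim (hi.1 y) (hi.2 y)
  · intro x hx
    obtain ⟨pa, ha, pb, hb, h⟩ := eventually_prod_iff.1 (h x hx)
    obtain ⟨t, ht, hto, hxt⟩ := mem_nhds_iff.1 hb
    refine ⟨t, mem_nhdsWithin_of_mem_nhds (hto.mem_nhds hxt), t, hto.mem_nhdsSet_self, ?_⟩
    exact ha.mono fun i hi y hy => h hi (ht hy)

lemma ev_compact' {l : Filter ι} {K : Set X} (hK : IsCompact K) {P : ι → X → Prop}
    (h : ∀ x ∈ K, ∀ᶠ p : ι × X in l ×ˢ 𝓝 x, P p.1 p.2) : ∀ᶠ i in l, ∀ y ∈ K, P i y := by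
  obtain ⟨V, hV, h⟩ := ev_compact hK h
  exact h.mono fun i hi y hy => hi y (subset_of_mem_nhdsSet hV hy)

lemma ev_fst {l : Filter ι} {x : X} {P : ι → Prop} (h : ∀ᶠ i in l, P i) :
    ∀ᶠ p : ι × X in l ×ˢ 𝓝 x, P p.1 := h.prod_inl _

lemma ev_snd {l : Filter ι} {x : X} {P : X → Prop} (h : ∀ᶠ y in 𝓝 x, P y) :
    ∀ᶠ p : ι × X in l ×ˢ 𝓝 x, P p.2 := h.prod_inr _

lemma ev_push {Y : Type} [TopologicalSpace Y] {l : Filter ι} {x : X} {y : Y} {f : ι → X → Y}
    (hf : Tendsto (fun p : ι × X => f p.1 p.2) (l ×ˢ 𝓝 x) (𝓝 y)) {P : ι → Y → Prop}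
    (h : ∀ᶠ p : ι × Y in l ×ˢ 𝓝 y, P p.1 p.2) :
    ∀ᶠ p : ι × X in l ×ˢ 𝓝 x, P p.1 (f p.1 p.2) :=
  (tendsto_fst.prodMk hf).eventually h

end basic

lemma cd_fderiv {F : Type} [NormedAddCommGroup F] [NormedSpace ℝ F] {f : E → F} {x : E}
    (h : ContDiffAt ℝ ∞ f x) : ContDiffAt ℝ ∞ (fderiv ℝ f) x :=
  h.fderiv_right (m := ∞) (by exact_mod_cast le_rfl)

lemma cd_diff {F : Type} [NormedAddCommGroup F] [NormedSpace ℝ F] {f : E → F} {x : E}
    (h : ContDiffAt ℝ ∞ f x) : DifferentiableAt ℝ f x :=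
  h.differentiableAt (by simp)

namespace CV

variable {F : Type} [NormedAddCommGroup F] [NormedSpace ℝ F] {l : Filter ι} {k : ℕ}
  {f : ι → E → F} {g : E → F} {x : E}

lemma tendsto (h : CV k l f g x) :
    Tendsto (fun p : ι × E => f p.1 p.2) (l ×ˢ 𝓝 x) (𝓝 (g x)) := by
  cases k with
  | zero => exact h.cv
  | succ k => exact h.cv.1

lemma smg0 (h : CV k l f g x) : ContDiffAt ℝ ∞ g x := h.smg.self_of_nhds

lemma fderiv (h : CV (k + 1) l f g x) : CV k l (fun i => fderiv ℝ (f i)) (fderiv ℝ g) x :=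
  ⟨h.sm.mono fun _ hp => cd_fderiv hp, h.smg.mono fun _ hp => cd_fderiv hp, h.cv.2⟩

lemma zero (sm : ∀ᶠ p : ι × E in l ×ˢ 𝓝 x, ContDiffAt ℝ ∞ (f p.1) p.2)
    (smg : ∀ᶠ y in 𝓝 x, ContDiffAt ℝ ∞ g y)
    (ht : Tendsto (fun p : ι × E => f p.1 p.2) (l ×ˢ 𝓝 x) (𝓝 (g x))) : CV 0 l f g x :=
  ⟨sm, smg, ht⟩

lemma succ (h0 : CV 0 l f g x)
    (h : CV k l (fun i => _root_.fderiv ℝ (f i)) (_root_.fderiv ℝ g) x) : CV (k + 1) l f g x :=
  ⟨h0.sm, h0.smg, h0.cv, h.cv⟩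

lemma to_zero (h : CV k l f g x) : CV 0 l f g x := ⟨h.sm, h.smg, h.tendsto⟩

end CV

lemma Cv.congr {l : Filter ι} {x : E} : ∀ (k : ℕ) {F : Type} [NormedAddCommGroup F]
    [NormedSpace ℝ F] {f f' : ι → E → F} {g g' : E → F}, Cv l x k f g →
    (∀ᶠ p : ι × E in l ×ˢ 𝓝 x, f p.1 p.2 = f' p.1 p.2) → g =ᶠ[𝓝 x] g' → Cv l x k f' g'
  | 0, _, _, _, _, _, _, _, h, hf, hg => by
    have := Tendsto.congr' hf h
    rwa [hg.self_of_nhds] at this
  | k + 1, _, _, _, f, f', _, _, h, hf, hg => by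
    refine ⟨?_, Cv.congr k h.2 ?_ hg.fderiv⟩
    · have := Tendsto.congr' hf h.1
      rwa [hg.self_of_nhds] at this
    · exact (ev_ev (P := fun i y => f i y = f' i y) hf).mono fun p hp =>
        Filter.EventuallyEq.fderiv_eq hp

lemma Cv.pred {l : Filter ι} {x : E} : ∀ (k : ℕ) {F : Type} [NormedAddCommGroup F]
    [NormedSpace ℝ F] {f : ι → E → F} {g : E → F}, Cv l x (k + 1) f g → Cv l x k f g
  | 0, _, _, _, _, _, h => h.1
  | k + 1, _, _, _, _, _, h => ⟨h.1, Cv.pred k h.2⟩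

lemma Cv.const {l : Filter ι} {x : E} : ∀ (k : ℕ) {F : Type} [NormedAddCommGroup F]
    [NormedSpace ℝ F] {g : E → F}, ContDiffAt ℝ ∞ g x → Cv l x k (fun _ => g) g
  | 0, _, _, _, _, h => h.continuousAt.tendsto.comp tendsto_snd
  | k + 1, _, _, _, _, h => ⟨h.continuousAt.tendsto.comp tendsto_snd, Cv.const k (cd_fderiv h)⟩

lemma Cv.comap {κ : Type} {l : Filter ι} {l' : Filter κ} {u : κ → ι} (hu : Tendsto u l' l)
    {x : E} : ∀ (k : ℕ) {F : Type} [NormedAddCommGroup F]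
    [NormedSpace ℝ F] {f : ι → E → F} {g : E → F}, Cv l x k f g → Cv l' x k (fun j => f (u j)) g
  | 0, _, _, _, _, _, h => h.comp (hu.prodMap tendsto_id)
  | k + 1, _, _, _, _, _, h => ⟨h.1.comp (hu.prodMap tendsto_id), Cv.comap hu k h.2⟩

lemma Cv.congr_lim {l : Filter ι} {x : E} {S : Set E} (hS : IsOpen S) (hx : x ∈ closure S) :
    ∀ (k : ℕ) {F : Type} [NormedAddCommGroup F]
    [NormedSpace ℝ F] {f : ι → E → F} {g g' : E → F}, Cv l x k f g → ContDiffAt ℝ ∞ g x →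
      ContDiffAt ℝ ∞ g' x → EqOn g g' S → Cv l x k f g' := by
  have key : ∀ {F : Type} [NormedAddCommGroup F] [NormedSpace ℝ F] {g g' : E → F},
      ContinuousAt g x → ContinuousAt g' x → EqOn g g' S → g x = g' x := by
    intro F _ _ g g' hg hg' he
    have : (𝓝[S] x).NeBot := mem_closure_iff_nhdsWithin_neBot.1 hx
    refine tendsto_nhds_unique (hg.tendsto.mono_left nhdsWithin_le_nhds (y := 𝓝[S] x)) ?_
    exact (hg'.tendsto.mono_left nhdsWithin_le_nhds).congr'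
      (eventually_nhdsWithin_of_forall fun y hy => (he hy).symm)
  intro k
  induction k with
  | zero =>
    intro F _ _ f g g' h hg hg' he
    have := key hg.continuousAt hg'.continuousAt he
    simpa [Cv, ← this] using h
  | succ k ih =>
    intro F _ _ f g g' h hg hg' he
    have := key hg.continuousAt hg'.continuousAt he
    refine ⟨this ▸ h.1, ih h.2 (cd_fderiv hg) (cd_fderiv hg') fun y hy => ?_⟩
    exact Filter.EventuallyEq.fderiv_eq (eventually_of_mem (hS.mem_nhds hy) he)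

namespace CV

variable {F : Type} [NormedAddCommGroup F] [NormedSpace ℝ F] {l : Filter ι} {k : ℕ}
  {f : ι → E → F} {g : E → F} {x : E}

lemma congr {f' : ι → E → F} {g' : E → F} (h : CV k l f g x)
    (hf : ∀ᶠ p : ι × E in l ×ˢ 𝓝 x, f p.1 p.2 = f' p.1 p.2) (hg : g =ᶠ[𝓝 x] g') :
    CV k l f' g' x := by
  refine ⟨?_, ?_, h.cv.congr k hf hg⟩
  · filter_upwards [h.sm, ev_ev (P := fun i y => f i y = f' i y) hf] with p h1 h2
    exact h1.congr_of_eventuallyEq (Filter.EventuallyEq.symm h2)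
  · filter_upwards [h.smg, hg.eventually_nhds] with y h1 h2
    exact h1.congr_of_eventuallyEq (Filter.EventuallyEq.symm h2)

lemma pred (h : CV (k + 1) l f g x) : CV k l f g x := ⟨h.sm, h.smg, h.cv.pred k⟩

lemma mono {j : ℕ} (h : CV k l f g x) (hj : j ≤ k) : CV j l f g x := by
  induction hj with
  | refl => exact h
  | step _ ih => exact ih h.pred

lemma const (hg : ∀ᶠ y in 𝓝 x, ContDiffAt ℝ ∞ g y) : CV k l (fun _ => g) g x :=
  ⟨ev_snd (P := fun y => ContDiffAt ℝ ∞ g y) hg, hg, Cv.const k hg.self_of_nhds⟩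

lemma const' (hg : ContDiff ℝ ∞ g) : CV k l (fun _ => g) g x :=
  const (Eventually.of_forall fun _ => hg.contDiffAt)

lemma comap {κ : Type} {l' : Filter κ} {u : κ → ι} (h : CV k l f g x) (hu : Tendsto u l' l) :
    CV k l' (fun j => f (u j)) g x :=
  ⟨(hu.prodMap tendsto_id).eventually h.sm, h.smg, h.cv.comap hu k⟩

lemma congr_lim {g' : E → F} {S : Set E} (h : CV k l f g x) (hS : IsOpen S) (hx : x ∈ closure S)
    (hg' : ∀ᶠ y in 𝓝 x, ContDiffAt ℝ ∞ g' y) (he : EqOn g g' S) : CV k l f g' x :=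
  ⟨h.sm, hg', h.cv.congr_lim hS hx k h.smg0 hg'.self_of_nhds he⟩

lemma cst {a : ι → F} {a0 : F} (ha : Tendsto a l (𝓝 a0)) :
    CV k l (fun i (_ : E) => a i) (fun _ => a0) x := by
  have h0 : CV 0 l (fun i (_ : E) => a i) (fun _ => a0) x :=
    zero (Eventually.of_forall fun _ => contDiffAt_const)
      (Eventually.of_forall fun _ => contDiffAt_const) (ha.comp tendsto_fst)
  cases k with
  | zero => exact h0
  | succ k =>
    refine h0.succ ?_
    have : CV k l (fun _ (_ : E) => (0 : E →L[ℝ] F)) (fun _ => 0) x := const' contDiff_const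
    exact this.congr (Eventually.of_forall fun p => by simp) (Eventually.of_forall fun p => by simp)

end CV

theorem comp_pair {l : Filter ι} : ∀ k : ℕ,
    (∀ {E F G : Type} [NormedAddCommGroup E] [NormedSpace ℝ E] [NormedAddCommGroup F]
      [NormedSpace ℝ F] [NormedAddCommGroup G] [NormedSpace ℝ G] {f : ι → E → F} {f0 : E → F}
      {g : ι → F → G} {g0 : F → G} {x : E}, CV k l g g0 (f0 x) → CV k l f f0 x →
        CV k l (fun i y => g i (f i y)) (fun y => g0 (f0 y)) x) ∧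
    (∀ {E F G : Type} [NormedAddCommGroup E] [NormedSpace ℝ E] [NormedAddCommGroup F]
      [NormedSpace ℝ F] [NormedAddCommGroup G] [NormedSpace ℝ G] {f : ι → E → F} {f0 : E → F}
      {g : ι → E → G} {g0 : E → G} {x : E}, CV k l f f0 x → CV k l g g0 x →
        CV k l (fun i y => (f i y, g i y)) (fun y => (f0 y, g0 y)) x) := by
  have c0 : ∀ {k : ℕ} {E F G : Type} [NormedAddCommGroup E] [NormedSpace ℝ E]
      [NormedAddCommGroup F]
      [NormedSpace ℝ F] [NormedAddCommGroup G] [NormedSpace ℝ G] {f : ι → E → F} {f0 : E → F}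
      {g : ι → F → G} {g0 : F → G} {x : E}, CV k l g g0 (f0 x) → CV k l f f0 x →
        CV 0 l (fun i y => g i (f i y)) (fun y => g0 (f0 y)) x := by
    intro k E F G _ _ _ _ _ _ f f0 g g0 x hg hf
    refine CV.zero ?_ ?_ (hg.tendsto.comp (tendsto_fst.prodMk hf.tendsto))
    · filter_upwards [hf.sm, ev_push (P := fun i y => ContDiffAt ℝ ∞ (g i) y) hf.tendsto hg.sm]
        with p h1 h2
      exact h2.comp p.2 h1
    · filter_upwards [hf.smg, hf.smg0.continuousAt.eventually hg.smg] with y h1 h2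
      exact h2.comp y h1
  have p0 : ∀ {k : ℕ} {E F G : Type} [NormedAddCommGroup E] [NormedSpace ℝ E]
      [NormedAddCommGroup F]
      [NormedSpace ℝ F] [NormedAddCommGroup G] [NormedSpace ℝ G] {f : ι → E → F} {f0 : E → F}
      {g : ι → E → G} {g0 : E → G} {x : E}, CV k l f f0 x → CV k l g g0 x →
        CV 0 l (fun i y => (f i y, g i y)) (fun y => (f0 y, g0 y)) x := by
    intro k E F G _ _ _ _ _ _ f f0 g g0 x hf hg
    refine CV.zero ?_ ?_ (hf.tendsto.prodMk_nhds hg.tendsto)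
    · filter_upwards [hf.sm, hg.sm] with p h1 h2
      exact h1.prodMk h2
    · filter_upwards [hf.smg, hg.smg] with y h1 h2
      exact h1.prodMk h2
  intro k
  induction k with
  | zero => exact ⟨fun hg hf => c0 hg hf, fun hf hg => p0 hf hg⟩
  | succ k ih =>
    constructor
    · intro E F G _ _ _ _ _ _ f f0 g g0 x hg hf
      refine (c0 hg hf).succ ?_
      have h1 := ih.2 (ih.1 hg.fderiv hf.pred) hf.fderiv
      have hB : ContDiff ℝ ∞ fun p : (F →L[ℝ] G) × (E →L[ℝ] F) => p.1.comp p.2 :=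
        isBoundedBilinearMap_comp.contDiff
      have h2 := ih.1 (CV.const' hB) h1
      refine h2.congr ?_ ?_
      · filter_upwards [hf.sm, ev_push (P := fun i y => ContDiffAt ℝ ∞ (g i) y) hf.tendsto hg.sm]
          with p h1 h2
        exact (fderiv_comp p.2 (cd_diff h2) (cd_diff h1)).symm
      · filter_upwards [hf.smg, hf.smg0.continuousAt.eventually hg.smg] with y h1 h2
        exact (fderiv_comp y (cd_diff h2) (cd_diff h1)).symm
    · intro E F G _ _ _ _ _ _ f f0 g g0 x hf hg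
      refine (p0 hf hg).succ ?_
      have h1 := ih.2 hf.fderiv hg.fderiv
      have hB : ContDiff ℝ ∞ fun p : (E →L[ℝ] F) × (E →L[ℝ] G) => p.1.prod p.2 :=
        (ContinuousLinearMap.prodₗᵢ ℝ : ((E →L[ℝ] F) × (E →L[ℝ] G)) ≃ₗᵢ[ℝ] _).contDiff
      have h2 := ih.1 (CV.const' hB) h1
      refine h2.congr ?_ ?_
      · filter_upwards [hf.sm, hg.sm] with p h1 h2
        exact ((cd_diff h1).fderiv_prodMk (cd_diff h2)).symm
      · filter_upwards [hf.smg, hg.smg] with y h1 h2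
        exact ((cd_diff h1).fderiv_prodMk (cd_diff h2)).symm

namespace CV

variable {F G : Type} [NormedAddCommGroup F] [NormedSpace ℝ F] [NormedAddCommGroup G]
  [NormedSpace ℝ G] {l : Filter ι} {k : ℕ} {x : E}

lemma comp {f : ι → E → F} {f0 : E → F} {g : ι → F → G} {g0 : F → G}
    (hg : CV k l g g0 (f0 x)) (hf : CV k l f f0 x) :
    CV k l (fun i y => g i (f i y)) (fun y => g0 (f0 y)) x := (comp_pair k).1 hg hf

lemma comp' {f : ι → E → F} {f0 : E → F} {g : ι → F → G} {g0 : F → G} {y : F}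
    (hg : CV k l g g0 y) (hf : CV k l f f0 x) (hy : f0 x = y) :
    CV k l (fun i y => g i (f i y)) (fun y => g0 (f0 y)) x := (hy ▸ hg).comp hf

lemma prodMk {f : ι → E → F} {f0 : E → F} {g : ι → E → G} {g0 : E → G}
    (hf : CV k l f f0 x) (hg : CV k l g g0 x) :
    CV k l (fun i y => (f i y, g i y)) (fun y => (f0 y, g0 y)) x := (comp_pair k).2 hf hg

lemma post {f : ι → E → F} {f0 : E → F} (hf : CV k l f f0 x) {g : F → G}
    (hg : ∀ᶠ y in 𝓝 (f0 x), ContDiffAt ℝ ∞ g y) :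
    CV k l (fun i y => g (f i y)) (fun y => g (f0 y)) x := (const hg).comp hf

lemma post' {f : ι → E → F} {f0 : E → F} (hf : CV k l f f0 x) {g : F → G}
    (hg : ContDiff ℝ ∞ g) :
    CV k l (fun i y => g (f i y)) (fun y => g (f0 y)) x := (const' hg).comp hf

lemma pre {f0 : E → F} {g : ι → F → G} {g0 : F → G} (hg : CV k l g g0 (f0 x))
    (hf : ∀ᶠ y in 𝓝 x, ContDiffAt ℝ ∞ f0 y) :
    CV k l (fun i y => g i (f0 y)) (fun y => g0 (f0 y)) x := hg.comp (const hf)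

lemma pre' {f0 : E → F} {g : ι → F → G} {g0 : F → G} (hg : CV k l g g0 (f0 x))
    (hf : ContDiff ℝ ∞ f0) :
    CV k l (fun i y => g i (f0 y)) (fun y => g0 (f0 y)) x := hg.comp (const' hf)

lemma id' : CV k l (fun _ (y : E) => y) (fun y => y) x := const' contDiff_id

lemma add {f g : ι → E → F} {f0 g0 : E → F} (hf : CV k l f f0 x) (hg : CV k l g g0 x) :
    CV k l (fun i y => f i y + g i y) (fun y => f0 y + g0 y) x :=
  (hf.prodMk hg).post' (g := fun p : F × F => p.1 + p.2) (by fun_prop)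

lemma sub {f g : ι → E → F} {f0 g0 : E → F} (hf : CV k l f f0 x) (hg : CV k l g g0 x) :
    CV k l (fun i y => f i y - g i y) (fun y => f0 y - g0 y) x :=
  (hf.prodMk hg).post' (g := fun p : F × F => p.1 - p.2) (by fun_prop)

lemma neg {f : ι → E → F} {f0 : E → F} (hf : CV k l f f0 x) :
    CV k l (fun i y => -f i y) (fun y => -f0 y) x :=
  hf.post' (g := fun p : F => -p) (by fun_prop)

lemma smul {c : ι → E → ℝ} {c0 : E → ℝ} {f : ι → E → F} {f0 : E → F} (hc : CV k l c c0 x)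
    (hf : CV k l f f0 x) : CV k l (fun i y => c i y • f i y) (fun y => c0 y • f0 y) x :=
  (hc.prodMk hf).post' (g := fun p : ℝ × F => p.1 • p.2) (by fun_prop)

lemma mul {A : Type} [NormedRing A] [NormedAlgebra ℝ A] {f g : ι → E → A} {f0 g0 : E → A}
    (hf : CV k l f f0 x) (hg : CV k l g g0 x) :
    CV k l (fun i y => f i y * g i y) (fun y => f0 y * g0 y) x :=
  (hf.prodMk hg).post' (g := fun p : A × A => p.1 * p.2) (by fun_prop)

lemma inv {A : Type} [NormedField A] [NormedAlgebra ℝ A] {f : ι → E → A} {f0 : E → A}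
    (hf : CV k l f f0 x) (h0 : f0 x ≠ 0) :
    CV k l (fun i y => (f i y)⁻¹) (fun y => (f0 y)⁻¹) x :=
  hf.post (g := fun p : A => p⁻¹) ((eventually_ne_nhds h0).mono fun _ hy => contDiffAt_inv ℝ hy)

lemma div {A : Type} [NormedField A] [NormedAlgebra ℝ A] {f g : ι → E → A} {f0 g0 : E → A}
    (hf : CV k l f f0 x) (hg : CV k l g g0 x) (h0 : g0 x ≠ 0) :
    CV k l (fun i y => f i y / g i y) (fun y => f0 y / g0 y) x := by
  simpa only [div_eq_mul_inv] using hf.mul (hg.inv h0)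

lemma fst {f : ι → E → F × G} {f0 : E → F × G} (hf : CV k l f f0 x) :
    CV k l (fun i y => (f i y).1) (fun y => (f0 y).1) x := hf.post' contDiff_fst

lemma snd {f : ι → E → F × G} {f0 : E → F × G} (hf : CV k l f f0 x) :
    CV k l (fun i y => (f i y).2) (fun y => (f0 y).2) x := hf.post' contDiff_snd

lemma clm {f : ι → E → F} {f0 : E → F} (hf : CV k l f f0 x) (L : F →L[ℝ] G) :
    CV k l (fun i y => L (f i y)) (fun y => L (f0 y)) x := hf.post' L.contDiff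

lemma re {f : ι → E → ℂ} {f0 : E → ℂ} (hf : CV k l f f0 x) :
    CV k l (fun i y => (f i y).re) (fun y => (f0 y).re) x := hf.clm Complex.reCLM

lemma im {f : ι → E → ℂ} {f0 : E → ℂ} (hf : CV k l f f0 x) :
    CV k l (fun i y => (f i y).im) (fun y => (f0 y).im) x := hf.clm Complex.imCLM

lemma ofReal {f : ι → E → ℝ} {f0 : E → ℝ} (hf : CV k l f f0 x) :
    CV k l (fun i y => (f i y : ℂ)) (fun y => (f0 y : ℂ)) x := hf.clm Complex.ofRealCLM

lemma conj {f : ι → E → ℂ} {f0 : E → ℂ} (hf : CV k l f f0 x) :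
    CV k l (fun i y => starRingEnd ℂ (f i y)) (fun y => starRingEnd ℂ (f0 y)) x :=
  hf.clm (Complex.conjCLE : ℂ →L[ℝ] ℂ)

lemma cplx {f g : ι → E → ℝ} {f0 g0 : E → ℝ} (hf : CV k l f f0 x) (hg : CV k l g g0 x) :
    CV k l (fun i y => (f i y : ℂ) + (g i y : ℂ) * Complex.I)
      (fun y => (f0 y : ℂ) + (g0 y : ℂ) * Complex.I) x :=
  hf.ofReal.add (hg.ofReal.mul (const' contDiff_const))

lemma sqrt {f : ι → E → ℝ} {f0 : E → ℝ} (hf : CV k l f f0 x) (h0 : f0 x ≠ 0) :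
    CV k l (fun i y => Real.sqrt (f i y)) (fun y => Real.sqrt (f0 y)) x :=
  hf.post ((eventually_ne_nhds h0).mono fun _ hy => Real.contDiffAt_sqrt hy)

lemma sin {f : ι → E → ℝ} {f0 : E → ℝ} (hf : CV k l f f0 x) :
    CV k l (fun i y => Real.sin (f i y)) (fun y => Real.sin (f0 y)) x := hf.post' Real.contDiff_sin

lemma cos {f : ι → E → ℝ} {f0 : E → ℝ} (hf : CV k l f f0 x) :
    CV k l (fun i y => Real.cos (f i y)) (fun y => Real.cos (f0 y)) x := hf.post' Real.contDiff_cos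

lemma app {f : ι → E → F →L[ℝ] G} {f0 : E → F →L[ℝ] G} (hf : CV k l f f0 x) (v : F) :
    CV k l (fun i y => f i y v) (fun y => f0 y v) x := hf.clm (ContinuousLinearMap.apply ℝ G v)

lemma deriv {f : ι → ℝ → F} {f0 : ℝ → F} {x : ℝ} (hf : CV (k + 1) l f f0 x) :
    CV k l (fun i => deriv (f i)) (deriv f0) x := hf.fderiv.app 1

lemma of_deriv {f : ι → ℝ → F} {f0 : ℝ → F} {x : ℝ} (h0 : CV 0 l f f0 x)
    (h1 : CV k l (fun i => _root_.deriv (f i)) (_root_.deriv f0) x) : CV (k + 1) l f f0 x := by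
  refine h0.succ ?_
  have := h1.clm (ContinuousLinearMap.smulRightL ℝ ℝ F (1 : ℝ →L[ℝ] ℝ))
  refine this.congr (Eventually.of_forall fun p => ?_) (Eventually.of_forall fun p => ?_)
  · ext; simp
  · ext; simp

end CV

end Pool.Agent.Lib.MP_0281e9_an
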