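import Pool.Agent.Lib.MP_0281e9_an.Base
import Pool.Agent.Lib.MP_0281e9_an.Conv

namespace Pool.Agent.Lib.MP_0281e9_an

open Set Filter Complex Topology
open scoped ContDiff

namespace BC

lemma sinc_smooth : ContDiff ℝ ∞ Real.sinc := by
  rw [contDiff_iff_contDiffAt]
  intro x
  by_cases hx : x = 0
  · subst hx
    obtain ⟨p, hp⟩ : AnalyticAt ℝ Real.sin 0 := Real.analyticAt_sin
    rw [Real.sinc_eq_dslope]
    exact (hp.has_fpower_series_dslope_fslope.analyticAt).contDiffAt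
  · have h1 : ContDiffAt ℝ ∞ (fun y : ℝ => Real.sin y / y) x :=
      Real.contDiff_sin.contDiffAt.div contDiffAt_id hx
    refine h1.congr_of_eventuallyEq ?_
    filter_upwards [eventually_ne_nhds hx] with y hy
    exact Real.sinc_of_ne_zero hy

lemma mul_sinc (x : ℝ) : x * Real.sinc x = Real.sin x := by
  by_cases hx : x = 0
  · simp [hx]
  · rw [Real.sinc_of_ne_zero hx]; field_simp

/-- smooth near a point -/
def Sm {E F : Type} [NormedAddCommGroup E] [NormedSpace ℝ E] [NormedAddCommGroup F]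
    [NormedSpace ℝ F] (f : E → F) (x : E) : Prop := ∀ᶠ y in 𝓝 x, ContDiffAt ℝ ∞ f y

section Sm
variable {E F G : Type} [NormedAddCommGroup E] [NormedSpace ℝ E] [NormedAddCommGroup F]
  [NormedSpace ℝ F] [NormedAddCommGroup G] [NormedSpace ℝ G]

lemma Sm.cont {f : E → F} {x : E} (h : Sm f x) : ContinuousAt f x :=
  h.self_of_nhds.continuousAt

lemma Sm.of {f : E → F} (h : ContDiff ℝ ∞ f) (x : E) : Sm f x :=
  Eventually.of_forall fun _ => h.contDiffAt

lemma Sm.comp {g : F → G} {f : E → F} {x : E} (hg : Sm g (f x)) (hf : Sm f x) :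
    Sm (fun y => g (f y)) x := by
  filter_upwards [hf, hf.cont.eventually hg] with y h1 h2
  exact h2.comp y h1

lemma Sm.prodMk {g : E → G} {f : E → F} {x : E} (hf : Sm f x) (hg : Sm g x) :
    Sm (fun y => (f y, g y)) x := by
  filter_upwards [hf, hg] with y h1 h2
  exact h1.prodMk h2

lemma Sm.cv {f : ℝ × E → F} {x : E} (h : Sm f (0, x)) (k : ℕ) {l : Filter ℝ} (hl : l ≤ 𝓝 0) :
    CV k l (fun η y => f (η, y)) (fun y => f (0, y)) x := by
  have h1 : CV k l (fun (η : ℝ) (y : E) => (η, y)) (fun y => ((0 : ℝ), y)) x :=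
    (CV.cst (tendsto_id.mono_left hl)).prodMk CV.id'
  exact h1.post h

end Sm

lemma exists_inv (F : ℝ × ℂ → ℂ) (hF : ContDiff ℝ ∞ F) (H : ℂ → ℂ) (hH : Differentiable ℝ H)
    (hHF : ∀ z, H (F (0, z)) = z) (hFH : ∀ y, F (0, H y) = y) (B : ℝ) :
    ∃ G : ℝ × ℂ → ℂ, ∀ y, ‖H y‖ ≤ B → Sm G (0, y) ∧ G (0, y) = H y ∧
      ∀ᶠ q in 𝓝 ((0 : ℝ), y), F (q.1, G q) = q.2 := by
  let T : ℝ × ℂ → ℝ × ℂ := fun p => (p.1, F p)
  have hT : ContDiff ℝ ∞ T := contDiff_fst.prodMk hF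
  have hTd : Differentiable ℝ T := hT.differentiable (by simp)
  have hFd : Differentiable ℝ F := hF.differentiable (by simp)
  have hinv : ∀ z : ℂ, ∃ e : (ℝ × ℂ) ≃L[ℝ] (ℝ × ℂ), (e : ℝ × ℂ →L[ℝ] ℝ × ℂ) = fderiv ℝ T (0, z) := by
    intro z
    have h1 : HasFDerivAt T ((ContinuousLinearMap.fst ℝ ℝ ℂ).prod (fderiv ℝ F (0, z))) (0, z) :=
      hasFDerivAt_fst.prodMk (hFd _).hasFDerivAt
    have h2 : HasFDerivAt (fun w : ℂ => H (F (0, w)))
        ((fderiv ℝ H (F (0, z))).comp ((fderiv ℝ F (0, z)).comp (ContinuousLinearMap.inr ℝ ℝ ℂ))) z :=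
      (hH _).hasFDerivAt.comp z ((hFd _).hasFDerivAt.comp z (hasFDerivAt_prodMk_right 0 z))
    have h3 : (fun w : ℂ => H (F (0, w))) = id := funext hHF
    rw [h3] at h2
    have h4 := h2.unique (hasFDerivAt_id z)
    have hinj : Function.Injective (fderiv ℝ T (0, z)) := by
      rw [h1.fderiv, injective_iff_map_eq_zero]
      rintro ⟨a, v⟩ h
      have ha : a = 0 := by simpa using congrArg Prod.fst h
      subst ha
      have hv : fderiv ℝ F (0, z) (0, v) = 0 := by simpa using congrArg Prod.snd h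
      have h5 := DFunLike.congr_fun h4 v
      simp only [ContinuousLinearMap.comp_apply, ContinuousLinearMap.inr_apply, hv, map_zero,
        ContinuousLinearMap.id_apply] at h5
      rw [← h5]; rfl
    have hsurj : Function.Surjective (fderiv ℝ T (0, z)) :=
      (LinearMap.injective_iff_surjective (f := (fderiv ℝ T (0, z)).toLinearMap)).1 hinj
    refine ⟨ContinuousLinearEquiv.ofBijective (fderiv ℝ T (0, z)) ?_ ?_, rfl⟩
    · exact LinearMap.ker_eq_bot.2 hinj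
    · exact LinearMap.range_eq_top.2 hsurj
  choose e he using hinv
  have hder : ∀ z, HasFDerivAt T (e z : ℝ × ℂ →L[ℝ] ℝ × ℂ) (0, z) := fun z => by
    rw [he]; exact (hTd _).hasFDerivAt
  let P : ℂ → OpenPartialHomeomorph (ℝ × ℂ) (ℝ × ℂ) := fun z =>
    hT.contDiffAt.toOpenPartialHomeomorph T (hder z) (by simp)
  have hPs : ∀ z, ((0 : ℝ), z) ∈ (P z).source := fun z =>
    hT.contDiffAt.mem_toOpenPartialHomeomorph_source (hder z) (by simp)
  have hPT : ∀ z, (P z : ℝ × ℂ → ℝ × ℂ) = T := fun z => rfl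
  let K : Set (ℝ × ℂ) := {0} ×ˢ Metric.closedBall 0 B
  have hK : IsCompact K := isCompact_singleton.prod (isCompact_closedBall _ _)
  have hKinj : InjOn T K := by
    rintro ⟨a, z⟩ ⟨ha, -⟩ ⟨a', z'⟩ ⟨ha', -⟩ h
    have ha0 : a = 0 := ha
    have ha0' : a' = 0 := ha'
    subst ha0 ha0'
    have h1 : F (0, z) = F (0, z') := congrArg Prod.snd h
    rw [← hHF z, h1, hHF]
  obtain ⟨t, ht, htinj⟩ := hKinj.exists_mem_nhdsSet hK (fun _ _ => hT.continuous.continuousAt)
    (by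
      rintro ⟨a, z⟩ ⟨ha, -⟩
      have ha0 : a = 0 := ha
      subst ha0
      exact ⟨(P z).source, (P z).open_source.mem_nhds (hPs z), hPT z ▸ (P z).injOn⟩)
  refine ⟨fun q => (Function.invFunOn T t q).2, fun y hy => ?_⟩
  set z := H y with hz
  have hTz : T (0, z) = (0, y) := by simp only [T, hz, hFH]
  have hzt : t ∈ 𝓝 ((0 : ℝ), z) := mem_nhdsSet_iff_forall.1 ht _ ⟨rfl, by simpa using hy⟩
  have htar : ((0 : ℝ), y) ∈ (P z).target := by
    rw [← hTz]; exact (P z).map_source (hPs z)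
  have hsym : (P z).symm (0, y) = (0, z) := by
    rw [← hTz]; exact (P z).left_inv (hPs z)
  have hcont : Tendsto (P z).symm (𝓝 (0, y)) (𝓝 (0, z)) := by
    rw [← hsym]; exact (P z).continuousAt_symm htar
  have hev : ∀ᶠ q in 𝓝 ((0 : ℝ), y), q ∈ (P z).target ∧ Function.invFunOn T t q = (P z).symm q := by
    filter_upwards [(P z).open_target.mem_nhds htar, hcont.eventually hzt] with q h1 h2
    refine ⟨h1, ?_⟩
    have h3 : T ((P z).symm q) = q := (P z).right_inv h1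
    conv_lhs => rw [← h3]
    exact htinj.leftInvOn_invFunOn h2
  have hnh : ∀ᶠ p in 𝓝 ((0 : ℝ), z), ∃ e' : (ℝ × ℂ) ≃L[ℝ] (ℝ × ℂ),
      (e' : ℝ × ℂ →L[ℝ] ℝ × ℂ) = fderiv ℝ T p := by
    have h1 := (e z).nhds
    rw [he] at h1
    exact ((hT.continuous_fderiv (by simp)).continuousAt (x := ((0 : ℝ), z))).preimage_mem_nhds h1
  refine ⟨?_, ?_, ?_⟩
  · filter_upwards [hev.eventually_nhds, hcont.eventually hnh] with q h1 h2
    obtain ⟨e', he'⟩ := h2
    have h3 : ContDiffAt ℝ ∞ (P z).symm q :=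
      (P z).contDiffAt_symm (f₀' := e') h1.self_of_nhds.1
        (by rw [he', hPT]; exact (hTd _).hasFDerivAt) (by rw [hPT]; exact hT.contDiffAt)
    refine (contDiffAt_snd.comp q h3).congr_of_eventuallyEq ?_
    filter_upwards [h1] with q' h4
    simp only [Function.comp, h4.2]
  · show (Function.invFunOn T t (0, y)).2 = z
    rw [hev.self_of_nhds.2, hsym]
  · filter_upwards [hev] with q h1
    have h3 : T ((P z).symm q) = q := (P z).right_inv h1.1
    have h4 : ((P z).symm q).1 = q.1 := (congrArg Prod.fst h3 : (T ((P z).symm q)).1 = q.1)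
    have h5 : F ((P z).symm q) = q.2 := congrArg Prod.snd h3
    rw [h1.2, ← h4]
    exact h5

lemma exists_v (f : ℝ → ℝ) (hf : ContDiff ℝ ∞ f) (hd : ∀ x, |deriv f x| ≤ 1 / 2) :
    ∃ v : ℝ → ℝ, ContDiff ℝ ∞ v ∧ (∀ a, 0 ≤ deriv (deriv v) a) ∧
      (∀ u, deriv v (u + f u / 2) + (u + f u / 2) = 2 * u) ∧
      ∀ a, (deriv v a + a) / 2 + f ((deriv v a + a) / 2) / 2 = a := by
  have hfd : Differentiable ℝ f := hf.differentiable (by simp)
  let k : ℝ → ℝ := fun u => u + f u / 2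
  have hk : ContDiff ℝ ∞ k := contDiff_id.add (hf.div_const 2)
  have hkd : ∀ u, HasDerivAt k (1 + deriv f u / 2) u := fun u =>
    (hasDerivAt_id u).add ((hfd u).hasDerivAt.div_const 2)
  have hpos : ∀ u, 0 < 1 + deriv f u / 2 := fun u => by have := abs_le.1 (hd u); linarith
  have hmono : StrictMono k := strictMono_of_deriv_pos fun u => by rw [(hkd u).deriv]; exact hpos u
  have hm2 : Monotone fun u => k u - u / 2 := by
    refine monotone_of_deriv_nonneg (fun u => ((hkd u).sub ((hasDerivAt_id u).div_const 2)).differentiableAt)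
      fun u => ?_
    have h1 : HasDerivAt (fun u => k u - u / 2) (1 + deriv f u / 2 - 1 / 2) u :=
      (hkd u).sub ((hasDerivAt_id u).div_const 2)
    rw [h1.deriv]
    have := abs_le.1 (hd u); linarith
  have hsurj : Function.Surjective k := by
    refine hk.continuous.surjective ?_ ?_
    · refine tendsto_atTop_mono' atTop (f₁ := fun u => u / 2 + k 0) ?_ ?_
      · filter_upwards [eventually_ge_atTop 0] with u hu
        have := hm2 hu
        simp only at this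
        linarith
      · exact tendsto_atTop_add_const_right _ _ (tendsto_id.atTop_div_const (by norm_num))
    · refine tendsto_atBot_mono' atBot (f₂ := k) (f₁ := fun u => u / 2 + k 0) ?_ ?_
      · filter_upwards [eventually_le_atBot 0] with u hu
        have := hm2 hu
        simp only at this
        linarith
      · exact tendsto_atBot_add_const_right _ _ (tendsto_id.atBot_div_const (by norm_num))
  let e : ℝ ≃ₜ ℝ := (hmono.orderIsoOfSurjective k hsurj).toHomeomorph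
  have hek : (e : ℝ → ℝ) = k := rfl
  have hes : ContDiff ℝ ∞ (e.symm : ℝ → ℝ) :=
    e.contDiff_symm_deriv (fun u => (hpos u).ne') hkd hk
  let g : ℝ → ℝ := fun a => 2 * e.symm a - a
  have hg : ContDiff ℝ ∞ g := (contDiff_const.mul hes).sub contDiff_id
  let v : ℝ → ℝ := fun a => ∫ t in (0 : ℝ)..a, g t
  have hv : ∀ a, HasDerivAt v (g a) a := fun a =>
    (hg.continuous.integral_hasStrictDerivAt 0 a).hasDerivAt
  have hdv : deriv v = g := funext fun a => (hv a).deriv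
  have hke : ∀ u, e.symm (k u) = u := fun u => e.symm_apply_apply u
  have hek' : ∀ a, k (e.symm a) = a := fun a => e.apply_symm_apply a
  refine ⟨v, ?_, fun a => ?_, fun u => ?_, fun a => ?_⟩
  · rw [contDiff_infty_iff_deriv]
    exact ⟨fun a => (hv a).differentiableAt, hdv ▸ hg⟩
  · rw [hdv]
    have h1 : HasDerivAt (e.symm : ℝ → ℝ) (deriv e.symm a) a :=
      (hes.differentiable (by simp) a).hasDerivAt
    have h2 : HasDerivAt (fun a => k (e.symm a)) ((1 + deriv f (e.symm a) / 2) * deriv e.symm a) a :=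
      (hkd _).comp a h1
    have h3 : (fun a => k (e.symm a)) = id := funext hek'
    rw [h3] at h2
    have h4 := h2.unique (hasDerivAt_id a)
    have h5 : HasDerivAt g (2 * deriv e.symm a - 1) a := (h1.const_mul 2).sub (hasDerivAt_id a)
    rw [h5.deriv]
    have h6 := abs_le.1 (hd (e.symm a))
    have h7 := hpos (e.symm a)
    by_contra hc
    nlinarith
  · rw [hdv]
    show 2 * e.symm (k u) - k u + k u = 2 * u
    rw [hke]; ring
  · rw [hdv]
    have : (g a + a) / 2 = e.symm a := by simp only [g]; ring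
    rw [this]
    exact hek' a

section unif
variable {ι : Type} {l : Filter ι}

lemma cv_close {E F : Type} [NormedAddCommGroup E] [NormedSpace ℝ E] [NormedAddCommGroup F]
    [NormedSpace ℝ F] {k : ℕ} {f : ι → E → F} {g : E → F} {x : E} (h : CV k l f g x) {e : ℝ}
    (he : 0 < e) : ∀ᶠ p : ι × E in l ×ˢ 𝓝 x, ‖f p.1 p.2 - g p.2‖ ≤ e := by
  have h1 : Tendsto (fun p : ι × E => f p.1 p.2 - g p.2) (l ×ˢ 𝓝 x) (𝓝 (g x - g x)) :=
    h.tendsto.sub (h.smg0.continuousAt.tendsto.comp tendsto_snd)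
  rw [sub_self] at h1
  have h2 := h1.norm
  rw [norm_zero] at h2
  exact h2.eventually (ge_mem_nhds he)

/-- closeness in `C ^ 2` at a point -/
def Cl (e : ℝ) (f g : ℂ → ℂ) (y : ℂ) : Prop :=
  ‖f y - g y‖ ≤ e ∧ ‖fderiv ℝ f y - fderiv ℝ g y‖ ≤ e ∧
    ‖fderiv ℝ (fderiv ℝ f) y - fderiv ℝ (fderiv ℝ g) y‖ ≤ e

lemma Cl.trans {e e' : ℝ} {f g h : ℂ → ℂ} {y : ℂ} (h1 : Cl e f g y) (h2 : Cl e' g h y) :
    Cl (e + e') f h y :=
  ⟨(norm_sub_le_norm_sub_add_norm_sub _ _ _).trans (add_le_add h1.1 h2.1),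
    (norm_sub_le_norm_sub_add_norm_sub _ _ _).trans (add_le_add h1.2.1 h2.2.1),
    (norm_sub_le_norm_sub_add_norm_sub (fderiv ℝ (fderiv ℝ f) y) (fderiv ℝ (fderiv ℝ g) y)
      (fderiv ℝ (fderiv ℝ h) y)).trans (add_le_add h1.2.2 h2.2.2)⟩

lemma unif {f : ι → ℂ → ℂ} {g : ℂ → ℂ} {K : Set ℂ} (hK : IsCompact K)
    (h : ∀ x ∈ K, CV 2 l f g x) {e : ℝ} (he : 0 < e) :
    ∀ᶠ i in l, ∀ y ∈ K, ContDiffAt ℝ ∞ (f i) y ∧ Cl e (f i) g y := by
  refine ev_compact' (P := fun i y => ContDiffAt ℝ ∞ (f i) y ∧ Cl e (f i) g y) hK fun x hx => ?_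
  filter_upwards [(h x hx).sm, cv_close (h x hx) he, cv_close (h x hx).fderiv he,
    cv_close (h x hx).fderiv.fderiv he] with p h0 h1 h2 h3
  exact ⟨h0, h1, h2, h3⟩

lemma cv_zero_of {E F : Type} [NormedAddCommGroup E] [NormedSpace ℝ E] [NormedAddCommGroup F]
    [NormedSpace ℝ F] {f : ι → E → F} {g : E → F} {x : E} {V : Set E} (hV : V ∈ 𝓝 x)
    {e : ι → ℝ} (he : Tendsto e l (𝓝 0)) (hg : ContDiff ℝ ∞ g)
    (h : ∀ i, ∀ y ∈ V, ContDiffAt ℝ ∞ (f i) y ∧ ‖f i y - g y‖ ≤ e i) : CV 0 l f g x := by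
  have hV' : ∀ᶠ p : ι × E in l ×ˢ 𝓝 x, p.2 ∈ V := ev_snd (P := fun y => y ∈ V) hV
  refine CV.zero (hV'.mono fun p hp => (h _ _ hp).1) (Eventually.of_forall fun _ => hg.contDiffAt) ?_
  have h1 : Tendsto (fun p : ι × E => f p.1 p.2 - g p.2) (l ×ˢ 𝓝 x) (𝓝 0) :=
    squeeze_zero_norm' (hV'.mono fun p hp => (h _ _ hp).2) (he.comp tendsto_fst)
  have h2 := h1.add (hg.continuous.continuousAt.tendsto.comp tendsto_snd (x := l ×ˢ 𝓝 x))
  simpa using h2

lemma of_unif {f : ι → ℂ → ℂ} {g : ℂ → ℂ} {x : ℂ} {V : Set ℂ} (hV : V ∈ 𝓝 x)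
    {e : ι → ℝ} (he : Tendsto e l (𝓝 0)) (hg : ContDiff ℝ ∞ g)
    (h : ∀ i, ∀ y ∈ V, ContDiffAt ℝ ∞ (f i) y ∧ Cl (e i) (f i) g y) : CV 2 l f g x := by
  have hg1 : ContDiff ℝ ∞ (fderiv ℝ g) := contDiff_iff_contDiffAt.2 fun _ => cd_fderiv hg.contDiffAt
  have hg2 : ContDiff ℝ ∞ (fderiv ℝ (fderiv ℝ g)) :=
    contDiff_iff_contDiffAt.2 fun _ => cd_fderiv hg1.contDiffAt
  refine (cv_zero_of hV he hg fun i y hy => ⟨(h i y hy).1, (h i y hy).2.1⟩).succ ?_
  refine (cv_zero_of hV he hg1 fun i y hy => ⟨cd_fderiv (h i y hy).1, (h i y hy).2.2.1⟩).succ ?_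
  exact cv_zero_of hV he hg2 fun i y hy => ⟨cd_fderiv (cd_fderiv (h i y hy).1), (h i y hy).2.2.2⟩

end unif

end BC

end Pool.Agent.Lib.MP_0281e9_an
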