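import Pool.Agent.Lib.MP_0281e9_an.Base

namespace Pool.Agent.Lib.MP_0281e9_an

open Set Filter Complex Topology
open scoped ContDiff ComplexConjugate

namespace BC

noncomputable section

def Out (ε δ : ℝ) (w : ℝ → ℝ) (z : ℂ) : ℂ :=
  ((z.re + z.im : ℝ) : ℂ) + ((deriv w z.re * Real.sin (δ + ε * z.im) +
    ε * w z.re * Real.cos (δ + ε * z.im) : ℝ) : ℂ) * I

def Fl (ε l : ℝ) (z : ℂ) : ℂ :=
  ((z.re : ℝ) : ℂ) + ((z.im - l * (Real.sin (ε * z.re) / ε) : ℝ) : ℂ) * I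

def Rq (q : ℂ) (θ : ℝ) : ℝ := q.re * Real.cos θ + q.im * Real.sin θ

def LN (R : ℝ → ℝ) (φ ε : ℝ) (z : ℂ) : ℝ × ℝ := (φ + ε * z.re, R (φ + ε * z.re) + ε * z.im)

def Win (h : ℝ → ℝ) (q : ℂ) (ψ ε : ℝ) (w : ℝ → ℝ) (A : ℝ) : Prop :=
  ∀ a, |a| < A → h (ψ + ε * a) = Rq q (ψ + ε * a) + ε ^ 2 * w a

def outc (h : ℝ → ℝ) (s : ℝ × ℝ) : ℝ × ℝ := (s.1 + s.2, fl h (s.1 + s.2) s.1)
def innc (h : ℝ → ℝ) (s : ℝ × ℝ) : ℝ × ℝ := (s.1 - s.2, fl h (s.1 - s.2) s.1)

lemma cplx_re (a b : ℝ) : ((a : ℂ) + (b : ℂ) * I).re = a := by simp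
lemma cplx_im (a b : ℝ) : ((a : ℂ) + (b : ℂ) * I).im = b := by simp

lemma Rq_eq (q : ℂ) (θ : ℝ) : (q * exp (-((θ : ℂ) * I))).re = Rq q θ := by
  have : -((θ : ℂ) * I) = ((-θ : ℝ) : ℂ) * I := by push_cast; ring
  rw [this, mul_re, exp_ofReal_mul_I_re, exp_ofReal_mul_I_im, Real.cos_neg, Real.sin_neg, Rq]
  ring

lemma fl_win {h w : ℝ → ℝ} {q : ℂ} {ψ ε A a : ℝ} (hh : Differentiable ℝ h)
    (hw : Differentiable ℝ w) (hε : ε ≠ 0) (hW : Win h q ψ ε w A) (ha : |a| < A) (φ : ℝ) :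
    fl h φ (ψ + ε * a) = Rq q φ + ε ^ 2 * w a * Real.cos (ψ + ε * a - φ) -
      ε * deriv w a * Real.sin (ψ + ε * a - φ) := by
  have h0 : HasDerivAt (fun a => ψ + ε * a) ε a := by
    simpa using ((hasDerivAt_id a).const_mul ε).const_add ψ
  have h1 : HasDerivAt (fun a => h (ψ + ε * a)) (deriv h (ψ + ε * a) * ε) a :=
    (hh _).hasDerivAt.comp a h0
  have h2 : HasDerivAt (fun a => Rq q (ψ + ε * a) + ε ^ 2 * w a)
      (q.re * (-Real.sin (ψ + ε * a) * ε) + q.im * (Real.cos (ψ + ε * a) * ε) +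
        ε ^ 2 * deriv w a) a :=
    ((h0.cos.const_mul q.re).add (h0.sin.const_mul q.im)).add ((hw a).hasDerivAt.const_mul _)
  have h3 : (fun a => h (ψ + ε * a)) =ᶠ[𝓝 a] fun a => Rq q (ψ + ε * a) + ε ^ 2 * w a := by
    have : ∀ᶠ b in 𝓝 a, |b| < A := continuous_abs.continuousAt.eventually (gt_mem_nhds ha)
    exact this.mono fun b hb => hW b hb
  have h4 := h1.unique (h2.congr_of_eventuallyEq h3)
  have h5 : deriv h (ψ + ε * a) = -q.re * Real.sin (ψ + ε * a) + q.im * Real.cos (ψ + ε * a) +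
      ε * deriv w a := by
    apply mul_right_cancel₀ hε
    rw [h4]; ring
  rw [fl, h5, hW a ha, Rq, Rq]
  generalize ψ + ε * a = θ
  have h6 : Real.cos φ = Real.cos (θ - (θ - φ)) := by congr 1; ring
  have h7 : Real.sin φ = Real.sin (θ - (θ - φ)) := by congr 1; ring
  rw [h6, h7, Real.cos_sub θ (θ - φ), Real.sin_sub θ (θ - φ)]
  ring

lemma out_eq {h w : ℝ → ℝ} {q : ℂ} {ψ ε A : ℝ} {z : ℂ} (hh : Differentiable ℝ h)
    (hw : Differentiable ℝ w) (hε : ε ≠ 0) (hW : Win h q ψ ε w A) (ha : |z.re| < A) (δ : ℝ) :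
    outc h (ψ + ε * z.re, δ + ε * z.im) = LN (Rq q) (ψ + δ) ε (Out ε δ w z) := by
  simp only [outc, LN, Out, cplx_re, cplx_im]
  rw [fl_win hh hw hε hW ha]
  have h1 : ψ + ε * z.re - (ψ + ε * z.re + (δ + ε * z.im)) = -(δ + ε * z.im) := by ring
  have h2 : ψ + δ + ε * (z.re + z.im) = ψ + ε * z.re + (δ + ε * z.im) := by ring
  rw [h1, h2, Real.cos_neg, Real.sin_neg]
  congr 1
  ring

lemma inc_eq {h w : ℝ → ℝ} {q : ℂ} {ψ ε A : ℝ} {z : ℂ} (hh : Differentiable ℝ h)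
    (hw : Differentiable ℝ w) (hε : ε ≠ 0) (hW : Win h q ψ ε w A) (ha : |z.re| < A) (δ : ℝ) :
    innc h (ψ + ε * z.re, δ + ε * z.im) = LN (Rq q) (ψ - δ) ε (Inc ε δ w z) := by
  simp only [innc, LN, Inc, cplx_re, cplx_im]
  rw [fl_win hh hw hε hW ha]
  have h1 : ψ + ε * z.re - (ψ + ε * z.re - (δ + ε * z.im)) = δ + ε * z.im := by ring
  have h2 : ψ - δ + ε * (z.re - z.im) = ψ + ε * z.re - (δ + ε * z.im) := by ring
  rw [h1, h2]
  congr 1
  ring

lemma LN_Fl {R R' : ℝ → ℝ} {φ ε l : ℝ} (hε : ε ≠ 0) (h : ∀ θ, R' θ = R θ + l * Real.sin (θ - φ))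
    (z : ℂ) : LN R φ ε z = LN R' φ ε (Fl ε l z) := by
  simp only [LN, Fl, cplx_re, cplx_im, h, add_sub_cancel_left]
  congr 1
  field_simp
  ring

lemma Rq_qpt (η : ℝ) (N i : ℕ) (θ : ℝ) : Rq (qpt η N i) θ = Real.cos (θ - i * (Real.pi + η)) +
    if i = 0 ∨ i = N then 3 / 10 * η ^ 2 * Real.cos (θ - psib η N i) else 0 := by
  unfold Rq qpt
  split_ifs with h
  · simp only [add_re, add_im, re_ofReal_mul, im_ofReal_mul, exp_ofReal_mul_I_re,
      exp_ofReal_mul_I_im, Real.cos_sub]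
    ring
  · simp only [add_zero, exp_ofReal_mul_I_re, exp_ofReal_mul_I_im, Real.cos_sub]
    ring

lemma cos_step (η θ : ℝ) (i : ℕ) : Real.cos (θ - ((i + 1 : ℕ) : ℝ) * (Real.pi + η)) =
    Real.cos (θ - i * (Real.pi + η)) +
      2 * Real.cos (η / 2) * Real.sin (θ - (i * (Real.pi + η) + (Real.pi + η) / 2)) := by
  set t := θ - (i * (Real.pi + η) + (Real.pi + η) / 2) with ht
  have h1 : θ - ((i + 1 : ℕ) : ℝ) * (Real.pi + η) = t - η / 2 - Real.pi / 2 := by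
    rw [ht]; push_cast; ring
  have h2 : θ - i * (Real.pi + η) = t + η / 2 + Real.pi / 2 := by rw [ht]; ring
  rw [h1, h2, Real.cos_sub_pi_div_two, Real.cos_add_pi_div_two, Real.sin_sub, Real.sin_add]
  ring

def dl (η : ℝ) (N i : ℕ) : ℝ := if i = 0 ∨ i = N then Real.pi / 2 else (Real.pi + η) / 2

def st (η : ℝ) (N i : ℕ) (z : ℂ) : ℝ × ℝ := (psib η N i + η ^ 2 * z.re, dl η N i + η ^ 2 * z.im)

lemma orbit {h : ℝ → ℝ} (hh : Differentiable ℝ h) {η A : ℝ} (hη : 0 < η) {N : ℕ}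
    {W : ℕ → ℝ → ℝ} (hW : ∀ i, Differentiable ℝ (W i))
    (hwin : ∀ i ≤ N, Win h (qpt η N i) (psib η N i) (η ^ 2) (W i) A)
    (hang : η / 2 + η ^ 2 * A ≤ Real.pi / 2) {S L : ℕ → ℂ} (hS : ∀ i ≤ N, ‖S i‖ < A)
    (h0 : L 0 = Fl (η ^ 2) (2 * Real.cos (η / 2) + 3 / 10 * η ^ 2)
      (Out (η ^ 2) (Real.pi / 2) (W 0) (S 0)))
    (h1 : ∀ i, i + 1 < N → L (i + 1) = Fl (η ^ 2) (2 * Real.cos (η / 2))
      (Out (η ^ 2) ((Real.pi + η) / 2) (W (i + 1)) (S (i + 1))) ∧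
      Inc (η ^ 2) ((Real.pi + η) / 2) (W (i + 1)) (S (i + 1)) = L i)
    (h2 : ∀ i, i + 1 = N → Inc (η ^ 2) (Real.pi / 2) (W N) (S N) =
      Fl (η ^ 2) (3 / 10 * η ^ 2) (L i)) :
    ∀ i < N, Next h (st η N i (S i)) (st η N (i + 1) (S (i + 1))) := by
  have hε : η ^ 2 ≠ 0 := by positivity
  have hre : ∀ i ≤ N, |(S i).re| < A := fun i hi => (abs_re_le_norm _).trans_lt (hS i hi)
  have hang' : ∀ i ≤ N, (st η N i (S i)).2 ∈ Ioo 0 Real.pi := by
    intro i hi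
    have h3 := abs_lt.1 ((abs_im_le_norm _).trans_lt (hS i hi))
    have h4 : η ^ 2 * (S i).im < η ^ 2 * A := mul_lt_mul_of_pos_left h3.2 (by positivity)
    have h5 : η ^ 2 * -A < η ^ 2 * (S i).im := mul_lt_mul_of_pos_left h3.1 (by positivity)
    simp only [st, dl]
    split_ifs <;> constructor <;> linarith
  intro i hi
  let R : ℝ → ℝ := fun θ => Real.cos (θ - ((i + 1 : ℕ) : ℝ) * (Real.pi + η))
  let φ : ℝ := i * (Real.pi + η) + (Real.pi + η) / 2
  have ho : outc h (st η N i (S i)) = LN R φ (η ^ 2) (L i) := by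
    rw [st, out_eq hh (hW i) hε (hwin i hi.le) (hre i hi.le)]
    cases i with
    | zero =>
      have e1 : dl η N 0 = Real.pi / 2 := by simp [dl]
      have e2 : psib η N 0 = η / 2 := by simp [psib]
      have e3 : η / 2 + Real.pi / 2 = φ := by simp only [φ]; push_cast; ring
      rw [e1, e2, e3, h0]
      refine LN_Fl hε (fun θ => ?_) _
      have e4 : θ - φ = θ - η / 2 - Real.pi / 2 := by rw [← e3]; ring
      have e5 := cos_step η θ 0
      rw [Rq_qpt, if_pos (Or.inl rfl), e2]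
      simp only [R]
      rw [e5]
      show _ + _ * Real.sin (θ - φ) = _
      rw [e4, Real.sin_sub_pi_div_two]
      ring
    | succ j =>
      have hne : ¬ (j + 1 = 0 ∨ j + 1 = N) := by omega
      have e1 : dl η N (j + 1) = (Real.pi + η) / 2 := by simp only [dl, if_neg hne]
      have e2 : psib η N (j + 1) = ((j + 1 : ℕ) : ℝ) * (Real.pi + η) := by
        simp only [psib]
        rw [if_neg (by omega), if_neg (by omega)]
      rw [e1, e2, (h1 j hi).1]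
      refine LN_Fl hε (fun θ => ?_) _
      rw [Rq_qpt, if_neg hne, add_zero]
      exact cos_step η θ (j + 1)
  have hin : innc h (st η N (i + 1) (S (i + 1))) = LN R φ (η ^ 2) (L i) := by
    rw [st, inc_eq hh (hW _) hε (hwin (i + 1) hi) (hre _ hi)]
    by_cases hN : i + 1 = N
    · have e1 : dl η N (i + 1) = Real.pi / 2 := by simp [dl, hN]
      have e2 : psib η N (i + 1) = ((i + 1 : ℕ) : ℝ) * (Real.pi + η) - η / 2 := by
        simp only [psib]
        rw [if_neg (by omega), if_pos hN, hN]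
      have e3 : ((i + 1 : ℕ) : ℝ) * (Real.pi + η) - η / 2 - Real.pi / 2 = φ := by
        simp only [φ]; push_cast; ring
      have e6 := h2 i hN
      rw [← hN] at e6
      rw [e1, e2, e3, e6]
      refine (LN_Fl hε (fun θ => ?_) _).symm
      have e4 : θ - φ = θ - (((i + 1 : ℕ) : ℝ) * (Real.pi + η) - η / 2) + Real.pi / 2 := by
        rw [← e3]; ring
      rw [Rq_qpt, if_pos (Or.inr hN), e2, e4, Real.sin_add_pi_div_two]
    · have hne : ¬ (i + 1 = 0 ∨ i + 1 = N) := by omega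
      have e1 : dl η N (i + 1) = (Real.pi + η) / 2 := by simp only [dl, if_neg hne]
      have e2 : psib η N (i + 1) = ((i + 1 : ℕ) : ℝ) * (Real.pi + η) := by
        simp only [psib]
        rw [if_neg (by omega), if_neg hN]
      have e3 : ((i + 1 : ℕ) : ℝ) * (Real.pi + η) - (Real.pi + η) / 2 = φ := by
        simp only [φ]; push_cast; ring
      rw [e1, e2, e3, (h1 i (by omega)).2]
      congr 1
      funext θ
      rw [Rq_qpt, if_neg hne, add_zero]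
  have hoi := ho.trans hin.symm
  have k1 : _ = _ := congrArg Prod.fst hoi
  have k2 : _ = _ := congrArg Prod.snd hoi
  simp only [outc, innc] at k1 k2
  refine ⟨hang' i hi.le, hang' (i + 1) hi, k1, ?_⟩
  rw [k2, k1]

lemma iter {α : Type} {φ : α → α} {X Y : ℕ → α} {N : ℕ} (h : ∀ i < N, φ (X i) = X (i + 1))
    (h' : ∀ i < N, φ (Y (i + 1)) = Y i) (hN : X N = Y N) : φ^[N + N] (X 0) = Y 0 := by
  have h1 : ∀ k ≤ N, φ^[k] (X 0) = X k := by
    intro k
    induction k with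
    | zero => intro _; rfl
    | succ k ih => intro hk; rw [Function.iterate_succ_apply', ih (by omega), h k (by omega)]
  have h2 : ∀ k ≤ N, φ^[k] (Y k) = Y 0 := by
    intro k
    induction k with
    | zero => intro _; rfl
    | succ k ih => intro hk; rw [Function.iterate_succ_apply, h' k (by omega), ih (by omega)]
  rw [Function.iterate_add_apply, h1 N le_rfl, hN, h2 N le_rfl]

end

end BC

end Pool.Agent.Lib.MP_0281e9_an
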