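import Pool.Agent.Lib.MP_0281e9_an.ChainA
import Pool.Agent.Lib.MP_0281e9_an.ChainB

namespace Pool.Agent.Lib.MP_0281e9_an

open Set Filter Complex MeasureTheory Topology
open scoped ContDiff ComplexConjugate

namespace BC

noncomputable section

def wv (r : ℝ) (v : ℝ → ℝ) (η a : ℝ) : ℝ := v a + r * (a ^ 2 / 2 * Real.sinc (η ^ 2 * a / 2) ^ 2)
def wd (r : ℝ) (v : ℝ → ℝ) (η a : ℝ) : ℝ := deriv v a + r * (a * Real.sinc (η ^ 2 * a))

def OutS (c r : ℝ) (v : ℝ → ℝ) (p : ℝ × ℂ) : ℂ :=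
  ((p.2.re + p.2.im : ℝ) : ℂ) +
    ((wd r v p.1 p.2.re * Real.sin (Real.pi / 2 + c * p.1 + p.1 ^ 2 * p.2.im) +
      p.1 ^ 2 * wv r v p.1 p.2.re * Real.cos (Real.pi / 2 + c * p.1 + p.1 ^ 2 * p.2.im) : ℝ) : ℂ) * I

def IncS (c r : ℝ) (v : ℝ → ℝ) (p : ℝ × ℂ) : ℂ :=
  ((p.2.re - p.2.im : ℝ) : ℂ) +
    ((-(wd r v p.1 p.2.re) * Real.sin (Real.pi / 2 + c * p.1 + p.1 ^ 2 * p.2.im) +
      p.1 ^ 2 * wv r v p.1 p.2.re * Real.cos (Real.pi / 2 + c * p.1 + p.1 ^ 2 * p.2.im) : ℝ) : ℂ) * I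

def FlS (l : ℝ → ℝ) (p : ℝ × ℂ) : ℂ :=
  ((p.2.re : ℝ) : ℂ) + ((p.2.im - l p.1 * (p.2.re * Real.sinc (p.1 ^ 2 * p.2.re)) : ℝ) : ℂ) * I

def Wf (r : ℝ) (v : ℝ → ℝ) (η a : ℝ) : ℝ := v a + r * ((1 - Real.cos (η ^ 2 * a)) / (η ^ 2) ^ 2)

lemma cd_cplx {E : Type} [NormedAddCommGroup E] [NormedSpace ℝ E] {f g : E → ℝ}
    (hf : ContDiff ℝ ∞ f) (hg : ContDiff ℝ ∞ g) :
    ContDiff ℝ ∞ fun x => (f x : ℂ) + (g x : ℂ) * I :=
  (ofRealCLM.contDiff.comp hf).add ((ofRealCLM.contDiff.comp hg).mul contDiff_const)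

lemma cd_re : ContDiff ℝ ∞ fun p : ℝ × ℂ => p.2.re := reCLM.contDiff.comp contDiff_snd
lemma cd_im : ContDiff ℝ ∞ fun p : ℝ × ℂ => p.2.im := imCLM.contDiff.comp contDiff_snd

lemma cd_deriv {v : ℝ → ℝ} (hv : ContDiff ℝ ∞ v) : ContDiff ℝ ∞ (deriv v) :=
  (contDiff_infty_iff_deriv.1 hv).2

lemma cd_wv (r : ℝ) {v : ℝ → ℝ} (hv : ContDiff ℝ ∞ v) :
    ContDiff ℝ ∞ fun p : ℝ × ℂ => wv r v p.1 p.2.re :=
  (hv.comp cd_re).add (contDiff_const.mul (((cd_re.pow 2).div_const 2).mul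
    ((sinc_smooth.comp (((contDiff_fst.pow 2).mul cd_re).div_const 2)).pow 2)))

lemma cd_wd (r : ℝ) {v : ℝ → ℝ} (hv : ContDiff ℝ ∞ v) :
    ContDiff ℝ ∞ fun p : ℝ × ℂ => wd r v p.1 p.2.re :=
  ((cd_deriv hv).comp cd_re).add (contDiff_const.mul (cd_re.mul
    (sinc_smooth.comp ((contDiff_fst.pow 2).mul cd_re))))

lemma cd_ang (c : ℝ) : ContDiff ℝ ∞ fun p : ℝ × ℂ => Real.pi / 2 + c * p.1 + p.1 ^ 2 * p.2.im :=
  (contDiff_const.add (contDiff_const.mul contDiff_fst)).add ((contDiff_fst.pow 2).mul cd_im)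

lemma cd_OutS (c r : ℝ) {v : ℝ → ℝ} (hv : ContDiff ℝ ∞ v) : ContDiff ℝ ∞ (OutS c r v) :=
  cd_cplx (cd_re.add cd_im) (((cd_wd r hv).mul (cd_ang c).sin).add
    (((contDiff_fst.pow 2).mul (cd_wv r hv)).mul (cd_ang c).cos))

lemma cd_IncS (c r : ℝ) {v : ℝ → ℝ} (hv : ContDiff ℝ ∞ v) : ContDiff ℝ ∞ (IncS c r v) :=
  cd_cplx (cd_re.sub cd_im) (((cd_wd r hv).neg.mul (cd_ang c).sin).add
    (((contDiff_fst.pow 2).mul (cd_wv r hv)).mul (cd_ang c).cos))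

lemma cd_FlS {l : ℝ → ℝ} (hl : ContDiff ℝ ∞ l) : ContDiff ℝ ∞ (FlS l) :=
  cd_cplx cd_re (cd_im.sub ((hl.comp contDiff_fst).mul
    (cd_re.mul (sinc_smooth.comp ((contDiff_fst.pow 2).mul cd_re)))))

lemma a_sinc {ε : ℝ} (hε : ε ≠ 0) (a : ℝ) : a * Real.sinc (ε * a) = Real.sin (ε * a) / ε := by
  rw [← mul_sinc]; field_simp

lemma wv_eq (r : ℝ) (v : ℝ → ℝ) {η : ℝ} (hη : η ≠ 0) (a : ℝ) : wv r v η a = Wf r v η a := by
  have h1 : Real.cos (η ^ 2 * a) = 1 - 2 * Real.sin (η ^ 2 * a / 2) ^ 2 := by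
    have h := Real.cos_two_mul (η ^ 2 * a / 2)
    have h' := Real.sin_sq_add_cos_sq (η ^ 2 * a / 2)
    rw [show 2 * (η ^ 2 * a / 2) = η ^ 2 * a by ring] at h
    linarith
  rw [wv, Wf, h1, ← mul_sinc (η ^ 2 * a / 2)]
  field_simp
  ring

lemma Wf_deriv (r : ℝ) {v : ℝ → ℝ} (hv : ContDiff ℝ ∞ v) {η : ℝ} (hη : η ≠ 0) (a : ℝ) :
    HasDerivAt (Wf r v η) (wd r v η a) a := by
  have h0 : HasDerivAt (fun a => η ^ 2 * a) (η ^ 2) a := by
    simpa using (hasDerivAt_id a).const_mul (η ^ 2)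
  have h1 := (hv.differentiable (by simp) a).hasDerivAt.add
    (((h0.cos.const_sub 1).div_const ((η ^ 2) ^ 2)).const_mul r)
  refine h1.congr_deriv ?_
  rw [wd, a_sinc (pow_ne_zero 2 hη)]
  field_simp

lemma OutS_eq (c r : ℝ) {v : ℝ → ℝ} (hv : ContDiff ℝ ∞ v) {η : ℝ} (hη : η ≠ 0) (z : ℂ) :
    OutS c r v (η, z) = Out (η ^ 2) (Real.pi / 2 + c * η) (Wf r v η) z := by
  simp only [OutS, Out, wv_eq r v hη, (Wf_deriv r hv hη _).deriv]

lemma IncS_eq (c r : ℝ) {v : ℝ → ℝ} (hv : ContDiff ℝ ∞ v) {η : ℝ} (hη : η ≠ 0) (z : ℂ) :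
    IncS c r v (η, z) = Inc (η ^ 2) (Real.pi / 2 + c * η) (Wf r v η) z := by
  simp only [IncS, Inc, wv_eq r v hη, (Wf_deriv r hv hη _).deriv]

lemma FlS_eq (l : ℝ → ℝ) {η : ℝ} (hη : η ≠ 0) (z : ℂ) : FlS l (η, z) = Fl (η ^ 2) (l η) z := by
  simp only [FlS, Fl, a_sinc (pow_ne_zero 2 hη)]

lemma OutS_zero (c r : ℝ) (v : ℝ → ℝ) (z : ℂ) : OutS c r v (0, z) =
    ((z.re + z.im : ℝ) : ℂ) + ((deriv v z.re + r * z.re : ℝ) : ℂ) * I := by
  simp [OutS, wd]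

lemma IncS_zero (c r : ℝ) (v : ℝ → ℝ) (z : ℂ) : IncS c r v (0, z) =
    ((z.re - z.im : ℝ) : ℂ) + ((-(deriv v z.re + r * z.re) : ℝ) : ℂ) * I := by
  simp [IncS, wd]

lemma FlS_zero (l : ℝ → ℝ) (z : ℂ) : FlS l (0, z) =
    ((z.re : ℝ) : ℂ) + ((z.im - l 0 * z.re : ℝ) : ℂ) * I := by
  simp [FlS]

def Cm : ℂ →L[ℝ] ℂ := mat 1 (1 / 2) 0 (-1 / 2)
def Ci : ℂ →L[ℝ] ℂ := mat 1 1 0 (-2)
def Jm : ℂ →L[ℝ] ℂ := mat 0 (-1) 1 0
def Ji : ℂ →L[ℝ] ℂ := mat 0 1 (-1) 0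

lemma Cm_Ci (z : ℂ) : Cm (Ci z) = z := by
  apply Complex.ext <;> simp only [Cm, Ci, mat_re, mat_im] <;> ring

lemma Ci_Cm (z : ℂ) : Ci (Cm z) = z := by
  apply Complex.ext <;> simp only [Cm, Ci, mat_re, mat_im] <;> ring

lemma Ci_Jm (z : ℂ) : Ci (Jm z) = In0 z := by
  apply Complex.ext <;> simp only [Jm, Ci, In0, mat_re, mat_im] <;> ring

lemma Jm_det : Jm.det = 1 := by
  rw [ContinuousLinearMap.det, ← LinearMap.det_toMatrix Complex.basisOneI, Matrix.det_fin_two]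
  simp [LinearMap.toMatrix_apply, Jm]

def Hf (f : ℝ → ℝ) (y : ℂ) : ℂ :=
  ((-y.im / 2 + f (-y.im / 2) / 2 : ℝ) : ℂ) +
    ((-y.im / 2 + f (-y.im / 2) / 2 - y.re : ℝ) : ℂ) * I

lemma cd_Hf {f : ℝ → ℝ} (hf : ContDiff ℝ ∞ f) : ContDiff ℝ ∞ (Hf f) := by
  have h1 : ContDiff ℝ ∞ fun y : ℂ => -y.im / 2 := imCLM.contDiff.neg.div_const 2
  have h2 : ContDiff ℝ ∞ fun y : ℂ => -y.im / 2 + f (-y.im / 2) / 2 :=
    h1.add ((hf.comp h1).div_const 2)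
  exact cd_cplx h2 (h2.sub reCLM.contDiff)

lemma cd_henon {f : ℝ → ℝ} (hf : ContDiff ℝ ∞ f) : ContDiff ℝ ∞ (henon f) :=
  cd_cplx imCLM.contDiff ((hf.comp imCLM.contDiff).sub reCLM.contDiff)

def Hn (F : ℕ → ℝ → ℝ) : ℕ → ℂ → ℂ
  | 0 => id
  | n + 1 => henon (F n) ∘ Hn F n

lemma cd_Hn {F : ℕ → ℝ → ℝ} (hF : ∀ i, ContDiff ℝ ∞ (F i)) : ∀ n, ContDiff ℝ ∞ (Hn F n)
  | 0 => contDiff_id
  | n + 1 => (cd_henon (hF n)).comp (cd_Hn hF n)

lemma Hn_succ (F : ℕ → ℝ → ℝ) : ∀ n, Hn F (n + 1) = Hn (fun i => F (i + 1)) n ∘ henon (F 0)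
  | 0 => rfl
  | n + 1 => by rw [Hn, Hn_succ F n]; rfl

lemma hen_eq : ∀ fs : List (ℝ → ℝ), hen fs = Hn (fun i => fs.getD i 0) fs.length
  | [] => rfl
  | f :: fs => by rw [List.length_cons, Hn_succ, hen, hen_eq fs]; rfl

lemma bound_fin {X : Type} [TopologicalSpace X] {K : Set X} (hK : IsCompact K) {g : ℕ → X → ℝ}
    (hg : ∀ i, Continuous (g i)) (n : ℕ) : ∃ B, 0 ≤ B ∧ ∀ i < n, ∀ x ∈ K, g i x ≤ B := by
  induction n with
  | zero => exact ⟨0, le_rfl, fun i hi => absurd hi (Nat.not_lt_zero _)⟩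
  | succ n ih =>
    obtain ⟨B, hB0, hB⟩ := ih
    obtain ⟨C, hC⟩ := hK.bddAbove_image (hg n).continuousOn
    refine ⟨max B C, le_max_of_le_left hB0, fun i hi x hx => ?_⟩
    rcases Nat.lt_succ_iff_lt_or_eq.1 hi with h | rfl
    · exact le_max_of_le_left (hB i h x hx)
    · exact le_max_of_le_right (hC ⟨x, hx, rfl⟩)

def q0 (a : ℝ) : ℝ := 3 / 4 * a ^ 2

lemma cd_q0 : ContDiff ℝ ∞ q0 := contDiff_const.mul (contDiff_id.pow 2)

lemma q0_deriv : deriv q0 = fun a => 3 / 2 * a := by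
  funext a
  have : HasDerivAt q0 (3 / 4 * (((2 : ℕ) : ℝ) * a ^ (2 - 1))) a :=
    (hasDerivAt_pow 2 a).const_mul (3 / 4 : ℝ)
  rw [this.deriv]; norm_num; ring

lemma q0_deriv2 (a : ℝ) : deriv (deriv q0) a = 3 / 2 := by
  rw [q0_deriv]
  simp

def ll (η : ℝ) : ℝ := 2 * Real.cos (η / 2)
def tt (η : ℝ) : ℝ := 3 / 10 * η ^ 2

lemma cd_ll : ContDiff ℝ ∞ ll := contDiff_const.mul (contDiff_id.div_const 2).cos
lemma cd_tt : ContDiff ℝ ∞ tt := contDiff_const.mul (contDiff_id.pow 2)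

def ln (v : ℕ → ℝ → ℝ) (G : ℕ → ℝ × ℂ → ℂ) : ℕ → ℝ × ℂ → ℂ
  | 0, p => FlS (fun η => ll η + tt η) (p.1, OutS 0 (1 / 2) q0 p)
  | i + 1, p => FlS ll (p.1, OutS (1 / 2) 1 (v i) (p.1, G i (p.1, ln v G i p)))

def StS : Prop := ∀ (h : ℝ → ℝ) (_ : ContDiff ℝ ∞ h) (_ : Function.Periodic h (2 * Real.pi))
    (_ : ∀ ψ, 0 < h ψ + deriv (deriv h) ψ),
    ∃ (Y : Set ℂ) (γ : ℝ → ℂ) (L : ℝ) (φ X : ℝ × ℝ → ℝ × ℝ) (x : ℝ → ℝ),
      IsTable Y γ L ∧ IsBilliardMap γ L φ ∧ IsProbabilityMeasure (liouville L) ∧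
      MeasurePreserving φ (liouville L) (liouville L) ∧
      (∀ s s', Next h s s' → φ (X s) = X s' ∧
        φ (X (s'.1, Real.pi - s'.2)) = X (s.1, Real.pi - s.2)) ∧
      ContDiff ℝ ∞ x ∧ (∀ ψ, 0 < deriv x ψ) ∧
      ∀ s : ℝ × ℝ, s.1 ∈ Ioo (-Real.pi) Real.pi → X s = (x s.1, s.2) ∧ x s.1 ∈ Ioo 0 L

def StH : Prop := ∀ (N : ℕ) (_ : 0 < N) (A C : ℝ),
    ∀ᶠ η in 𝓝[>] (0 : ℝ), ∀ v : ℕ → ℝ → ℝ, (∀ i, ContDiff ℝ ∞ (v i)) →
      (∀ i a, 0 ≤ deriv (deriv (v i)) a) →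
      (∀ i ≤ N, |v i 0| ≤ C ∧ ∀ a, |a| ≤ A + 1 → |deriv (v i) a| ≤ C) →
      ∃ h : ℝ → ℝ, ContDiff ℝ ∞ h ∧ Function.Periodic h (2 * Real.pi) ∧
        (∀ ψ, 0 < h ψ + deriv (deriv h) ψ) ∧ ∀ i ≤ N, ∀ a : ℝ, |a| < A →
          h (psib η N i + η ^ 2 * a) =
            (qpt η N i * exp (-((psib η N i + η ^ 2 * a : ℝ) * I))).re +
              rr N i * (1 - Real.cos (η ^ 2 * a)) + η ^ 4 * v i a

def StT : Prop := ∀ (Φ Φi : ℂ → ℂ) (_ : ContDiff ℝ ∞ Φ) (_ : ContDiff ℝ ∞ Φi)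
    (_ : Function.LeftInverse Φi Φ) (_ : Function.RightInverse Φi Φ)
    (_ : ∀ z, (fderiv ℝ Φ z).det = 1) (R e : ℝ) (_ : 0 < e),
    ∃ fs : List (ℝ → ℝ), (∀ f ∈ fs, ContDiff ℝ ∞ f ∧ ∀ x, |deriv f x| ≤ 1 / 2) ∧
      ∀ z : ℂ, ‖z‖ ≤ R → ‖hen fs z - Φ z‖ ≤ e ∧ ‖fderiv ℝ (hen fs) z - fderiv ℝ Φ z‖ ≤ e ∧
        ‖fderiv ℝ (fderiv ℝ (hen fs)) z - fderiv ℝ (fderiv ℝ Φ) z‖ ≤ e

lemma realize (hS : StS) (hH : StH) {v : ℕ → ℝ → ℝ} (hv : ∀ i, ContDiff ℝ ∞ (v i))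
    (hv2 : ∀ i a, 0 ≤ deriv (deriv (v i)) a) (G : ℕ → ℝ × ℂ → ℂ) (n : ℕ) (A A' : ℝ) (hA : A < A')
    (hG : ∀ᶠ η in 𝓝[>] (0 : ℝ), ∀ z : ℂ, ‖z‖ ≤ A → ∀ i < n,
      IncS (1 / 2) 1 (v i) (η, G i (η, ln v G i (η, z))) = ln v G i (η, z) ∧
        ‖G i (η, ln v G i (η, z))‖ < A') :
    ∀ᶠ η in 𝓝[>] (0 : ℝ), Realizes (η ^ 2) (fun z => FlS tt (η, ln v G n (η, z))) A := by
  let V0 : ℕ → ℝ → ℝ := fun i => if i = 0 ∨ i = n + 1 then q0 else v (i - 1)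
  have hV0 : ∀ i, ContDiff ℝ ∞ (V0 i) := fun i => by
    simp only [V0]; split_ifs; exacts [cd_q0, hv _]
  obtain ⟨C, -, hC⟩ := bound_fin (isCompact_Icc (a := -(|A'| + 1)) (b := |A'| + 1))
    (g := fun i a => |V0 i a| + |deriv (V0 i) a|)
    (fun i => (hV0 i).continuous.abs.add (cd_deriv (hV0 i)).continuous.abs) (n + 2)
  have hsm : ∀ᶠ η in 𝓝[>] (0 : ℝ), η / 2 + η ^ 2 * A' < Real.pi / 2 := by
    have h1 : Continuous fun η : ℝ => η / 2 + η ^ 2 * A' := by fun_prop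
    refine nhdsWithin_le_nhds (h1.continuousAt.eventually (gt_mem_nhds ?_))
    simpa using Real.pi_pos
  filter_upwards [hG, hH (n + 1) n.succ_pos A' (C + 1), hsm, self_mem_nhdsWithin]
    with η hG hH hsm hη
  have hη : 0 < η := hη
  intro u hu hu1
  let V : ℕ → ℝ → ℝ := fun i => if i = n + 1 then q0 + u else V0 i
  have hud : Differentiable ℝ u := hu.differentiable (by simp)
  have hq : Differentiable ℝ q0 := cd_q0.differentiable (by simp)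
  have hdN : deriv (q0 + u) = deriv q0 + deriv u := funext fun a => deriv_add (hq a) (hud a)
  have hV : ∀ i, ContDiff ℝ ∞ (V i) := fun i => by
    simp only [V]; split_ifs; exacts [cd_q0.add hu, hV0 _]
  obtain ⟨h, hh, hper, hconv, hwin⟩ := hH V hV (fun i a => by
      simp only [V, V0]
      split_ifs
      · rw [hdN, deriv_add ((cd_deriv cd_q0).differentiable (by simp) a)
          ((cd_deriv hu).differentiable (by simp) a), q0_deriv2]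
        have := abs_le.1 (hu1 a).2.2
        linarith
      · rw [q0_deriv2]; norm_num
      · exact hv2 _ _)
    (fun i hi => by
      have k1 := hC i (by omega) 0 ⟨by linarith [abs_nonneg A'], by linarith [abs_nonneg A']⟩
      have k2 : ∀ a, |a| ≤ A' + 1 → |V0 i a| + |deriv (V0 i) a| ≤ C := fun a ha =>
        hC i (by omega) a (abs_le.1 (ha.trans (by linarith [le_abs_self A'])))
      simp only [V]
      split_ifs with hi'
      · have e0 : V0 i = q0 := by simp only [V0, hi', or_true, if_true]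
        rw [e0] at k1 k2
        refine ⟨?_, fun a ha => ?_⟩
        · have := abs_add_le (q0 0) (u 0)
          have := (hu1 0).1
          have := abs_nonneg (deriv q0 0)
          rw [Pi.add_apply]
          linarith
        · have := abs_add_le (deriv q0 a) (deriv u a)
          have := (hu1 a).2.1
          have := abs_nonneg (q0 a)
          have := k2 a ha
          rw [hdN, Pi.add_apply]
          linarith
      · refine ⟨?_, fun a ha => ?_⟩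
        · have := abs_nonneg (deriv (V0 i) 0)
          linarith
        · have := abs_nonneg (V0 i a)
          have := k2 a ha
          linarith)
  obtain ⟨Y, γ, L, φ, X, x, hT, hB, hP, hM, hN, hx, hx', hX⟩ := hS h hh hper hconv
  have hbd : ∀ z : ℂ, ‖z‖ ≤ A → |η ^ 2 * z.re| < Real.pi / 2 - η / 2 ∧
      |η ^ 2 * z.im| < Real.pi / 2 - η / 2 := by
    intro z hz
    have h1 : η ^ 2 * |z.re| ≤ η ^ 2 * A' :=
      mul_le_mul_of_nonneg_left ((abs_re_le_norm z).trans (hz.trans hA.le)) (by positivity)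
    have h2 : η ^ 2 * |z.im| ≤ η ^ 2 * A' :=
      mul_le_mul_of_nonneg_left ((abs_im_le_norm z).trans (hz.trans hA.le)) (by positivity)
    rw [abs_mul, abs_mul, abs_of_nonneg (sq_nonneg η)]
    constructor <;> linarith
  have hin : ∀ z : ℂ, ‖z‖ ≤ A → η / 2 + η ^ 2 * z.re ∈ Ioo (-Real.pi) Real.pi := by
    intro z hz
    have := abs_lt.1 (hbd z hz).1
    have := Real.pi_pos
    constructor <;> linarith
  let W : ℕ → ℝ → ℝ := fun i => Wf (rr (n + 1) i) (V i) η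
  have hWd : ∀ i, Differentiable ℝ (W i) := fun i a =>
    (Wf_deriv _ (hV i) hη.ne' a).differentiableAt
  have hwin' : ∀ i ≤ n + 1, Win h (qpt η (n + 1) i) (psib η (n + 1) i) (η ^ 2) (W i) A' := by
    intro i hi a ha
    rw [hwin i hi a ha, Rq_eq]
    simp only [W, Wf]
    field_simp
    ring
  have hWN : W (n + 1) = w0 (η ^ 2) + u := by
    funext a
    simp only [W, Wf, V, rr, or_true, if_true, Pi.add_apply, w0, q0]
    ring
  have key : ∀ z s : ℂ, ‖z‖ ≤ A → ‖s‖ ≤ A →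
      Inc (η ^ 2) (Real.pi / 2) (w0 (η ^ 2) + u) s = FlS tt (η, ln v G n (η, z)) →
      ∃ σ : ℕ → ℝ × ℝ, σ 0 = (η / 2 + η ^ 2 * z.re, Real.pi / 2 + η ^ 2 * z.im) ∧
        σ (n + 1) = (psib η (n + 1) (n + 1) + η ^ 2 * s.re, Real.pi / 2 + η ^ 2 * s.im) ∧
        ∀ i < n + 1, Next h (σ i) (σ (i + 1)) := by
    intro z s hz hs hinc
    let S : ℕ → ℂ := fun i => if i = 0 then z else if i = n + 1 then s else
      G (i - 1) (η, ln v G (i - 1) (η, z))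
    have hS0 : S 0 = z := by simp [S]
    have hSN : S (n + 1) = s := by simp [S]
    have hSi : ∀ i, i + 1 < n + 1 → S (i + 1) = G i (η, ln v G i (η, z)) := by
      intro i hi
      simp only [S]
      rw [if_neg (by omega), if_neg (by omega), Nat.add_sub_cancel]
    refine ⟨fun i => st η (n + 1) i (S i), ?_, ?_, ?_⟩
    · simp [st, psib, dl, hS0]
    · simp [st, dl, hSN]
    refine orbit (hh.differentiable (by simp)) hη hWd hwin' hsm.le (L := fun i => ln v G i (η, z))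
      ?_ ?_ ?_ ?_
    · intro i hi
      rcases i with _ | i
      · rw [hS0]; exact hz.trans_lt hA
      · by_cases hi' : i + 1 = n + 1
        · rw [hi', hSN]; exact hs.trans_lt hA
        · rw [hSi i (by omega)]
          exact (hG z hz i (by omega)).2
    · have e1 : W 0 = Wf (1 / 2) q0 η := by simp [W, rr, V, V0]
      rw [hS0, e1]
      simp only [ln]
      rw [FlS_eq _ hη.ne', OutS_eq _ _ cd_q0 hη.ne', zero_mul, add_zero]
      rfl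
    · intro i hi
      have e1 : W (i + 1) = Wf 1 (v i) η := by
        have h1 : ¬ (i + 1 = 0 ∨ i + 1 = n + 1) := by omega
        have h2 : ¬ (i + 1 = n + 1) := by omega
        simp only [W, rr, V, V0, if_neg h1, if_neg h2, Nat.add_sub_cancel]
      have e2 : (Real.pi + η) / 2 = Real.pi / 2 + 1 / 2 * η := by ring
      rw [e1, e2, hSi i hi, ← IncS_eq _ _ (hv i) hη.ne', ← OutS_eq _ _ (hv i) hη.ne']
      refine ⟨?_, (hG z hz i (by omega)).1⟩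
      simp only [ln]
      rw [FlS_eq _ hη.ne']
      rfl
    · intro i hi
      obtain rfl : i = n := by omega
      rw [hWN, hSN, hinc, FlS_eq _ hη.ne']
      rfl
  refine ⟨Y, γ, L, φ, x, (n + 1) + (n + 1), η / 2, hT, hB, hP, hM, by omega, hx, hx',
    fun z hz => ⟨(hX (_, 0) (hin z hz)).2, ?_⟩, fun z z0 s hz hz0 hs h1 h2 => ?_⟩
  · have := abs_lt.1 (hbd z hz).2
    constructor <;> linarith
  · obtain ⟨σ, a0, aN, a⟩ := key z s hz hs h1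
    obtain ⟨σ', b0, bN, b⟩ := key z0 (conj s) hz0 (by simpa using hs) h2
    have := iter (φ := φ) (X := fun i => X (σ i))
      (Y := fun i => X ((σ' i).1, Real.pi - (σ' i).2)) (N := n + 1)
      (fun i hi => (hN _ _ (a i hi)).1) (fun i hi => (hN _ _ (b i hi)).2) (by
        simp only [aN, bN, conj_re, conj_im]
        congr 2
        ring)
    simp only [a0, b0] at this
    rw [(hX _ (hin z hz)).1, (hX _ (hin z0 hz0)).1] at this
    rw [this]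
    congr 1
    ring

end

end BC

end Pool.Agent.Lib.MP_0281e9_an
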