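import Pool.Agent.Lib.MP_0281e9_an.ChainC

namespace Pool.Agent.Lib.MP_0281e9_an

open Set Filter Complex MeasureTheory Topology
open scoped ContDiff ComplexConjugate

namespace BC

lemma fixed (hS : StS) (hH : StH) {F : ℕ → ℝ → ℝ} (hF : ∀ i, ContDiff ℝ ∞ (F i))
    (hF' : ∀ i x, |deriv (F i) x| ≤ 1 / 2) (n : ℕ) (A : ℝ) :
    ∃ Θ : ℝ × ℂ → ℂ, (∀ z, ‖z‖ ≤ A + 1 → Sm Θ (0, z) ∧ Θ (0, z) = Ci (Hn F n z)) ∧
      ∀ᶠ η in 𝓝[>] (0 : ℝ), Realizes (η ^ 2) (fun z => Θ (η, z)) A := by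
  choose v hv hv2 hv3 hv4 using fun i => exists_v (F i) (hF i) (hF' i)
  obtain ⟨B, hB0, hB⟩ := bound_fin (isCompact_closedBall (0 : ℂ) (A + 1))
    (g := fun i z => ‖Hf (F i) (Ci (Hn F i z))‖)
    (fun i => ((cd_Hf (hF i)).continuous.comp
      (Ci.continuous.comp (cd_Hn hF i).continuous)).norm) n
  have hHI : ∀ i z, Hf (F i) (IncS (1 / 2) 1 (v i) (0, z)) = z := by
    intro i z
    have h1 := hv4 i z.re
    have e : -(-(deriv (v i) z.re + 1 * z.re)) / 2 = (deriv (v i) z.re + z.re) / 2 := by ring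
    apply Complex.ext
    · simp only [IncS_zero, Hf, cplx_re, cplx_im, e, h1]
    · simp only [IncS_zero, Hf, cplx_re, cplx_im, e, h1]
      ring
  have hIH : ∀ i y, IncS (1 / 2) 1 (v i) (0, Hf (F i) y) = y := by
    intro i y
    have h1 := hv3 i (-y.im / 2)
    apply Complex.ext
    · simp only [IncS_zero, Hf, cplx_re, cplx_im]
      ring
    · simp only [IncS_zero, Hf, cplx_re, cplx_im]
      linarith
  choose G hG using fun i => exists_inv (IncS (1 / 2) 1 (v i)) (cd_IncS _ _ (hv i)) (Hf (F i))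
    ((cd_Hf (hF i)).differentiable (by simp)) (hHI i) (hIH i) B
  have hfst : ∀ p : ℝ × ℂ, Sm (fun q : ℝ × ℂ => q.1) p := fun p => Sm.of contDiff_fst p
  have hln : ∀ i ≤ n, ∀ z, ‖z‖ ≤ A + 1 → Sm (ln v G i) (0, z) ∧ ln v G i (0, z) = Ci (Hn F i z) := by
    intro i
    induction i with
    | zero =>
      intro _ z _
      refine ⟨Sm.of ((cd_FlS (cd_ll.add cd_tt)).comp (contDiff_fst.prodMk (cd_OutS _ _ cd_q0))) _, ?_⟩
      apply Complex.ext
      · simp only [ln, FlS_zero, OutS_zero, cplx_re, cplx_im, Ci, mat_re, Hn, id]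
        ring
      · simp only [ln, FlS_zero, OutS_zero, cplx_re, cplx_im, Ci, mat_im, Hn, id, q0_deriv, ll, tt]
        simp only [zero_div, Real.cos_zero]
        ring
    | succ i ih =>
      intro hi z hz
      obtain ⟨h1, h2⟩ := ih (by omega) z hz
      obtain ⟨h3, h4, -⟩ := hG i _ (hB i (by omega) z (by simpa using hz))
      rw [← h2] at h3
      refine ⟨?_, ?_⟩
      · have h5 : Sm (fun p => G i (p.1, ln v G i p)) (0, z) :=
          Sm.comp (g := G i) (f := fun p => (p.1, ln v G i p)) h3 ((hfst _).prodMk h1)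
        have h6 : Sm (fun p => OutS (1 / 2) 1 (v i) (p.1, G i (p.1, ln v G i p))) (0, z) :=
          Sm.comp (Sm.of (cd_OutS _ _ (hv i)) _) ((hfst _).prodMk h5)
        exact Sm.comp (g := FlS ll) (f := fun p => (p.1, OutS (1 / 2) 1 (v i)
          (p.1, G i (p.1, ln v G i p)))) (Sm.of (cd_FlS cd_ll) _) ((hfst _).prodMk h6)
      · simp only [ln, h2, h4, Hn, Function.comp]
        rw [← Cm_Ci (Hn F i z), Ci_Cm]
        generalize Ci (Hn F i z) = y
        have k1 := hv3 i (-y.im / 2)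
        have e : (0 : ℝ) * y.re + -1 / 2 * y.im = -y.im / 2 := by ring
        apply Complex.ext
        · simp only [FlS_zero, OutS_zero, Hf, henon, cplx_re, cplx_im, Ci, Cm, mat_re, mat_im, e]
          ring
        · simp only [FlS_zero, OutS_zero, Hf, henon, cplx_re, cplx_im, Ci, Cm, mat_re, mat_im, e,
            ll, zero_div, Real.cos_zero]
          linarith
  refine ⟨fun p => FlS tt (p.1, ln v G n p), fun z hz => ?_, ?_⟩
  · obtain ⟨h1, h2⟩ := hln n le_rfl z hz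
    refine ⟨Sm.comp (Sm.of (cd_FlS cd_tt) _) ((hfst _).prodMk h1), ?_⟩
    simp only [FlS_zero, h2, tt]
    apply Complex.ext <;> simp
  refine realize hS hH hv hv2 G n A (|A| + B + 1) (by linarith [le_abs_self A]) ?_
  refine nhdsWithin_le_nhds ?_
  have := ev_compact' (l := 𝓝 (0 : ℝ)) (isCompact_closedBall (0 : ℂ) A)
    (P := fun η z => ∀ i < n,
      IncS (1 / 2) 1 (v i) (η, G i (η, ln v G i (η, z))) = ln v G i (η, z) ∧
        ‖G i (η, ln v G i (η, z))‖ < |A| + B + 1) ?_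
  · exact this.mono fun η h z hz => h z (by simpa using hz)
  intro z hz
  have hz' : ‖z‖ ≤ A + 1 := by
    have : ‖z‖ ≤ A := by simpa using hz
    linarith
  rw [← nhds_prod_eq]
  refine (eventually_all_finite (finite_lt_nat n)).2 fun i hi => ?_
  have hi' : i < n := hi
  obtain ⟨h1, h2⟩ := hln i hi'.le z hz'
  have hb := hB i hi' z (by simpa using hz')
  obtain ⟨h3, h4, h5⟩ := hG i _ hb
  rw [← h2] at h3 h4 h5
  have h6 : ContinuousAt (fun p : ℝ × ℂ => (p.1, ln v G i p)) (0, z) := ((hfst _).prodMk h1).cont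
  have h7 : ContinuousAt (fun p : ℝ × ℂ => ‖G i (p.1, ln v G i p)‖) (0, z) :=
    (Sm.comp (g := G i) (f := fun p => (p.1, ln v G i p)) h3 ((hfst _).prodMk h1)).cont.norm
  have h8 : ‖G i (0, ln v G i (0, z))‖ < |A| + B + 1 := by
    rw [h4, h2]
    have := abs_nonneg A
    linarith
  filter_upwards [h6.eventually h5, h7.eventually (gt_mem_nhds h8)] with p k1 k2
  exact ⟨k1, k2⟩

theorem chain_of (hT : StT) (hS : StS) (hH : StH) (Φ Φi : ℂ → ℂ) (hΦ : ContDiff ℝ ∞ Φ)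
    (hΦi : ContDiff ℝ ∞ Φi) (hl : Function.LeftInverse Φi Φ) (hr : Function.RightInverse Φi Φ)
    (hdet : ∀ z, (fderiv ℝ Φ z).det = 1) (A : ℝ) :
    ∃ (ε : ℕ → ℝ) (Θ : ℕ → ℂ → ℂ), (∀ n, 0 < ε n) ∧ Tendsto ε atTop (𝓝 0) ∧
      (∀ z : ℂ, ‖z‖ ≤ A → CV 2 atTop Θ (fun y => In0 (Φ y)) z) ∧
      ∀ n, Realizes (ε n) (Θ n) A := by
  have hJΦ : ContDiff ℝ ∞ fun y => Jm (Φ y) := Jm.contDiff.comp hΦ
  have step : ∀ e : ℝ, 0 < e → ∃ (η : ℝ) (Θ : ℂ → ℂ), 0 < η ∧ η < e ∧ Realizes (η ^ 2) Θ A ∧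
      ∀ y ∈ Metric.closedBall (0 : ℂ) (A + 1 / 2), ContDiffAt ℝ ∞ (fun z => Cm (Θ z)) y ∧
        Cl (e + e) (fun z => Cm (Θ z)) (fun y => Jm (Φ y)) y := by
    intro e he
    obtain ⟨fs, hfs, hcl⟩ := hT (fun y => Jm (Φ y)) (fun y => Φi (Ji y)) hJΦ
      (hΦi.comp Ji.contDiff)
      (fun y => by
        have : Ji (Jm (Φ y)) = Φ y := by
          apply Complex.ext <;> simp only [Ji, Jm, mat_re, mat_im] <;> ring
        simp only [this, hl y])
      (fun y => by
        simp only [hr (Ji y)]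
        apply Complex.ext <;> simp only [Ji, Jm, mat_re, mat_im] <;> ring)
      (fun z => by
        have : fderiv ℝ (fun y => Jm (Φ y)) z = Jm.comp (fderiv ℝ Φ z) :=
          (Jm.hasFDerivAt.comp z (hΦ.differentiable (by simp) z).hasFDerivAt).fderiv
        have h1 := hdet z
        have h2 := Jm_det
        rw [ContinuousLinearMap.det] at h1 h2
        rw [this, ContinuousLinearMap.det]
        show LinearMap.det ((Jm : ℂ →ₗ[ℝ] ℂ).comp (fderiv ℝ Φ z : ℂ →ₗ[ℝ] ℂ)) = 1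
        rw [LinearMap.det_comp, h1, h2, one_mul]) (A + 1) e he
    have hF : ∀ i, ContDiff ℝ ∞ (fs.getD i 0) ∧ ∀ x, |deriv (fs.getD i 0) x| ≤ 1 / 2 := by
      intro i
      by_cases hi : i < fs.length
      · rw [List.getD_eq_getElem _ _ hi]
        exact hfs _ (List.getElem_mem hi)
      · rw [List.getD_eq_default _ _ (not_lt.1 hi)]
        exact ⟨contDiff_const, fun x => by simp⟩
    obtain ⟨Θ, h1, h2⟩ := fixed hS hH (fun i => (hF i).1) (fun i => (hF i).2) fs.length A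
    rw [← hen_eq] at h1
    have h3 := unif (l := 𝓝[>] (0 : ℝ)) (f := fun η z => Cm (Θ (η, z))) (g := hen fs)
      (isCompact_closedBall (0 : ℂ) (A + 1 / 2)) (fun x hx => by
        have hx' : ‖x‖ < A + 1 := by
          have : ‖x‖ ≤ A + 1 / 2 := by simpa using hx
          linarith
        refine (((h1 x hx'.le).1.cv 2 nhdsWithin_le_nhds).clm Cm).congr
          (Eventually.of_forall fun _ => rfl) ?_
        filter_upwards [continuous_norm.continuousAt.eventually (gt_mem_nhds hx')] with y hy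
        rw [(h1 y hy.le).2, Cm_Ci]) he
    have h4 : ∀ᶠ η in 𝓝[>] (0 : ℝ), η < e := nhdsWithin_le_nhds (gt_mem_nhds he)
    have h5 : ∀ᶠ η in 𝓝[>] (0 : ℝ), 0 < η := self_mem_nhdsWithin
    obtain ⟨η, k1, k2, k3, k4⟩ := (h2.and (h3.and (h4.and h5))).exists
    refine ⟨η, fun z => Θ (η, z), k4, k3, k1, fun y hy => ⟨(k2 y hy).1, (k2 y hy).2.trans ?_⟩⟩
    have : ‖y‖ ≤ A + 1 / 2 := by simpa using hy
    exact hcl y (by linarith)
  choose η Θ h1 h2 h3 h4 using fun n : ℕ => step (1 / ((n : ℝ) + 1)) Nat.one_div_pos_of_nat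
  have he : Tendsto (fun n : ℕ => 1 / ((n : ℝ) + 1)) atTop (𝓝 0) :=
    tendsto_one_div_add_atTop_nhds_zero_nat
  have hη : Tendsto η atTop (𝓝 0) :=
    squeeze_zero (fun n => (h1 n).le) (fun n => (h2 n).le) he
  refine ⟨fun n => η n ^ 2, Θ, fun n => pow_pos (h1 n) 2, by simpa using hη.pow 2,
    fun z hz => ?_, h3⟩
  have hV : Metric.closedBall (0 : ℂ) (A + 1 / 2) ∈ 𝓝 z :=
    mem_of_superset (Metric.isOpen_ball.mem_nhds (by simpa using hz.trans_lt (by linarith)))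
      Metric.ball_subset_closedBall
  have h5 := of_unif hV (by simpa using he.add he) hJΦ h4
  exact (h5.clm Ci).congr (Eventually.of_forall fun p => Ci_Cm _)
    (Eventually.of_forall fun y => Ci_Jm _)

end BC

end Pool.Agent.Lib.MP_0281e9_an
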