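import Pool.Agent.Lib.MP_0281e9_an.Conv

namespace Pool.Agent.Lib.MP_0281e9_an

open Set Filter Topology Metric
open scoped ContDiff NNReal

variable {ι : Type} {E F : Type} [NormedAddCommGroup E] [NormedSpace ℝ E]
  [NormedAddCommGroup F] [NormedSpace ℝ F] {l : Filter ι} {k : ℕ}

lemma isInv_of_inj [FiniteDimensional ℝ E] [FiniteDimensional ℝ F]
    (hd : Module.finrank ℝ E = Module.finrank ℝ F) {L : E →L[ℝ] F} (h : Function.Injective L) :
    L.IsInvertible := by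
  have hs : Function.Surjective (L : E →ₗ[ℝ] F) :=
    (LinearMap.injective_iff_surjective_of_finrank_eq_finrank hd).1 h
  exact ⟨(LinearEquiv.ofBijective (L : E →ₗ[ℝ] F) ⟨h, hs⟩).toContinuousLinearEquiv, by ext; simp⟩

lemma isInv_self [FiniteDimensional ℝ E] {L : E →L[ℝ] E} (h : Function.Injective L) :
    L.IsInvertible := isInv_of_inj rfl h

lemma ev_isInv [CompleteSpace E] {L : E →L[ℝ] F} (h : L.IsInvertible) :
    ∀ᶠ M in 𝓝 L, ContinuousLinearMap.IsInvertible M :=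
  (ContinuousLinearEquiv.isOpen (𝕜 := ℝ) (E := E) (F := F)).mem_nhds h

/-- the derivative of a map with a differentiable local left inverse is injective -/
lemma inj_of_linv {f : E → F} {h : F → E} {x : E} (hf : DifferentiableAt ℝ f x)
    (hh : DifferentiableAt ℝ h (f x)) (hl : ∀ᶠ z in 𝓝 x, h (f z) = z) :
    Function.Injective (fderiv ℝ f x) := by
  have h1 : fderiv ℝ (h ∘ f) x = fderiv ℝ id x := Filter.EventuallyEq.fderiv_eq hl
  rw [fderiv_comp x hh hf, fderiv_id] at h1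
  intro u v huv
  have hu := congrArg (fun L => L u) h1
  have hv := congrArg (fun L => L v) h1
  simp only [ContinuousLinearMap.comp_apply, ContinuousLinearMap.id_apply] at hu hv
  rw [← hu, ← hv, huv]

lemma linv_smooth [CompleteSpace E] {f : E → F} {h : F → E} {z : E} (hf : ContDiffAt ℝ ∞ f z)
    (hD : (fderiv ℝ f z).IsInvertible) (hl : ∀ᶠ z' in 𝓝 z, h (f z') = z') :
    ContDiffAt ℝ ∞ h (f z) ∧ fderiv ℝ h (f z) = (fderiv ℝ f z).inverse := by
  obtain ⟨A, hA⟩ := hD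
  have hf' : HasFDerivAt f (A : E →L[ℝ] F) z := hA ▸ (cd_diff hf).hasFDerivAt
  have hn : (∞ : WithTop ℕ∞) ≠ 0 := by simp
  have hs := hf.hasStrictFDerivAt' hf' hn
  have he : h =ᶠ[𝓝 (f z)] hf.localInverse hf' hn := hs.localInverse_unique hl
  refine ⟨(hf.to_localInverse hf' hn).congr_of_eventuallyEq he, ?_⟩
  rw [← hA, ContinuousLinearMap.inverse_equiv]
  exact (hs.to_local_left_inverse hl).hasFDerivAt.fderiv

/-- a smooth map with invertible derivative sends neighbourhoods to neighbourhoods -/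
lemma map_nhds_of_inv [CompleteSpace E] {f : E → F} {z : E} (hf : ContDiffAt ℝ ∞ f z)
    (hD : (fderiv ℝ f z).IsInvertible) : map f (𝓝 z) = 𝓝 (f z) := by
  obtain ⟨A, hA⟩ := hD
  have hf' : HasFDerivAt f (A : E →L[ℝ] F) z := hA ▸ (cd_diff hf).hasFDerivAt
  exact (hf.hasStrictFDerivAt' hf' (by simp)).map_nhds_eq_of_equiv

namespace CV

variable {f : ι → E → F} {g : E → F} {x : E}

lemma close (h : CV k l f g x) {e : ℝ} (he : 0 < e) :
    ∀ᶠ p : ι × E in l ×ˢ 𝓝 x, ‖f p.1 p.2 - g p.2‖ ≤ e := by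
  have h1 := h.tendsto.sub (h.smg0.continuousAt.tendsto.comp tendsto_snd)
  rw [sub_self] at h1
  exact (h1.norm.eventually (ge_mem_nhds (by simpa using he))).mono fun p hp => hp

lemma close0 (h : CV k l f g x) {e : ℝ} (he : 0 < e) :
    ∀ᶠ p : ι × E in l ×ˢ 𝓝 x, ‖f p.1 p.2 - g x‖ ≤ e := by
  have h1 := h.tendsto.sub_const (g x)
  rw [sub_self] at h1
  exact (h1.norm.eventually (ge_mem_nhds (by simpa using he))).mono fun p hp => hp

lemma of_close (sm : ∀ᶠ p : ι × E in l ×ˢ 𝓝 x, ContDiffAt ℝ ∞ (f p.1) p.2)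
    (smg : ∀ᶠ y in 𝓝 x, ContDiffAt ℝ ∞ g y)
    (h : ∀ e : ℝ, 0 < e → ∀ᶠ p : ι × E in l ×ˢ 𝓝 x, ‖f p.1 p.2 - g p.2‖ ≤ e) : CV 0 l f g x := by
  refine zero sm smg ?_
  have h1 : Tendsto (fun p : ι × E => f p.1 p.2 - g p.2) (l ×ˢ 𝓝 x) (𝓝 0) := by
    rw [NormedAddGroup.tendsto_nhds_zero]
    intro e he
    exact (h (e / 2) (half_pos he)).mono fun p hp => hp.trans_lt (half_lt_self he)
  have h2 := h1.add (smg.self_of_nhds.continuousAt.tendsto.comp tendsto_snd)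
  simpa using h2

/-- uniform closeness of order two on a neighbourhood of a compact set -/
lemma unif {K : Set E} (hK : IsCompact K) (h : ∀ x ∈ K, CV 2 l f g x) {e : ℝ} (he : 0 < e) :
    ∃ V ∈ 𝓝ˢ K, ∀ᶠ i in l, ∀ y ∈ V, ContDiffAt ℝ ∞ (f i) y ∧ ‖f i y - g y‖ ≤ e ∧
      ‖_root_.fderiv ℝ (f i) y - _root_.fderiv ℝ g y‖ ≤ e ∧
      ‖_root_.fderiv ℝ (_root_.fderiv ℝ (f i)) y - _root_.fderiv ℝ (_root_.fderiv ℝ g) y‖ ≤ e :=
  ev_compact hK fun x hx => (h x hx).sm.and <| ((h x hx).close he).and <|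
    ((h x hx).fderiv.close he).and ((h x hx).fderiv.fderiv.close he)

lemma of_unif (sm : ∀ᶠ p : ι × E in l ×ˢ 𝓝 x, ContDiffAt ℝ ∞ (f p.1) p.2)
    (smg : ∀ᶠ y in 𝓝 x, ContDiffAt ℝ ∞ g y)
    (h : ∀ e : ℝ, 0 < e → ∀ᶠ p : ι × E in l ×ˢ 𝓝 x, ‖f p.1 p.2 - g p.2‖ ≤ e ∧
      ‖_root_.fderiv ℝ (f p.1) p.2 - _root_.fderiv ℝ g p.2‖ ≤ e ∧
      ‖_root_.fderiv ℝ (_root_.fderiv ℝ (f p.1)) p.2 -
        _root_.fderiv ℝ (_root_.fderiv ℝ g) p.2‖ ≤ e) : CV 2 l f g x := by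
  have s1 := sm.mono fun _ hp => cd_fderiv hp
  have g1 := smg.mono fun _ hp => cd_fderiv hp
  refine (of_close sm smg fun e he => (h e he).mono fun _ hp => hp.1).succ ?_
  refine (of_close (f := fun i => _root_.fderiv ℝ (f i)) s1 g1
    fun e he => (h e he).mono fun _ hp => hp.2.1).succ ?_
  exact of_close (f := fun i => _root_.fderiv ℝ (_root_.fderiv ℝ (f i)))
    (s1.mono fun _ hp => cd_fderiv hp) (g1.mono fun _ hp => cd_fderiv hp)
    fun e he => (h e he).mono fun _ hp => hp.2.2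

lemma approx (h : CV (k + 1) l f g x) {c : ℝ≥0} (hc : 0 < c) :
    ∃ r : ℝ, 0 < r ∧ ∀ᶠ i in l,
      ApproximatesLinearOn (f i) (_root_.fderiv ℝ g x) (closedBall x r) c := by
  obtain ⟨pa, ha, pb, hb, H⟩ := eventually_prod_iff.1 (h.sm.and (h.fderiv.close0 (e := c) hc))
  obtain ⟨r, hr, hsub⟩ := Metric.nhds_basis_closedBall.mem_iff.1 hb
  refine ⟨r, hr, ha.mono fun i hi y hy z hz => ?_⟩
  exact (convex_closedBall x r).norm_image_sub_le_of_norm_fderiv_le'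
    (fun w hw => cd_diff (H hi (hsub hw)).1) (fun w hw => (H hi (hsub hw)).2) hz hy

lemma loc_inj (h : CV (k + 1) l f g x) (hD : (_root_.fderiv ℝ g x).IsInvertible) :
    ∃ V ∈ 𝓝 x, ∀ᶠ i in l, InjOn (f i) V := by
  obtain ⟨A, hA⟩ := hD
  rcases subsingleton_or_nontrivial E with hE | hE
  · exact ⟨univ, univ_mem, Eventually.of_forall fun i a _ b _ _ => Subsingleton.elim a b⟩
  have hN : 0 < ‖(A.symm : F →L[ℝ] E)‖₊ := A.nnnorm_symm_pos
  obtain ⟨r, hr, H⟩ := h.approx (c := ‖(A.symm : F →L[ℝ] E)‖₊⁻¹ / 2) (by positivity)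
  refine ⟨closedBall x r, closedBall_mem_nhds x hr, H.mono fun i hi => ?_⟩
  rw [← hA] at hi
  exact hi.injOn (Or.inr (NNReal.half_lt_self (by positivity)))

lemma loc_surj [CompleteSpace E] (h : CV (k + 1) l f g x)
    (hD : (_root_.fderiv ℝ g x).IsInvertible) {P : ι → E → Prop}
    (hP : ∀ᶠ p : ι × E in l ×ˢ 𝓝 x, P p.1 p.2) :
    ∀ᶠ p : ι × F in l ×ˢ 𝓝 (g x), ∃ z, P p.1 z ∧ f p.1 z = p.2 := by
  obtain ⟨A, hA⟩ := hD
  rcases subsingleton_or_nontrivial E with hE | hE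
  · have : Subsingleton F := A.toEquiv.symm.subsingleton
    exact (ev_fst (ev_self hP)).mono fun p hp => ⟨x, hp, Subsingleton.elim _ _⟩
  have hN : 0 < ‖(A.symm : F →L[ℝ] E)‖₊ := A.nnnorm_symm_pos
  set c : ℝ≥0 := ‖(A.symm : F →L[ℝ] E)‖₊⁻¹ / 2 with hc
  have hc0 : 0 < c := by positivity
  obtain ⟨r, hr, H⟩ := h.approx hc0
  obtain ⟨pa, ha, pb, hb, HP⟩ := eventually_prod_iff.1 hP
  obtain ⟨r', hr', hsub⟩ := Metric.nhds_basis_closedBall.mem_iff.1 hb
  set e := min r r' with he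
  have he0 : 0 < e := lt_min hr hr'
  have hce : 0 < (c : ℝ) * e / 2 := by positivity
  have h1 := ev_self (P := fun i y => ‖f i y - g x‖ ≤ c * e / 2) (h.close0 hce)
  filter_upwards [ev_fst (x := g x) (H.and (ha.and h1)),
    ev_snd (l := l) (P := fun y => y ∈ closedBall (g x) (c * e / 2))
      (closedBall_mem_nhds (g x) hce)] with p hp hy
  obtain ⟨hp, hpa, hp1⟩ := hp
  rw [← hA] at hp
  have hs := hp.surjOn_closedBall_of_nonlinearRightInverse A.toNonlinearRightInverse he0.le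
    (closedBall_subset_closedBall (min_le_left r r'))
  have hcc : ((A.toNonlinearRightInverse.nnnorm : ℝ)⁻¹ - c) = c := by
    have : (A.toNonlinearRightInverse.nnnorm : ℝ) = ‖(A.symm : F →L[ℝ] E)‖₊ := rfl
    rw [this, hc]
    push_cast
    ring
  rw [hcc] at hs
  have hy' : p.2 ∈ closedBall (f p.1 x) (c * e) := by
    rw [mem_closedBall, dist_eq_norm] at hy ⊢
    calc ‖p.2 - f p.1 x‖ = ‖(p.2 - g x) - (f p.1 x - g x)‖ := by congr 1; abel
      _ ≤ _ := norm_sub_le _ _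
      _ ≤ _ := by linarith
  obtain ⟨z, hz, hzy⟩ := hs hy'
  exact ⟨z, HP hpa (hsub (closedBall_subset_closedBall (min_le_right r r') hz)), hzy⟩

section linv

variable [CompleteSpace E] {h : ι → F → E} {h0 : F → E}

lemma linv_push (hf : CV (k + 1) l f g x) (hD : (_root_.fderiv ℝ g x).IsInvertible)
    (hl : ∀ᶠ p : ι × E in l ×ˢ 𝓝 x, h p.1 (f p.1 p.2) = p.2) {P : ι → E → Prop}
    (hP : ∀ᶠ p : ι × E in l ×ˢ 𝓝 x, P p.1 p.2) :
    ∀ᶠ p : ι × F in l ×ˢ 𝓝 (g x), P p.1 (h p.1 p.2) ∧ f p.1 (h p.1 p.2) = p.2 := by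
  refine (hf.loc_surj hD (P := fun i z => h i (f i z) = z ∧ P i z) (hl.and hP)).mono ?_
  rintro p ⟨z, ⟨h1, h2⟩, h3⟩
  rw [← h3, h1]
  exact ⟨h2, rfl⟩

lemma linv_right (hf : CV (k + 1) l f g x) (hD : (_root_.fderiv ℝ g x).IsInvertible)
    (hl : ∀ᶠ p : ι × E in l ×ˢ 𝓝 x, h p.1 (f p.1 p.2) = p.2) :
    ∀ᶠ p : ι × F in l ×ˢ 𝓝 (g x), f p.1 (h p.1 p.2) = p.2 :=
  (hf.linv_push hD hl (P := fun _ _ => True) (Eventually.of_forall fun _ => trivial)).mono
    fun _ hp => hp.2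

lemma linv_tendsto (hf : CV (k + 1) l f g x) (hD : (_root_.fderiv ℝ g x).IsInvertible)
    (hl : ∀ᶠ p : ι × E in l ×ˢ 𝓝 x, h p.1 (f p.1 p.2) = p.2) :
    Tendsto (fun p : ι × F => h p.1 p.2) (l ×ˢ 𝓝 (g x)) (𝓝 x) := fun s hs =>
  (hf.linv_push hD hl (P := fun _ z => z ∈ s) (ev_snd hs)).mono fun _ hp => hp.1

lemma linv_sm (hf : CV (k + 1) l f g x) (hD : (_root_.fderiv ℝ g x).IsInvertible)
    (hl : ∀ᶠ p : ι × E in l ×ˢ 𝓝 x, h p.1 (f p.1 p.2) = p.2) :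
    ∀ᶠ p : ι × F in l ×ˢ 𝓝 (g x), ContDiffAt ℝ ∞ (h p.1) p.2 ∧
      _root_.fderiv ℝ (h p.1) p.2 = (_root_.fderiv ℝ (f p.1) (h p.1 p.2)).inverse := by
  have h1 := hf.fderiv.tendsto.eventually (ev_isInv hD)
  have h2 := ev_ev (P := fun i z => h i (f i z) = z) hl
  refine (hf.linv_push hD hl (P := fun i z => ContDiffAt ℝ ∞ (f i) z ∧
    (_root_.fderiv ℝ (f i) z).IsInvertible ∧ ∀ᶠ y in 𝓝 z, h i (f i y) = y)
    (hf.sm.and (h1.and h2))).mono ?_
  rintro p ⟨⟨a1, a2, a3⟩, a4⟩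
  have := linv_smooth a1 a2 a3
  rwa [a4] at this

end linv

end CV

lemma ev_pure {X : Type} {m : Filter X} {P : Unit → X → Prop}
    (h : ∀ᶠ p : Unit × X in pure () ×ˢ m, P p.1 p.2) : ∀ᶠ y in m, P () y := by
  obtain ⟨pa, ha, pb, hb, h⟩ := eventually_prod_iff.1 h
  exact hb.mono fun y hy => h ha hy

/-- right inverse property of a local left inverse -/
lemma rinv_of_linv [CompleteSpace E] {g : E → F} {h0 : F → E} {x : E}
    (hg : ContDiffAt ℝ ∞ g x) (hD : (fderiv ℝ g x).IsInvertible)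
    (hl : ∀ᶠ z in 𝓝 x, h0 (g z) = z) : ∀ᶠ y in 𝓝 (g x), g (h0 y) = y := by
  rw [← map_nhds_of_inv hg hD, eventually_map]
  exact hl.mono fun z hz => by rw [hz]

namespace CV

variable {f : ι → E → F} {g : E → F} {x : E}

/-- convergence of local left inverses -/
theorem linv [CompleteSpace E] {h : ι → F → E} {h0 : F → E} (hf : CV (k + 1) l f g x)
    (hD : (_root_.fderiv ℝ g x).IsInvertible)
    (hl : ∀ᶠ p : ι × E in l ×ˢ 𝓝 x, h p.1 (f p.1 p.2) = p.2)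
    (hl0 : ∀ᶠ z in 𝓝 x, h0 (g z) = z) : CV (k + 1) l h h0 (g x) := by
  have hc : CV (k + 1) (pure ()) (fun _ => g) g x := const hf.smg
  have s0 := ev_pure (P := fun _ y => ContDiffAt ℝ ∞ h0 y ∧
      _root_.fderiv ℝ h0 y = (_root_.fderiv ℝ g (h0 y)).inverse)
    (hc.linv_sm (h := fun _ => h0) hD (ev_snd hl0))
  have s1 := hf.linv_sm hD hl
  have hx : h0 (g x) = x := hl0.self_of_nhds
  have c0 : CV 0 l h h0 (g x) :=
    zero (s1.mono fun _ hp => hp.1) (s0.mono fun _ hp => hp.1)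
      (by rw [hx]; exact hf.linv_tendsto hD hl)
  have key : ∀ j ≤ k + 1, CV j l h h0 (g x) := by
    intro j
    induction j with
    | zero => exact fun _ => c0
    | succ j ih =>
      intro hj
      refine c0.succ ?_
      have a1 := (hf.fderiv.mono (by omega : j ≤ k)).comp' (ih (by omega)) hx
      have a2 := a1.post (g := ContinuousLinearMap.inverse) (by
        simp only [hx]
        exact (ev_isInv hD).mono fun _ hy => hy.contDiffAt_map_inverse)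
      exact a2.congr (s1.mono fun _ hp => hp.2.symm) (s0.mono fun _ hp => hp.2.symm)
  exact key _ le_rfl

/-- injectivity near a compact set -/
theorem inj_nhd {K : Set E} (hK : IsCompact K) (hf : ∀ x ∈ K, CV (k + 1) l f g x)
    (hD : ∀ x ∈ K, (_root_.fderiv ℝ g x).IsInvertible) (hi : InjOn g K) :
    ∃ N, IsOpen N ∧ K ⊆ N ∧ InjOn g N ∧ ∀ᶠ i in l, InjOn (f i) N := by
  have key : ∀ {κ : Type} {m : Filter κ} {f : κ → E → F}, (∀ x ∈ K, CV (k + 1) m f g x) →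
      ∃ N ∈ 𝓝ˢ K, ∀ᶠ i in m, InjOn (f i) N := by
    intro κ m f hf
    obtain ⟨V, hV, H⟩ := ev_compact (l := m) (hK.prod hK)
      (P := fun i q => f i q.1 = f i q.2 → q.1 = q.2) (by
        rintro ⟨x, x'⟩ ⟨hx, hx'⟩
        by_cases hxx : x = x'
        · subst hxx
          obtain ⟨V, hV, H⟩ := (hf x hx).loc_inj (hD x hx)
          filter_upwards [ev_fst (x := (x, x)) H,
            ev_snd (l := m) (P := fun q : E × E => q ∈ V ×ˢ V) (prod_mem_nhds hV hV)] with p h1 h2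
          exact h1 h2.1 h2.2
        · have t1 := (hf x hx).tendsto.comp
            ((tendsto_id (x := m)).prodMap (continuous_fst.tendsto (x, x')))
          have t2 := (hf x' hx').tendsto.comp
            ((tendsto_id (x := m)).prodMap (continuous_snd.tendsto (x, x')))
          have hne : g x ≠ g x' := fun h => hxx (hi hx hx' h)
          exact ((t1.prodMk_nhds t2).eventually (isOpen_ne_fun continuous_fst
            continuous_snd |>.mem_nhds hne)).mono fun p hp h => (hp h).elim)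
    rw [hK.nhdsSet_prod_eq hK, mem_prod_iff] at hV
    obtain ⟨N1, h1, N2, h2, h12⟩ := hV
    exact ⟨N1 ∩ N2, inter_mem h1 h2, H.mono fun i hi a ha b hb =>
      hi (a, b) (h12 ⟨ha.1, hb.2⟩)⟩
  obtain ⟨N1, h1, H1⟩ := key hf
  obtain ⟨N2, h2, H2⟩ := key (m := pure ()) (f := fun _ => g) fun x hx => const (hf x hx).smg
  obtain ⟨N, hN, hKN, hsub⟩ := mem_nhdsSet_iff_exists.1 (inter_mem h1 h2)
  exact ⟨N, hN, hKN, InjOn.mono (hsub.trans inter_subset_right) H2,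
    H1.mono fun i hi => hi.mono (hsub.trans inter_subset_left)⟩

lemma invFunOn_left {N : Set E} (hN : N ∈ 𝓝 x) (hi : ∀ᶠ i in l, InjOn (f i) N) :
    ∀ᶠ p : ι × E in l ×ˢ 𝓝 x, Function.invFunOn (f p.1) N (f p.1 p.2) = p.2 := by
  filter_upwards [ev_fst (x := x) hi, ev_snd (l := l) (P := fun y => y ∈ N) hN] with p h1 h2
  exact h1.leftInvOn_invFunOn h2

theorem invFunOn [CompleteSpace E] {N : Set E} (hf : CV (k + 1) l f g x)
    (hD : (_root_.fderiv ℝ g x).IsInvertible) (hN : N ∈ 𝓝 x) (hi : ∀ᶠ i in l, InjOn (f i) N)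
    {h0 : F → E} (hl0 : ∀ᶠ z in 𝓝 x, h0 (g z) = z) :
    CV (k + 1) l (fun i => Function.invFunOn (f i) N) h0 (g x) :=
  hf.linv hD (invFunOn_left hN hi) hl0

lemma invFunOn_right [CompleteSpace E] {N : Set E} (hf : CV (k + 1) l f g x)
    (hD : (_root_.fderiv ℝ g x).IsInvertible) (hN : N ∈ 𝓝 x) (hi : ∀ᶠ i in l, InjOn (f i) N) :
    ∀ᶠ p : ι × F in l ×ˢ 𝓝 (g x), Function.invFunOn (f p.1) N p.2 ∈ N ∧
      f p.1 (Function.invFunOn (f p.1) N p.2) = p.2 :=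
  hf.linv_push (h := fun i => Function.invFunOn (f i) N) hD (invFunOn_left hN hi)
    (P := fun _ z => z ∈ N) (ev_snd hN)

end CV

end Pool.Agent.Lib.MP_0281e9_an
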