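import Pool.Agent.Lib.MP_0281e9_an.Conv2
import Pool.Agent.Lib.MP_0281e9_an.Base

namespace Pool.Agent.Lib.MP_0281e9_an

open Set Filter Topology Metric
open scoped ContDiff NNReal

variable {ι : Type} {F : Type} [NormedAddCommGroup F] [NormedSpace ℝ F] {l : Filter ι} {k : ℕ}

lemma ev_uIcc {a x : ℝ} {V : Set ℝ} (hV : V ∈ 𝓝ˢ (uIcc a x)) : ∀ᶠ y in 𝓝 x, uIcc a y ⊆ V := by
  obtain ⟨r, hr, hs⟩ := Metric.mem_nhds_iff.1 (mem_nhdsSet_iff_forall.1 hV x right_mem_uIcc)
  filter_upwards [ball_mem_nhds x hr] with y hy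
  refine uIcc_subset_uIcc_union_uIcc (b := x) |>.trans (union_subset ?_ ?_)
  · exact subset_of_mem_nhdsSet hV
  · exact ((convex_ball x r).ordConnected.uIcc_subset (mem_ball_self hr) hy).trans hs

lemma cd_of_deriv {S G : ℝ → F} {x : ℝ} (h : ∀ᶠ y in 𝓝 x, HasDerivAt S (G y) y)
    (hG : ContDiffAt ℝ ∞ G x) : ContDiffAt ℝ ∞ S x := by
  rw [contDiffAt_infty] at hG ⊢
  intro n
  refine ContDiffAt.of_le (n := ((n : WithTop ℕ∞) + 1)) ?_ le_self_add
  refine contDiffAt_succ_iff_hasFDerivAt.2 ⟨fun y => ContinuousLinearMap.smulRightL ℝ ℝ F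
    (1 : ℝ →L[ℝ] ℝ) (G y), ⟨_, h, fun y hy => ?_⟩, ?_⟩
  · exact (HasDerivAt.hasFDerivAt hy).congr_fderiv (by ext; simp)
  · exact (ContinuousLinearMap.contDiff _).contDiffAt.comp x (hG n)

namespace CV

/-- convergence from convergence of the derivatives along a segment and of one value -/
theorem of_deriv_int {f : ι → ℝ → F} {g : ℝ → F} {a x : ℝ}
    (sm : ∀ t ∈ uIcc a x, ∀ᶠ p : ι × ℝ in l ×ˢ 𝓝 t, ContDiffAt ℝ ∞ (f p.1) p.2)
    (smg : ∀ t ∈ uIcc a x, ∀ᶠ y in 𝓝 t, ContDiffAt ℝ ∞ g y)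
    (h1 : ∀ t ∈ uIcc a x, CV k l (fun i => _root_.deriv (f i)) (_root_.deriv g) t)
    (h0 : Tendsto (fun i => f i a) l (𝓝 (g a))) : CV (k + 1) l f g x := by
  refine of_deriv (of_close (sm x right_mem_uIcc) (smg x right_mem_uIcc) fun e he => ?_)
    (h1 x right_mem_uIcc)
  have hL : 0 < |x - a| + 1 := by positivity
  set c := e / 2 / (|x - a| + 1) with hc
  have hc0 : 0 < c := by positivity
  obtain ⟨V, hV, H⟩ := ev_compact (l := l) isCompact_uIcc (P := fun i y =>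
    ContDiffAt ℝ ∞ (f i) y ∧ ContDiffAt ℝ ∞ g y ∧ ‖_root_.deriv (f i) y - _root_.deriv g y‖ ≤ c)
    fun t ht => (sm t ht).and ((ev_snd (smg t ht)).and ((h1 t ht).close hc0))
  have h2 : ∀ᶠ i in l, ‖f i a - g a‖ ≤ e / 2 := by
    have := h0.sub_const (g a)
    rw [sub_self] at this
    exact this.norm.eventually (ge_mem_nhds (by simpa using he))
  filter_upwards [ev_fst (x := x) (H.and h2), ev_snd (l := l) (ev_uIcc hV),
    ev_snd (l := l) (P := fun y => y ∈ ball x 1) (ball_mem_nhds x one_pos)] with p hp hy hy1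
  have key := (convex_uIcc a p.2).norm_image_sub_le_of_norm_deriv_le
    (f := fun y => f p.1 y - g y) (C := c)
    (fun t ht => (cd_diff (hp.1 t (hy ht)).1).sub (cd_diff (hp.1 t (hy ht)).2.1))
    (fun t ht => by
      rw [deriv_fun_sub (cd_diff (hp.1 t (hy ht)).1) (cd_diff (hp.1 t (hy ht)).2.1)]
      exact (hp.1 t (hy ht)).2.2) left_mem_uIcc right_mem_uIcc
  have h3 : ‖p.2 - a‖ ≤ |x - a| + 1 := by
    rw [mem_ball, Real.dist_eq] at hy1
    rw [Real.norm_eq_abs]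
    have := abs_sub_le p.2 x a
    linarith
  have h4 : c * ‖p.2 - a‖ ≤ e / 2 := by
    calc _ ≤ c * (|x - a| + 1) := by gcongr
      _ = e / 2 := by rw [hc]; field_simp
  calc ‖f p.1 p.2 - g p.2‖ ≤ ‖f p.1 p.2 - g p.2 - (f p.1 a - g a)‖ + ‖f p.1 a - g a‖ :=
        norm_le_norm_sub_add _ _
    _ ≤ e := by linarith [hp.2]

end CV

lemma prim_deriv [CompleteSpace F] {G : ℝ → F} {V : Set ℝ} (hV : IsOpen V)
    (hG : ∀ y ∈ V, ContDiffAt ℝ ∞ G y) {a y : ℝ} (hy : uIcc a y ⊆ V) :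
    HasDerivAt (fun u => ∫ t in a..u, G t) (G y) y := by
  have hc : ContinuousOn G V := fun y hy => (hG y hy).continuousAt.continuousWithinAt
  exact intervalIntegral.integral_hasDerivAt_right (hc.mono hy).intervalIntegrable
    (hc.stronglyMeasurableAtFilter hV y (hy right_mem_uIcc))
    (hG y (hy right_mem_uIcc)).continuousAt

lemma prim_ev [CompleteSpace F] {G : ι → ℝ → F} {a x : ℝ}
    (sm : ∀ t ∈ uIcc a x, ∀ᶠ p : ι × ℝ in l ×ˢ 𝓝 t, ContDiffAt ℝ ∞ (G p.1) p.2) :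
    ∀ᶠ p : ι × ℝ in l ×ˢ 𝓝 x, HasDerivAt (fun u => ∫ t in a..u, G p.1 t) (G p.1 p.2) p.2 := by
  obtain ⟨V, hV, H⟩ := ev_compact (l := l) isCompact_uIcc
    (P := fun i y => ContDiffAt ℝ ∞ (G i) y) sm
  obtain ⟨W, hW, h1, h2⟩ := mem_nhdsSet_iff_exists.1 hV
  filter_upwards [ev_fst (x := x) H, ev_snd (l := l) (ev_uIcc (hW.mem_nhdsSet.2 h1))] with p hp hy
  exact prim_deriv hW (fun y hy => hp y (h2 hy)) hy

namespace CV

/-- primitives -/
theorem prim [CompleteSpace F] {G : ι → ℝ → F} {G0 : ℝ → F} {a x : ℝ}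
    (h : ∀ t ∈ uIcc a x, CV k l G G0 t) :
    CV (k + 1) l (fun i u => ∫ t in a..u, G i t) (fun u => ∫ t in a..u, G0 t) x := by
  have sub : ∀ t ∈ uIcc a x, uIcc a t ⊆ uIcc a x := fun t ht => uIcc_subset_uIcc_left ht
  have d1 : ∀ t ∈ uIcc a x, ∀ᶠ p : ι × ℝ in l ×ˢ 𝓝 t,
      HasDerivAt (fun u => ∫ t in a..u, G p.1 t) (G p.1 p.2) p.2 :=
    fun t ht => prim_ev fun s hs => (h s (sub t ht hs)).sm
  have d0 : ∀ t ∈ uIcc a x, ∀ᶠ y in 𝓝 t, HasDerivAt (fun u => ∫ t in a..u, G0 t) (G0 y) y :=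
    fun t ht => ev_pure (P := fun _ y => HasDerivAt (fun u => ∫ t in a..u, G0 t) (G0 y) y)
      (prim_ev (G := fun _ => G0) fun s hs => ev_snd (h s (sub t ht hs)).smg)
  refine of_deriv_int (a := a) (fun t ht => ?_) (fun t ht => ?_) (fun t ht => ?_)
    (by simpa using tendsto_const_nhds)
  · filter_upwards [ev_ev (P := fun i y => HasDerivAt (fun u => ∫ t in a..u, G i t) (G i y) y)
      (d1 t ht), (h t ht).sm] with p h1 h2
    exact cd_of_deriv h1 h2
  · filter_upwards [(d0 t ht).eventually_nhds, (h t ht).smg] with p h1 h2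
    exact cd_of_deriv h1 h2
  · exact (h t ht).congr ((d1 t ht).mono fun p hp => hp.deriv.symm)
      ((d0 t ht).mono fun p hp => hp.deriv.symm)

lemma sinDiv0 {ε : ι → ℝ} (hε : ∀ i, ε i ≠ 0) (hε0 : Tendsto ε l (𝓝 0)) (b : ℝ) :
    CV k l (fun i b => Real.sin (ε i * b) / ε i) (fun b => b) b := by
  refine pred (of_deriv_int (a := 0) (fun t _ => Eventually.of_forall fun p => ?_)
    (fun t _ => Eventually.of_forall fun p => contDiffAt_id) (fun t _ => ?_)
    (by simpa using tendsto_const_nhds))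
  · exact ContDiff.contDiffAt (by fun_prop)
  · have := ((cst (k := k) (x := t) hε0).mul id').cos
    refine this.congr (Eventually.of_forall fun p => ?_) (Eventually.of_forall fun p => by simp)
    have h := (((hasDerivAt_id p.2).const_mul (ε p.1)).sin).div_const (ε p.1)
    refine (HasDerivAt.deriv (h.congr_deriv ?_)).symm
    have := hε p.1
    simp only [id]
    field_simp

variable {E : Type} [NormedAddCommGroup E] [NormedSpace ℝ E]

lemma sinDiv {ε : ι → ℝ} (hε : ∀ i, ε i ≠ 0) (hε0 : Tendsto ε l (𝓝 0)) {f : ι → E → ℝ}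
    {g : E → ℝ} {x : E} (h : CV k l f g x) :
    CV k l (fun i y => Real.sin (ε i * f i y) / ε i) g x := (sinDiv0 hε hε0 (g x)).comp h

end CV

lemma w0_smooth (ε : ℝ) : ContDiff ℝ ∞ (w0 ε) := by
  unfold w0
  fun_prop

lemma w0_hasDerivAt {ε : ℝ} (hε : ε ≠ 0) (a : ℝ) :
    HasDerivAt (w0 ε) (3 / 2 * a + Real.sin (ε * a) / ε / 2) a := by
  have h := (((hasDerivAt_id a).pow 2).const_mul (3 / 4 : ℝ)).add
    (((((hasDerivAt_id a).const_mul ε).cos).const_sub 1).div_const (2 * ε ^ 2))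
  refine HasDerivAt.congr_deriv (f' := _) h ?_
  simp only [id]
  field_simp
  simp
  ring

lemma w0_CV {ε : ι → ℝ} (hε : ∀ i, ε i ≠ 0) (hε0 : Tendsto ε l (𝓝 0)) (a : ℝ) :
    CV k l (fun i => w0 (ε i)) (fun a => a ^ 2) a := by
  refine CV.pred (CV.of_deriv_int (a := 0)
    (fun t _ => Eventually.of_forall fun p => (w0_smooth _).contDiffAt)
    (fun t _ => Eventually.of_forall fun p => by fun_prop) (fun t _ => ?_)
    (by simpa [w0] using tendsto_const_nhds))
  have := (CV.const' (k := k) (l := l) (x := t) (g := fun a : ℝ => 3 / 2 * a) (by fun_prop)).add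
    ((CV.sinDiv0 hε hε0 t).post' (g := fun y : ℝ => y / 2) (by fun_prop))
  refine this.congr (Eventually.of_forall fun p => (w0_hasDerivAt (hε p.1) p.2).deriv.symm)
    (Eventually.of_forall fun p => ?_)
  simp
  ring

lemma Inc_CV {ε : ι → ℝ} (hε0 : Tendsto ε l (𝓝 0)) {w : ι → ℝ → ℝ} {z : ℂ}
    (hw : CV (k + 1) l w (fun a => a ^ 2) z.re) :
    CV k l (fun i => Inc (ε i) (Real.pi / 2) (w i)) In0 z := by
  have hre : CV k l (fun _ (y : ℂ) => y.re) (fun y => y.re) z := CV.id'.re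
  have him : CV k l (fun _ (y : ℂ) => y.im) (fun y => y.im) z := CV.id'.im
  have he : CV k l (fun i (_ : ℂ) => ε i) (fun _ => 0) z := CV.cst hε0
  have ha := (CV.const' (k := k) (l := l) (x := z) (g := fun _ : ℂ => Real.pi / 2)
    contDiff_const).add (he.mul him)
  have := (hre.sub him).cplx
    (((hw.deriv.comp hre).neg.mul ha.sin).add ((he.mul (hw.pred.comp hre)).mul ha.cos))
  refine this.congr (Eventually.of_forall fun p => rfl) (Eventually.of_forall fun p => ?_)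
  apply Complex.ext <;> simp [In0]
  ring

/-- continuation of a graph of simple roots -/
theorem CV.graph {P : Type} [NormedAddCommGroup P] [NormedSpace ℝ P] [FiniteDimensional ℝ P]
    {D : ι → P × ℝ → ℝ} {D0 : P × ℝ → ℝ} {K : Set (P × ℝ)} (hK : IsCompact K)
    (hi : InjOn Prod.fst K) (hD : ∀ q ∈ K, CV (k + 1) l D D0 q) (h0 : ∀ q ∈ K, D0 q = 0)
    (h1 : ∀ q ∈ K, _root_.fderiv ℝ D0 q (0, 1) ≠ 0) :
    ∃ (τ : ι → P → ℝ) (τ0 : P → ℝ) (N : Set (P × ℝ)), IsOpen N ∧ K ⊆ N ∧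
      (∀ q ∈ N, D0 q = 0 → τ0 q.1 = q.2) ∧ (∀ᶠ i in l, ∀ q ∈ N, D i q = 0 → τ i q.1 = q.2) ∧
      ∀ q ∈ K, CV (k + 1) l τ τ0 q.1 ∧
        (∀ᶠ p : ι × P in l ×ˢ 𝓝 q.1, D p.1 (p.2, τ p.1 p.2) = 0) ∧
        ∀ᶠ y in 𝓝 q.1, D0 (y, τ0 y) = 0 := by
  have := FiniteDimensional.complete ℝ P
  set f : ι → P × ℝ → P × ℝ := fun i q => (q.1, D i q) with hf
  set g : P × ℝ → P × ℝ := fun q => (q.1, D0 q) with hg
  have c : ∀ q ∈ K, CV (k + 1) l f g q := fun q hq => CV.id'.fst.prodMk (hD q hq)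
  have hinv : ∀ q ∈ K, (_root_.fderiv ℝ g q).IsInvertible := by
    intro q hq
    refine isInv_self ((injective_iff_map_eq_zero _).2 fun u hu => ?_)
    have := (hasFDerivAt_fst.prodMk (cd_diff (hD q hq).smg0).hasFDerivAt).fderiv
    rw [hg, this] at hu
    simp only [ContinuousLinearMap.prod_apply, ContinuousLinearMap.coe_fst', Prod.mk_eq_zero] at hu
    have e : u = u.2 • ((0 : P), (1 : ℝ)) := by ext <;> simp [hu.1]
    have h2 := hu.2
    rw [e, map_smul, smul_eq_mul, mul_eq_zero] at h2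
    rw [e, h2.resolve_right (h1 q hq), zero_smul]
  obtain ⟨N, hN, hKN, i0, i1⟩ := CV.inj_nhd hK c hinv
    fun a ha b hb hab => hi ha hb (Prod.ext_iff.1 hab).1
  refine ⟨fun i p => (Function.invFunOn (f i) N (p, 0)).2,
    fun p => (Function.invFunOn g N (p, 0)).2, N, hN, hKN, fun q hq h => ?_,
    i1.mono fun i hi q hq h => ?_, fun q hq => ?_⟩
  · have : (q.1, 0) = g q := by simp [hg, h]
    simp only [this, i0.leftInvOn_invFunOn hq]
  · have : (q.1, 0) = f i q := by simp [hf, h]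
    simp only [this, hi.leftInvOn_invFunOn hq]
  · have hNq := hN.mem_nhds (hKN hq)
    have e : (q.1, 0) = g q := by simp [hg, h0 q hq]
    have l0 : ∀ᶠ z in 𝓝 q, Function.invFunOn g N (g z) = z :=
      eventually_of_mem hNq fun z hz => i0.leftInvOn_invFunOn hz
    have hj : ContDiff ℝ ∞ fun p : P => (p, (0 : ℝ)) := by fun_prop
    have hjc := hj.continuous.tendsto q.1
    rw [e] at hjc
    refine ⟨(((c q hq).invFunOn (hinv q hq) hNq i1 l0).comp' (CV.const' hj) e).snd, ?_, ?_⟩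
    · refine ((tendsto_id.prodMap hjc).eventually
        ((c q hq).invFunOn_right (hinv q hq) hNq i1)).mono fun p hp => ?_
      have h2 := hp.2
      simp only [Prod.map, id, hf, Prod.mk.injEq] at h2
      refine Eq.trans ?_ h2.2
      congr 1
      exact Prod.ext h2.1.symm rfl
    · refine (hjc.eventually (rinv_of_linv (c q hq).smg0 (hinv q hq) l0)).mono fun p hp => ?_
      simp only [hg, Prod.mk.injEq] at hp
      refine Eq.trans ?_ hp.2
      congr 1
      exact Prod.ext hp.1.symm rfl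

lemma choose_small {δ : ι → ℝ} (hδ : ∀ i, 0 < δ i) (hδ0 : Tendsto δ l (𝓝 0)) {Q : ι → ℝ → Prop}
    (h : ∀ η : ℝ, 0 < η → ∀ᶠ i in l, ∃ t, |t| ≤ η ∧ Q i t) :
    ∃ t : ι → ℝ, Tendsto t l (𝓝 0) ∧ ∀ᶠ i in l, Q i (t i) := by
  have key : ∀ i, ∃ t, (∃ s, Q i s) → Q i t ∧ ∀ s, Q i s → |t| ≤ |s| + δ i := by
    intro i
    by_cases hi : ∃ s, Q i s
    · have hne : ((fun s : ℝ => |s|) '' {s | Q i s}).Nonempty := Set.Nonempty.image _ hi
      have hb : BddBelow ((fun s : ℝ => |s|) '' {s | Q i s}) :=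
        ⟨0, by rintro _ ⟨s, -, rfl⟩; exact abs_nonneg s⟩
      obtain ⟨_, ⟨t, ht, rfl⟩, hlt⟩ := Real.lt_sInf_add_pos hne (hδ i)
      refine ⟨t, fun _ => ⟨ht, fun s hs => ?_⟩⟩
      have := csInf_le hb ⟨s, hs, rfl⟩
      simp only at this hlt
      linarith
    · exact ⟨0, fun h => (hi h).elim⟩
  choose t ht using key
  refine ⟨t, ?_, (h 1 one_pos).mono fun i ⟨s, _, hs⟩ => (ht i ⟨s, hs⟩).1⟩
  rw [NormedAddGroup.tendsto_nhds_zero]
  intro e he
  filter_upwards [h (e / 2) (half_pos he), hδ0.eventually (gt_mem_nhds (half_pos he))]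
    with i ⟨s, hs, hq⟩ h2
  have := (ht i ⟨s, hq⟩).2 s hq
  rw [Real.norm_eq_abs]
  linarith

lemma root_int_pos {I : ι → ℝ × ℝ → ℝ} {I0 : ℝ × ℝ → ℝ} {a b : ℝ} (hab : a ≤ b)
    (h : ∀ s ∈ Icc a b, CV 1 l I I0 (0, s)) (h0 : ∀ s ∈ Icc a b, I0 (0, s) = 0)
    (hκ : 0 < ∫ s in a..b, fderiv ℝ I0 (0, s) (1, 0)) (η : ℝ) (hη : 0 < η) :
    ∀ᶠ i in l, ∃ t, |t| ≤ η ∧ ∫ s in a..b, I i (t, s) = 0 := by
  set K : ℝ → ℝ := fun s => fderiv ℝ I0 (0, s) (1, 0) with hK
  set κ := ∫ s in a..b, K s with hκd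
  have hKc : ∀ s ∈ Icc a b, ContinuousAt K s := fun s hs =>
    ContinuousAt.comp (f := fun s : ℝ => ((0 : ℝ), s)) (g := fun q => fderiv ℝ I0 q (1, 0))
      ((h s hs).fderiv.app (1, 0)).smg0.continuousAt (by fun_prop)
  have hL : 0 < b - a + 1 := by linarith
  set e := κ / 4 / (b - a + 1) with he
  have he0 : 0 < e := by positivity
  have heL : e * (b - a) ≤ κ / 4 := by
    calc _ ≤ e * (b - a + 1) := by gcongr; linarith
      _ = _ := by rw [he]; field_simp
  obtain ⟨V, hV, H⟩ := ev_compact (l := l) (isCompact_singleton.prod (isCompact_Icc (a := a) (b := b)))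
    (P := fun i (q : ℝ × ℝ) => ContDiffAt ℝ ∞ (I i) q ∧ |fderiv ℝ (I i) q (1, 0) - K q.2| ≤ e) (by
      rintro ⟨t, s⟩ ⟨ht, hs⟩
      obtain rfl : t = 0 := ht
      refine (h s hs).sm.and ?_
      have t1 := ((h s hs).fderiv.app (1, 0)).tendsto
      have t2 : Tendsto (fun p : ι × ℝ × ℝ => K p.2.2) (l ×ˢ 𝓝 (0, s)) (𝓝 (K s)) :=
        (hKc s hs).tendsto.comp ((continuous_snd.tendsto (0, s)).comp tendsto_snd)
      have t3 := (t1.sub t2).abs
      rw [show fderiv ℝ I0 (0, s) (1, 0) - K s = 0 from sub_self _, abs_zero] at t3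
      exact t3.eventually (ge_mem_nhds he0))
  rw [isCompact_singleton.nhdsSet_prod_eq isCompact_Icc, mem_prod_iff] at hV
  obtain ⟨N1, hN1, N2, hN2, h12⟩ := hV
  rw [nhdsSet_singleton] at hN1
  obtain ⟨r, hr, hrs⟩ := Metric.nhds_basis_closedBall.mem_iff.1 hN1
  set t1 := min r η with ht1
  have ht0 : 0 < t1 := lt_min hr hη
  have hin : ∀ t ∈ Icc (-t1) t1, ∀ s ∈ Icc a b, (t, s) ∈ V := fun t ht s hs =>
    h12 ⟨hrs (by
      rw [mem_closedBall, Real.dist_eq, sub_zero]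
      exact (abs_le.2 ht).trans (min_le_left _ _)), subset_of_mem_nhdsSet hN2 hs⟩
  have H2 := ev_compact' (l := l) (isCompact_Icc (a := a) (b := b))
    (P := fun i s => ‖I i (0, s)‖ ≤ e * t1) fun s hs => by
      have := ((h s hs).pre' (f0 := fun s : ℝ => ((0 : ℝ), s)) (by fun_prop)).close0
        (mul_pos he0 ht0)
      simpa [h0 s hs] using this
  filter_upwards [H, H2] with i hi hi2
  have hu : uIcc a b = Icc a b := uIcc_of_le hab
  have hint : ∀ t ∈ Icc (-t1) t1, IntervalIntegrable (fun s => I i (t, s)) MeasureTheory.volume a b :=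
    fun t ht => ContinuousOn.intervalIntegrable fun s hs => ContinuousAt.continuousWithinAt <|
      ContinuousAt.comp (f := fun s : ℝ => (t, s)) (hi _ (hin t ht s (hu ▸ hs))).1.continuousAt
        (by fun_prop)
  have hKi : IntervalIntegrable K MeasureTheory.volume a b :=
    ContinuousOn.intervalIntegrable fun s hs => (hKc s (hu ▸ hs)).continuousWithinAt
  set J : ℝ → ℝ := fun t => ∫ s in a..b, I i (t, s) with hJ
  have lip : ∀ t ∈ Icc (-t1) t1, ∀ t' ∈ Icc (-t1) t1,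
      |J t - J t' - (t - t') * κ| ≤ κ / 4 * |t - t'| := by
    intro t ht t' ht'
    have e1 : J t - J t' - (t - t') * κ =
        ∫ s in a..b, (I i (t, s) - I i (t', s) - (t - t') * K s) := by
      rw [intervalIntegral.integral_sub ((hint t ht).sub (hint t' ht')) (hKi.const_mul _),
        intervalIntegral.integral_sub (hint t ht) (hint t' ht'),
        intervalIntegral.integral_const_mul]
    have e2 := intervalIntegral.norm_integral_le_of_norm_le_const (a := a) (b := b)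
      (f := fun s => I i (t, s) - I i (t', s) - (t - t') * K s) (C := e * |t - t'|) fun s hs => by
        have hs' : s ∈ Icc a b := hu ▸ uIoc_subset_uIcc hs
        have d : ∀ u ∈ Icc (-t1) t1, HasDerivAt (fun u => I i (u, s) - u * K s)
            (fderiv ℝ (I i) (u, s) (1, 0) - K s) u := fun u hu' => by
          have d1 := (cd_diff (hi _ (hin u hu' s hs')).1).hasFDerivAt.comp_hasDerivAt u
            ((hasDerivAt_id u).prodMk (hasDerivAt_const u s))
          exact (d1.sub ((hasDerivAt_id u).mul_const (K s))).congr_deriv (by simp)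
        have := (convex_Icc (-t1) t1).norm_image_sub_le_of_norm_hasDerivWithin_le
          (fun u hu' => (d u hu').hasDerivWithinAt) (fun u hu' => (hi _ (hin u hu' s hs')).2) ht' ht
        rw [Real.norm_eq_abs, Real.norm_eq_abs] at this
        rw [Real.norm_eq_abs]
        refine le_of_eq_of_le ?_ this
        congr 1
        ring
    rw [e1, ← Real.norm_eq_abs]
    refine e2.trans ?_
    rw [abs_of_nonneg (sub_nonneg.2 hab)]
    nlinarith [abs_nonneg (t - t')]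
  have j0 : |J 0| ≤ κ / 4 * t1 := by
    have e2 := intervalIntegral.norm_integral_le_of_norm_le_const (a := a) (b := b)
      (f := fun s => I i (0, s)) (C := e * t1) fun s hs => hi2 s (hu ▸ uIoc_subset_uIcc hs)
    rw [abs_of_nonneg (sub_nonneg.2 hab)] at e2
    refine le_trans e2 ?_
    nlinarith
  have hc : ContinuousOn J (Icc (-t1) t1) := by
    refine (LipschitzOnWith.of_dist_le' (K := κ / 4 + κ) fun t ht t' ht' => ?_).continuousOn
    have := lip t ht t' ht'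
    rw [Real.dist_eq, Real.dist_eq]
    have h3 := abs_add_le (J t - J t' - (t - t') * κ) ((t - t') * κ)
    rw [sub_add_cancel, abs_mul, abs_of_pos hκ] at h3
    linarith
  have m0 : (0 : ℝ) ∈ Icc (-t1) t1 := ⟨by linarith, ht0.le⟩
  have p1 := lip t1 ⟨by linarith, le_rfl⟩ 0 m0
  have p2 := lip (-t1) ⟨le_rfl, by linarith⟩ 0 m0
  rw [sub_zero, abs_of_pos ht0] at p1
  rw [sub_zero, abs_neg, abs_of_pos ht0] at p2
  have hk : 0 < κ * t1 := mul_pos hκ ht0
  obtain ⟨t, ht, h3⟩ := intermediate_value_Icc (by linarith : -t1 ≤ t1) hc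
    (show (0 : ℝ) ∈ Icc (J (-t1)) (J t1) from ⟨by
      linarith [(abs_le.1 p2).2, (abs_le.1 j0).2], by linarith [(abs_le.1 p1).1, (abs_le.1 j0).1]⟩)
  exact ⟨t, (abs_le.2 ht).trans (min_le_right _ _), h3⟩

theorem root_int {I : ι → ℝ × ℝ → ℝ} {I0 : ℝ × ℝ → ℝ} {a b : ℝ} (hab : a ≤ b)
    (h : ∀ s ∈ Icc a b, CV 1 l I I0 (0, s)) (h0 : ∀ s ∈ Icc a b, I0 (0, s) = 0)
    (hκ : ∫ s in a..b, fderiv ℝ I0 (0, s) (1, 0) ≠ 0) {δ : ι → ℝ} (hδ : ∀ i, 0 < δ i)
    (hδ0 : Tendsto δ l (𝓝 0)) :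
    ∃ t : ι → ℝ, Tendsto t l (𝓝 0) ∧ ∀ᶠ i in l, ∫ s in a..b, I i (t i, s) = 0 := by
  refine choose_small hδ hδ0 (Q := fun i t => ∫ s in a..b, I i (t, s) = 0) fun η hη => ?_
  rcases hκ.lt_or_gt with hk | hk
  · have := root_int_pos (I := fun i q => -I i q) (I0 := fun q => -I0 q) hab
      (fun s hs => (h s hs).neg) (fun s hs => by simp [h0 s hs]) (by
        simp only [fderiv_fun_neg, neg_apply, intervalIntegral.integral_neg]
        linarith) η hη
    simpa using this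
  · exact root_int_pos hab h h0 hk η hη

end Pool.Agent.Lib.MP_0281e9_an
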