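import Pool.Agent.Lib.MP_0281e9_an.Base

/-! Block P, part A: the two real coordinate functions of the pillowcase chart and their signs. -/

namespace Pool.Agent.Lib.MP_0281e9_an.BP

open Set Filter Real Topology
open scoped ContDiff

noncomputable section

def chi (u : ℝ) : ℝ := smoothTransition ((1 - 16 * u ^ 2) * (4 / 3))
def ll (v : ℝ) : ℝ := smoothTransition (8 * v - 1)
def lam (v : ℝ) : ℝ := ll v + ll (-v)
def lamt (v : ℝ) : ℝ := ll v - ll (-v)
def AA (v : ℝ) : ℝ := (2 - cos (π * v)) / (2 + cos (π * v))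
def c0 (u : ℝ) : ℝ := chi u * (1 - u ^ 2) + (1 - chi u) * cos (π * u)
def c1 (u : ℝ) : ℝ := chi u + (1 - chi u) * cos (π * u)
def ss (u : ℝ) : ℝ := chi u * u + (1 - chi u) * sin (π * u)
def XX (u v : ℝ) : ℝ :=
  (1 - lam v) * (1 / 10 * (c0 u + v ^ 2 * c1 u)) + lam v * (AA v * cos (π * u))
def YY (u v : ℝ) : ℝ := (1 - lam v) * (1 / 5 * v * ss u) + lamt v * (AA v * sin (π * u))

lemma st_cd : ContDiff ℝ ∞ smoothTransition := smoothTransition.contDiff

lemma st_d (x : ℝ) : ∃ d, 0 ≤ d ∧ HasDerivAt smoothTransition d x :=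
  ⟨_, smoothTransition.monotone.deriv_nonneg, (st_cd.differentiable (by simp) x).hasDerivAt⟩

lemma chi_cd : ContDiff ℝ ∞ chi := st_cd.comp (by fun_prop)
lemma ll_cd : ContDiff ℝ ∞ ll := st_cd.comp (by fun_prop)
lemma lam_cd : ContDiff ℝ ∞ lam := ll_cd.add (ll_cd.comp contDiff_neg)
lemma lamt_cd : ContDiff ℝ ∞ lamt := ll_cd.sub (ll_cd.comp contDiff_neg)

lemma den_pos (v : ℝ) : 0 < 2 + cos (π * v) := by linarith [neg_one_le_cos (π * v)]

lemma AA_cd : ContDiff ℝ ∞ AA :=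
  ContDiff.div (by fun_prop) (by fun_prop) fun v => (den_pos v).ne'

lemma c0_cd : ContDiff ℝ ∞ c0 := by
  have := chi_cd
  unfold c0; fun_prop

lemma c1_cd : ContDiff ℝ ∞ c1 := by
  have := chi_cd
  unfold c1; fun_prop

lemma ss_cd : ContDiff ℝ ∞ ss := by
  have := chi_cd
  unfold ss; fun_prop

lemma chi_nonneg (u : ℝ) : 0 ≤ chi u := smoothTransition.nonneg _
lemma chi_le (u : ℝ) : chi u ≤ 1 := smoothTransition.le_one _
lemma ll_nonneg (u : ℝ) : 0 ≤ ll u := smoothTransition.nonneg _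
lemma ll_le (u : ℝ) : ll u ≤ 1 := smoothTransition.le_one _

lemma chi_one {u : ℝ} (h : |u| ≤ 1 / 8) : chi u = 1 := by
  apply smoothTransition.one_of_one_le
  have := abs_le.1 h
  nlinarith

lemma chi_zero {u : ℝ} (h : 1 / 4 ≤ |u|) : chi u = 0 := by
  apply smoothTransition.zero_of_nonpos
  have h2 : (1 / 4) ^ 2 ≤ |u| ^ 2 := by gcongr
  rw [sq_abs] at h2
  nlinarith

lemma ll_zero {v : ℝ} (h : v ≤ 1 / 8) : ll v = 0 :=
  smoothTransition.zero_of_nonpos (by linarith)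

lemma ll_one {v : ℝ} (h : 1 / 4 ≤ v) : ll v = 1 :=
  smoothTransition.one_of_one_le (by linarith)

lemma lam_eq {v : ℝ} (h : -1 / 8 ≤ v) : lam v = ll v := by
  rw [lam, ll_zero (v := -v) (by linarith), add_zero]

lemma lamt_eq {v : ℝ} (h : -1 / 8 ≤ v) : lamt v = ll v := by
  rw [lamt, ll_zero (v := -v) (by linarith), sub_zero]

@[simp] lemma chi_neg (u : ℝ) : chi (-u) = chi u := by simp [chi]
@[simp] lemma lam_neg (v : ℝ) : lam (-v) = lam v := by simp [lam, add_comm]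
@[simp] lemma lamt_neg (v : ℝ) : lamt (-v) = -lamt v := by simp [lamt]
@[simp] lemma AA_neg (v : ℝ) : AA (-v) = AA v := by simp [AA]
@[simp] lemma c0_neg (u : ℝ) : c0 (-u) = c0 u := by simp [c0]
@[simp] lemma c1_neg (u : ℝ) : c1 (-u) = c1 u := by simp [c1]
@[simp] lemma ss_neg (u : ℝ) : ss (-u) = -ss u := by simp [ss]; ring
@[simp] lemma XX_neg1 (u v : ℝ) : XX (-u) v = XX u v := by simp [XX]
@[simp] lemma XX_neg2 (u v : ℝ) : XX u (-v) = XX u v := by simp [XX]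
@[simp] lemma YY_neg1 (u v : ℝ) : YY (-u) v = -YY u v := by simp [YY]; ring
@[simp] lemma YY_neg2 (u v : ℝ) : YY u (-v) = -YY u v := by simp [YY]; ring

lemma XX_abs (u v : ℝ) : XX |u| |v| = XX u v := by
  rcases abs_choice u with h | h <;> rcases abs_choice v with h' | h' <;> simp [h, h']

lemma YY_abs (u v : ℝ) : |YY (|u|) (|v|)| = |YY u v| := by
  rcases abs_choice u with h | h <;> rcases abs_choice v with h' | h' <;> simp [h, h']

/-! elementary trigonometric bounds on `[0, 1/2]` -/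

section trig

variable {u : ℝ}

lemma cos_nn (hu : u ∈ Icc (0 : ℝ) (1 / 2)) : 0 ≤ cos (π * u) :=
  cos_nonneg_of_mem_Icc ⟨by nlinarith [pi_pos, hu.1], by nlinarith [pi_pos, hu.2]⟩

lemma cos_ps (hu : u ∈ Icc (0 : ℝ) (1 / 2)) (h : u ≠ 1 / 2) : 0 < cos (π * u) := by
  have h2 : u < 1 / 2 := lt_of_le_of_ne hu.2 h
  exact cos_pos_of_mem_Ioo ⟨by nlinarith [pi_pos, hu.1], by nlinarith [pi_pos]⟩

lemma two_le_sin (hu : u ∈ Icc (0 : ℝ) (1 / 2)) : 2 * u ≤ sin (π * u) := by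
  have := mul_le_sin (x := π * u) (by nlinarith [pi_pos, hu.1]) (by nlinarith [pi_pos, hu.2])
  have h2 : 2 / π * (π * u) = 2 * u := by field_simp
  linarith

lemma cos_le_sq (hu : u ∈ Icc (0 : ℝ) (1 / 2)) : cos (π * u) ≤ 1 - 2 * u ^ 2 := by
  have := cos_le_one_sub_mul_cos_sq (x := π * u)
    (abs_le.2 ⟨by nlinarith [pi_pos, hu.1], by nlinarith [pi_pos, hu.2]⟩)
  have h2 : 2 / π ^ 2 * (π * u) ^ 2 = 2 * u ^ 2 := by field_simp
  linarith

lemma cos_ge (hu : u ∈ Icc (0 : ℝ) (1 / 4)) : 1 / 2 ≤ cos (π * u) := by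
  rw [← cos_pi_div_three]
  apply cos_le_cos_of_nonneg_of_le_pi <;> nlinarith [pi_pos, hu.1, hu.2]

lemma c1_le (hu : u ∈ Icc (0 : ℝ) (1 / 2)) : c1 u ≤ 2 * cos (π * u) := by
  have h0 := cos_nn hu
  by_cases h : u ≤ 1 / 4
  · have := cos_ge ⟨hu.1, h⟩
    have h1 := chi_nonneg u
    have h2 := chi_le u
    unfold c1; nlinarith [cos_le_one (π * u)]
  · rw [c1, chi_zero (by rw [abs_of_nonneg hu.1]; linarith)]; linarith

lemma c0_le (u : ℝ) : c0 u ≤ c1 u := by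
  have h1 := chi_nonneg u
  unfold c0 c1; nlinarith [sq_nonneg u]

lemma cos_le_c0 (hu : u ∈ Icc (0 : ℝ) (1 / 2)) : cos (π * u) ≤ c0 u := by
  have h1 := chi_nonneg u
  have := cos_le_sq hu
  unfold c0; nlinarith [sq_nonneg u]

lemma c1_le_one (u : ℝ) : c1 u ≤ 1 := by
  have h2 := chi_le u
  unfold c1; nlinarith [cos_le_one (π * u)]

lemma le_ss (hu : u ∈ Icc (0 : ℝ) (1 / 2)) : u ≤ ss u := by
  have h2 := chi_le u
  have := two_le_sin hu
  unfold ss; nlinarith [hu.1]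

lemma ss_le (hu : u ∈ Icc (0 : ℝ) (1 / 2)) : ss u ≤ sin (π * u) := by
  have h2 := chi_nonneg u
  have := two_le_sin hu
  unfold ss; nlinarith [hu.1]

lemma AA_ge (v : ℝ) : 1 / 3 ≤ AA v := by
  rw [AA, le_div_iff₀ (den_pos v)]; linarith [cos_le_one (π * v)]

lemma AA_le (hu : u ∈ Icc (0 : ℝ) (1 / 2)) : AA u ≤ 1 := by
  rw [AA, div_le_one (den_pos u)]; linarith [cos_nn hu]

lemma AA_lt (hu : u ∈ Icc (0 : ℝ) (1 / 2)) (h : u ≠ 1 / 2) : AA u < 1 := by
  rw [AA, div_lt_one (den_pos u)]; linarith [cos_ps hu h]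

lemma AA_mul (v : ℝ) : AA v * AA (v - 1) = 1 := by
  have h : cos (π * (v - 1)) = -cos (π * v) := by rw [mul_sub, mul_one, cos_sub_pi]
  have h1 := den_pos v
  have h2 : 0 < 2 - cos (π * v) := by linarith [cos_le_one (π * v)]
  rw [AA, AA, h, sub_neg_eq_add, ← sub_eq_add_neg]
  field_simp

end trig

/-! derivatives -/

lemma cos_d (u : ℝ) : HasDerivAt (fun u => cos (π * u)) (-(π * sin (π * u))) u := by
  have := ((hasDerivAt_id u).const_mul π).cos
  simp only [id, mul_one] at this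
  convert this using 1; ring

lemma sin_d (u : ℝ) : HasDerivAt (fun u => sin (π * u)) (π * cos (π * u)) u := by
  have := ((hasDerivAt_id u).const_mul π).sin
  simp only [id, mul_one] at this
  convert this using 1; ring

lemma sq_d (u : ℝ) : HasDerivAt (fun u : ℝ => u ^ 2) (2 * u) u := by
  simpa using hasDerivAt_pow 2 u

lemma chi_d {u : ℝ} (hu : 0 ≤ u) : ∃ d, d ≤ 0 ∧ HasDerivAt chi d u := by
  obtain ⟨d, hd, h⟩ := st_d ((1 - 16 * u ^ 2) * (4 / 3))
  have h2 : HasDerivAt (fun u : ℝ => (1 - 16 * u ^ 2) * (4 / 3)) (-(16 * (2 * u)) * (4 / 3)) u :=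
    (((sq_d u).const_mul 16).const_sub 1).mul_const _
  exact ⟨_, by nlinarith [mul_nonneg hd hu], h.comp u h2⟩

lemma lam_d {v : ℝ} (hv : 0 ≤ v) : ∃ d, 0 ≤ d ∧ HasDerivAt lam d v ∧ HasDerivAt lamt d v := by
  obtain ⟨d, hd, h⟩ := st_d (8 * v - 1)
  have h2 : HasDerivAt (fun v : ℝ => 8 * v - 1) (8 * 1) v :=
    ((hasDerivAt_id v).const_mul 8).sub_const 1
  have h3 : HasDerivAt ll (d * (8 * 1)) v := h.comp v h2
  have h4 : ∀ᶠ x in 𝓝 v, -1 / 8 ≤ x := eventually_ge_nhds (by linarith)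
  exact ⟨_, by positivity, h3.congr_of_eventuallyEq (h4.mono fun _ hx => lam_eq hx),
    h3.congr_of_eventuallyEq (h4.mono fun _ hx => lamt_eq hx)⟩

lemma AA_d {v : ℝ} (hv : v ∈ Icc (0 : ℝ) (1 / 2)) :
    ∃ d, 0 ≤ d ∧ (0 < v → 0 < d) ∧ HasDerivAt AA d v := by
  have h := ((cos_d v).const_sub 2).div ((cos_d v).const_add 2) (den_pos v).ne'
  have h1 := den_pos v
  have h2 := two_le_sin hv
  refine ⟨4 * π * sin (π * v) / (2 + cos (π * v)) ^ 2, ?_, fun h0 => ?_, ?_⟩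
  · have : 0 ≤ sin (π * v) := by linarith [hv.1]
    positivity
  · have : 0 < sin (π * v) := by linarith
    positivity
  · refine h.congr_deriv ?_
    congr 1; ring

lemma c0_d {u : ℝ} (hu : u ∈ Icc (0 : ℝ) (1 / 2)) :
    ∃ d, d ≤ 0 ∧ (0 < u → d < 0) ∧ HasDerivAt c0 d u := by
  obtain ⟨d, hd, h⟩ := chi_d hu.1
  have h1 := (h.mul ((sq_d u).const_sub 1)).add ((h.const_sub 1).mul (cos_d u))
  have e1 := chi_nonneg u
  have e2 := chi_le u
  have e3 := cos_le_sq hu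
  have e4 := two_le_sin hu
  have e5 : 2 * u ≤ π * sin (π * u) := by nlinarith [pi_gt_three, hu.1]
  have e6 : d * (1 - u ^ 2 - cos (π * u)) ≤ 0 :=
    mul_nonpos_of_nonpos_of_nonneg hd (by nlinarith [sq_nonneg u])
  have key : d * (1 - u ^ 2) + chi u * -(2 * u) +
      (-d * cos (π * u) + (1 - chi u) * -(π * sin (π * u))) ≤ -(2 * u) := by
    nlinarith [mul_nonneg (sub_nonneg.2 e2) (sub_nonneg.2 e5)]
  exact ⟨_, by linarith [hu.1], fun h0 => by linarith, h1⟩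

lemma c1_d {u : ℝ} (hu : u ∈ Icc (0 : ℝ) (1 / 2)) : ∃ d, d ≤ 0 ∧ HasDerivAt c1 d u := by
  obtain ⟨d, hd, h⟩ := chi_d hu.1
  have h1 := h.add ((h.const_sub 1).mul (cos_d u))
  have e2 := chi_le u
  have e4 := two_le_sin hu
  have e5 : 0 ≤ π * sin (π * u) := by nlinarith [pi_gt_three, hu.1]
  have e6 : d * (1 - cos (π * u)) ≤ 0 :=
    mul_nonpos_of_nonpos_of_nonneg hd (by linarith [cos_le_one (π * u)])
  exact ⟨_, by nlinarith [mul_nonneg (sub_nonneg.2 e2) e5], h1⟩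

lemma ss_d {u : ℝ} (hu : u ∈ Icc (0 : ℝ) (1 / 2)) :
    ∃ d, 0 ≤ d ∧ (u = 0 → 0 < d) ∧ HasDerivAt ss d u := by
  obtain ⟨d, hd, h⟩ := chi_d hu.1
  have h1 := (h.mul (hasDerivAt_id u)).add ((h.const_sub 1).mul (sin_d u))
  have e1 := chi_nonneg u
  have e2 := chi_le u
  have e4 := two_le_sin hu
  have e5 : 0 ≤ π * cos (π * u) := mul_nonneg pi_pos.le (cos_nn hu)
  have e6 : 0 ≤ d * (u - sin (π * u)) :=
    mul_nonneg_of_nonpos_of_nonpos hd (by linarith [hu.1])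
  have key : chi u ≤ d * id u + chi u * 1 +
      (-d * sin (π * u) + (1 - chi u) * (π * cos (π * u))) := by
    simp only [id]
    nlinarith [mul_nonneg (sub_nonneg.2 e2) e5]
  refine ⟨_, by linarith, fun h0 => ?_, h1⟩
  have : chi u = 1 := chi_one (by simp [h0])
  linarith

section partials

variable {u v : ℝ}

lemma comb_pos {l a b : ℝ} (h0 : 0 ≤ l) (h1 : l ≤ 1) (ha : 0 < a) (hb : 0 < b) :
    0 < (1 - l) * a + l * b := by
  rcases h0.eq_or_lt with h | h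
  · rw [← h]; linarith
  · nlinarith [mul_nonneg (sub_nonneg.2 h1) ha.le, mul_pos h hb]

lemma comb_nn {l a b : ℝ} (h0 : 0 ≤ l) (h1 : l ≤ 1) (ha : 0 ≤ a) (hb : 0 ≤ b) :
    0 ≤ (1 - l) * a + l * b := by
  nlinarith [mul_nonneg (sub_nonneg.2 h1) ha, mul_nonneg h0 hb]

lemma XX_u (hu : u ∈ Icc (0 : ℝ) (1 / 2)) (hv : v ∈ Icc (0 : ℝ) (1 / 2)) :
    ∃ d, d ≤ 0 ∧ (0 < u → d < 0) ∧ HasDerivAt (fun u => XX u v) d u := by
  obtain ⟨d0, h0, h0', g0⟩ := c0_d hu
  obtain ⟨d1, h1, g1⟩ := c1_d hu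
  have h := (((g0.add (g1.const_mul (v ^ 2))).const_mul (1 / 10)).const_mul (1 - lam v)).add
    (((cos_d u).const_mul (AA v)).const_mul (lam v))
  have l0 : 0 ≤ lam v := by rw [lam_eq (by linarith [hv.1])]; exact ll_nonneg v
  have l1 : lam v ≤ 1 := by rw [lam_eq (by linarith [hv.1])]; exact ll_le v
  have e1 : v ^ 2 * d1 ≤ 0 := mul_nonpos_of_nonneg_of_nonpos (sq_nonneg v) h1
  have e2 := two_le_sin hu
  have e3 := AA_ge v
  refine ⟨_, ?_, fun hp => ?_, h⟩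
  · have : 0 ≤ sin (π * u) := by linarith [hu.1]
    have := comb_nn l0 l1 (a := -(1 / 10 * (d0 + v ^ 2 * d1))) (b := AA v * (π * sin (π * u)))
      (by linarith) (by positivity)
    linarith
  · have : 0 < sin (π * u) := by linarith
    have := comb_pos l0 l1 (a := -(1 / 10 * (d0 + v ^ 2 * d1))) (b := AA v * (π * sin (π * u)))
      (by linarith [h0' hp]) (by positivity)
    linarith

lemma YY_u (hu : u ∈ Icc (0 : ℝ) (1 / 2)) (hv : v ∈ Icc (0 : ℝ) (1 / 2)) :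
    ∃ d, 0 ≤ d ∧ (u = 0 → 0 < v → 0 < d) ∧ HasDerivAt (fun u => YY u v) d u := by
  obtain ⟨d0, h0, h0', g0⟩ := ss_d hu
  have h := ((g0.const_mul (1 / 5 * v)).const_mul (1 - lam v)).add
    (((sin_d u).const_mul (AA v)).const_mul (lamt v))
  have l0 := ll_nonneg v
  have l1 := ll_le v
  have e3 := AA_ge v
  have e4 := cos_nn hu
  have e5 := hv.1
  refine ⟨_, ?_, fun hp hq => ?_, h⟩ <;> rw [lam_eq (by linarith), lamt_eq (by linarith)]
  · exact comb_nn l0 l1 (by positivity) (by positivity)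
  · have := h0' hp
    have : 0 < cos (π * u) := by simp [hp]
    exact comb_pos l0 l1 (by positivity) (by positivity)

lemma XX_v (hu : u ∈ Icc (0 : ℝ) (1 / 2)) (hv : v ∈ Icc (0 : ℝ) (1 / 2)) :
    ∃ d, 0 ≤ d ∧ (u = 0 → 0 < v → 0 < d) ∧ HasDerivAt (XX u) d v := by
  obtain ⟨d0, h0, g0, -⟩ := lam_d hv.1
  obtain ⟨d1, h1, h1', g1⟩ := AA_d hv
  have h := ((g0.const_sub 1).mul
    ((((sq_d v).mul_const (c1 u)).const_add (c0 u)).const_mul (1 / 10))).add
    (g0.mul (g1.mul_const (cos (π * u))))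
  have l0 : 0 ≤ lam v := by rw [lam_eq (by linarith [hv.1])]; exact ll_nonneg v
  have l1 : lam v ≤ 1 := by rw [lam_eq (by linarith [hv.1])]; exact ll_le v
  have e3 := AA_ge v
  have e4 := cos_nn hu
  have e5 := hv.1
  have e6 := c1_le hu
  have e7 := c0_le u
  have e8 : 0 ≤ c1 u := (e4.trans (cos_le_c0 hu)).trans e7
  have e9 : v ^ 2 * c1 u ≤ 1 / 4 * c1 u := by gcongr; nlinarith [hv.2]
  have e10 : 0 ≤ d0 * (AA v * cos (π * u) - 1 / 10 * (c0 u + v ^ 2 * c1 u)) :=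
    mul_nonneg h0 (by nlinarith)
  refine ⟨_, ?_, fun hp hq => ?_, h⟩
  · have := comb_nn l0 l1 (a := 1 / 10 * (2 * v * c1 u)) (b := d1 * cos (π * u))
      (by positivity) (by positivity)
    linarith
  · have h2 := h1' hq
    have h3 : 0 < cos (π * u) := by simp [hp]
    have h4 : 0 < c1 u := (h3.trans_le (cos_le_c0 hu)).trans_le e7
    have := comb_pos l0 l1 (a := 1 / 10 * (2 * v * c1 u)) (b := d1 * cos (π * u))
      (by positivity) (by positivity)
    linarith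

lemma YY_v (hu : u ∈ Icc (0 : ℝ) (1 / 2)) (hv : v ∈ Icc (0 : ℝ) (1 / 2)) :
    ∃ d, 0 ≤ d ∧ (0 < u → 0 < d) ∧ HasDerivAt (YY u) d v := by
  obtain ⟨d0, h0, g0, g0'⟩ := lam_d hv.1
  obtain ⟨d1, h1, h1', g1⟩ := AA_d hv
  have h := ((g0.const_sub 1).mul
    (((hasDerivAt_id v).const_mul (1 / 5)).mul_const (ss u))).add
    (g0'.mul (g1.mul_const (sin (π * u))))
  have l0 := ll_nonneg v
  have l1 := ll_le v
  have e3 := AA_ge v
  have e4 := two_le_sin hu
  have e5 := hv.1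
  have e6 := le_ss hu
  have e7 := ss_le hu
  have e8 := hu.1
  have e9 : 0 ≤ ss u := by linarith
  have e10 : 0 ≤ d0 * (AA v * sin (π * u) - 1 / 5 * v * ss u) :=
    mul_nonneg h0 (by nlinarith [hv.2])
  have e11 : 0 ≤ sin (π * u) := by linarith
  refine ⟨_, ?_, fun hp => ?_, h⟩ <;> simp only [id] <;>
    rw [lam_eq (by linarith), lamt_eq (by linarith)]
  · have := comb_nn l0 l1 (a := 1 / 5 * 1 * ss u) (b := d1 * sin (π * u))
      (by positivity) (by positivity)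
    linarith
  · have h3 : 0 < sin (π * u) := by linarith
    have h4 : 0 < ss u := by linarith
    rcases e5.eq_or_lt with hq | hq
    · rw [ll_zero (by linarith)]
      linarith
    · have h2 := h1' hq
      have := comb_pos l0 l1 (a := 1 / 5 * 1 * ss u) (b := d1 * sin (π * u))
        (by positivity) (by positivity)
      linarith

end partials

end

end Pool.Agent.Lib.MP_0281e9_an.BP
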