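import Pool.Agent.Lib.MP_0281e9_an.CoverA

/-! Block P, part B: the chart `Wp` on the unit square. -/

namespace Pool.Agent.Lib.MP_0281e9_an.BP

open Set Filter Real Topology
open scoped ContDiff ComplexConjugate

noncomputable section

lemma mono_of {f : ℝ → ℝ} (h : ∀ x ∈ Icc (0 : ℝ) (1 / 2), ∃ d, 0 ≤ d ∧ HasDerivAt f d x) :
    MonotoneOn f (Icc 0 (1 / 2)) := by
  refine monotoneOn_of_deriv_nonneg (convex_Icc _ _) (fun x hx => ?_) (fun x hx => ?_)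
    fun x hx => ?_
  · obtain ⟨d, -, hd⟩ := h x hx
    exact hd.continuousAt.continuousWithinAt
  · obtain ⟨d, -, hd⟩ := h x (interior_subset hx)
    exact hd.differentiableAt.differentiableWithinAt
  · obtain ⟨d, h0, hd⟩ := h x (interior_subset hx)
    rwa [hd.deriv]

lemma smono_of {f : ℝ → ℝ}
    (h : ∀ x ∈ Icc (0 : ℝ) (1 / 2), ∃ d, (0 < x → 0 < d) ∧ HasDerivAt f d x) :
    StrictMonoOn f (Icc 0 (1 / 2)) := by
  refine strictMonoOn_of_deriv_pos (convex_Icc _ _) (fun x hx => ?_) fun x hx => ?_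
  · obtain ⟨d, -, hd⟩ := h x hx
    exact hd.continuousAt.continuousWithinAt
  · obtain ⟨d, h0, hd⟩ := h x (interior_subset hx)
    rw [interior_Icc] at hx
    rw [hd.deriv]; exact h0 hx.1

section quarter

variable {u v u' v' : ℝ}

lemma XX_su (hv : v ∈ Icc (0 : ℝ) (1 / 2)) :
    StrictMonoOn (fun u => -XX u v) (Icc 0 (1 / 2)) :=
  smono_of fun _ hu => by
    obtain ⟨d, -, h1, h2⟩ := XX_u hu hv
    exact ⟨-d, fun h => by linarith [h1 h], h2.neg⟩

lemma XX_mv (hu : u ∈ Icc (0 : ℝ) (1 / 2)) : MonotoneOn (XX u) (Icc 0 (1 / 2)) :=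
  mono_of fun _ hv => by
    obtain ⟨d, h0, -, h2⟩ := XX_v hu hv
    exact ⟨d, h0, h2⟩

lemma XX_sv : StrictMonoOn (XX 0) (Icc 0 (1 / 2)) :=
  smono_of fun _ hv => by
    obtain ⟨d, -, h1, h2⟩ := XX_v (u := 0) ⟨le_rfl, by norm_num⟩ hv
    exact ⟨d, h1 rfl, h2⟩

lemma YY_mu (hv : v ∈ Icc (0 : ℝ) (1 / 2)) : MonotoneOn (fun u => YY u v) (Icc 0 (1 / 2)) :=
  mono_of fun _ hu => by
    obtain ⟨d, h0, -, h2⟩ := YY_u hu hv
    exact ⟨d, h0, h2⟩

lemma YY_sv (hu : u ∈ Icc (0 : ℝ) (1 / 2)) (h : 0 < u) : StrictMonoOn (YY u) (Icc 0 (1 / 2)) :=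
  smono_of fun _ hv => by
    obtain ⟨d, -, h1, h2⟩ := YY_v hu hv
    exact ⟨d, fun _ => h1 h, h2⟩

lemma quarter_aux (hu : u ∈ Icc (0 : ℝ) (1 / 2)) (hv : v ∈ Icc (0 : ℝ) (1 / 2))
    (hu' : u' ∈ Icc (0 : ℝ) (1 / 2)) (hv' : v' ∈ Icc (0 : ℝ) (1 / 2)) (hle : u ≤ u')
    (hX : XX u v = XX u' v') (hY : YY u v = YY u' v') : u = u' ∧ v = v' := by
  have same : u = u' → v = v' := by
    rintro rfl
    rcases hu.1.eq_or_lt with h | h
    · subst h
      exact XX_sv.injOn hv hv' hX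
    · exact (YY_sv hu h).injOn hv hv' hY
  rcases hle.eq_or_lt with h | h
  · exact ⟨h, same h⟩
  exfalso
  rcases le_or_gt v' v with h2 | h2
  · have e1 := XX_mv hu' hv' hv h2
    have e2 : -XX u v < -XX u' v := XX_su hv hu hu' h
    linarith
  · have e1 : YY u v ≤ YY u' v := YY_mu hv hu hu' hle
    have e2 := YY_sv hu' (hu.1.trans_lt h) hv hv' h2
    linarith

lemma quarter_inj (hu : u ∈ Icc (0 : ℝ) (1 / 2)) (hv : v ∈ Icc (0 : ℝ) (1 / 2))
    (hu' : u' ∈ Icc (0 : ℝ) (1 / 2)) (hv' : v' ∈ Icc (0 : ℝ) (1 / 2))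
    (hX : XX u v = XX u' v') (hY : YY u v = YY u' v') : u = u' ∧ v = v' := by
  rcases le_total u u' with h | h
  · exact quarter_aux hu hv hu' hv' h hX hY
  · have := quarter_aux hu' hv' hu hv h hX.symm hY.symm
    exact ⟨this.1.symm, this.2.symm⟩

lemma XX_q (hv : 0 ≤ v) : XX u v =
    (1 - ll v) * (1 / 10 * (c0 u + v ^ 2 * c1 u)) + ll v * (AA v * cos (π * u)) := by
  rw [XX, lam_eq (by linarith)]

lemma YY_q (hv : 0 ≤ v) : YY u v =
    (1 - ll v) * (1 / 5 * v * ss u) + ll v * (AA v * sin (π * u)) := by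
  rw [YY, lam_eq (by linarith), lamt_eq (by linarith)]

lemma XX_nn (hu : u ∈ Icc (0 : ℝ) (1 / 2)) (hv : 0 ≤ v) : 0 ≤ XX u v := by
  have e1 := cos_nn hu
  have e2 := e1.trans (cos_le_c0 hu)
  have e3 := e2.trans (c0_le u)
  have e4 := AA_ge v
  rw [XX_q hv]
  exact comb_nn (ll_nonneg v) (ll_le v) (by positivity) (by positivity)

lemma XX_ps (hu : u ∈ Icc (0 : ℝ) (1 / 2)) (h : u ≠ 1 / 2) (hv : 0 ≤ v) : 0 < XX u v := by
  have e1 := cos_ps hu h
  have e2 := e1.trans_le (cos_le_c0 hu)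
  have e3 := e2.trans_le (c0_le u)
  have e4 := AA_ge v
  rw [XX_q hv]
  exact comb_pos (ll_nonneg v) (ll_le v) (by positivity) (by positivity)

lemma YY_nn (hu : u ∈ Icc (0 : ℝ) (1 / 2)) (hv : 0 ≤ v) : 0 ≤ YY u v := by
  have e1 : 0 ≤ sin (π * u) := by linarith [two_le_sin hu, hu.1]
  have e2 := hu.1.trans (le_ss hu)
  have e4 := AA_ge v
  rw [YY_q hv]
  exact comb_nn (ll_nonneg v) (ll_le v) (by positivity) (by positivity)

lemma YY_ps (hu : u ∈ Icc (0 : ℝ) (1 / 2)) (h : 0 < u) (hv : 0 < v) : 0 < YY u v := by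
  have e1 : 0 < sin (π * u) := by linarith [two_le_sin hu]
  have e2 := h.trans_le (le_ss hu)
  have e4 := AA_ge v
  rw [YY_q hv.le]
  exact comb_pos (ll_nonneg v) (ll_le v) (by positivity) (by positivity)

lemma sq_comb {l a b c s A : ℝ} (l0 : 0 ≤ l) (l1 : l ≤ 1) (a0 : 0 ≤ a) (a1 : a ≤ 1 / 8)
    (b0 : 0 ≤ b) (b1 : b ≤ 1 / 10) (c1 : c ≤ 1) (s1 : s ≤ 1) (h : c ^ 2 + s ^ 2 = 1)
    (hA : 1 / 3 ≤ A) :
    ((1 - l) * a + l * (A * c)) ^ 2 + ((1 - l) * b + l * (A * s)) ^ 2 ≤ A ^ 2 := by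
  have e1 : a ^ 2 + b ^ 2 ≤ A ^ 2 := by nlinarith
  have e2 : a * c + b * s ≤ A := by nlinarith
  have e3 : ((1 - l) * a + l * (A * c)) ^ 2 + ((1 - l) * b + l * (A * s)) ^ 2 =
      (1 - l) ^ 2 * (a ^ 2 + b ^ 2) + 2 * l * (1 - l) * A * (a * c + b * s) +
        l ^ 2 * A ^ 2 * (c ^ 2 + s ^ 2) := by ring
  have e4 : 0 ≤ 1 - l := by linarith
  have e5 : 0 ≤ A := by linarith
  calc _ = _ := e3
    _ ≤ (1 - l) ^ 2 * A ^ 2 + 2 * l * (1 - l) * A * A + l ^ 2 * A ^ 2 * 1 := by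
      rw [h]; gcongr
    _ = A ^ 2 := by ring

lemma sq_le_AA (hu : u ∈ Icc (0 : ℝ) (1 / 2)) (hv : v ∈ Icc (0 : ℝ) (1 / 2)) :
    XX u v ^ 2 + YY u v ^ 2 ≤ AA v ^ 2 := by
  have e1 := cos_nn hu
  have e2 := e1.trans (cos_le_c0 hu)
  have e3 := c0_le u
  have e4 := c1_le_one u
  have e5 := hu.1.trans (le_ss hu)
  have e6 := (ss_le hu).trans (sin_le_one _)
  have e7 := hv.1
  have e8 := e2.trans e3
  have e9 : v ^ 2 * c1 u ≤ 1 / 4 * 1 := by gcongr; nlinarith [hv.2]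
  have e10 : v * ss u ≤ 1 / 2 * 1 := by gcongr; exact hv.2
  rw [XX_q hv.1, YY_q hv.1]
  exact sq_comb (ll_nonneg v) (ll_le v) (by positivity) (by linarith) (by positivity)
    (by linarith) (cos_le_one _) (sin_le_one _) (cos_sq_add_sin_sq _) (AA_ge v)

end quarter

/-- the chart -/
def Wp (z : ℂ) : ℂ := (XX z.re z.im : ℂ) - (YY z.re z.im : ℂ) * Complex.I

@[simp] lemma Wp_re (z : ℂ) : (Wp z).re = XX z.re z.im := by simp [Wp]
@[simp] lemma Wp_im (z : ℂ) : (Wp z).im = -YY z.re z.im := by simp [Wp]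

lemma Wp_cd : ContDiff ℝ ∞ Wp := by
  have h1 : ContDiff ℝ ∞ fun z : ℂ => z.re := Complex.reCLM.contDiff
  have h2 : ContDiff ℝ ∞ fun z : ℂ => z.im := Complex.imCLM.contDiff
  have h3 : ContDiff ℝ ∞ fun x : ℝ => (x : ℂ) := Complex.ofRealCLM.contDiff
  have a1 := lam_cd.comp h2
  have a2 := lamt_cd.comp h2
  have a3 := AA_cd.comp h2
  have a4 := c0_cd.comp h1
  have a5 := c1_cd.comp h1
  have a6 := ss_cd.comp h1
  have a7 : ContDiff ℝ ∞ fun z : ℂ => cos (π * z.re) := (contDiff_const.mul h1).cos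
  have a8 : ContDiff ℝ ∞ fun z : ℂ => sin (π * z.re) := (contDiff_const.mul h1).sin
  have hX : ContDiff ℝ ∞ fun z : ℂ => XX z.re z.im :=
    ((contDiff_const.sub a1).mul (contDiff_const.mul (a4.add ((h2.pow 2).mul a5)))).add
      (a1.mul (a3.mul a7))
  have hY : ContDiff ℝ ∞ fun z : ℂ => YY z.re z.im :=
    ((contDiff_const.sub a1).mul ((contDiff_const.mul h2).mul a6)).add (a2.mul (a3.mul a8))
  exact (h3.comp hX).sub ((h3.comp hY).mul contDiff_const)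

lemma Wp_diff (z : ℂ) : DifferentiableAt ℝ Wp z := Wp_cd.differentiable (by simp) z

lemma Wp_neg (z : ℂ) : Wp (-z) = Wp z := by simp [Wp]

lemma Wp_conj (z : ℂ) : Wp (conj z) = conj (Wp z) := by
  apply Complex.ext <;> simp

lemma Wp_near {z : ℂ} (h : ‖z‖ < 1 / 8) : Wp z = 1 / 10 - 1 / 10 * z ^ 2 := by
  have h1 : |z.re| ≤ 1 / 8 := (Complex.abs_re_le_norm z).trans h.le
  have h2 := abs_le.1 ((Complex.abs_im_le_norm z).trans h.le)
  have e1 := chi_one h1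
  have e2 : ll z.im = 0 := ll_zero h2.2
  have e3 : ll (-z.im) = 0 := ll_zero (by linarith [h2.1])
  apply Complex.ext <;> simp [XX, YY, lam, lamt, c0, c1, ss, e1, e2, e3, pow_two] <;> ring

lemma Wp_shift {z : ℂ} (h : 1 / 4 ≤ z.re) (h' : z.re ≤ 3 / 4) : Wp (z - 1) = -Wp z := by
  have e1 : chi z.re = 0 := chi_zero (h.trans (le_abs_self _))
  have e2 : chi (z.re - 1) = 0 := chi_zero (le_trans (by linarith) (neg_le_abs _))
  have e3 : cos (π * (z.re - 1)) = -cos (π * z.re) := by rw [mul_sub, mul_one, cos_sub_pi]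
  have e4 : sin (π * (z.re - 1)) = -sin (π * z.re) := by rw [mul_sub, mul_one, sin_sub_pi]
  apply Complex.ext <;> simp [XX, YY, c0, c1, ss, e1, e2, e3, e4] <;> ring

lemma Wp_mul {z : ℂ} (h : 1 / 4 ≤ z.im) (h' : z.im ≤ 3 / 4) : Wp z * Wp (z - Complex.I) = 1 := by
  have e1 : ll z.im = 1 := ll_one h
  have e2 : ll (-z.im) = 0 := ll_zero (by linarith)
  have e3 : ll (z.im - 1) = 0 := ll_zero (by linarith)
  have e4 : ll (1 - z.im) = 1 := ll_one (by linarith)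
  have e5 := AA_mul z.im
  have e6 := cos_sq_add_sin_sq (π * z.re)
  apply Complex.ext <;> simp [XX, YY, lam, lamt, e1, e2, e3, e4]
  · linear_combination (cos (π * z.re) ^ 2 + sin (π * z.re) ^ 2) * e5 + e6
  · ring

/-- the closed unit square around `0` -/
def Sq (z : ℂ) : Prop := |z.re| ≤ 1 / 2 ∧ |z.im| ≤ 1 / 2

lemma Sq.r {z : ℂ} (h : Sq z) : |z.re| ∈ Icc (0 : ℝ) (1 / 2) := ⟨abs_nonneg _, h.1⟩
lemma Sq.i {z : ℂ} (h : Sq z) : |z.im| ∈ Icc (0 : ℝ) (1 / 2) := ⟨abs_nonneg _, h.2⟩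

lemma Wp_re_nn {z : ℂ} (h : Sq z) : 0 ≤ (Wp z).re := by
  rw [Wp_re, ← XX_abs]; exact XX_nn h.r (abs_nonneg _)

lemma Wp_re_zero {z : ℂ} (h : Sq z) (h0 : (Wp z).re = 0) : |z.re| = 1 / 2 := by
  by_contra hne
  have := XX_ps h.r hne (abs_nonneg z.im)
  rw [XX_abs, ← Wp_re] at this
  linarith

lemma Wp_norm_le {z : ℂ} (h : Sq z) : ‖Wp z‖ ≤ AA |z.im| := by
  have h1 := sq_le_AA h.r h.i
  rw [XX_abs, ← sq_abs (YY _ _), YY_abs, sq_abs] at h1
  refine abs_le_of_sq_le_sq' ?_ (by linarith [AA_ge |z.im|]) |>.2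
  rw [Complex.sq_norm, Complex.normSq_apply, Wp_re, Wp_im]
  linarith

lemma Wp_norm_le_one {z : ℂ} (h : Sq z) : ‖Wp z‖ ≤ 1 := (Wp_norm_le h).trans (AA_le h.i)

lemma Wp_norm_one {z : ℂ} (h : Sq z) (h1 : 1 ≤ ‖Wp z‖) : |z.im| = 1 / 2 := by
  by_contra hne
  linarith [Wp_norm_le h, AA_lt h.i hne]

lemma Wp_inj {a b : ℂ} (ha : Sq a) (hb : Sq b) (h : Wp a = Wp b) : b = a ∨ b = -a := by
  have hX : XX a.re a.im = XX b.re b.im := by rw [← Wp_re, h, Wp_re]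
  have hY : YY a.re a.im = YY b.re b.im := by
    have := congrArg Complex.im h
    simpa using this
  have h1 := quarter_inj ha.r ha.i hb.r hb.i (by rw [XX_abs, XX_abs, hX]) (by
    rw [← abs_of_nonneg (YY_nn ha.r (abs_nonneg a.im)),
      ← abs_of_nonneg (YY_nn hb.r (abs_nonneg b.im)), YY_abs, YY_abs, hY])
  have hz : YY a.re a.im = 0 → a.re = 0 ∨ a.im = 0 := by
    intro h0
    by_contra hne
    push Not at hne
    have := YY_ps ha.r (abs_pos.2 hne.1) (abs_pos.2 hne.2)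
    have h2 := YY_abs a.re a.im
    rw [h0, abs_zero, abs_eq_zero] at h2
    linarith
  rcases abs_eq_abs.1 h1.1.symm with hr | hr <;> rcases abs_eq_abs.1 h1.2.symm with hi | hi
  · exact Or.inl (Complex.ext hr hi)
  · rw [hr, hi, YY_neg2] at hY
    rcases hz (by linarith) with h0 | h0
    · exact Or.inr (Complex.ext (by simp [hr, h0]) (by simp [hi]))
    · exact Or.inl (Complex.ext hr (by simp [hi, h0]))
  · rw [hr, hi, YY_neg1] at hY
    rcases hz (by linarith) with h0 | h0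
    · exact Or.inl (Complex.ext (by simp [hr, h0]) hi)
    · exact Or.inr (Complex.ext (by simp [hr]) (by simp [hi, h0]))
  · exact Or.inr (Complex.ext (by simp [hr]) (by simp [hi]))

lemma fd_one (z : ℂ) {x y : ℝ} (hx : HasDerivAt (fun u => XX u z.im) x z.re)
    (hy : HasDerivAt (fun u => YY u z.im) y z.re) :
    fderiv ℝ Wp z 1 = (x : ℂ) - (y : ℂ) * Complex.I := by
  have h1 : HasDerivAt (fun t : ℝ => (t : ℂ) + z.im * Complex.I) ((1 : ℝ) : ℂ) z.re :=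
    (hasDerivAt_id z.re).ofReal_comp.add_const _
  have h2 := (Wp_diff ((z.re : ℂ) + z.im * Complex.I)).hasFDerivAt.comp_hasDerivAt z.re h1
  have h3 := hx.ofReal_comp.sub (hy.ofReal_comp.mul_const Complex.I)
  rw [Complex.re_add_im, Complex.ofReal_one] at h2
  refine h2.unique ?_
  convert h3 using 1
  funext t
  simp [Wp]

lemma fd_I (z : ℂ) {x y : ℝ} (hx : HasDerivAt (XX z.re) x z.im)
    (hy : HasDerivAt (YY z.re) y z.im) :
    fderiv ℝ Wp z Complex.I = (x : ℂ) - (y : ℂ) * Complex.I := by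
  have h1 : HasDerivAt (fun t : ℝ => (z.re : ℂ) + t * Complex.I) (((1 : ℝ) : ℂ) * Complex.I)
      z.im := ((hasDerivAt_id z.im).ofReal_comp.mul_const _).const_add _
  have h2 := (Wp_diff ((z.re : ℂ) + z.im * Complex.I)).hasFDerivAt.comp_hasDerivAt z.im h1
  have h3 := hx.ofReal_comp.sub (hy.ofReal_comp.mul_const Complex.I)
  rw [Complex.re_add_im, Complex.ofReal_one, one_mul] at h2
  refine h2.unique ?_
  convert h3 using 1
  funext t
  simp [Wp]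

lemma fd_inj_q {z : ℂ} (hu : z.re ∈ Icc (0 : ℝ) (1 / 2)) (hv : z.im ∈ Icc (0 : ℝ) (1 / 2))
    (h0 : z ≠ 0) : Function.Injective (fderiv ℝ Wp z) := by
  obtain ⟨xu, a1, a2, a3⟩ := XX_u hu hv
  obtain ⟨xv, b1, b2, b3⟩ := XX_v hu hv
  obtain ⟨yu, c1, c2, c3⟩ := YY_u hu hv
  obtain ⟨yv, d1, d2, d3⟩ := YY_v hu hv
  have hdet : xu * yv - xv * yu < 0 := by
    rcases hu.1.eq_or_lt with h | h
    · have h2 : 0 < z.im := by
        refine lt_of_le_of_ne hv.1 fun h2 => h0 (Complex.ext h.symm h2.symm)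
      nlinarith [mul_pos (b2 h.symm h2) (c2 h.symm h2), mul_nonneg (neg_nonneg.2 a1) d1]
    · nlinarith [mul_pos (neg_pos.2 (a2 h)) (d2 h), mul_nonneg b1 c1]
  refine (injective_iff_map_eq_zero _).2 fun w hw => ?_
  have e : w = w.re • (1 : ℂ) + w.im • Complex.I := by
    apply Complex.ext <;> simp
  rw [e, map_add, map_smul, map_smul, fd_one z a3 c3, fd_I z b3 d3] at hw
  have e1 := congrArg Complex.re hw
  have e2 := congrArg Complex.im hw
  simp at e1 e2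
  have e3 : w.re * (xu * yv - xv * yu) = 0 := by linear_combination yv * e1 + xv * e2
  have e4 : w.im * (xu * yv - xv * yu) = 0 := by linear_combination -yu * e1 - xu * e2
  exact Complex.ext ((mul_eq_zero.1 e3).resolve_right hdet.ne)
    ((mul_eq_zero.1 e4).resolve_right hdet.ne)

lemma fd_symm (σ τ : ℂ ≃L[ℝ] ℂ) (h : ∀ x, Wp x = σ (Wp (τ x))) {z : ℂ}
    (hi : Function.Injective (fderiv ℝ Wp (τ z))) : Function.Injective (fderiv ℝ Wp z) := by
  have h1 := σ.hasFDerivAt.comp z ((Wp_diff (τ z)).hasFDerivAt.comp z τ.hasFDerivAt)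
  have h2 : Wp = σ ∘ Wp ∘ τ := funext h
  rw [← h2] at h1
  rw [h1.fderiv]
  exact σ.injective.comp (hi.comp τ.injective)

lemma fd_neg {z : ℂ} (hi : Function.Injective (fderiv ℝ Wp (-z))) :
    Function.Injective (fderiv ℝ Wp z) :=
  fd_symm (ContinuousLinearEquiv.refl ℝ ℂ) (ContinuousLinearEquiv.neg ℝ)
    (fun x => by simp [Wp_neg]) hi

lemma fd_conj {z : ℂ} (hi : Function.Injective (fderiv ℝ Wp (conj z))) :
    Function.Injective (fderiv ℝ Wp z) :=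
  fd_symm Complex.conjCLE Complex.conjCLE (fun x => by simp [Wp_conj]) hi

lemma fd_inj {z : ℂ} (h : Sq z) (h0 : z ≠ 0) : Function.Injective (fderiv ℝ Wp z) := by
  have h1 := abs_le.1 h.1
  have h2 := abs_le.1 h.2
  rcases le_total 0 z.re with hr | hr <;> rcases le_total 0 z.im with hi | hi
  · exact fd_inj_q ⟨hr, h1.2⟩ ⟨hi, h2.2⟩ h0
  · refine fd_conj (fd_inj_q ?_ ?_ (by simpa using h0)) <;> constructor <;> simp <;> linarith
  · refine fd_neg (fd_conj (fd_inj_q ?_ ?_ (by simpa using h0))) <;> constructor <;> simp <;>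
      linarith
  · refine fd_neg (fd_inj_q ?_ ?_ (by simpa using h0)) <;> constructor <;> simp <;> linarith

end

end Pool.Agent.Lib.MP_0281e9_an.BP
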