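import Pool.Agent.Lib.MP_0281e9_an.CoverB

/-! Block P, part C: the pillowcase cover. -/

namespace Pool.Agent.Lib.MP_0281e9_an

open Set Filter Complex Topology
open scoped ContDiff ComplexConjugate

noncomputable def mu : Fin 4 → ℂ → ℂ :=
  ![fun o => 10 / (o - 2), fun o => (10 - 10 * o) / (99 + o), fun o => (10 * o - 10) / (101 - o),
    fun o => -10 / o]

namespace BP

noncomputable section

def MM (n : ℤ) (p : ℂ) : ℂ := if Even n then 1 / (p - 1 / 10) else p / (1 - 1 / 10 * p)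
def sg (m : ℤ) : ℂ := if Even m then 1 else -1
def pp (m n : ℤ) (z : ℂ) : ℂ := sg m * Wp (z - lp m n)
def QQ (z : ℂ) : ℂ := MM (round z.im) (pp (round z.re) (round z.im) z)

@[simp] lemma lp_re (m n : ℤ) : (lp m n).re = m := by simp [lp]
@[simp] lemma lp_im (m n : ℤ) : (lp m n).im = n := by simp [lp]

lemma sg_succ (m : ℤ) : sg (m + 1) = -sg m := by
  by_cases h : Even m
  · simp only [sg, Int.even_add_one, h, not_true, if_true, if_false]
  · simp only [sg, Int.even_add_one, h, not_false_iff, if_true, if_false, neg_neg]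

lemma sg_sq (m : ℤ) : sg m * sg m = 1 := by
  by_cases h : Even m <;> simp [sg, h]

lemma sg_ne (m : ℤ) : sg m ≠ 0 := left_ne_zero_of_mul_eq_one (sg_sq m)

lemma sg_norm (m : ℤ) : ‖sg m‖ = 1 := by
  by_cases h : Even m <;> simp [sg, h]

lemma sg_congr {m m' : ℤ} (h : Even m ↔ Even m') : sg m = sg m' := by simp [sg, h]

lemma MM_congr {m m' : ℤ} (h : Even m ↔ Even m') : MM m = MM m' := by
  funext p; simp [MM, h]

lemma MM_aux {p q : ℂ} (h : p * q = 1) : q / (1 - 1 / 10 * q) = 1 / (p - 1 / 10) := by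
  have h1 : 1 - 1 / 10 * q = q * (p - 1 / 10) := by linear_combination -h
  rw [h1, ← div_div, div_self (right_ne_zero_of_mul_eq_one h)]

lemma MM_succ (n : ℤ) {p q : ℂ} (h : p * q = 1) : MM (n + 1) q = MM n p := by
  by_cases hn : Even n
  · simp only [MM, Int.even_add_one, hn, not_true, if_true, if_false]
    exact MM_aux h
  · simp only [MM, Int.even_add_one, hn, not_false_iff, if_true, if_false]
    exact (MM_aux (by rw [mul_comm, h])).symm

lemma pp_succ {m n : ℤ} {z : ℂ} (h : 1 / 4 ≤ z.re - m) (h' : z.re - m ≤ 3 / 4) :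
    pp (m + 1) n z = pp m n z := by
  have e : z - lp (m + 1) n = z - lp m n - 1 := by simp [lp]; ring
  rw [pp, pp, e, Wp_shift (by simpa using h) (by simpa using h'), sg_succ]
  ring

lemma pp_mul {m n : ℤ} {z : ℂ} (h : 1 / 4 ≤ z.im - n) (h' : z.im - n ≤ 3 / 4) :
    pp m n z * pp m (n + 1) z = 1 := by
  have e : z - lp m (n + 1) = z - lp m n - I := by simp [lp]; ring
  have := Wp_mul (z := z - lp m n) (by simpa using h) (by simpa using h')
  rw [pp, pp, e]
  linear_combination (Wp (z - lp m n) * Wp (z - lp m n - I)) * sg_sq m + this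

lemma tri {x : ℝ} {m m' : ℤ} (h : |x - m| ≤ 3 / 4) (h' : |x - m'| ≤ 3 / 4) :
    m' = m ∨ m' = m + 1 ∨ m = m' + 1 := by
  have a := abs_le.1 h
  have b := abs_le.1 h'
  have h1 : (m' : ℝ) < m + 2 := by linarith
  have h2 : (m : ℝ) < m' + 2 := by linarith
  have h3 : m' < m + 2 := by exact_mod_cast h1
  have h4 : m < m' + 2 := by exact_mod_cast h2
  omega

lemma pp_eq {m m' : ℤ} (n : ℤ) {z : ℂ} (h : |z.re - m| ≤ 3 / 4) (h' : |z.re - m'| ≤ 3 / 4) :
    pp m' n z = pp m n z := by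
  have a := abs_le.1 h
  have b := abs_le.1 h'
  rcases tri h h' with rfl | rfl | rfl
  · rfl
  · push_cast at b
    exact pp_succ (by linarith) a.2
  · push_cast at a
    exact (pp_succ (by linarith) b.2).symm

lemma MM_eq (m : ℤ) {n n' : ℤ} {z : ℂ} (h : |z.im - n| ≤ 3 / 4) (h' : |z.im - n'| ≤ 3 / 4) :
    MM n' (pp m n' z) = MM n (pp m n z) := by
  have a := abs_le.1 h
  have b := abs_le.1 h'
  rcases tri h h' with rfl | rfl | rfl
  · rfl
  · push_cast at b
    exact MM_succ _ (pp_mul (by linarith) a.2)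
  · push_cast at a
    exact (MM_succ _ (pp_mul (by linarith) b.2)).symm

lemma QQ_eq {m n : ℤ} {z : ℂ} (h : |z.re - m| ≤ 3 / 4) (h' : |z.im - n| ≤ 3 / 4) :
    QQ z = MM n (pp m n z) := by
  rw [QQ, pp_eq _ h ((abs_sub_round _).trans (by norm_num)),
    MM_eq _ h' ((abs_sub_round _).trans (by norm_num))]

/-- `z` lies in the closed unit square around `lp m n` -/
def In (m n : ℤ) (z : ℂ) : Prop := |z.re - m| ≤ 1 / 2 ∧ |z.im - n| ≤ 1 / 2

lemma in_round (z : ℂ) : In (round z.re) (round z.im) z := ⟨abs_sub_round _, abs_sub_round _⟩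

lemma In.sq {m n : ℤ} {z : ℂ} (h : In m n z) : Sq (z - lp m n) := by
  simpa [Sq, In] using h

lemma In.eq {m n : ℤ} {z : ℂ} (h : In m n z) : QQ z = MM n (pp m n z) :=
  QQ_eq (h.1.trans (by norm_num)) (h.2.trans (by norm_num))

lemma In.ev {m n : ℤ} {z : ℂ} (h : In m n z) : QQ =ᶠ[𝓝 z] fun y => MM n (pp m n y) := by
  have h1 : ∀ᶠ y : ℂ in 𝓝 z, |y.re - m| ≤ 3 / 4 :=
    ContinuousAt.eventually_lt (f := fun y : ℂ => |y.re - m|) (g := fun _ => 3 / 4)
      (by fun_prop) continuousAt_const (h.1.trans_lt (by norm_num)) |>.mono fun _ => le_of_lt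
  have h2 : ∀ᶠ y : ℂ in 𝓝 z, |y.im - n| ≤ 3 / 4 :=
    ContinuousAt.eventually_lt (f := fun y : ℂ => |y.im - n|) (g := fun _ => 3 / 4)
      (by fun_prop) continuousAt_const (h.2.trans_lt (by norm_num)) |>.mono fun _ => le_of_lt
  filter_upwards [h1, h2] with y a b using QQ_eq a b

lemma In.norm_le {m n : ℤ} {z : ℂ} (h : In m n z) : ‖pp m n z‖ ≤ 1 := by
  rw [pp, norm_mul, sg_norm, one_mul]; exact Wp_norm_le_one h.sq

lemma In.den {m n : ℤ} {z : ℂ} (h : In m n z) : 1 - 1 / 10 * pp m n z ≠ 0 := by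
  intro h0
  have h1 : pp m n z = 10 := by linear_combination -10 * h0
  have := h.norm_le
  rw [h1] at this
  norm_num at this

lemma In.reg {m n : ℤ} {z : ℂ} (h : In m n z) (hz : ∀ m n, z ≠ 2 * lp m n) (hn : Even n) :
    pp m n z - 1 / 10 ≠ 0 := by
  intro h0
  by_cases hm : Even m
  · have h1 : Wp 0 = Wp (z - lp m n) := by
      rw [Wp_near (by simp)]
      simp only [pp, sg, hm, if_true] at h0
      linear_combination -h0
    have h2 : z - lp m n = 0 := by
      simpa using Wp_inj (a := 0) ⟨by simp, by simp⟩ h.sq h1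
    obtain ⟨a, rfl⟩ := hm
    obtain ⟨b, rfl⟩ := hn
    apply hz a b
    rw [sub_eq_zero.1 h2]
    simp [lp]; ring
  · have h1 := Wp_re_nn h.sq
    simp only [pp, sg, hm, if_false] at h0
    have h2 : Wp (z - lp m n) = -(1 / 10) := by linear_combination -h0
    rw [h2] at h1
    norm_num at h1

lemma MM_an {n : ℤ} {p : ℂ} (h1 : Even n → p - 1 / 10 ≠ 0) (h2 : 1 - 1 / 10 * p ≠ 0) :
    ContDiffAt ℂ ∞ (MM n) p ∧ ∃ d, d ≠ 0 ∧ HasDerivAt (MM n) d p := by
  by_cases hn : Even n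
  · have e : MM n = fun p => 1 / (p - 1 / 10) := by funext p; simp only [MM, hn, if_true]
    rw [e]
    refine ⟨contDiffAt_const.div (by fun_prop) (h1 hn), _, ?_,
      (hasDerivAt_const p 1).div ((hasDerivAt_id p).sub_const _) (h1 hn)⟩
    exact div_ne_zero (by simp) (pow_ne_zero 2 (h1 hn))
  · have e : MM n = fun p => p / (1 - 1 / 10 * p) := by funext p; simp only [MM, hn, if_false]
    rw [e]
    refine ⟨contDiffAt_id.div (by fun_prop) h2, _, ?_,
      (hasDerivAt_id p).div (((hasDerivAt_id p).const_mul _).const_sub 1) h2⟩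
    refine div_ne_zero ?_ (pow_ne_zero 2 h2)
    simp only [id]
    intro h
    exact one_ne_zero (α := ℂ) (by linear_combination h)

lemma pp_cd (m n : ℤ) : ContDiff ℝ ∞ (pp m n) :=
  contDiff_const.mul (Wp_cd.comp (contDiff_id.sub contDiff_const))

lemma QQ_cd {z : ℂ} (hz : ∀ m n, z ≠ 2 * lp m n) : ContDiffAt ℝ ∞ QQ z := by
  have h := in_round z
  have h1 := (MM_an (h.reg hz) h.den).1.restrict_scalars ℝ
  exact (h1.comp z (pp_cd _ _).contDiffAt).congr_of_eventuallyEq h.ev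

lemma lp_notU (m n : ℤ) : lp m n ∉ U := by simp [U]

lemma two_lp (m n : ℤ) : 2 * lp m n = lp (2 * m) (2 * n) := by simp [lp]; ring

lemma U_ne {z : ℂ} (hz : z ∈ U) (m n : ℤ) : z ≠ 2 * lp m n := by
  rintro rfl
  rw [two_lp] at hz
  exact lp_notU _ _ hz

lemma QQ_fd {z : ℂ} (hz : z ∈ U) : Function.Injective (fderiv ℝ QQ z) := by
  have h := in_round z
  generalize round z.re = m at h
  generalize round z.im = n at h
  obtain ⟨d, hd, h1⟩ := (MM_an (h.reg (U_ne hz)) h.den).2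
  have h0 : z - lp m n ≠ 0 := fun h0 => lp_notU m n (sub_eq_zero.1 h0 ▸ hz)
  have h2 : HasFDerivAt (pp m n) (sg m • (fderiv ℝ Wp (z - lp m n)).comp
      (ContinuousLinearMap.id ℝ ℂ)) z :=
    ((Wp_diff _).hasFDerivAt.comp z ((hasFDerivAt_id z).sub_const _)).const_mul _
  have h3 := ((h1.hasFDerivAt.restrictScalars ℝ).comp z h2).congr_of_eventuallyEq h.ev
  rw [h3.fderiv]
  refine (injective_iff_map_eq_zero _).2 fun w hw => ?_
  refine (injective_iff_map_eq_zero _).1 (fd_inj h.sq h0) w ?_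
  simpa [hd, sg_ne] using hw

lemma QQ_add (z : ℂ) (a b : ℤ) : QQ (z + 2 * lp a b) = QQ z := by
  have h := in_round z
  generalize round z.re = m at h
  generalize round z.im = n at h
  have h' : In (m + 2 * a) (n + 2 * b) (z + 2 * lp a b) := by
    simpa [In, two_lp] using h
  have e : z + 2 * lp a b - lp (m + 2 * a) (n + 2 * b) = z - lp m n := by simp [lp]; ring
  rw [h.eq, h'.eq, pp, pp, e, sg_congr (m' := m) (by simp [Int.even_add]),
    MM_congr (m' := n) (by simp [Int.even_add])]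

lemma QQ_neg (z : ℂ) : QQ (-z) = QQ z := by
  have h := in_round z
  generalize round z.re = m at h
  generalize round z.im = n at h
  have h' : In (-m) (-n) (-z) := by
    constructor
    · rw [← abs_neg]; convert h.1 using 2; simp; ring
    · rw [← abs_neg]; convert h.2 using 2; simp; ring
  have e : -z - lp (-m) (-n) = -(z - lp m n) := by simp [lp]; ring
  rw [h.eq, h'.eq, pp, pp, e, Wp_neg, sg_congr (m' := m) even_neg, MM_congr (m' := n) even_neg]

lemma QQ_conj (z : ℂ) : QQ (conj z) = conj (QQ z) := by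
  have h := in_round z
  generalize round z.re = m at h
  generalize round z.im = n at h
  have h' : In m (-n) (conj z) := by
    constructor
    · simpa using h.1
    · rw [← abs_neg]; convert h.2 using 2; simp; ring
  have e : conj z - lp m (-n) = conj (z - lp m n) := by simp [lp]
  have e2 : conj (sg m) = sg m := by by_cases hm : Even m <;> simp [sg, hm]
  rw [h.eq, h'.eq, pp, pp, e, Wp_conj, MM_congr (m' := n) even_neg]
  by_cases hn : Even n <;> simp [MM, hn, e2, map_ofNat]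

lemma inj3 {m n m' n' : ℤ} {z z' : ℂ} (h : In m n z) (h' : In m' n' z')
    (hm : Even m ↔ Even m') (hn : Even n ↔ Even n') (e : pp m n z = pp m' n' z') : Rel z z' := by
  rw [pp, pp, sg_congr hm] at e
  rcases Wp_inj h.sq h'.sq (mul_left_cancel₀ (sg_ne _) e) with h1 | h1
  · obtain ⟨a, ha⟩ : Even (m' - m) := Int.even_sub.2 hm.symm
    obtain ⟨b, hb⟩ : Even (n' - n) := Int.even_sub.2 hn.symm
    refine ⟨a, b, Or.inl ?_⟩
    obtain rfl : m' = m + a + a := by omega
    obtain rfl : n' = n + b + b := by omega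
    simp only [lp] at h1 ⊢
    push_cast at h1
    linear_combination h1
  · obtain ⟨a, ha⟩ : Even (m' + m) := Int.even_add.2 hm.symm
    obtain ⟨b, hb⟩ : Even (n' + n) := Int.even_add.2 hn.symm
    refine ⟨a, b, Or.inr ?_⟩
    obtain rfl : m' = -m + a + a := by omega
    obtain rfl : n' = -n + b + b := by omega
    simp only [lp] at h1 ⊢
    push_cast at h1
    linear_combination h1

lemma half {x : ℝ} {m : ℤ} (h : |x - m| = 1 / 2) :
    ∃ m' : ℤ, |x - m'| ≤ 1 / 2 ∧ (Even m' ↔ ¬Even m) := by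
  rcases (abs_eq (by norm_num)).1 h with h1 | h1
  · exact ⟨m + 1, abs_le.2 ⟨by push_cast; linarith, by push_cast; linarith⟩, Int.even_add_one⟩
  · exact ⟨m - 1, abs_le.2 ⟨by push_cast; linarith, by push_cast; linarith⟩, Int.even_sub_one⟩

lemma inj2 {m n m' n' : ℤ} {z z' : ℂ} (h : In m n z) (h' : In m' n' z')
    (hn : Even n ↔ Even n') (e : pp m n z = pp m' n' z') : Rel z z' := by
  by_cases hm : Even m ↔ Even m'
  · exact inj3 h h' hm hn e
  have e1 : sg m = -sg m' := by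
    rw [← sg_succ]; exact sg_congr (by rw [Int.even_add_one]; tauto)
  have e2 : Wp (z - lp m n) = -Wp (z' - lp m' n') := by
    rw [pp, pp, e1] at e
    apply mul_left_cancel₀ (sg_ne m')
    linear_combination -e
  have e3 := Wp_re_nn h.sq
  have e4 := Wp_re_nn h'.sq
  rw [e2, neg_re] at e3
  have e5 := Wp_re_zero h'.sq (by linarith)
  obtain ⟨k, hk, hk'⟩ := half (x := z'.re) (m := m') (by simpa using e5)
  refine inj3 (m' := k) h ⟨hk, h'.2⟩ (by tauto) hn (e.trans (pp_eq _ ?_ ?_))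
  · exact hk.trans (by norm_num)
  · exact h'.1.trans (by norm_num)

lemma inj1 {m n m' n' : ℤ} {z z' : ℂ} (h : In m n z) (h' : In m' n' z')
    (hn : Even n ↔ Even n') (e : QQ z = QQ z') : Rel z z' := by
  refine inj2 h h' hn ?_
  rw [h.eq, h'.eq, MM_congr hn] at e
  by_cases hn' : Even n'
  · simp only [MM, hn', if_true, one_div, inv_inj] at e
    linear_combination e
  · simp only [MM, hn', if_false] at e
    rw [div_eq_div_iff h.den h'.den] at e
    linear_combination e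

lemma inj0 {m n m' n' : ℤ} {z z' : ℂ} (h : In m n z) (h' : In m' n' z')
    (hz : ∀ m n, z ≠ 2 * lp m n) (hn : Even n) (hn' : ¬Even n') (e : QQ z = QQ z') :
    |z.im - n| = 1 / 2 := by
  rw [h.eq, h'.eq] at e
  simp only [MM, hn, hn', if_true, if_false] at e
  rw [div_eq_div_iff (h.reg hz hn) h'.den] at e
  have e1 : pp m n z * pp m' n' z' = 1 := by linear_combination -e
  have e2 := congrArg norm e1
  rw [norm_mul, norm_one] at e2
  have e3 : 1 ≤ ‖pp m n z‖ := by nlinarith [h'.norm_le, norm_nonneg (pp m n z)]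
  rw [pp, norm_mul, sg_norm, one_mul] at e3
  simpa using Wp_norm_one h.sq e3

lemma QQ_inj {z z' : ℂ} (hz : ∀ m n, z ≠ 2 * lp m n) (hz' : ∀ m n, z' ≠ 2 * lp m n)
    (e : QQ z = QQ z') : Rel z z' := by
  have h := in_round z
  have h' := in_round z'
  generalize round z.re = m at h
  generalize round z.im = n at h
  generalize round z'.re = m' at h'
  generalize round z'.im = n' at h'
  by_cases hn : Even n <;> by_cases hn' : Even n'
  · exact inj1 h h' (by tauto) e
  · obtain ⟨k, hk, hk'⟩ := half (inj0 h h' hz hn hn' e)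
    exact inj1 (n := k) ⟨h.1, hk⟩ h' (by tauto) e
  · obtain ⟨k, hk, hk'⟩ := half (inj0 h' h hz' hn' hn e.symm)
    exact inj1 (n' := k) h ⟨h'.1, hk⟩ (by tauto) e
  · exact inj1 h h' (by tauto) e

lemma QQ_near (m n : ℤ) {z : ℂ} (hz : ‖z‖ < 1 / 8) :
    QQ (lp m n + z) = mu (cls m n) (z ^ 2) := by
  have h : In m n (lp m n + z) := by
    constructor
    · simpa using (abs_re_le_norm z).trans (hz.le.trans (by norm_num))
    · simpa using (abs_im_le_norm z).trans (hz.le.trans (by norm_num))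
  rw [h.eq, pp, add_sub_cancel_left, Wp_near hz]
  generalize z ^ 2 = o
  by_cases hm : Even m <;> by_cases hn : Even n <;>
    simp only [MM, sg, cls, hm, hn, if_true, if_false]
  · change _ = -10 / o
    rw [show 1 * (1 / 10 - 1 / 10 * o) - 1 / 10 = o / (-10) by ring, one_div_div]
  · change _ = (10 - 10 * o) / (99 + o)
    rw [show 1 - 1 / 10 * (1 * (1 / 10 - 1 / 10 * o)) = (99 + o) / 100 by ring,
      show 1 * (1 / 10 - 1 / 10 * o) = (10 - 10 * o) / 100 by ring,
      div_div_div_cancel_right₀ (by norm_num)]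
  · change _ = 10 / (o - 2)
    rw [show -1 * (1 / 10 - 1 / 10 * o) - 1 / 10 = (o - 2) / 10 by ring, one_div_div]
  · change _ = (10 * o - 10) / (101 - o)
    rw [show 1 - 1 / 10 * (-1 * (1 / 10 - 1 / 10 * o)) = (101 - o) / 100 by ring,
      show -1 * (1 / 10 - 1 / 10 * o) = (10 * o - 10) / 100 by ring,
      div_div_div_cancel_right₀ (by norm_num)]

lemma QQ_open {z : ℂ} (hz : ∀ m n, z ≠ 2 * lp m n) : 𝓝 (QQ z) ≤ map QQ (𝓝 z) := by
  by_cases hU : z ∈ U
  · have h1 : HasStrictFDerivAt QQ (fderiv ℝ QQ z) z := (QQ_cd hz).hasStrictFDerivAt (by simp)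
    refine (h1.map_nhds_eq_of_surj ?_).ge
    exact LinearMap.range_eq_top.2 (LinearMap.injective_iff_surjective.1 (QQ_fd hU))
  · simp only [U, mem_ofPred_eq, not_not] at hU
    obtain ⟨⟨m, hm⟩, n, hn⟩ := hU
    have h : In m n z := by simp [In, hm, hn]
    have hz0 : z - lp m n = 0 := by apply Complex.ext <;> simp [hm, hn]
    obtain ⟨h1, d, hd, h2⟩ := MM_an (h.reg hz) h.den
    have h3 := (h1.hasStrictDerivAt' h2 (by simp)).map_nhds_eq hd
    have h4 : IsOpenMap fun y : ℂ => sg m * (1 / 10 - 1 / 10 * (y - lp m n) ^ 2) := by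
      have a1 : IsOpenMap fun y : ℂ => y - lp m n := isOpenMap_sub_right _
      have a2 := (isOpenQuotientMap_pow 2).isOpenMap
      have a3 : IsOpenMap fun o : ℂ => sg m * (1 / 10 - 1 / 10 * o) :=
        isOpenMap_of_hasStrictDerivAt (f' := fun _ => sg m * -(1 / 10 * 1))
          (fun o => (((hasStrictDerivAt_id o).const_mul _).const_sub _).const_mul _)
          fun _ => mul_ne_zero (sg_ne m) (by norm_num)
      exact a3.comp (a2.comp a1)
    have h5 : pp m n =ᶠ[𝓝 z] fun y : ℂ => sg m * (1 / 10 - 1 / 10 * (y - lp m n) ^ 2) := by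
      have : ∀ᶠ y in 𝓝 z, ‖y - lp m n‖ < 1 / 8 :=
        ContinuousAt.eventually_lt (f := fun y : ℂ => ‖y - lp m n‖) (g := fun _ => 1 / 8)
          (by fun_prop) continuousAt_const (by simp [hz0])
      filter_upwards [this] with y hy
      rw [pp, Wp_near hy]
    have h6 : 𝓝 (pp m n z) ≤ map (pp m n) (𝓝 z) := by
      rw [map_congr h5, h5.self_of_nhds]
      exact h4.nhds_le z
    rw [map_congr h.ev, h.eq, ← h3]
    exact map_mono h6

lemma Om_open : IsOpen {z : ℂ | ∀ m n, z ≠ 2 * lp m n} := by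
  rw [isOpen_iff_mem_nhds]
  intro z hz
  have h := in_round z
  generalize round z.re = m at h
  generalize round z.im = n at h
  have h1 : ∀ᶠ y : ℂ in 𝓝 z, |y.re - m| < 1 :=
    ContinuousAt.eventually_lt (f := fun y : ℂ => |y.re - m|) (g := fun _ => 1)
      (by fun_prop) continuousAt_const (h.1.trans_lt (by norm_num))
  have h2 : ∀ᶠ y : ℂ in 𝓝 z, |y.im - n| < 1 :=
    ContinuousAt.eventually_lt (f := fun y : ℂ => |y.im - n|) (g := fun _ => 1)
      (by fun_prop) continuousAt_const (h.2.trans_lt (by norm_num))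
  have h3 : ∀ᶠ y in 𝓝 z, y = lp m n → z = lp m n := by
    by_cases h0 : z = lp m n
    · exact Eventually.of_forall fun _ _ => h0
    · exact (eventually_ne_nhds h0).mono fun y hy h => absurd h hy
  filter_upwards [h1, h2, h3] with y a b c p q hy
  rw [hy, two_lp] at a b c
  simp only [lp_re, lp_im] at a b
  have a' : |2 * p - m| < 1 := by exact_mod_cast a
  have b' : |2 * q - n| < 1 := by exact_mod_cast b
  obtain rfl : m = 2 * p := by have := abs_lt.1 a'; omega
  obtain rfl : n = 2 * q := by have := abs_lt.1 b'; omega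
  exact hz p q ((c rfl).trans (two_lp p q).symm)

lemma reduce {z : ℂ} (hz : ∀ m n, z ≠ 2 * lp m n) :
    ∃ y : ℂ, y ≠ 0 ∧ |y.re| ≤ 1 ∧ |y.im| ≤ 1 ∧ QQ y = QQ z := by
  refine ⟨z + 2 * lp (-round (z.re / 2)) (-round (z.im / 2)), fun h0 => ?_, ?_, ?_, QQ_add _ _ _⟩
  · apply hz (round (z.re / 2)) (round (z.im / 2))
    simp only [lp] at h0 ⊢
    push_cast at h0
    linear_combination h0
  · have := abs_le.1 (abs_sub_round (z.re / 2))
    rw [two_lp, add_re, lp_re]; push_cast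
    exact abs_le.2 ⟨by linarith, by linarith⟩
  · have := abs_le.1 (abs_sub_round (z.im / 2))
    rw [two_lp, add_im, lp_im]; push_cast
    exact abs_le.2 ⟨by linarith, by linarith⟩

lemma off {y : ℂ} (h0 : y ≠ 0) (h1 : |y.re| ≤ 1) (h2 : |y.im| ≤ 1) (m n : ℤ) :
    y ≠ 2 * lp m n := by
  rintro rfl
  rw [two_lp] at h0 h1 h2
  simp only [lp_re, lp_im] at h1 h2
  have a' : |2 * m| ≤ 1 := by exact_mod_cast h1
  have b' : |2 * n| ≤ 1 := by exact_mod_cast h2
  obtain rfl : m = 0 := by have := abs_le.1 a'; omega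
  obtain rfl : n = 0 := by have := abs_le.1 b'; omega
  exact h0 (by simp [lp])

lemma QQ_zero {z : ℂ} (hz : ‖z‖ < 1 / 8) : QQ z = -10 / z ^ 2 := by
  have := QQ_near 0 0 hz
  simpa [lp, cls, mu] using this

lemma QQ_closed : IsClosed (QQ '' {z : ℂ | ∀ m n, z ≠ 2 * lp m n}) := by
  rw [← closure_subset_iff_isClosed]
  intro w hw
  set R := ‖w‖ + 1 with hR
  have hR0 : 1 ≤ R := by linarith [norm_nonneg w]
  set K : Set ℂ := {y | |y.re| ≤ 1 ∧ |y.im| ≤ 1 ∧ 1 / (8 * R) ≤ ‖y‖} with hK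
  have hKo : ∀ y ∈ K, ∀ m n, y ≠ 2 * lp m n := fun y hy =>
    off (norm_pos_iff.1 (lt_of_lt_of_le (by positivity) hy.2.2)) hy.1 hy.2.1
  have hKc : IsCompact K := by
    refine (isCompact_closedBall (0 : ℂ) 2).of_isClosed_subset ?_ fun y hy => ?_
    · have a1 : IsClosed {y : ℂ | |y.re| ≤ 1} := isClosed_le (by fun_prop) continuous_const
      have a2 : IsClosed {y : ℂ | |y.im| ≤ 1} := isClosed_le (by fun_prop) continuous_const
      have a3 : IsClosed {y : ℂ | 1 / (8 * R) ≤ ‖y‖} := isClosed_le continuous_const (by fun_prop)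
      exact a1.inter (a2.inter a3)
    · rw [mem_closedBall_zero_iff]
      linarith [norm_le_abs_re_add_abs_im y, hy.1, hy.2.1]
  have hc : IsClosed (QQ '' K) :=
    (hKc.image_of_continuousOn fun y hy =>
      (QQ_cd (hKo y hy)).continuousAt.continuousWithinAt).isClosed
  have h1 := Metric.isOpen_ball.inter_closure (s := Metric.ball (0 : ℂ) R)
    ⟨mem_ball_zero_iff.2 (by linarith), hw⟩
  refine image_mono (fun y hy => hKo y hy) (hc.closure_subset (closure_mono ?_ h1))
  rintro _ ⟨hb, z, hz, rfl⟩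
  obtain ⟨y, y0, y1, y2, e⟩ := reduce hz
  refine ⟨y, ⟨y1, y2, ?_⟩, e⟩
  by_contra hlt
  push Not at hlt
  have hp : 0 < ‖y‖ := norm_pos_iff.2 y0
  rw [lt_div_iff₀ (by positivity)] at hlt
  have h8 : ‖y‖ < 1 / 8 := by nlinarith
  rw [mem_ball_zero_iff, ← e, QQ_zero h8, norm_div, norm_pow, div_lt_iff₀ (by positivity)] at hb
  have : ‖(-10 : ℂ)‖ = 10 := by simp
  rw [this] at hb
  nlinarith

lemma QQ_surj (w : ℂ) : ∃ z, (∀ m n, z ≠ 2 * lp m n) ∧ QQ z = w := by
  have ho : IsOpen (QQ '' {z : ℂ | ∀ m n, z ≠ 2 * lp m n}) := by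
    rw [isOpen_iff_mem_nhds]
    rintro _ ⟨z, hz, rfl⟩
    exact QQ_open hz (image_mem_map (Om_open.mem_nhds hz))
  have h := IsClopen.eq_univ ⟨QQ_closed, ho⟩ ⟨QQ 1, 1, off one_ne_zero (by simp) (by simp), rfl⟩
  have : w ∈ QQ '' {z : ℂ | ∀ m n, z ≠ 2 * lp m n} := h ▸ mem_univ w
  exact this

end

end BP

theorem exists_cover : ∃ Q : ℂ → ℂ,
    (∀ z, (∀ m n, z ≠ 2 * lp m n) → ContDiffAt ℝ ∞ Q z) ∧
    (∀ z ∈ U, Function.Injective (fderiv ℝ Q z)) ∧
    (∀ z z', (∀ m n, z ≠ 2 * lp m n) → (∀ m n, z' ≠ 2 * lp m n) → (Q z = Q z' ↔ Rel z z')) ∧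
    (∀ w, ∃ z, (∀ m n, z ≠ 2 * lp m n) ∧ Q z = w) ∧ (∀ z, Q (conj z) = conj (Q z)) ∧
    ∀ (m n : ℤ) (z : ℂ), ‖z‖ < 1 / 8 → Q (lp m n + z) = mu (cls m n) (z ^ 2) := by
  refine ⟨BP.QQ, fun _ => BP.QQ_cd, fun _ => BP.QQ_fd, fun z z' hz hz' => ⟨BP.QQ_inj hz hz', ?_⟩,
    BP.QQ_surj, BP.QQ_conj, fun m n _ => BP.QQ_near m n⟩
  rintro ⟨a, b, rfl | rfl⟩
  · rw [BP.QQ_add]
  · rw [BP.QQ_add, BP.QQ_neg]

end Pool.Agent.Lib.MP_0281e9_an
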