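import Mathlib

namespace Pool.Agent.Lib.MP_0281e9_an

open Set Filter MeasureTheory
open scoped ContDiff

/-- `Y` is a compact strictly convex table in the plane `ℂ` whose boundary is the simple closed
smooth curve `γ` of length `L`, parametrised by arclength, counterclockwise, with positive
curvature. -/
structure IsTable (Y : Set ℂ) (γ : ℝ → ℂ) (L : ℝ) : Prop where
  pos : 0 < L
  smooth : ContDiff ℝ ∞ γ
  unit : ∀ x, ‖deriv γ x‖ = 1
  periodic : Function.Periodic γ L
  simple : InjOn γ (Ico 0 L)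
  compact : IsCompact Y
  inner : (interior Y).Nonempty
  boundary : frontier Y = range γ
  strict : StrictConvex ℝ Y
  left : ∀ x, ∀ y ∈ Y, 0 ≤ ((y - γ x) / deriv γ x).im
  curv : ∀ x, 0 < (deriv (deriv γ) x / deriv γ x).im

/-- The phase annulus: arclength position and angle to the positive tangent. -/
def phase (L : ℝ) : Set (ℝ × ℝ) := Ico 0 L ×ˢ Icc 0 Real.pi

/-- The unit vector at `γ x` making the angle `θ` with the positive tangent. -/
noncomputable def dir (γ : ℝ → ℂ) (p : ℝ × ℝ) : ℂ := deriv γ p.1 * Complex.exp (p.2 * Complex.I)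

/-- Orthogonal reflection of `v` in the line spanned by the unit vector `t`. -/
noncomputable def reflect (t v : ℂ) : ℂ := ((2 * (v.re * t.re + v.im * t.im) : ℝ) : ℂ) * t - v

/-- `φ` is the billiard map of the curve `γ` on the phase annulus. -/
structure IsBilliardMap (γ : ℝ → ℂ) (L : ℝ) (φ : ℝ × ℝ → ℝ × ℝ) : Prop where
  maps : MapsTo φ (phase L) (phase L)
  tangent : ∀ p ∈ phase L, p.2 = 0 ∨ p.2 = Real.pi → φ p = p
  chord : ∀ p ∈ phase L, 0 < p.2 → p.2 < Real.pi →
    ∃ t : ℝ, 0 < t ∧ γ (φ p).1 = γ p.1 + t * dir γ p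
  bounce : ∀ p ∈ phase L, 0 < p.2 → p.2 < Real.pi →
    dir γ (φ p) = reflect (deriv γ (φ p).1) (dir γ p)

/-- The normalised Liouville measure `sin θ dx dθ / (2 L)` on the phase annulus. -/
noncomputable def liouville (L : ℝ) : Measure (ℝ × ℝ) :=
  (ENNReal.ofReal (2 * L))⁻¹ •
    (volume.restrict (phase L)).withDensity fun p => ENNReal.ofReal (Real.sin p.2)

/-- Shannon entropy of the join of the partitions `T^{-k} ξ`, `k < n`. -/
noncomputable def blockEntropy {X : Type} [MeasurableSpace X] (μ : Measure X) (T : X → X) {m : ℕ}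
    (ξ : X → Fin m) (n : ℕ) : ℝ :=
  ∑ w : Fin n → Fin m, Real.negMulLog (μ.real {x | ∀ k : Fin n, ξ (T^[k] x) = w k})

/-- Kolmogorov-Sinai entropy: supremum over finite measurable partitions. -/
noncomputable def ksEntropy {X : Type} [MeasurableSpace X] (μ : Measure X) (T : X → X) :
    ENNReal :=
  ⨆ (m : ℕ) (ξ : X → Fin m) (_ : Measurable ξ),
    liminf (fun n : ℕ => ENNReal.ofReal (blockEntropy μ T ξ n / n)) atTop

end Pool.Agent.Lib.MP_0281e9_an
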