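import Pool.Agent.Lib.MP_0281e9_an.Base

namespace Pool.Agent.Lib.MP_0281e9_an

open Set Filter Complex MeasureTheory Topology
open scoped NNReal

namespace BE

lemma isOpen_U : IsOpen U := by
  have : U = (Complex.re ⁻¹' range ((↑) : ℤ → ℝ) ∩ Complex.im ⁻¹' range ((↑) : ℤ → ℝ))ᶜ := by
    ext z
    simp only [U, mem_ofPred_eq, mem_compl_iff, mem_inter_iff, mem_preimage, mem_range, eq_comm]
  rw [this]
  exact ((Int.isClosedEmbedding_coe_real.isClosed_range.preimage continuous_re).inter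
    (Int.isClosedEmbedding_coe_real.isClosed_range.preimage continuous_im)).isOpen_compl

@[simp] lemma lp_re (m n : ℤ) : (2 * lp m n).re = 2 * m := by simp [lp]

@[simp] lemma lp_im (m n : ℤ) : (2 * lp m n).im = 2 * n := by simp [lp]

lemma add_mem_U {z : ℂ} (hz : z ∈ U) (m n : ℤ) : z + 2 * lp m n ∈ U := by
  rintro ⟨⟨a, ha⟩, b, hb⟩
  rw [add_re, lp_re] at ha
  rw [add_im, lp_im] at hb
  exact hz ⟨⟨a - 2 * m, by push_cast; linarith⟩, b - 2 * n, by push_cast; linarith⟩

lemma exists_reduce (z : ℂ) : ∃ m n : ℤ, z + 2 * lp m n ∈ Metric.closedBall (0 : ℂ) 4 := by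
  refine ⟨-⌊z.re / 2⌋, -⌊z.im / 2⌋, ?_⟩
  rw [mem_closedBall_zero_iff]
  refine (norm_le_abs_re_add_abs_im _).trans ?_
  rw [add_re, add_im, lp_re, lp_im]
  push_cast
  have h1 := Int.floor_le (z.re / 2)
  have h2 := Int.lt_floor_add_one (z.re / 2)
  have h3 := Int.floor_le (z.im / 2)
  have h4 := Int.lt_floor_add_one (z.im / 2)
  have a1 : |z.re + 2 * -(⌊z.re / 2⌋ : ℝ)| ≤ 2 := abs_le.2 ⟨by linarith, by linarith⟩
  have a2 : |z.im + 2 * -(⌊z.im / 2⌋ : ℝ)| ≤ 2 := abs_le.2 ⟨by linarith, by linarith⟩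
  linarith

lemma cone {D : ℂ →L[ℝ] ℂ} (hD : ‖D - Amat‖ ≤ 1) {v : ℂ} (h1 : 0 ≤ v.re) (h2 : 0 ≤ v.im) :
    0 ≤ (D v).re ∧ 0 ≤ (D v).im ∧ 11 * (v.re + v.im) ≤ (D v).re + (D v).im ∧
      (D v).re + (D v).im ≤ 31 * (v.re + v.im) := by
  have hn : ‖(D - Amat) v‖ ≤ v.re + v.im := by
    refine ((D - Amat).le_opNorm v).trans ?_
    have := norm_le_abs_re_add_abs_im v
    rw [abs_of_nonneg h1, abs_of_nonneg h2] at this
    calc ‖D - Amat‖ * ‖v‖ ≤ 1 * ‖v‖ := mul_le_mul_of_nonneg_right hD (norm_nonneg _)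
      _ ≤ _ := by linarith
  have a1 := abs_le.1 ((abs_re_le_norm _).trans hn)
  have a2 := abs_le.1 ((abs_im_le_norm _).trans hn)
  simp only [_root_.sub_apply, sub_re, sub_im, Amat, mat_re, mat_im] at a1 a2
  refine ⟨by linarith, by linarith, by linarith, by linarith⟩

section
variable {F : ℂ → ℂ} (hF : MapsTo F U U)
  (hD : ∀ z ∈ U, DifferentiableAt ℝ F z ∧ ‖fderiv ℝ F z - Amat‖ ≤ 1)
include hF hD

lemma curve {z : ℂ} (hz : ∀ u : ℝ, z + u ∈ U) : ∃ v : ℕ → ℝ → ℂ, (∀ u, v 0 u = 1) ∧
    (∀ k u, HasDerivAt (fun u : ℝ => F^[k] (z + u)) (v k u) u) ∧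
    ∀ k u, v (k + 1) u = fderiv ℝ F (F^[k] (z + u)) (v k u) := by
  refine ⟨fun k u => Nat.rec 1 (fun k w => fderiv ℝ F (F^[k] (z + u)) w) k, fun _ => rfl, ?_,
    fun _ _ => rfl⟩
  intro k u
  induction k with
  | zero =>
    simpa using (Complex.ofRealCLM.hasDerivAt (x := u)).const_add z
  | succ k ih =>
    have h := (hD _ (hF.iterate k (hz u))).1.hasFDerivAt.comp_hasDerivAt u ih
    simpa only [Function.iterate_succ_apply', Function.comp_def] using h

lemma expand {z : ℂ} (hz : ∀ u : ℝ, z + u ∈ U) {t : ℝ} (ht : 0 ≤ t) (K : ℕ)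
    (h0 : t ≤ 1 / 100)
    (hK : ∀ k ≤ K, ∃ m n : ℤ, ‖F^[k] (z + t) - F^[k] z - 2 * lp m n‖ ≤ 1 / 100) :
    t * 11 ^ K ≤ 1 := by
  obtain ⟨v, v0, hv, vs⟩ := curve hF hD hz
  have hc : ∀ k u, 0 ≤ (v k u).re ∧ 0 ≤ (v k u).im := by
    intro k u
    induction k with
    | zero => simp [v0]
    | succ k ih =>
      rw [vs]
      have := cone (hD _ (hF.iterate k (hz u))).2 ih.1 ih.2
      exact ⟨this.1, this.2.1⟩
  have hre : ∀ k u, HasDerivAt (fun u : ℝ => (F^[k] (z + u)).re) (v k u).re u := fun k u =>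
    reCLM.hasFDerivAt.comp_hasDerivAt u (hv k u)
  have him : ∀ k u, HasDerivAt (fun u : ℝ => (F^[k] (z + u)).im) (v k u).im u := fun k u =>
    imCLM.hasFDerivAt.comp_hasDerivAt u (hv k u)
  let a : ℕ → ℝ := fun k => (F^[k] (z + t)).re - (F^[k] z).re
  let b : ℕ → ℝ := fun k => (F^[k] (z + t)).im - (F^[k] z).im
  have ha : ∀ k, 0 ≤ a k := fun k => by
    have := monotone_of_hasDerivAt_nonneg (hre k) (fun u => (hc k u).1) ht
    simp only [ofReal_zero, add_zero] at this
    exact sub_nonneg.2 this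
  have hb : ∀ k, 0 ≤ b k := fun k => by
    have := monotone_of_hasDerivAt_nonneg (him k) (fun u => (hc k u).2) ht
    simp only [ofReal_zero, add_zero] at this
    exact sub_nonneg.2 this
  have lo : ∀ k, 11 * (a k + b k) ≤ a (k + 1) + b (k + 1) := fun k => by
    have := monotone_of_hasDerivAt_nonneg
      (fun u => ((hre (k + 1) u).add (him (k + 1) u)).sub
        (((hre k u).add (him k u)).const_mul 11))
      (fun u => by
        have := cone (hD _ (hF.iterate k (hz u))).2 (hc k u).1 (hc k u).2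
        rw [← vs] at this
        exact sub_nonneg.2 this.2.2.1) ht
    simp only [Pi.sub_apply, Pi.add_apply, ofReal_zero, add_zero] at this
    simp only [a, b]
    linarith
  have hi : ∀ k, a (k + 1) + b (k + 1) ≤ 31 * (a k + b k) := fun k => by
    have := monotone_of_hasDerivAt_nonneg
      (fun u => (((hre k u).add (him k u)).const_mul 31).sub
        ((hre (k + 1) u).add (him (k + 1) u)))
      (fun u => by
        have := cone (hD _ (hF.iterate k (hz u))).2 (hc k u).1 (hc k u).2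
        rw [← vs] at this
        exact sub_nonneg.2 this.2.2.2) ht
    simp only [Pi.sub_apply, Pi.add_apply, ofReal_zero, add_zero] at this
    simp only [a, b]
    linarith
  have e0 : a 0 + b 0 = t := by simp [a, b]
  have small : ∀ (x : ℝ) (m : ℤ), 0 ≤ x → x ≤ 62 / 100 → |x - 2 * m| ≤ 1 / 100 → x ≤ 1 / 100 := by
    intro x m h1 h2 h3
    obtain ⟨h4, h5⟩ := abs_le.1 h3
    have k1 : (m : ℝ) < 1 := by linarith
    have k2 : (-1 : ℝ) < m := by linarith
    have k3 : m < 1 := by exact_mod_cast k1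
    have k4 : -1 < m := by exact_mod_cast k2
    obtain rfl : m = 0 := by omega
    simpa using h5
  have key : ∀ k ≤ K, a k + b k ≤ 2 / 100 ∧ t * 11 ^ k ≤ a k + b k := by
    intro k hk
    induction k with
    | zero => rw [e0]; constructor <;> linarith
    | succ k ih =>
      obtain ⟨i1, i2⟩ := ih (by omega)
      obtain ⟨m, n, h⟩ := hK (k + 1) hk
      have r1 := (abs_re_le_norm _).trans h
      have r2 := (abs_im_le_norm _).trans h
      rw [sub_re, sub_re, lp_re] at r1
      rw [sub_im, sub_im, lp_im] at r2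
      have s1 := small (a (k + 1)) m (ha _) (by linarith [hi k, hb (k + 1)]) r1
      have s2 := small (b (k + 1)) n (hb _) (by linarith [hi k, ha (k + 1)]) r2
      refine ⟨by linarith, ?_⟩
      have := lo k
      rw [pow_succ]
      linarith
  obtain ⟨k1, k2⟩ := key K le_rfl
  linarith

end

lemma vol_le {S : Set ℂ} (hS : MeasurableSet S) (q : ℂ) {D : ℝ}
    (hq : S ⊆ Metric.closedBall q (1 / 2))
    (h : ∀ z ∈ S, ∀ z' ∈ S, z.im = z'.im → (∀ n : ℤ, z.im ≠ n) → z.re ≤ z'.re →
      z'.re - z.re ≤ D) : volume S ≤ ENNReal.ofReal D := by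
  have hp := volume_preserving_equiv_real_prod.symm
  have hm : MeasurableSet (measurableEquivRealProd.symm ⁻¹' S) :=
    measurableEquivRealProd.symm.measurable hS
  rw [← hp.measure_preimage hS.nullMeasurableSet, Measure.volume_eq_prod,
    Measure.prod_apply_symm hm]
  have hae : ∀ᵐ y : ℝ, y ∉ range ((↑) : ℤ → ℝ) :=
    (countable_range _).ae_notMem _
  calc _ ≤ ∫⁻ y : ℝ, (Icc (q.im - 1 / 2) (q.im + 1 / 2)).indicator
        (fun _ => ENNReal.ofReal D) y := by
        refine lintegral_mono_ae (hae.mono fun y hy => ?_)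
        by_cases hI : y ∈ Icc (q.im - 1 / 2) (q.im + 1 / 2)
        · rw [indicator_of_mem hI]
          refine (Real.volume_le_diam _).trans (Metric.ediam_le fun x hx x' hx' => ?_)
          have hy' : ∀ n : ℤ, y ≠ n := fun n e => hy ⟨n, e.symm⟩
          rw [edist_dist, Real.dist_eq]
          apply ENNReal.ofReal_le_ofReal
          rcases le_total x x' with hle | hle
          · have := h _ hx _ hx' rfl hy' hle
            rw [abs_sub_comm, abs_of_nonneg (sub_nonneg.2 hle)]
            exact this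
          · have := h _ hx' _ hx rfl hy' hle
            rw [abs_of_nonneg (sub_nonneg.2 hle)]
            exact this
        · have : (fun x : ℝ => (x, y)) ⁻¹' (measurableEquivRealProd.symm ⁻¹' S) = ∅ := by
            refine eq_empty_of_forall_notMem fun x hx => hI ?_
            have h1 := hq hx
            rw [Metric.mem_closedBall, dist_eq_norm] at h1
            have h2 := abs_le.1 ((abs_im_le_norm _).trans h1)
            rw [sub_im] at h2
            have h3 : (measurableEquivRealProd.symm (x, y)).im = y := rfl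
            rw [h3] at h2
            exact ⟨by linarith [h2.1], by linarith [h2.2]⟩
          rw [this, measure_empty]
          exact bot_le
    _ = ENNReal.ofReal D := by
        rw [lintegral_indicator_const measurableSet_Icc, Real.volume_Icc]
        norm_num

lemma meas_pre {f : ℂ → ℂ} (hf : ContinuousOn f U) {T : Set ℂ} (hT : IsClosed T) :
    MeasurableSet (U ∩ f ⁻¹' T) := by
  have h := hf.isOpen_inter_preimage isOpen_U hT.isOpen_compl
  have : U ∩ f ⁻¹' T = U \ (U ∩ f ⁻¹' Tᶜ) := by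
    ext z
    simp only [mem_inter_iff, mem_preimage, Set.mem_sdiff, mem_compl_iff]
    tauto
  rw [this]
  exact isOpen_U.measurableSet.diff h.measurableSet

lemma meas_image {X : Type} [MeasurableSpace X] [TopologicalSpace X] [T2Space X]
    [OpensMeasurableSpace X] {P : ℂ → X} (hP : ContinuousOn P U) {Q : Set ℂ} (hQ : IsCompact Q) :
    MeasurableSet (P '' (Q ∩ U)) := by
  obtain ⟨G, h1, h2, h3, -⟩ := isOpen_U.exists_iUnion_isClosed
  have : Q ∩ U = ⋃ n, Q ∩ G n := by rw [← inter_iUnion, h3]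
  rw [this, image_iUnion]
  exact MeasurableSet.iUnion fun n =>
    ((hQ.inter_right (h1 n)).image_of_continuousOn
      (hP.mono (inter_subset_right.trans (h2 n)))).measurableSet

lemma exists_label {X : Type} [MeasurableSpace X] {N : ℕ} (B : Fin (N + 1) → Set X)
    (hB : ∀ c, MeasurableSet (B c)) (hc : ∀ x, ∃ c, x ∈ B c) :
    ∃ ξ : X → Fin (N + 1), Measurable ξ ∧ ∀ x, x ∈ B (ξ x) := by
  classical
  have h : ∀ x, ∃ n : ℕ, x ∈ B (Fin.ofNat (N + 1) n) := by
    intro x
    obtain ⟨c, hc⟩ := hc x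
    exact ⟨c, by simpa using hc⟩
  exact ⟨fun x => Fin.ofNat (N + 1) (Nat.find (h x)),
    (measurable_of_countable (Fin.ofNat (N + 1))).comp (measurable_find h fun k => hB _),
    fun x => Nat.find_spec (h x)⟩

lemma block_ge {X W : Type} [MeasurableSpace X] [Fintype W] (μ : Measure X)
    [IsProbabilityMeasure μ] (A : W → Set X) (G : Set X) (good : W → Prop)
    (hG : ∀ x ∈ G, ∃ w, good w ∧ x ∈ A w) {β : ℝ} (hβ : ∀ w, good w → μ.real (A w) ≤ β)
    (h1 : 0 ≤ -Real.log β) :
    μ.real G * -Real.log β ≤ ∑ w, Real.negMulLog (μ.real (A w)) := by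
  classical
  have k1 : μ.real G ≤ ∑ w ∈ Finset.univ.filter good, μ.real (A w) := by
    refine le_trans (measureReal_mono ?_ (measure_ne_top _ _)) (measureReal_biUnion_finset_le _ _)
    intro x hx
    obtain ⟨w, hw, hx⟩ := hG x hx
    simp only [mem_iUnion]
    exact ⟨w, by simpa using hw, hx⟩
  calc μ.real G * -Real.log β ≤ (∑ w ∈ Finset.univ.filter good, μ.real (A w)) * -Real.log β :=
        mul_le_mul_of_nonneg_right k1 h1
    _ = ∑ w ∈ Finset.univ.filter good, μ.real (A w) * -Real.log β := Finset.sum_mul _ _ _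
    _ ≤ ∑ w ∈ Finset.univ.filter good, Real.negMulLog (μ.real (A w)) := by
        refine Finset.sum_le_sum fun w hw => ?_
        have hw' : good w := by simpa using hw
        rcases (measureReal_nonneg (μ := μ) (s := A w)).eq_or_lt with h0 | h0
        · rw [← h0]; simp
        · rw [Real.negMulLog, neg_mul, ← mul_neg]
          exact mul_le_mul_of_nonneg_left (neg_le_neg (Real.log_le_log h0 (hβ w hw'))) h0.le
    _ ≤ _ := Finset.sum_le_sum_of_subset_of_nonneg (Finset.filter_subset _ _) fun w _ _ =>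
        Real.negMulLog_nonneg measureReal_nonneg measureReal_le_one

end BE

end Pool.Agent.Lib.MP_0281e9_an
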