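import Pool.Agent.Lib.MP_0281e9_an.EntA

namespace Pool.Agent.Lib.MP_0281e9_an

open Set Filter Complex MeasureTheory Topology
open scoped NNReal

namespace BE

/-- translates of a signed cell -/
def TT (q : ℂ) (s : Bool) : Set ℂ :=
  ⋃ p : ℤ × ℤ, Metric.closedBall ((if s then q else -q) + 2 * lp p.1 p.2) (1 / 200)

lemma TT_near {q z z' : ℂ} {s : Bool} (hz : z ∈ TT q s) (hz' : z' ∈ TT q s) :
    ∃ m n : ℤ, ‖z' - z - 2 * lp m n‖ ≤ 1 / 100 := by
  obtain ⟨p, hp⟩ := mem_iUnion.1 hz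
  obtain ⟨p', hp'⟩ := mem_iUnion.1 hz'
  rw [Metric.mem_closedBall, dist_eq_norm] at hp hp'
  refine ⟨p'.1 - p.1, p'.2 - p.2, ?_⟩
  have : z' - z - 2 * lp (p'.1 - p.1) (p'.2 - p.2) =
      (z' - ((if s then q else -q) + 2 * lp p'.1 p'.2)) -
        (z - ((if s then q else -q) + 2 * lp p.1 p.2)) := by
    simp only [lp]
    push_cast
    ring
  rw [this]
  exact (norm_sub_le _ _).trans (by linarith)

lemma TT_of_rel {q y z : ℂ} (hy : y ∈ Metric.closedBall q (1 / 200)) (h : Rel y z) :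
    ∃ s, z ∈ TT q s := by
  rw [Metric.mem_closedBall, dist_eq_norm] at hy
  obtain ⟨m, n, rfl | rfl⟩ := h
  · refine ⟨true, mem_iUnion.2 ⟨(m, n), ?_⟩⟩
    rw [Metric.mem_closedBall, dist_eq_norm]
    simpa using hy
  · refine ⟨false, mem_iUnion.2 ⟨(m, n), ?_⟩⟩
    rw [Metric.mem_closedBall, dist_eq_norm, norm_sub_rev] at *
    have : (if false = true then q else -q) + 2 * lp m n - (-y + 2 * lp m n) = -(q - y) := by
      simp; ring
    rw [this, norm_neg]
    exact hy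

def SS (F : ℂ → ℂ) (q0 : ℂ) {K : ℕ} (q : Fin (K + 1) → ℂ) (s : Fin (K + 1) → Bool) : Set ℂ :=
  Metric.closedBall q0 (1 / 200) ∩ ⋂ k : Fin (K + 1), (U ∩ F^[k] ⁻¹' TT (q k) (s k))

lemma SS_sub (F : ℂ → ℂ) (q0 : ℂ) {K : ℕ} (q : Fin (K + 1) → ℂ) (s : Fin (K + 1) → Bool) :
    SS F q0 q s ⊆ U := fun _ hz => (mem_iInter.1 hz.2 0).1

section
variable {F : ℂ → ℂ} (hF : MapsTo F U U)
  (hD : ∀ z ∈ U, DifferentiableAt ℝ F z ∧ ‖fderiv ℝ F z - Amat‖ ≤ 1)
include hF hD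

lemma SS_meas (q0 : ℂ) {K : ℕ} (q : Fin (K + 1) → ℂ) (s : Fin (K + 1) → Bool) :
    MeasurableSet (SS F q0 q s) := by
  have hc : ContinuousOn F U := fun z hz => (hD z hz).1.continuousAt.continuousWithinAt
  refine Metric.isClosed_closedBall.measurableSet.inter (MeasurableSet.iInter fun k => ?_)
  rw [TT, preimage_iUnion, inter_iUnion]
  exact MeasurableSet.iUnion fun p => meas_pre (hc.iterate hF k) Metric.isClosed_closedBall

lemma SS_vol (q0 : ℂ) {K : ℕ} (q : Fin (K + 1) → ℂ) (s : Fin (K + 1) → Bool) :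
    volume (SS F q0 q s) ≤ ENNReal.ofReal (1 / 11 ^ K) := by
  refine vol_le (SS_meas hF hD q0 q s) q0
    (inter_subset_left.trans (Metric.closedBall_subset_closedBall (by norm_num))) ?_
  intro z hz z' hz' him hn hle
  have e : z' = z + ((z'.re - z.re : ℝ) : ℂ) := by
    apply Complex.ext <;> simp [him]
  have hU : ∀ u : ℝ, z + u ∈ U := by
    rintro u ⟨-, n, h⟩
    exact hn n (by simpa using h)
  rw [le_div_iff₀ (by positivity)]
  refine expand hF hD hU (sub_nonneg.2 hle) K ?_ fun k hk => ?_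
  · have h1 := hz.1
    have h2 := hz'.1
    rw [Metric.mem_closedBall] at h1 h2
    have h3 : dist z' z ≤ 1 / 100 := (dist_triangle_right _ _ q0).trans (by linarith)
    rw [dist_eq_norm] at h3
    have h4 := (re_le_norm _).trans h3
    rwa [sub_re] at h4
  · rw [← e]
    exact TT_near (mem_iInter.1 hz.2 ⟨k, by omega⟩).2 (mem_iInter.1 hz'.2 ⟨k, by omega⟩).2

end

lemma growth {M : ℕ} (hM : 0 < M) {c : ℝ} (hc : 0 < c) :
    ∃ a : ℝ, 0 < a ∧ ∀ᶠ n : ℕ in atTop, a * n ≤ -Real.log (c * (2 / 11) ^ ((n - 1) / M)) := by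
  have hL : 0 < -Real.log (2 / 11) := neg_pos.2 (Real.log_neg (by norm_num) (by norm_num))
  set L := -Real.log (2 / 11) with hLd
  have hM' : (0 : ℝ) < M := by exact_mod_cast hM
  obtain ⟨K0, hK0⟩ := exists_nat_ge ((L + 2 * Real.log c) / L)
  refine ⟨L / (2 * M), by positivity, eventually_atTop.2 ⟨M * K0 + 1, fun n hn => ?_⟩⟩
  have h1 : K0 ≤ (n - 1) / M := (Nat.le_div_iff_mul_le hM).2 (by rw [mul_comm]; omega)
  have h2 : n ≤ M * ((n - 1) / M + 1) := by
    have := Nat.lt_mul_div_succ (n - 1) hM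
    omega
  generalize (n - 1) / M = K at h1 h2
  rw [Real.log_mul hc.ne' (by positivity), Real.log_pow]
  have h3 : (K0 : ℝ) ≤ K := by exact_mod_cast h1
  have h4 : (n : ℝ) ≤ M * (K + 1) := by exact_mod_cast h2
  have h5 : L + 2 * Real.log c ≤ K * L := by
    rw [div_le_iff₀ hL] at hK0
    nlinarith
  have h6 : L / (2 * M) * n ≤ L / (2 * M) * (M * (K + 1)) :=
    mul_le_mul_of_nonneg_left h4 (by positivity)
  have h7 : L / (2 * M) * (M * (K + 1)) = L * (K + 1) / 2 := by field_simp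
  have h8 : Real.log (2 / 11) = -L := by rw [hLd, neg_neg]
  rw [h8]
  nlinarith

end BE

open BE in
/-- BLOCK E -/
theorem entropy_pos {X : Type} [MeasurableSpace X] [TopologicalSpace X] [T2Space X]
    [OpensMeasurableSpace X] (μ : Measure X) [IsProbabilityMeasure μ] (φ : X → X)
    (hφ : Measurable φ) (M : ℕ) (hM : 0 < M) (P : ℂ → X) (F : ℂ → ℂ) (hP : ContinuousOn P U)
    (hinj : ∀ z ∈ U, ∀ z' ∈ U, P z = P z' → Rel z z')
    (hper : ∀ z ∈ U, ∀ m n : ℤ, P (z + 2 * lp m n) = P z) (hF : MapsTo F U U)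
    (hsemi : ∀ z ∈ U, φ^[M] (P z) = P (F z))
    (hD : ∀ z ∈ U, DifferentiableAt ℝ F z ∧ ‖fderiv ℝ F z - Amat‖ ≤ 1) (C : ℝ≥0)
    (hC : ∀ S ⊆ U, MeasurableSet S → μ (P '' S) ≤ C * volume S) (hpos : 0 < μ (P '' U)) :
    0 < ksEntropy μ φ := by
  classical
  obtain ⟨t, -, htf, htc⟩ := finite_cover_balls_of_compact (isCompact_closedBall (0 : ℂ) 4)
    (show (0 : ℝ) < 1 / 200 by norm_num)
  obtain ⟨N, q0, -, hq0⟩ := htf.fin_param
  let q : Fin (N + 1) → ℂ := Fin.cons 0 q0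
  let B0 : ℂ → Set X := fun p => P '' (Metric.closedBall p (1 / 200) ∩ U)
  have hB0 : ∀ p, MeasurableSet (B0 p) := fun p => meas_image hP (isCompact_closedBall _ _)
  have hG : P '' U = ⋃ c, B0 (q0 c) := by
    refine Subset.antisymm ?_ (iUnion_subset fun c => image_mono inter_subset_right)
    rintro _ ⟨z, hz, rfl⟩
    obtain ⟨m, n, h⟩ := exists_reduce z
    obtain ⟨p, hp, h'⟩ := mem_iUnion₂.1 (htc h)
    rw [← hq0] at hp
    obtain ⟨c, rfl⟩ := hp
    exact mem_iUnion.2 ⟨c, _, ⟨Metric.ball_subset_closedBall h', add_mem_U hz m n⟩, hper z hz m n⟩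
  have hGm : MeasurableSet (P '' U) := hG ▸ MeasurableSet.iUnion fun c => hB0 _
  let B : Fin (N + 1) → Set X := Fin.cons (P '' U)ᶜ fun c => B0 (q0 c)
  obtain ⟨ξ, hξ, hξB⟩ := exists_label B
    (fun c => Fin.cases hGm.compl (fun c => hB0 _) c) (fun x => by
      by_cases hx : x ∈ P '' U
      · rw [hG] at hx
        obtain ⟨c, hc⟩ := mem_iUnion.1 hx
        exact ⟨c.succ, hc⟩
      · exact ⟨0, hx⟩)
  have hne : ∀ x ∈ P '' U, ξ x ≠ 0 := by
    intro x hx h
    have := hξB x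
    rw [h] at this
    exact this hx
  have hcell : ∀ x, ξ x ≠ 0 → x ∈ B0 (q (ξ x)) := by
    intro x hx
    have := hξB x
    obtain ⟨c, hc⟩ := Fin.exists_succ_eq.2 hx
    rw [← hc] at this ⊢
    exact this
  have hit : ∀ k, ∀ z ∈ U, φ^[M * k] (P z) = P (F^[k] z) := by
    intro k z hz
    induction k with
    | zero => rfl
    | succ k ih =>
      rw [mul_add, mul_one, add_comm, Function.iterate_add_apply, ih,
        hsemi _ (hF.iterate k hz), Function.iterate_succ_apply']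
  have hg : 0 < μ.real (P '' U) := ENNReal.toReal_pos hpos.ne' (measure_ne_top _ _)
  obtain ⟨a, ha, hev⟩ := growth hM (c := 2 * C + 1) (by positivity)
  have main : ∀ᶠ n : ℕ in atTop,
      ENNReal.ofReal (μ.real (P '' U) * a) ≤ ENNReal.ofReal (blockEntropy μ φ ξ n / n) := by
    filter_upwards [hev, eventually_gt_atTop 0] with n hn hn0
    apply ENNReal.ofReal_le_ofReal
    have hn' : (0 : ℝ) < n := by exact_mod_cast hn0
    rw [le_div_iff₀ hn', mul_assoc]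
    refine (mul_le_mul_of_nonneg_left hn hg.le).trans ?_
    set K := (n - 1) / M with hK
    have hlt : ∀ k : Fin (K + 1), M * k < n := by
      intro k
      have h1 : M * k ≤ M * K := Nat.mul_le_mul_left _ (Nat.lt_succ_iff.1 k.2)
      have h2 : M * K ≤ n - 1 := Nat.mul_div_le _ _
      omega
    refine block_ge μ (fun w : Fin n → Fin (N + 1) => {x | ∀ k : Fin n, ξ (φ^[k] x) = w k}) _
      (fun w => w ⟨0, hn0⟩ ≠ 0) (fun x hx => ⟨fun k => ξ (φ^[k] x), hne x hx, fun _ => rfl⟩)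
      (fun w hw => ?_) ((by positivity : (0 : ℝ) ≤ a * n).trans hn)
    have hsub : {x | ∀ k : Fin n, ξ (φ^[k] x) = w k} ⊆ ⋃ s : Fin (K + 1) → Bool,
        P '' SS F (q (w ⟨0, hn0⟩)) (fun k => q (w ⟨M * k, hlt k⟩)) s := by
      intro x hx
      have h0 : ξ x = w ⟨0, hn0⟩ := hx ⟨0, hn0⟩
      obtain ⟨z, ⟨hz1, hz⟩, rfl⟩ := hcell x (h0 ▸ hw)
      have h1 : ∀ k : Fin (K + 1), ∃ s, F^[k] z ∈ TT (q (w ⟨M * k, hlt k⟩)) s := by
        intro k
        have h2 : ξ (φ^[M * k] (P z)) = w ⟨M * k, hlt k⟩ := hx ⟨M * k, hlt k⟩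
        rw [hit k z hz] at h2
        obtain ⟨y, ⟨hy1, hy⟩, e⟩ := hcell _ (hne _ ⟨_, hF.iterate k hz, rfl⟩)
        rw [h2] at hy1
        exact TT_of_rel hy1 (hinj y hy _ (hF.iterate k hz) e)
      choose s hs using h1
      exact mem_iUnion.2 ⟨s, z, ⟨h0 ▸ hz1, mem_iInter.2 fun k => ⟨hz, hs k⟩⟩, rfl⟩
    refine (measureReal_mono hsub (measure_ne_top _ _)).trans
      ((measureReal_iUnion_fintype_le _).trans ?_)
    have hone : ∀ s : Fin (K + 1) → Bool,
        μ.real (P '' SS F (q (w ⟨0, hn0⟩)) (fun k => q (w ⟨M * k, hlt k⟩)) s) ≤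
          C * (1 / 11 ^ K) := by
      intro s
      have h1 := (hC _ (SS_sub F _ _ s) (SS_meas hF hD _ _ s)).trans
        (mul_le_mul_right (SS_vol hF hD (q (w ⟨0, hn0⟩)) (fun k => q (w ⟨M * k, hlt k⟩)) s) _)
      refine ENNReal.toReal_le_of_le_ofReal (by positivity) (h1.trans_eq ?_)
      rw [ENNReal.ofReal_mul (NNReal.coe_nonneg C), ENNReal.ofReal_coe_nnreal]
    refine (Finset.sum_le_sum fun s _ => hone s).trans ?_
    rw [Finset.sum_const, Finset.card_univ, Fintype.card_fun, Fintype.card_bool, Fintype.card_fin,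
      nsmul_eq_mul, div_pow]
    push_cast
    have h1 : (2 : ℝ) ^ (K + 1) * (C * (1 / 11 ^ K)) = 2 * C * (2 ^ K / 11 ^ K) := by ring
    rw [h1]
    exact mul_le_mul_of_nonneg_right (by linarith) (by positivity)
  refine lt_of_lt_of_le (ENNReal.ofReal_pos.2 (mul_pos hg ha)) ?_
  refine le_trans (le_liminf_of_le (by isBoundedDefault) main) ?_
  exact le_iSup_of_le (N + 1) (le_iSup_of_le ξ (le_iSup_of_le hξ le_rfl))

end Pool.Agent.Lib.MP_0281e9_an
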