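import Pool.Agent.Lib.MP_0281e9_an.Base

namespace Pool.Agent.Lib.MP_0281e9_an

open Set Filter Complex Topology
open scoped ContDiff

namespace BX

noncomputable section

theorem smooth_inverse (e : ℂ → ℂ) (he : ContDiff ℝ ∞ e) (hb : Function.Bijective e)
    (hd : ∀ z, Function.Injective (fderiv ℝ e z)) : ContDiff ℝ ∞ (Function.invFun e) := by
  rw [contDiff_iff_contDiffAt]
  intro w
  obtain ⟨z, rfl⟩ := hb.2 w
  let f' : ℂ ≃L[ℝ] ℂ :=
    (LinearEquiv.ofInjectiveEndo (fderiv ℝ e z).toLinearMap (hd z)).toContinuousLinearEquiv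
  have hf' : (f' : ℂ →L[ℝ] ℂ) = fderiv ℝ e z := by
    apply ContinuousLinearMap.ext
    intro v
    rfl
  have hz : ContDiffAt ℝ ∞ e z := he.contDiffAt
  have hder : HasFDerivAt e (f' : ℂ →L[ℝ] ℂ) z := by
    rw [hf']
    exact (hz.differentiableAt (by simp)).hasFDerivAt
  have h1 := hz.to_localInverse hder (by simp)
  refine h1.congr_of_eventuallyEq ?_
  have h2 := (hz.hasStrictFDerivAt' hder (by simp)).eventually_right_inverse
  filter_upwards [h2] with y hy
  apply hb.1
  rw [Function.invFun_eq (hb.2 y)]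
  exact hy.symm

theorem contDiff_normSq : ContDiff ℝ ∞ (fun z : ℂ => normSq z) := by
  have h1 : ContDiff ℝ ∞ (fun z : ℂ => z.re) := reCLM.contDiff
  have h2 : ContDiff ℝ ∞ (fun z : ℂ => z.im) := imCLM.contDiff
  simp only [normSq_apply]
  exact (h1.mul h1).add (h2.mul h2)

theorem normSq_smul (c : ℝ) (z : ℂ) : normSq (c • z) = c ^ 2 * normSq z := by
  simp [normSq_apply]; ring

theorem smul_eq_of_normSq {a b : ℝ} (ha : 0 ≤ a) (hb : 0 ≤ b) {u : ℂ}
    (h : normSq (a • u) = normSq (b • u)) : a • u = b • u := by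
  by_cases hu : u = 0
  · simp [hu]
  · rw [normSq_smul, normSq_smul] at h
    have hp : 0 < normSq u := normSq_pos.2 hu
    have h2 : a ^ 2 = b ^ 2 := mul_right_cancel₀ hp.ne' h
    rw [(sq_eq_sq₀ ha hb).1 h2]

theorem del_pos : 0 < del := by unfold del; norm_num

/-! the cut-off function -/

theorem st_deriv_bound : ∃ B : ℝ, 0 < B ∧ ∀ x, 0 ≤ deriv Real.smoothTransition x ∧
    deriv Real.smoothTransition x ≤ B := by
  have hc : Continuous (deriv Real.smoothTransition) :=
    (Real.smoothTransition.contDiff (n := 1)).continuous_deriv (by simp)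
  obtain ⟨B, hB⟩ := (isCompact_Icc (a := (-1 : ℝ)) (b := 2)).exists_bound_of_continuousOn
    hc.continuousOn
  refine ⟨max B 1, lt_of_lt_of_le one_pos (le_max_right _ _), fun x => ⟨?_, ?_⟩⟩
  · exact Real.smoothTransition.monotone.deriv_nonneg
  · by_cases h1 : x < -1
    · have : Real.smoothTransition =ᶠ[𝓝 x] fun _ => 0 := by
        filter_upwards [Iio_mem_nhds h1] with y hy
        exact Real.smoothTransition.zero_of_nonpos (by linarith [mem_Iio.1 hy])
      rw [this.deriv_eq]; simp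
    · by_cases h2 : 2 < x
      · have : Real.smoothTransition =ᶠ[𝓝 x] fun _ => 1 := by
          filter_upwards [Ioi_mem_nhds h2] with y hy
          exact Real.smoothTransition.one_of_one_le (by linarith [mem_Ioi.1 hy])
        rw [this.deriv_eq]; simp
      · have := hB x ⟨by linarith, by linarith⟩
        exact le_trans (le_trans (le_abs_self _) this) (le_max_left _ _)

theorem exists_psi (a : ℝ) (ha : 0 < a) : ∃ ψ : ℝ → ℝ, ContDiff ℝ ∞ ψ ∧ (∀ s, s ≤ -a → ψ s = 0) ∧
    (∀ s, 0 ≤ s → ψ s = s) ∧ ∀ s, -1 / 34 ≤ deriv ψ s ∧ deriv ψ s ≤ 1 := by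
  obtain ⟨B, hB0, hB⟩ := st_deriv_bound
  set K : ℝ := 34 * B with hK
  have hK0 : 0 < K := by positivity
  let ψ0 : ℝ → ℝ := fun s => s * Real.smoothTransition (-Real.log (-s / a) / K)
  let ψ : ℝ → ℝ := fun s => if s < 0 then ψ0 s else s
  have hneg : ∀ s, s < 0 → ψ =ᶠ[𝓝 s] ψ0 := by
    intro s hs
    filter_upwards [Iio_mem_nhds hs] with y hy
    simp only [ψ, if_pos (mem_Iio.1 hy)]
  have hpos : ∀ s, 0 ≤ s → ψ =ᶠ[𝓝 s] fun y => y := by
    intro s hs
    have h0 : -(a * Real.exp (-K)) < s := by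
      have : 0 < a * Real.exp (-K) := by positivity
      linarith
    filter_upwards [Ioi_mem_nhds h0] with y hy
    by_cases hy0 : y < 0
    · simp only [ψ, if_pos hy0, ψ0]
      rw [Real.smoothTransition.one_of_one_le, mul_one]
      rw [le_div_iff₀ hK0, one_mul, le_neg]
      rw [Real.log_le_iff_le_exp (div_pos (by linarith) ha), div_le_iff₀ ha]
      have := mem_Ioi.1 hy
      linarith
    · simp only [ψ, if_neg hy0]
  have hin : ∀ s, s < 0 → HasDerivAt (fun y => -Real.log (-y / a) / K) (-(1 / s) / K) s := by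
    intro s hs
    have h1 : HasDerivAt (fun y : ℝ => -y / a) (-1 / a) s :=
      ((hasDerivAt_id s).neg).div_const a
    have h2 := (h1.log (div_pos (by linarith) ha).ne').neg.div_const K
    have hs' : s ≠ 0 := hs.ne
    have h3 : -(1 / s) / K = -(-1 / a / (-s / a)) / K := by field_simp
    rw [h3]
    exact h2
  refine ⟨ψ, ?_, ?_, ?_, ?_⟩
  · rw [contDiff_iff_contDiffAt]
    intro s
    by_cases hs : s < 0
    · refine ContDiffAt.congr_of_eventuallyEq ?_ (hneg s hs)
      refine contDiffAt_id.mul (Real.smoothTransition.contDiffAt.comp s ?_)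
      refine ContDiffAt.div_const (ContDiffAt.neg (ContDiffAt.log ?_ ?_)) K
      · exact (contDiffAt_id.neg).div_const a
      · exact (div_pos (by linarith) ha).ne'
    · exact ContDiffAt.congr_of_eventuallyEq contDiffAt_id (hpos s (not_lt.1 hs))
  · intro s hs
    have hs0 : s < 0 := by linarith
    simp only [ψ, if_pos hs0, ψ0]
    rw [Real.smoothTransition.zero_of_nonpos, mul_zero]
    apply div_nonpos_of_nonpos_of_nonneg _ hK0.le
    rw [neg_nonpos]
    apply Real.log_nonneg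
    rw [le_div_iff₀ ha]; linarith
  · intro s hs
    simp only [ψ, if_neg (not_lt.2 hs)]
  · intro s
    by_cases hs : s < 0
    · rw [(hneg s hs).deriv_eq]
      have hst : HasDerivAt Real.smoothTransition
          (deriv Real.smoothTransition (-Real.log (-s / a) / K)) (-Real.log (-s / a) / K) :=
        ((Real.smoothTransition.contDiff (n := 1)).differentiable (by simp) _).hasDerivAt
      have h3 := (hasDerivAt_id s).mul (hst.comp s (hin s hs))
      have h4 : deriv ψ0 s = Real.smoothTransition (-Real.log (-s / a) / K) -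
          deriv Real.smoothTransition (-Real.log (-s / a) / K) / K := by
        have := h3.deriv
        refine Eq.trans this ?_
        simp only [id, Function.comp]
        have hs' : s ≠ 0 := hs.ne
        field_simp
        ring
      rw [h4]
      obtain ⟨h5, h6⟩ := hB (-Real.log (-s / a) / K)
      have h7 := Real.smoothTransition.nonneg (-Real.log (-s / a) / K)
      have h8 := Real.smoothTransition.le_one (-Real.log (-s / a) / K)
      have h9 : deriv Real.smoothTransition (-Real.log (-s / a) / K) / K ≤ 1 / 34 := by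
        rw [div_le_iff₀ hK0]; linarith
      have h10 : 0 ≤ deriv Real.smoothTransition (-Real.log (-s / a) / K) / K :=
        div_nonneg h5 hK0.le
      constructor <;> linarith
    · rw [(hpos s (not_lt.1 hs)).deriv_eq]
      simp; norm_num

/-! norm preserving angular maps -/

def tau (z : ℂ) : ℝ := Real.smoothTransition (4 * normSq z ^ 2 / del ^ 2 - 1)

def Rot (L : ℝ → ℂ → ℂ) (z : ℂ) : ℂ :=
  Real.sqrt (normSq z / normSq (L (tau z) z)) • L (tau z) z

structure Fam (L : ℝ → ℂ → ℂ) : Prop where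
  smooth : ContDiff ℝ ∞ (fun p : ℝ × ℂ => L p.1 p.2)
  hom : ∀ t (c : ℝ) z, L t (c • z) = c • L t z
  ne : ∀ t ∈ Icc (0 : ℝ) 1, ∀ z, z ≠ 0 → L t z ≠ 0
  zero : ∀ z, L 0 z = z

theorem tau_mem (z : ℂ) : tau z ∈ Icc (0 : ℝ) 1 :=
  ⟨Real.smoothTransition.nonneg _, Real.smoothTransition.le_one _⟩

theorem tau_smooth : ContDiff ℝ ∞ tau :=
  Real.smoothTransition.contDiff.comp
    (((contDiff_const.mul (contDiff_normSq.pow 2)).div_const _).sub contDiff_const)

theorem tau_congr {z w : ℂ} (h : normSq z = normSq w) : tau z = tau w := by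
  unfold tau; rw [h]

theorem tau_one {z : ℂ} (h : del ^ 2 ≤ normSq z ^ 2) : tau z = 1 := by
  apply Real.smoothTransition.one_of_one_le
  have hd : 0 < del ^ 2 := pow_pos del_pos 2
  have : 4 ≤ 4 * normSq z ^ 2 / del ^ 2 := by
    rw [le_div_iff₀ hd]; linarith
  linarith

theorem small_ev (c : ℝ) (hc : 0 < c) : ∀ᶠ z : ℂ in 𝓝 0, normSq z ^ 2 < c := by
  have h : Continuous (fun z : ℂ => normSq z ^ 2) := (contDiff_normSq.pow 2).continuous
  exact h.continuousAt.eventually_lt continuousAt_const (by simpa using hc)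

theorem Rot_ev {L : ℝ → ℂ → ℂ} (hL : Fam L) : ∀ᶠ z : ℂ in 𝓝 0, Rot L z = z := by
  have hd : 0 < del ^ 2 := pow_pos del_pos 2
  filter_upwards [small_ev (del ^ 2 / 4) (by positivity)] with z hz
  have ht : tau z = 0 := by
    apply Real.smoothTransition.zero_of_nonpos
    have : 4 * normSq z ^ 2 / del ^ 2 ≤ 1 := by
      rw [div_le_iff₀ hd]; linarith
    linarith
  unfold Rot
  rw [ht, hL.zero]
  by_cases h0 : z = 0
  · simp [h0]
  · rw [div_self (normSq_pos.2 h0).ne']; simp

theorem Rot_zero {L : ℝ → ℂ → ℂ} (hL : Fam L) : Rot L 0 = 0 := (Rot_ev hL).self_of_nhds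

theorem Rot_normSq {L : ℝ → ℂ → ℂ} (hL : Fam L) (z : ℂ) : normSq (Rot L z) = normSq z := by
  by_cases h0 : z = 0
  · rw [h0, Rot_zero hL]
  · unfold Rot
    have h1 : 0 < normSq (L (tau z) z) := normSq_pos.2 (hL.ne _ (tau_mem z) z h0)
    rw [normSq_smul, Real.sq_sqrt (div_nonneg (normSq_nonneg _) h1.le)]
    field_simp

theorem Rot_neg {L : ℝ → ℂ → ℂ} (hL : Fam L) (z : ℂ) : Rot L (-z) = -Rot L z := by
  unfold Rot
  have h1 : tau (-z) = tau z := tau_congr (normSq_neg z)
  have h2 : L (tau z) (-z) = -L (tau z) z := by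
    have := hL.hom (tau z) (-1) z
    simpa using this
  rw [h1, h2, normSq_neg, normSq_neg, smul_neg]

theorem Rot_smooth {L : ℝ → ℂ → ℂ} (hL : Fam L) : ContDiff ℝ ∞ (Rot L) := by
  rw [contDiff_iff_contDiffAt]
  intro z
  by_cases h0 : z = 0
  · rw [h0]
    exact ContDiffAt.congr_of_eventuallyEq contDiffAt_id (Rot_ev hL)
  · have h1 : ContDiff ℝ ∞ (fun z : ℂ => L (tau z) z) :=
      hL.smooth.comp (tau_smooth.prodMk contDiff_id)
    have h2 : 0 < normSq (L (tau z) z) := normSq_pos.2 (hL.ne _ (tau_mem z) z h0)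
    have h3 : 0 < normSq z := normSq_pos.2 h0
    refine ContDiffAt.smul (ContDiffAt.sqrt (ContDiffAt.div contDiff_normSq.contDiffAt
      (contDiff_normSq.comp h1).contDiffAt h2.ne') (div_pos h3 h2).ne') h1.contDiffAt

theorem Rot_inv {L L' : ℝ → ℂ → ℂ} (hL : Fam L) (hL' : Fam L')
    (h : ∀ t ∈ Icc (0 : ℝ) 1, ∃ d : ℝ, 0 ≤ d ∧ ∀ z, L' t (L t z) = d • z) (z : ℂ) :
    Rot L' (Rot L z) = z := by
  have hn : normSq (Rot L' (Rot L z)) = normSq z := by rw [Rot_normSq hL', Rot_normSq hL]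
  obtain ⟨d, hd, hdz⟩ := h (tau z) (tau_mem z)
  have ht : tau (Rot L z) = tau z := tau_congr (Rot_normSq hL z)
  have h1 : ∃ c : ℝ, 0 ≤ c ∧ Rot L' (Rot L z) = c • z := by
    refine ⟨Real.sqrt (normSq (Rot L z) / normSq (L' (tau (Rot L z)) (Rot L z))) *
      (Real.sqrt (normSq z / normSq (L (tau z) z)) * d), by positivity, ?_⟩
    have h2 : L' (tau (Rot L z)) (Rot L z) =
        (Real.sqrt (normSq z / normSq (L (tau z) z)) * d) • z := by
      rw [ht]
      conv_lhs => unfold Rot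
      rw [hL'.hom, hdz, smul_smul]
    rw [mul_smul, ← h2]
    rfl
  obtain ⟨c, hc, h1⟩ := h1
  rw [h1] at hn ⊢
  have := smul_eq_of_normSq hc zero_le_one (u := z) (by rw [hn, one_smul])
  rw [this, one_smul]

def Lg (t : ℝ) (z : ℂ) : ℂ := ((1 + 4 * t) * z.re + 2 * t * z.im : ℝ) + (2 * t * z.re + z.im : ℝ) * I

def Lh (t : ℝ) (z : ℂ) : ℂ :=
  (z.re - 2 * t * z.im : ℝ) + (-2 * t * z.re + (1 + 4 * t) * z.im : ℝ) * I

theorem Lh_Lg (t : ℝ) (z : ℂ) : Lh t (Lg t z) = (1 + 4 * t - 4 * t ^ 2) • z := by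
  apply Complex.ext <;> simp [Lh, Lg, -ofReal_pow] <;> ring

theorem Lg_Lh (t : ℝ) (z : ℂ) : Lg t (Lh t z) = (1 + 4 * t - 4 * t ^ 2) • z := by
  apply Complex.ext <;> simp [Lh, Lg, -ofReal_pow] <;> ring

theorem dpos {t : ℝ} (ht : t ∈ Icc (0 : ℝ) 1) : 0 < 1 + 4 * t - 4 * t ^ 2 := by
  nlinarith [ht.1, ht.2]

theorem fam_Lg : Fam Lg := by
  have h1 : ContDiff ℝ ∞ (fun p : ℝ × ℂ => p.2.re) := reCLM.contDiff.comp contDiff_snd
  have h2 : ContDiff ℝ ∞ (fun p : ℝ × ℂ => p.2.im) := imCLM.contDiff.comp contDiff_snd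
  refine ⟨?_, ?_, ?_, ?_⟩
  · unfold Lg
    refine ContDiff.add (ofRealCLM.contDiff.comp ?_)
      (ContDiff.mul (ofRealCLM.contDiff.comp ?_) contDiff_const)
    · exact ((contDiff_const.add (contDiff_const.mul contDiff_fst)).mul h1).add
        ((contDiff_const.mul contDiff_fst).mul h2)
    · exact ((contDiff_const.mul contDiff_fst).mul h1).add h2
  · intro t c z
    apply Complex.ext <;> simp [Lg] <;> ring
  · intro t ht z hz h
    have := Lh_Lg t z
    rw [h] at this
    have h0 : Lh t 0 = 0 := by simp [Lh]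
    rw [h0] at this
    exact hz ((smul_eq_zero.1 this.symm).resolve_left (dpos ht).ne')
  · intro z
    apply Complex.ext <;> simp [Lg]

theorem fam_Lh : Fam Lh := by
  have h1 : ContDiff ℝ ∞ (fun p : ℝ × ℂ => p.2.re) := reCLM.contDiff.comp contDiff_snd
  have h2 : ContDiff ℝ ∞ (fun p : ℝ × ℂ => p.2.im) := imCLM.contDiff.comp contDiff_snd
  refine ⟨?_, ?_, ?_, ?_⟩
  · unfold Lh
    refine ContDiff.add (ofRealCLM.contDiff.comp ?_)
      (ContDiff.mul (ofRealCLM.contDiff.comp ?_) contDiff_const)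
    · exact h1.sub ((contDiff_const.mul contDiff_fst).mul h2)
    · exact ((contDiff_const.mul contDiff_fst).mul h1).add
        ((contDiff_const.add (contDiff_const.mul contDiff_fst)).mul h2)
  · intro t c z
    apply Complex.ext <;> simp [Lh] <;> ring
  · intro t ht z hz h
    have := Lg_Lh t z
    rw [h] at this
    have h0 : Lg t 0 = 0 := by simp [Lg]
    rw [h0] at this
    exact hz ((smul_eq_zero.1 this.symm).resolve_left (dpos ht).ne')
  · intro z
    apply Complex.ext <;> simp [Lh]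

theorem Lg_one (z : ℂ) : Lg 1 z = gmat z := by
  apply Complex.ext
  · simp [Lg, gmat]; norm_num
  · simp [Lg, gmat]

end

end BX

end Pool.Agent.Lib.MP_0281e9_an
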