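import Pool.Agent.Lib.MP_0281e9_an.ExtA

namespace Pool.Agent.Lib.MP_0281e9_an

open Set Filter Complex Topology
open scoped ContDiff

namespace BX

noncomputable section

def qq (z : ℂ) : ℝ := normSq (gmat z) / normSq z

theorem gmat_ne {z : ℂ} (hz : z ≠ 0) : gmat z ≠ 0 := by
  rw [← Lg_one]
  exact fam_Lg.ne 1 ⟨zero_le_one, le_rfl⟩ z hz

theorem qq_pos {z : ℂ} (hz : z ≠ 0) : 0 < qq z :=
  div_pos (normSq_pos.2 (gmat_ne hz)) (normSq_pos.2 hz)

theorem qq_le {z : ℂ} (hz : z ≠ 0) : qq z ≤ 34 := by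
  unfold qq
  rw [div_le_iff₀ (normSq_pos.2 hz)]
  simp only [normSq_apply, gmat, mat_re, mat_im]
  nlinarith [sq_nonneg (5 * z.re - 12 * z.im), sq_nonneg z.im]

theorem qq_smul {c : ℝ} (hc : c ≠ 0) (z : ℂ) : qq (c • z) = qq z := by
  unfold qq
  rw [map_smul, normSq_smul, normSq_smul, mul_div_mul_left _ _ (pow_ne_zero 2 hc)]

theorem qq_smooth {z : ℂ} (hz : z ≠ 0) : ContDiffAt ℝ ∞ qq z :=
  ContDiffAt.div (contDiff_normSq.comp gmat.contDiff).contDiffAt contDiff_normSq.contDiffAt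
    (normSq_pos.2 hz).ne'

structure Psi (ψ : ℝ → ℝ) : Prop where
  smooth : ContDiff ℝ ∞ ψ
  low : ∀ s, s ≤ -(del ^ 2 / 2) → ψ s = 0
  high : ∀ s, 0 ≤ s → ψ s = s
  der : ∀ s, -1 / 34 ≤ deriv ψ s ∧ deriv ψ s ≤ 1

def FF (ψ : ℝ → ℝ) (q S : ℝ) : ℝ := S + (q - 1) * ψ (S - del ^ 2)

variable {ψ : ℝ → ℝ}

theorem FF_deriv (hψ : Psi ψ) {q : ℝ} (h0 : 0 < q) (h1 : q ≤ 34) (S : ℝ) :
    ∃ D : ℝ, 0 < D ∧ HasDerivAt (FF ψ q) D S := by
  have h2 : HasDerivAt ψ (deriv ψ (S - del ^ 2)) (S - del ^ 2) :=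
    (hψ.smooth.differentiable (by simp) _).hasDerivAt
  have h3 : HasDerivAt (fun S => ψ (S - del ^ 2)) (deriv ψ (S - del ^ 2)) S :=
    h2.comp_sub_const S (del ^ 2)
  refine ⟨1 + (q - 1) * deriv ψ (S - del ^ 2), ?_, (hasDerivAt_id S).add (h3.const_mul (q - 1))⟩
  obtain ⟨h4, h5⟩ := hψ.der (S - del ^ 2)
  rcases le_total q 1 with h | h
  · nlinarith
  · nlinarith

theorem FF_mono (hψ : Psi ψ) {q : ℝ} (h0 : 0 < q) (h1 : q ≤ 34) : StrictMono (FF ψ q) := by
  apply strictMono_of_deriv_pos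
  intro S
  obtain ⟨D, hD, h⟩ := FF_deriv hψ h0 h1 S
  rw [h.deriv]; exact hD

theorem FF_low (hψ : Psi ψ) (q : ℝ) {S : ℝ} (h : S ≤ del ^ 2 / 2) : FF ψ q S = S := by
  unfold FF
  rw [hψ.low _ (by linarith)]; ring

theorem FF_high (hψ : Psi ψ) (q : ℝ) {S : ℝ} (h : del ^ 2 ≤ S) :
    FF ψ q S = del ^ 2 + q * (S - del ^ 2) := by
  unfold FF
  rw [hψ.high _ (by linarith)]; ring

theorem FF_zero (hψ : Psi ψ) (q : ℝ) : FF ψ q 0 = 0 :=
  FF_low hψ q (by have := pow_pos del_pos 2; linarith)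

theorem FF_pos (hψ : Psi ψ) {q : ℝ} (h0 : 0 < q) (h1 : q ≤ 34) {S : ℝ} (h : 0 < S) :
    0 < FF ψ q S := by
  have := FF_mono hψ h0 h1 h
  rwa [FF_zero hψ] at this

def aa (ψ : ℝ → ℝ) (z : ℂ) : ℝ :=
  Real.sqrt (Real.sqrt (FF ψ (qq z) (normSq z ^ 2) / normSq z ^ 2))

def rmap (ψ : ℝ → ℝ) (z : ℂ) : ℂ := aa ψ z • z

theorem ratio_pos (hψ : Psi ψ) {z : ℂ} (hz : z ≠ 0) :
    0 < FF ψ (qq z) (normSq z ^ 2) / normSq z ^ 2 :=
  div_pos (FF_pos hψ (qq_pos hz) (qq_le hz) (pow_pos (normSq_pos.2 hz) 2))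
    (pow_pos (normSq_pos.2 hz) 2)

theorem aa_pos (hψ : Psi ψ) {z : ℂ} (hz : z ≠ 0) : 0 < aa ψ z :=
  Real.sqrt_pos.2 (Real.sqrt_pos.2 (ratio_pos hψ hz))

theorem aa_pow (hψ : Psi ψ) {z : ℂ} (hz : z ≠ 0) :
    aa ψ z ^ 4 * normSq z ^ 2 = FF ψ (qq z) (normSq z ^ 2) := by
  have h1 := ratio_pos hψ hz
  have h2 : aa ψ z ^ 4 = FF ψ (qq z) (normSq z ^ 2) / normSq z ^ 2 := by
    unfold aa
    rw [show (4 : ℕ) = 2 * 2 from rfl, pow_mul, Real.sq_sqrt (Real.sqrt_nonneg _),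
      Real.sq_sqrt h1.le]
  rw [h2, div_mul_cancel₀ _ (pow_pos (normSq_pos.2 hz) 2).ne']

theorem rmap_zero : rmap ψ 0 = 0 := by simp [rmap]

theorem rmap_normSq (hψ : Psi ψ) (z : ℂ) :
    normSq (rmap ψ z) ^ 2 = FF ψ (qq z) (normSq z ^ 2) := by
  by_cases hz : z = 0
  · rw [hz, rmap_zero]; simp [FF_zero hψ]
  · rw [← aa_pow hψ hz, rmap, normSq_smul]; ring

theorem rmap_ne (hψ : Psi ψ) {z : ℂ} (hz : z ≠ 0) : rmap ψ z ≠ 0 :=
  smul_ne_zero (aa_pos hψ hz).ne' hz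

theorem rmap_neg (z : ℂ) : rmap ψ (-z) = -rmap ψ z := by
  have h : qq (-z) = qq z := by
    have := qq_smul (c := -1) (by norm_num) z
    simpa using this
  unfold rmap aa
  rw [h, normSq_neg, smul_neg]

theorem rmap_ev (hψ : Psi ψ) : ∀ᶠ z : ℂ in 𝓝 0, rmap ψ z = z := by
  have hd : 0 < del ^ 2 := pow_pos del_pos 2
  filter_upwards [small_ev (del ^ 2 / 2) (by positivity)] with z hz
  by_cases h0 : z = 0
  · rw [h0, rmap_zero]
  · unfold rmap aa
    rw [FF_low hψ _ hz.le, div_self (pow_pos (normSq_pos.2 h0) 2).ne']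
    simp

theorem aa_smooth (hψ : Psi ψ) {z : ℂ} (hz : z ≠ 0) : ContDiffAt ℝ ∞ (aa ψ) z := by
  have hS : ContDiffAt ℝ ∞ (fun z : ℂ => normSq z ^ 2) z := (contDiff_normSq.pow 2).contDiffAt
  have h1 : ContDiffAt ℝ ∞ (fun z : ℂ => FF ψ (qq z) (normSq z ^ 2)) z :=
    hS.add (((qq_smooth hz).sub contDiffAt_const).mul
      (hψ.smooth.contDiffAt.comp z (hS.sub contDiffAt_const)))
  have h2 := ratio_pos hψ hz
  exact ((h1.div hS (pow_pos (normSq_pos.2 hz) 2).ne').sqrt h2.ne').sqrt (Real.sqrt_pos.2 h2).ne'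

theorem rmap_smooth (hψ : Psi ψ) : ContDiff ℝ ∞ (rmap ψ) := by
  rw [contDiff_iff_contDiffAt]
  intro z
  by_cases hz : z = 0
  · rw [hz]
    exact ContDiffAt.congr_of_eventuallyEq contDiffAt_id (rmap_ev hψ)
  · exact (aa_smooth hψ hz).smul contDiffAt_id

theorem rmap_inj (hψ : Psi ψ) : Function.Injective (rmap ψ) := by
  intro z w h
  by_cases hz : z = 0
  · by_contra hne
    have hw : w ≠ 0 := fun h0 => hne (hz.trans h0.symm)
    rw [hz, rmap_zero] at h
    exact rmap_ne hψ hw h.symm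
  · have hw : w ≠ 0 := by
      intro h0
      rw [h0, rmap_zero] at h
      exact rmap_ne hψ hz h
    have ha := aa_pos hψ hz
    have hb := aa_pos hψ hw
    have h1 : w = (aa ψ z / aa ψ w) • z := by
      have : aa ψ w • w = aa ψ w • ((aa ψ z / aa ψ w) • z) := by
        rw [smul_smul, mul_div_cancel₀ _ hb.ne']
        exact h.symm
      exact smul_right_injective ℂ hb.ne' this
    have h2 : qq w = qq z := by
      rw [h1]; exact qq_smul (div_pos ha hb).ne' z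
    have h3 : FF ψ (qq z) (normSq z ^ 2) = FF ψ (qq z) (normSq w ^ 2) := by
      rw [← rmap_normSq hψ, h, rmap_normSq hψ, h2]
    have h4 := (FF_mono hψ (qq_pos hz) (qq_le hz)).injective h3
    have h5 : normSq z = normSq w := (sq_eq_sq₀ (normSq_nonneg _) (normSq_nonneg _)).1 h4
    have h6 := smul_eq_of_normSq zero_le_one (div_pos ha hb).le (u := z)
      (by rw [one_smul, ← h1, h5])
    rw [one_smul] at h6
    exact h6.trans h1.symm

theorem rmap_surj (hψ : Psi ψ) : Function.Surjective (rmap ψ) := by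
  intro w
  by_cases hw : w = 0
  · exact ⟨0, by rw [hw, rmap_zero]⟩
  · have hq := qq_pos hw
    have hN : 0 < normSq w := normSq_pos.2 hw
    have hd : 0 < del ^ 2 := pow_pos del_pos 2
    have hc : Continuous (FF ψ (qq w)) := by
      rw [continuous_iff_continuousAt]
      intro S
      obtain ⟨D, -, h⟩ := FF_deriv hψ hq (qq_le hw) S
      exact h.continuousAt
    have hS1 : 0 ≤ del ^ 2 + normSq w ^ 2 / qq w := by positivity
    have hmem : normSq w ^ 2 ∈ Icc (FF ψ (qq w) 0) (FF ψ (qq w) (del ^ 2 + normSq w ^ 2 / qq w)) := by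
      rw [FF_zero hψ, FF_high hψ _ (by have : 0 ≤ normSq w ^ 2 / qq w := by positivity
                                       linarith)]
      refine ⟨by positivity, ?_⟩
      have : qq w * (del ^ 2 + normSq w ^ 2 / qq w - del ^ 2) = normSq w ^ 2 := by
        field_simp; ring
      rw [this]; linarith
    obtain ⟨S, hS, hSw⟩ := intermediate_value_Icc hS1 hc.continuousOn hmem
    have hS0 : 0 < S := by
      rcases hS.1.lt_or_eq with h | h
      · exact h
      · rw [← h, FF_zero hψ] at hSw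
        exact absurd hSw (pow_pos hN 2).ne
    set c : ℝ := Real.sqrt (Real.sqrt S / normSq w) with hcdef
    have hc0 : 0 < c := Real.sqrt_pos.2 (div_pos (Real.sqrt_pos.2 hS0) hN)
    have hc2 : normSq (c • w) ^ 2 = S := by
      rw [normSq_smul, hcdef, Real.sq_sqrt (div_pos (Real.sqrt_pos.2 hS0) hN).le,
        div_mul_cancel₀ _ hN.ne', Real.sq_sqrt hS0.le]
    refine ⟨c • w, ?_⟩
    have h1 : normSq (rmap ψ (c • w)) = normSq w := by
      apply (sq_eq_sq₀ (normSq_nonneg _) (normSq_nonneg _)).1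
      rw [rmap_normSq hψ, qq_smul hc0.ne', hc2, hSw]
    have h2 : rmap ψ (c • w) = (aa ψ (c • w) * c) • w := by rw [rmap, smul_smul]
    have ha := aa_pos hψ (smul_ne_zero hc0.ne' hw)
    rw [h2] at h1 ⊢
    have := smul_eq_of_normSq (mul_pos ha hc0).le zero_le_one (u := w) (by rw [h1, one_smul])
    rw [this, one_smul]

theorem rmap_fderiv (hψ : Psi ψ) (z : ℂ) : Function.Injective (fderiv ℝ (rmap ψ) z) := by
  by_cases hz : z = 0
  · have h : rmap ψ =ᶠ[𝓝 z] id := by rw [hz]; exact rmap_ev hψ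
    rw [h.fderiv_eq, fderiv_id]
    exact fun _ _ h => h
  · have ha : HasFDerivAt (aa ψ) (fderiv ℝ (aa ψ) z) z :=
      ((aa_smooth hψ hz).differentiableAt (by simp)).hasFDerivAt
    set D := fderiv ℝ (aa ψ) z with hD
    have hr : HasFDerivAt (rmap ψ) (aa ψ z • ContinuousLinearMap.id ℝ ℂ + D.smulRight z) z :=
      ha.smul (hasFDerivAt_id z)
    have hpos := aa_pos hψ hz
    have hN : 0 < normSq z := normSq_pos.2 hz
    have key : aa ψ z + D z ≠ 0 := by
      have l1 : HasDerivAt (fun t : ℝ => t • z) z 1 := by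
        simpa using (hasDerivAt_id (1 : ℝ)).smul_const z
      have l2 : HasDerivAt (fun t : ℝ => aa ψ (t • z)) (D z) 1 := by
        have h1 : HasFDerivAt (aa ψ) D ((1 : ℝ) • z) := by rw [one_smul]; exact ha
        exact h1.comp_hasDerivAt (1 : ℝ) l1
      have l3 := (((l2.mul (hasDerivAt_id (1 : ℝ))).pow 4).mul_const (normSq z ^ 2))
      obtain ⟨E, hE, hF⟩ := FF_deriv hψ (qq_pos hz) (qq_le hz) ((1 : ℝ) ^ 4 * normSq z ^ 2)
      have l4 : HasDerivAt (fun t : ℝ => t ^ 4 * normSq z ^ 2) (4 * normSq z ^ 2) 1 := by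
        simpa using ((hasDerivAt_id (1 : ℝ)).pow 4).mul_const (normSq z ^ 2)
      have l5 := hF.comp (1 : ℝ) l4
      have l6 : (fun t : ℝ => (aa ψ (t • z) * t) ^ 4 * normSq z ^ 2) =ᶠ[𝓝 1]
          (FF ψ (qq z) ∘ fun t : ℝ => t ^ 4 * normSq z ^ 2) := by
        filter_upwards [Ioi_mem_nhds (zero_lt_one (α := ℝ))] with t ht
        have ht0 : t ≠ 0 := (mem_Ioi.1 ht).ne'
        have h1 := aa_pow hψ (smul_ne_zero ht0 hz)
        rw [qq_smul ht0, normSq_smul] at h1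
        simp only [Function.comp]
        rw [show t ^ 4 * normSq z ^ 2 = (t ^ 2 * normSq z) ^ 2 by ring, ← h1]
        ring
      have l7 := (l5.congr_of_eventuallyEq l6).unique l3
      intro h0
      simp only [Pi.mul_apply, id, one_smul, mul_one] at l7
      rw [add_comm (D z), h0] at l7
      have : 0 < E * (4 * normSq z ^ 2) := by positivity
      rw [l7] at this
      simp at this
    rw [hr.fderiv]
    rw [injective_iff_map_eq_zero]
    intro v hv
    simp only [add_apply, smul_apply,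
      ContinuousLinearMap.id_apply, ContinuousLinearMap.smulRight_apply] at hv
    have h1 := congrArg D hv
    rw [map_add, map_smul, map_smul, map_zero, smul_eq_mul, smul_eq_mul] at h1
    have h2 : D v = 0 := by
      have : D v * (aa ψ z + D z) = 0 := by linarith
      exact (mul_eq_zero.1 this).resolve_right key
    rw [h2, zero_smul, add_zero] at hv
    exact (smul_eq_zero.1 hv).resolve_left hpos.ne'

theorem rad_small {w : ℂ} (hw : w ≠ 0) (h : normSq w ≤ 1 / 256) :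
    ∃ c : ℝ, 0 < c ∧ rad 0 w = c • w ∧ normSq (rad 0 w) ^ 2 = del ^ 2 + cc * normSq w := by
  have hN : 0 < normSq w := normSq_pos.2 hw
  have hS : Sfun (normSq w) = del ^ 2 + cc * normSq w := by
    unfold Sfun
    rw [Real.smoothTransition.zero_of_nonpos (by linarith)]; ring
  have hcc : 0 < cc := by unfold cc; norm_num
  have hp : 0 < del ^ 2 + cc * normSq w := by have := pow_pos del_pos 2; positivity
  have h1 : rad 0 w = Real.sqrt (Real.sqrt (del ^ 2 + cc * normSq w) / normSq w) • w := by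
    unfold rad
    rw [hS]; simp
  refine ⟨_, Real.sqrt_pos.2 (div_pos (Real.sqrt_pos.2 hp) hN), h1, ?_⟩
  rw [h1, normSq_smul, Real.sq_sqrt (div_pos (Real.sqrt_pos.2 hp) hN).le,
    div_mul_cancel₀ _ hN.ne', Real.sq_sqrt hp.le]

end

end BX

open BX in
theorem exists_ext : ∃ e ei : ℂ → ℂ, ContDiff ℝ ∞ e ∧ ContDiff ℝ ∞ ei ∧
    Function.LeftInverse ei e ∧ Function.RightInverse ei e ∧ (∀ z, e (-z) = -e z) ∧
    (∀ᶠ z in 𝓝 0, e z = z) ∧ (∀ z, normSq (e z) ≤ del ↔ normSq z ≤ del) ∧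
    ∀ᶠ z in 𝓝[≠] 0, e (rad 0 z) = rad 0 (gmat z) := by
  have hd : 0 < del ^ 2 := pow_pos del_pos 2
  obtain ⟨ψ, h1, h2, h3, h4⟩ := exists_psi (del ^ 2 / 2) (by positivity)
  have hψ : Psi ψ := ⟨h1, h2, h3, h4⟩
  have hb : Function.Bijective (rmap ψ) := ⟨rmap_inj hψ, rmap_surj hψ⟩
  refine ⟨fun z => Rot Lg (rmap ψ z), fun w => Function.invFun (rmap ψ) (Rot Lh w),
    (Rot_smooth fam_Lg).comp (rmap_smooth hψ),
    (smooth_inverse _ (rmap_smooth hψ) hb (rmap_fderiv hψ)).comp (Rot_smooth fam_Lh),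
    ?_, ?_, ?_, ?_, ?_, ?_⟩
  · intro z
    simp only
    rw [Rot_inv fam_Lg fam_Lh (fun t ht => ⟨_, (dpos ht).le, Lh_Lg t⟩)]
    exact Function.leftInverse_invFun hb.1 z
  · intro w
    simp only
    rw [Function.rightInverse_invFun hb.2 _]
    exact Rot_inv fam_Lh fam_Lg (fun t ht => ⟨_, (dpos ht).le, Lg_Lh t⟩) w
  · intro z
    simp only
    rw [rmap_neg, Rot_neg fam_Lg]
  · filter_upwards [rmap_ev hψ, Rot_ev fam_Lg] with z hz1 hz2
    rw [hz1, hz2]
  · intro z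
    simp only
    rw [Rot_normSq fam_Lg]
    by_cases hz : z = 0
    · rw [hz, rmap_zero]
    · rw [← sq_le_sq₀ (normSq_nonneg _) del_pos.le, ← sq_le_sq₀ (normSq_nonneg z) del_pos.le,
        rmap_normSq hψ, ← (FF_mono hψ (qq_pos hz) (qq_le hz)).le_iff_le (a := normSq z ^ 2),
        FF_high hψ _ (le_refl (del ^ 2))]
      simp
  · have hs : ∀ᶠ z : ℂ in 𝓝 0, normSq z < 1 / 10000 :=
      contDiff_normSq.continuous.continuousAt.eventually_lt continuousAt_const (by simp)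
    filter_upwards [nhdsWithin_le_nhds hs, self_mem_nhdsWithin] with z hz1 hz2
    have hz : z ≠ 0 := hz2
    have hN : 0 < normSq z := normSq_pos.2 hz
    have hg : normSq (gmat z) = qq z * normSq z := by
      unfold qq; rw [div_mul_cancel₀ _ hN.ne']
    have hq := qq_le hz
    have hq0 := qq_pos hz
    have hcc : 0 < cc := by unfold cc; norm_num
    obtain ⟨c, hc, hc1, hc2⟩ := rad_small hz (by linarith)
    obtain ⟨c', hc', hc1', hc2'⟩ := rad_small (gmat_ne hz) (by rw [hg]; nlinarith)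
    have hy : rad 0 z ≠ 0 := by rw [hc1]; exact smul_ne_zero hc.ne' hz
    have hqy : qq (rad 0 z) = qq z := by rw [hc1]; exact qq_smul hc.ne' z
    have hn : normSq (rmap ψ (rad 0 z)) ^ 2 = del ^ 2 + cc * normSq (gmat z) := by
      rw [rmap_normSq hψ, hc2, hqy, FF_high hψ _ (by have := mul_pos hcc hN; linarith), hg]
      ring
    have ht : tau (rmap ψ (rad 0 z)) = 1 := by
      apply tau_one
      rw [hn]
      have := mul_nonneg hcc.le (normSq_nonneg (gmat z))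
      linarith
    have hn2 : normSq (Rot Lg (rmap ψ (rad 0 z))) = normSq (rad 0 (gmat z)) := by
      apply (sq_eq_sq₀ (normSq_nonneg _) (normSq_nonneg _)).1
      rw [Rot_normSq fam_Lg, hn, hc2']
    have ha := aa_pos hψ hy
    have he : ∃ b : ℝ, 0 ≤ b ∧ Rot Lg (rmap ψ (rad 0 z)) = b • gmat z := by
      refine ⟨Real.sqrt (normSq (rmap ψ (rad 0 z)) /
        normSq (Lg (tau (rmap ψ (rad 0 z))) (rmap ψ (rad 0 z)))) * (aa ψ (rad 0 z) * c),
        by positivity, ?_⟩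
      have h5 : Lg (tau (rmap ψ (rad 0 z))) (rmap ψ (rad 0 z)) = (aa ψ (rad 0 z) * c) • gmat z := by
        rw [ht, Lg_one, BX.rmap, map_smul, mul_smul, ← map_smul gmat c, ← hc1]
      rw [mul_smul, ← h5]
      rfl
    obtain ⟨b, hb0, hb1⟩ := he
    rw [hb1, hc1'] at hn2 ⊢
    exact smul_eq_of_normSq hb0 hc'.le hn2

end Pool.Agent.Lib.MP_0281e9_an
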