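import Pool.Agent.Lib.MP_0281e9_an.Conv2
import Pool.Agent.Lib.MP_0281e9_an.EntB
import Pool.Agent.Lib.MP_0281e9_an.SuppC

namespace Pool.Agent.Lib.MP_0281e9_an

open Set Filter Complex MeasureTheory Topology
open scoped ContDiff ComplexConjugate NNReal

namespace BZ

lemma mat_det (a b c d : ℝ) : (mat a b c d).det = a * d - b * c := by
  rw [ContinuousLinearMap.det, ← LinearMap.det_toMatrix Complex.basisOneI, Matrix.det_fin_two]
  simp [LinearMap.toMatrix_apply]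

lemma liouville_le (L : ℝ) (T : Set (ℝ × ℝ)) :
    liouville L T ≤ (ENNReal.ofReal (2 * L))⁻¹ * volume T := by
  rw [liouville, Measure.smul_apply, smul_eq_mul]
  have h1 : (volume.restrict (phase L)).withDensity (fun p => ENNReal.ofReal (Real.sin p.2)) ≤
      (volume.restrict (phase L)).withDensity 1 :=
    withDensity_mono (Eventually.of_forall fun p => by
      simpa using Real.sin_le_one p.2)
  rw [withDensity_one] at h1
  have h2 := (h1.trans Measure.restrict_le_self) T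
  gcongr

lemma liouville_pos {L : ℝ} {T : Set (ℝ × ℝ)} (hT : T ⊆ BS.dom L) {q : ℝ × ℝ} (hq : T ∈ 𝓝 q) :
    0 < liouville L T := by
  obtain ⟨V, hV, hVo, hqV⟩ := mem_nhds_iff.1 hq
  refine lt_of_lt_of_le ?_ (measure_mono hV)
  rw [BS.liouville_apply L hVo.measurableSet, inter_eq_left.2 (hV.trans hT)]
  refine ENNReal.mul_pos (ENNReal.inv_ne_zero.2 ENNReal.ofReal_ne_top) (ne_of_gt ?_)
  rw [setLIntegral_pos_iff (by fun_prop), inter_eq_right.2]
  · exact hVo.measure_pos _ ⟨q, hqV⟩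
  · intro p hp
    have := hT (hV hp)
    simpa using Real.sin_pos_of_pos_of_lt_pi this.2.1 this.2.2

noncomputable def J (x : ℝ → ℝ) (ψ0 ε : ℝ) (w : ℂ) : ℂ :=
  (x (ψ0 + ε * w.re) : ℂ) + ((Real.pi / 2 + ε * w.im : ℝ) : ℂ) * I

lemma J_smooth {x : ℝ → ℝ} (hx : ContDiff ℝ ∞ x) (ψ0 ε : ℝ) : ContDiff ℝ ∞ (J x ψ0 ε) := by
  have h1 : ContDiff ℝ ∞ fun w : ℂ => ψ0 + ε * w.re :=
    contDiff_const.add (contDiff_const.mul reCLM.contDiff)
  have h2 : ContDiff ℝ ∞ fun w : ℂ => Real.pi / 2 + ε * w.im :=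
    contDiff_const.add (contDiff_const.mul imCLM.contDiff)
  exact (ofRealCLM.contDiff.comp (hx.comp h1)).add
    ((ofRealCLM.contDiff.comp h2).mul contDiff_const)

lemma J_deriv {x : ℝ → ℝ} (hx : ContDiff ℝ ∞ x) (ψ0 ε : ℝ) (w : ℂ) :
    HasFDerivAt (J x ψ0 ε) (mat (deriv x (ψ0 + ε * w.re) * ε) 0 0 ε) w := by
  have h1 : HasFDerivAt (fun w : ℂ => ψ0 + ε * w.re) (ε • reCLM) w :=
    (reCLM.hasFDerivAt.const_mul ε).const_add ψ0
  have h2 : HasFDerivAt (fun w : ℂ => Real.pi / 2 + ε * w.im) (ε • imCLM) w :=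
    (imCLM.hasFDerivAt.const_mul ε).const_add _
  have h3 : HasFDerivAt (fun w : ℂ => x (ψ0 + ε * w.re)) (deriv x (ψ0 + ε * w.re) • ε • reCLM) w :=
    HasDerivAt.comp_hasFDerivAt (h₂ := x) w
      ((contDiff_infty_iff_deriv.1 hx).1 _).hasDerivAt h1
  refine ((ofRealCLM.hasFDerivAt.comp w h3).add
    ((ofRealCLM.hasFDerivAt.comp w h2).mul_const I)).congr_fderiv ?_
  ext v
  apply Complex.ext <;> simp [mul_assoc]

end BZ

theorem final_step {ε A C : ℝ} {Θ p G : ℂ → ℂ} {v : ℝ → ℝ} (hε : 0 < ε) (hR : Realizes ε Θ A)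
    (hv : ContDiff ℝ ∞ v) (hb : ∀ a, |v a| ≤ 1 ∧ |deriv v a| ≤ 1 ∧ |deriv (deriv v) a| ≤ 1)
    (hF : ∀ z ∈ U, ‖p z‖ ≤ A ∧ ∃ s z0 : ℂ, ‖s‖ ≤ A ∧ ‖z0‖ ≤ A ∧
      Inc ε (Real.pi / 2) (w0 ε + v) s = Θ (p z) ∧
      Inc ε (Real.pi / 2) (w0 ε + v) (conj s) = Θ z0 ∧ p (G z) = conj z0)
    (hG : MapsTo G U U) (hD : ∀ z ∈ U, DifferentiableAt ℝ G z ∧ ‖fderiv ℝ G z - Amat‖ ≤ 1)
    (hp : ∀ z ∈ U, DifferentiableAt ℝ p z ∧ |(fderiv ℝ p z).det| ≤ C)
    (hinj : ∀ z ∈ U, ∀ z' ∈ U, p z = p z' → Rel z z')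
    (hper : ∀ z ∈ U, ∀ m n : ℤ, p (z + 2 * lp m n) = p z)
    (h0 : ∃ z ∈ U, ContDiffAt ℝ ∞ p z ∧ Function.Injective (fderiv ℝ p z)) :
    ∃ (Y : Set ℂ) (γ : ℝ → ℂ) (L : ℝ) (φ : ℝ × ℝ → ℝ × ℝ), IsTable Y γ L ∧ IsBilliardMap γ L φ ∧
      IsProbabilityMeasure (liouville L) ∧ MeasurePreserving φ (liouville L) (liouville L) ∧
      0 < ksEntropy (liouville L) φ := by
  obtain ⟨Y, γ, L, φ, x, M, ψ0, hY, hφ, hμ, hpres, hM, hx, hx', hin, hit⟩ := hR v hv hb
  refine ⟨Y, γ, L, φ, hY, hφ, hμ, hpres, ?_⟩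
  have hL := hY.pos
  set Q : ℂ → ℂ := fun z => BZ.J x ψ0 ε (p z) with hQ
  set P : ℂ → ℝ × ℝ := fun z => (x (ψ0 + ε * (p z).re), Real.pi / 2 + ε * (p z).im) with hP
  have hPQ : ∀ z, P z = equivRealProdCLM (Q z) := fun z => by
    simp [hP, hQ, BZ.J]
  have hQd : ∀ z ∈ U, HasFDerivAt Q
      ((mat (deriv x (ψ0 + ε * (p z).re) * ε) 0 0 ε).comp (fderiv ℝ p z)) z := fun z hz =>
    (BZ.J_deriv hx ψ0 ε (p z)).comp z (hp z hz).1.hasFDerivAt
  obtain ⟨K, hK⟩ := (isCompact_Icc (a := ψ0 - ε * A) (b := ψ0 + ε * A)).bddAbove_image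
    (contDiff_infty_iff_deriv.1 hx).2.continuous.continuousOn
  have hmono : StrictMono x := strictMono_of_deriv_pos hx'
  refine entropy_pos (liouville L) φ hpres.measurable M hM P G ?_ ?_ ?_ hG ?_ hD
    (Real.toNNReal ((2 * L)⁻¹ * (K * ε * ε * C))) ?_ ?_
  · rw [show P = fun z => equivRealProdCLM (Q z) from funext hPQ]
    exact equivRealProdCLM.continuous.comp_continuousOn
      fun z hz => (hQd z hz).continuousAt.continuousWithinAt
  · intro z hz z' hz' e
    refine hinj z hz z' hz' ?_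
    simp only [hP, Prod.mk.injEq] at e
    have e1 := hmono.injective e.1
    apply Complex.ext
    · exact mul_left_cancel₀ hε.ne' (by linarith)
    · exact mul_left_cancel₀ hε.ne' (by linarith [e.2])
  · intro z hz m n
    simp only [hP, hper z hz m n]
  · intro z hz
    obtain ⟨h1, s, z0, h2, h3, h4, h5, h6⟩ := hF z hz
    simp only [hP, h6, conj_re, conj_im]
    rw [hit (p z) z0 s h1 h3 h2 h4 h5]
    congr 1
    ring
  · intro S hS hSm
    refine (BZ.liouville_le L _).trans ?_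
    have e1 : P '' S = measurableEquivRealProd.symm ⁻¹' (Q '' S) := by
      rw [← MeasurableEquiv.image_eq_preimage_symm, image_image]
      exact image_congr fun z _ => hPQ z
    rw [e1, volume_preserving_equiv_real_prod.symm.measure_preimage_equiv]
    have e2 : volume (Q '' S) ≤ ENNReal.ofReal (K * ε * ε * C) * volume S := by
      refine (addHaar_image_le_lintegral_abs_det_fderiv volume hSm
        fun z hz => (hQd z (hS hz)).hasFDerivWithinAt).trans ?_
      rw [← setLIntegral_const]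
      refine setLIntegral_mono' hSm fun z hz => ENNReal.ofReal_le_ofReal ?_
      have a1 := (hF z (hS hz)).1
      have a2 := abs_le.1 ((abs_re_le_norm (p z)).trans a1)
      have a3 : deriv x (ψ0 + ε * (p z).re) ≤ K :=
        hK ⟨_, ⟨by nlinarith [a2.1], by nlinarith [a2.2]⟩, rfl⟩
      have a4 := hx' (ψ0 + ε * (p z).re)
      have a5 := (hp z (hS hz)).2
      have a6 : ((mat (deriv x (ψ0 + ε * (p z).re) * ε) 0 0 ε).comp (fderiv ℝ p z)).det =
          (mat (deriv x (ψ0 + ε * (p z).re) * ε) 0 0 ε).det * (fderiv ℝ p z).det :=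
        LinearMap.det_comp _ _
      rw [a6, BZ.mat_det, abs_mul, mul_zero, sub_zero, abs_of_pos (by positivity)]
      have a7 : 0 ≤ K := a4.le.trans a3
      gcongr
    calc _ ≤ (ENNReal.ofReal (2 * L))⁻¹ * (ENNReal.ofReal (K * ε * ε * C) * volume S) := by gcongr
      _ = _ := by
        rw [← mul_assoc, ← ENNReal.ofReal_inv_of_pos (by positivity),
          ← ENNReal.ofReal_mul (by positivity)]
        rfl
  · obtain ⟨z, hz, h1, h2⟩ := h0
    have h3 : ContDiffAt ℝ ∞ Q z := (BZ.J_smooth hx ψ0 ε).contDiffAt.comp z h1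
    have h4 : Function.Injective (fderiv ℝ Q z) := by
      rw [(hQd z hz).fderiv]
      refine Function.Injective.comp (g := mat _ 0 0 ε) (fun a b e => ?_) h2
      have e1 := congrArg Complex.re e
      have e2 := congrArg Complex.im e
      simp only [mat_re, mat_im, zero_mul, add_zero, zero_add] at e1 e2
      exact Complex.ext (mul_left_cancel₀ (mul_pos (hx' _) hε).ne' e1) (mul_left_cancel₀ hε.ne' e2)
    have h5 : Q '' U ∈ 𝓝 (Q z) := by
      rw [← map_nhds_of_inv h3 (isInv_self h4)]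
      exact image_mem_map (BE.isOpen_U.mem_nhds hz)
    have h6 : P '' U = equivRealProdCLM '' (Q '' U) := by
      rw [image_image]
      exact image_congr fun z _ => hPQ z
    refine BZ.liouville_pos (q := equivRealProdCLM (Q z)) ?_ ?_
    · rintro _ ⟨w, hw, rfl⟩
      have := hin (p w) (hF w hw).1
      exact ⟨Ioo_subset_Ico_self this.1, this.2⟩
    · rw [h6]
      exact equivRealProdCLM.toHomeomorph.isOpenMap.image_mem_nhds h5

end Pool.Agent.Lib.MP_0281e9_an
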