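import Pool.Agent.Lib.MP_0281e9_an.Conv3

namespace Pool.Agent.Lib.MP_0281e9_an

open Set Filter Complex MeasureTheory Topology
open scoped ContDiff ComplexConjugate NNReal

theorem Inc_congr {ε δ : ℝ} {w w' : ℝ → ℝ} {z : ℂ} (h : w =ᶠ[𝓝 z.re] w') :
    Inc ε δ w z = Inc ε δ w' z := by
  unfold Inc
  rw [h.deriv_eq, h.self_of_nhds]

lemma In0_linv (z : ℂ) : mat 0 (-1 / 2) (-1) (-1 / 2) (In0 z) = z := by
  apply Complex.ext
  · simp only [In0, mat_re, mat_im]; ring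
  · simp only [In0, mat_re, mat_im]; ring

lemma In0_inj : Function.Injective In0 :=
  Function.LeftInverse.injective (g := mat 0 (-1 / 2) (-1) (-1 / 2)) In0_linv

lemma In0_isInv (z : ℂ) : (fderiv ℝ In0 z).IsInvertible := by
  rw [In0.fderiv]
  exact isInv_self In0_inj

theorem exists_refl {ι : Type} {l : Filter ι} {ε : ι → ℝ} (hε : ∀ i, 0 < ε i)
    (hε0 : Tendsto ε l (𝓝 0)) {v : ι → ℝ → ℝ} (hv : ∀ a, CV 3 l v (fun _ => 0) a) (A : ℝ) :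
    ∃ S R : ι → ℂ → ℂ,
      (∀ᶠ i in l, InjOn (Inc (ε i) (Real.pi / 2) (w0 (ε i) + v i)) (Metric.ball 0 A) ∧
        InjOn (Inc (ε i) (Real.pi / 2) (w0 (ε i))) (Metric.ball 0 A)) ∧
      ∀ p0 : ℂ, ‖p0‖ < A → CV 2 l S (fun p => p) p0 ∧ CV 2 l R (fun p => conj p) p0 ∧
        (∀ᶠ q : ι × ℂ in l ×ˢ 𝓝 p0,
          Inc (ε q.1) (Real.pi / 2) (w0 (ε q.1) + v q.1) (S q.1 q.2) =
            Inc (ε q.1) (Real.pi / 2) (w0 (ε q.1)) q.2 ∧
          Inc (ε q.1) (Real.pi / 2) (w0 (ε q.1) + v q.1) (conj (S q.1 q.2)) =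
            Inc (ε q.1) (Real.pi / 2) (w0 (ε q.1)) (R q.1 q.2) ∧
          R q.1 (R q.1 q.2) = q.2) ∧
        ((∀ᶠ q : ι × ℝ in l ×ˢ 𝓝 p0.re, v q.1 q.2 = 0) →
          ∀ᶠ q : ι × ℂ in l ×ˢ 𝓝 p0, R q.1 q.2 = conj q.2) := by
  obtain ⟨Iv, hIvd⟩ : ∃ Iv : ι → ℂ → ℂ,
      Iv = fun i => Inc (ε i) (Real.pi / 2) (w0 (ε i) + v i) := ⟨_, rfl⟩
  obtain ⟨I0, hI0d⟩ : ∃ I0 : ι → ℂ → ℂ, I0 = fun i => Inc (ε i) (Real.pi / 2) (w0 (ε i)) :=
    ⟨_, rfl⟩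
  have hI0 : ∀ z, CV 2 l I0 In0 z := fun z => by
    rw [hI0d]
    exact Inc_CV hε0 (w0_CV (fun i => (hε i).ne') hε0 z.re)
  have hIv : ∀ z, CV 2 l Iv In0 z := fun z => by
    rw [hIvd]
    refine Inc_CV hε0 (((w0_CV (fun i => (hε i).ne') hε0 z.re).add (hv z.re)).congr
      (Eventually.of_forall fun _ => rfl) (Eventually.of_forall fun _ => add_zero _))
  have inj : ∀ {I : ι → ℂ → ℂ}, (∀ z, CV 2 l I In0 z) →
      ∀ᶠ i in l, InjOn (I i) (Metric.ball 0 A) := by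
    intro I hI
    obtain ⟨N, -, hKN, -, h⟩ := CV.inj_nhd (isCompact_closedBall (0 : ℂ) A)
      (fun x _ => hI x) (fun x _ => In0_isInv x) In0_inj.injOn
    exact h.mono fun i hi => hi.mono (Metric.ball_subset_closedBall.trans hKN)
  have hN : ∀ {p : ℂ}, ‖p‖ < A → Metric.ball (0 : ℂ) A ∈ 𝓝 p := fun hp =>
    Metric.isOpen_ball.mem_nhds (mem_ball_zero_iff.2 hp)
  have hconj : ∀ {p : ℂ}, ‖p‖ < A → ‖conj p‖ < A := fun hp => by rwa [Complex.norm_conj]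
  have hconjN : ∀ {p : ℂ}, p ∈ Metric.ball (0 : ℂ) A → conj p ∈ Metric.ball (0 : ℂ) A :=
    fun hp => mem_ball_zero_iff.2 (hconj (mem_ball_zero_iff.1 hp))
  obtain ⟨S, hSd⟩ : ∃ S : ι → ℂ → ℂ,
      S = fun i p => Function.invFunOn (Iv i) (Metric.ball 0 A) (I0 i p) := ⟨_, rfl⟩
  obtain ⟨R, hRd⟩ : ∃ R : ι → ℂ → ℂ,
      R = fun i p => Function.invFunOn (I0 i) (Metric.ball 0 A) (Iv i (conj (S i p))) := ⟨_, rfl⟩
  have hS : ∀ {p : ℂ}, ‖p‖ < A → CV 2 l S (fun p => p) p := fun {p} hp => by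
    rw [hSd]
    exact (((hIv p).invFunOn (In0_isInv p) (hN hp) (inj hIv)
      (Eventually.of_forall In0_linv)).comp (hI0 p)).congr
      (Eventually.of_forall fun _ => rfl) (Eventually.of_forall In0_linv)
  have hSe : ∀ {p : ℂ}, ‖p‖ < A → ∀ᶠ q : ι × ℂ in l ×ˢ 𝓝 p,
      S q.1 q.2 ∈ Metric.ball (0 : ℂ) A ∧ Iv q.1 (S q.1 q.2) = I0 q.1 q.2 := fun {p} hp => by
    rw [hSd]
    exact ev_push (hI0 p).tendsto (P := fun i y =>
      Function.invFunOn (Iv i) (Metric.ball 0 A) y ∈ Metric.ball (0 : ℂ) A ∧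
        Iv i (Function.invFunOn (Iv i) (Metric.ball 0 A) y) = y)
      ((hIv p).invFunOn_right (In0_isInv p) (hN hp) (inj hIv))
  have hC : ∀ {p : ℂ}, ‖p‖ < A →
      CV 2 l (fun i y => Iv i (conj (S i y))) (fun y => In0 (conj y)) p := fun {p} hp =>
    (hIv (conj p)).comp ((hS hp).clm (Complex.conjCLE : ℂ →L[ℝ] ℂ))
  have hR : ∀ {p : ℂ}, ‖p‖ < A → CV 2 l R (fun p => conj p) p := fun {p} hp => by
    rw [hRd]
    have h1 := CV.comp (f := fun i y => Iv i (conj (S i y))) (f0 := fun y => In0 (conj y))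
      ((hI0 (conj p)).invFunOn (In0_isInv _) (hN (hconj hp)) (inj hI0)
      (Eventually.of_forall In0_linv)) (hC hp)
    exact h1.congr (Eventually.of_forall fun _ => rfl) (Eventually.of_forall fun y => In0_linv _)
  have hRe : ∀ {p : ℂ}, ‖p‖ < A → ∀ᶠ q : ι × ℂ in l ×ˢ 𝓝 p,
      R q.1 q.2 ∈ Metric.ball (0 : ℂ) A ∧ I0 q.1 (R q.1 q.2) = Iv q.1 (conj (S q.1 q.2)) :=
    fun {p} hp => by
      rw [hRd]
      exact ev_push (f := fun i y => Iv i (conj (S i y))) (hC hp).tendsto (P := fun i y =>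
        Function.invFunOn (I0 i) (Metric.ball 0 A) y ∈ Metric.ball (0 : ℂ) A ∧
          I0 i (Function.invFunOn (I0 i) (Metric.ball 0 A) y) = y)
        ((hI0 (conj p)).invFunOn_right (In0_isInv _) (hN (hconj hp)) (inj hI0))
  have e1 : ∀ i, Inc (ε i) (Real.pi / 2) (w0 (ε i) + v i) = Iv i := fun i => by rw [hIvd]
  have e0 : ∀ i, Inc (ε i) (Real.pi / 2) (w0 (ε i)) = I0 i := fun i => by rw [hI0d]
  simp only [e1, e0]
  refine ⟨S, R, (inj hIv).and (inj hI0), fun p0 hp => ⟨hS hp, hR hp, ?_, fun hv0 => ?_⟩⟩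
  · have h1 := ev_push (hR hp).tendsto (P := fun i y =>
      (S i y ∈ Metric.ball (0 : ℂ) A ∧ Iv i (S i y) = I0 i y) ∧
        (R i y ∈ Metric.ball (0 : ℂ) A ∧ I0 i (R i y) = Iv i (conj (S i y))))
      ((hSe (hconj hp)).and (hRe (hconj hp)))
    filter_upwards [hSe hp, hRe hp, h1, ev_fst (x := p0) (inj hIv), ev_fst (x := p0) (inj hI0),
      ev_snd (l := l) (P := fun y => y ∈ Metric.ball (0 : ℂ) A) (hN hp)] with q a1 a2 a3 a4 a5 a6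
    refine ⟨a1.2, a2.2.symm, a5 a3.2.1 a6 ?_⟩
    have : S q.1 (R q.1 q.2) = conj (S q.1 q.2) := a4 a3.1.1 (hconjN a1.1) (a3.1.2.trans a2.2)
    rw [a3.2.2, this, conj_conj, a1.2]
  · have h1 := ev_push (l := l) (x := p0) (f := fun _ (y : ℂ) => y.re)
      ((Complex.continuous_re.tendsto p0).comp tendsto_snd)
      (P := fun i a => ∀ᶠ b in 𝓝 a, v i b = 0) (ev_ev (P := fun i b => v i b = 0) hv0)
    filter_upwards [hSe hp, hRe hp, h1, ev_fst (x := p0) (inj hIv), ev_fst (x := p0) (inj hI0),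
      ev_snd (l := l) (P := fun y => y ∈ Metric.ball (0 : ℂ) A) (hN hp)] with q a1 a2 a3 a4 a5 a6
    have hw : (w0 (ε q.1) + v q.1) =ᶠ[𝓝 q.2.re] w0 (ε q.1) :=
      a3.mono fun b hb => by rw [Pi.add_apply, hb, add_zero]
    have b1 : Iv q.1 q.2 = I0 q.1 q.2 := by
      rw [← e1, ← e0]
      exact Inc_congr hw
    have b2 : Iv q.1 (conj q.2) = I0 q.1 (conj q.2) := by
      rw [← e1, ← e0]
      exact Inc_congr (by rwa [Complex.conj_re])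
    have b3 : S q.1 q.2 = q.2 := a4 a1.1 a6 (a1.2.trans b1.symm)
    exact a5 a2.1 (hconjN a6) (by rw [a2.2, b3, b2])

end Pool.Agent.Lib.MP_0281e9_an
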