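import Pool.Agent.Lib.MP_0281e9_an.ModelC

namespace Pool.Agent.Lib.MP_0281e9_an.BM

open Set Filter Complex MeasureTheory Topology
open scoped ContDiff ComplexConjugate Manifold

noncomputable section

variable {Q : ℂ → ℂ}

lemma rad_bound {v : ℂ} (h0 : v ≠ 0) (h : normSq v < 1 / 256) : rad 0 v ≠ 0 ∧ ‖rad 0 v‖ < 1 / 8 := by
  have h1 := normSq_rad h0 h.le
  have h2 : 0 < del ^ 2 + cc * normSq v :=
    add_pos (pow_pos del_pos 2) (mul_pos cc_pos (normSq_pos.2 h0))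
  refine ⟨normSq_pos.1 (h1 ▸ Real.sqrt_pos.2 h2), norm_lt_of_normSq (by norm_num) ?_⟩
  rw [h1, Real.sqrt_lt' (by norm_num)]
  unfold del cc
  linarith

lemma J_p0_near (hR : RF) (hQ : CF Q) (m n : ℤ) {z : ℂ} (h0 : z ≠ 0) (h : normSq z < 1 / 256) :
    J (p0 Q) (lp m n + z) = J (mm (cls m n)) (om z) * (2 * cc) := by
  have hc : Continuous fun y : ℂ => y - lp m n := continuous_id.sub continuous_const
  have e1 : ∀ᶠ y in 𝓝 (lp m n + z), y - lp m n ≠ 0 :=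
    hc.continuousAt.eventually_ne (by simpa using h0)
  have e2 : ∀ᶠ y in 𝓝 (lp m n + z), normSq (y - lp m n) < 1 / 256 :=
    (continuous_normSq.comp hc).continuousAt.eventually_lt continuousAt_const (by simpa using h)
  have e3 : p0 Q =ᶠ[𝓝 (lp m n + z)] fun y => mm (cls m n) (om (y - lp m n)) := by
    filter_upwards [e1, e2] with y h1 h2
    have h3 : ‖y - lp m n‖ < 1 / 2 := norm_lt_of_normSq (by norm_num) (h2.trans (by norm_num))
    have h4 := hR.near m n _ h3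
    rw [add_sub_cancel] at h4
    rw [p0, h4, hQ.chart m n _ (rad_bound h1 h2).2, rad_sq h2.le]
  have ha : om z ≠ ca (cls m n) := by
    rw [← rad_sq h.le]
    refine ne_ca (Or.inl (pow_ne_zero 2 (rad_bound h0 h).1)) ?_
    rw [norm_pow]
    nlinarith [(rad_bound h0 h).2, norm_nonneg (rad 0 z)]
  have e4 : lp m n + z - lp m n = z := add_sub_cancel_left _ _
  have d1 : DifferentiableAt ℝ (fun y : ℂ => y - lp m n) (lp m n + z) :=
    differentiableAt_id.sub_const _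
  have d2 : DifferentiableAt ℝ om (lp m n + z - lp m n) := e4.symm ▸ (om_deriv h0).1
  have j1 : J (fun y : ℂ => y - lp m n) (lp m n + z) = 1 := by
    have := J_affine (ContinuousLinearMap.id ℝ ℂ) (-lp m n) (lp m n + z)
    rw [det_eq] at this
    simpa [sub_eq_add_neg] using this
  rw [J_congr e3, J_comp (g := mm (cls m n)) (f := fun y => om (y - lp m n))
    (by rw [e4]; exact cd_diff (mm_smooth ha))
    (DifferentiableAt.comp (g := om) (lp m n + z) d2 d1),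
    J_comp (g := om) (f := fun y => y - lp m n) d2 d1, j1, e4,
    (om_deriv h0).2, mul_one]

lemma J_p0_collar (hR : RF) (hQ : CF Q) {z : ℂ} (hz : z ∈ U) {j : Fin 4}
    (h1 : p0 Q z + cd j ≠ 0) (h2 : ‖nn j (p0 Q z)‖ < 6 / 5 * del) :
    J (p0 Q) z = J (mm j) (nn j (p0 Q z)) * (2 * cc) := by
  have h3 : del < ‖nn j (p0 Q z)‖ := not_le.1 fun h => not_hole hR hQ hz j ((hole_iff h1).2 h)
  obtain ⟨m, n, u, rfl, h4, hu, hV⟩ := exists_pre j (h2.trans (by norm_num [del])) (nn_ne h1)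
  have h5 : normSq u = ‖nn (cls m n) (p0 Q z)‖ := by rw [← h4, norm_pow, normSq_eq_norm_sq]
  obtain ⟨z1, h6, h7, rfl⟩ := exists_radi (w := u) (ρ := 1 / 256) le_rfl (h5 ▸ h3) (by
    rw [h5]
    refine (pow_lt_pow_left₀ h2 (norm_nonneg _) two_ne_zero).trans_le ?_
    norm_num [del, cc])
  have h8 : ‖z1‖ < 1 / 2 := norm_lt_of_normSq (by norm_num) (h7.trans (by norm_num))
  have h9 : p0 Q z = p0 Q (lp m n + z1) := by
    conv_rhs => rw [p0, hR.near m n z1 h8, hQ.chart m n _ hu, h4, mm_nn h1]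
  rw [← p0_J_rel hR hQ hz (p0_rel hR hQ hz (near_mem_U m n h6 h8) h9), J_p0_near hR hQ m n h6 h7,
    ← rad_sq h7.le, h4]

lemma p0_bound (hR : RF) (hQ : CF Q) {z : ℂ} (hz : z ∈ U) : ‖p0 Q z‖ < 5120 := by
  have h := not_hole hR hQ hz 3
  refine norm_lt_of_normSq (by norm_num) ?_
  simp [Hole, ca, cb, cd, del] at h
  norm_num at h ⊢
  linarith

lemma exists_m0 (hR : RF) (hQ : CF Q) : ∃ m : ℂ → ℝ, ContDiff ℝ ∞ m ∧ (∀ w, 0 < m w) ∧
    (∀ w, m (conj w) = m w) ∧ (∀ z ∈ U, m (p0 Q z) = |J (p0 Q) z|⁻¹) ∧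
    ∀ w, 5121 ≤ ‖w‖ → m w = 1 := by
  let t : ℂ → Set ℝ := fun w =>
    {a | 0 < a ∧ (∀ z ∈ U, p0 Q z = w → a = |J (p0 Q) z|⁻¹) ∧ (5121 ≤ ‖w‖ → a = 1)}
  have ht : ∀ w, Convex ℝ (t w) := by
    intro w a ha b hb s r hs hr hsr
    refine ⟨(convex_Ioi (0 : ℝ)) ha.1 hb.1 hs hr hsr, fun z hz h => ?_, fun h => ?_⟩
    · rw [ha.2.1 z hz h, hb.2.1 z hz h, ← add_smul, hsr, one_smul]
    · rw [ha.2.2 h, hb.2.2 h, ← add_smul, hsr, one_smul]
  let G : ℂ → ℝ := fun w => |J (p0 Q) (Function.invFunOn (p0 Q) U w)|⁻¹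
  have hG : ∀ z ∈ U, G (p0 Q z) = |J (p0 Q) z|⁻¹ := fun z hz => by
    have h : ∃ a ∈ U, p0 Q a = p0 Q z := ⟨z, hz, rfl⟩
    simp only [G]
    rw [p0_J_rel hR hQ hz (p0_rel hR hQ hz (Function.invFunOn_mem h)
      (Function.invFunOn_eq h).symm)]
  have hG2 : ∀ z ∈ U, p0 Q '' U ∈ 𝓝 (p0 Q z) ∧ ContDiffAt ℝ ∞ G (p0 Q z) := fun z hz => by
    obtain ⟨ψ, h1, h2, h3⟩ := locinv' (p0_smooth hR hQ hz) (p0_J_ne hR hQ hz)
      (isOpen_U.mem_nhds hz)
    refine ⟨h3.mono fun y hy => ⟨_, hy.1, hy.2⟩, ?_⟩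
    have h4 : ContDiffAt ℝ ∞ (fun y => J (p0 Q) (ψ y)) (p0 Q z) := by
      refine ContDiffAt.comp (g := J (p0 Q)) _ ?_ h1
      rw [h2]
      exact J_smooth (p0_smooth hR hQ hz)
    have h5 : J (p0 Q) (ψ (p0 Q z)) ≠ 0 := by
      rw [h2]
      exact p0_J_ne hR hQ hz
    refine ((h4.abs h5).inv (abs_ne_zero.2 h5)).congr_of_eventuallyEq (h3.mono fun y hy => ?_)
    conv_lhs => rw [← hy.2]
    exact hG _ hy.1
  obtain ⟨g, hg⟩ := exists_contMDiffMap_forall_mem_convex_of_local (n := ⊤) 𝓘(ℝ, ℂ) ht (by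
    intro w
    rcases mem_or_hole hR hQ w with ⟨z, hz, rfl⟩ | ⟨j, hj⟩
    · refine ⟨_, (hG2 z hz).1, G, contMDiffOn_iff_contDiffOn.2 ?_, ?_⟩
      · rintro _ ⟨y, hy, rfl⟩
        exact (hG2 y hy).2.contDiffWithinAt
      · rintro _ ⟨y, hy, rfl⟩
        refine ⟨?_, fun y' hy' h => ?_, fun h => ?_⟩
        · rw [hG y hy]
          exact inv_pos.2 (abs_pos.2 (p0_J_ne hR hQ hy))
        · rw [← h, hG y' hy']
        · linarith [p0_bound hR hQ hy]
    by_cases hw : 5120 < ‖w‖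
    · refine ⟨{y | 5120 < ‖y‖}, (isOpen_lt continuous_const continuous_norm).mem_nhds hw,
        fun _ => 1, contMDiffOn_const, fun y hy => ⟨one_pos, fun z hz h => ?_, fun _ => rfl⟩⟩
      have := p0_bound hR hQ hz
      rw [h] at this
      exact absurd hy this.not_gt
    · have h1 : ∀ᶠ y : ℂ in 𝓝 w, y + cd j ≠ 0 ∧ ‖nn j y‖ < 6 / 5 * del := by
        have := near_chart (r := 6 / 5 * del) (nn_ne hj.ne)
          (((hole_iff hj.ne).1 hj).trans_lt (by norm_num [del]))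
        rwa [mm_nn hj.ne] at this
      have h2 : ∀ᶠ y : ℂ in 𝓝 w, ‖y‖ < 5121 :=
        continuous_norm.continuousAt.eventually_lt continuousAt_const (by linarith)
      have h3 : ∀ y : ℂ, y + cd j ≠ 0 → J (mm j) (nn j y) * (2 * cc) ≠ 0 := fun y hy =>
        mul_ne_zero (J_mm_ne (nn_ne hy)) (mul_pos two_pos cc_pos).ne'
      refine ⟨_, h1.and h2, fun y => |J (mm j) (nn j y) * (2 * cc)|⁻¹,
        contMDiffOn_iff_contDiffOn.2 fun y hy => ?_, fun y hy => ⟨?_, fun z hz h => ?_, fun h => ?_⟩⟩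
      · have h4 : ContDiffAt ℝ ∞ (fun y => J (mm j) (nn j y) * (2 * cc)) y :=
          ((J_smooth (mm_smooth (nn_ne hy.1.1))).comp y (nn_smooth hy.1.1)).mul contDiffAt_const
        exact ((h4.abs (h3 y hy.1.1)).inv (abs_ne_zero.2 (h3 y hy.1.1))).contDiffWithinAt
      · exact inv_pos.2 (abs_pos.2 (h3 y hy.1.1))
      · subst h
        rw [J_p0_collar hR hQ hz hy.1.1 hy.1.2]
      · exact absurd hy.2 h.not_gt)
  have hs : ContDiff ℝ ∞ g := contMDiff_iff_contDiff.1 g.contMDiff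
  refine ⟨fun w => (g w + g (conj w)) / 2,
    (hs.add (hs.comp (conjCLE : ℂ →L[ℝ] ℂ).contDiff)).div_const _,
    fun w => by linarith [(hg w).1, (hg (conj w)).1], fun w => by simp [add_comm],
    fun z hz => ?_, fun w hw => ?_⟩
  · have h1 := (hg _).2.1 z hz rfl
    have h2 := (hg _).2.1 _ (U_conj hz) (p0_conj hR hQ z)
    rw [p0_J_conj hR hQ hz] at h2
    simp only [h1, h2]
    ring
  · have h1 := (hg w).2.2 hw
    have h2 := (hg (conj w)).2.2 (by simpa using hw)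
    simp only [h1, h2]
    ring

lemma hole_re (j : Fin 4) (x t : ℝ) : Hole j (x + t * I) ↔
    (ca j * x + cb j) ^ 2 + ca j ^ 2 * t ^ 2 ≤ del ^ 2 * ((x + cd j) ^ 2 + t ^ 2) := by
  rw [Hole]
  refine iff_of_eq (congrArg₂ _ ?_ (congrArg _ ?_)) <;> simp [normSq_apply] <;> ring

lemma hole_lt {j : Fin 4} (hj : j ≠ 3) {x t : ℝ} (h : Hole j (x + t * I)) :
    |x| < 10 ∧ t ^ 2 < 1 ∧ ∀ s : ℝ, s ^ 2 ≤ t ^ 2 → Hole j (x + s * I) := by
  simp only [hole_re, abs_lt] at h ⊢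
  have : j = 0 ∨ j = 1 ∨ j = 2 := by
    clear h
    revert j
    decide
  rcases this with rfl | rfl | rfl
  all_goals
    simp only [ca, cb, cd, del, Matrix.cons_val] at h ⊢
    have h1 : -10 < x := by nlinarith [sq_nonneg t, sq_nonneg x]
    have h2 : x < 10 := by nlinarith [sq_nonneg t, sq_nonneg x]
    have h3 : x ^ 2 < 100 := by nlinarith
    refine ⟨⟨h1, h2⟩, ?_, fun s hs => by linarith⟩
  · nlinarith [sq_nonneg (2 * x + 10)]
  · nlinarith [sq_nonneg (-99 * x + 10)]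
  · nlinarith [sq_nonneg (101 * x + 10)]

lemma hole_three {x t : ℝ} (h : Hole 3 (x + t * I)) :
    (|x| < 20 → 1 < t ^ 2) ∧ ∀ s : ℝ, t ^ 2 ≤ s ^ 2 → Hole 3 (x + s * I) := by
  simp only [hole_re, abs_lt] at h ⊢
  simp only [ca, cb, cd, del, Matrix.cons_val] at h ⊢
  exact ⟨fun h1 => by nlinarith [h1.1, h1.2], fun s hs => by linarith⟩

lemma prim_odd {d : ℂ → ℝ} (hc : Continuous d) (hodd : ∀ w, d (conj w) = -d w)
    (h0 : ∀ w, (∀ j, ¬ Hole j w) → d w = 0) {χ : ℝ → ℝ} (h1 : ∀ x, |x| ≤ 10 → χ x = 1)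
    (h2 : ∀ x, 20 ≤ |x| → χ x = 0) {x y : ℝ} (h : ∀ j, ¬ Hole j (x + y * I)) :
    prim d x y = χ x * prim d x 1 := by
  wlog hy : 0 ≤ y generalizing y
  · have e : prim d x (- -y) = prim d x (-y) := by
      rw [prim_neg]
      simp only [hodd, prim, intervalIntegral.integral_neg, neg_neg]
    rw [neg_neg] at e
    rw [e]
    refine this (fun j hj => h j ?_) (by linarith)
    simpa only [hole_re, neg_sq] using hj
  have zero : ∀ a b : ℝ, (∀ t ∈ uIcc a b, ∀ j, ¬ Hole j (x + t * I)) →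
      ∫ t in a..b, d (x + t * I) = 0 := fun a b hab => by
    rw [intervalIntegral.integral_congr (g := fun _ => 0) fun t ht => h0 _ (hab t ht)]
    simp
  by_cases hx : |x| ≤ 10
  · rw [h1 x hx, one_mul, prim, prim, ← intervalIntegral.integral_add_adjacent_intervals
      (b := 1) ((cont_line hc x).intervalIntegrable _ _) ((cont_line hc x).intervalIntegrable _ _),
      zero 1 y, add_zero]
    intro t ht j hj
    by_cases h3 : j = 3
    · subst h3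
      have h4 := (hole_three hj).1 (by linarith)
      refine h 3 ((hole_three hj).2 y ?_)
      rcases mem_uIcc.1 ht with h5 | h5 <;> nlinarith [h5.1, h5.2]
    · have h4 := (hole_lt h3 hj).2.1
      refine h j ((hole_lt h3 hj).2.2 y ?_)
      rcases mem_uIcc.1 ht with h5 | h5 <;> nlinarith [h5.1, h5.2]
  · have h3 : prim d x y = 0 := zero 0 y fun t ht j hj => by
      by_cases h3 : j = 3
      · subst h3
        rw [uIcc_of_le hy] at ht
        exact h 3 ((hole_three hj).2 y (by nlinarith [ht.1, ht.2]))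
      · exact hx (hole_lt h3 hj).1.le
    rw [h3]
    by_cases h4 : 20 ≤ |x|
    · rw [h2 x h4, zero_mul]
    · have h5 : prim d x 1 = 0 := zero 0 1 fun t ht j hj => by
        by_cases h3 : j = 3
        · subst h3
          rw [uIcc_of_le zero_le_one] at ht
          have := (hole_three hj).1 (not_le.1 h4)
          nlinarith [ht.1, ht.2]
        · exact hx (hole_lt h3 hj).1.le
      rw [h5, mul_zero]

def xx (j : Fin 4) (ξ : ℝ) : ℝ :=
  ((ca j * cd j + cb j) * del * ξ - cd j * del ^ 2 - ca j * cb j) /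
    (ca j ^ 2 + del ^ 2 - 2 * ca j * del * ξ)

lemma xx_re (j : Fin 4) (ζ : ℂ) (h : ‖ζ‖ = 1) : (mm j (del * ζ)).re = xx j ζ.re := by
  have h1 : ζ.re ^ 2 + ζ.im ^ 2 = 1 := by
    have := normSq_eq_norm_sq ζ
    rw [h, normSq_apply] at this
    linarith
  rw [mm, div_re, ← add_div, xx]
  congr 1
  · simp
    linear_combination (-cd j * del ^ 2) * h1
  · simp [normSq_apply]
    linear_combination (del ^ 2) * h1

lemma xx_den (j : Fin 4) {ξ : ℝ} (h : ξ ∈ Icc (-1 : ℝ) 1) :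
    0 < ca j ^ 2 + del ^ 2 - 2 * ca j * del * ξ := by
  obtain ⟨h1, h2⟩ := h
  fin_cases j <;> simp [ca, del] <;> norm_num <;> linarith

lemma xx_deriv (j : Fin 4) {ξ : ℝ} (h : ξ ∈ Icc (-1 : ℝ) 1) :
    DifferentiableAt ℝ (xx j) ξ ∧ deriv (xx j) ξ ≠ 0 := by
  have hd := (xx_den j h).ne'
  have h1 : HasDerivAt (xx j) (del * dl j * (ca j ^ 2 - del ^ 2) /
      (ca j ^ 2 + del ^ 2 - 2 * ca j * del * ξ) ^ 2) ξ := by
    refine ((((hasDerivAt_id ξ).const_mul ((ca j * cd j + cb j) * del)).sub_const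
      (cd j * del ^ 2)).sub_const (ca j * cb j)).div
      (((hasDerivAt_id ξ).const_mul (2 * ca j * del)).const_sub (ca j ^ 2 + del ^ 2)) hd
      |>.congr_deriv ?_
    simp only [id, dl]
    congr 1
    ring
  refine ⟨h1.differentiableAt, ?_⟩
  rw [h1.deriv]
  refine div_ne_zero (mul_ne_zero (mul_ne_zero del_pos.ne' (dl_ne j)) ?_) (pow_ne_zero 2 hd)
  fin_cases j <;> norm_num [ca, del]

lemma xx_range {ξ : ℝ} (h : ξ ∈ Icc (-1 : ℝ) 1) : xx 0 ξ ∈ Ioo (-10 : ℝ) (-1) ∧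
    xx 1 ξ ∈ Ioo (0 : ℝ) 10 ∧ xx 2 ξ ∈ Ioo (-1 : ℝ) 0 ∧ xx 3 ξ = -5120 * ξ := by
  obtain ⟨h1, h2⟩ := id h
  refine ⟨⟨?_, ?_⟩, ⟨?_, ?_⟩, ⟨?_, ?_⟩, ?_⟩
  any_goals
    first
    | rw [xx, lt_div_iff₀ (xx_den _ h)]
    | rw [xx, div_lt_iff₀ (xx_den _ h)]
    | rw [xx, div_eq_iff (xx_den _ h).ne']
  all_goals
    simp only [ca, cb, cd, del, Matrix.cons_val]
    linarith

lemma xx_sep (i j : Fin 4) (hij : j < i) (ξ : ℝ) (h : ξ ∈ Icc (-1 : ℝ) 1) (ξ' : ℝ)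
    (h' : ξ' ∈ Icc (1 / 2 : ℝ) (17 / 20) ∨ ξ' = 1 ∨ ξ' = -1) : xx i ξ' ≠ xx j ξ := by
  have h1 : ξ' ∈ Icc (-1 : ℝ) 1 ∧ (1 / 2 ≤ ξ' ∨ ξ' = -1) := by
    rcases h' with ⟨a, b⟩ | rfl | rfl
    · exact ⟨⟨by linarith, by linarith⟩, Or.inl a⟩
    · norm_num
    · norm_num
  obtain ⟨⟨a1, a2⟩, ⟨a3, a4⟩, ⟨a5, a6⟩, -⟩ := xx_range h
  obtain ⟨-, ⟨b3, b4⟩, ⟨b5, b6⟩, b7⟩ := xx_range h1.1
  intro e
  fin_cases i <;> fin_cases j <;> simp at hij e <;> rcases h1.2 with h2 | h2 <;> linarith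

end

end Pool.Agent.Lib.MP_0281e9_an.BM
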