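import Pool.Agent.Lib.MP_0281e9_an.Base
import Pool.Agent.Lib.MP_0281e9_an.Conv

namespace Pool.Agent.Lib.MP_0281e9_an

open Set Filter Complex Topology
open scoped ContDiff ComplexConjugate NNReal

namespace BR

@[simp] lemma lp_re (m n : ℤ) : (lp m n).re = m := by simp [lp]
@[simp] lemma lp_im (m n : ℤ) : (lp m n).im = n := by simp [lp]

lemma lat_add_fr (z : ℂ) : lat z + fr z = z := by simp [fr]

lemma round_near (m : ℤ) {x : ℝ} (hx : |x| < 1 / 2) : round ((m : ℝ) + x) = m := by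
  rw [round_intCast_add]
  have : round x = 0 := by
    rw [round_eq_zero_iff]
    exact ⟨(abs_lt.1 hx).1.le, (abs_lt.1 hx).2⟩
  simp [this]

lemma round_re_near (m n : ℤ) {z : ℂ} (hz : ‖z‖ < 1 / 2) : round (lp m n + z).re = m := by
  simpa using round_near m ((abs_re_le_norm z).trans_lt hz)

lemma round_im_near (m n : ℤ) {z : ℂ} (hz : ‖z‖ < 1 / 2) : round (lp m n + z).im = n := by
  simpa using round_near n ((abs_im_le_norm z).trans_lt hz)

lemma lat_near (m n : ℤ) {z : ℂ} (hz : ‖z‖ < 1 / 2) : lat (lp m n + z) = lp m n := by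
  rw [lat, round_re_near m n hz, round_im_near m n hz]

lemma fr_near (m n : ℤ) {z : ℂ} (hz : ‖z‖ < 1 / 2) : fr (lp m n + z) = z := by
  rw [fr, lat_near m n hz]; ring

lemma zcls_near (m n : ℤ) {z : ℂ} (hz : ‖z‖ < 1 / 2) : zcls (lp m n + z) = cls m n := by
  rw [zcls, round_re_near m n hz, round_im_near m n hz]

lemma fr_min (z : ℂ) (m n : ℤ) : normSq (fr z) ≤ normSq (z - lp m n) := by
  have h1 := round_le z.re m
  have h2 := round_le z.im n
  have e1 := sq_le_sq.2 h1
  have e2 := sq_le_sq.2 h2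
  simp only [normSq_apply, fr, lat, sub_re, sub_im, lp_re, lp_im]
  nlinarith

lemma fr_min' (z : ℂ) (m n : ℤ) : ‖fr z‖ ≤ ‖z - lp m n‖ := by
  have := fr_min z m n
  rw [normSq_eq_norm_sq, normSq_eq_norm_sq] at this
  exact (sq_le_sq₀ (norm_nonneg _) (norm_nonneg _)).1 this

lemma fr_le (z : ℂ) : normSq (fr z) ≤ 1 := by
  have h1 := abs_sub_round z.re
  have h2 := abs_sub_round z.im
  simp only [normSq_apply, fr, lat, sub_re, sub_im, lp_re, lp_im]
  have e1 := abs_le.1 h1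
  have e2 := abs_le.1 h2
  nlinarith [e1.1, e1.2, e2.1, e2.2]

lemma mem_U_iff {z : ℂ} : z ∈ U ↔ fr z ≠ 0 := by
  constructor
  · intro h h0
    apply h
    have : z = lat z := by simpa [fr, sub_eq_zero] using h0
    exact ⟨⟨round z.re, by conv_lhs => rw [this]; simp [lat]⟩,
      ⟨round z.im, by conv_lhs => rw [this]; simp [lat]⟩⟩
  · rintro h ⟨⟨m, hm⟩, n, hn⟩
    apply h
    apply Complex.ext <;> simp [fr, lat, hm, hn]

lemma norm_lt_of_normSq {w : ℂ} (h : normSq w < 1 / 4) : ‖w‖ < 1 / 2 := by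
  rw [normSq_eq_norm_sq] at h
  nlinarith [norm_nonneg w]

lemma Sfun_far {ρ : ℝ} (h : 1 / 128 ≤ ρ) : Sfun ρ = ρ ^ 2 := by
  have : Real.smoothTransition (256 * ρ - 1) = 1 :=
    Real.smoothTransition.one_of_one_le (by linarith)
  simp [Sfun, this]

lemma chi2_far {ρ : ℝ} (h : 1 / 256 ≤ ρ) : chi2 ρ = 0 :=
  Real.smoothTransition.zero_of_nonpos (by linarith)

lemma chi2_nonneg (ρ : ℝ) : 0 ≤ chi2 ρ := Real.smoothTransition.nonneg _
lemma chi2_le (ρ : ℝ) : chi2 ρ ≤ 1 := Real.smoothTransition.le_one _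

lemma Sfun_smooth : ContDiff ℝ ∞ Sfun := by
  have h : ContDiff ℝ ∞ fun ρ : ℝ => Real.smoothTransition (256 * ρ - 1) :=
    Real.smoothTransition.contDiff.comp (by fun_prop)
  unfold Sfun
  exact ((contDiff_const.sub h).mul (by fun_prop)).add (h.mul (by fun_prop))

lemma chi2_smooth : ContDiff ℝ ∞ chi2 :=
  Real.smoothTransition.contDiff.comp (by fun_prop)

/-- the excess of `Sfun` over its linear part -/
noncomputable def ex (ρ : ℝ) : ℝ :=
  Real.smoothTransition (256 * ρ - 1) * (ρ ^ 2 - (del ^ 2 + cc * ρ))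

lemma Sfun_eq (ρ : ℝ) : Sfun ρ = del ^ 2 + cc * ρ + ex ρ := by
  unfold Sfun ex; ring

lemma ex_zero {ρ : ℝ} (h : ρ ≤ 1 / 256) : ex ρ = 0 := by
  have : Real.smoothTransition (256 * ρ - 1) = 0 :=
    Real.smoothTransition.zero_of_nonpos (by linarith)
  simp [ex, this]

lemma ex_nonneg (ρ : ℝ) : 0 ≤ ex ρ := by
  rcases le_total ρ (1 / 256) with h | h
  · rw [ex_zero h]
  · refine mul_nonneg (Real.smoothTransition.nonneg _) ?_
    unfold del cc
    nlinarith

lemma ex_mono : Monotone ex := by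
  intro a b hab
  rcases le_total a (1 / 256) with h | h
  · rw [ex_zero h]; exact ex_nonneg b
  · refine mul_le_mul (Real.smoothTransition.monotone (by linarith)) ?_ ?_
      (Real.smoothTransition.nonneg _)
    · unfold del cc; nlinarith
    · unfold del cc; nlinarith

lemma cc_pos : 0 < cc := by unfold cc; norm_num
lemma del_pos : 0 < del := by unfold del; norm_num

lemma Sfun_ge (ρ : ℝ) : del ^ 2 + cc * ρ ≤ Sfun ρ := by
  rw [Sfun_eq]; linarith [ex_nonneg ρ]

lemma Sfun_pos {ρ : ℝ} (h : 0 ≤ ρ) : 0 < Sfun ρ := by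
  have := Sfun_ge ρ
  have h1 := mul_nonneg cc_pos.le h
  have h2 := pow_pos del_pos 2
  linarith

lemma Sfun_sub {a b : ℝ} (h : a ≤ b) : cc * (b - a) ≤ Sfun b - Sfun a := by
  rw [Sfun_eq, Sfun_eq]; linarith [ex_mono h]

lemma Sfun_le {ρ : ℝ} (h : ρ ≤ 1 / 128) : Sfun ρ ≤ (1 / 128) ^ 2 := by
  have h1 := Sfun_sub h
  have h2 : Sfun (1 / 128) = (1 / 128) ^ 2 := Sfun_far le_rfl
  have h3 := mul_nonneg cc_pos.le (sub_nonneg.2 h)
  linarith

lemma deriv_Sfun_pos (ρ : ℝ) : 0 < deriv Sfun ρ := by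
  have hm : Monotone fun x => Sfun x - cc * x := by
    intro a b hab
    have := Sfun_sub hab
    simp only
    linarith
  have h1 := hm.deriv_nonneg (x := ρ)
  have hd : HasDerivAt (fun x => Sfun x - cc * x) (deriv Sfun ρ - cc * 1) ρ :=
    ((Sfun_smooth.differentiable (by simp)) ρ).hasDerivAt.sub ((hasDerivAt_id ρ).const_mul cc)
  rw [hd.deriv] at h1
  linarith [cc_pos]

lemma rad_far (s : ℝ → ℝ) {w : ℂ} (h : 1 / 128 ≤ normSq w) : rad s w = w := by
  have h0 : 0 < normSq w := by linarith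
  rw [rad, Sfun_far h, chi2_far (by linarith), zero_mul, add_zero, Real.sqrt_sq h0.le,
    div_self h0.ne', Real.sqrt_one, one_smul]

lemma rad_neg (s : ℝ → ℝ) (w : ℂ) : rad s (-w) = -rad s w := by
  simp [rad]

lemma rad_conj (s : ℝ → ℝ) (w : ℂ) : rad s (conj w) = conj (rad s w) := by
  have : (conj w ^ 2).re = (w ^ 2).re := by rw [← map_pow, conj_re]
  simp [rad, this]

lemma normSq_smul (t : ℝ) (w : ℂ) : normSq (t • w) = t ^ 2 * normSq w := by
  simp [normSq_apply]; ring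

lemma normSq_rad (s : ℝ → ℝ) {w : ℂ} (hw : w ≠ 0) :
    normSq (rad s w) =
      Real.sqrt (Sfun (normSq w) + chi2 (normSq w) * s ((w ^ 2).re / normSq w)) := by
  have h0 : 0 < normSq w := normSq_pos.2 hw
  rw [rad, normSq_smul, Real.sq_sqrt (div_nonneg (Real.sqrt_nonneg _) h0.le)]
  field_simp

lemma xi_mem (w : ℂ) : (w ^ 2).re / normSq w ∈ Icc (-1 : ℝ) 1 := by
  rcases eq_or_ne w 0 with rfl | hw
  · simp
  have h0 : 0 < normSq w := normSq_pos.2 hw
  have e : (w ^ 2).re = w.re * w.re - w.im * w.im := by simp [sq]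
  rw [mem_Icc, le_div_iff₀ h0, div_le_iff₀ h0, e, normSq_apply]
  constructor <;> nlinarith [mul_self_nonneg w.re, mul_self_nonneg w.im]

lemma cls_add (a b m n : ℤ) : cls (a + 2 * m) (b + 2 * n) = cls a b := by
  simp [cls, Int.even_add]

lemma cls_neg (a b : ℤ) : cls (-a) (-b) = cls a b := by simp [cls]
lemma cls_neg' (a b : ℤ) : cls a (-b) = cls a b := by simp [cls]

end BR

open BR

theorem Erad_add (σ : Fin 4 → ℝ → ℝ) (z : ℂ) (m n : ℤ) :
    Erad σ (z + 2 * lp m n) = Erad σ z + 2 * lp m n := by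
  have h1 : round (z + 2 * lp m n).re = round z.re + 2 * m := by
    have : (z + 2 * lp m n).re = z.re + ((2 * m : ℤ) : ℝ) := by simp
    rw [this, round_add_intCast]
  have h2 : round (z + 2 * lp m n).im = round z.im + 2 * n := by
    have : (z + 2 * lp m n).im = z.im + ((2 * n : ℤ) : ℝ) := by simp
    rw [this, round_add_intCast]
  have h3 : lat (z + 2 * lp m n) = lat z + 2 * lp m n := by
    rw [lat, h1, h2, lat]
    simp only [lp]; push_cast; ring
  have h4 : fr (z + 2 * lp m n) = fr z := by rw [fr, h3, fr]; ring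
  have h5 : zcls (z + 2 * lp m n) = zcls z := by rw [zcls, h1, h2, cls_add, zcls]
  rw [Erad, h3, h4, h5, Erad]; ring

theorem Erad_near (σ : Fin 4 → ℝ → ℝ) (m n : ℤ) (z : ℂ) (hz : ‖z‖ < 1 / 2) :
    Erad σ (lp m n + z) = lp m n + rad (σ (cls m n)) z := by
  rw [Erad, lat_near m n hz, fr_near m n hz, zcls_near m n hz]

theorem Erad_far (σ : Fin 4 → ℝ → ℝ) (z : ℂ) (hz : 1 / 128 ≤ normSq (fr z)) : Erad σ z = z := by
  rw [Erad, rad_far _ hz, lat_add_fr]

theorem Erad_neg (σ : Fin 4 → ℝ → ℝ) (z : ℂ) : Erad σ (-z) = -Erad σ z := by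
  rcases lt_or_ge (normSq (fr z)) (1 / 4) with h | h
  · have hn := norm_lt_of_normSq h
    have e : -z = lp (-round z.re) (-round z.im) + -fr z := by
      simp only [fr, lat, lp]; push_cast; ring
    rw [e, Erad_near σ _ _ _ (by simpa using hn), cls_neg, rad_neg, Erad, zcls]
    simp only [lat, lp]; push_cast; ring
  · have h1 := fr_min z (-round (-z).re) (-round (-z).im)
    have e : z - lp (-round (-z).re) (-round (-z).im) = -fr (-z) := by
      simp only [fr, lat, lp]; push_cast; ring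
    rw [e, normSq_neg] at h1
    rw [Erad_far σ z (by linarith), Erad_far σ (-z) (by linarith)]

theorem Erad_conj (σ : Fin 4 → ℝ → ℝ) (z : ℂ) : Erad σ (conj z) = conj (Erad σ z) := by
  have hl : ∀ m n : ℤ, conj (lp m n) = lp m (-n) := by
    intro m n
    apply Complex.ext <;> simp
  rcases lt_or_ge (normSq (fr z)) (1 / 4) with h | h
  · have hn := norm_lt_of_normSq h
    have e : conj z = lp (round z.re) (-round z.im) + conj (fr z) := by
      rw [← hl, ← map_add]
      exact congrArg _ (lat_add_fr z).symm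
    rw [e, Erad_near σ _ _ _ (by simpa using hn), cls_neg', rad_conj, Erad, zcls, map_add, lat, hl]
  · have h1 := fr_min z (round (conj z).re) (-round (conj z).im)
    have e : z - lp (round (conj z).re) (-round (conj z).im) = conj (fr (conj z)) := by
      rw [← hl, fr, map_sub, conj_conj, lat]
    rw [e, normSq_conj] at h1
    rw [Erad_far σ z (by linarith), Erad_far σ (conj z) (by linarith)]

namespace BR

lemma local_form {z : ℂ} (h : ‖fr z‖ < 1 / 2) :
    ∀ᶠ y in 𝓝 z, ∀ σ : Fin 4 → ℝ → ℝ, Erad σ y = lat z + rad (σ (zcls z)) (y - lat z) := by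
  have hc : ContinuousAt (fun y => ‖y - lat z‖) z := by fun_prop
  have := hc.eventually (gt_mem_nhds (show ‖z - lat z‖ < 1 / 2 from h))
  filter_upwards [this] with y hy σ
  have e : y = lp (round z.re) (round z.im) + (y - lat z) := by simp [lat]
  conv_lhs => rw [e]
  rw [Erad_near σ _ _ _ hy]
  rfl

lemma far_form {z : ℂ} (h : 1 / 4 ≤ normSq (fr z)) :
    ∀ᶠ y in 𝓝 z, ∀ σ : Fin 4 → ℝ → ℝ, Erad σ y = y := by
  have h1 : 1 / 2 ≤ ‖fr z‖ := by
    rw [normSq_eq_norm_sq] at h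
    by_contra hc
    push Not at hc
    nlinarith [norm_nonneg (fr z)]
  have hc : ContinuousAt (fun y => ‖z - y‖) z := by fun_prop
  have := hc.eventually (gt_mem_nhds (show ‖z - z‖ < 1 / 4 by simp))
  filter_upwards [this] with y hy σ
  apply Erad_far
  have h2 := fr_min' z (round y.re) (round y.im)
  have e : z - lp (round y.re) (round y.im) = (z - y) + fr y := by simp [fr, lat]
  rw [e] at h2
  have h3 := norm_add_le (z - y) (fr y)
  have h4 : 1 / 4 ≤ ‖fr y‖ := by linarith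
  rw [normSq_eq_norm_sq]
  nlinarith

lemma normSq_smooth : ContDiff ℝ ∞ fun w : ℂ => normSq w := by
  have : (fun w : ℂ => normSq w) = fun w => reCLM w * reCLM w + imCLM w * imCLM w := by
    funext w; simp [normSq_apply]
  rw [this]
  fun_prop

/-- the radial factor of `rad 0` -/
noncomputable def T (ρ : ℝ) : ℝ := Real.sqrt (Real.sqrt (Sfun ρ) / ρ)

lemma rad_zero (w : ℂ) : rad 0 w = T (normSq w) • w := by simp [rad, T]

lemma T_pos {ρ : ℝ} (h : 0 < ρ) : 0 < T ρ :=
  Real.sqrt_pos.2 (div_pos (Real.sqrt_pos.2 (Sfun_pos h.le)) h)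

lemma T_smooth {ρ : ℝ} (h : 0 < ρ) : ContDiffAt ℝ ∞ T ρ := by
  have h1 : ContDiffAt ℝ ∞ (fun x => Real.sqrt (Sfun x)) ρ :=
    Sfun_smooth.contDiffAt.sqrt (Sfun_pos h.le).ne'
  exact (h1.div contDiffAt_id h.ne').sqrt
    (div_pos (Real.sqrt_pos.2 (Sfun_pos h.le)) h).ne'

lemma T_pow {ρ : ℝ} (h : 0 < ρ) : T ρ ^ 4 * ρ ^ 2 = Sfun ρ := by
  have h1 : T ρ ^ 2 = Real.sqrt (Sfun ρ) / ρ :=
    Real.sq_sqrt (div_nonneg (Real.sqrt_nonneg _) h.le)
  have h2 : T ρ ^ 4 = (T ρ ^ 2) ^ 2 := by ring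
  rw [h2, h1, div_pow, Real.sq_sqrt (Sfun_pos h.le).le]
  field_simp

lemma T_key {ρ : ℝ} (h : 0 < ρ) : T ρ + 2 * ρ * deriv T ρ ≠ 0 := by
  have hT : HasDerivAt T (deriv T ρ) ρ := (cd_diff (T_smooth h)).hasDerivAt
  have h1 : HasDerivAt (fun x => T x ^ 4 * x ^ 2)
      ((4 : ℕ) * T ρ ^ 3 * deriv T ρ * ρ ^ 2 + T ρ ^ 4 * ((2 : ℕ) * ρ ^ 1 * 1)) ρ :=
    (hT.pow 4).mul ((hasDerivAt_id ρ).pow 2)
  have he : (fun x => T x ^ 4 * x ^ 2) =ᶠ[𝓝 ρ] Sfun :=
    (lt_mem_nhds h).mono fun x hx => T_pow hx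
  have h2 := (h1.congr_of_eventuallyEq he.symm).deriv
  have h3 := deriv_Sfun_pos ρ
  rw [h2] at h3
  intro h0
  have e : ((4 : ℕ) * T ρ ^ 3 * deriv T ρ * ρ ^ 2 + T ρ ^ 4 * ((2 : ℕ) * ρ ^ 1 * 1)) =
      2 * T ρ ^ 3 * ρ * (T ρ + 2 * ρ * deriv T ρ) := by push_cast; ring
  rw [e, h0] at h3
  simp at h3

lemma rad0_smooth {w : ℂ} (hw : w ≠ 0) : ContDiffAt ℝ ∞ (rad 0) w := by
  have : rad 0 = fun y => T (normSq y) • y := funext rad_zero
  rw [this]
  exact ((T_smooth (normSq_pos.2 hw)).comp w normSq_smooth.contDiffAt).smul contDiffAt_id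

lemma rad0_inj {w : ℂ} (hw : w ≠ 0) : Function.Injective (fderiv ℝ (rad 0) w) := by
  have h0 := normSq_pos.2 hw
  have hN : HasFDerivAt (fun y : ℂ => normSq y)
      ((2 * w.re) • reCLM + (2 * w.im) • imCLM : ℂ →L[ℝ] ℝ) w := by
    have e : (fun y : ℂ => normSq y) = fun y => reCLM y * reCLM y + imCLM y * imCLM y := by
      funext y; simp [normSq_apply]
    rw [e]
    have h1 := ((reCLM.hasFDerivAt (x := w)).mul (reCLM.hasFDerivAt (x := w))).add
      ((imCLM.hasFDerivAt (x := w)).mul (imCLM.hasFDerivAt (x := w)))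
    refine h1.congr_fderiv ?_
    ext v <;> simp <;> ring
  have hT : HasDerivAt T (deriv T (normSq w)) (normSq w) := (cd_diff (T_smooth h0)).hasDerivAt
  have h2 := (hT.comp_hasFDerivAt w hN).smul (hasFDerivAt_id w)
  have h3 := (h2.congr_of_eventuallyEq (f₁ := rad 0) (Eventually.of_forall rad_zero)).fderiv
  rw [injective_iff_map_eq_zero]
  intro v hv
  rw [h3] at hv
  have hre := congrArg Complex.re hv
  have him := congrArg Complex.im hv
  simp at hre him
  set t := T (normSq w)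
  set d := deriv T (normSq w)
  have hk : t + 2 * normSq w * d ≠ 0 := T_key h0
  have ht : 0 < t := T_pos h0
  have h4 : (w.re * v.re + w.im * v.im) * (t + 2 * normSq w * d) = 0 := by
    rw [normSq_apply]
    linear_combination w.re * hre + w.im * him
  have h5 : w.re * v.re + w.im * v.im = 0 := (mul_eq_zero.1 h4).resolve_right hk
  have h6 : t * v.re = 0 := by linear_combination hre - 2 * d * w.re * h5
  have h7 : t * v.im = 0 := by linear_combination him - 2 * d * w.im * h5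
  exact Complex.ext ((mul_eq_zero.1 h6).resolve_left ht.ne')
    ((mul_eq_zero.1 h7).resolve_left ht.ne')

lemma exists_lip : ∃ K : ℝ, 0 < K ∧ ∀ a ∈ Icc (0 : ℝ) 1, ∀ b ∈ Icc (0 : ℝ) 1,
    |chi2 a - chi2 b| ≤ K * |a - b| := by
  obtain ⟨K, hK⟩ := (chi2_smooth.contDiffOn (s := Icc (0 : ℝ) 1)).exists_lipschitzOnWith
    (by simp) (convex_Icc 0 1) isCompact_Icc
  refine ⟨K + 1, by positivity, fun a ha b hb => ?_⟩
  have := hK.dist_le_mul a ha b hb
  rw [Real.dist_eq, Real.dist_eq] at this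
  nlinarith [abs_nonneg (a - b)]

end BR

theorem Erad_inj : ∃ e0 : ℝ, 0 < e0 ∧ e0 ≤ del ^ 2 / 2 ∧ ∀ σ : Fin 4 → ℝ → ℝ,
    (∀ j, ∀ ξ ∈ Icc (-1 : ℝ) 1, |σ j ξ| ≤ e0) → MapsTo (Erad σ) U U ∧ InjOn (Erad σ) U := by
  obtain ⟨K, hK, hL⟩ := exists_lip
  have hd := pow_pos del_pos 2
  refine ⟨min (del ^ 2 / 2) (cc / (2 * K)), lt_min (by positivity) (by have := cc_pos; positivity),
    min_le_left _ _, fun σ hσ => ?_⟩
  have hs1 : ∀ j (w : ℂ), |σ j ((w ^ 2).re / normSq w)| ≤ del ^ 2 / 2 := fun j w =>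
    (hσ j _ (xi_mem w)).trans (min_le_left _ _)
  have hs2 : ∀ j (w : ℂ), |σ j ((w ^ 2).re / normSq w)| ≤ cc / (2 * K) := fun j w =>
    (hσ j _ (xi_mem w)).trans (min_le_right _ _)
  have hG : ∀ j (w : ℂ), 0 < Sfun (normSq w) + chi2 (normSq w) * σ j ((w ^ 2).re / normSq w) := by
    intro j w
    have h1 := Sfun_ge (normSq w)
    have h2 := mul_nonneg cc_pos.le (normSq_nonneg w)
    have h3 := (abs_le.1 (hs1 j w)).1
    have h4 := chi2_nonneg (normSq w)
    have h5 := chi2_le (normSq w)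
    nlinarith
  have hsmall : ∀ j (w : ℂ), normSq w ≤ 1 / 128 → ‖rad (σ j) w‖ < 1 / 2 := by
    intro j w hw
    rcases eq_or_ne w 0 with rfl | hw0
    · simp [rad]
    apply norm_lt_of_normSq
    rw [normSq_rad _ hw0, Real.sqrt_lt' (by norm_num)]
    have h1 := Sfun_le hw
    have h3 := (abs_le.1 (hs1 j w)).2
    have h4 := chi2_nonneg (normSq w)
    have h5 := chi2_le (normSq w)
    have h6 : del ^ 2 / 2 ≤ 1 / 1000 := by unfold del; norm_num
    nlinarith
  have hlat : ∀ z, lat (Erad σ z) = lat z ∧ zcls (Erad σ z) = zcls z := by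
    intro z
    rcases le_total (normSq (fr z)) (1 / 128) with h | h
    · exact ⟨lat_near _ _ (hsmall _ _ h), zcls_near _ _ (hsmall _ _ h)⟩
    · rw [Erad_far σ z h]; exact ⟨rfl, rfl⟩
  have hfr : ∀ z, fr (Erad σ z) = rad (σ (zcls z)) (fr z) := by
    intro z
    rw [fr, (hlat z).1, Erad]; ring
  have hmono : ∀ (c : ℝ), |c| ≤ cc / (2 * K) → ∀ a ∈ Icc (0 : ℝ) 1, ∀ b ∈ Icc (0 : ℝ) 1, a < b →
      Sfun a + chi2 a * c < Sfun b + chi2 b * c := by
    intro c hc a ha b hb hab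
    have h1 := Sfun_sub hab.le
    have h2 := hL a ha b hb
    rw [abs_sub_comm a b, abs_of_pos (sub_pos.2 hab)] at h2
    have h3 : |(chi2 a - chi2 b) * c| ≤ K * (b - a) * (cc / (2 * K)) := by
      rw [abs_mul]
      exact mul_le_mul h2 hc (abs_nonneg _) (by have := sub_pos.2 hab; positivity)
    have h4 : K * (b - a) * (cc / (2 * K)) = cc * (b - a) / 2 := by field_simp
    have h5 := (abs_le.1 h3).2
    have h6 := mul_pos cc_pos (sub_pos.2 hab)
    linarith
  constructor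
  · intro z hz
    have hw := mem_U_iff.1 hz
    rw [mem_U_iff, hfr, ← normSq_pos, normSq_rad _ hw]
    exact Real.sqrt_pos.2 (hG _ _)
  · intro z hz z' hz' he
    have hw := mem_U_iff.1 hz
    have hw' := mem_U_iff.1 hz'
    have e1 : lat z = lat z' := by rw [← (hlat z).1, he, (hlat z').1]
    have e2 : zcls z = zcls z' := by rw [← (hlat z).2, he, (hlat z').2]
    have e3 : rad (σ (zcls z)) (fr z) = rad (σ (zcls z)) (fr z') := by
      rw [← hfr, he, hfr, e2]
    suffices h : fr z = fr z' by rw [← lat_add_fr z, ← lat_add_fr z', e1, h]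
    generalize zcls z = j at e3
    have hb := fr_le z
    have hb' := fr_le z'
    generalize fr z = w at hw e3 hb
    generalize fr z' = w' at hw' e3 hb'
    have h0 := normSq_pos.2 hw
    have h0' := normSq_pos.2 hw'
    have eN := congrArg normSq e3
    rw [normSq_rad _ hw, normSq_rad _ hw', Real.sqrt_inj (hG j w).le (hG j w').le] at eN
    obtain ⟨t, ht, hr⟩ : ∃ t : ℝ, 0 < t ∧ rad (σ j) w = t • w :=
      ⟨_, Real.sqrt_pos.2 (div_pos (Real.sqrt_pos.2 (hG j w)) h0), rfl⟩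
    obtain ⟨t', ht', hr'⟩ : ∃ t : ℝ, 0 < t ∧ rad (σ j) w' = t • w' :=
      ⟨_, Real.sqrt_pos.2 (div_pos (Real.sqrt_pos.2 (hG j w')) h0'), rfl⟩
    have e4 : w' = (t / t') • w := by
      rw [div_eq_inv_mul, mul_smul, ← hr, e3, hr', smul_smul, inv_mul_cancel₀ ht'.ne', one_smul]
    have hq : 0 < t / t' := div_pos ht ht'
    generalize t / t' = q at e4 hq
    have e5 : normSq w' = q ^ 2 * normSq w := by rw [e4, normSq_smul]
    have e6 : (w' ^ 2).re / normSq w' = (w ^ 2).re / normSq w := by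
      have : (w' ^ 2).re = q ^ 2 * (w ^ 2).re := by
        rw [e4]; simp [sq]; ring
      rw [this, e5]
      field_simp
    rw [e6] at eN
    have e7 : normSq w = normSq w' := by
      rcases lt_trichotomy (normSq w) (normSq w') with h | h | h
      · exact absurd eN (hmono _ (hs2 j w) _ ⟨h0.le, hb⟩ _ ⟨h0'.le, hb'⟩ h).ne
      · exact h
      · exact absurd eN (hmono _ (hs2 j w) _ ⟨h0'.le, hb'⟩ _ ⟨h0.le, hb⟩ h).ne'
    have e8 : q ^ 2 = 1 := by
      have : (q ^ 2 - 1) * normSq w = 0 := by linear_combination e7.symm - e5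
      have := (mul_eq_zero.1 this).resolve_right h0.ne'
      linarith
    have e9 : q = 1 := by nlinarith
    rw [e4, e9, one_smul]

theorem Erad_smooth {z : ℂ} (hz : z ∈ U) :
    ContDiffAt ℝ ∞ (Erad 0) z ∧ Function.Injective (fderiv ℝ (Erad 0) z) := by
  have hw := mem_U_iff.1 hz
  rcases lt_or_ge (normSq (fr z)) (1 / 4) with h | h
  · have he : Erad 0 =ᶠ[𝓝 z] fun y => lat z + rad 0 (y - lat z) :=
      (local_form (norm_lt_of_normSq h)).mono fun y hy => hy 0
    have hs : ContDiffAt ℝ ∞ (rad 0) (z - lat z) := rad0_smooth hw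
    have h1 : ContDiffAt ℝ ∞ (fun y => rad 0 (y - lat z)) z :=
      hs.comp z (f := fun y => y - lat z) (by fun_prop)
    refine ⟨(contDiffAt_const.add h1).congr_of_eventuallyEq he, ?_⟩
    rw [he.fderiv_eq, fderiv_const_add, fderiv_comp_sub]
    exact rad0_inj hw
  · have he : Erad 0 =ᶠ[𝓝 z] id := (far_form h).mono fun y hy => hy 0
    refine ⟨contDiffAt_id.congr_of_eventuallyEq he, ?_⟩
    rw [he.fderiv_eq, fderiv_id]
    exact fun a b hab => hab

theorem Erad_image (w : ℂ) : w ∈ Erad 0 '' U ↔ del < normSq (fr w) := by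
  have hdel : del < 1 / 128 := by unfold del; norm_num
  constructor
  · rintro ⟨z, hz, rfl⟩
    have hw := mem_U_iff.1 hz
    rcases le_total (normSq (fr z)) (1 / 128) with h | h
    · have hN : normSq (rad 0 (fr z)) = Real.sqrt (Sfun (normSq (fr z))) := by
        rw [normSq_rad _ hw]; simp
      have hs : ‖rad 0 (fr z)‖ < 1 / 2 := by
        apply norm_lt_of_normSq
        rw [hN, Real.sqrt_lt' (by norm_num)]
        linarith [Sfun_le h]
      have e : fr (Erad 0 z) = rad 0 (fr z) := fr_near _ _ hs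
      rw [e, hN, Real.lt_sqrt del_pos.le]
      have := Sfun_ge (normSq (fr z))
      have h2 := mul_pos cc_pos (normSq_pos.2 hw)
      linarith
    · rw [Erad_far 0 z h]; linarith
  · intro h
    have hr : 0 < normSq (fr w) := del_pos.trans h
    rcases le_or_gt (1 / 128) (normSq (fr w)) with h1 | h1
    · exact ⟨w, mem_U_iff.2 (normSq_pos.1 hr), Erad_far 0 w h1⟩
    have hS0 : Sfun 0 = del ^ 2 := by rw [Sfun_eq, ex_zero (by norm_num)]; ring
    have hS1 : Sfun (1 / 128) = (1 / 128) ^ 2 := Sfun_far le_rfl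
    obtain ⟨ρ, hρ, hρe⟩ : normSq (fr w) ^ 2 ∈ Sfun '' Ioo 0 (1 / 128) := by
      apply intermediate_value_Ioo (by norm_num) Sfun_smooth.continuous.continuousOn
      rw [hS0, hS1]
      exact ⟨by have := del_pos; nlinarith, by nlinarith⟩
    set r := normSq (fr w) with hrdef
    have hN : normSq (Real.sqrt (ρ / r) • fr w) = ρ := by
      rw [normSq_smul, Real.sq_sqrt (div_pos hρ.1 hr).le, ← hrdef]
      field_simp
    have hs : ‖Real.sqrt (ρ / r) • fr w‖ < 1 / 2 := by
      apply norm_lt_of_normSq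
      rw [hN]; linarith [hρ.2]
    refine ⟨lat w + Real.sqrt (ρ / r) • fr w, ?_, ?_⟩
    · rw [mem_U_iff, lat, fr_near _ _ hs, ← normSq_pos, hN]
      exact hρ.1
    · rw [lat, Erad_near 0 _ _ _ hs, Pi.zero_apply, rad_zero, hN, T, hρe, Real.sqrt_sq hr.le,
        smul_smul, ← Real.sqrt_mul (div_pos hr hρ.1).le]
      have : r / ρ * (ρ / r) = 1 := by have := hρ.1; field_simp
      rw [this, Real.sqrt_one, one_smul]
      exact lat_add_fr w

theorem Erad_CV {ι : Type} {l : Filter ι} {σ : ι → Fin 4 → ℝ → ℝ} {k : ℕ}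
    (hσ : ∀ j ξ, CV k l (fun i => σ i j) (fun _ => 0) ξ) {z : ℂ} (hz : z ∈ U) :
    CV k l (fun i => Erad (σ i)) (Erad 0) z := by
  have hw := mem_U_iff.1 hz
  rcases lt_or_ge (normSq (fr z)) (1 / 4) with h | h
  · have hl := local_form (norm_lt_of_normSq h)
    have h0 : 0 < normSq (z - lat z) := normSq_pos.2 hw
    have hW : CV k l (fun _ (y : ℂ) => y - lat z) (fun y => y - lat z) z := CV.const' (by fun_prop)
    have hρ : CV k l (fun _ (y : ℂ) => normSq (y - lat z)) (fun y => normSq (y - lat z)) z :=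
      hW.post' normSq_smooth
    have hsq : CV k l (fun _ (y : ℂ) => ((y - lat z) ^ 2).re) (fun y => ((y - lat z) ^ 2).re) z :=
      (hW.post' (g := fun w : ℂ => w ^ 2) (by fun_prop)).re
    have hξ := hsq.div hρ h0.ne'
    have hs := (hσ (zcls z) _).comp hξ
    have hG := (hρ.post' Sfun_smooth).add ((hρ.post' chi2_smooth).mul hs)
    have hp : 0 < Sfun (normSq (z - lat z)) := Sfun_pos h0.le
    have h1 := hG.sqrt (by simpa using hp.ne')
    have h2 := (h1.div hρ h0.ne').sqrt (by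
      simpa using (div_pos (Real.sqrt_pos.2 hp) h0).ne')
    have h3 := (CV.const' (g := fun _ : ℂ => lat z) contDiff_const).add (h2.smul hW)
    refine h3.congr ?_ ?_
    · exact (ev_snd hl).mono fun p hp => (hp (σ p.1)).symm
    · exact hl.mono fun y hy => (hy 0).symm
  · have hl := far_form h
    refine CV.id'.congr ?_ ?_
    · exact (ev_snd hl).mono fun p hp => (hp (σ p.1)).symm
    · exact hl.mono fun y hy => (hy 0).symm

end Pool.Agent.Lib.MP_0281e9_an
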