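import Pool.Agent.Lib.MP_0281e9_an.Conv3
import Pool.Agent.Lib.MP_0281e9_an.ModelD
import Pool.Agent.Lib.MP_0281e9_an.Rad

namespace Pool.Agent.Lib.MP_0281e9_an

open Set Filter Complex MeasureTheory Topology
open scoped ContDiff ComplexConjugate NNReal

noncomputable def mob (ζ : ℂ) : ℂ :=
  (9 * ζ + 6 * (2 + 2 * I) + 8 * I * conj ζ) / ((17 + 12 * ζ.re + 12 * ζ.im : ℝ) : ℂ)

namespace BF2

open BM

lemma rf : RF := by
  obtain ⟨e0, h0, -, h1⟩ := Erad_inj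
  obtain ⟨h2, h3⟩ := h1 0 fun _ _ _ => by simpa using h0.le
  exact ⟨Erad_add 0, Erad_neg 0, Erad_conj 0, Erad_near 0, h2, h3, fun _ => Erad_smooth,
    Erad_image⟩

lemma unit_sq {ζ : ℂ} (h : ‖ζ‖ = 1) : ζ.re ^ 2 + ζ.im ^ 2 = 1 := by
  have := normSq_eq_norm_sq ζ
  rw [h, normSq_apply] at this
  linarith

lemma exists_sqrt {ζ : ℂ} (h : ‖ζ‖ = 1) : ∃ u : ℂ, ‖u‖ = 1 ∧ u ^ 2 = ζ := by
  obtain ⟨u, rfl⟩ := IsAlgClosed.exists_pow_nat_eq ζ two_pos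
  rw [norm_pow] at h
  exact ⟨u, (pow_eq_one_iff_of_nonneg (norm_nonneg u) two_ne_zero).1 h, rfl⟩

lemma mob_sq {u : ℂ} (h : ‖u‖ = 1) : mob (u ^ 2) = gmat u ^ 2 / normSq (gmat u) := by
  have h1 := unit_sq h
  rw [mob]
  congr 1
  · apply Complex.ext
    · simp [gmat, pow_two]
      linear_combination (-12) * h1
    · simp [gmat, pow_two]
      linear_combination (-12) * h1
  · congr 1
    simp [gmat, pow_two, normSq_apply]
    linear_combination (-17) * h1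

lemma g_ne {u : ℂ} (h : u ≠ 0) : gmat u ≠ 0 := fun h0 => h (by rw [← ginv_g u, h0, map_zero])

lemma ne_of_unit {u : ℂ} (h : ‖u‖ = 1) : u ≠ 0 := by
  rintro rfl
  simp at h

lemma cls_add (m n a b : ℤ) : cls (m + 2 * a) (n + 2 * b) = cls m n := by
  simp [cls, parity_simps]

lemma tend_om {w : ℂ} (hw : w ≠ 0) :
    Tendsto (fun r : ℝ => om (r • w)) (𝓝[>] 0) (𝓝 (del * (w ^ 2 / normSq w))) := by
  have h1 : Continuous fun r : ℝ =>
      (Real.sqrt (del ^ 2 + cc * (r ^ 2 * normSq w)) : ℂ) * (w ^ 2 / normSq w) := by fun_prop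
  have h2 := (h1.tendsto 0).mono_left (nhdsWithin_le_nhds (s := Ioi 0))
  simp only [ne_eq, OfNat.ofNat_ne_zero, not_false_eq_true, zero_pow, zero_mul, mul_zero,
    add_zero, Real.sqrt_sq del_pos.le] at h2
  refine h2.congr' (eventually_nhdsWithin_of_forall fun r hr => ?_)
  have h3 : (r : ℂ) ≠ 0 := by exact_mod_cast (ne_of_gt hr)
  have h4 : (normSq w : ℂ) ≠ 0 := by exact_mod_cast (normSq_pos.2 hw).ne'
  beta_reduce
  rw [om, normSq_smul', real_smul, real_smul]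
  push_cast
  field_simp

lemma ev_chart {P : ℂ → ℂ} {β : Fin 4 → ℂ → ℂ}
    (hc : ∀ (m n : ℤ) (z : ℂ), z ≠ 0 → ‖z‖ < 1 / 8 → P (lp m n + z) = β (cls m n) (z ^ 2))
    (m n : ℤ) {w : ℂ} (hw : w ≠ 0) : ∀ᶠ r : ℝ in 𝓝[>] 0, lp m n + r • w ∈ U ∧
      P (Erad 0 (lp m n + r • w)) = β (cls m n) (om (r • w)) := by
  have h1 : ∀ᶠ r : ℝ in 𝓝 0, normSq (r • w) < 1 / 256 :=
    (continuous_normSq.comp (continuous_id.smul continuous_const)).continuousAt.eventually_lt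
      continuousAt_const (by simp)
  filter_upwards [self_mem_nhdsWithin, h1.filter_mono nhdsWithin_le_nhds] with r hr h2
  have h3 : r • w ≠ 0 := smul_ne_zero (ne_of_gt hr) hw
  have h4 : ‖r • w‖ < 1 / 2 := norm_lt_of_normSq (by norm_num) (h2.trans (by norm_num))
  refine ⟨near_mem_U m n h3 h4, ?_⟩
  rw [rf.near m n _ h4, hc m n _ (rad_bound h3 h2).1 (rad_bound h3 h2).2, rad_sq h2.le]

lemma del_unit {ζ : ℂ} (h : ‖ζ‖ = 1) : (del : ℂ) * ζ ≠ 0 ∧ ‖(del : ℂ) * ζ‖ < 1 / 64 := by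
  refine ⟨mul_ne_zero (by exact_mod_cast del_pos.ne') (ne_of_unit h), ?_⟩
  rw [norm_mul, h, norm_real, Real.norm_of_nonneg del_pos.le]
  norm_num [del]

lemma tend_unit {u : ℂ} (h : ‖u‖ = 1) :
    Tendsto (fun r : ℝ => om (r • u)) (𝓝[>] 0) (𝓝 (del * u ^ 2)) := by
  have := tend_om (ne_of_unit h)
  rwa [normSq_eq_norm_sq, h, one_pow, ofReal_one, div_one] at this

end BF2

open BM BF2

theorem mob_norm {ζ : ℂ} (h : ‖ζ‖ = 1) : ‖mob ζ‖ = 1 := by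
  obtain ⟨u, hu, rfl⟩ := exists_sqrt h
  rw [mob_sq hu, norm_div, norm_pow, norm_real, Real.norm_of_nonneg (normSq_nonneg _),
    normSq_eq_norm_sq, div_self (pow_ne_zero 2 (norm_ne_zero_iff.2 (g_ne (ne_of_unit hu))))]

theorem mob_surj {ζ' : ℂ} (h : ‖ζ'‖ = 1) : ∃ ζ : ℂ, ‖ζ‖ = 1 ∧ mob ζ = ζ' := by
  obtain ⟨u, hu, rfl⟩ := exists_sqrt h
  have h1 : ginv u ≠ 0 := fun h0 => ne_of_unit hu (by rw [← g_ginv u, h0, map_zero])
  have h2 : ‖ginv u‖ ≠ 0 := norm_ne_zero_iff.2 h1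
  have h3 : ‖‖ginv u‖⁻¹ • ginv u‖ = 1 := by
    rw [norm_smul, norm_inv, norm_norm, inv_mul_cancel₀ h2]
  refine ⟨(‖ginv u‖⁻¹ • ginv u) ^ 2, by rw [norm_pow, h3, one_pow], ?_⟩
  have h4 : ((‖ginv u‖ : ℝ) : ℂ) ≠ 0 := by exact_mod_cast h2
  rw [mob_sq h3, map_smul, g_ginv, normSq_smul', normSq_eq_norm_sq, hu, real_smul]
  push_cast
  field_simp

theorem mob_arc {ζ : ℂ} (h : ‖ζ‖ = 1) (h1 : -(1 / 10) ≤ ζ.im) :
    (mob ζ).re ∈ Ioo (11 / 20 : ℝ) (4 / 5) ∧ 0 < (mob ζ).im := by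
  have h2 : -1 ≤ ζ.re := by
    have := abs_re_le_norm ζ
    rw [h] at this
    exact (abs_le.1 this).1
  have hD : 0 < 17 + 12 * ζ.re + 12 * ζ.im := by linarith
  rw [mob, div_ofReal_re, div_ofReal_im, mem_Ioo, lt_div_iff₀ hD, div_lt_iff₀ hD]
  refine ⟨⟨?_, ?_⟩, div_pos ?_ hD⟩ <;> simp <;> linarith

theorem Model.circ_semi (Md : Model) (j : Fin 4) {ζ : ℂ} (h : ‖ζ‖ = 1) :
    Md.Ψ (Md.β0 j (del * ζ)) = Md.β1 j (del * mob ζ) := by
  obtain ⟨u, hu, rfl⟩ := exists_sqrt h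
  obtain ⟨m, n, rfl⟩ := exists_cls j
  have h0 := ne_of_unit hu
  have t1 := (Md.hΨ.continuous.tendsto _).comp
    ((Md.hβ0 (cls m n) _ (del_unit h).1 (del_unit h).2).1.continuousAt.tendsto.comp (tend_unit hu))
  have t2 := tend_om (g_ne h0)
  rw [← mob_sq hu] at t2
  have t3 := (Md.hβ1 (cls m n) _ (del_unit (mob_norm h)).1
    (del_unit (mob_norm h)).2).1.continuousAt.tendsto.comp t2
  refine tendsto_nhds_unique (t1.congr' ?_) t3
  filter_upwards [ev_chart Md.chart0 m n h0,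
    ev_chart Md.chart1 (m + 2 * (2 * m + n)) (n + 2 * m) (g_ne h0)] with r h1 h2
  have h3 := Md.semi _ h1.1
  rw [h1.2, map_add, g_lp, lp_add, map_smul, h2.2, cls_add] at h3
  exact h3

theorem Model.circ_closure (Md : Model) (j : Fin 4) {ζ : ℂ} (h : ‖ζ‖ = 1) :
    Md.β0 j (del * ζ) ∈ closure ((fun z => Md.P0 (Erad 0 z)) '' U) := by
  obtain ⟨u, hu, rfl⟩ := exists_sqrt h
  obtain ⟨m, n, rfl⟩ := exists_cls j
  refine mem_closure_of_tendsto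
    ((Md.hβ0 (cls m n) _ (del_unit h).1 (del_unit h).2).1.continuousAt.tendsto.comp
      (tend_unit hu)) ?_
  filter_upwards [ev_chart Md.chart0 m n (ne_of_unit hu)] with r h1
  exact ⟨_, h1.1, h1.2⟩

theorem Model.isOpen_island (Md : Model) : IsOpen ((fun z => Md.P0 (Erad 0 z)) '' U) := by
  refine isOpen_iff_mem_nhds.2 ?_
  rintro _ ⟨z, hz, rfl⟩
  have h1 := Md.P0s _ (rf.maps hz)
  have h2 := rf.smooth z hz
  have h3 := J_comp (g := Md.P0) (f := Erad 0) (cd_diff h1.1) (cd_diff h2.1)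
  obtain ⟨ψ, -, -, h4⟩ := locinv' (f := fun z => Md.P0 (Erad 0 z)) (h1.1.comp z h2.1)
    (h3.trans_ne (mul_ne_zero ((det_ne_iff _).2 h1.2) ((det_ne_iff _).2 h2.2)))
    (BM.isOpen_U.mem_nhds hz)
  exact h4.mono fun y hy => ⟨_, hy.1, hy.2⟩

theorem Model.island_refl (Md : Model) {y : ℂ}
    (hy : y ∈ closure ((fun z => Md.P0 (Erad 0 z)) '' U)) :
    Md.Ψi (conj (Md.Ψ y)) ∈ closure ((fun z => Md.P0 (Erad 0 z)) '' U) := by
  refine map_mem_closure (f := fun y => Md.Ψi (conj (Md.Ψ y)))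
    (Md.hΨi.continuous.comp (continuous_conj.comp Md.hΨ.continuous)) hy ?_
  rintro _ ⟨z, hz, rfl⟩
  have h1 := U_conj (g_U hz)
  refine ⟨ginv (conj (gmat z)), ginv_U h1, ?_⟩
  have h2 := Md.semi _ (ginv_U h1)
  rw [g_ginv, rf.cj, Md.P1conj _ (rf.maps (g_U hz)), ← Md.semi z hz] at h2
  simp only
  rw [← h2, Md.Ψl]

end Pool.Agent.Lib.MP_0281e9_an
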