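import Pool.Agent.Lib.MP_0281e9_an.Conv3

namespace Pool.Agent.Lib.MP_0281e9_an.BF

open Set Filter Complex Topology
open scoped ContDiff ComplexConjugate

noncomputable section

def zp (ξ : ℝ) : ℂ := (ξ : ℂ) + (Real.sqrt (1 - ξ ^ 2) : ℝ) * I
def zm (ξ : ℝ) : ℂ := conj (zp ξ)
def xi (o : ℂ) : ℝ := o.re / ‖o‖
def pm (q : ℝ × ℝ) : ℂ := Real.sqrt (del ^ 2 + q.2) • zm q.1

lemma del_pos : 0 < del := by unfold del; norm_num

@[simp] lemma zp_re (ξ : ℝ) : (zp ξ).re = ξ := by simp [zp]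
@[simp] lemma zp_im (ξ : ℝ) : (zp ξ).im = Real.sqrt (1 - ξ ^ 2) := by simp [zp]
@[simp] lemma zm_re (ξ : ℝ) : (zm ξ).re = ξ := by simp [zm]
@[simp] lemma zm_im (ξ : ℝ) : (zm ξ).im = -Real.sqrt (1 - ξ ^ 2) := by simp [zm]

lemma unit_sq {ζ : ℂ} (h : ‖ζ‖ = 1) : ζ.re ^ 2 + ζ.im ^ 2 = 1 := by
  have := Complex.normSq_eq_norm_sq ζ
  rw [h, normSq_apply] at this
  nlinarith

lemma unit_re {ζ : ℂ} (h : ‖ζ‖ = 1) : ζ.re ∈ Icc (-1 : ℝ) 1 :=
  abs_le.1 (h ▸ Complex.abs_re_le_norm ζ)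

lemma norm_zp {ξ : ℝ} (h : ξ ∈ Icc (-1 : ℝ) 1) : ‖zp ξ‖ = 1 := by
  have h1 : 0 ≤ 1 - ξ ^ 2 := by nlinarith [h.1, h.2]
  have : ‖zp ξ‖ ^ 2 = 1 := by
    rw [← Complex.normSq_eq_norm_sq, normSq_apply, zp_re, zp_im, Real.mul_self_sqrt h1]
    ring
  nlinarith [norm_nonneg (zp ξ)]

lemma norm_zm {ξ : ℝ} (h : ξ ∈ Icc (-1 : ℝ) 1) : ‖zm ξ‖ = 1 := by
  rw [zm, Complex.norm_conj, norm_zp h]

lemma eq_zp {ζ : ℂ} (h : ‖ζ‖ = 1) (h0 : 0 ≤ ζ.im) : zp ζ.re = ζ := by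
  apply Complex.ext
  · simp
  · rw [zp_im, show 1 - ζ.re ^ 2 = ζ.im ^ 2 by linarith [unit_sq h], Real.sqrt_sq h0]

lemma eq_zm {ζ : ℂ} (h : ‖ζ‖ = 1) (h0 : ζ.im ≤ 0) : zm ζ.re = ζ := by
  have := eq_zp (ζ := conj ζ) (by simpa using h) (by simpa using h0)
  rw [zm, show ζ.re = (conj ζ).re by simp, this, conj_conj]

lemma cont_zp : Continuous zp := by unfold zp; fun_prop

lemma cd_zp {ξ : ℝ} (h : |ξ| < 1) : ContDiffAt ℝ ∞ zp ξ := by
  have h1 : 1 - ξ ^ 2 ≠ 0 := by nlinarith [abs_lt.1 h]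
  have h2 : ContDiffAt ℝ ∞ (fun ξ : ℝ => Real.sqrt (1 - ξ ^ 2)) ξ :=
    ContDiffAt.sqrt (by fun_prop) h1
  exact ofRealCLM.contDiff.contDiffAt.add
    ((ofRealCLM.contDiff.contDiffAt.comp ξ h2).mul contDiffAt_const)

lemma cd_zm {ξ : ℝ} (h : |ξ| < 1) : ContDiffAt ℝ ∞ zm ξ :=
  (conjCLE : ℂ →L[ℝ] ℂ).contDiff.contDiffAt.comp ξ (cd_zp h)

lemma cd_normSq : ContDiff ℝ ∞ fun z : ℂ => normSq z := by
  simp only [normSq_apply]
  exact (reCLM.contDiff.mul reCLM.contDiff).add (imCLM.contDiff.mul imCLM.contDiff)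

lemma cd_xi {o : ℂ} (h : o ≠ 0) : ContDiffAt ℝ ∞ xi o :=
  reCLM.contDiff.contDiffAt.div (contDiffAt_norm ℝ h) (norm_ne_zero_iff.2 h)

lemma cd_pm {q : ℝ × ℝ} (h : |q.1| < 1) (h2 : 0 < del ^ 2 + q.2) : ContDiffAt ℝ ∞ pm q :=
  (ContDiffAt.sqrt (contDiffAt_const.add contDiffAt_snd) h2.ne').smul ((cd_zm h).comp q contDiffAt_fst)

lemma norm_del {ζ : ℂ} (h : ‖ζ‖ = 1) : ‖(del : ℂ) * ζ‖ = del := by
  rw [norm_mul, h, Complex.norm_real, Real.norm_eq_abs, abs_of_pos del_pos, mul_one]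

lemma del_ne {ζ : ℂ} (h : ‖ζ‖ = 1) : (del : ℂ) * ζ ≠ 0 :=
  norm_pos_iff.1 ((norm_del h).symm ▸ del_pos)

lemma del_lt {ζ : ℂ} (h : ‖ζ‖ = 1) : ‖(del : ℂ) * ζ‖ < 1 / 64 := by
  rw [norm_del h, del]; norm_num

lemma normSq_del {ζ : ℂ} (h : ‖ζ‖ = 1) : normSq ((del : ℂ) * ζ) - del ^ 2 = 0 := by
  rw [Complex.normSq_eq_norm_sq, norm_del h, sub_self]

lemma sq0 (ζ : ℂ) : Real.sqrt (del ^ 2 + 0) • ζ = del * ζ := by
  rw [add_zero, Real.sqrt_sq del_pos.le, real_smul]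

lemma xi_smul {r : ℝ} (hr : 0 < r) {ζ : ℂ} (h : ‖ζ‖ = 1) : xi (r • ζ) = ζ.re := by
  rw [xi, norm_smul, h, Real.norm_eq_abs, abs_of_pos hr, smul_re, smul_eq_mul]
  field_simp

lemma normSq_smul {r : ℝ} (hr : 0 ≤ r) {ζ : ℂ} (h : ‖ζ‖ = 1) :
    normSq (Real.sqrt r • ζ) = r := by
  rw [Complex.normSq_eq_norm_sq, norm_smul, h, mul_one, Real.norm_eq_abs, sq_abs, Real.sq_sqrt hr]

lemma xi_del {ζ : ℂ} (h : ‖ζ‖ = 1) : xi (del * ζ) = ζ.re := by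
  rw [← real_smul, xi_smul del_pos h]

lemma polar {o : ℂ} (h : o ≠ 0) : ∃ ζ : ℂ, ‖ζ‖ = 1 ∧ ζ.re = xi o ∧ ζ.im = o.im / ‖o‖ ∧
    Real.sqrt (normSq o) • ζ = o := by
  have h0 : ‖o‖ ≠ 0 := norm_ne_zero_iff.2 h
  refine ⟨‖o‖⁻¹ • o, ?_, ?_, ?_, ?_⟩
  · rw [norm_smul, norm_inv, norm_norm, inv_mul_cancel₀ h0]
  · rw [smul_re, xi, smul_eq_mul, div_eq_inv_mul]
  · rw [smul_im, smul_eq_mul, div_eq_inv_mul]
  · rw [Complex.normSq_eq_norm_sq, Real.sqrt_sq (norm_nonneg o), smul_smul, mul_inv_cancel₀ h0,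
      one_smul]

lemma pm_inv {o : ℂ} (h : o.im < 0) : pm (xi o, normSq o - del ^ 2) = o := by
  have h0 : o ≠ 0 := by rintro rfl; simp at h
  obtain ⟨ζ, h1, h2, h3, h4⟩ := polar h0
  have : ζ.im ≤ 0 := h3 ▸ div_nonpos_of_nonpos_of_nonneg h.le (norm_nonneg o)
  rw [pm, ← h2, eq_zm h1 this, add_sub_cancel, h4]

lemma grad_ne {E : Type} [NormedAddCommGroup E] [NormedSpace ℝ E] {f : E → ℂ} {q : E}
    (hf : DifferentiableAt ℝ f q) (hs : Function.Surjective (fderiv ℝ f q)) (h0 : f q ≠ 0)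
    (c : ℝ) : fderiv ℝ (fun y => normSq (f y) - c) q ≠ 0 := by
  obtain ⟨u, hu⟩ := hs (f q)
  have hr := reCLM.hasFDerivAt.comp q hf.hasFDerivAt
  have hi := imCLM.hasFDerivAt.comp q hf.hasFDerivAt
  have := (((hr.mul hr).add (hi.mul hi)).sub_const c).fderiv
  intro h
  have e : (fun y => normSq (f y) - c) = fun y =>
      ((reCLM ∘ f) * (reCLM ∘ f) + (imCLM ∘ f) * (imCLM ∘ f)) y - c := by
    ext y; simp [normSq_apply]
  rw [e, this] at h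
  have h2 := congrArg (fun L => L u) h
  simp [hu] at h2
  have := normSq_pos.2 h0
  rw [normSq_apply] at this
  linarith

lemma vert_ne {G : ℝ × ℝ → ℝ} {x y : ℝ → ℝ} {t : ℝ} (hG : DifferentiableAt ℝ G (x t, y t))
    (h0 : fderiv ℝ G (x t, y t) ≠ 0) (hz : ∀ᶠ s in 𝓝 t, G (x s, y s) = 0)
    (hx : DifferentiableAt ℝ x t) (hy : DifferentiableAt ℝ y t) (h1 : deriv x t ≠ 0) :
    fderiv ℝ G (x t, y t) (0, 1) ≠ 0 := by
  intro h
  have d1 := hG.hasFDerivAt.comp_hasDerivAt t (hx.hasDerivAt.prodMk hy.hasDerivAt)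
  have d2 : HasDerivAt (G ∘ fun s => (x s, y s)) 0 t :=
    (hasDerivAt_const t (0 : ℝ)).congr_of_eventuallyEq hz
  have e := d1.unique d2
  have e1 : (deriv x t, deriv y t) = deriv x t • ((1 : ℝ), (0 : ℝ)) + deriv y t • (0, 1) := by simp
  rw [e1, map_add, map_smul, map_smul, h, smul_zero, add_zero, smul_eq_mul, mul_eq_zero] at e
  apply h0
  ext
  · simpa using e.resolve_left h1
  · simpa using h

section chart

variable {β ν : ℂ → ℂ}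
  (hβ : ∀ o, o ≠ 0 → ‖o‖ < 1 / 64 → ContDiffAt ℝ ∞ β o ∧ ContDiffAt ℝ ∞ ν (β o) ∧
      ν (β o) = o ∧ β (conj o) = conj (β o))
include hβ

lemma chart_facts {o : ℂ} (h0 : o ≠ 0) (h1 : ‖o‖ < 1 / 64) :
    Function.Surjective (fderiv ℝ ν (β o)) ∧ Tendsto ν (𝓝 (β o)) (𝓝 o) ∧
      ∀ᶠ p in 𝓝 (β o), β (ν p) = p ∧ ContDiffAt ℝ ∞ ν p ∧ ν (conj p) = conj (ν p) := by
  have ev : ∀ᶠ y in 𝓝 o, y ≠ 0 ∧ ‖y‖ < 1 / 64 :=
    (eventually_ne_nhds h0).and (continuous_norm.continuousAt.eventually (gt_mem_nhds h1))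
  have hl : ∀ᶠ y in 𝓝 o, ν (β y) = y := ev.mono fun y hy => (hβ y hy.1 hy.2).2.2.1
  obtain ⟨a1, a2, a3, -⟩ := hβ o h0 h1
  have hi := isInv_self (inj_of_linv (cd_diff a1) (cd_diff a2) hl)
  have ht : Tendsto ν (𝓝 (β o)) (𝓝 o) := by simpa [a3] using a2.continuousAt.tendsto
  refine ⟨?_, ht, ?_⟩
  · rw [(linv_smooth a1 hi hl).2]
    exact hi.inverse.surjective
  · filter_upwards [rinv_of_linv a1 hi hl, ht.eventually ev] with p h2 h3
    obtain ⟨-, b2, -, b4⟩ := hβ _ h3.1 h3.2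
    rw [h2] at b2 b4
    refine ⟨h2, b2, ?_⟩
    rw [← b4]
    exact (hβ _ (by simpa using h3.1) (by simpa using h3.2)).2.2.1

lemma beta_conj {ζ : ℂ} (h : ‖ζ‖ = 1) : β (del * conj ζ) = conj (β (del * ζ)) := by
  rw [← (hβ _ (del_ne h) (del_lt h)).2.2.2]
  simp

lemma rho_cd {ζ : ℂ} (h : ‖ζ‖ = 1) :
    ∀ᶠ p in 𝓝 (β (del * ζ)), ContDiffAt ℝ ∞ (fun p => normSq (ν p) - del ^ 2) p :=
  (chart_facts hβ (del_ne h) (del_lt h)).2.2.mono fun p hp =>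
    (cd_normSq.contDiffAt.comp p hp.2.1).sub contDiffAt_const

/-- the symmetrised defining function of the circle -/
lemma rho_hat {ι : Type} {l : Filter ι} {R : ι → ℂ → ℂ} {b : ℝ} (hb : 0 < b) {Z : ℂ → Prop}
    (hZ : ∀ ζ : ℂ, ‖ζ‖ = 1 → |ζ.im| ≤ b → Z ζ)
    (hR : ∀ ζ : ℂ, ‖ζ‖ = 1 → CV 2 l R (fun p => conj p) (β (del * ζ)) ∧
      (∀ᶠ q : ι × ℂ in l ×ˢ 𝓝 (β (del * ζ)), R q.1 (R q.1 q.2) = q.2) ∧
      (Z ζ → ∀ᶠ q : ι × ℂ in l ×ˢ 𝓝 (β (del * ζ)), R q.1 q.2 = conj q.2)) :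
    ∃ ρ : ι → ℂ → ℝ, ∀ ζ : ℂ, ‖ζ‖ = 1 →
      CV 2 l ρ (fun p => normSq (ν p) - del ^ 2) (β (del * ζ)) ∧
      (∀ᶠ q : ι × ℂ in l ×ˢ 𝓝 (β (del * ζ)), ρ q.1 (R q.1 q.2) = ρ q.1 q.2) ∧
      (Z ζ → ∀ᶠ q : ι × ℂ in l ×ˢ 𝓝 (β (del * ζ)), ρ q.1 q.2 = normSq (ν q.2) - del ^ 2) := by
  set r1 : ℂ → ℝ := fun p => normSq (ν p) - del ^ 2 with hr1
  set lam : ℂ → ℝ := fun p => Real.smoothTransition (((ν p).im / (del * b) + 1) / 2) with hlam
  have hdb : 0 < del * b := mul_pos del_pos hb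
  have sym : ∀ ζ : ℂ, ‖ζ‖ = 1 → ∀ᶠ p in 𝓝 (β (del * ζ)), r1 (conj p) = r1 p := fun ζ h =>
    (chart_facts hβ (del_ne h) (del_lt h)).2.2.mono fun p hp => by simp [hr1, hp.2.2]
  have tim : ∀ ζ : ℂ, ‖ζ‖ = 1 → Tendsto (fun p => (ν p).im) (𝓝 (β (del * ζ))) (𝓝 (del * ζ.im)) :=
    fun ζ h => by
      simpa [Function.comp_def] using
        (continuous_im.tendsto _).comp (chart_facts hβ (del_ne h) (del_lt h)).2.1
  have one : ∀ ζ : ℂ, ‖ζ‖ = 1 → b < ζ.im → ∀ᶠ p in 𝓝 (β (del * ζ)), lam p = 1 := fun ζ h h1 =>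
    ((tim ζ h).eventually (lt_mem_nhds (mul_lt_mul_of_pos_left h1 del_pos))).mono fun p hp =>
      Real.smoothTransition.one_of_one_le (by
        have := (one_lt_div hdb).2 hp
        linarith)
  have zero : ∀ ζ : ℂ, ‖ζ‖ = 1 → ζ.im < -b → ∀ᶠ p in 𝓝 (β (del * ζ)), lam p = 0 := fun ζ h h1 =>
    ((tim ζ h).eventually (gt_mem_nhds (mul_lt_mul_of_pos_left h1 del_pos))).mono fun p hp =>
      Real.smoothTransition.zero_of_nonpos (by
        have : (ν p).im / (del * b) < -1 := by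
          rw [div_lt_iff₀ hdb]; linarith
        linarith)
  have loc : ∀ ζ : ℂ, ‖ζ‖ = 1 → Z ζ → ∀ᶠ q : ι × ℂ in l ×ˢ 𝓝 (β (del * ζ)),
      r1 q.2 + (1 - lam q.2) * (r1 (R q.1 q.2) - r1 q.2) = r1 q.2 := fun ζ h hz => by
    filter_upwards [(hR ζ h).2.2 hz, ev_snd (l := l) (sym ζ h)] with q h1 h2
    rw [h1, h2]; ring
  refine ⟨fun i p => r1 p + (1 - lam p) * (r1 (R i p) - r1 p), fun ζ h => ⟨?_, ?_, loc ζ h⟩⟩
  · have c1 : CV 2 l (fun _ => r1) r1 (β (del * ζ)) := CV.const (rho_cd hβ h)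
    have c2 : CV 2 l (fun _ p => 1 - lam p) (fun p => 1 - lam p) (β (del * ζ)) :=
      CV.const ((chart_facts hβ (del_ne h) (del_lt h)).2.2.mono fun p hp =>
        contDiffAt_const.sub (Real.smoothTransition.contDiff.contDiffAt.comp p
          ((((imCLM.contDiff.contDiffAt.comp p hp.2.1).div_const _).add
            contDiffAt_const).div_const _)))
    have c3 := (hR ζ h).1.post (g := r1) (by
      rw [← beta_conj hβ h]; exact rho_cd hβ (by simpa using h))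
    refine (c1.add (c2.mul (c3.sub c1))).congr (Eventually.of_forall fun _ => rfl) ?_
    filter_upwards [sym ζ h] with p hp
    rw [hp]; ring
  · have h' : ‖conj ζ‖ = 1 := by simpa using h
    have tR := (hR ζ h).1.tendsto
    rw [← beta_conj hβ h] at tR
    rcases lt_or_ge b ζ.im with h1 | h1
    · filter_upwards [(hR ζ h).2.1, ev_snd (l := l) (one ζ h h1),
        tR.eventually (zero _ h' (by simpa using h1))] with q a1 a2 a3
      rw [a1, a2, a3]; ring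
    rcases lt_or_ge ζ.im (-b) with h2 | h2
    · filter_upwards [ev_snd (l := l) (zero ζ h h2),
        tR.eventually (one _ h' (by simp; linarith))] with q a2 a3
      rw [a2, a3]; ring
    have hz := hZ ζ h (abs_le.2 ⟨h2, h1⟩)
    have hz' := hZ _ h' (by simpa using abs_le.2 ⟨h2, h1⟩)
    filter_upwards [loc ζ h hz, (tendsto_fst.prodMk tR).eventually (loc _ h' hz'),
      (hR ζ h).2.2 hz, ev_snd (l := l) (sym ζ h)] with q a1 a2 a3 a4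
    rw [a1, a2, a3, a4]

end chart

lemma exists_N {ι : Type} {l : Filter ι} {B : ℂ → ℂ} {Bn : ι → ℂ → ℂ}
    (hB : ∀ ζ : ℂ, ‖ζ‖ = 1 → CV 2 l Bn B (del * ζ) ∧ Function.Injective (fderiv ℝ B (del * ζ)))
    (hBi : InjOn B (Metric.sphere 0 del)) :
    ∃ (N : ℂ → ℂ) (Nn : ι → ℂ → ℂ), ∀ ζ : ℂ, ‖ζ‖ = 1 → CV 2 l Nn N (B (del * ζ)) ∧
      N (B (del * ζ)) = del * ζ ∧ Function.Surjective (fderiv ℝ N (B (del * ζ))) ∧
      (∀ᶠ q : ι × ℂ in l ×ˢ 𝓝 (del * ζ : ℂ), Nn q.1 (Bn q.1 q.2) = q.2) ∧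
      ∀ᶠ q : ι × ℂ in l ×ˢ 𝓝 (B (del * ζ)), Bn q.1 (Nn q.1 q.2) = q.2 := by
  have key : ∀ o ∈ Metric.sphere (0 : ℂ) del, ∃ ζ : ℂ, ‖ζ‖ = 1 ∧ o = del * ζ := fun o ho => by
    have h0 : (del : ℂ) ≠ 0 := ofReal_ne_zero.2 del_pos.ne'
    refine ⟨o / del, ?_, by field_simp⟩
    rw [norm_div, mem_sphere_zero_iff_norm.1 ho, Complex.norm_real, Real.norm_eq_abs,
      abs_of_pos del_pos, div_self del_pos.ne']
  obtain ⟨V, hV, hKV, i0, i1⟩ := CV.inj_nhd (k := 1) (f := Bn) (l := l) (isCompact_sphere 0 del)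
    (fun o ho => by obtain ⟨ζ, h, rfl⟩ := key o ho; exact (hB ζ h).1)
    (fun o ho => by obtain ⟨ζ, h, rfl⟩ := key o ho; exact isInv_self (hB ζ h).2) hBi
  refine ⟨Function.invFunOn B V, fun i => Function.invFunOn (Bn i) V, fun ζ h => ?_⟩
  have hm := hV.mem_nhds (hKV (mem_sphere_zero_iff_norm.2 (norm_del h)))
  have l0 : ∀ᶠ z in 𝓝 (del * ζ : ℂ), Function.invFunOn B V (B z) = z :=
    eventually_of_mem hm fun z hz => i0.leftInvOn_invFunOn hz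
  have hi := isInv_self (hB ζ h).2
  refine ⟨(hB ζ h).1.invFunOn hi hm i1 l0, l0.self_of_nhds, ?_, CV.invFunOn_left hm i1,
    ((hB ζ h).1.invFunOn_right hi hm i1).mono fun _ hq => hq.2⟩
  rw [(linv_smooth (hB ζ h).1.smg0 hi l0).2]
  exact hi.inverse.surjective

/-- the radial correction on the lower half circle -/
lemma sigma_hat {ι : Type} {l : Filter ι} {H : ι → ℂ → ℝ} {H0 : ℂ → ℝ}
    (hH : ∀ ζ : ℂ, ‖ζ‖ = 1 → CV 2 l H H0 (del * ζ) ∧ H0 (del * ζ) = 0 ∧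
      fderiv ℝ H0 (del * ζ) ≠ 0) :
    ∃ σ : ι → ℝ → ℝ, (∀ ξ, CV 2 l σ (fun _ => 0) ξ) ∧ ∀ ζ : ℂ, ‖ζ‖ = 1 → ζ.im < -(1 / 10) →
      ∀ᶠ q : ι × ℂ in l ×ˢ 𝓝 (del * ζ : ℂ),
        (normSq q.2 - del ^ 2 = σ q.1 (xi q.2) ↔ H q.1 q.2 = 0) := by
  have hd : 0 < del ^ 2 + 0 := by have := del_pos; positivity
  have p0 : ∀ ξ : ℝ, pm (ξ, 0) = del * zm ξ := fun ξ => sq0 _
  have evq : ∀ ξ : ℝ, |ξ| < 1 → ∀ᶠ q : ℝ × ℝ in 𝓝 (ξ, 0), |q.1| < 1 ∧ 0 < del ^ 2 + q.2 :=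
    fun ξ hξ => (ContinuousAt.eventually_lt (f := fun q : ℝ × ℝ => |q.1|) (by fun_prop)
      continuousAt_const hξ).and (ContinuousAt.eventually_lt continuousAt_const
        (g := fun q : ℝ × ℝ => del ^ 2 + q.2) (by fun_prop) hd)
  have c : ∀ ξ : ℝ, |ξ| < 1 → CV 2 l (fun i q => H i (pm q)) (fun q => H0 (pm q)) (ξ, 0) :=
    fun ξ hξ => CV.pre (by rw [p0]; exact (hH _ (norm_zm (abs_le.1 hξ.le))).1)
      ((evq ξ hξ).mono fun q hq => cd_pm hq.1 hq.2)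
  have z0 : ∀ ξ : ℝ, |ξ| < 1 → H0 (pm (ξ, 0)) = 0 := fun ξ hξ => by
    rw [p0]; exact (hH _ (norm_zm (abs_le.1 hξ.le))).2.1
  have lt1 : ∀ ξ : ℝ, |ξ| < 1 → ∀ᶠ s in 𝓝 ξ, |s| < 1 := fun ξ hξ =>
    continuous_abs.continuousAt.eventually_lt continuousAt_const hξ
  have mK : ∀ q ∈ Icc (-(998 / 1000) : ℝ) (998 / 1000) ×ˢ ({0} : Set ℝ),
      |q.1| < 1 ∧ q = (q.1, 0) := fun q hq =>
    ⟨(abs_le.2 hq.1).trans_lt (by norm_num), Prod.ext rfl hq.2⟩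
  obtain ⟨τ, τ0, N, hN, hKN, u0, u1, hg⟩ := CV.graph (k := 1) (l := l)
    (D := fun i q => H i (pm q)) (D0 := fun q => H0 (pm q))
    ((isCompact_Icc (a := (-(998 / 1000) : ℝ)) (b := 998 / 1000)).prod isCompact_singleton)
    (fun a ha b hb hab => by rw [(mK a ha).2, (mK b hb).2, hab])
    (fun q hq => by rw [(mK q hq).2]; exact c _ (mK q hq).1)
    (fun q hq => by rw [(mK q hq).2]; exact z0 _ (mK q hq).1)
    (fun q hq => by
      obtain ⟨h1, h2⟩ := mK q hq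
      rw [h2]
      have hu := norm_zm (abs_le.1 h1.le)
      have dp := cd_diff (cd_pm (q := (q.1, 0)) h1 hd)
      refine vert_ne (G := fun q => H0 (pm q)) (x := fun s => s) (y := fun _ => 0) (t := q.1)
        (cd_diff (c _ h1).smg0) ?_ ((lt1 _ h1).mono fun s hs => z0 s hs) differentiableAt_id
        (differentiableAt_const _) (by simp)
      have hinj : Function.Injective (fderiv ℝ pm (q.1, 0)) := by
        refine inj_of_linv (h := fun o => (xi o, normSq o - del ^ 2)) dp ?_ ?_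
        · rw [p0]
          exact (cd_diff (cd_xi (del_ne hu))).prodMk
            ((cd_diff cd_normSq.contDiffAt).sub_const _)
        · filter_upwards [evq _ h1] with y hy
          have hy1 := norm_zm (abs_le.1 hy.1.le)
          rw [pm, xi_smul (Real.sqrt_pos.2 hy.2) hy1, normSq_smul hy.2.le hy1]
          simp
      have hs := (isInv_of_inj (by simp) hinj).surjective
      have dH : DifferentiableAt ℝ H0 (pm (q.1, 0)) := by rw [p0]; exact cd_diff (hH _ hu).1.smg0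
      have e := fderiv_comp (q.1, 0) dH dp
      intro h0
      apply (hH _ hu).2.2
      ext1 u
      obtain ⟨w, rfl⟩ := hs u
      have := congrArg (fun L => L w) (e.symm.trans h0)
      simpa [p0] using this)
  let χ : ContDiffBump (0 : ℝ) := ⟨996 / 1000, 997 / 1000, by norm_num, by norm_num⟩
  have hτ : ∀ ξ : ℝ, |ξ| ≤ 998 / 1000 → CV 2 l τ (fun _ => 0) ξ := fun ξ hξ => by
    have hm : (ξ, (0 : ℝ)) ∈ Icc (-(998 / 1000) : ℝ) (998 / 1000) ×ˢ ({0} : Set ℝ) :=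
      ⟨abs_le.1 hξ, rfl⟩
    refine (hg _ hm).1.congr (Eventually.of_forall fun _ => rfl) ?_
    have t1 : Tendsto (fun s : ℝ => (s, (0 : ℝ))) (𝓝 ξ) (𝓝 (ξ, 0)) :=
      Continuous.tendsto (by fun_prop) ξ
    filter_upwards [t1.eventually (hN.mem_nhds (hKN hm)), lt1 ξ (mK _ hm).1] with s h1 h2
    exact u0 _ h1 (z0 s h2)
  refine ⟨fun i ξ => χ ξ * τ i ξ, fun ξ => ?_, fun ζ h h1 => ?_⟩
  · rcases le_or_gt |ξ| (998 / 1000) with h | h
    · simpa using (CV.const' (χ.contDiff (n := ⊤))).mul (hτ ξ h)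
    · refine (CV.const' contDiff_const).congr ?_ (Eventually.of_forall fun _ => rfl)
      filter_upwards [ev_snd (l := l)
        (continuousAt_const.eventually_lt continuous_abs.continuousAt h)] with s hs
      rw [χ.zero_of_le_dist (by rw [Real.dist_eq, sub_zero]; change (997 / 1000 : ℝ) ≤ _; linarith),
        zero_mul]
  · have hre : |ζ.re| < 996 / 1000 := by
      have := unit_sq h
      rw [abs_lt]
      constructor <;> nlinarith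
    have hm : (ζ.re, (0 : ℝ)) ∈ Icc (-(998 / 1000) : ℝ) (998 / 1000) ×ˢ ({0} : Set ℝ) :=
      ⟨abs_le.1 (hre.le.trans (by norm_num)), rfl⟩
    have t1 : Tendsto xi (𝓝 (del * ζ : ℂ)) (𝓝 ζ.re) :=
      xi_del h ▸ (cd_xi (del_ne h)).continuousAt.tendsto
    have t2 : Tendsto (fun o : ℂ => normSq o - del ^ 2) (𝓝 (del * ζ : ℂ)) (𝓝 0) :=
      normSq_del h ▸ (cd_normSq.continuous.sub continuous_const).tendsto _
    have t3 : ∀ᶠ o in 𝓝 (del * ζ : ℂ), o.im < 0 :=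
      continuous_im.continuousAt.eventually_lt continuousAt_const (by
        have := del_pos
        simp only [im_ofReal_mul]
        nlinarith)
    filter_upwards [ev_fst u1, ev_snd ((t1.prodMk_nhds t2).eventually (hN.mem_nhds (hKN hm))),
      ev_snd t3, (tendsto_id.prodMap t1).eventually (hg _ hm).2.1,
      ev_snd (t1.eventually (continuous_abs.continuousAt.eventually_lt continuousAt_const hre))]
      with q a1 a2 a3 a4 a5
    rw [χ.one_of_mem_closedBall (by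
      rw [Metric.mem_closedBall, Real.dist_eq, sub_zero]; exact a5.le), one_mul]
    constructor
    · intro e
      simp only [Prod.map, id] at a4
      rwa [← e, pm_inv a3] at a4
    · intro e
      exact (a1 _ a2 (by rw [pm_inv a3]; exact e)).symm

end

end Pool.Agent.Lib.MP_0281e9_an.BF
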