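import Pool.Agent.Lib.MP_0281e9_an.FixC

namespace Pool.Agent.Lib.MP_0281e9_an.BF

open Set Filter Complex Topology
open scoped ContDiff ComplexConjugate

lemma arc_param {x : ℝ → ℝ}
    (xd : ∀ ξ ∈ Icc (-1 : ℝ) 1, DifferentiableAt ℝ x ξ ∧ deriv x ξ ≠ 0) :
    InjOn x (Icc (-1) 1) ∧ ∃ a1 a2 a3 a4 : ℝ, a1 < a2 ∧ a2 < a3 ∧ a3 < a4 ∧
      (∀ a ∈ Icc a1 a4, ∃ ξ ∈ Icc (1 / 2 : ℝ) (17 / 20), x ξ = a) ∧
      (∀ ξ ∈ Icc (1 / 2 : ℝ) (17 / 20), x ξ ∈ Icc a1 a4) ∧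
      (∀ ξ ∈ Icc (11 / 20 : ℝ) (4 / 5), x ξ ∈ Ioo a1 a4) ∧
      (∀ ξ ∈ Icc (-1 : ℝ) 1, x ξ ∈ Icc a2 a3 → ξ ∈ Icc (11 / 20 : ℝ) (4 / 5)) ∧
      ∀ ξ ∈ Ioo (11 / 20 : ℝ) (4 / 5), x ξ ∈ Ioo a2 a3 := by
  have hc : ContinuousOn x (Icc (-1) 1) := fun ξ hξ => (xd ξ hξ).1.continuousAt.continuousWithinAt
  have hi : InjOn x (Icc (-1) 1) := by
    have key : ∀ a ∈ Icc (-1 : ℝ) 1, ∀ b ∈ Icc (-1 : ℝ) 1, a < b → x a ≠ x b := by
      intro a ha b hb hab h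
      obtain ⟨c, hc', h0⟩ := exists_deriv_eq_zero hab (hc.mono (Icc_subset_Icc ha.1 hb.2)) h
      exact (xd c ⟨ha.1.trans hc'.1.le, hc'.2.le.trans hb.2⟩).2 h0
    intro a ha b hb h
    rcases lt_trichotomy a b with h1 | h1 | h1
    · exact (key a ha b hb h1 h).elim
    · exact h1
    · exact (key b hb a ha h1 h.symm).elim
  have m : ∀ {ξ : ℝ}, 1 / 2 ≤ ξ → ξ ≤ 17 / 20 → ξ ∈ Icc (-1 : ℝ) 1 := fun h1 h2 =>
    ⟨by linarith, by linarith⟩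
  have m1 : (1 / 2 : ℝ) ∈ Icc (-1 : ℝ) 1 := by norm_num
  have m2 : (11 / 20 : ℝ) ∈ Icc (-1 : ℝ) 1 := by norm_num
  have m3 : (4 / 5 : ℝ) ∈ Icc (-1 : ℝ) 1 := by norm_num
  have m4 : (17 / 20 : ℝ) ∈ Icc (-1 : ℝ) 1 := by norm_num
  have hc' : ContinuousOn x (Icc (1 / 2) (17 / 20)) := hc.mono fun ξ h => m h.1 h.2
  refine ⟨hi, ?_⟩
  rcases hc.strictMonoOn_of_injOn_Icc' (by norm_num) hi with h | h
  · refine ⟨x (1 / 2), x (11 / 20), x (4 / 5), x (17 / 20), h m1 m2 (by norm_num),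
      h m2 m3 (by norm_num), h m3 m4 (by norm_num),
      fun a ha => intermediate_value_Icc (by norm_num) hc' ha,
      fun ξ hξ => ⟨h.monotoneOn m1 (m hξ.1 hξ.2) hξ.1, h.monotoneOn (m hξ.1 hξ.2) m4 hξ.2⟩,
      fun ξ hξ => ?_, fun ξ hξ hx => ⟨(h.le_iff_le m2 hξ).1 hx.1, (h.le_iff_le hξ m3).1 hx.2⟩,
      fun ξ hξ => ?_⟩
    · have := m (ξ := ξ) (by linarith [hξ.1]) (by linarith [hξ.2])
      exact ⟨h m1 this (by linarith [hξ.1]), h this m4 (by linarith [hξ.2])⟩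
    · have := m (ξ := ξ) (by linarith [hξ.1]) (by linarith [hξ.2])
      exact ⟨h m2 this hξ.1, h this m3 hξ.2⟩
  · refine ⟨x (17 / 20), x (4 / 5), x (11 / 20), x (1 / 2), h m3 m4 (by norm_num),
      h m2 m3 (by norm_num), h m1 m2 (by norm_num),
      fun a ha => intermediate_value_Icc' (by norm_num) hc' ha,
      fun ξ hξ => ⟨h.antitoneOn (m hξ.1 hξ.2) m4 hξ.2, h.antitoneOn m1 (m hξ.1 hξ.2) hξ.1⟩,
      fun ξ hξ => ?_, fun ξ hξ hx => ⟨(h.le_iff_ge hξ m2).1 hx.2, (h.le_iff_ge m3 hξ).1 hx.1⟩,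
      fun ξ hξ => ?_⟩
    · have := m (ξ := ξ) (by linarith [hξ.1]) (by linarith [hξ.2])
      exact ⟨h this m4 (by linarith [hξ.2]), h m1 this (by linarith [hξ.1])⟩
    · have := m (ξ := ξ) (by linarith [hξ.1]) (by linarith [hξ.2])
      exact ⟨h this m3 hξ.2, h m2 this hξ.1⟩

lemma implicit_sign {D : (ℝ × ℝ) × ℝ → ℝ} {T : ℝ × ℝ → ℝ} {a b : ℝ} (hab : a < b)
    (hD : ∀ s ∈ Icc a b, ContDiffAt ℝ ∞ D ((0, s), T (0, s)))
    (hT : ∀ s ∈ Icc a b, ContDiffAt ℝ ∞ T (0, s))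
    (hz : ∀ s ∈ Icc a b, ∀ᶠ y in 𝓝 ((0 : ℝ), s), D (y, T y) = 0)
    (hg : ∀ s ∈ Icc a b, fderiv ℝ D ((0, s), T (0, s)) (0, 1) ≠ 0)
    (hm : ∀ s ∈ Icc a b, fderiv ℝ D ((0, s), T (0, s)) ((1, 0), 0) ≤ 0)
    (hm' : ∃ s ∈ Icc a b, fderiv ℝ D ((0, s), T (0, s)) ((1, 0), 0) < 0) :
    ∫ s in a..b, fderiv ℝ T (0, s) (1, 0) ≠ 0 := by
  set g : ℝ → ℝ := fun s => fderiv ℝ D ((0, s), T (0, s)) (0, 1) with hgd
  set k : ℝ → ℝ := fun s => fderiv ℝ T (0, s) (1, 0) with hkd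
  have idt : ∀ s ∈ Icc a b, fderiv ℝ D ((0, s), T (0, s)) ((1, 0), 0) + k s * g s = 0 := by
    intro s hs
    have d1 := (cd_diff (hD s hs)).hasFDerivAt.comp ((0 : ℝ), s)
      ((hasFDerivAt_id _).prodMk (cd_diff (hT s hs)).hasFDerivAt)
    have d2 : HasFDerivAt (D ∘ fun y => (id y, T y)) (0 : ℝ × ℝ →L[ℝ] ℝ) ((0 : ℝ), s) :=
      (hasFDerivAt_const (0 : ℝ) _).congr_of_eventuallyEq (hz s hs)
    have e := congrArg (fun L => L ((1 : ℝ), (0 : ℝ))) (d1.unique d2)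
    have e1 : (((1 : ℝ), (0 : ℝ)), k s) = (((1 : ℝ), (0 : ℝ)), (0 : ℝ)) + k s • (0, 1) := by simp
    change fderiv ℝ D ((0, s), T (0, s)) (((1 : ℝ), (0 : ℝ)), k s) = 0 at e
    rwa [e1, map_add, map_smul] at e
  have j : ∀ s : ℝ, ContinuousAt (fun s : ℝ => ((0 : ℝ), s)) s := fun s => by fun_prop
  have kc : ContinuousOn k (Icc a b) := fun s hs => ContinuousAt.continuousWithinAt <|
    (ContinuousAt.comp (f := fun s : ℝ => ((0 : ℝ), s)) (cd_fderiv (hT s hs)).continuousAt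
      (j s)).clm_apply continuousAt_const
  have gc : ContinuousOn g (Icc a b) := fun s hs => ContinuousAt.continuousWithinAt <|
    (ContinuousAt.comp (f := fun s : ℝ => (((0 : ℝ), s), T (0, s)))
      (cd_fderiv (hD s hs)).continuousAt ((j s).prodMk
        (ContinuousAt.comp (f := fun s : ℝ => ((0 : ℝ), s)) (hT s hs).continuousAt
          (j s)))).clm_apply continuousAt_const
  obtain ⟨s0, hs0, h0⟩ := hm'
  have sg : ∀ s ∈ Icc a b, 0 < g s0 * g s := by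
    intro s hs
    by_contra hn
    obtain ⟨u, hu, h1⟩ := isPreconnected_Icc.intermediate_value hs hs0
      (f := fun s => g s0 * g s) (continuousOn_const.mul gc)
      (show (0 : ℝ) ∈ Icc _ _ from ⟨not_lt.1 hn, mul_self_nonneg _⟩)
    exact mul_ne_zero (hg s0 hs0) (hg u hu) h1
  have pos : 0 < ∫ s in a..b, g s0 * k s := by
    refine intervalIntegral.integral_pos hab (continuousOn_const.mul kc) (fun s hs => ?_)
      ⟨s0, hs0, by nlinarith [idt s0 hs0]⟩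
    have hs' := Ioc_subset_Icc_self hs
    have h1 : 0 ≤ k s * g s := by linarith [idt s hs', hm s hs']
    have h2 := sg s hs'
    have h3 : 0 < g s * g s := mul_self_pos.2 (hg s hs')
    by_contra hn
    nlinarith [mul_pos h2 h3, mul_nonneg h1 h2.le, mul_neg_of_neg_of_pos (not_le.1 hn) h3]
  rw [intervalIntegral.integral_const_mul] at pos
  intro h
  rw [h, mul_zero] at pos
  exact lt_irrefl _ pos

noncomputable def bb (ξ : ℝ) : ℝ := Real.smoothTransition (1000 * ξ - 998)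

lemma cd_bb : ContDiff ℝ ∞ bb := Real.smoothTransition.contDiff.comp (by fun_prop)

noncomputable def emb (q : (ℝ × ℝ) × ℝ) : ℝ × ℂ := (q.1.1, (q.1.2 : ℂ) + (q.2 : ℂ) * I)

lemma cd_emb : ContDiff ℝ ∞ emb :=
  contDiff_fst.fst.prodMk ((ofRealCLM.contDiff.comp contDiff_fst.snd).add
    ((ofRealCLM.contDiff.comp contDiff_snd).mul contDiff_const))

/-- the upper arc as a graph, with the area condition -/
lemma top_graph {ι : Type} {l : Filter ι} {ε : ι → ℝ} (hε : ∀ i, 0 < ε i)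
    (hε0 : Tendsto ε l (𝓝 0)) {D : ι → ℝ × ℂ → ℝ} {N c : _ → ℂ} {x : ℝ → ℝ} {a1 a4 : ℝ}
    (h14 : a1 < a4) (hi : InjOn x (Icc (1 / 2) (17 / 20)))
    (hs : ∀ a ∈ Icc a1 a4, ∃ ξ ∈ Icc (1 / 2 : ℝ) (17 / 20), x ξ = a)
    (hm : ∀ ξ ∈ Icc (1 / 2 : ℝ) (17 / 20), x ξ ∈ Icc a1 a4)
    (hx : ∀ ξ ∈ Icc (1 / 2 : ℝ) (17 / 20), deriv x ξ ≠ 0 ∧ DifferentiableAt ℝ c ξ ∧
      (∀ᶠ s in 𝓝 ξ, (c s).re = x s ∧ normSq (N (c s)) - del ^ 2 = 0) ∧
      ContDiffAt ℝ ∞ N (c ξ) ∧ Function.Surjective (fderiv ℝ N (c ξ)) ∧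
      CV 2 l D (fun q => normSq (N q.2) - del ^ 2 - q.1 * bb (xi (N q.2))) (0, c ξ))
    (h1 : ∃ ξ ∈ Icc (1 / 2 : ℝ) (17 / 20), xi (N (c ξ)) = 1) :
    ∃ (t : ι → ℝ) (T : ι → ℝ → ℝ) (τ : ℝ → ℝ), Tendsto t l (𝓝 0) ∧
      (∀ a ∈ Icc a1 a4, CV 2 l T τ a) ∧
      (∀ᶠ i in l, ∫ a in a1..a4, (2 + 3 / 4 * ε i ^ 2 * a ^ 2) *
        (Real.sin (ε i * T i a) - Real.sin (ε i * τ a)) / ε i = 0) ∧
      ∀ ξ ∈ Icc (1 / 2 : ℝ) (17 / 20), τ (x ξ) = (c ξ).im ∧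
        (∀ᶠ q : ι × ℂ in l ×ˢ 𝓝 (c ξ), D q.1 (t q.1, q.2) = 0 → T q.1 q.2.re = q.2.im) ∧
        ∀ᶠ q : ι × ℝ in l ×ˢ 𝓝 (x ξ), D q.1 (t q.1, q.2 + T q.1 q.2 * I) = 0 := by
  set D0 : ℝ × ℂ → ℝ := fun q => normSq (N q.2) - del ^ 2 - q.1 * bb (xi (N q.2)) with hD0
  set κ : ℝ → (ℝ × ℝ) × ℝ := fun ξ => ((0, (c ξ).re), (c ξ).im) with hκ
  have cx : ∀ ξ ∈ Icc (1 / 2 : ℝ) (17 / 20), (c ξ).re = x ξ := fun ξ hξ =>
    (hx ξ hξ).2.2.1.self_of_nhds.1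
  have ek : ∀ ξ, emb (κ ξ) = (0, c ξ) := fun ξ => by simp [emb, hκ]
  have cc : ContinuousOn c (Icc (1 / 2) (17 / 20)) := fun ξ hξ =>
    (hx ξ hξ).2.1.continuousAt.continuousWithinAt
  have cv : ∀ ξ ∈ Icc (1 / 2 : ℝ) (17 / 20),
      CV 2 l (fun i q => D i (emb q)) (fun q => D0 (emb q)) (κ ξ) := fun ξ hξ =>
    CV.pre' (by rw [ek]; exact (hx ξ hξ).2.2.2.2.2) cd_emb
  have gne : ∀ ξ ∈ Icc (1 / 2 : ℝ) (17 / 20),
      fderiv ℝ (fun q => D0 (emb q)) (κ ξ) (0, 1) ≠ 0 := by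
    intro ξ hξ
    obtain ⟨b1, b2, b3, b4, b5, -⟩ := hx ξ hξ
    let e : ℝ × ℝ →L[ℝ] (ℝ × ℝ) × ℝ :=
      ((0 : ℝ × ℝ →L[ℝ] ℝ).prod (ContinuousLinearMap.fst ℝ ℝ ℝ)).prod (ContinuousLinearMap.snd ℝ ℝ ℝ)
    let e2 : ℝ × ℝ →L[ℝ] ℂ := (equivRealProdCLM.symm : ℝ × ℝ →L[ℝ] ℂ)
    have e2c : e2 ((c ξ).re, (c ξ).im) = c ξ := by apply Complex.ext <;> simp [e2]
    have dN : DifferentiableAt ℝ N (e2 ((c ξ).re, (c ξ).im)) := e2c.symm ▸ cd_diff b4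
    have dre := reCLM.differentiableAt.comp ξ b2
    have dim := imCLM.differentiableAt.comp ξ b2
    have hG : (fun q => D0 (emb q)) ∘ e = fun y => normSq ((N ∘ e2) y) - del ^ 2 := by
      ext y
      have : (y.1 : ℂ) + (y.2 : ℂ) * I = e2 y := by apply Complex.ext <;> simp [e2]
      simp [hD0, emb, e, this]
    have ept : e ((c ξ).re, (c ξ).im) = κ ξ := by simp [e, hκ]
    have d0 : DifferentiableAt ℝ (fun q => D0 (emb q)) (e ((c ξ).re, (c ξ).im)) :=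
      ept.symm ▸ cd_diff (cv ξ hξ).smg0
    have d1 := fderiv_comp _ d0 e.differentiableAt
    have dNe := dN.comp _ e2.differentiableAt
    have N0 : N (c ξ) ≠ 0 := by
      intro h
      have := b3.self_of_nhds.2
      rw [h] at this
      simp [del_pos.ne'] at this
    have v := vert_ne (G := fun y => normSq ((N ∘ e2) y) - del ^ 2) (x := fun s => (c s).re)
      (y := fun s => (c s).im) (t := ξ)
      (((cd_diff cd_normSq.contDiffAt).comp _ dNe).sub_const _)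
      (grad_ne dNe (by
        rw [fderiv_comp _ dN e2.differentiableAt, e2.fderiv, e2c]
        exact b5.comp equivRealProdCLM.symm.surjective) (by simpa [e2c] using N0) _)
      (b3.mono fun s hs => by
        have : e2 ((c s).re, (c s).im) = c s := by apply Complex.ext <;> simp [e2]
        simpa [this] using hs.2) dre dim (by
        rwa [Filter.EventuallyEq.deriv_eq (b3.mono fun s hs => hs.1)])
    rw [← hG, d1, e.fderiv, ept] at v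
    have e01 : e (0, 1) = (0, 1) := by ext <;> simp [e]
    rwa [ContinuousLinearMap.comp_apply, e01] at v
  obtain ⟨T, T0, V, hV, hKV, u0, u1, hg⟩ := CV.graph (k := 1) (l := l)
    (D := fun i q => D i (emb q)) (D0 := fun q => D0 (emb q))
    (K := κ '' Icc (1 / 2) (17 / 20))
    (isCompact_Icc.image_of_continuousOn ((continuousOn_const.prodMk
      (continuous_re.comp_continuousOn cc)).prodMk (continuous_im.comp_continuousOn cc)))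
    (by
      rintro _ ⟨a, ha, rfl⟩ _ ⟨b, hb, rfl⟩ h
      rw [hi ha hb (by rw [← cx a ha, ← cx b hb]; exact congrArg Prod.snd h)])
    (by rintro _ ⟨ξ, hξ, rfl⟩; exact cv ξ hξ)
    (by
      rintro _ ⟨ξ, hξ, rfl⟩
      simpa [ek, hD0] using (hx ξ hξ).2.2.1.self_of_nhds.2)
    (by rintro _ ⟨ξ, hξ, rfl⟩; exact gne ξ hξ)
  have z0 : ∀ ξ ∈ Icc (1 / 2 : ℝ) (17 / 20), T0 (0, x ξ) = (c ξ).im := fun ξ hξ => by
    rw [← cx ξ hξ]
    exact u0 (κ ξ) (hKV ⟨ξ, hξ, rfl⟩) (by simpa [ek, hD0] using (hx ξ hξ).2.2.1.self_of_nhds.2)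
  have kk : ∀ ξ ∈ Icc (1 / 2 : ℝ) (17 / 20), ((0, x ξ), T0 (0, x ξ)) = κ ξ := fun ξ hξ => by
    rw [z0 ξ hξ, ← cx ξ hξ]
  have hg' : ∀ ξ ∈ Icc (1 / 2 : ℝ) (17 / 20), CV 2 l T T0 (0, x ξ) ∧
      (∀ᶠ p : ι × ℝ × ℝ in l ×ˢ 𝓝 (0, x ξ), D p.1 (emb (p.2, T p.1 p.2)) = 0) ∧
      ∀ᶠ y in 𝓝 ((0 : ℝ), x ξ), D0 (emb (y, T0 y)) = 0 := fun ξ hξ => by
    rw [← cx ξ hξ]
    exact hg (κ ξ) ⟨ξ, hξ, rfl⟩
  have mt : ∀ ξ ∈ Icc (1 / 2 : ℝ) (17 / 20),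
      fderiv ℝ (fun q => D0 (emb q)) (κ ξ) ((1, 0), 0) = -bb (xi (N (c ξ))) := fun ξ hξ => by
    have d1 := HasFDerivAt.comp_hasDerivAt (f := fun t : ℝ => ((t, (c ξ).re), (c ξ).im)) (0 : ℝ)
      (cd_diff (cv ξ hξ).smg0).hasFDerivAt
      (((hasDerivAt_id (0 : ℝ)).prodMk (hasDerivAt_const _ _)).prodMk (hasDerivAt_const _ _))
    have d2 := ((hasDerivAt_id (0 : ℝ)).mul_const (bb (xi (N (c ξ))))).const_sub
      (normSq (N (c ξ)) - del ^ 2)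
    refine (d1.unique (d2.congr_of_eventuallyEq (Eventually.of_forall fun t => ?_))).trans (by simp)
    simp [hD0, emb]
  have nz := implicit_sign (D := fun q => D0 (emb q)) (T := T0) h14
    (fun s h => by obtain ⟨ξ, hξ, rfl⟩ := hs s h; rw [kk ξ hξ]; exact (cv ξ hξ).smg0)
    (fun s h => by obtain ⟨ξ, hξ, rfl⟩ := hs s h; exact (hg' ξ hξ).1.smg0)
    (fun s h => by obtain ⟨ξ, hξ, rfl⟩ := hs s h; exact (hg' ξ hξ).2.2)
    (fun s h => by obtain ⟨ξ, hξ, rfl⟩ := hs s h; rw [kk ξ hξ]; exact gne ξ hξ)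
    (fun s h => by
      obtain ⟨ξ, hξ, rfl⟩ := hs s h
      rw [kk ξ hξ, mt ξ hξ]
      exact neg_nonpos.2 (Real.smoothTransition.nonneg _))
    (by
      obtain ⟨ξ, hξ, h⟩ := h1
      refine ⟨x ξ, hm ξ hξ, ?_⟩
      rw [kk ξ hξ, mt ξ hξ, h, bb, Real.smoothTransition.one_of_one_le (by norm_num)]
      norm_num)
  have cT : ∀ s ∈ Icc a1 a4, CV 2 l T T0 (0, s) := fun s h => by
    obtain ⟨ξ, hξ, rfl⟩ := hs s h
    exact (hg' ξ hξ).1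
  have j0 : ContDiff ℝ ∞ fun q : ℝ × ℝ => ((0 : ℝ), q.2) := by fun_prop
  obtain ⟨t, ht, hI⟩ := root_int (l := l)
    (I := fun i q => (2 + 3 / 4 * ε i ^ 2 * q.2 ^ 2) *
      (Real.sin (ε i * T i q) - Real.sin (ε i * T0 (0, q.2))) / ε i)
    (I0 := fun q => 2 * (T0 q - T0 (0, q.2))) h14.le (fun s h => by
      have c1 := CV.sinDiv (fun i => (hε i).ne') hε0 (cT s h).pred
      have c2 := CV.sinDiv (fun i => (hε i).ne') hε0
        (CV.pre' (x := ((0 : ℝ), s)) (CV.const (k := 1) (l := l) (cT s h).smg) j0)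
      have c3 : CV 1 l (fun i (q : ℝ × ℝ) => ε i) (fun _ => 0) (0, s) := CV.cst hε0
      have c4 := ((c3.mul c3).mul (CV.id'.snd.mul CV.id'.snd)).post'
        (g := fun y : ℝ => 2 + 3 / 4 * y) (by fun_prop)
      refine (c4.mul (c1.sub c2)).congr (Eventually.of_forall fun p => ?_)
        (Eventually.of_forall fun p => by simp)
      ring) (fun s _ => by simp) (by
      rw [intervalIntegral.integral_congr (g := fun s => 2 * fderiv ℝ T0 (0, s) (1, 0))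
        fun s h => ?_, intervalIntegral.integral_const_mul]
      · exact mul_ne_zero two_ne_zero nz
      · rw [uIcc_of_le h14.le] at h
        have d := (cd_diff (cT s h).smg0).hasFDerivAt
        have d2 := HasFDerivAt.comp (f := fun q : ℝ × ℝ => ((0 : ℝ), q.2)) ((0 : ℝ), s) d
          ((hasFDerivAt_const _ _).prodMk hasFDerivAt_snd)
        have d3 : HasFDerivAt (fun q => 2 * (T0 q - T0 (0, q.2))) _ ((0 : ℝ), s) :=
          (d.sub d2).const_mul 2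
        simp only [d3.fderiv]
        simp [← Prod.zero_eq_mk]) hε hε0
  have ct : ∀ s : ℝ, CV 2 l (fun i a => (t i, a)) (fun a => ((0 : ℝ), a)) s := fun s =>
    (CV.cst ht).prodMk CV.id'
  refine ⟨t, fun i a => T i (t i, a), fun a => T0 (0, a), ht,
    fun a ha => (cT a ha).comp (ct a), hI, fun ξ hξ => ⟨z0 ξ hξ, ?_, ?_⟩⟩
  · have t1 : Tendsto (fun q : ι × ℂ => ((t q.1, q.2.re), q.2.im)) (l ×ˢ 𝓝 (c ξ)) (𝓝 (κ ξ)) :=
      ((ht.comp tendsto_fst).prodMk_nhds ((continuous_re.tendsto _).comp tendsto_snd)).prodMk_nhds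
        ((continuous_im.tendsto _).comp tendsto_snd)
    filter_upwards [t1.eventually (hV.mem_nhds (hKV ⟨ξ, hξ, rfl⟩)), ev_fst u1] with q h2 h3 h4
    exact h3 _ h2 (by simpa [emb] using h4)
  · exact (tendsto_fst.prodMk (ct (x ξ)).tendsto).eventually (hg' ξ hξ).2.1

end Pool.Agent.Lib.MP_0281e9_an.BF
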