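import Pool.Agent.Lib.MP_0281e9_an.McMa

namespace Pool.Agent.Lib.MP_0281e9_an

open Set Filter Complex MeasureTheory Topology
open scoped ContDiff

namespace Mc

noncomputable section

variable {ι : Type} {l : Filter ι} {ε : ι → ℝ}

def bb (T τ : ℝ → ℝ) (p : ℝ × ℝ) : ℝ := ((p.2 - -τ p.2) - (p.1 - T p.1)) / 2

def Lam (e a1 : ℝ) (T τ : ℝ → ℝ) (p : ℝ × ℝ) : ℝ :=
  -(sf e a1 T p.1 + sf e a1 (fun t => -τ t) p.2) / (2 * Real.cos (e * bb T τ p))

def Mf (e a1 : ℝ) (T τ : ℝ → ℝ) (p : ℝ × ℝ) : ℝ × ℝ :=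
  (((p.1 - T p.1) + (p.2 - -τ p.2)) / 2,
    yf e p.2 (-τ p.2) - yf e p.1 (T p.1) - 2 * (e * Lam e a1 T τ p) * Real.sin (e * bb T τ p))

def M0 (τ : ℝ → ℝ) (p : ℝ × ℝ) : ℝ × ℝ :=
  (((p.1 - τ p.1) + (p.2 - -τ p.2)) / 2, 2 * (p.1 - p.2))

def Lam0 (a1 : ℝ) (τ : ℝ → ℝ) (p : ℝ × ℝ) : ℝ :=
  -((2 * p.1 * τ p.1 - p.1 ^ 2 + ∫ t in a1..p.1, -2 * τ t) +
    (2 * p.2 * -τ p.2 - p.2 ^ 2 + ∫ t in a1..p.2, -2 * -τ t)) / (2 * 1)

lemma M0_diag (τ : ℝ → ℝ) (a : ℝ) : M0 τ (a, a) = (a, 0) := by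
  simp only [M0, Prod.mk.injEq]
  constructor <;> ring

lemma Lam0_diag (a1 : ℝ) (τ : ℝ → ℝ) (a : ℝ) : Lam0 a1 τ (a, a) = a ^ 2 := by
  have : ∫ t in a1..a, -2 * -τ t = -∫ t in a1..a, -2 * τ t := by
    rw [← intervalIntegral.integral_neg]
    congr 1
    ext t
    ring
  simp only [Lam0, this]
  ring

lemma M0_inv {τ : ℝ → ℝ} {a : ℝ} (h : DifferentiableAt ℝ τ a) :
    (fderiv ℝ (M0 τ) (a, a)).IsInvertible := by
  have f1 : HasFDerivAt (fun p : ℝ × ℝ => p.1) (ContinuousLinearMap.fst ℝ ℝ ℝ) (a, a) :=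
    hasFDerivAt_fst
  have f2 : HasFDerivAt (fun p : ℝ × ℝ => p.2) (ContinuousLinearMap.snd ℝ ℝ ℝ) (a, a) :=
    hasFDerivAt_snd
  have h1 := h.hasDerivAt.comp_hasFDerivAt ((a, a) : ℝ × ℝ) f1
  have h2 := h.hasDerivAt.comp_hasFDerivAt ((a, a) : ℝ × ℝ) f2
  have h3 := (((f1.sub h1).add (f2.sub h2.neg)).const_mul (1 / 2 : ℝ)).prodMk
    ((f1.sub f2).const_mul (2 : ℝ))
  have h4 : HasFDerivAt (M0 τ) _ (a, a) := h3.congr_of_eventuallyEq
    (Eventually.of_forall fun p => by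
      simp only [M0, Pi.add_apply, Pi.sub_apply, Pi.neg_apply, Function.comp, Prod.mk.injEq,
        and_true]
      ring)
  refine isInv_self ?_
  rw [h4.fderiv]
  refine (injective_iff_map_eq_zero _).2 fun v hv => ?_
  have e1 := congrArg Prod.fst hv
  have e2 := congrArg Prod.snd hv
  simp at e1 e2
  have e3 : v.1 = v.2 := by linarith
  rw [e3] at e1
  exact Prod.ext (by simp only [Prod.fst_zero]; linarith) (by simp only [Prod.snd_zero]; linarith)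

section cv

variable {a1 a4 : ℝ} {τ : ℝ → ℝ} {T : ι → ℝ → ℝ}

lemma negtau (hT : ∀ a ∈ Icc a1 a4, CV 2 l T τ a) :
    ∀ a ∈ Icc a1 a4, CV 2 l (fun _ t => -τ t) (fun t => -τ t) a := fun a ha =>
  (CV.const (hT a ha).smg).neg

lemma all_CV (hε : ∀ i, 0 < ε i) (hε0 : Tendsto ε l (𝓝 0)) (h14 : a1 ≤ a4)
    (hT : ∀ a ∈ Icc a1 a4, CV 2 l T τ a) {a : ℝ} (ha : a ∈ Icc a1 a4) :
    CV 2 l (fun i => bb (T i) τ) (bb τ τ) (a, a) ∧
    CV 2 l (fun i => Lam (ε i) a1 (T i) τ) (Lam0 a1 τ) (a, a) ∧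
    CV 2 l (fun i => Mf (ε i) a1 (T i) τ) (M0 τ) (a, a) := by
  have c1 : CV 2 l (fun _ (p : ℝ × ℝ) => p.1) (fun p => p.1) (a, a) := CV.const' contDiff_fst
  have c2 : CV 2 l (fun _ (p : ℝ × ℝ) => p.2) (fun p => p.2) (a, a) := CV.const' contDiff_snd
  have t1 := (hT a ha).comp' c1 rfl
  have t2 := (negtau hT a ha).comp' c2 rfl
  have s1 := (sf_CV hε hε0 h14 hT ha).1.comp' c1 rfl
  have s2 := (sf_CV hε hε0 h14 (negtau hT) ha).1.comp' c2 rfl
  have hb : CV 2 l (fun i => bb (T i) τ) (bb τ τ) (a, a) :=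
    ((c2.sub t2).sub (c1.sub t1)).post' (g := fun x : ℝ => x / 2) (by fun_prop)
  have hL : CV 2 l (fun i => Lam (ε i) a1 (T i) τ) (Lam0 a1 τ) (a, a) :=
    (s1.add s2).neg.div ((cos_CV hε0 hb).post' (g := fun x : ℝ => 2 * x) (by fun_prop))
      (by norm_num)
  refine ⟨hb, hL, ?_⟩
  have m1 := ((c1.sub t1).add (c2.sub t2)).post' (g := fun x : ℝ => x / 2) (by fun_prop)
  have m2 := ((yf_CV hε hε0 c2 t2).sub (yf_CV hε hε0 c1 t1)).sub
    (((eps_mul hε0 hL).post' (g := fun x : ℝ => 2 * x) (by fun_prop)).mul (sin_CV hε0 hb))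
  refine (m1.prodMk m2).congr (Eventually.of_forall fun _ => rfl)
    (Eventually.of_forall fun p => ?_)
  simp only [M0, Prod.mk.injEq, true_and]
  ring

end cv

/-- the envelope computation -/
lemma envelope {e a1 a T' τ' : ℝ} {T τ : ℝ → ℝ} {P : ℝ → ℝ × ℝ}
    (hP : DifferentiableAt ℝ P a) (hM : ∀ᶠ x in 𝓝 a, Mf e a1 T τ (P x) = (x, 0))
    (hc : Real.cos (e * bb T τ (P a)) ≠ 0)
    (hT : HasDerivAt T T' (P a).1) (hτ : HasDerivAt (fun t => -τ t) τ' (P a).2)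
    (s1 : HasDerivAt (sf e a1 T) (yf e (P a).1 (T (P a).1) * (1 - T')) (P a).1)
    (s2 : HasDerivAt (sf e a1 fun t => -τ t) (yf e (P a).2 (-τ (P a).2) * (1 - τ')) (P a).2) :
    deriv (fun x => Lam e a1 T τ (P x)) a =
      -(yf e (P a).1 (T (P a).1) + yf e (P a).2 (-τ (P a).2)) /
        (2 * Real.cos (e * bb T τ (P a))) := by
  have hα := hP.fst.hasDerivAt
  have hβ := hP.snd.hasDerivAt
  set α' := deriv (fun x => (P x).1) a
  set β' := deriv (fun x => (P x).2) a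
  have d1 := hα.sub (hT.comp a hα)
  have d2 := hβ.sub (hτ.comp a hβ)
  have e1 : (α' - T' * α' + (β' - τ' * β')) / 2 = 1 := by
    refine ((d1.add d2).div_const 2).unique ((hasDerivAt_id a).congr_of_eventuallyEq ?_)
    exact hM.mono fun x hx => congrArg Prod.fst hx
  have e2 := congrArg Prod.snd hM.self_of_nhds
  have hb : HasDerivAt (fun x => bb T τ (P x)) ((β' - τ' * β' - (α' - T' * α')) / 2) a :=
    (d2.sub d1).div_const 2
  have hL := (((s1.comp a hα).add (s2.comp a hβ)).neg).div (((hb.const_mul e).cos).const_mul 2)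
    (mul_ne_zero two_ne_zero hc)
  refine (HasDerivAt.deriv (f := fun x => Lam e a1 T τ (P x)) hL).trans ?_
  simp only [Mf, Lam] at e2
  simp only [Pi.neg_apply, Pi.add_apply, Function.comp]
  set c := Real.cos (e * bb T τ (P a))
  set s := Real.sin (e * bb T τ (P a))
  set y1 := yf e (P a).1 (T (P a).1)
  set y2 := yf e (P a).2 (-τ (P a).2)
  set Sg := sf e a1 T (P a).1 + sf e a1 (fun t => -τ t) (P a).2
  have e3 : (y2 - y1) * c = -(e * Sg * s) := by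
    field_simp at e2
    linarith
  rw [div_eq_div_iff (by positivity) (mul_ne_zero two_ne_zero hc)]
  linear_combination (-2 * c * (β' - τ' * β' - (α' - T' * α'))) * e3 -
    4 * (y1 + y2) * c ^ 2 * e1

/-- on the margins nothing changes -/
lemma margin {e a1 a2 a3 a4 : ℝ} (h12 : a1 < a2) (h23 : a2 < a3) (h34 : a3 < a4)
    {T τ : ℝ → ℝ} (cT : ContinuousOn T (Icc a1 a4)) (cτ : ContinuousOn τ (Icc a1 a4))
    (hm : ∀ a ∈ Icc a1 a2 ∪ Icc a3 a4, T a = τ a)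
    (hI : ∫ a in a1..a4, (2 + 3 / 4 * e ^ 2 * a ^ 2) *
      (Real.sin (e * T a) - Real.sin (e * τ a)) / e = 0) {a : ℝ}
    (ha : a ∈ Icc a1 a2 ∪ Icc a3 a4) (hc : Real.cos (e * τ a) ≠ 0) :
    Lam e a1 T τ (a, a) = w0 e a ∧ Mf e a1 T τ (a, a) = (a, 0) := by
  have ha' : a ∈ Icc a1 a4 := by
    rcases ha with h | h
    · exact ⟨h.1, by linarith [h.2]⟩
    · exact ⟨by linarith [h.1], h.2⟩
  have hb : bb T τ (a, a) = τ a := by
    simp only [bb, hm a ha]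
    ring
  have g1 : ContinuousOn (fun t => Gf e t (T t)) (Icc a1 a4) := by
    unfold Gf S
    fun_prop
  have g2 : ContinuousOn (fun t => Gf e t (-τ t)) (Icc a1 a4) := by
    unfold Gf S
    fun_prop
  have z : ∀ t ∈ Icc a1 a2 ∪ Icc a3 a4, Gf e t (T t) + Gf e t (-τ t) = 0 := by
    intro t ht
    simp only [Gf, S, hm t ht, mul_neg, Real.sin_neg]
    ring
  have l1 : a1 ∈ Icc a1 a4 := ⟨le_rfl, by linarith⟩
  have l4 : a4 ∈ Icc a1 a4 := ⟨by linarith, le_rfl⟩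
  have ii : ∀ {f : ℝ → ℝ}, ContinuousOn f (Icc a1 a4) → ∀ {x y}, x ∈ Icc a1 a4 → y ∈ Icc a1 a4 →
      IntervalIntegrable f volume x y := fun hf _ _ hx hy =>
    (hf.mono (uIcc_subset_Icc hx hy)).intervalIntegrable
  have hJ : (∫ t in a1..a, Gf e t (T t)) + ∫ t in a1..a, Gf e t (-τ t) = 0 := by
    rw [← intervalIntegral.integral_add (ii g1 l1 ha') (ii g2 l1 ha')]
    rcases ha with h | h
    · rw [intervalIntegral.integral_congr (g := fun _ => 0) fun t ht => z t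
        (Or.inl (uIcc_subset_Icc ⟨le_rfl, h12.le⟩ h ht))]
      simp
    · have k1 := intervalIntegral.integral_add_adjacent_intervals (ii (g1.add g2) l1 ha')
        (ii (g1.add g2) ha' l4)
      have k2 : ∫ t in a..a4, (Gf e t (T t) + Gf e t (-τ t)) = 0 := by
        rw [intervalIntegral.integral_congr (g := fun _ => 0) fun t ht => z t
          (Or.inr (uIcc_subset_Icc h ⟨h34.le, le_rfl⟩ ht))]
        simp
      have k3 : ∫ t in a1..a4, (Gf e t (T t) + Gf e t (-τ t)) = 0 := by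
        rw [← neg_eq_zero, ← intervalIntegral.integral_neg, ← hI]
        congr 1
        ext t
        simp only [Gf, S, mul_neg, Real.sin_neg]
        ring
      simp only [Pi.add_apply] at k1
      linarith
  have hL : Lam e a1 T τ (a, a) = w0 e a := by
    simp only [Lam, sf, hb, Ff, S, hm a ha, mul_neg, Real.sin_neg, Real.cos_neg]
    rw [div_eq_iff (mul_ne_zero two_ne_zero hc)]
    linear_combination -hJ
  refine ⟨hL, ?_⟩
  simp only [Mf, hL, hb, hm a ha, yf, mul_neg, Real.sin_neg, Real.cos_neg, Prod.mk.injEq]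
  constructor <;> ring

lemma maps_surj {a1 a4 : ℝ} (h14 : a1 ≤ a4) {α : ℝ → ℝ}
    (hd : ∀ a ∈ Icc a1 a4, DifferentiableAt ℝ α a ∧ 0 < deriv α a) (h1 : α a1 = a1)
    (h4 : α a4 = a4) : MapsTo α (Icc a1 a4) (Icc a1 a4) ∧ SurjOn α (Icc a1 a4) (Icc a1 a4) := by
  have hc : ContinuousOn α (Icc a1 a4) := fun a ha =>
    (hd a ha).1.continuousAt.continuousWithinAt
  have hm := (strictMonoOn_of_deriv_pos (convex_Icc a1 a4) hc
    fun a ha => (hd a (interior_subset ha)).2).monotoneOn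
  refine ⟨fun a ha => ⟨?_, ?_⟩, ?_⟩
  · exact h1 ▸ hm ⟨le_rfl, h14⟩ ha ha.1
  · exact h4 ▸ hm ha ⟨h14, le_rfl⟩ ha.2
  · have := intermediate_value_Icc h14 hc
    rwa [h1, h4] at this

end

end Mc

open Mc in
/-- correct the mirror so that the arc `a + i T a` is reflected onto `a - i τ a` -/
theorem mcmillan {ι : Type} {l : Filter ι} {ε : ι → ℝ} (hε : ∀ i, 0 < ε i)
    (hε0 : Tendsto ε l (𝓝 0)) {a1 a2 a3 a4 : ℝ} (h12 : a1 < a2) (h23 : a2 < a3) (h34 : a3 < a4)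
    {τ : ℝ → ℝ} {T : ι → ℝ → ℝ} (hT : ∀ a ∈ Icc a1 a4, CV 2 l T τ a)
    (hm : ∀ᶠ i in l, ∀ a ∈ Icc a1 a2 ∪ Icc a3 a4, T i a = τ a)
    (hI : ∀ᶠ i in l, ∫ a in a1..a4, (2 + 3 / 4 * ε i ^ 2 * a ^ 2) *
      (Real.sin (ε i * T i a) - Real.sin (ε i * τ a)) / ε i = 0) :
    ∃ v : ι → ℝ → ℝ, (∀ i, ContDiff ℝ ∞ (v i)) ∧ (∀ a, CV 3 l v (fun _ => 0) a) ∧
      (∀ i a, a ∉ Ioo a2 a3 → v i a = 0) ∧ ∀ᶠ i in l, ∃ α β b : ℝ → ℝ,
        MapsTo α (Icc a1 a4) (Icc a1 a4) ∧ SurjOn α (Icc a1 a4) (Icc a1 a4) ∧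
        MapsTo β (Icc a1 a4) (Icc a1 a4) ∧ SurjOn β (Icc a1 a4) (Icc a1 a4) ∧
        ∀ a ∈ Icc a1 a4, |b a - τ a| ≤ 1 ∧
          Inc (ε i) (Real.pi / 2) (w0 (ε i) + v i) (a + b a * I) =
            Inc (ε i) (Real.pi / 2) (w0 (ε i)) (α a + T i (α a) * I) ∧
          Inc (ε i) (Real.pi / 2) (w0 (ε i) + v i) (a - b a * I) =
            Inc (ε i) (Real.pi / 2) (w0 (ε i)) (β a - τ (β a) * I) := by
  classical
  have h14 : a1 ≤ a4 := by linarith
  have hK : IsCompact ((fun a : ℝ => (a, a)) '' Icc a1 a4) := isCompact_Icc.image (by fun_prop)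
  obtain ⟨N, hNo, hKN, hi0, hi⟩ := CV.inj_nhd (k := 1) (l := l)
    (f := fun i => Mf (ε i) a1 (T i) τ) (g := M0 τ) hK
    (by rintro _ ⟨a, ha, rfl⟩; exact (all_CV hε hε0 h14 hT ha).2.2)
    (by rintro _ ⟨a, ha, rfl⟩; exact M0_inv (cd_diff (hT a ha).smg0))
    (by
      rintro _ ⟨a, _, rfl⟩ _ ⟨a', _, rfl⟩ h
      simp only [M0_diag, Prod.mk.injEq, and_true] at h
      rw [h])
  let P : ι → ℝ → ℝ × ℝ := fun i a => Function.invFunOn (Mf (ε i) a1 (T i) τ) N (a, 0)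
  let wt : ι → ℝ → ℝ := fun i a => Lam (ε i) a1 (T i) τ (P i a)
  let b : ι → ℝ → ℝ := fun i a => bb (T i) τ (P i a)
  have hN : ∀ a ∈ Icc a1 a4, N ∈ 𝓝 (a, a) := fun a ha => hNo.mem_nhds (hKN ⟨a, ha, rfl⟩)
  have c0 : ∀ a : ℝ, CV 2 l (fun _ (x : ℝ) => (x, (0 : ℝ))) (fun x => (x, 0)) a := fun a =>
    CV.const' (by fun_prop)
  have hP : ∀ a ∈ Icc a1 a4, CV 2 l P (fun x => (x, x)) a := by
    intro a ha
    have h1 := (all_CV hε hε0 h14 hT ha).2.2.invFunOn (M0_inv (cd_diff (hT a ha).smg0))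
      (hN a ha) hi (h0 := Function.invFunOn (M0 τ) N)
      (eventually_of_mem (hN a ha) fun z hz => hi0.leftInvOn_invFunOn hz)
    refine (h1.comp' (c0 a) (M0_diag τ a).symm).congr (Eventually.of_forall fun _ => rfl) ?_
    have : ∀ᶠ x in 𝓝 a, (x, x) ∈ N :=
      (Continuous.tendsto (f := fun x : ℝ => (x, x)) (by fun_prop) a).eventually (hN a ha)
    refine this.mono fun x hx => ?_
    simp only
    rw [← M0_diag τ x]
    exact hi0.leftInvOn_invFunOn hx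
  have hM : ∀ a ∈ Icc a1 a4, ∀ᶠ p : ι × ℝ in l ×ˢ 𝓝 a,
      Mf (ε p.1) a1 (T p.1) τ (P p.1 p.2) = (p.2, 0) := by
    intro a ha
    have h1 := (all_CV hε hε0 h14 hT ha).2.2.invFunOn_right (M0_inv (cd_diff (hT a ha).smg0))
      (hN a ha) hi
    rw [M0_diag] at h1
    exact (ev_push (f := fun _ (x : ℝ) => (x, (0 : ℝ)))
      (P := fun i y => Function.invFunOn (Mf (ε i) a1 (T i) τ) N y ∈ N ∧
      Mf (ε i) a1 (T i) τ (Function.invFunOn (Mf (ε i) a1 (T i) τ) N y) = y)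
      (c0 a).tendsto h1).mono fun p hp => hp.2
  have hb : ∀ a ∈ Icc a1 a4, CV 2 l b τ a := fun a ha =>
    ((all_CV hε hε0 h14 hT ha).1.comp' (hP a ha) rfl).congr (Eventually.of_forall fun _ => rfl)
      (Eventually.of_forall fun x => by simp only [bb]; ring)
  have hw2 : ∀ a ∈ Icc a1 a4, CV 2 l wt (fun x => x ^ 2) a := fun a ha =>
    ((all_CV hε hε0 h14 hT ha).2.1.comp' (hP a ha) rfl).congr (Eventually.of_forall fun _ => rfl)
      (Eventually.of_forall fun x => Lam0_diag a1 τ x)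
  have hcos : ∀ {u : ι → ℝ → ℝ} {u0 : ℝ → ℝ} {a : ℝ}, CV 2 l u u0 a →
      ∀ᶠ p : ι × ℝ in l ×ˢ 𝓝 a, Real.cos (ε p.1 * u p.1 p.2) ≠ 0 := fun h =>
    (cos_CV hε0 h).tendsto.eventually (eventually_ne_nhds one_ne_zero)
  have hd : ∀ a ∈ Icc a1 a4, ∀ᶠ p : ι × ℝ in l ×ˢ 𝓝 a, deriv (wt p.1) p.2 =
      -(yf (ε p.1) (P p.1 p.2).1 (T p.1 (P p.1 p.2).1) +
        yf (ε p.1) (P p.1 p.2).2 (-τ (P p.1 p.2).2)) / (2 * Real.cos (ε p.1 * b p.1 p.2)) := by
    intro a ha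
    filter_upwards [(hP a ha).sm,
      ev_ev (P := fun i x => Mf (ε i) a1 (T i) τ (P i x) = (x, 0)) (hM a ha), hcos (hb a ha),
      ev_push (f := fun i x => (P i x).1) (y := a)
        (P := fun i y => HasDerivAt (T i) (deriv (T i) y) y ∧
        HasDerivAt (sf (ε i) a1 (T i)) (yf (ε i) y (T i y) * (1 - deriv (T i) y)) y)
        (hP a ha).fst.tendsto (sf_CV hε hε0 h14 hT ha).2,
      ev_push (f := fun i x => (P i x).2) (y := a)
        (P := fun i y => HasDerivAt (fun t => -τ t) (deriv (fun t => -τ t) y) y ∧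
        HasDerivAt (sf (ε i) a1 fun t => -τ t)
          (yf (ε i) y (-τ y) * (1 - deriv (fun t => -τ t) y)) y)
        (hP a ha).snd.tendsto (sf_CV hε hε0 h14 (negtau hT) ha).2] with p p1 p2 p3 p4 p5
    exact envelope (cd_diff p1) p2 p3 p4.1 p5.1 p4.2 p5.2
  have hw3 : ∀ a ∈ Icc a1 a4, CV 3 l wt (fun x => x ^ 2) a := by
    intro a ha
    refine (hw2 a ha).to_zero.of_deriv ?_
    have y1 := yf_CV hε hε0 (hP a ha).fst ((hT a ha).comp' (hP a ha).fst rfl)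
    have y2 := yf_CV hε hε0 (hP a ha).snd ((negtau hT a ha).comp' (hP a ha).snd rfl)
    have := (y1.add y2).neg.div
      ((cos_CV hε0 (hb a ha)).post' (g := fun x : ℝ => 2 * x) (by fun_prop)) (by norm_num)
    refine this.congr ((hd a ha).mono fun p hp => hp.symm) (Eventually.of_forall fun x => ?_)
    simp
  have hpos : ∀ {u : ι → ℝ → ℝ} {a : ℝ}, CV 2 l u (fun x => x) a →
      ∀ᶠ p : ι × ℝ in l ×ˢ 𝓝 a, DifferentiableAt ℝ (u p.1) p.2 ∧ 0 < deriv (u p.1) p.2 := by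
    intro u a h
    have t := h.deriv.tendsto
    rw [deriv_id''] at t
    filter_upwards [h.sm, t.eventually (lt_mem_nhds one_pos)] with p p1 p2
    exact ⟨cd_diff p1, p2⟩
  let Q : ι → ℝ → Prop := fun i a => ContDiffAt ℝ ∞ (wt i) a ∧ ContDiffAt ℝ ∞ (T i) a ∧
    Mf (ε i) a1 (T i) τ (P i a) = (a, 0) ∧ Real.cos (ε i * b i a) ≠ 0 ∧
    Real.cos (ε i * τ a) ≠ 0 ∧
    deriv (wt i) a = -(yf (ε i) (P i a).1 (T i (P i a).1) +
        yf (ε i) (P i a).2 (-τ (P i a).2)) / (2 * Real.cos (ε i * b i a)) ∧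
    (DifferentiableAt ℝ (fun x => (P i x).1) a ∧ 0 < deriv (fun x => (P i x).1) a) ∧
    (DifferentiableAt ℝ (fun x => (P i x).2) a ∧ 0 < deriv (fun x => (P i x).2) a) ∧
    ‖b i a - τ a‖ ≤ 1
  have hQ : ∀ᶠ i in l, ∀ a ∈ Icc a1 a4, Q i a := ev_compact' isCompact_Icc fun a ha =>
    (hw3 a ha).sm.and <| (hT a ha).sm.and <| (hM a ha).and <| (hcos (hb a ha)).and <|
      (hcos (CV.const (hT a ha).smg)).and <| (hd a ha).and <| (hpos (hP a ha).fst).and <|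
      (hpos (hP a ha).snd).and ((hb a ha).close one_pos)
  let Good : ι → Prop := fun i => (∀ a ∈ Icc a1 a4, Q i a) ∧
    ∀ a ∈ Icc a1 a2 ∪ Icc a3 a4, P i a = (a, a) ∧ wt i a = w0 (ε i) a
  have sub : Icc a1 a2 ∪ Icc a3 a4 ⊆ Icc a1 a4 :=
    union_subset (Icc_subset_Icc le_rfl (by linarith)) (Icc_subset_Icc (by linarith) le_rfl)
  have hG : ∀ᶠ i in l, Good i := by
    filter_upwards [hQ, hm, hI, hi] with i q1 q2 q3 q4
    refine ⟨q1, fun a ha => ?_⟩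
    obtain ⟨m1, m2⟩ := margin h12 h23 h34
      (fun x hx => (q1 x hx).2.1.continuousAt.continuousWithinAt)
      (fun x hx => (hT x hx).smg0.continuousAt.continuousWithinAt) q2 q3 ha
      (q1 a (sub ha)).2.2.2.2.1
    have : P i a = (a, a) := by
      simp only [P]
      rw [← m2]
      exact q4.leftInvOn_invFunOn (hKN ⟨a, sub ha, rfl⟩)
    exact ⟨this, by simp only [wt, this, m1]⟩
  let v : ι → ℝ → ℝ := fun i a => if Good i ∧ a ∈ Icc a1 a4 then wt i a - w0 (ε i) a else 0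
  have v0 : ∀ i a, a ∉ Ioo a2 a3 → v i a = 0 := by
    intro i a ha
    simp only [v]
    split_ifs with h
    · have : a ∈ Icc a1 a2 ∪ Icc a3 a4 := by
        by_cases h2 : a ≤ a2
        · exact Or.inl ⟨h.2.1, h2⟩
        · exact Or.inr ⟨not_lt.1 fun h3 => ha ⟨not_le.1 h2, h3⟩, h.2.2⟩
      rw [(h.1.2 a this).2, sub_self]
    · rfl
  have v1 : ∀ i a, Good i → a ∈ Icc a1 a4 → v i a = wt i a - w0 (ε i) a := fun i a h1 h2 =>
    if_pos ⟨h1, h2⟩
  have cases : ∀ a : ℝ, a ∈ Ioo a1 a4 ∨ ∀ᶠ x in 𝓝 a, x ∉ Ioo a2 a3 := by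
    intro a
    by_cases h : a ∈ Icc a2 a3
    · exact Or.inl ⟨h12.trans_le h.1, h.2.trans_lt h34⟩
    · exact Or.inr (eventually_of_mem (isClosed_Icc.isOpen_compl.mem_nhds h)
        fun x hx hx' => hx (Ioo_subset_Icc_self hx'))
  have vs : ∀ i, ContDiff ℝ ∞ (v i) := by
    intro i
    by_cases hg : Good i
    · refine contDiff_iff_contDiffAt.2 fun a => ?_
      rcases cases a with h | h
      · refine ((hg.1 a (Ioo_subset_Icc_self h)).1.sub
          (w0_cd (ε i)).contDiffAt).congr_of_eventuallyEq ?_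
        exact eventually_of_mem (isOpen_Ioo.mem_nhds h)
          fun x hx => v1 i x hg (Ioo_subset_Icc_self hx)
      · exact (contDiffAt_const (c := (0 : ℝ))).congr_of_eventuallyEq (h.mono fun x hx => v0 i x hx)
    · have : v i = fun _ => 0 := funext fun a => if_neg fun h => hg h.1
      rw [this]
      exact contDiff_const
  refine ⟨v, vs, fun a => ?_, v0, hG.mono fun i hg => ?_⟩
  · rcases cases a with h | h
    · refine ((hw3 a (Ioo_subset_Icc_self h)).sub (w0_CV' hε hε0 CV.id')).congr ?_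
        (Eventually.of_forall fun x => sub_self _)
      filter_upwards [ev_fst (x := a) hG,
        ev_snd (l := l) (P := fun y => y ∈ Ioo a1 a4) (isOpen_Ioo.mem_nhds h)] with p p1 p2
      exact (v1 _ _ p1 (Ioo_subset_Icc_self p2)).symm
    · refine (CV.const' contDiff_const).congr ?_ (Eventually.of_forall fun _ => rfl)
      exact (ev_snd (l := l) h).mono fun p hp => (v0 _ _ hp).symm
  have k1 := (hg.2 a1 (Or.inl ⟨le_rfl, h12.le⟩)).1
  have k4 := (hg.2 a4 (Or.inr ⟨h34.le, le_rfl⟩)).1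
  obtain ⟨A1, A2⟩ := maps_surj h14 (α := fun x => (P i x).1)
    (fun a ha => (hg.1 a ha).2.2.2.2.2.2.1) (by simp only [k1]) (by simp only [k4])
  obtain ⟨B1, B2⟩ := maps_surj h14 (α := fun x => (P i x).2)
    (fun a ha => (hg.1 a ha).2.2.2.2.2.2.2.1) (by simp only [k1]) (by simp only [k4])
  refine ⟨_, _, b i, A1, A2, B1, B2, fun a ha => ?_⟩
  obtain ⟨q1, -, q3, q4, -, q6, -, -, q9⟩ := hg.1 a ha
  have ev : ∀ x ∈ Icc a1 a4, (w0 (ε i) + v i) x = wt i x := fun x hx => by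
    rw [Pi.add_apply, v1 i x hg hx]
    ring
  have ed : deriv (w0 (ε i) + v i) a = deriv (wt i) a := by
    have d1 := (cd_diff ((w0_cd (ε i)).add (vs i)).contDiffAt (x := a)).hasDerivAt
    refine (uniqueDiffOn_Icc (by linarith) a ha).eq_deriv _ d1.hasDerivWithinAt ?_
    exact (cd_diff q1).hasDerivAt.hasDerivWithinAt.congr ev (ev a ha)
  have e1 := congrArg Prod.fst q3
  have e2 := congrArg Prod.snd q3
  simp only [Mf] at e1 e2
  have e3 : b i a = ((P i a).2 - -τ (P i a).2 - ((P i a).1 - T i (P i a).1)) / 2 := rfl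
  have e4 : deriv (wt i) a * Real.cos (ε i * b i a) = -(yf (ε i) (P i a).1 (T i (P i a).1) +
        yf (ε i) (P i a).2 (-τ (P i a).2)) / 2 := by
    rw [q6]
    field_simp
  have e5 : yf (ε i) (P i a).2 (-τ (P i a).2) - yf (ε i) (P i a).1 (T i (P i a).1) -
      2 * (ε i * wt i a) * Real.sin (ε i * b i a) = 0 := e2
  refine ⟨q9, ?_, ?_⟩
  · rw [Inc_eq, Inc_w0 (hε i).ne', ed, ev a ha]
    congr 2
    · linarith
    · congr 1
      linarith
  · have r1 : (a : ℂ) - b i a * I = a + (-b i a : ℝ) * I := by push_cast; ring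
    have r2 : ((P i a).2 : ℂ) - τ (P i a).2 * I = (P i a).2 + (-τ (P i a).2 : ℝ) * I := by
      push_cast; ring
    rw [r1, r2, Inc_eq, Inc_w0 (hε i).ne', ed, ev a ha, mul_neg, Real.cos_neg, Real.sin_neg]
    congr 2
    · linarith
    · congr 1
      linarith

end Pool.Agent.Lib.MP_0281e9_an
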