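import Pool.Agent.Lib.MP_0281e9_an.FixA
import Pool.Agent.Lib.MP_0281e9_an.FixB
import Pool.Agent.Lib.MP_0281e9_an.FixD
import Pool.Agent.Lib.MP_0281e9_an.McM

namespace Pool.Agent.Lib.MP_0281e9_an

open Set Filter Complex Topology BF
open scoped ContDiff ComplexConjugate

theorem curve_fix {ι : Type} {l : Filter ι} {ε : ι → ℝ} (hε : ∀ i, 0 < ε i)
    (hε0 : Tendsto ε l (𝓝 0)) {β ν B : ℂ → ℂ} {Bn : ι → ℂ → ℂ} {x : ℝ → ℝ} {v : ι → ℝ → ℝ}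
    {W0 : Set ℝ} {Bd : ℝ}
    (hβ : ∀ o, o ≠ 0 → ‖o‖ < 1 / 64 → ContDiffAt ℝ ∞ β o ∧ ContDiffAt ℝ ∞ ν (β o) ∧
      ν (β o) = o ∧ β (conj o) = conj (β o))
    (xre : ∀ ζ : ℂ, ‖ζ‖ = 1 → (β (del * ζ)).re = x ζ.re)
    (xd : ∀ ξ ∈ Icc (-1 : ℝ) 1, DifferentiableAt ℝ x ξ ∧ deriv x ξ ≠ 0)
    (hBd : ∀ ζ : ℂ, ‖ζ‖ = 1 → ‖β (del * ζ)‖ ≤ Bd)
    (hB : ∀ ζ : ℂ, ‖ζ‖ = 1 → CV 2 l Bn B (del * ζ) ∧ B (del * ζ) = β (del * mob ζ) ∧
      Function.Injective (fderiv ℝ B (del * ζ)))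
    (hBi : InjOn B (Metric.sphere 0 del))
    (hv : ∀ a, CV 3 l v (fun _ => 0) a) (hW0 : IsOpen W0) (hvW : ∀ i, ∀ a ∈ W0, v i a = 0)
    (hxW : ∀ ξ : ℝ, (ξ ∈ Icc (1 / 2 : ℝ) (17 / 20) ∨ ξ = 1 ∨ ξ = -1) → x ξ ∈ W0) :
    ∃ σ v' : ι → ℝ → ℝ, (∀ ξ, CV 2 l σ (fun _ => 0) ξ) ∧ (∀ i, ContDiff ℝ ∞ (v' i)) ∧
      (∀ a, CV 3 l v' (fun _ => 0) a) ∧
      (∀ i a, a ∉ x '' Icc (1 / 2 : ℝ) (17 / 20) → v' i a = 0) ∧
      ∀ W : Set ℝ, IsOpen W → x '' Icc (-1 : ℝ) 1 ⊆ W → ∀ᶠ i in l, ∀ ζ : ℂ, ‖ζ‖ = 1 →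
        ∃ ζ' s : ℂ, ‖ζ'‖ = 1 ∧ s.re ∈ W ∧ ‖s‖ ≤ Bd + 1 ∧
          Inc (ε i) (Real.pi / 2) (w0 (ε i) + (v i + v' i)) s =
            Inc (ε i) (Real.pi / 2) (w0 (ε i)) (Bn i (Real.sqrt (del ^ 2 + σ i ζ.re) • ζ)) ∧
          Inc (ε i) (Real.pi / 2) (w0 (ε i) + (v i + v' i)) (conj s) =
            Inc (ε i) (Real.pi / 2) (w0 (ε i)) (Bn i (Real.sqrt (del ^ 2 + σ i ζ'.re) • ζ')) := by
  obtain ⟨S, R, -, hSR⟩ := exists_refl hε hε0 hv (Bd + 1)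
  have hSR' := fun ζ (h : ‖ζ‖ = 1) => hSR (β (del * ζ)) ((hBd ζ h).trans_lt (lt_add_one _))
  obtain ⟨b, hb, hbZ⟩ : ∃ b : ℝ, 0 < b ∧ ∀ ζ : ℂ, ‖ζ‖ = 1 → |ζ.im| ≤ b → x ζ.re ∈ W0 := by
    obtain ⟨r1, hr1, h1⟩ := Metric.eventually_nhds_iff.1 ((xd 1 (by norm_num)).1.continuousAt.eventually
      (hW0.mem_nhds (hxW 1 (by simp))))
    obtain ⟨r2, hr2, h2⟩ := Metric.eventually_nhds_iff.1
      ((xd (-1) (by norm_num)).1.continuousAt.eventually (hW0.mem_nhds (hxW (-1) (by simp))))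
    refine ⟨min (min r1 r2) 1 / 2, by positivity, fun ζ h hi => ?_⟩
    have e := unit_sq h
    have m := unit_re h
    have b1 := min_le_right (min r1 r2) 1
    have b2 := (min_le_left (min r1 r2) 1).trans (min_le_left r1 r2)
    have b3 := (min_le_left (min r1 r2) 1).trans (min_le_right r1 r2)
    have b4 : ζ.im ^ 2 ≤ min (min r1 r2) 1 / 2 := by
      rw [← sq_abs]
      nlinarith [abs_nonneg ζ.im]
    rcases le_total 0 ζ.re with h0 | h0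
    · refine h1 ?_
      rw [Real.dist_eq, abs_lt]
      constructor <;> nlinarith [m.1, m.2]
    · refine h2 ?_
      rw [Real.dist_eq, abs_lt]
      constructor <;> nlinarith [m.1, m.2]
  obtain ⟨ρ, hρ⟩ := rho_hat hβ (R := R) (l := l) hb (Z := fun ζ => x ζ.re ∈ W0) hbZ fun ζ h =>
    ⟨(hSR' ζ h).2.1, (hSR' ζ h).2.2.1.mono fun _ hq => hq.2.2, fun hz => (hSR' ζ h).2.2.2 (by
      rw [xre ζ h]
      exact (ev_snd (l := l) (hW0.mem_nhds hz)).mono fun q hq => hvW _ _ hq)⟩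
  obtain ⟨N, Nn, hN⟩ := exists_N (fun ζ h => ⟨(hB ζ h).1, (hB ζ h).2.2⟩) hBi
  obtain ⟨σ1, hσ1, hσ⟩ := sigma_hat (l := l) (H := fun i o => ρ i (Bn i o))
    (H0 := fun o => normSq (ν (B o)) - del ^ 2) fun ζ h => by
      have hm := mob_norm h
      obtain ⟨b1, b2, b3⟩ := hB ζ h
      obtain ⟨-, c2, c3, -⟩ := hβ _ (del_ne hm) (del_lt hm)
      have dν : DifferentiableAt ℝ ν (B (del * ζ)) := b2.symm ▸ cd_diff c2
      refine ⟨(hρ _ hm).1.comp' b1 b2, by rw [b2, c3]; exact normSq_del hm, ?_⟩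
      refine grad_ne (f := ν ∘ B) (dν.comp _ (cd_diff b1.smg0)) ?_
        (by rw [Function.comp, b2, c3]; exact del_ne hm) _
      rw [fderiv_comp _ dν (cd_diff b1.smg0), b2]
      exact (chart_facts hβ (del_ne hm) (del_lt hm)).1.comp (isInv_self b3).surjective
  have pre : ∀ ζ' : ℂ, ‖ζ'‖ = 1 → ∃ ζ : ℂ, ‖ζ‖ = 1 ∧ mob ζ = ζ' ∧ β (del * ζ') = B (del * ζ) :=
    fun ζ' h => by
      obtain ⟨ζ, h1, h2⟩ := mob_surj h
      exact ⟨ζ, h1, h2, by rw [(hB ζ h1).2.1, h2]⟩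
  set D : ι → ℝ × ℂ → ℝ := fun i q => normSq (Nn i q.2) - del ^ 2 -
    (σ1 i (xi (Nn i q.2)) + q.1 * bb (xi (Nn i q.2))) with hD
  have cD : ∀ ζ : ℂ, ‖ζ‖ = 1 → CV 2 l D
      (fun q => normSq (N q.2) - del ^ 2 - q.1 * bb (xi (N q.2))) (0, B (del * ζ)) := by
    intro ζ h
    have c1 : CV 2 l (fun i (q : ℝ × ℂ) => Nn i q.2) (fun q => N q.2) (0, B (del * ζ)) :=
      CV.pre' (hN ζ h).1 contDiff_snd
    have c2 := c1.post (g := xi) (by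
      rw [(hN ζ h).2.1]
      exact (eventually_ne_nhds (del_ne h)).mono fun _ ho => cd_xi ho)
    refine (((c1.post' cd_normSq).sub (CV.const' (g := fun _ => del ^ 2) contDiff_const)).sub
      (((hσ1 _).comp c2).add (CV.id'.fst.mul (c2.post' cd_bb)))).congr
        (Eventually.of_forall fun _ => rfl) (Eventually.of_forall fun _ => by simp)
  have tN : ∀ ζ : ℂ, ‖ζ‖ = 1 →
      Tendsto (fun q : ι × ℂ => Nn q.1 q.2) (l ×ˢ 𝓝 (B (del * ζ))) (𝓝 (del * ζ)) := fun ζ h => by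
    simpa only [(hN ζ h).2.1] using (hN ζ h).1.tendsto
  have Eqv : ∀ ζ' : ℂ, ‖ζ'‖ = 1 → ¬ (ζ'.re ∈ Ioo (11 / 20 : ℝ) (4 / 5) ∧ 0 < ζ'.im) →
      ∀ᶠ q : ι × ℂ in l ×ˢ 𝓝 (β (del * ζ')), ∀ t, (D q.1 (t, q.2) = 0 ↔ ρ q.1 q.2 = 0) := by
    intro ζ' h' hn
    obtain ⟨ζ, h, e1, e2⟩ := pre ζ' h'
    have him : ζ.im < -(1 / 10) := lt_of_not_ge fun h1 => hn (e1 ▸ mob_arc h h1)
    have hre : ζ.re < 998 / 1000 := by nlinarith [unit_sq h]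
    have t1 : Tendsto xi (𝓝 (del * ζ : ℂ)) (𝓝 ζ.re) :=
      xi_del h ▸ (cd_xi (del_ne h)).continuousAt.tendsto
    rw [e2]
    filter_upwards [(tendsto_fst.prodMk (tN ζ h)).eventually (hσ ζ h him), (hN ζ h).2.2.2.2,
      (t1.comp (tN ζ h)).eventually (gt_mem_nhds hre)] with q a1 a2 a3 t
    have : bb (xi (Nn q.1 q.2)) = 0 := Real.smoothTransition.zero_of_nonpos (by
      simp only [Function.comp] at a3
      linarith)
    simp only [a2] at a1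
    simp only [hD, this, mul_zero, add_zero, sub_eq_zero (a := _ - del ^ 2), a1]
  obtain ⟨xinj, a1, a2, a3, a4, h12, h23, h34, s14, m14, mo, m23, mo23⟩ := arc_param xd
  have mI : ∀ ξ ∈ Icc (1 / 2 : ℝ) (17 / 20), ξ ∈ Icc (-1 : ℝ) 1 := fun ξ h =>
    ⟨by linarith [h.1], by linarith [h.2]⟩
  have mA : ∀ ξ ∈ Icc (1 / 2 : ℝ) (17 / 20), |ξ| < 1 := fun ξ h =>
    abs_lt.2 ⟨by linarith [h.1], by linarith [h.2]⟩
  set c : ℝ → ℂ := fun ξ => β (del * zp ξ) with hc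
  have cre : ∀ ξ ∈ Icc (-1 : ℝ) 1, (c ξ).re = x ξ := fun ξ h => by
    simpa using xre _ (norm_zp h)
  have cm : ∀ ξ ∈ Icc (-1 : ℝ) 1, β (del * zm ξ) = conj (c ξ) := fun ξ h =>
    beta_conj hβ (norm_zp h)
  have cdc : ∀ ξ ∈ Icc (1 / 2 : ℝ) (17 / 20), DifferentiableAt ℝ c ξ := fun ξ h =>
    DifferentiableAt.comp (f := fun ξ => (del : ℂ) * zp ξ) ξ
      (cd_diff (hβ _ (del_ne (norm_zp (mI ξ h))) (del_lt (norm_zp (mI ξ h)))).1)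
      ((cd_diff (cd_zp (mA ξ h))).const_mul _)
  have evI : ∀ ξ ∈ Icc (1 / 2 : ℝ) (17 / 20), ∀ᶠ s in 𝓝 ξ, s ∈ Icc (-1 : ℝ) 1 := fun ξ h =>
    Icc_mem_nhds (by linarith [h.1]) (by linarith [h.2])
  obtain ⟨t, T, τ, ht, cT, hI, hg⟩ := top_graph hε hε0 (D := D) (N := N) (c := c) (x := x)
    (h12.trans (h23.trans h34)) (xinj.mono mI) s14 m14 (fun ξ hξ => by
      obtain ⟨ζ, h, -, e2⟩ := pre _ (norm_zp (mI ξ hξ))
      have e3 : c ξ = B (del * ζ) := e2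
      refine ⟨(xd ξ (mI ξ hξ)).2, cdc ξ hξ, (evI ξ hξ).mono fun s hs => ⟨cre s hs, ?_⟩,
        e3 ▸ (hN ζ h).1.smg0, e3 ▸ (hN ζ h).2.2.1, e3 ▸ cD ζ h⟩
      obtain ⟨ζ, h, -, e2⟩ := pre _ (norm_zp hs)
      rw [show c s = B (del * ζ) from e2, (hN ζ h).2.1, normSq_del h]) (by
      have h1 : ‖(1 : ℂ)‖ = 1 := norm_one
      obtain ⟨b1, b2⟩ := mob_arc h1 (by norm_num)
      refine ⟨(mob 1).re, ⟨by linarith [b1.1], by linarith [b1.2]⟩, ?_⟩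
      simp only [hc]
      rw [eq_zp (mob_norm h1) b2.le, ← (hB 1 h1).2.1, (hN 1 h1).2.1, xi_del h1, one_re])
  set σ : ι → ℝ → ℝ := fun i ξ => σ1 i ξ + t i * bb ξ with hσd
  have cσ : ∀ ξ, CV 2 l σ (fun _ => 0) ξ := fun ξ =>
    ((hσ1 ξ).add ((CV.cst ht).mul (CV.const' cd_bb))).congr (Eventually.of_forall fun _ => rfl)
      (Eventually.of_forall fun _ => by simp)
  set On : ι → ℂ → Prop := fun i p => ∃ ζ : ℂ, ‖ζ‖ = 1 ∧
    p = Bn i (Real.sqrt (del ^ 2 + σ i ζ.re) • ζ) with hOn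
  have OnD : ∀ ζ' : ℂ, ‖ζ'‖ = 1 → ∀ᶠ q : ι × ℂ in l ×ˢ 𝓝 (β (del * ζ')),
      D q.1 (t q.1, q.2) = 0 → On q.1 q.2 := by
    intro ζ' h'
    obtain ⟨ζ, h, -, e2⟩ := pre ζ' h'
    rw [e2]
    filter_upwards [(hN ζ h).2.2.2.2, (tN ζ h).eventually (eventually_ne_nhds (del_ne h))]
      with q b1 b2 b3
    obtain ⟨ζ2, c1, c2, -, c4⟩ := polar b2
    refine ⟨ζ2, c1, ?_⟩
    have : del ^ 2 + σ q.1 ζ2.re = normSq (Nn q.1 q.2) := by
      simp only [hD] at b3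
      simp only [hσd, c2]
      linarith
    rw [this, c4, b1]
  have onC : ∀ ζ' : ℂ, ‖ζ'‖ = 1 → ¬ (ζ'.re ∈ Ioo (11 / 20 : ℝ) (4 / 5) ∧ 0 < ζ'.im) →
      x ζ'.re ∈ W0 → ∀ᶠ q : ι × ℂ in l ×ˢ 𝓝 (β (del * ζ')),
        (D q.1 (t q.1, q.2) = 0 ↔ normSq (ν q.2) - del ^ 2 = 0) := fun ζ' h' hn hw => by
    filter_upwards [Eqv ζ' h' hn, (hρ ζ' h').2.2 hw] with q b1 b2
    rw [b1, b2]
  have νc : ∀ ζ : ℂ, ‖ζ‖ = 1 → normSq (ν (β (del * ζ))) - del ^ 2 = 0 := fun ζ h => by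
    rw [(hβ _ (del_ne h) (del_lt h)).2.2.1, normSq_del h]
  have tc : ∀ ξ ∈ Icc (1 / 2 : ℝ) (17 / 20), Tendsto (fun q : ι × ℝ => (q.1, c q.2)) (l ×ˢ 𝓝 ξ)
      (l ×ˢ 𝓝 (c ξ)) := fun ξ hξ => tendsto_id.prodMap (cdc ξ hξ).continuousAt.tendsto
  have hm : ∀ᶠ i in l, ∀ a ∈ Icc a1 a2 ∪ Icc a3 a4, T i a = τ a := by
    refine (ev_compact' (l := l) ((isCompact_Icc (a := (1 / 2 : ℝ)) (b := 17 / 20)).diff
      (isOpen_Ioo (a := (11 / 20 : ℝ)) (b := 4 / 5)))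
      (P := fun i ξ => ξ ∈ Icc (1 / 2 : ℝ) (17 / 20) → T i (x ξ) = τ (x ξ)) ?_).mono ?_
    · rintro ξ ⟨hξ, hn⟩
      filter_upwards [(tc ξ hξ).eventually (onC _ (norm_zp (mI ξ hξ)) (fun h => hn (by simpa using h.1))
        (by simpa using hxW ξ (Or.inl hξ))), (tc ξ hξ).eventually (hg ξ hξ).2.1] with q b1 b2 b3
      rw [(hg _ b3).1, ← cre _ (mI _ b3)]
      exact b2 (b1.2 (νc _ (norm_zp (mI _ b3))))
    · intro i hi a ha
      obtain ⟨ξ, hξ, rfl⟩ := s14 a (ha.elim (fun h => ⟨h.1, h.2.trans (h23.trans h34).le⟩)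
        fun h => ⟨(h12.trans h23).le.trans h.1, h.2⟩)
      refine hi ξ ⟨hξ, fun h => ?_⟩ hξ
      have := mo23 ξ h
      rcases ha with h | h
      · exact absurd this.1 (not_lt.2 h.2)
      · exact absurd this.2 (not_lt.2 h.1)
  have cτ : ∀ ξ ∈ Icc (1 / 2 : ℝ) (17 / 20), (x ξ : ℂ) + τ (x ξ) * I = c ξ := fun ξ hξ => by
    rw [(hg ξ hξ).1, ← cre ξ (mI ξ hξ), re_add_im]
  have cτ' : ∀ ξ ∈ Icc (1 / 2 : ℝ) (17 / 20), (x ξ : ℂ) - τ (x ξ) * I = conj (c ξ) := fun ξ hξ => by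
    rw [← cτ ξ hξ]
    apply Complex.ext <;> simp
  have U1 : ∀ᶠ i in l, ∀ a ∈ Icc a1 a4, On i (a - τ a * I) := by
    refine (ev_compact' (l := l) (isCompact_Icc (a := (1 / 2 : ℝ)) (b := 17 / 20))
      (P := fun i ξ => On i (conj (c ξ))) fun ξ hξ => ?_).mono ?_
    · have t1 := (tendsto_id.prodMap (continuous_conj.tendsto _)).comp (tc ξ hξ)
      rw [← cm ξ (mI ξ hξ)] at t1
      have hu := norm_zm (mI ξ hξ)
      filter_upwards [t1.eventually (onC _ hu (fun h => by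
          have := h.2
          rw [zm_im] at this
          linarith [Real.sqrt_nonneg (1 - ξ ^ 2)]) (by simpa using hxW ξ (Or.inl hξ))),
        t1.eventually (OnD _ hu), ev_snd (l := l) (evI ξ hξ)] with q b1 b2 b3
      refine b2 (b1.2 ?_)
      simpa [← cm _ b3] using νc _ (norm_zm b3)
    · intro i hi a ha
      obtain ⟨ξ, hξ, rfl⟩ := s14 a ha
      rw [cτ' ξ hξ]
      exact hi ξ hξ
  have U2 : ∀ᶠ i in l, ∀ a ∈ Icc a1 a4, On i (a + T i a * I) := by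
    refine ev_compact' (l := l) isCompact_Icc (P := fun i a => On i (a + T i a * I)) fun a ha => ?_
    obtain ⟨ξ, hξ, rfl⟩ := s14 a ha
    have t1 := (CV.id'.cplx (cT _ ha)).tendsto
    simp only [cτ ξ hξ] at t1
    filter_upwards [(tendsto_fst.prodMk t1).eventually (OnD _ (norm_zp (mI ξ hξ))),
      (hg ξ hξ).2.2] with q b1 b2
    exact b1 b2
  obtain ⟨v', sv, cv, zv, hM⟩ := mcmillan hε hε0 h12 h23 h34 cT hm hI
  refine ⟨σ, v', cσ, sv, cv, fun i a ha => zv i a fun h => ha ?_, fun W hW hxW' => ?_⟩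
  · obtain ⟨ξ, hξ, e⟩ := s14 a ⟨(h12.trans h.1).le, (h.2.trans h34).le⟩
    exact ⟨ξ, hξ, e⟩
  have aux : ∀ i, ∀ a ∈ Icc a1 a4, ∀ y : ℝ, |y - τ a| ≤ 1 → ∀ s : ℂ,
      (s = a + y * I ∨ s = a - y * I) → s.re ∈ W ∧ ‖s‖ ≤ Bd + 1 ∧
        Inc (ε i) (Real.pi / 2) (w0 (ε i) + (v i + v' i)) s =
          Inc (ε i) (Real.pi / 2) (w0 (ε i) + v' i) s := by
    intro i a ha y hy s hs
    obtain ⟨ξ, hξ, rfl⟩ := s14 a ha
    have hre : s.re = x ξ := by rcases hs with rfl | rfl <;> simp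
    have hn : ‖(x ξ : ℂ) + y * I‖ ≤ Bd + 1 := by
      have : (x ξ : ℂ) + y * I = c ξ + ((y - τ (x ξ) : ℝ) : ℂ) * I := by
        rw [← cτ ξ hξ]; push_cast; ring
      rw [this]
      refine (norm_add_le _ _).trans (add_le_add (hBd _ (norm_zp (mI ξ hξ))) ?_)
      rwa [norm_mul, norm_I, mul_one, Complex.norm_real, Real.norm_eq_abs]
    refine ⟨hre ▸ hxW' ⟨ξ, mI ξ hξ, rfl⟩, ?_, Inc_congr ?_⟩
    · rcases hs with rfl | rfl
      · exact hn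
      · rwa [show (x ξ : ℂ) - y * I = conj ((x ξ : ℂ) + y * I) by apply Complex.ext <;> simp,
          Complex.norm_conj]
    · rw [hre]
      filter_upwards [hW0.mem_nhds (hxW ξ (Or.inl hξ))] with u hu
      simp [hvW i u hu]
  have key : ∀ ζ' : ℂ, ‖ζ'‖ = 1 → ∀ᶠ q : ι × ℂ in l ×ˢ 𝓝 (β (del * ζ')),
      D q.1 (t q.1, q.2) = 0 → ∃ s p : ℂ, s.re ∈ W ∧ ‖s‖ ≤ Bd + 1 ∧
        Inc (ε q.1) (Real.pi / 2) (w0 (ε q.1) + (v q.1 + v' q.1)) s =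
          Inc (ε q.1) (Real.pi / 2) (w0 (ε q.1)) q.2 ∧
        Inc (ε q.1) (Real.pi / 2) (w0 (ε q.1) + (v q.1 + v' q.1)) (conj s) =
          Inc (ε q.1) (Real.pi / 2) (w0 (ε q.1)) p ∧ On q.1 p := by
    intro ζ' h'
    have tre : Tendsto (fun q : ι × ℂ => q.2.re) (l ×ˢ 𝓝 (β (del * ζ'))) (𝓝 (x ζ'.re)) :=
      xre ζ' h' ▸ (continuous_re.tendsto _).comp tendsto_snd
    by_cases hξ : ζ'.re ∈ Icc (11 / 20 : ℝ) (4 / 5)
    · have hξ' : ζ'.re ∈ Icc (1 / 2 : ℝ) (17 / 20) := ⟨by linarith [hξ.1], by linarith [hξ.2]⟩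
      rcases le_or_gt 0 ζ'.im with him | him
      · have e : c ζ'.re = β (del * ζ') := by simp only [hc, eq_zp h' him]
        filter_upwards [e ▸ (hg _ hξ').2.1, tre.eventually (Ioo_mem_nhds (mo _ hξ).1 (mo _ hξ).2),
          ev_fst hM, ev_fst U1] with q b1 b2 ⟨α, γ, bq, _, sα, mγ, _, H⟩ b4 b5
        obtain ⟨a, ha, ea⟩ := sα (Ioo_subset_Icc_self b2)
        obtain ⟨k1, k2, k3⟩ := H a ha
        have cj : conj ((a : ℂ) + bq a * I) = a - bq a * I := by apply Complex.ext <;> simp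
        obtain ⟨n1, n2, n3⟩ := aux q.1 a ha _ k1 _ (Or.inl rfl)
        refine ⟨_, _, n1, n2, ?_, ?_, b4 _ (mγ ha)⟩
        · rw [n3, k2, ea, b1 b5, re_add_im]
        · rw [cj, (aux q.1 a ha _ k1 _ (Or.inr rfl)).2.2, k3]
      · obtain ⟨-, f2, f3⟩ := chart_facts hβ (del_ne h') (del_lt h')
        have t1 : Tendsto (fun p => xi (ν p)) (𝓝 (β (del * ζ'))) (𝓝 ζ'.re) :=
          (xi_del h' ▸ (cd_xi (del_ne h')).continuousAt.tendsto).comp f2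
        have t2 : ∀ᶠ p in 𝓝 (β (del * ζ')), (ν p).im < 0 := f2.eventually
          (continuous_im.continuousAt.eventually_lt continuousAt_const (by
            have := del_pos
            simp only [im_ofReal_mul]
            nlinarith))
        filter_upwards [onC _ h' (fun h => absurd h.2 (not_lt.2 him.le)) (hxW _ (Or.inl hξ')),
          ev_snd f3, ev_snd t2, ev_snd (t1.eventually (Icc_mem_nhds (a := 1 / 2) (b := 17 / 20)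
            (by linarith [hξ.1]) (by linarith [hξ.2]))), ev_fst hM, ev_fst U2]
          with q b1 b2 b3 b6 ⟨α, γ, bq, mα, _, _, sγ, H⟩ b4 b5
        have e1 : q.2 = x (xi (ν q.2)) - τ (x (xi (ν q.2))) * I := by
          have := pm_inv b3
          rw [b1.1 b5, pm, sq0] at this
          rw [cτ' _ b6, ← cm _ (mI _ b6), this, b2.1]
        obtain ⟨a, ha, ea⟩ := sγ (m14 _ b6)
        obtain ⟨k1, k2, k3⟩ := H a ha
        have cj : conj ((a : ℂ) - bq a * I) = a + bq a * I := by apply Complex.ext <;> simp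
        obtain ⟨n1, n2, n3⟩ := aux q.1 a ha _ k1 _ (Or.inr rfl)
        refine ⟨_, _, n1, n2, ?_, ?_, b4 _ (mα ha)⟩
        · rw [n3, k3, ea, ← e1]
        · rw [cj, (aux q.1 a ha _ k1 _ (Or.inl rfl)).2.2, k2]
    · have hc' : ‖conj ζ'‖ = 1 := by simpa using h'
      obtain ⟨g1, g2, g3, -⟩ := hSR' ζ' h'
      have tR := tendsto_fst.prodMk g2.tendsto
      rw [← beta_conj hβ h'] at tR
      have tS : Tendsto (fun q : ι × ℂ => (S q.1 q.2).re) (l ×ˢ 𝓝 (β (del * ζ'))) (𝓝 (x ζ'.re)) :=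
        xre ζ' h' ▸ (continuous_re.tendsto _).comp g1.tendsto
      have hx23 : x ζ'.re ∈ (Icc a2 a3)ᶜ := fun h => hξ (m23 _ (unit_re h') h)
      filter_upwards [Eqv _ h' fun h => hξ (Ioo_subset_Icc_self h.1),
        tR.eventually (Eqv _ hc' fun h => hξ (Ioo_subset_Icc_self (by simpa using h.1))),
        tR.eventually (OnD _ hc'), (hρ _ h').2.1, g3,
        tS.eventually (hW.mem_nhds (hxW' ⟨_, unit_re h', rfl⟩)),
        tS.eventually (isClosed_Icc.isOpen_compl.eventually_mem hx23).eventually_nhds,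
        g1.tendsto.norm.eventually (gt_mem_nhds ((hBd _ h').trans_lt (lt_add_one _)))]
        with q b1 b2 b3 b4 b5 b6 b7 b8 b9
      have e : ∀ s : ℂ, s.re = (S q.1 q.2).re →
          Inc (ε q.1) (Real.pi / 2) (w0 (ε q.1) + (v q.1 + v' q.1)) s =
            Inc (ε q.1) (Real.pi / 2) (w0 (ε q.1) + v q.1) s := fun s hs => Inc_congr (by
        rw [hs]
        filter_upwards [b7] with u hu
        simp [zv q.1 u fun h => hu (Ioo_subset_Icc_self h)])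
      refine ⟨S q.1 q.2, R q.1 q.2, b6, b8.le, (e _ rfl).trans b5.1,
        (e _ (conj_re _)).trans b5.2.1, b3 ((b2 _).2 ?_)⟩
      exact b4.trans ((b1 _).1 b9)
  refine (ev_compact' (l := l) (isCompact_sphere (0 : ℂ) 1) (P := fun i ζ => ‖ζ‖ = 1 →
    ∃ ζ' s : ℂ, ‖ζ'‖ = 1 ∧ s.re ∈ W ∧ ‖s‖ ≤ Bd + 1 ∧
      Inc (ε i) (Real.pi / 2) (w0 (ε i) + (v i + v' i)) s =
        Inc (ε i) (Real.pi / 2) (w0 (ε i)) (Bn i (Real.sqrt (del ^ 2 + σ i ζ.re) • ζ)) ∧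
      Inc (ε i) (Real.pi / 2) (w0 (ε i) + (v i + v' i)) (conj s) =
        Inc (ε i) (Real.pi / 2) (w0 (ε i)) (Bn i (Real.sqrt (del ^ 2 + σ i ζ'.re) • ζ')))
    fun ζ hζ => ?_).mono fun i hi ζ h => hi ζ (mem_sphere_zero_iff_norm.2 h) h
  have h := mem_sphere_zero_iff_norm.1 hζ
  have hd : 0 < del ^ 2 + 0 := by have := del_pos; positivity
  have c1 := (CV.const' (k := 2) (l := l) (x := ζ) (g := fun _ => del ^ 2) contDiff_const).add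
    ((cσ ζ.re).comp CV.id'.re)
  have t1 := ((c1.sqrt hd.ne').smul CV.id').tendsto
  simp only [sq0] at t1
  have t2 := (hB ζ h).1.tendsto.comp (tendsto_fst.prodMk t1)
  rw [(hB ζ h).2.1] at t2
  filter_upwards [(tendsto_fst.prodMk t2).eventually (key _ (mob_norm h)),
    (tendsto_fst.prodMk t1).eventually (hN ζ h).2.2.2.1,
    c1.tendsto.eventually (lt_mem_nhds hd)] with q b1 b2 b3 hq
  simp only [Function.comp] at b1 b2
  obtain ⟨s, p, n1, n2, n3, n4, ζ', n5, n6⟩ := b1 (by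
    simp only [hD, b2, normSq_smul b3.le hq, xi_smul (Real.sqrt_pos.2 b3) hq]
    simp only [hσd]
    ring)
  exact ⟨ζ', s, n5, n1, n2, n3, n6 ▸ n4⟩

end Pool.Agent.Lib.MP_0281e9_an
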