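import Pool.Agent.Lib.MP_0281e9_an.Base
import Pool.Agent.Lib.MP_0281e9_an.Conv

namespace Pool.Agent.Lib.MP_0281e9_an

open Set Filter Complex Topology
open scoped ContDiff

namespace BL

noncomputable def ss (z : ℂ) : ℝ := Real.sqrt (del ^ 2 + cc * normSq z)

lemma del_pos : 0 < del := by norm_num [del]
lemma cc_pos : 0 < cc := by norm_num [cc]

lemma ss_sq (z : ℂ) : ss z ^ 2 = del ^ 2 + cc * normSq z :=
  Real.sq_sqrt (by have := normSq_nonneg z; have := cc_pos; positivity)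

lemma del_le_ss (z : ℂ) : del ≤ ss z :=
  Real.le_sqrt_of_sq_le (by have := normSq_nonneg z; have := cc_pos; nlinarith)

lemma ss_pos (z : ℂ) : 0 < ss z := del_pos.trans_le (del_le_ss z)

lemma ss_sub (z : ℂ) : ss z - del ≤ normSq z / 4 := by
  have h1 := ss_sq z
  have h2 := del_le_ss z
  have h3 := normSq_nonneg z
  simp only [del, cc] at *
  nlinarith

noncomputable def Drho (z : ℂ) : ℂ →L[ℝ] ℝ := (2 * z.re) • reCLM + (2 * z.im) • imCLM

lemma hasFDerivAt_rho (z : ℂ) : HasFDerivAt (fun y : ℂ => normSq y) (Drho z) z := by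
  have h1 := (reCLM.hasFDerivAt (x := z)).mul (reCLM.hasFDerivAt (x := z))
  have h2 := (imCLM.hasFDerivAt (x := z)).mul (imCLM.hasFDerivAt (x := z))
  have e : (fun y : ℂ => normSq y) = ⇑reCLM * ⇑reCLM + ⇑imCLM * ⇑imCLM := by
    ext y; simp [normSq_apply]
  rw [e]
  refine (h1.add h2).congr_fderiv ?_
  ext v <;> simp [Drho] <;> ring

lemma rho_apply (z w : ℂ) : Drho z (w * z) = 2 * w.re * normSq z := by
  simp [Drho, normSq_apply]; ring

lemma om_deriv {z : ℂ} (hz : z ≠ 0) : ∃ L : ℂ →L[ℝ] ℂ, HasFDerivAt om L z ∧ ∀ w : ℂ,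
    L (w * z) = (cc * w.re / ss z) • z ^ 2 + (2 * w.im) • (I * om z) := by
  have hρ : normSq z ≠ 0 := by simpa using hz
  have hs := ss_pos z
  have h0 : del ^ 2 + cc * normSq z ≠ 0 := by rw [← ss_sq]; positivity
  have h1 : HasDerivAt (fun t : ℝ => Real.sqrt (del ^ 2 + cc * t) / t)
      ((cc / (2 * ss z) * normSq z - ss z * 1) / normSq z ^ 2) (normSq z) := by
    have a : HasDerivAt (fun t : ℝ => del ^ 2 + cc * t) cc (normSq z) := by
      simpa using ((hasDerivAt_id (normSq z)).const_mul cc).const_add (del ^ 2)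
    exact (a.sqrt h0).div (hasDerivAt_id _) hρ
  have h2 := h1.comp_hasFDerivAt z (hasFDerivAt_rho z)
  have h3 : HasFDerivAt (fun y : ℂ => y ^ 2) _ z :=
    (hasDerivAt_pow 2 z).hasFDerivAt.restrictScalars ℝ
  refine ⟨_, h2.smul h3, fun w => ?_⟩
  have e : om z = (ss z / normSq z) • z ^ 2 := rfl
  rw [e]
  simp only [add_apply, smul_apply,
    ContinuousLinearMap.smulRight_apply, rho_apply, Function.comp_apply,
    ContinuousLinearMap.coe_restrictScalars', ContinuousLinearMap.toSpanSingleton_apply,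
    smul_eq_mul, real_smul]
  change (((ss z / normSq z : ℝ)) : ℂ) * _ + _ = _
  have hρ' : ((normSq z : ℝ) : ℂ) ≠ 0 := by exact_mod_cast hρ
  have hs' : ((ss z : ℝ) : ℂ) ≠ 0 := by exact_mod_cast hs.ne'
  conv_lhs => rw [← re_add_im w]
  push_cast
  simp only [add_re, ofReal_re, mul_re, I_re, mul_zero, ofReal_im, I_im, mul_one, sub_self,
    add_zero]
  field_simp
  ring

/-- unit vector of `om z` -/
noncomputable def uu (z : ℂ) : ℂ := (normSq z)⁻¹ • z ^ 2

lemma norm_uu {z : ℂ} (hz : z ≠ 0) : ‖uu z‖ = 1 := by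
  have : ‖z‖ ≠ 0 := by simpa using hz
  rw [uu, norm_smul, norm_pow, normSq_eq_norm_sq, Real.norm_eq_abs, abs_of_nonneg (by positivity)]
  field_simp

lemma om_eq (z : ℂ) : om z = ss z • uu z := by
  rw [uu, smul_smul, ← div_eq_mul_inv]; rfl

lemma norm_om {z : ℂ} (hz : z ≠ 0) : ‖om z‖ = ss z := by
  rw [om_eq, norm_smul, norm_uu hz, mul_one, Real.norm_eq_abs, abs_of_pos (ss_pos z)]

/-- estimates for a function vanishing on the circle -/
lemma est_M {M : ℂ → ℝ} {a ε : ℝ} (hε : 0 ≤ ε)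
    (hM : ∀ o : ℂ, del ≤ ‖o‖ → ‖o‖ ≤ del + a → DifferentiableAt ℝ M o ∧
      DifferentiableAt ℝ (fderiv ℝ M) o ∧ ‖fderiv ℝ M o‖ ≤ ε ∧ ‖fderiv ℝ (fderiv ℝ M) o‖ ≤ ε)
    (h0 : ∀ o : ℂ, ‖o‖ = del → M o = 0) {u : ℂ} (hu : ‖u‖ = 1) {s : ℝ} (hs : del ≤ s)
    (hs' : s ≤ del + a) :
    |M (s • u)| ≤ ε * (s - del) ∧ |fderiv ℝ M (s • u) (I * u)| ≤ ε * (s - del) := by
  have hd := del_pos
  have seg : ∀ y ∈ segment ℝ (del • u) (s • u), del ≤ ‖y‖ ∧ ‖y‖ ≤ del + a := by
    rintro y ⟨p, q, hp, hq, hpq, rfl⟩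
    rw [smul_smul, smul_smul, ← add_smul, norm_smul, hu, mul_one, Real.norm_eq_abs,
      abs_of_nonneg (by nlinarith)]
    constructor <;> nlinarith
  have nd : ‖del • u‖ = del := by rw [norm_smul, hu, mul_one, Real.norm_eq_abs, abs_of_pos hd]
  have nsub : ‖s • u - del • u‖ = s - del := by
    rw [← sub_smul, norm_smul, hu, mul_one, Real.norm_eq_abs, abs_of_nonneg (by linarith)]
  constructor
  · have := (convex_segment (del • u) (s • u)).norm_image_sub_le_of_norm_fderiv_le (f := M)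
      (fun y hy => (hM y (seg y hy).1 (seg y hy).2).1)
      (fun y hy => (hM y (seg y hy).1 (seg y hy).2).2.2.1) (left_mem_segment _ _ _)
      (right_mem_segment _ _ _)
    rwa [h0 _ nd, sub_zero, nsub] at this
  · have h1 := (convex_segment (del • u) (s • u)).norm_image_sub_le_of_norm_fderiv_le
      (f := fderiv ℝ M) (fun y hy => (hM y (seg y hy).1 (seg y hy).2).2.1)
      (fun y hy => (hM y (seg y hy).1 (seg y hy).2).2.2.2) (left_mem_segment _ _ _)
      (right_mem_segment _ _ _)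
    have h2 : fderiv ℝ M (del • u) (I * u) = 0 := by
      have c : HasDerivAt (fun t : ℝ => exp (t * I) * (del • u)) (I * (del • u)) 0 := by
        have := ((hasDerivAt_id (0 : ℝ)).ofReal_comp.mul_const I).cexp.mul_const (del • u)
        simpa using this
      have d : HasFDerivAt M (fderiv ℝ M (del • u)) (exp (((0 : ℝ) : ℂ) * I) * (del • u)) := by
        simpa using (hM _ nd.ge (by rw [nd]; linarith)).1.hasFDerivAt
      have e := d.comp_hasDerivAt (0 : ℝ) c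
      have z : (M ∘ fun t : ℝ => exp (t * I) * (del • u)) = fun _ => 0 := by
        funext t
        exact h0 _ (by rw [norm_mul, norm_exp_ofReal_mul_I, one_mul, nd])
      rw [z] at e
      have := e.unique (hasDerivAt_const _ _)
      rw [mul_smul_comm, map_smul, smul_eq_mul] at this
      exact (mul_eq_zero.1 this).resolve_left hd.ne'
    have h3 := (fderiv ℝ M (s • u) - fderiv ℝ M (del • u)).le_opNorm (I * u)
    rw [sub_apply, h2, sub_zero, norm_mul, norm_I, hu, mul_one, mul_one] at h3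
    rw [nsub] at h1
    exact h3.trans h1

/-- the deterministic core -/
lemma core {M : ℂ → ℝ} {e : ℂ → ℂ} {a ε : ℝ} (hε : 0 ≤ ε) (hε1 : ε ≤ 1 / 10000)
    (hM : ∀ o : ℂ, del ≤ ‖o‖ → ‖o‖ ≤ del + a → DifferentiableAt ℝ M o ∧
      DifferentiableAt ℝ (fderiv ℝ M) o ∧ ‖fderiv ℝ M o‖ ≤ ε ∧ ‖fderiv ℝ (fderiv ℝ M) o‖ ≤ ε)
    (h0 : ∀ o : ℂ, ‖o‖ = del → M o = 0)
    (he : ∀ o : ℂ, del ≤ ‖o‖ → ‖o‖ ≤ del + a → DifferentiableAt ℝ e o ∧ ‖e o - 1‖ ≤ ε ∧
      ‖fderiv ℝ e o‖ ≤ ε) {z : ℂ} (hz : z ≠ 0) (hz1 : normSq z ≤ 1) (hza : normSq z ≤ a) :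
    0 < 1 + M (om z) / (cc * normSq z) ∧
    DifferentiableAt ℝ (fun y => Real.sqrt (1 + M (om y) / (cc * normSq y)) • (e (om y) * y)) z ∧
    ‖fderiv ℝ (fun y => Real.sqrt (1 + M (om y) / (cc * normSq y)) • (e (om y) * y)) z -
      ContinuousLinearMap.id ℝ ℂ‖ ≤ 10000 * ε ∧
    ‖Real.sqrt (1 + M (om z) / (cc * normSq z)) • (e (om z) * z) - z‖ ≤ 10000 * ε * ‖z‖ := by
  have hρ : 0 < normSq z := normSq_pos.2 hz
  have hzn : 0 < ‖z‖ := norm_pos_iff.2 hz
  have s1 := del_le_ss z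
  have s2 := ss_sub z
  have s3 : ss z ≤ del + a := by linarith
  have s4 : ss z ≤ 1 := by simp only [del] at s2; linarith
  have s0 := ss_pos z
  have no := norm_om hz
  obtain ⟨m1, m2⟩ := est_M hε hM h0 (norm_uu hz) s1 s3
  rw [← om_eq] at m1 m2
  have m1' : |M (om z)| ≤ ε * (normSq z / 4) := m1.trans (by gcongr)
  have m2' : |fderiv ℝ M (om z) (I * uu z)| ≤ ε * (normSq z / 4) := m2.trans (by gcongr)
  obtain ⟨dM, -, bM, -⟩ := hM (om z) (no ▸ s1) (no ▸ s3)
  obtain ⟨de, be, be'⟩ := he (om z) (no ▸ s1) (no ▸ s3)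
  obtain ⟨L, hL, hLw⟩ := om_deriv hz
  set Q := 1 + M (om z) / (cc * normSq z) with hQ
  have hcc := cc_pos
  have Q1 : |Q - 1| ≤ 512 * ε := by
    rw [hQ, add_sub_cancel_left, abs_div, abs_of_pos (mul_pos hcc hρ), div_le_iff₀ (mul_pos hcc hρ)]
    simp only [cc]; linarith
  have Q2 := abs_le.1 Q1
  have Q0 : 0 < Q := by linarith
  set q := Real.sqrt Q with hq
  have qq : q ^ 2 = Q := Real.sq_sqrt Q0.le
  have q0 : 0 ≤ q := Real.sqrt_nonneg _
  have q1 : 1 / 2 ≤ q := Real.le_sqrt_of_sq_le (by linarith)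
  have q2 : q ≤ 2 := by nlinarith
  have q3 : |q - 1| ≤ 512 * ε := by
    rw [abs_le]; constructor <;> nlinarith
  have ne1 : ‖e (om z)‖ ≤ 2 := by
    have := norm_add_le (e (om z) - 1) 1
    rw [sub_add_cancel, norm_one] at this
    linarith
  have qe : ‖(q : ℂ) * e (om z) - 1‖ ≤ 514 * ε := by
    have e1 : (q : ℂ) * e (om z) - 1 = q * (e (om z) - 1) + ((q - 1 : ℝ) : ℂ) := by
      push_cast; ring
    rw [e1]
    refine (norm_add_le _ _).trans ?_
    rw [norm_mul, norm_real, norm_real, Real.norm_eq_abs, Real.norm_eq_abs, abs_of_nonneg q0]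
    nlinarith [norm_nonneg (e (om z) - 1)]
  -- derivatives
  have dm := dM.hasFDerivAt.comp z hL
  have dinv := (hasDerivAt_inv (mul_pos hcc hρ).ne').comp_hasFDerivAt z
    ((hasFDerivAt_rho z).const_mul cc)
  have dQ := (dm.mul dinv).const_add 1
  have dq := dQ.sqrt Q0.ne'
  have dE := (de.hasFDerivAt.comp z hL).mul (hasFDerivAt_id z)
  have dH := dq.smul dE
  have dH' : HasFDerivAt
      (fun y => Real.sqrt (1 + M (om y) / (cc * normSq y)) • (e (om y) * y)) _ z := dH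
  refine ⟨Q0, dH'.differentiableAt, ?_, ?_⟩
  · rw [dH'.fderiv]
    refine ContinuousLinearMap.opNorm_le_bound _ (by positivity) fun v => ?_
    obtain ⟨w, rfl⟩ : ∃ w, v = w * z := ⟨v / z, by field_simp⟩
    have wr := abs_re_le_norm w
    have wi := abs_im_le_norm w
    have nw := norm_nonneg w
    have k1 : ‖(cc * w.re / ss z) • z ^ 2‖ ≤ ‖w‖ * normSq z / 4 := by
      rw [norm_smul, norm_pow, ← normSq_eq_norm_sq, Real.norm_eq_abs, abs_div, abs_mul,
        abs_of_pos hcc, abs_of_pos s0]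
      have : cc * |w.re| / ss z ≤ ‖w‖ / 4 := by
        rw [div_le_iff₀ s0]; simp only [cc, del] at s1 ⊢; nlinarith [abs_nonneg w.re]
      nlinarith
    have bL : ‖L (w * z)‖ ≤ 3 * ‖w‖ := by
      rw [hLw]
      refine (norm_add_le _ _).trans ?_
      rw [norm_smul (2 * w.im), norm_mul I, norm_I, one_mul, no, Real.norm_eq_abs, abs_mul,
        abs_two]
      nlinarith [abs_nonneg w.im]
    have bm : |fderiv ℝ M (om z) (L (w * z))| ≤ ε * normSq z * ‖w‖ := by
      have e1 : I * om z = ss z • (I * uu z) := by rw [om_eq, mul_smul_comm]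
      rw [hLw, map_add, map_smul _ (2 * w.im), e1, map_smul _ (ss z)]
      refine (abs_add_le _ _).trans ?_
      have a1 : |fderiv ℝ M (om z) ((cc * w.re / ss z) • z ^ 2)| ≤ ε * (‖w‖ * normSq z / 4) :=
        ((fderiv ℝ M (om z)).le_opNorm _).trans (mul_le_mul bM k1 (norm_nonneg _) hε)
      have a2 : |(2 * w.im) • ss z • fderiv ℝ M (om z) (I * uu z)| ≤
          2 * ‖w‖ * (1 * (ε * (normSq z / 4))) := by
        rw [smul_eq_mul, smul_eq_mul, abs_mul, abs_mul, abs_mul, abs_two, abs_of_pos s0]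
        gcongr
      have a3 := mul_nonneg (mul_nonneg hε hρ.le) nw
      refine (add_le_add a1 a2).trans ?_
      linarith
    have bE : ‖fderiv ℝ e (om z) (L (w * z))‖ ≤ ε * (3 * ‖w‖) :=
      ((fderiv ℝ e (om z)).le_opNorm _).trans (mul_le_mul be' bL (norm_nonneg _) hε)
    set A := fderiv ℝ M (om z) (L (w * z)) with hA
    set B := fderiv ℝ e (om z) (L (w * z)) with hB
    set T : ℝ := (1 / (2 * q)) * (A / (cc * normSq z) - M (om z) * (2 * w.re) / (cc * normSq z))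
      with hT
    have bT : |T| ≤ 3072 * ε * ‖w‖ := by
      have t1 : |A / (cc * normSq z)| ≤ 2048 * ε * ‖w‖ := by
        rw [abs_div, abs_of_pos (mul_pos hcc hρ), div_le_iff₀ (mul_pos hcc hρ)]
        simp only [cc]; linarith
      have t2 : |M (om z) * (2 * w.re) / (cc * normSq z)| ≤ 1024 * ε * ‖w‖ := by
        rw [abs_div, abs_of_pos (mul_pos hcc hρ), div_le_iff₀ (mul_pos hcc hρ), abs_mul, abs_mul,
          abs_two]
        have : |M (om z)| * (2 * |w.re|) ≤ ε * (normSq z / 4) * (2 * ‖w‖) := by gcongr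
        simp only [cc]; linarith
      have t3 : |1 / (2 * q)| ≤ 1 := by
        rw [abs_of_pos (by positivity), div_le_one (by positivity)]; linarith
      rw [hT, abs_mul]
      have t4 := abs_sub (A / (cc * normSq z)) (M (om z) * (2 * w.re) / (cc * normSq z))
      calc _ ≤ 1 * (2048 * ε * ‖w‖ + 1024 * ε * ‖w‖) :=
            mul_le_mul t3 (by linarith) (abs_nonneg _) zero_le_one
        _ = _ := by ring
    have key : ∀ X : ℂ, X = (((q : ℂ) * e (om z) - 1) * w + q * B + T * e (om z)) * z →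
        ‖X‖ ≤ 10000 * ε * ‖w * z‖ := by
      rintro X rfl
      rw [norm_mul, norm_mul w z, ← mul_assoc]
      refine mul_le_mul_of_nonneg_right ?_ hzn.le
      refine norm_add₃_le.trans ?_
      rw [norm_mul, norm_mul, norm_mul, norm_real, norm_real, Real.norm_eq_abs, Real.norm_eq_abs,
        abs_of_nonneg q0]
      have u1 : ‖(q : ℂ) * e (om z) - 1‖ * ‖w‖ ≤ 514 * ε * ‖w‖ := by gcongr
      have u2 : q * ‖B‖ ≤ 2 * (ε * (3 * ‖w‖)) := by gcongr
      have u3 : |T| * ‖e (om z)‖ ≤ 3072 * ε * ‖w‖ * 2 := by gcongr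
      nlinarith [mul_nonneg hε nw]
    apply key
    simp only [sub_apply, add_apply,
      smul_apply, ContinuousLinearMap.smulRight_apply,
      ContinuousLinearMap.comp_apply, ContinuousLinearMap.id_apply, rho_apply, Function.comp_apply,
      smul_eq_mul, real_smul, id, Pi.mul_apply, ← hA, ← hB, ← div_eq_mul_inv, ← hQ, ← hq, hT]
    have hρ' : ((normSq z : ℝ) : ℂ) ≠ 0 := by exact_mod_cast hρ.ne'
    have hc' : ((cc : ℝ) : ℂ) ≠ 0 := by exact_mod_cast hcc.ne'
    have hq' : ((q : ℝ) : ℂ) ≠ 0 := by exact_mod_cast (by linarith : q ≠ 0)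
    push_cast
    field_simp
    ring
  · have : q • (e (om z) * z) - z = ((q : ℂ) * e (om z) - 1) * z := by
      rw [real_smul]; ring
    rw [this, norm_mul]
    refine mul_le_mul_of_nonneg_right (qe.trans (by linarith)) hzn.le

/-- square root of the unit vector of `K` -/
noncomputable def usq (K : ℂ) : ℂ := ‖(‖K‖ : ℂ) + K‖⁻¹ • ((‖K‖ : ℂ) + K)

lemma sq_one : usq 1 = 1 := by
  simp only [usq, norm_one, ofReal_one, real_smul]
  norm_num

lemma sq_smooth : ∀ᶠ K in 𝓝 (1 : ℂ), ContDiffAt ℝ ∞ usq K := by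
  have c : ContinuousAt (fun K : ℂ => (‖K‖ : ℂ) + K) 1 := by fun_prop
  filter_upwards [eventually_ne_nhds (one_ne_zero (α := ℂ)),
    c.eventually_ne (y := 0) (by norm_num)] with K h1 h2
  have a : ContDiffAt ℝ ∞ (fun K : ℂ => (‖K‖ : ℂ) + K) K :=
    (ofRealCLM.contDiff.contDiffAt.comp K (contDiffAt_norm ℝ h1)).add contDiffAt_id
  exact ((a.norm ℝ h2).inv (norm_ne_zero_iff.2 h2)).smul a

lemma sq_spec {K : ℂ} (h : (‖K‖ : ℂ) + K ≠ 0) : ‖usq K‖ = 1 ∧ (‖K‖ : ℂ) * usq K ^ 2 = K := by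
  have hn : ‖(‖K‖ : ℂ) + K‖ ≠ 0 := norm_ne_zero_iff.2 h
  refine ⟨by rw [usq, norm_smul, norm_inv, norm_norm, inv_mul_cancel₀ hn], ?_⟩
  have e1 : ((‖(‖K‖ : ℂ) + K‖ : ℝ) : ℂ) ^ 2 = ((‖K‖ : ℂ) + K) * ((‖K‖ : ℂ) + (starRingEnd ℂ) K) := by
    rw [← mul_conj', map_add, conj_ofReal]
  have e2 : K * (starRingEnd ℂ) K = (‖K‖ : ℂ) ^ 2 := mul_conj' K
  have hn' : ((‖(‖K‖ : ℂ) + K‖ : ℝ) : ℂ) ≠ 0 := by exact_mod_cast hn
  rw [usq, real_smul, mul_pow, ofReal_inv, inv_pow, ← mul_assoc, mul_right_comm,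
    mul_inv_eq_iff_eq_mul₀ (pow_ne_zero 2 hn'), e1]
  linear_combination (-(↑‖K‖ + K)) * e2

lemma ev_small {ι : Type} {l : Filter ι} {F : Type} [NormedAddCommGroup F] [NormedSpace ℝ F]
    {k : ℕ} {f : ι → ℂ → F} {g : ℂ → F} {o : ℂ} (h : CV k l f g o) {c : F} (hc : g o = c) {ε : ℝ}
    (hε : 0 < ε) : ∀ᶠ p : ι × ℂ in l ×ˢ 𝓝 o, ‖f p.1 p.2 - c‖ ≤ ε := by
  have := h.tendsto
  rw [hc] at this
  filter_upwards [this.eventually (Metric.closedBall_mem_nhds c hε)] with p hp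
  simpa [dist_eq_norm] using hp

end BL

open BL in
/-- BLOCK L : lifting a near-identity map of the collar through `om` -/
theorem lift_collar {ι : Type} {l : Filter ι} {G : ι → ℂ → ℂ}
    (hG : ∀ o : ℂ, ‖o‖ = del → CV 2 l G (fun y => y) o)
    (hc : ∀ᶠ i in l, ∀ o : ℂ, ‖o‖ = del → ‖G i o‖ = del) (η : ℝ) (hη : 0 < η) :
    ∃ r : ℝ, 0 < r ∧ ∀ᶠ i in l, ∃ H : ℂ → ℂ, ∀ z : ℂ, z ≠ 0 → ‖z‖ < r →
      H z ≠ 0 ∧ om (H z) = G i (om z) ∧ DifferentiableAt ℝ H z ∧
        ‖fderiv ℝ H z - ContinuousLinearMap.id ℝ ℂ‖ ≤ η ∧ ‖H z - z‖ ≤ η * ‖z‖ := by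
  set ε := min (η / 10000) (1 / 10000) with hεd
  have hε : 0 < ε := by positivity
  have hε1 : ε ≤ 1 / 10000 := min_le_right _ _
  have hε2 : 10000 * ε ≤ η := by have : ε ≤ η / 10000 := min_le_left _ _; linarith
  set M : ι → ℂ → ℝ := fun i o => normSq (G i o) - normSq o with hM
  set e : ι → ℂ → ℂ := fun i o => usq (G i o / o) with he
  have nsq : ContDiff ℝ ∞ fun y : ℂ => normSq y := by
    have : (fun y : ℂ => normSq y) = fun y => reCLM y * reCLM y + imCLM y * imCLM y := by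
      funext y; simp [normSq_apply]
    rw [this]; fun_prop
  obtain ⟨V, hV, hev⟩ := ev_compact (l := l) (isCompact_sphere (0 : ℂ) del)
    (P := fun i o => (DifferentiableAt ℝ (M i) o ∧ DifferentiableAt ℝ (fderiv ℝ (M i)) o ∧
      ‖fderiv ℝ (M i) o‖ ≤ ε ∧ ‖fderiv ℝ (fderiv ℝ (M i)) o‖ ≤ ε) ∧
      (DifferentiableAt ℝ (e i) o ∧ ‖e i o - 1‖ ≤ ε ∧ ‖fderiv ℝ (e i) o‖ ≤ ε) ∧
      ‖G i o / o - 1‖ ≤ 1 / 2) (by
      intro o ho
      have ho' : ‖o‖ = del := by simpa using ho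
      have ho0 : o ≠ 0 := by rintro rfl; simp at ho'; exact del_pos.ne ho'
      have cM : CV 2 l M (fun _ => 0) o :=
        (((hG o ho').post' nsq).sub (CV.const' nsq)).congr (Eventually.of_forall fun _ => rfl)
          (Eventually.of_forall fun y => by simp)
      have cK : CV 2 l (fun i y => G i y / y) (fun _ => 1) o :=
        ((hG o ho').div CV.id' ho0).congr (Eventually.of_forall fun _ => rfl)
          ((eventually_ne_nhds ho0).mono fun y hy => div_self hy)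
      have ce : CV 2 l e (fun _ => 1) o :=
        (cK.post sq_smooth).congr (Eventually.of_forall fun _ => rfl)
          (Eventually.of_forall fun y => sq_one)
      filter_upwards [cM.sm, ev_small cM.fderiv (c := 0) (by simp) hε,
        ev_small cM.fderiv.fderiv (c := 0) (by simp) hε, ce.sm, ev_small ce rfl hε,
        ev_small ce.fderiv (c := 0) (by simp) hε, ev_small cK rfl one_half_pos]
        with p a1 a2 a3 a4 a5 a6 a7
      rw [sub_zero] at a2 a3 a6
      exact ⟨⟨cd_diff a1, cd_diff (cd_fderiv a1), a2, a3⟩, ⟨cd_diff a4, a5, a6⟩, a7⟩)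
  obtain ⟨W, hWo, hW1, hW2⟩ := mem_nhdsSet_iff_exists.1 hV
  obtain ⟨a, ha, haW⟩ := (isCompact_sphere (0 : ℂ) del).exists_cthickening_subset_open hWo hW1
  have ann : ∀ o : ℂ, del ≤ ‖o‖ → ‖o‖ ≤ del + a → o ∈ V := by
    intro o h1 h2
    have hn : 0 < ‖o‖ := del_pos.trans_le h1
    refine hW2 (haW (Metric.mem_cthickening_of_dist_le o ((del / ‖o‖) • o) a _ ?_ ?_))
    · rw [mem_sphere_zero_iff_norm, norm_smul, Real.norm_eq_abs,
        abs_of_pos (div_pos del_pos hn), div_mul_cancel₀ _ hn.ne']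
    · rw [dist_eq_norm, show o - (del / ‖o‖) • o = (1 - del / ‖o‖) • o by rw [sub_smul, one_smul],
        norm_smul, Real.norm_eq_abs, abs_of_nonneg (sub_nonneg.2 ((div_le_one hn).2 h1)), sub_mul,
        div_mul_cancel₀ _ hn.ne']
      linarith
  refine ⟨min 1 a, by positivity, ?_⟩
  filter_upwards [hev, hc] with i hi hci
  refine ⟨fun y => Real.sqrt (1 + M i (om y) / (cc * normSq y)) • (e i (om y) * y),
    fun z hz hzr => ?_⟩
  have z1 : ‖z‖ < 1 := hzr.trans_le (min_le_left _ _)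
  have z2 : ‖z‖ < a := hzr.trans_le (min_le_right _ _)
  have z3 : normSq z ≤ ‖z‖ := by rw [normSq_eq_norm_sq]; nlinarith [norm_nonneg z]
  obtain ⟨Q0, c1, c2, c3⟩ := core (a := a) hε.le hε1 (fun o h1 h2 => (hi o (ann o h1 h2)).1)
    (fun o ho => by simp only [hM, normSq_eq_norm_sq, hci o ho, ho, sub_self])
    (fun o h1 h2 => (hi o (ann o h1 h2)).2.1) hz (by linarith) (by linarith)
  have hρ : 0 < normSq z := normSq_pos.2 hz
  have no := norm_om hz
  have hK := (hi (om z) (ann _ (no ▸ del_le_ss z) (by rw [no]; linarith [ss_sub z]))).2.2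
  set K := G i (om z) / om z with hKd
  have hK0 : (‖K‖ : ℂ) + K ≠ 0 := by
    intro h0
    have h1 := congrArg re h0
    have h2 := (abs_le.1 ((abs_re_le_norm (K - 1)).trans hK)).1
    simp only [add_re, ofReal_re, zero_re, sub_re, one_re] at h1 h2
    linarith [norm_nonneg K]
  obtain ⟨k1, k2⟩ := sq_spec hK0
  set Q := 1 + M i (om z) / (cc * normSq z) with hQ
  have q0 : 0 < Real.sqrt Q := Real.sqrt_pos.2 Q0
  have o0 : om z ≠ 0 := by rw [← norm_pos_iff, no]; exact ss_pos z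
  have hcc := cc_pos
  have nH : normSq (Real.sqrt Q • (usq K * z)) = Q * normSq z := by
    rw [normSq_eq_norm_sq, norm_smul, norm_mul, k1, one_mul, mul_pow, Real.norm_eq_abs, sq_abs,
      Real.sq_sqrt Q0.le, normSq_eq_norm_sq]
  refine ⟨?_, ?_, c1, c2.trans hε2, c3.trans (by gcongr)⟩
  · refine smul_ne_zero q0.ne' (mul_ne_zero ?_ hz)
    change usq K ≠ 0
    rw [← norm_pos_iff, k1]; exact one_pos
  · change om (Real.sqrt Q • (usq K * z)) = _
    have e1 : del ^ 2 + cc * (Q * normSq z) = ‖G i (om z)‖ ^ 2 := by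
      have : normSq (om z) = del ^ 2 + cc * normSq z := by rw [normSq_eq_norm_sq, no, ss_sq]
      rw [hQ, ← normSq_eq_norm_sq]
      simp only [hM, this]
      field_simp
      ring
    have e2 : ‖G i (om z)‖ = ‖K‖ * ss z := by
      rw [hKd, norm_div, no, div_mul_cancel₀ _ (ss_pos z).ne']
    have e3 : G i (om z) = K * om z := by rw [hKd, div_mul_cancel₀ _ o0]
    rw [om, nH, e1, Real.sqrt_sq (norm_nonneg _), smul_pow, Real.sq_sqrt Q0.le, e2, e3, om_eq, uu,
      mul_pow]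
    conv_rhs => rw [← k2]
    have hρ' : ((normSq z : ℝ) : ℂ) ≠ 0 := by exact_mod_cast hρ.ne'
    have hQ' : ((Q : ℝ) : ℂ) ≠ 0 := by exact_mod_cast Q0.ne'
    simp only [real_smul]
    push_cast
    field_simp

end Pool.Agent.Lib.MP_0281e9_an
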