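import Pool.Agent.Lib.MP_0281e9_an.TurSm
import Pool.Agent.Lib.MP_0281e9_an.Base

/-! Words in Hénon-like maps: shears, linear maps, ridge shears. -/

open Set Filter Topology Metric Complex
open scoped ContDiff ComplexConjugate

namespace Pool.Agent.Lib.MP_0281e9_an.BT

/-- Admissible words. -/
def Wd (W : ℂ → ℂ) : Prop :=
  ∃ fs : List (ℝ → ℝ), (∀ f ∈ fs, ContDiff ℝ ∞ f ∧ ∀ x, |deriv f x| ≤ 1 / 2) ∧ W = hen fs

theorem contDiff_re' : ContDiff ℝ ∞ fun z : ℂ => z.re := reCLM.contDiff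
theorem contDiff_im' : ContDiff ℝ ∞ fun z : ℂ => z.im := imCLM.contDiff
theorem contDiff_ofReal' : ContDiff ℝ ∞ fun x : ℝ => (x : ℂ) := ofRealCLM.contDiff

theorem henon_smooth {f : ℝ → ℝ} (hf : ContDiff ℝ ∞ f) : ContDiff ℝ ∞ (henon f) := by
  unfold henon
  exact (contDiff_ofReal'.comp contDiff_im').add
    ((contDiff_ofReal'.comp ((hf.comp contDiff_im').sub contDiff_re')).mul contDiff_const)

theorem hen_smooth : ∀ {fs : List (ℝ → ℝ)}, (∀ f ∈ fs, ContDiff ℝ ∞ f) → ContDiff ℝ ∞ (hen fs)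
  | [], _ => contDiff_id
  | f :: _, h => (hen_smooth fun g hg => h g (List.mem_cons_of_mem _ hg)).comp
      (henon_smooth (h f List.mem_cons_self))

theorem hen_append : ∀ fs gs : List (ℝ → ℝ), hen (fs ++ gs) = hen gs ∘ hen fs
  | [], _ => rfl
  | f :: fs, gs => by simp only [List.cons_append, hen, hen_append fs gs, Function.comp_assoc]

theorem Wd.smooth {W : ℂ → ℂ} (h : Wd W) : ContDiff ℝ ∞ W := by
  obtain ⟨fs, h1, rfl⟩ := h
  exact hen_smooth fun f hf => (h1 f hf).1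

theorem wd_id : Wd fun z => z := ⟨[], by simp, rfl⟩

theorem Wd.comp {V W : ℂ → ℂ} (hV : Wd V) (hW : Wd W) : Wd fun z => V (W z) := by
  obtain ⟨fs, h1, rfl⟩ := hV
  obtain ⟨gs, h2, rfl⟩ := hW
  refine ⟨gs ++ fs, fun f hf => ?_, (hen_append gs fs).symm⟩
  rcases List.mem_append.1 hf with h | h
  exacts [h2 f h, h1 f h]

theorem Wd.congr {V W : ℂ → ℂ} (hV : Wd V) (e : ∀ z, W z = V z) : Wd W := by
  rwa [show W = V from funext e]

theorem wd_henon {f : ℝ → ℝ} (hf : ContDiff ℝ ∞ f) (hd : ∀ x, |deriv f x| ≤ 1 / 2) :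
    Wd (henon f) := ⟨[f], by simpa using ⟨hf, by simpa using hd⟩, rfl⟩

theorem wd_negI : Wd fun z => -I * z :=
  (wd_henon (f := fun _ => 0) contDiff_const (by simp)).congr fun z => by
    apply Complex.ext <;> simp [henon]

theorem wd_I : Wd fun z => I * z :=
  (wd_negI.comp (wd_negI.comp wd_negI)).congr fun z => by
    apply Complex.ext <;> simp

theorem wd_vshear_small {g : ℝ → ℝ} (hg : ContDiff ℝ ∞ g) (hd : ∀ x, |deriv g x| ≤ 1 / 2) :
    Wd fun z => z + (g z.re : ℂ) * I :=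
  ((wd_henon hg hd).comp wd_I).congr fun z => by
    apply Complex.ext <;> simp [henon]; ring

theorem wd_vshear {g : ℝ → ℝ} (hg : ContDiff ℝ ∞ g) {C : ℝ} (hd : ∀ x, |deriv g x| ≤ C) :
    Wd fun z => z + (g z.re : ℂ) * I := by
  obtain ⟨N, hN⟩ := exists_nat_gt (2 * |C|)
  have hN0 : (0:ℝ) < N := lt_of_le_of_lt (by positivity) hN
  have h1 : Wd fun z => z + ((g z.re / N : ℝ) : ℂ) * I := by
    refine wd_vshear_small (g := fun x => g x / N) (hg.div_const _) fun x => ?_
    rw [deriv_div_const, abs_div, abs_of_pos hN0, div_le_iff₀ hN0]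
    linarith [hd x, le_abs_self C]
  have h2 : ∀ k : ℕ, Wd fun z => z + ((k * (g z.re / N) : ℝ) : ℂ) * I := by
    intro k
    induction k with
    | zero => exact wd_id.congr fun z => by simp
    | succ k ih =>
      exact (h1.comp ih).congr fun z => by
        apply Complex.ext <;> simp [-ofReal_div]; ring
  exact (h2 N).congr fun z => by
    rw [mul_div_cancel₀ _ hN0.ne']

theorem wd_hshear {g : ℝ → ℝ} (hg : ContDiff ℝ ∞ g) {C : ℝ} (hd : ∀ x, |deriv g x| ≤ C) :
    Wd fun z => z + (g z.im : ℂ) :=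
  (wd_I.comp ((wd_vshear (g := fun x => -g x) hg.neg (C := C)
    (by simpa using hd)).comp wd_negI)).congr fun z => by
    apply Complex.ext <;> simp; ring

theorem wd_translate (c : ℂ) : Wd fun z => z + c :=
  ((wd_vshear (g := fun _ => c.im) contDiff_const (C := 0) (by simp)).comp
    (wd_hshear (g := fun _ => c.re) contDiff_const (C := 0) (by simp))).congr fun z => by
    apply Complex.ext <;> simp

theorem wd_vlin (c : ℝ) : Wd fun z => z + ((c * z.re : ℝ) : ℂ) * I :=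
  wd_vshear (g := fun x => c * x) (by fun_prop) (C := |c|) (by
    intro x; rw [deriv_const_mul_field]; simp)

theorem wd_hlin (c : ℝ) : Wd fun z => z + ((c * z.im : ℝ) : ℂ) :=
  wd_hshear (g := fun x => c * x) (by fun_prop) (C := |c|) (by
    intro x; rw [deriv_const_mul_field]; simp)

theorem wd_lin_ne {a b c d : ℝ} (h : a * d - b * c = 1) (hc : c ≠ 0) :
    Wd fun z => ((a * z.re + b * z.im : ℝ) : ℂ) + ((c * z.re + d * z.im : ℝ) : ℂ) * I :=
  ((wd_hlin ((a - 1) / c)).comp ((wd_vlin c).comp (wd_hlin ((d - 1) / c)))).congr fun z => by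
    have hb : b = (a * d - 1) / c := by field_simp; linarith
    apply Complex.ext
    · simp [-ofReal_div]; rw [hb]; field_simp; ring
    · simp [-ofReal_div]; field_simp; ring

theorem wd_lin {a b c d : ℝ} (h : a * d - b * c = 1) :
    Wd fun z => ((a * z.re + b * z.im : ℝ) : ℂ) + ((c * z.re + d * z.im : ℝ) : ℂ) * I := by
  by_cases hc : c = 0
  · have hd : d ≠ 0 := by rintro rfl; simp [hc] at h
    exact ((wd_lin_ne (a := b) (b := -a) (c := d) (d := -c) (by linarith) hd).comp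
      wd_negI).congr fun z => by apply Complex.ext <;> simp <;> ring
  · exact wd_lin_ne h hc

theorem det_eq (L : ℂ →L[ℝ] ℂ) :
    L.det = (L 1).re * (L I).im - (L I).re * (L 1).im := by
  rw [ContinuousLinearMap.det, ← LinearMap.det_toMatrix basisOneI, Matrix.det_fin_two]
  simp [LinearMap.toMatrix_apply]

theorem clm_expand {F : Type*} [NormedAddCommGroup F] [NormedSpace ℝ F] (L : ℂ →L[ℝ] F) (z : ℂ) :
    L z = z.re • L 1 + z.im • L I := by
  rw [← map_smul, ← map_smul, ← map_add]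
  congr 1
  apply Complex.ext <;> simp

theorem wd_clm (L : ℂ →L[ℝ] ℂ) (h : L.det = 1) : Wd fun z => L z :=
  (wd_lin (det_eq L ▸ h)).congr fun z => by
    rw [clm_expand]
    apply Complex.ext <;> simp <;> ring

theorem wd_unit {w : ℂ} (h : normSq w = 1) : Wd fun z => w * z :=
  (wd_lin (a := w.re) (b := -w.im) (c := w.im) (d := w.re)
    (by rw [← h, normSq_apply]; ring)).congr fun z => by
    apply Complex.ext <;> simp <;> ring

/-- The shear along the level lines of the linear form `z ↦ re (conj ξ * z)`. -/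
theorem wd_ridge (ξ : ℂ) {g : ℝ → ℝ} (hg : ContDiff ℝ ∞ g) {C : ℝ} (hd : ∀ x, |deriv g x| ≤ C) :
    Wd fun z => z + g (conj ξ * z).re • (I * ξ) := by
  by_cases h0 : ξ = 0
  · exact wd_id.congr fun z => by simp [h0]
  have hn : (0:ℝ) < ‖ξ‖ := norm_pos_iff.2 h0
  set w : ℂ := ξ / ‖ξ‖ with hw
  have hξ : ξ = ‖ξ‖ * w := by rw [hw]; field_simp [ofReal_ne_zero.2 hn.ne']
  have hw1 : normSq w = 1 := by
    rw [normSq_eq_norm_sq, hw, norm_div]; simp [hn.ne']
  have hw2 : w * conj w = 1 := by rw [mul_conj, hw1]; simp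
  have hv := wd_vshear (g := fun x => ‖ξ‖ * g (‖ξ‖ * x)) (by fun_prop) (C := ‖ξ‖ * (C * ‖ξ‖)) (by
    intro x
    have h1 := ((hg.differentiable (by simp) (‖ξ‖ * x)).hasDerivAt.comp x
      ((hasDerivAt_id x).const_mul ‖ξ‖)).const_mul ‖ξ‖
    rw [show (fun x => ‖ξ‖ * g (‖ξ‖ * x)) = fun y => ‖ξ‖ * (g ∘ HMul.hMul ‖ξ‖) y from rfl, h1.deriv,
      abs_mul, abs_mul, abs_of_pos hn, mul_one, abs_of_pos hn]
    gcongr
    exact hd _)
  refine ((wd_unit hw1).comp (hv.comp (wd_unit (w := conj w) (by simpa using hw1)))).congr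
    fun z => ?_
  have e1 : (conj ξ * z).re = ‖ξ‖ * (conj w * z).re := by
    conv_lhs => rw [hξ]
    simp; ring
  rw [e1]
  generalize g (‖ξ‖ * (conj w * z).re) = y
  conv_lhs => rw [hξ]
  simp only [real_smul]
  push_cast
  linear_combination (-z) * hw2

end Pool.Agent.Lib.MP_0281e9_an.BT
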