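import Pool.Agent.Lib.MP_0281e9_an.Conv2
import Pool.Agent.Lib.MP_0281e9_an.Lift
import Pool.Agent.Lib.MP_0281e9_an.EntA
import Pool.Agent.Lib.MP_0281e9_an.TurWord

/-! Lattice facts, the collar reparametrisation `Sg`, and facts on `om`. -/

namespace Pool.Agent.Lib.MP_0281e9_an.BG

open Set Filter Complex Topology Metric
open scoped ContDiff ComplexConjugate

@[simp] lemma lp_re' (m n : ℤ) : (lp m n).re = m := by simp [lp]
@[simp] lemma lp_im' (m n : ℤ) : (lp m n).im = n := by simp [lp]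

lemma mem_U {z : ℂ} : z ∈ U ↔ ∀ m n : ℤ, z ≠ lp m n := by
  constructor
  · rintro h m n rfl
    exact h ⟨⟨m, by simp⟩, n, by simp⟩
  · rintro h ⟨⟨m, hm⟩, n, hn⟩
    exact h m n (Complex.ext (by simpa using hm) (by simpa using hn))

lemma mat_lp (a b c d m n : ℤ) :
    mat a b c d (lp m n) = lp (a * m + b * n) (c * m + d * n) := by
  apply Complex.ext <;> simp

lemma A_lp (m n : ℤ) : Amat (lp m n) = lp (9 * m + 4 * n) (20 * m + 9 * n) := by
  apply Complex.ext <;> simp [Amat]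

lemma Ainv_lp (m n : ℤ) : Ainv (lp m n) = lp (9 * m - 4 * n) (-20 * m + 9 * n) := by
  apply Complex.ext <;> simp [Ainv, sub_eq_add_neg]

lemma Ainv_A (z : ℂ) : Ainv (Amat z) = z := by
  apply Complex.ext <;> simp [Ainv, Amat] <;> ring

lemma A_Ainv (z : ℂ) : Amat (Ainv z) = z := by
  apply Complex.ext <;> simp [Ainv, Amat] <;> ring

lemma g_ginv (z : ℂ) : gmat (ginv z) = z := by
  apply Complex.ext <;> simp [gmat, ginv] <;> ring

lemma A_eq (z : ℂ) : conj (ginv (conj (gmat z))) = Amat z := by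
  apply Complex.ext <;> simp [gmat, ginv, Amat] <;> ring

lemma A_mem {z : ℂ} (hz : z ∈ U) : Amat z ∈ U := mem_U.2 fun m n h =>
  mem_U.1 hz _ _ (by rw [← Ainv_A z, h, Ainv_lp])

lemma Ainv_mem {z : ℂ} (hz : z ∈ U) : Ainv z ∈ U := mem_U.2 fun m n h =>
  mem_U.1 hz _ _ (by rw [← A_Ainv z, h, A_lp])

lemma conj_mem {z : ℂ} (hz : z ∈ U) : conj z ∈ U := mem_U.2 fun m n h =>
  mem_U.1 hz m (-n) (by
    have h1 := congrArg Complex.re h
    have h2 := congrArg Complex.im h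
    apply Complex.ext <;> simp at h1 h2 ⊢ <;> linarith)

lemma neg_mem {z : ℂ} (hz : z ∈ U) : -z ∈ U := mem_U.2 fun m n h =>
  mem_U.1 hz (-m) (-n) (by
    have h1 := congrArg Complex.re h
    have h2 := congrArg Complex.im h
    apply Complex.ext <;> simp at h1 h2 ⊢ <;> linarith)

lemma g_mem {z : ℂ} (hz : z ∈ U) : gmat z ∈ U := mem_U.2 fun m n h =>
  mem_U.1 hz (m - 2 * n) (-2 * m + 5 * n) (by
    have h1 := congrArg Complex.re h
    have h2 := congrArg Complex.im h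
    apply Complex.ext <;> simp [gmat] at h1 h2 ⊢ <;> linarith)

lemma ginv_mem {z : ℂ} (hz : z ∈ U) : ginv z ∈ U := mem_U.2 fun m n h =>
  mem_U.1 hz (5 * m + 2 * n) (2 * m + n) (by
    have h1 := congrArg Complex.re h
    have h2 := congrArg Complex.im h
    apply Complex.ext <;> simp [ginv] at h1 h2 ⊢ <;> linarith)

lemma norm_mat_le (a b c d : ℝ) (z : ℂ) : ‖mat a b c d z‖ ≤ (|a| + |b| + |c| + |d|) * ‖z‖ := by
  refine (norm_le_abs_re_add_abs_im _).trans ?_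
  rw [mat_re, mat_im]
  have h1 := abs_re_le_norm z
  have h2 := abs_im_le_norm z
  calc _ ≤ (|a| * |z.re| + |b| * |z.im|) + (|c| * |z.re| + |d| * |z.im|) := by
        gcongr <;> exact (abs_add_le _ _).trans (by simp [abs_mul])
    _ ≤ (|a| * ‖z‖ + |b| * ‖z‖) + (|c| * ‖z‖ + |d| * ‖z‖) := by gcongr
    _ = _ := by ring

lemma norm_A_le (z : ℂ) : ‖Amat z‖ ≤ 42 * ‖z‖ :=
  (norm_mat_le _ _ _ _ z).trans (by norm_num)

lemma norm_Ainv_le (z : ℂ) : ‖Ainv z‖ ≤ 42 * ‖z‖ :=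
  (norm_mat_le _ _ _ _ z).trans (by norm_num)

lemma lp_zero : lp 0 0 = 0 := by simp [lp]

lemma lp_sub (m n m' n' : ℤ) : lp m n - lp m' n' = lp (m - m') (n - n') := by
  apply Complex.ext <;> simp

lemma lp_add (m n m' n' : ℤ) : lp m n + lp m' n' = lp (m + m') (n + n') := by
  apply Complex.ext <;> simp

lemma two_lp (m n : ℤ) : 2 * lp m n = lp (2 * m) (2 * n) := by
  apply Complex.ext <;> simp

lemma one_le_lp {m n : ℤ} (h : lp m n ≠ 0) : 1 ≤ ‖lp m n‖ := by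
  by_contra hc
  push Not at hc
  have h1 := (abs_re_le_norm _).trans_lt hc
  have h2 := (abs_im_le_norm _).trans_lt hc
  rw [lp_re'] at h1
  rw [lp_im'] at h2
  have a : m = 0 := by
    have : |m| < 1 := by exact_mod_cast h1
    exact Int.abs_lt_one_iff.1 this
  have b : n = 0 := by
    have : |n| < 1 := by exact_mod_cast h2
    exact Int.abs_lt_one_iff.1 this
  exact h (by rw [a, b, lp_zero])

lemma exists_lp_close (z : ℂ) : ∃ m n, ‖z - lp m n‖ ≤ 1 := by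
  refine ⟨round z.re, round z.im, (norm_le_abs_re_add_abs_im _).trans ?_⟩
  have h1 := abs_sub_round z.re
  have h2 := abs_sub_round z.im
  simp only [sub_re, sub_im, lp_re', lp_im']
  linarith

lemma lp_add_mem (m n : ℤ) {u : ℂ} (h0 : u ≠ 0) (h1 : ‖u‖ < 1) : lp m n + u ∈ U :=
  mem_U.2 fun m' n' h => by
    have e : u = lp (m' - m) (n' - n) := by rw [← lp_sub, ← h]; ring
    rw [e] at h0 h1
    linarith [one_le_lp h0]

lemma norm_le_dist (m n : ℤ) {u : ℂ} (h1 : ‖u‖ ≤ 1 / 2) (m' n' : ℤ) :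
    ‖u‖ ≤ ‖lp m n + u - lp m' n'‖ := by
  have e : lp m n + u - lp m' n' = u + lp (m - m') (n - n') := by rw [← lp_sub]; ring
  rw [e]
  by_cases h : lp (m - m') (n - n') = 0
  · rw [h, add_zero]
  · have h2 := one_le_lp h
    have h3 := norm_sub_le (u + lp (m - m') (n - n')) u
    rw [add_sub_cancel_left] at h3
    linarith

lemma cls_congr {m n m' n' : ℤ} (hm : Even m ↔ Even m') (hn : Even n ↔ Even n') :
    cls m n = cls m' n' := by
  simp only [cls, hm, hn]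

lemma cls_A (m n : ℤ) : cls (9 * m + 4 * n) (20 * m + 9 * n) = cls m n :=
  cls_congr (by simp only [Int.even_iff]; omega) (by simp only [Int.even_iff]; omega)

lemma cls_Ainv (m n : ℤ) : cls (9 * m - 4 * n) (-20 * m + 9 * n) = cls m n :=
  cls_congr (by simp only [Int.even_iff]; omega) (by simp only [Int.even_iff]; omega)

lemma cls_surj (j : Fin 4) : ∃ m n, cls m n = j := by
  fin_cases j
  · exact ⟨1, 0, by decide⟩
  · exact ⟨0, 1, by decide⟩
  · exact ⟨1, 1, by decide⟩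
  · exact ⟨0, 0, by decide⟩

lemma rel_eq {z z' z'' : ℂ} (hz : z ∈ U)
    (h1 : ∀ m n, ‖z' - Amat z‖ ≤ 1 / 100 * ‖z - lp m n‖)
    (h2 : ∀ m n, ‖z'' - Amat z‖ ≤ 1 / 100 * ‖z - lp m n‖) (hr : Rel z' z'') : z'' = z' := by
  obtain ⟨m, n, h | h⟩ := hr
  · obtain ⟨a, b, hab⟩ := exists_lp_close z
    by_cases h0 : lp (2 * m) (2 * n) = 0
    · rw [h, two_lp, h0, add_zero]
    · exfalso
      have h3 := one_le_lp h0
      have e : lp (2 * m) (2 * n) = (z'' - Amat z) - (z' - Amat z) := by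
        rw [← two_lp, h]; ring
      have h4 := norm_sub_le (z'' - Amat z) (z' - Amat z)
      rw [← e] at h4
      linarith [h1 a b, h2 a b]
  · exfalso
    have e : z - lp (9 * m - 4 * n) (-20 * m + 9 * n) = Ainv (Amat z - lp m n) := by
      rw [map_sub, Ainv_A, Ainv_lp]
    have e2 : 2 * (Amat z - lp m n) = -((z'' - Amat z) + (z' - Amat z)) := by
      rw [h]; ring
    have h3 := norm_Ainv_le (Amat z - lp m n)
    rw [← e] at h3
    have h4 : 2 * ‖Amat z - lp m n‖ ≤ ‖z'' - Amat z‖ + ‖z' - Amat z‖ := by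
      have := norm_add_le (z'' - Amat z) (z' - Amat z)
      rw [← norm_neg, ← e2, norm_mul] at this
      simpa using this
    have h5 := h1 (9 * m - 4 * n) (-20 * m + 9 * n)
    have h6 := h2 (9 * m - 4 * n) (-20 * m + 9 * n)
    have h7 : 0 < ‖z - lp (9 * m - 4 * n) (-20 * m + 9 * n)‖ :=
      norm_pos_iff.2 (sub_ne_zero.2 (mem_U.1 hz _ _))
    linarith

/-! ### The collar reparametrisation -/

noncomputable def Sg (s : ℝ → ℝ) (o : ℂ) : ℂ :=
  (Real.sqrt (normSq o + s (o.re / ‖o‖)) / ‖o‖) • o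

lemma Sg_smul (s : ℝ → ℝ) {t : ℝ} (ht : 0 < t) {ζ : ℂ} (hζ : ‖ζ‖ = 1) :
    Sg s (t • ζ) = Real.sqrt (t ^ 2 + s ζ.re) • ζ := by
  have hn : ‖t • ζ‖ = t := by rw [norm_smul, hζ, mul_one, Real.norm_of_nonneg ht.le]
  rw [Sg, normSq_eq_norm_sq, hn, smul_smul, smul_re, smul_eq_mul, mul_div_cancel_left₀ _ ht.ne',
    div_mul_cancel₀ _ ht.ne']

lemma polar {o : ℂ} (ho : o ≠ 0) : ∃ ζ : ℂ, ‖ζ‖ = 1 ∧ o = ‖o‖ • ζ := by
  have : ‖o‖ ≠ 0 := by simpa using ho
  refine ⟨‖o‖⁻¹ • o, ?_, ?_⟩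
  · rw [norm_smul, norm_inv, norm_norm, inv_mul_cancel₀ this]
  · rw [smul_smul, mul_inv_cancel₀ this, one_smul]

lemma re_mem {ζ : ℂ} (h : ‖ζ‖ = 1) : ζ.re ∈ Icc (-1:ℝ) 1 := abs_le.1 (h ▸ abs_re_le_norm ζ)

lemma Sg_zero {o : ℂ} (ho : o ≠ 0) : Sg (fun _ => 0) o = o := by
  obtain ⟨ζ, h1, h2⟩ := polar ho
  have : 0 < ‖o‖ := norm_pos_iff.2 ho
  rw [h2, Sg_smul _ this h1, add_zero, Real.sqrt_sq this.le]

lemma Sg_Sg {s s' : ℝ → ℝ} (hs : ∀ ξ ∈ Icc (-1:ℝ) 1, |s ξ| ≤ del ^ 2 / 2)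
    (hs' : ∀ ξ, s' ξ = -s ξ) {o : ℂ} (ho : del ^ 2 / 2 < normSq o) : Sg s' (Sg s o) = o := by
  have h0 : o ≠ 0 := by
    rintro rfl
    have := BL.del_pos
    simp at ho
    nlinarith
  obtain ⟨ζ, h1, h2⟩ := polar h0
  have hn : 0 < ‖o‖ := norm_pos_iff.2 h0
  have h3 := abs_le.1 (hs _ (re_mem h1))
  rw [normSq_eq_norm_sq] at ho
  have h4 : 0 < ‖o‖ ^ 2 + s ζ.re := by linarith
  rw [h2, Sg_smul _ hn h1, Sg_smul _ (Real.sqrt_pos.2 h4) h1, Real.sq_sqrt h4.le, hs',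
    add_neg_cancel_right, Real.sqrt_sq hn.le]

lemma uu_re (u : ℂ) : (BL.uu u).re = (u ^ 2).re / normSq u := by
  rw [BL.uu, smul_re, smul_eq_mul, div_eq_inv_mul]

lemma rad_sq (s : ℝ → ℝ) {u : ℂ} (h0 : u ≠ 0) (h1 : normSq u ≤ 1 / 512) :
    rad s u ^ 2 = Sg s (om u) := by
  have hρ : 0 < normSq u := normSq_pos.2 h0
  have e1 : Sfun (normSq u) = del ^ 2 + cc * normSq u := by
    rw [Sfun, Real.smoothTransition.zero_of_nonpos (by linarith)]; ring
  have e2 : chi2 (normSq u) = 1 := Real.smoothTransition.one_of_one_le (by linarith)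
  rw [BL.om_eq, Sg_smul _ (BL.ss_pos u) (BL.norm_uu h0), BL.ss_sq, rad, e1, e2, one_mul,
    smul_pow, Real.sq_sqrt (by positivity), uu_re, BL.uu, smul_smul, div_eq_mul_inv _ (normSq u)]

lemma Sg_om_bd {s : ℝ → ℝ} (hs : ∀ ξ ∈ Icc (-1:ℝ) 1, |s ξ| ≤ del ^ 2 / 2) {u : ℂ} (h0 : u ≠ 0)
    (h1 : normSq u ≤ 1 / 512) : Sg s (om u) ≠ 0 ∧ ‖Sg s (om u)‖ < 1 / 64 := by
  have hu := BL.norm_uu h0
  have h3 := abs_le.1 (hs _ (re_mem hu))
  have h4 := normSq_nonneg u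
  have hn : ‖Sg s (om u)‖ = Real.sqrt (del ^ 2 + cc * normSq u + s (BL.uu u).re) := by
    rw [BL.om_eq, Sg_smul _ (BL.ss_pos u) hu, BL.ss_sq, norm_smul, hu, mul_one,
      Real.norm_of_nonneg (Real.sqrt_nonneg _)]
  simp only [del, cc] at h3 hn
  constructor
  · rw [← norm_pos_iff, hn]
    exact Real.sqrt_pos.2 (by nlinarith)
  · rw [hn, Real.sqrt_lt' (by norm_num)]
    nlinarith

lemma Sg_CV {ι : Type} {l : Filter ι} {k : ℕ} {s : ι → ℝ → ℝ}
    (hs : ∀ ξ, CV k l s (fun _ => 0) ξ) {o : ℂ} (ho : o ≠ 0) :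
    CV k l (fun i => Sg (s i)) (fun y => y) o := by
  have hn : CV k l (fun _ (y : ℂ) => ‖y‖) (fun y => ‖y‖) o :=
    CV.const ((eventually_ne_nhds ho).mono fun y hy => contDiffAt_norm ℝ hy)
  have hn0 : ‖o‖ ≠ 0 := by simpa using ho
  have hq : CV k l (fun _ (y : ℂ) => normSq y) (fun y => normSq y) o := by
    refine CV.const' ?_
    simp only [normSq_apply]
    exact (BT.contDiff_re'.mul BT.contDiff_re').add (BT.contDiff_im'.mul BT.contDiff_im')
  have h1 := (hs _).comp ((CV.id' (k := k) (l := l) (x := o)).re.div hn hn0)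
  have h2 := (((hq.add h1).sqrt (by simpa using ho)).div hn hn0).smul CV.id'
  refine h2.congr (Eventually.of_forall fun p => rfl) ?_
  filter_upwards [eventually_ne_nhds ho] with y hy
  exact Sg_zero hy

lemma om_det {z : ℂ} (hz : z ≠ 0) : DifferentiableAt ℝ om z ∧ (fderiv ℝ om z).det = 2 * cc := by
  obtain ⟨L, hL, h⟩ := BL.om_deriv hz
  refine ⟨hL.differentiableAt, ?_⟩
  rw [hL.fderiv]
  have hρ : normSq z ≠ 0 := by simpa using hz
  have hs := (BL.ss_pos z).ne'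
  have h1 := h 1
  have h2 := h I
  rw [one_mul, BT.clm_expand] at h1
  rw [BT.clm_expand] at h2
  have e : om z = (BL.ss z / normSq z) • z ^ 2 := rfl
  rw [e] at h2
  have a1 := congrArg Complex.re h1
  have a2 := congrArg Complex.im h1
  have a3 := congrArg Complex.re h2
  have a4 := congrArg Complex.im h2
  simp [pow_two, -ofReal_div] at a1 a2 a3 a4
  rw [BT.det_eq]
  have key : ((L 1).re * (L I).im - (L I).re * (L 1).im) * normSq z =
      (z.re * (L 1).re + z.im * (L I).re) * (-(z.im * (L 1).im) + z.re * (L I).im) -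
      (-(z.im * (L 1).re) + z.re * (L I).re) * (z.re * (L 1).im + z.im * (L I).im) := by
    rw [normSq_apply]; ring
  rw [a1, a2, a3, a4] at key
  apply mul_right_cancel₀ hρ
  rw [key]
  field_simp
  rw [normSq_apply]
  ring

lemma om_tendsto {u : ℂ} (hu : u ≠ 0) :
    Tendsto (fun t : ℝ => om (t • u)) (𝓝[>] 0) (𝓝 (del • BL.uu u)) := by
  have h1 : Tendsto (fun t : ℝ => BL.ss (t • u) • BL.uu u) (𝓝 0) (𝓝 (del • BL.uu u)) := by
    have hc : Continuous fun t : ℝ => BL.ss (t • u) := by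
      unfold BL.ss
      have := continuous_normSq
      fun_prop
    have := (hc.tendsto 0).smul_const (BL.uu u)
    simpa [BL.ss, Real.sqrt_sq BL.del_pos.le] using this
  refine (h1.mono_left nhdsWithin_le_nhds).congr' ?_
  filter_upwards [self_mem_nhdsWithin] with t ht
  have ht' : (t:ℝ) ≠ 0 := ne_of_gt ht
  have hρ : normSq u ≠ 0 := by simpa using hu
  rw [BL.om_eq]
  congr 1
  rw [BL.uu, BL.uu, smul_pow, smul_smul, real_smul (x := t) (z := u), normSq_mul, normSq_ofReal]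
  congr 1
  field_simp

lemma exists_uu {ζ : ℂ} (h : ‖ζ‖ = 1) : ∃ u : ℂ, u ≠ 0 ∧ BL.uu u = ζ := by
  obtain ⟨u, hu⟩ := IsAlgClosed.exists_pow_nat_eq ζ two_pos
  have h1 : ‖u‖ ^ 2 = 1 := by rw [← norm_pow, hu, h]
  refine ⟨u, ?_, ?_⟩
  · rintro rfl; simp at h1
  · rw [BL.uu, normSq_eq_norm_sq, h1, hu]; simp

lemma near_set {V : Set ℂ} (hV : V ∈ 𝓝ˢ (sphere (0:ℂ) del)) :
    ∃ r > 0, ∃ T : Set ℂ, IsCompact T ∧ T ⊆ V ∧ ∀ u : ℂ, u ≠ 0 → ‖u‖ < r → om u ∈ T := by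
  obtain ⟨W, hW, h1, h2⟩ := mem_nhdsSet_iff_exists.1 hV
  obtain ⟨δ, hδ, h3⟩ := (isCompact_sphere (0:ℂ) del).exists_cthickening_subset_open hW h1
  refine ⟨min δ 1, lt_min hδ one_pos, _, (isCompact_sphere (0:ℂ) del).cthickening, h3.trans h2,
    fun u hu hr => ?_⟩
  refine mem_cthickening_of_dist_le _ (del • BL.uu u) _ _ ?_ ?_
  · simp [BL.norm_uu hu, abs_of_pos BL.del_pos]
  · rw [dist_eq_norm, BL.om_eq, ← sub_smul, norm_smul, BL.norm_uu hu, mul_one,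
      Real.norm_of_nonneg (sub_nonneg.2 (BL.del_le_ss u))]
    have h4 := BL.ss_sub u
    rw [normSq_eq_norm_sq] at h4
    have h5 := lt_min_iff.1 hr
    nlinarith [norm_nonneg u]

end Pool.Agent.Lib.MP_0281e9_an.BG
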