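import Pool.Agent.Lib.MP_0281e9_an.GlobA
import Pool.Agent.Lib.MP_0281e9_an.Rad

/-! Model facts, the far part and the collar part of the global lift. -/

namespace Pool.Agent.Lib.MP_0281e9_an.BG

open Set Filter Complex Topology Metric
open scoped ContDiff ComplexConjugate

/-- the perturbed parametrisation of the island -/
noncomputable def pp (Md : Model) (σ : Fin 4 → ℝ → ℝ) (z : ℂ) : ℂ := Md.P0 (Erad σ z)

noncomputable def F0 (Md : Model) (y : ℂ) : ℂ := conj (Md.Ψi (conj (Md.Ψ y)))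

noncomputable def F0i (Md : Model) (y : ℂ) : ℂ := Md.Ψi (conj (Md.Ψ (conj y)))

def Adm (σ : Fin 4 → ℝ → ℝ) : Prop :=
  (∀ j, ∀ ξ ∈ Icc (-1:ℝ) 1, |σ j ξ| ≤ del ^ 2 / 2) ∧ MapsTo (Erad σ) U U ∧ InjOn (Erad σ) U

lemma adm_zero : Adm 0 := by
  obtain ⟨e0, h0, -, h⟩ := Erad_inj
  refine ⟨fun j ξ _ => ?_, h 0 fun j ξ _ => by simpa using h0.le⟩
  simp only [Pi.zero_apply, abs_zero]; positivity

lemma ev_adm {ι : Type} {l : Filter ι} {σ : ι → Fin 4 → ℝ → ℝ}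
    (hσ : ∀ j ξ, CV 2 l (fun i => σ i j) (fun _ => 0) ξ) : ∀ᶠ i in l, Adm (σ i) := by
  obtain ⟨e0, h0, h1, h⟩ := Erad_inj
  have : ∀ᶠ i in l, ∀ j, ∀ ξ ∈ Icc (-1:ℝ) 1, |σ i j ξ| ≤ e0 :=
    eventually_all.2 fun j => ev_compact' isCompact_Icc (P := fun i ξ => |σ i j ξ| ≤ e0)
      fun ξ _ => ((hσ j ξ).close h0).mono fun p hp => by simpa using hp
  exact this.mono fun i hi => ⟨fun j ξ hξ => (hi j ξ hξ).trans h1, h _ hi⟩

variable (Md : Model)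

lemma F0i_F0 (y : ℂ) : F0i Md (F0 Md y) = y := by
  simp only [F0i, F0, conj_conj, Md.Ψr _, Md.Ψl _]

lemma F0_F0i (y : ℂ) : F0 Md (F0i Md y) = y := by
  simp only [F0i, F0, conj_conj, Md.Ψr _, Md.Ψl _]

lemma conj_smooth : ContDiff ℝ ∞ fun z : ℂ => conj z := conjCLE.contDiff

lemma F0_smooth : ContDiff ℝ ∞ (F0 Md) :=
  conj_smooth.comp (Md.hΨi.comp (conj_smooth.comp Md.hΨ))

lemma F0i_smooth : ContDiff ℝ ∞ (F0i Md) :=
  Md.hΨi.comp (conj_smooth.comp (Md.hΨ.comp conj_smooth))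

lemma F0_pp {z : ℂ} (hz : z ∈ U) : F0 Md (pp Md 0 z) = pp Md 0 (Amat z) := by
  have h1 := ginv_mem (conj_mem (g_mem hz))
  have h2 := Md.semi _ h1
  rw [g_ginv] at h2
  rw [F0, pp, Md.semi z hz, ← Md.P1conj _ (adm_zero.2.1 (g_mem hz)), ← Erad_conj, ← h2, Md.Ψl,
    ← Md.P0conj _ (adm_zero.2.1 h1), ← Erad_conj, A_eq, pp]

lemma F0i_pp {z : ℂ} (hz : z ∈ U) : F0i Md (pp Md 0 z) = pp Md 0 (Ainv z) := by
  rw [← F0i_F0 Md (pp Md 0 (Ainv z)), F0_pp Md (Ainv_mem hz), A_Ainv]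

lemma pp_inj {σ : Fin 4 → ℝ → ℝ} (hσ : Adm σ) {z z' : ℂ} (hz : z ∈ U) (hz' : z' ∈ U)
    (h : pp Md σ z = pp Md σ z') : Rel z z' := by
  obtain ⟨m, n, h | h⟩ := (Md.P0inj _ (hσ.2.1 hz) _ (hσ.2.1 hz')).1 h
  · rw [← Erad_add] at h
    exact ⟨m, n, Or.inl (hσ.2.2 hz' (BE.add_mem_U hz m n) h)⟩
  · rw [← Erad_neg, ← Erad_add] at h
    exact ⟨m, n, Or.inr (hσ.2.2 hz' (BE.add_mem_U (neg_mem hz) m n) h)⟩

lemma pp_per {σ : Fin 4 → ℝ → ℝ} (hσ : Adm σ) {z : ℂ} (hz : z ∈ U) (m n : ℤ) :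
    pp Md σ (z + 2 * lp m n) = pp Md σ z :=
  ((Md.P0inj _ (hσ.2.1 hz) _ (hσ.2.1 (BE.add_mem_U hz m n))).2
    ⟨m, n, Or.inl (Erad_add σ z m n)⟩).symm

lemma pp_near {σ : Fin 4 → ℝ → ℝ} (hσ : Adm σ) (m n : ℤ) {u : ℂ} (h0 : u ≠ 0) (h1 : ‖u‖ < 1 / 32) :
    pp Md σ (lp m n + u) = Md.β0 (cls m n) (Sg (σ (cls m n)) (om u)) := by
  have h2 : normSq u ≤ 1 / 512 := by
    rw [normSq_eq_norm_sq]; nlinarith [norm_nonneg u]
  have h3 := rad_sq (σ (cls m n)) h0 h2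
  have h4 := Sg_om_bd (hσ.1 (cls m n)) h0 h2
  rw [← h3] at h4
  rw [pp, Erad_near _ _ _ _ (by linarith), Md.chart0, h3]
  · intro h; exact h4.1 (by rw [h]; simp)
  · have := h4.2
    rw [norm_pow] at this
    nlinarith [norm_nonneg (rad (σ (cls m n)) u)]

lemma om_ne {u : ℂ} (h0 : u ≠ 0) : om u ≠ 0 := by
  rw [← norm_pos_iff, BL.norm_om h0]; exact BL.ss_pos u

lemma pp_near0 (m n : ℤ) {u : ℂ} (h0 : u ≠ 0) (h1 : ‖u‖ < 1 / 32) :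
    pp Md 0 (lp m n + u) = Md.β0 (cls m n) (om u) := by
  rw [pp_near Md adm_zero m n h0 h1]
  exact congrArg _ (Sg_zero (om_ne h0))

lemma dom_of_norm {o : ℂ} (ho : ‖o‖ = del) : o ≠ 0 ∧ ‖o‖ < 1 / 64 := by
  refine ⟨fun h => ?_, by rw [ho]; norm_num [del]⟩
  rw [h, norm_zero] at ho
  exact BL.del_pos.ne ho

lemma ev_dom {o : ℂ} (ho : ‖o‖ = del) : ∀ᶠ y in 𝓝 o, y ≠ 0 ∧ ‖y‖ < 1 / 64 :=
  (eventually_ne_nhds (dom_of_norm ho).1).and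
    (continuous_norm.continuousAt.eventually (gt_mem_nhds (dom_of_norm ho).2))

lemma beta_ev (j : Fin 4) {o : ℂ} (ho : ‖o‖ = del) : ∀ᶠ y in 𝓝 o, ContDiffAt ℝ ∞ (Md.β0 j) y :=
  (ev_dom ho).mono fun y hy => (Md.hβ0 j y hy.1 hy.2).1

lemma nu_beta_ev (j : Fin 4) {o : ℂ} (ho : ‖o‖ = del) :
    ∀ᶠ y in 𝓝 o, Md.ν0 j (Md.β0 j y) = y :=
  (ev_dom ho).mono fun y hy => (Md.hβ0 j y hy.1 hy.2).2.2.1

lemma nu_ev (j : Fin 4) {o : ℂ} (ho : ‖o‖ = del) :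
    ∀ᶠ y in 𝓝 (Md.β0 j o), ContDiffAt ℝ ∞ (Md.ν0 j) y ∧ Md.β0 j (Md.ν0 j y) = y := by
  have h := Md.hβ0 j o (dom_of_norm ho).1 (dom_of_norm ho).2
  have hD := isInv_self (inj_of_linv (cd_diff h.1) (cd_diff h.2.1) (nu_beta_ev Md j ho))
  refine Eventually.and ?_ (rinv_of_linv h.1 hD (nu_beta_ev Md j ho))
  rw [← map_nhds_of_inv h.1 hD, eventually_map]
  exact (ev_dom ho).mono fun y hy => (Md.hβ0 j y hy.1 hy.2).2.1

lemma norm_del_uu {u : ℂ} (hu : u ≠ 0) : ‖del • BL.uu u‖ = del := by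
  rw [norm_smul, BL.norm_uu hu, mul_one, Real.norm_of_nonneg BL.del_pos.le]

lemma ev_small (u : ℂ) {r : ℝ} (hr : 0 < r) : ∀ᶠ t : ℝ in 𝓝[>] 0, 0 < t ∧ ‖t • u‖ < r := by
  refine Eventually.and self_mem_nhdsWithin (mem_nhdsWithin_of_mem_nhds ?_)
  have : Continuous fun t : ℝ => ‖t • u‖ := by fun_prop
  exact this.continuousAt.eventually (gt_mem_nhds (by simpa using hr))

lemma exists_circ {o : ℂ} (ho : ‖o‖ = del) : ∃ u : ℂ, u ≠ 0 ∧ o = del • BL.uu u := by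
  obtain ⟨ζ, h1, h2⟩ := polar (dom_of_norm ho).1
  obtain ⟨u, hu, rfl⟩ := exists_uu h1
  exact ⟨u, hu, by rw [h2, ho]⟩

lemma circ_closure (j : Fin 4) {o : ℂ} (ho : ‖o‖ = del) :
    Md.β0 j o ∈ closure (pp Md 0 '' U) := by
  obtain ⟨u, hu, rfl⟩ := exists_circ ho
  obtain ⟨m, n, rfl⟩ := cls_surj j
  refine mem_closure_of_tendsto
    ((beta_ev Md _ ho).self_of_nhds.continuousAt.tendsto.comp (om_tendsto hu)) ?_
  filter_upwards [ev_small u (r := 1 / 32) (by norm_num)] with t ht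
  have h0 : t • u ≠ 0 := smul_ne_zero ht.1.ne' hu
  exact ⟨_, lp_add_mem m n h0 (by linarith [ht.2]), pp_near0 Md m n h0 ht.2⟩

lemma circ_map {j : Fin 4} {Fb : ℂ → ℂ} (hFb : Continuous Fb) {B : ℂ →L[ℝ] ℂ}
    (hB0 : ∀ u, u ≠ 0 → B u ≠ 0)
    (hB : ∀ u, u ≠ 0 → ‖u‖ < 1 / 2000 → Fb (Md.β0 j (om u)) = Md.β0 j (om (B u)))
    {o : ℂ} (ho : ‖o‖ = del) : ∃ o1, ‖o1‖ = del ∧ Fb (Md.β0 j o) = Md.β0 j o1 := by
  obtain ⟨u, hu, rfl⟩ := exists_circ ho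
  have h1 := norm_del_uu (hB0 u hu)
  refine ⟨_, h1, ?_⟩
  have t1 := (hFb.tendsto _).comp
    ((beta_ev Md j ho).self_of_nhds.continuousAt.tendsto.comp (om_tendsto hu))
  have t2 := (beta_ev Md j h1).self_of_nhds.continuousAt.tendsto.comp (om_tendsto (hB0 u hu))
  refine tendsto_nhds_unique (t1.congr' ?_) t2
  filter_upwards [ev_small u (r := 1 / 2000) (by norm_num)] with t ht
  simp only [Function.comp]
  rw [hB _ (smul_ne_zero ht.1.ne' hu) ht.2, map_smul]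

lemma A_ne {u : ℂ} (hu : u ≠ 0) : Amat u ≠ 0 := fun h => hu (by rw [← Ainv_A u, h, map_zero])
lemma Ainv_ne {u : ℂ} (hu : u ≠ 0) : Ainv u ≠ 0 := fun h => hu (by rw [← A_Ainv u, h, map_zero])

lemma F0_om (j : Fin 4) (u : ℂ) (hu : u ≠ 0) (h1 : ‖u‖ < 1 / 2000) :
    F0 Md (Md.β0 j (om u)) = Md.β0 j (om (Amat u)) := by
  obtain ⟨m, n, rfl⟩ := cls_surj j
  rw [← pp_near0 Md m n hu (by linarith), F0_pp Md (lp_add_mem m n hu (by linarith)), map_add, A_lp,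
    pp_near0 Md _ _ (A_ne hu) (by linarith [norm_A_le u]), cls_A]

lemma F0i_om (j : Fin 4) (u : ℂ) (hu : u ≠ 0) (h1 : ‖u‖ < 1 / 2000) :
    F0i Md (Md.β0 j (om u)) = Md.β0 j (om (Ainv u)) := by
  obtain ⟨m, n, rfl⟩ := cls_surj j
  rw [← pp_near0 Md m n hu (by linarith), F0i_pp Md (lp_add_mem m n hu (by linarith)), map_add,
    Ainv_lp, pp_near0 Md _ _ (Ainv_ne hu) (by linarith [norm_Ainv_le u]), cls_Ainv]

lemma F0_circ (j : Fin 4) {o : ℂ} (ho : ‖o‖ = del) :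
    ∃ o1, ‖o1‖ = del ∧ F0 Md (Md.β0 j o) = Md.β0 j o1 :=
  circ_map Md (F0_smooth Md).continuous (fun _ => A_ne) (F0_om Md j) ho

lemma F0i_circ (j : Fin 4) {o : ℂ} (ho : ‖o‖ = del) :
    ∃ o1, ‖o1‖ = del ∧ F0i Md (Md.β0 j o) = Md.β0 j o1 :=
  circ_map Md (F0i_smooth Md).continuous (fun _ => Ainv_ne) (F0i_om Md j) ho

lemma circ_bound (j : Fin 4) {o : ℂ} (ho : ‖o‖ = del) : ‖Md.β0 j o‖ ≤ Md.R := by
  have : closure (pp Md 0 '' U) ⊆ closedBall 0 Md.R :=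
    closure_minimal (by
      rintro _ ⟨z, hz, rfl⟩
      simpa [pp] using Md.bound z hz) isClosed_closedBall
  simpa using this (circ_closure Md j ho)

def Good (σ : Fin 4 → ℝ → ℝ) (F : ℂ → ℂ) (z z' : ℂ) : Prop :=
  z' ∈ U ∧ pp Md σ z' = F (pp Md σ z) ∧ ∀ m n, ‖z' - Amat z‖ ≤ 1 / 100 * ‖z - lp m n‖

def Loc (σ : Fin 4 → ℝ → ℝ) (F : ℂ → ℂ) (z0 : ℂ) : Prop :=
  ∃ h : ℂ → ℂ, DifferentiableAt ℝ h z0 ∧ ‖fderiv ℝ h z0 - Amat‖ ≤ 1 ∧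
    ∀ᶠ z in 𝓝 z0, Good Md σ F z (h z)

def Reg (σ : Fin 4 → ℝ → ℝ) (C : ℝ) (z0 : ℂ) : Prop :=
  DifferentiableAt ℝ (pp Md σ) z0 ∧ |(fderiv ℝ (pp Md σ) z0).det| ≤ C ∧ ‖pp Md σ z0‖ ≤ Md.R + 1

section
variable {ι : Type} {l : Filter ι} {σ : ι → Fin 4 → ℝ → ℝ} {F : ι → ℂ → ℂ}

lemma pp_CV (hσ : ∀ j ξ, CV 2 l (fun i => σ i j) (fun _ => 0) ξ) {z : ℂ} (hz : z ∈ U) :
    CV 2 l (fun i => pp Md (σ i)) (pp Md 0) z :=
  (Erad_CV hσ hz).post (g := Md.P0)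
    (eventually_of_mem (BE.isOpen_U.mem_nhds (adm_zero.2.1 hz)) fun y hy => (Md.P0s y hy).1)

lemma pp_isInv {z : ℂ} (hz : z ∈ U) : (fderiv ℝ (pp Md 0) z).IsInvertible := by
  have h1 := Erad_smooth hz
  have h2 := Md.P0s _ (adm_zero.2.1 hz)
  apply isInv_self
  rw [show pp Md 0 = Md.P0 ∘ Erad 0 from rfl, fderiv_comp z (cd_diff h2.1) (cd_diff h1.1)]
  exact h2.2.comp h1.2

lemma far (hσ : ∀ j ξ, CV 2 l (fun i => σ i j) (fun _ => 0) ξ)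
    (hF : ∀ y ∈ closure (pp Md 0 '' U), CV 2 l F (F0 Md) y) {r : ℝ} (hr : 0 < r) {z1 : ℂ}
    (hz1 : ∀ m n, r ≤ ‖z1 - lp m n‖) :
    ∀ᶠ p : ι × ℂ in l ×ˢ 𝓝 z1, Loc Md (σ p.1) (F p.1) p.2 ∧
      ContDiffAt ℝ ∞ (pp Md (σ p.1)) p.2 ∧ ‖pp Md (σ p.1) p.2‖ ≤ Md.R + 1 := by
  have hU : z1 ∈ U := mem_U.2 fun m n h => by
    have := hz1 m n
    rw [h, sub_self, norm_zero] at this
    linarith
  have hA := A_mem hU
  have c1 := pp_CV Md hσ hU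
  have c2 := pp_CV Md hσ hA
  have hD := pp_isInv Md hA
  obtain ⟨V, hV, hVi⟩ := c2.loc_inj hD
  obtain ⟨V', hV', hVi'⟩ := (CV.const (k := 1) (l := pure ()) c2.smg).loc_inj hD
  have hl0 : ∀ᶠ z in 𝓝 (Amat z1), Function.invFunOn (pp Md 0) V' (pp Md 0 z) = z :=
    eventually_of_mem hV' fun z hz => InjOn.leftInvOn_invFunOn hVi' hz
  have c3 := c2.invFunOn hD hV hVi hl0
  have c4 := (hF _ (subset_closure ⟨z1, hU, rfl⟩)).comp c1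
  have c5 := c3.comp' c4 (F0_pp Md hU)
  have c6 : CV 2 l (fun i y => Function.invFunOn (pp Md (σ i)) V (F i (pp Md (σ i) y))) Amat z1 :=
    c5.congr (Eventually.of_forall fun p => rfl) (by
    filter_upwards [BE.isOpen_U.mem_nhds hU, Amat.continuous.continuousAt.eventually hl0]
      with z h1 h2
    rw [F0_pp Md h1, h2])
  have t4 := c4.tendsto
  rw [F0_pp Md hU] at t4
  have g1 := ev_push (f := fun i y => F i (pp Md (σ i) y)) t4 (P := fun i y => Function.invFunOn (pp Md (σ i)) V y ∈ V ∧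
    pp Md (σ i) (Function.invFunOn (pp Md (σ i)) V y) = y) (c2.invFunOn_right hD hV hVi)
  have g2 := c6.tendsto.eventually (BE.isOpen_U.mem_nhds hA)
  have g3 := c6.close (e := 1 / 100 * (r / 2)) (by positivity)
  have g4 : ∀ᶠ p : ι × ℂ in l ×ˢ 𝓝 z1, ∀ m n, r / 2 ≤ ‖p.2 - lp m n‖ := by
    refine ev_snd (P := fun z => ∀ m n, r / 2 ≤ ‖z - lp m n‖) ?_
    filter_upwards [ball_mem_nhds z1 (half_pos hr)] with z hz m n
    rw [mem_ball, dist_eq_norm] at hz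
    have := norm_sub_le (z - lp m n) (z - z1)
    rw [show z - lp m n - (z - z1) = z1 - lp m n by ring] at this
    linarith [hz1 m n]
  have good : ∀ᶠ p : ι × ℂ in l ×ˢ 𝓝 z1, Good Md (σ p.1) (F p.1) p.2
      (Function.invFunOn (pp Md (σ p.1)) V (F p.1 (pp Md (σ p.1) p.2))) := by
    filter_upwards [g1, g2, g3, g4] with p h1 h2 h3 h4
    exact ⟨h2, h1.2, fun m n => h3.trans (by gcongr; exact h4 m n)⟩
  have g5 := ev_ev (P := fun i z => Good Md (σ i) (F i) z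
      (Function.invFunOn (pp Md (σ i)) V (F i (pp Md (σ i) z)))) good
  filter_upwards [g5, c6.sm, c6.fderiv.close one_pos, c1.sm, c1.close one_pos,
    ev_snd (l := l) (P := fun z => z ∈ U) (BE.isOpen_U.mem_nhds hU)] with p h1 h2 h3 h4 h5 h6
  refine ⟨⟨_, cd_diff h2, ?_, h1⟩, h4, ?_⟩
  · rwa [ContinuousLinearMap.fderiv] at h3
  · have := norm_add_le (pp Md (σ p.1) p.2 - pp Md 0 p.2) (pp Md 0 p.2)
    rw [sub_add_cancel] at this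
    linarith [show ‖pp Md 0 p.2‖ ≤ Md.R from Md.bound _ h6]

lemma Loc.shift {σ : Fin 4 → ℝ → ℝ} (hσ : Adm σ) {F : ℂ → ℂ} {z : ℂ} (hz : z ∈ U) (m n : ℤ)
    (h : Loc Md σ F (z + 2 * lp m n)) : Loc Md σ F z := by
  obtain ⟨h, h1, h2, h3⟩ := h
  have hd : HasFDerivAt (fun w => h (w + 2 * lp m n) + 2 * lp (-(9 * m + 4 * n)) (-(20 * m + 9 * n)))
      (fderiv ℝ h (z + 2 * lp m n)) z := by
    have := (h1.hasFDerivAt.comp z ((hasFDerivAt_id z).add_const (2 * lp m n))).add_const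
      (2 * lp (-(9 * m + 4 * n)) (-(20 * m + 9 * n)))
    simpa [Function.comp_def] using this
  refine ⟨_, hd.differentiableAt, by rwa [hd.fderiv], ?_⟩
  have hc : ContinuousAt (fun w : ℂ => w + 2 * lp m n) z := by fun_prop
  filter_upwards [hc.eventually h3, BE.isOpen_U.mem_nhds hz] with w hw hwU
  refine ⟨BE.add_mem_U hw.1 _ _, by rw [pp_per Md hσ hw.1, hw.2.1, pp_per Md hσ hwU],
    fun a b => ?_⟩
  have := hw.2.2 (a + 2 * m) (b + 2 * n)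
  have e1 : h (w + 2 * lp m n) + 2 * lp (-(9 * m + 4 * n)) (-(20 * m + 9 * n)) - Amat w =
      h (w + 2 * lp m n) - Amat (w + 2 * lp m n) := by
    rw [map_add, two_lp, two_lp, A_lp]
    apply Complex.ext <;> simp <;> ring
  have e2 : w - lp a b = w + 2 * lp m n - lp (a + 2 * m) (b + 2 * n) := by
    apply Complex.ext <;> simp
  rwa [e1, e2]

lemma Reg.shift {σ : Fin 4 → ℝ → ℝ} (hσ : Adm σ) {C : ℝ} {z : ℂ} (hz : z ∈ U) (m n : ℤ)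
    (h : Reg Md σ C (z + 2 * lp m n)) : Reg Md σ C z := by
  obtain ⟨h1, h2, h3⟩ := h
  have hd : HasFDerivAt (fun w => pp Md σ (w + 2 * lp m n))
      (fderiv ℝ (pp Md σ) (z + 2 * lp m n)) z := by
    have := h1.hasFDerivAt.comp z ((hasFDerivAt_id z).add_const (2 * lp m n))
    simpa [Function.comp_def] using this
  have hd' : HasFDerivAt (pp Md σ) (fderiv ℝ (pp Md σ) (z + 2 * lp m n)) z := by
    refine hd.congr_of_eventuallyEq ?_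
    filter_upwards [BE.isOpen_U.mem_nhds hz] with w hw
    rw [pp_per Md hσ hw]
  exact ⟨hd'.differentiableAt, by rwa [hd'.fderiv], by rwa [pp_per Md hσ hz] at h3⟩

end

end Pool.Agent.Lib.MP_0281e9_an.BG
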