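import Pool.Agent.Lib.MP_0281e9_an.GlobB

/-! The collar part and the global lift. -/

namespace Pool.Agent.Lib.MP_0281e9_an

open Set Filter Complex Topology Metric
open scoped ContDiff ComplexConjugate

namespace BG

variable (Md : Model) {ι : Type} {l : Filter ι} {σ : ι → Fin 4 → ℝ → ℝ} {F : ι → ℂ → ℂ}

noncomputable def Fc (s : ℝ → ℝ) (j : Fin 4) (F : ℂ → ℂ) (o : ℂ) : ℂ :=
  Sg (fun ξ => -s ξ) (Md.ν0 j (F (Md.β0 j (Sg s o))))

lemma normSq_circ {o : ℂ} (ho : ‖o‖ = del) : del ^ 2 / 2 < normSq o := by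
  rw [normSq_eq_norm_sq, ho]
  have := BL.del_pos
  nlinarith

lemma Fc_CV (hσ : ∀ j ξ, CV 2 l (fun i => σ i j) (fun _ => 0) ξ)
    (hF : ∀ y ∈ closure (pp Md 0 '' U), CV 2 l F (F0 Md) y) (j : Fin 4) {o : ℂ} (ho : ‖o‖ = del) :
    CV 2 l (fun i => Fc Md (σ i j) j (F i)) (fun y => Md.ν0 j (F0 Md (Md.β0 j y))) o ∧
    ∀ᶠ p : ι × ℂ in l ×ˢ 𝓝 o,
      Md.β0 j (Sg (σ p.1 j) (Fc Md (σ p.1 j) j (F p.1) p.2)) =
        F p.1 (Md.β0 j (Sg (σ p.1 j) p.2)) ∧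
      ContDiffAt ℝ ∞ (fun y => Md.β0 j (Sg (σ p.1 j) y)) p.2 ∧
      ‖Md.β0 j (Sg (σ p.1 j) p.2)‖ ≤ Md.R + 1 := by
  obtain ⟨o2, h2, e2⟩ := F0_circ Md j ho
  have cA := (Sg_CV (hσ j) (dom_of_norm ho).1).post (g := Md.β0 j) (beta_ev Md j ho)
  have cB := (hF _ (circ_closure Md j ho)).comp cA
  have hn := nu_ev Md j h2
  have cC := cB.post (g := Md.ν0 j) (by rw [e2]; exact hn.mono fun _ h => h.1)
  have e3 : Md.ν0 j (F0 Md (Md.β0 j o)) = o2 := by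
    rw [e2]; exact (nu_beta_ev Md j h2).self_of_nhds
  have hneg : ∀ ξ, CV 2 l (fun i ξ => -σ i j ξ) (fun _ => 0) ξ := fun ξ => by
    simpa using (hσ j ξ).neg
  have cD := (Sg_CV hneg (dom_of_norm h2).1).comp' cC e3
  refine ⟨cD, ?_⟩
  have tB := cB.tendsto
  rw [e2] at tB
  have tC := cC.tendsto
  rw [e3] at tC
  filter_upwards [tB.eventually hn, tC.eventually
    (continuous_normSq.continuousAt.eventually (lt_mem_nhds (normSq_circ h2))),
    ev_fst (x := o) (ev_adm hσ), cA.sm, cA.close0 one_pos] with p a1 a2 a3 a4 a5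
  refine ⟨?_, a4, ?_⟩
  · rw [Fc, Sg_Sg (s := fun ξ => -σ p.1 j ξ) (fun ξ hξ => by simpa using a3.1 j ξ hξ)
      (fun ξ => by simp) a2, a1.2]
  · have := norm_add_le (Md.β0 j (Sg (σ p.1 j) p.2) - Md.β0 j o) (Md.β0 j o)
    rw [sub_add_cancel] at this
    linarith [circ_bound Md j ho]

lemma Gc_CV (hσ : ∀ j ξ, CV 2 l (fun i => σ i j) (fun _ => 0) ξ)
    (hF : ∀ y ∈ closure (pp Md 0 '' U), CV 2 l F (F0 Md) y) (j : Fin 4) {o : ℂ} (ho : ‖o‖ = del) :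
    CV 2 l (fun i y => Fc Md (σ i j) j (F i) (Md.ν0 j (F0i Md (Md.β0 j y)))) (fun y => y) o := by
  obtain ⟨o1, h1, e1⟩ := F0i_circ Md j ho
  have e2 : Md.ν0 j (F0i Md (Md.β0 j o)) = o1 := by
    rw [e1]; exact (nu_beta_ev Md j h1).self_of_nhds
  have hc : Tendsto (fun y => F0i Md (Md.β0 j y)) (𝓝 o) (𝓝 (Md.β0 j o1)) := by
    rw [← e1]
    exact ((F0i_smooth Md).continuous.tendsto _).comp (beta_ev Md j ho).self_of_nhds.continuousAt
  have hn := hc.eventually (nu_ev Md j h1)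
  have c1 : CV 2 l (fun _ y => Md.ν0 j (F0i Md (Md.β0 j y)))
      (fun y => Md.ν0 j (F0i Md (Md.β0 j y))) o := by
    refine CV.const ?_
    filter_upwards [hn, beta_ev Md j ho] with y a1 a2
    exact a1.1.comp y ((F0i_smooth Md).contDiffAt.comp y a2)
  refine ((Fc_CV Md hσ hF j h1).1.comp' c1 e2).congr (Eventually.of_forall fun p => rfl) ?_
  filter_upwards [hn, nu_beta_ev Md j ho] with y a1 a2
  rw [a1.2, F0_F0i, a2]

lemma sqrt_dom {s : ℝ → ℝ} (hs : ∀ ξ ∈ Icc (-1:ℝ) 1, |s ξ| ≤ del ^ 2 / 2) {ζ : ℂ} (h : ‖ζ‖ = 1) :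
    Real.sqrt (del ^ 2 + s ζ.re) • ζ ≠ 0 ∧ ‖Real.sqrt (del ^ 2 + s ζ.re) • ζ‖ < 1 / 64 := by
  have h3 := abs_le.1 (hs _ (re_mem h))
  have hn : ‖Real.sqrt (del ^ 2 + s ζ.re) • ζ‖ = Real.sqrt (del ^ 2 + s ζ.re) := by
    rw [norm_smul, h, mul_one, Real.norm_of_nonneg (Real.sqrt_nonneg _)]
  rw [← norm_pos_iff, hn]
  simp only [del] at h3 ⊢
  exact ⟨Real.sqrt_pos.2 (by linarith), by rw [Real.sqrt_lt' (by norm_num)]; linarith⟩

lemma near (hσ : ∀ j ξ, CV 2 l (fun i => σ i j) (fun _ => 0) ξ)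
    (hF : ∀ y ∈ closure (pp Md 0 '' U), CV 2 l F (F0 Md) y) (j : Fin 4)
    (hinv : ∀ᶠ i in l, ∀ ζ : ℂ, ‖ζ‖ = 1 → ∃ ζ' : ℂ, ‖ζ'‖ = 1 ∧
      F i (Md.β0 j (Real.sqrt (del ^ 2 + σ i j ζ.re) • ζ)) =
        Md.β0 j (Real.sqrt (del ^ 2 + σ i j ζ'.re) • ζ')) :
    ∃ r > 0, ∀ᶠ i in l, ∃ C : ℝ, ∀ m n, cls m n = j → ∀ u : ℂ, u ≠ 0 → ‖u‖ < r →
      Loc Md (σ i) (F i) (lp m n + u) ∧ Reg Md (σ i) C (lp m n + u) := by
  obtain ⟨V, hV, HV⟩ := ev_compact (isCompact_sphere (0:ℂ) del)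
    (P := fun i o => Md.β0 j (Sg (σ i j) (Fc Md (σ i j) j (F i) o)) =
        F i (Md.β0 j (Sg (σ i j) o)) ∧ ContDiffAt ℝ ∞ (fun y => Md.β0 j (Sg (σ i j) y)) o ∧
      ‖Md.β0 j (Sg (σ i j) o)‖ ≤ Md.R + 1)
    fun o ho => (Fc_CV Md hσ hF j (by simpa using ho)).2
  obtain ⟨r1, hr1, T, hT, hTV, hr1T⟩ := near_set hV
  obtain ⟨r2, hr2, HH⟩ := lift_collar (l := l)
    (G := fun i y => Fc Md (σ i j) j (F i) (Md.ν0 j (F0i Md (Md.β0 j y))))
    (fun o ho => Gc_CV Md hσ hF j ho) (by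
      filter_upwards [hinv, ev_adm hσ] with i hi ha o ho
      obtain ⟨o1, h1, e1⟩ := F0i_circ Md j ho
      obtain ⟨ζ, hζ, e⟩ := polar (dom_of_norm h1).1
      rw [h1] at e
      obtain ⟨ζ', hζ', e'⟩ := hi ζ hζ
      have hd := sqrt_dom (ha.1 j) hζ'
      have hn : ‖del • ζ'‖ = del := by
        rw [norm_smul, hζ', mul_one, Real.norm_of_nonneg BL.del_pos.le]
      rw [e1, (nu_beta_ev Md j h1).self_of_nhds, Fc, e, Sg_smul _ BL.del_pos hζ, e',
        (Md.hβ0 j _ hd.1 hd.2).2.2.1, ← Sg_smul _ BL.del_pos hζ',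
        Sg_Sg (ha.1 j) (fun _ => rfl) (normSq_circ hn), hn]) (1 / 4200) (by norm_num)
  refine ⟨min r1 (min (r2 / 42) (1 / 2000)), by positivity, ?_⟩
  filter_upwards [HV, HH, ev_adm hσ] with i hv ⟨H, hH⟩ ha
  have hcont : ContinuousOn
      (fun o => (fderiv ℝ (fun y => Md.β0 j (Sg (σ i j) y)) o).det * (2 * cc)) T := by
    intro o ho
    exact ((ContinuousLinearMap.continuous_det.continuousAt.comp
      (cd_fderiv (hv o (hTV ho)).2.1).continuousAt).mul continuousAt_const).continuousWithinAt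
  obtain ⟨C, hC⟩ := hT.exists_bound_of_continuousOn hcont
  refine ⟨C, fun m n hj u hu hr => ?_⟩
  have hopen : ∀ᶠ z in 𝓝 (lp m n + u), z - lp m n ≠ 0 ∧
      ‖z - lp m n‖ < min r1 (min (r2 / 42) (1 / 2000)) := by
    have hc : ContinuousAt (fun z : ℂ => z - lp m n) (lp m n + u) := by fun_prop
    refine hc.eventually (p := fun w => w ≠ 0 ∧ ‖w‖ < min r1 (min (r2 / 42) (1 / 2000))) ?_
    simp only [add_sub_cancel_left]
    exact (eventually_ne_nhds hu).and (continuous_norm.continuousAt.eventually (gt_mem_nhds hr))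
  have small : ∀ w : ℂ, ‖w‖ < min r1 (min (r2 / 42) (1 / 2000)) →
      ‖w‖ < r1 ∧ ‖Amat w‖ < r2 ∧ ‖w‖ < 1 / 2000 := by
    intro w hw
    simp only [lt_min_iff] at hw
    exact ⟨hw.1, by linarith [norm_A_le w, hw.2.1], hw.2.2⟩
  have hsub : HasFDerivAt (fun z : ℂ => z - lp m n) (ContinuousLinearMap.id ℝ ℂ) (lp m n + u) :=
    (hasFDerivAt_id _).sub_const _
  obtain ⟨s1, s2, s3⟩ := small u hr
  constructor
  · obtain ⟨-, -, d1, d2, -⟩ := hH _ (A_ne hu) s2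
    have hd : HasFDerivAt (fun z => Amat (lp m n) + H (Amat (z - lp m n)))
        ((fderiv ℝ H (Amat u)).comp Amat) (lp m n + u) := by
      have a1 : HasFDerivAt (fun z => Amat (z - lp m n)) Amat (lp m n + u) := by
        simpa [Function.comp_def] using Amat.hasFDerivAt.comp (lp m n + u) hsub
      have a2 : HasFDerivAt H (fderiv ℝ H (Amat u)) (Amat (lp m n + u - lp m n)) := by
        rw [add_sub_cancel_left]; exact d1.hasFDerivAt
      exact (a2.comp (lp m n + u) a1).const_add _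
    refine ⟨_, hd.differentiableAt, ?_, ?_⟩
    · rw [hd.fderiv]
      refine ContinuousLinearMap.opNorm_le_bound _ zero_le_one fun v => ?_
      have := (fderiv ℝ H (Amat u) - ContinuousLinearMap.id ℝ ℂ).le_of_opNorm_le d2 (Amat v)
      simp only [sub_apply, ContinuousLinearMap.comp_apply, ContinuousLinearMap.id_apply] at this ⊢
      linarith [norm_A_le v, norm_nonneg v]
    · filter_upwards [hopen] with z hz
      obtain ⟨w, rfl⟩ : ∃ w, z = lp m n + w := ⟨z - lp m n, by ring⟩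
      rw [add_sub_cancel_left] at hz ⊢
      obtain ⟨t1, t2, t3⟩ := small w hz.2
      obtain ⟨b1, b2, -, -, b5⟩ := hH _ (A_ne hz.1) t2
      have hA := norm_A_le w
      have hHn : ‖H (Amat w)‖ < 1 / 32 := by
        have := norm_add_le (H (Amat w) - Amat w) (Amat w)
        rw [sub_add_cancel] at this
        linarith
      have hom := Sg_om_bd (s := fun _ => 0) (fun _ _ => by simp only [abs_zero]; positivity) hz.1
        (by rw [normSq_eq_norm_sq]; nlinarith [norm_nonneg w])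
      rw [Sg_zero (om_ne hz.1)] at hom
      refine ⟨?_, ?_, fun a b => ?_⟩
      · rw [A_lp]; exact lp_add_mem _ _ b1 (by linarith)
      · rw [A_lp, pp_near Md ha _ _ b1 hHn, cls_A, pp_near Md ha _ _ hz.1 (by linarith), hj, b2,
          ← F0_om Md j w hz.1 t3, F0i_F0, (Md.hβ0 j _ hom.1 hom.2).2.2.1]
        exact (hv _ (hTV (hr1T w hz.1 t1))).1
      · rw [map_add, add_sub_add_left_eq_sub]
        have := norm_le_dist m n (u := w) (by linarith) a b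
        linarith
  · have hT' := hr1T u hu s1
    obtain ⟨d1, d2⟩ := om_det hu
    have a1 : HasFDerivAt (fun z => om (z - lp m n)) (fderiv ℝ om u) (lp m n + u) := by
      have a2 : HasFDerivAt om (fderiv ℝ om u) (lp m n + u - lp m n) := by
        rw [add_sub_cancel_left]; exact d1.hasFDerivAt
      simpa [Function.comp_def] using a2.comp (lp m n + u) hsub
    have a3 : HasFDerivAt (fun y => Md.β0 j (Sg (σ i j) y))
        (fderiv ℝ (fun y => Md.β0 j (Sg (σ i j) y)) (om u)) (om (lp m n + u - lp m n)) := by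
      rw [add_sub_cancel_left]; exact (cd_diff (hv _ (hTV hT')).2.1).hasFDerivAt
    have hd : HasFDerivAt (pp Md (σ i))
        ((fderiv ℝ (fun y => Md.β0 j (Sg (σ i j) y)) (om u)).comp (fderiv ℝ om u)) (lp m n + u) := by
      refine (a3.comp (lp m n + u) a1).congr_of_eventuallyEq ?_
      filter_upwards [hopen] with z hz
      obtain ⟨w, rfl⟩ : ∃ w, z = lp m n + w := ⟨z - lp m n, by ring⟩
      rw [add_sub_cancel_left] at hz
      rw [pp_near Md ha _ _ hz.1 (by linarith [(small w hz.2).2.2]), hj]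
      simp
    refine ⟨hd.differentiableAt, ?_, ?_⟩
    · rw [hd.fderiv]
      have := hC _ hT'
      rw [← d2, Real.norm_eq_abs] at this
      convert this using 2
      exact LinearMap.det_comp _ _
    · rw [pp_near Md ha _ _ hu (by linarith), hj]
      exact (hv _ (hTV hT')).2.2

lemma all_loc (hσ : ∀ j ξ, CV 2 l (fun i => σ i j) (fun _ => 0) ξ)
    (hF : ∀ y ∈ closure (pp Md 0 '' U), CV 2 l F (F0 Md) y)
    (hinv : ∀ j, ∀ᶠ i in l, ∀ ζ : ℂ, ‖ζ‖ = 1 → ∃ ζ' : ℂ, ‖ζ'‖ = 1 ∧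
      F i (Md.β0 j (Real.sqrt (del ^ 2 + σ i j ζ.re) • ζ)) =
        Md.β0 j (Real.sqrt (del ^ 2 + σ i j ζ'.re) • ζ')) :
    ∀ᶠ i in l, ∃ C : ℝ, ∀ z ∈ U, Loc Md (σ i) (F i) z ∧ Reg Md (σ i) C z := by
  choose r hr hn using fun j => near Md hσ hF j (hinv j)
  obtain ⟨r0, hr0, hle⟩ : ∃ r0 > 0, ∀ j, r0 ≤ r j :=
    ⟨min (min (r 0) (r 1)) (min (r 2) (r 3)),
      lt_min (lt_min (hr 0) (hr 1)) (lt_min (hr 2) (hr 3)), fun j => by
        fin_cases j <;> simp⟩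
  set K : Set ℂ := closedBall 0 4 ∩ ⋂ m : ℤ, ⋂ n : ℤ, {z | r0 ≤ ‖z - lp m n‖} with hKdef
  have hK : IsCompact K := (isCompact_closedBall 0 4).inter_right
    (isClosed_iInter fun m => isClosed_iInter fun n => isClosed_le continuous_const (by fun_prop))
  have hfar := ev_compact' hK (P := fun i z => Loc Md (σ i) (F i) z ∧
      ContDiffAt ℝ ∞ (pp Md (σ i)) z ∧ ‖pp Md (σ i) z‖ ≤ Md.R + 1)
    fun z hz => far Md hσ hF hr0 fun m n => mem_iInter.1 (mem_iInter.1 hz.2 m) n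
  filter_upwards [eventually_all.2 hn, hfar, ev_adm hσ] with i h1 h2 ha
  choose C hC using h1
  have hcont : ContinuousOn (fun z => (fderiv ℝ (pp Md (σ i)) z).det) K := fun z hz =>
    (ContinuousLinearMap.continuous_det.continuousAt.comp
      (cd_fderiv (h2 z hz).2.1).continuousAt).continuousWithinAt
  obtain ⟨C0, hC0⟩ := hK.exists_bound_of_continuousOn hcont
  refine ⟨|C0| + ∑ j, |C j|, fun z hz => ?_⟩
  have hs : 0 ≤ ∑ j, |C j| := Finset.sum_nonneg fun _ _ => abs_nonneg _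
  by_cases hc : ∃ m n, ‖z - lp m n‖ < r0
  · obtain ⟨m, n, hmn⟩ := hc
    have := hC (cls m n) m n rfl (z - lp m n) (sub_ne_zero.2 (mem_U.1 hz m n))
      (hmn.trans_le (hle _))
    rw [add_sub_cancel] at this
    refine ⟨this.1, this.2.1, this.2.2.1.trans ?_, this.2.2.2⟩
    have := Finset.single_le_sum (f := fun j => |C j|) (fun _ _ => abs_nonneg _)
      (Finset.mem_univ (cls m n))
    linarith [le_abs_self (C (cls m n)), abs_nonneg C0]
  · push Not at hc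
    obtain ⟨m, n, hmn⟩ := BE.exists_reduce z
    have hzK : z + 2 * lp m n ∈ K := by
      refine ⟨hmn, mem_iInter.2 fun a => mem_iInter.2 fun b => ?_⟩
      have e : z + 2 * lp m n - lp a b = z - lp (a - 2 * m) (b - 2 * n) := by
        apply Complex.ext <;> simp <;> ring
      simp only [mem_ofPred_eq, e]
      exact hc _ _
    obtain ⟨a1, a2, a3⟩ := h2 _ hzK
    refine ⟨a1.shift Md ha hz m n, Reg.shift Md ha hz m n ⟨cd_diff a2, ?_, a3⟩⟩
    have := hC0 _ hzK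
    rw [Real.norm_eq_abs] at this
    linarith [le_abs_self C0]

end BG

open BG in
/-- BLOCK G : global lift -/
theorem lift_global (Md : Model) {ι : Type} {l : Filter ι} {σ : ι → Fin 4 → ℝ → ℝ}
    {F : ι → ℂ → ℂ} (hσ : ∀ j ξ, CV 2 l (fun i => σ i j) (fun _ => 0) ξ)
    (hF : ∀ y ∈ closure ((fun z => Md.P0 (Erad 0 z)) '' U),
      CV 2 l F (fun y => conj (Md.Ψi (conj (Md.Ψ y)))) y)
    (hinv : ∀ j, ∀ᶠ i in l, ∀ ζ : ℂ, ‖ζ‖ = 1 → ∃ ζ' : ℂ, ‖ζ'‖ = 1 ∧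
      F i (Md.β0 j (Real.sqrt (del ^ 2 + σ i j ζ.re) • ζ)) =
        Md.β0 j (Real.sqrt (del ^ 2 + σ i j ζ'.re) • ζ')) :
    ∀ᶠ i in l, ∃ (G : ℂ → ℂ) (C : ℝ), MapsTo G U U ∧
      (∀ z ∈ U, F i (Md.P0 (Erad (σ i) z)) = Md.P0 (Erad (σ i) (G z))) ∧
      (∀ z ∈ U, DifferentiableAt ℝ G z ∧ ‖fderiv ℝ G z - Amat‖ ≤ 1) ∧
      (∀ z ∈ U, DifferentiableAt ℝ (fun z => Md.P0 (Erad (σ i) z)) z ∧
        |(fderiv ℝ (fun z => Md.P0 (Erad (σ i) z)) z).det| ≤ C ∧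
        ‖Md.P0 (Erad (σ i) z)‖ ≤ Md.R + 1) ∧
      (∀ z ∈ U, ∀ z' ∈ U, Md.P0 (Erad (σ i) z) = Md.P0 (Erad (σ i) z') → Rel z z') ∧
      (∀ z ∈ U, ∀ m n : ℤ, Md.P0 (Erad (σ i) (z + 2 * lp m n)) = Md.P0 (Erad (σ i) z)) ∧
      ∃ z ∈ U, ContDiffAt ℝ ∞ (fun z => Md.P0 (Erad (σ i) z)) z ∧
        Function.Injective (fderiv ℝ (fun z => Md.P0 (Erad (σ i) z)) z) := by
  have h0 : lp 0 0 + (1 / 2 : ℂ) ∈ U := lp_add_mem 0 0 (by norm_num) (by norm_num)
  have c0 := pp_CV Md hσ h0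
  have e1 := ev_self (P := fun i z => ContDiffAt ℝ ∞ (pp Md (σ i)) z) c0.sm
  have e2 := ev_self (P := fun i z => (fderiv ℝ (pp Md (σ i)) z).IsInvertible)
    (c0.fderiv.tendsto.eventually (ev_isInv (pp_isInv Md h0)))
  filter_upwards [all_loc Md hσ hF hinv, ev_adm hσ, e1, e2] with i ⟨C, hC⟩ ha a1 a2
  let G : ℂ → ℂ := fun z => Classical.epsilon (Good Md (σ i) (F i) z)
  have hG : ∀ z ∈ U, ∀ z', Good Md (σ i) (F i) z z' → G z = z' := by
    intro z hz z' h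
    have h' : Good Md (σ i) (F i) z (G z) := Classical.epsilon_spec ⟨z', h⟩
    exact rel_eq hz h.2.2 h'.2.2 (pp_inj Md ha h.1 h'.1 (h.2.1.trans h'.2.1.symm))
  have hG' : ∀ z ∈ U, Good Md (σ i) (F i) z (G z) := by
    intro z hz
    obtain ⟨h, -, -, h3⟩ := (hC z hz).1
    exact Classical.epsilon_spec ⟨_, h3.self_of_nhds⟩
  refine ⟨G, C, fun z hz => (hG' z hz).1, fun z hz => (hG' z hz).2.1.symm, fun z hz => ?_,
    fun z hz => (hC z hz).2, fun z hz z' hz' => pp_inj Md ha hz hz',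
    fun z hz => pp_per Md ha hz, _, h0, a1, ?_⟩
  · obtain ⟨h, h1, h2, h3⟩ := (hC z hz).1
    have e : G =ᶠ[𝓝 z] h := by
      filter_upwards [h3, BE.isOpen_U.mem_nhds hz] with w hw hwU
      exact hG w hwU _ hw
    exact ⟨h1.congr_of_eventuallyEq e, by rwa [e.fderiv_eq]⟩
  · obtain ⟨A, hA⟩ := a2
    change Function.Injective (fderiv ℝ (pp Md (σ i)) _)
    rw [← hA]
    exact A.injective

end Pool.Agent.Lib.MP_0281e9_an
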