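import Pool.Agent.Lib.MP_0281e9_an.FixB
import Pool.Agent.Lib.MP_0281e9_an.GlobC

/-! Block F4, part A: auxiliary facts for the final assembly. -/

namespace Pool.Agent.Lib.MP_0281e9_an.BMain

open Set Filter Complex Topology Metric
open scoped ContDiff ComplexConjugate

noncomputable section

def Ini : ℂ →L[ℝ] ℂ := mat 0 (-1 / 2) (-1) (-1 / 2)

@[simp] lemma Ini_In0 (z : ℂ) : Ini (In0 z) = z := by
  apply Complex.ext <;> simp [Ini, In0] <;> ring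

lemma In0_inv (z : ℂ) : (fderiv ℝ In0 z).IsInvertible := by
  rw [In0.fderiv]
  exact isInv_self (Function.LeftInverse.injective Ini_In0)

lemma comp_inv {Φ Φi : ℂ → ℂ} (hΦ : ContDiff ℝ ∞ Φ) (hΦi : ContDiff ℝ ∞ Φi)
    (hl : Function.LeftInverse Φi Φ) (z : ℂ) :
    (fderiv ℝ (fun y => In0 (Φ y)) z).IsInvertible :=
  isInv_self (inj_of_linv (h := fun w => Φi (Ini w))
    (cd_diff (In0.contDiff.comp hΦ).contDiffAt) (cd_diff (hΦi.comp Ini.contDiff).contDiffAt)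
    (Eventually.of_forall fun y => by simp [hl y]))

lemma inc_congr {ε δ : ℝ} {w w' : ℝ → ℝ} {z : ℂ} (h : w =ᶠ[𝓝 z.re] w') :
    Inc ε δ w z = Inc ε δ w' z := by
  unfold Inc
  rw [h.deriv_eq, h.eq_of_nhds]

variable {ι : Type} {l : Filter ι} {ε : ι → ℝ}

lemma Iv_CV (hε : ∀ i, 0 < ε i) (hε0 : Tendsto ε l (𝓝 0)) {v : ι → ℝ → ℝ}
    (hv : ∀ a, CV 3 l v (fun _ => 0) a) (z : ℂ) :
    CV 2 l (fun i => Inc (ε i) (Real.pi / 2) (w0 (ε i) + v i)) In0 z :=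
  Inc_CV hε0 (((w0_CV (fun i => (hε i).ne') hε0 z.re).add (hv z.re)).congr
    (Eventually.of_forall fun _ => rfl) (Eventually.of_forall fun _ => by simp))

lemma I0_CV (hε : ∀ i, 0 < ε i) (hε0 : Tendsto ε l (𝓝 0)) (z : ℂ) :
    CV 2 l (fun i => Inc (ε i) (Real.pi / 2) (w0 (ε i))) In0 z :=
  Inc_CV hε0 (w0_CV (fun i => (hε i).ne') hε0 z.re)

lemma inj_ball {f : ι → ℂ → ℂ} {g : ℂ → ℂ} {A : ℝ} (hf : ∀ z : ℂ, ‖z‖ ≤ A → CV 2 l f g z)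
    (hD : ∀ z, (fderiv ℝ g z).IsInvertible) (hi : Function.Injective g) :
    ∀ᶠ i in l, InjOn (f i) (ball 0 A) := by
  obtain ⟨N, -, hN, -, h⟩ := CV.inj_nhd (isCompact_closedBall (0 : ℂ) A)
    (fun z hz => hf z (mem_closedBall_zero_iff.1 hz)) (fun z _ => hD z) hi.injOn
  exact h.mono fun i hi => hi.mono (ball_subset_closedBall.trans hN)

lemma ball_nhds {z : ℂ} {A : ℝ} (h : ‖z‖ < A) : ball (0 : ℂ) A ∈ 𝓝 z :=
  isOpen_ball.mem_nhds (mem_ball_zero_iff.2 h)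

lemma In0_inj : Function.Injective In0 := Function.LeftInverse.injective Ini_In0

/-- inverses of maps converging to `In0` -/
lemma inv_CV {f : ι → ℂ → ℂ} (hf : ∀ z, CV 2 l f In0 z) {A : ℝ} {z : ℂ} (hz : ‖z‖ < A) :
    CV 2 l (fun i => Function.invFunOn (f i) (ball 0 A)) Ini (In0 z) :=
  (hf z).invFunOn (In0_inv z) (ball_nhds hz) (inj_ball (fun z _ => hf z) In0_inv In0_inj)
    (Eventually.of_forall Ini_In0)

lemma inv_right {f : ι → ℂ → ℂ} (hf : ∀ z, CV 2 l f In0 z) {A : ℝ} {z : ℂ} (hz : ‖z‖ < A) :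
    ∀ᶠ p : ι × ℂ in l ×ˢ 𝓝 (In0 z), Function.invFunOn (f p.1) (ball 0 A) p.2 ∈ ball (0 : ℂ) A ∧
      f p.1 (Function.invFunOn (f p.1) (ball 0 A) p.2) = p.2 :=
  (hf z).invFunOn_right (In0_inv z) (ball_nhds hz) (inj_ball (fun z _ => hf z) In0_inv In0_inj)

lemma del_pos : 0 < del := by norm_num [del]

lemma norm_del {ζ : ℂ} (h : ‖ζ‖ = 1) : ‖(del : ℂ) * ζ‖ = del := by
  rw [norm_mul, h, mul_one, Complex.norm_real, Real.norm_of_nonneg del_pos.le]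

lemma ann {ζ : ℂ} (h : ‖ζ‖ = 1) : ∀ᶠ o in 𝓝 ((del : ℂ) * ζ), o ≠ 0 ∧ ‖o‖ < 1 / 64 := by
  refine (eventually_ne_nhds ?_).and (continuous_norm.continuousAt.eventually_lt
    continuousAt_const ?_)
  · rw [← norm_pos_iff, norm_del h]; exact del_pos
  · rw [norm_del h]; norm_num [del]

lemma circ_tendsto {σ : ι → ℝ → ℝ} (hσ : ∀ ξ, CV 2 l σ (fun _ => 0) ξ) (ζ : ℂ) :
    Tendsto (fun p : ι × ℂ => Real.sqrt (del ^ 2 + σ p.1 p.2.re) • p.2) (l ×ˢ 𝓝 ζ)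
      (𝓝 ((del : ℂ) * ζ)) := by
  have h1 : CV 2 l (fun i (y : ℂ) => σ i y.re) (fun _ => 0) ζ :=
    (hσ ζ.re).pre' (f0 := fun y : ℂ => y.re) reCLM.contDiff
  have h2 := (((CV.const' (g := fun _ : ℂ => del ^ 2) contDiff_const).add h1).sqrt
    (by simpa using del_pos.ne')).smul CV.id'
  simpa [Real.sqrt_sq del_pos.le] using h2.tendsto

lemma small_of_supp {v : ι → ℝ → ℝ} (hv : ∀ a, CV 3 l v (fun _ => 0) a) {K : Set ℝ}
    (hK : IsCompact K) (h0 : ∀ i a, a ∉ K → v i a = 0) :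
    ∀ᶠ i in l, ∀ a, |v i a| ≤ 1 ∧ |deriv (v i) a| ≤ 1 ∧ |deriv (deriv (v i)) a| ≤ 1 := by
  have h := ev_compact' (l := l) hK (P := fun i a => |v i a| ≤ 1 ∧ |deriv (v i) a| ≤ 1 ∧
      |deriv (deriv (v i)) a| ≤ 1) fun a _ => by
    filter_upwards [(hv a).close0 one_pos, (hv a).deriv.close0 one_pos,
      (hv a).deriv.deriv.close0 one_pos] with p h1 h2 h3
    simp only [deriv_const', sub_zero, Real.norm_eq_abs] at h1 h2 h3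
    exact ⟨h1, h2, h3⟩
  refine h.mono fun i hi a => ?_
  by_cases ha : a ∈ K
  · exact hi a ha
  · have e : v i =ᶠ[𝓝 a] fun _ => 0 :=
      eventually_of_mem (hK.isClosed.isOpen_compl.mem_nhds ha) (h0 i)
    rw [e.eq_of_nhds, e.deriv_eq, e.deriv.deriv_eq]
    simp

/-- the conclusion of `curve_fix` -/
def Concl (l : Filter ι) (ε : ι → ℝ) (Bn : ι → ℂ → ℂ) (x : ℝ → ℝ) (Bd : ℝ) (v σ : ι → ℝ → ℝ) :
    Prop :=
  ∀ W : Set ℝ, IsOpen W → x '' Icc (-1 : ℝ) 1 ⊆ W → ∀ᶠ i in l, ∀ ζ : ℂ, ‖ζ‖ = 1 →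
    ∃ ζ' s : ℂ, ‖ζ'‖ = 1 ∧ s.re ∈ W ∧ ‖s‖ ≤ Bd + 1 ∧
      Inc (ε i) (Real.pi / 2) (w0 (ε i) + v i) s =
        Inc (ε i) (Real.pi / 2) (w0 (ε i)) (Bn i (Real.sqrt (del ^ 2 + σ i ζ.re) • ζ)) ∧
      Inc (ε i) (Real.pi / 2) (w0 (ε i) + v i) (conj s) =
        Inc (ε i) (Real.pi / 2) (w0 (ε i)) (Bn i (Real.sqrt (del ^ 2 + σ i ζ'.re) • ζ'))

/-- the statement of `curve_fix` -/
def CurveFix : Prop :=
  ∀ {ι : Type} {l : Filter ι} {ε : ι → ℝ} (_ : ∀ i, 0 < ε i)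
    (_ : Tendsto ε l (𝓝 0)) {β ν B : ℂ → ℂ} {Bn : ι → ℂ → ℂ} {x : ℝ → ℝ} {v : ι → ℝ → ℝ}
    {W0 : Set ℝ} {Bd : ℝ}
    (_ : ∀ o, o ≠ 0 → ‖o‖ < 1 / 64 → ContDiffAt ℝ ∞ β o ∧ ContDiffAt ℝ ∞ ν (β o) ∧
      ν (β o) = o ∧ β (conj o) = conj (β o))
    (_ : ∀ ζ : ℂ, ‖ζ‖ = 1 → (β (del * ζ)).re = x ζ.re)
    (_ : ∀ ξ ∈ Icc (-1 : ℝ) 1, DifferentiableAt ℝ x ξ ∧ deriv x ξ ≠ 0)
    (_ : ∀ ζ : ℂ, ‖ζ‖ = 1 → ‖β (del * ζ)‖ ≤ Bd)
    (_ : ∀ ζ : ℂ, ‖ζ‖ = 1 → CV 2 l Bn B (del * ζ) ∧ B (del * ζ) = β (del * mob ζ) ∧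
      Function.Injective (fderiv ℝ B (del * ζ)))
    (_ : InjOn B (Metric.sphere 0 del))
    (_ : ∀ a, CV 3 l v (fun _ => 0) a) (_ : IsOpen W0) (_ : ∀ i, ∀ a ∈ W0, v i a = 0)
    (_ : ∀ ξ : ℝ, (ξ ∈ Icc (1 / 2 : ℝ) (17 / 20) ∨ ξ = 1 ∨ ξ = -1) → x ξ ∈ W0),
    ∃ σ v' : ι → ℝ → ℝ, (∀ ξ, CV 2 l σ (fun _ => 0) ξ) ∧ (∀ i, ContDiff ℝ ∞ (v' i)) ∧
      (∀ a, CV 3 l v' (fun _ => 0) a) ∧
      (∀ i a, a ∉ x '' Icc (1 / 2 : ℝ) (17 / 20) → v' i a = 0) ∧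
      Concl l ε Bn x Bd (fun i => v i + v' i) σ

lemma Concl.add {Bn : ι → ℂ → ℂ} {x : ℝ → ℝ} {Bd : ℝ} {v σ v' : ι → ℝ → ℝ}
    (h : Concl l ε Bn x Bd v σ) {K : Set ℝ} (hK : IsClosed K) (h0 : ∀ i a, a ∉ K → v' i a = 0)
    (hx : x '' Icc (-1 : ℝ) 1 ⊆ Kᶜ) : Concl l ε Bn x Bd (fun i => v i + v' i) σ := by
  intro W hW hxW
  refine (h (W ∩ Kᶜ) (hW.inter hK.isOpen_compl) (subset_inter hxW hx)).mono fun i hi ζ hζ => ?_
  obtain ⟨ζ', s, h1, h2, h3, h4, h5⟩ := hi ζ hζ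
  have e : w0 (ε i) + (v i + v' i) =ᶠ[𝓝 s.re] w0 (ε i) + v i :=
    eventually_of_mem (hK.isOpen_compl.mem_nhds h2.2) fun a ha => by simp [h0 i a ha]
  exact ⟨ζ', s, h1, h2.1, h3, (inc_congr e).trans h4,
    (inc_congr (z := conj s) (by simpa using e)).trans h5⟩

lemma arc_cpt (Md : Model) (j : Fin 4) : IsCompact (Md.x j '' Icc (1 / 2 : ℝ) (17 / 20)) :=
  isCompact_Icc.image_of_continuousOn fun ξ hξ =>
    (Md.xd j ξ ⟨by linarith [hξ.1], by linarith [hξ.2]⟩).1.continuousAt.continuousWithinAt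

lemma all_fix (curve_fix : CurveFix) (Md : Model) (hε : ∀ i, 0 < ε i) (hε0 : Tendsto ε l (𝓝 0))
    {Bn : Fin 4 → ι → ℂ → ℂ} {B : Fin 4 → ℂ → ℂ} {Bd : ℝ}
    (hBd : ∀ j (ζ : ℂ), ‖ζ‖ = 1 → ‖Md.β1 j (del * ζ)‖ ≤ Bd)
    (hB : ∀ j (ζ : ℂ), ‖ζ‖ = 1 → CV 2 l (Bn j) (B j) (del * ζ) ∧
      B j (del * ζ) = Md.β1 j (del * mob ζ) ∧ Function.Injective (fderiv ℝ (B j) (del * ζ)))
    (hBi : ∀ j, InjOn (B j) (sphere 0 del)) (m : ℕ) (hm : m ≤ 4) :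
    ∃ (v : ι → ℝ → ℝ) (σ : ι → Fin 4 → ℝ → ℝ), (∀ i, ContDiff ℝ ∞ (v i)) ∧
      (∀ a, CV 3 l v (fun _ => 0) a) ∧
      (∀ i a, a ∉ ⋃ j : Fin 4, ⋃ _ : j.val < m, Md.x j '' Icc (1 / 2 : ℝ) (17 / 20) → v i a = 0) ∧
      (∀ j ξ, CV 2 l (fun i => σ i j) (fun _ => 0) ξ) ∧
      ∀ j : Fin 4, j.val < m → Concl l ε (Bn j) (Md.x j) Bd v fun i => σ i j := by
  induction m with
  | zero =>
    exact ⟨fun _ _ => 0, fun _ _ _ => 0, fun _ => contDiff_const, fun _ => CV.const' contDiff_const,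
      fun _ _ _ => rfl, fun _ _ => CV.const' contDiff_const, fun j hj => absurd hj (by omega)⟩
  | succ m ih =>
    obtain ⟨v, σ, h1, h2, h3, h4, h5⟩ := ih (by omega)
    set k : Fin 4 := ⟨m, hm⟩ with hk
    have hcl : IsClosed (⋃ j : Fin 4, ⋃ _ : j.val < m, Md.x j '' Icc (1 / 2 : ℝ) (17 / 20)) :=
      isClosed_iUnion_of_finite fun j => isClosed_iUnion_of_finite fun _ => (arc_cpt Md j).isClosed
    obtain ⟨σ', v', g1, g2, g3, g4, g5⟩ := curve_fix hε hε0 (Md.hβ1 k) (Md.xre k) (Md.xd k)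
      (hBd k) (hB k) (hBi k) h2 hcl.isOpen_compl h3 (fun ξ hξ => by
        simp only [mem_compl_iff, mem_iUnion, not_exists]
        rintro j hj ⟨ξ', hξ', e⟩
        exact Md.sep k j hj ξ' ⟨by linarith [hξ'.1], by linarith [hξ'.2]⟩ ξ hξ e.symm)
    refine ⟨fun i => v i + v' i, fun i j => if j = k then σ' i else σ i j,
      fun i => (h1 i).add (g2 i), fun a => ?_, fun i a ha => ?_, fun j ξ => ?_, fun j hj => ?_⟩
    · exact ((h2 a).add (g3 a)).congr (Eventually.of_forall fun _ => rfl)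
        (Eventually.of_forall fun _ => by simp)
    · simp only [mem_iUnion, not_exists] at ha
      change v i a + v' i a = 0
      rw [h3 i a, g4 i a (ha k (Nat.lt_succ_self m)), add_zero]
      simp only [mem_iUnion, not_exists]
      exact fun j hj => ha j (by omega)
    · by_cases hj : j = k
      · simpa only [hj, if_true] using g1 ξ
      · simpa only [hj, if_false] using h4 j ξ
    · by_cases hjk : j = k
      · subst hjk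
        simp only [if_true]
        exact g5
      · have hlt : j.val < m := by
          have : j.val ≠ m := fun h => hjk (Fin.ext h)
          omega
        simp only [hjk, if_false]
        refine (h5 j hlt).add (arc_cpt Md k).isClosed g4 ?_
        rintro _ ⟨ξ, hξ, rfl⟩ ⟨ξ', hξ', e⟩
        exact Md.sep k j hlt ξ hξ ξ' (Or.inl hξ') e

end

end Pool.Agent.Lib.MP_0281e9_an.BMain
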