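import Pool.Agent.Lib.MP_0281e9_an.ModelE
import Pool.Agent.Lib.MP_0281e9_an.Rad
import Pool.Agent.Lib.MP_0281e9_an.CoverC
import Pool.Agent.Lib.MP_0281e9_an.ExtB

namespace Pool.Agent.Lib.MP_0281e9_an

open Complex

lemma BM.mu_eq (j : Fin 4) (o : ℂ) : mu j o = BM.mm j o := by
  have : j = 0 ∨ j = 1 ∨ j = 2 ∨ j = 3 := by
    revert j
    decide
  rcases this with rfl | rfl | rfl | rfl <;>
    simp only [mu, BM.mm, BM.ca, BM.cb, BM.cd, Matrix.cons_val] <;> push_cast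
  · rw [← neg_div_neg_eq]
    congr 1 <;> ring
  · rw [← neg_div_neg_eq]
    congr 1 <;> ring
  · congr 1
  · rw [← neg_div_neg_eq]
    congr 1 <;> ring

theorem exists_model : Nonempty Model := by
  obtain ⟨e0, h0, -, h1⟩ := Erad_inj
  obtain ⟨h2, h3⟩ := h1 0 fun _ _ _ => by simpa using h0.le
  have hR : BM.RF := ⟨Erad_add 0, Erad_neg 0, Erad_conj 0, Erad_near 0, h2, h3,
    fun _ => Erad_smooth, Erad_image⟩
  obtain ⟨Q, q1, q2, q3, q4, q5, q6⟩ := exists_cover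
  have hQ : BM.CF Q := ⟨q1, q2, fun z hz z' hz' => q3 z z' hz hz', q4, q5,
    fun m n z hz => (q6 m n z hz).trans (BM.mu_eq _ _)⟩
  obtain ⟨e, ei, x1, x2, x3, x4, x5, x6, x7, x8⟩ := exists_ext
  obtain ⟨hp, hp'⟩ := BM.pairs x1 x2 x3 x4 x5 x6 x7 x8
  exact BM.model_of hR hQ hp hp' x3 x4

end Pool.Agent.Lib.MP_0281e9_an
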