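import Pool.Agent.Lib.MP_0281e9_an.MainA
import Pool.Agent.Lib.MP_0281e9_an.ModelMain
import Pool.Agent.Lib.MP_0281e9_an.Chain
import Pool.Agent.Lib.MP_0281e9_an.Final

/-! Block F4: the final assembly. -/

namespace Pool.Agent.Lib.MP_0281e9_an

open Set Filter Complex MeasureTheory Topology Metric
open scoped ContDiff ComplexConjugate NNReal

namespace BMain

lemma exists_A (Md : Model) : ∃ A : ℝ, ∀ y : ℂ, ‖y‖ ≤ Md.R + 1 →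
    ‖y‖ < A ∧ ‖Md.Φ y‖ ≤ A - 2 ∧ ‖Md.Φi (conj (Md.Φ y))‖ < A := by
  have hK := isCompact_closedBall (0 : ℂ) (Md.R + 1)
  obtain ⟨C1, h1⟩ := hK.exists_bound_of_continuousOn Md.hΦ.continuous.continuousOn
  obtain ⟨C2, h2⟩ := hK.exists_bound_of_continuousOn (f := fun y => Md.Φi (conj (Md.Φ y)))
    (Md.hΦi.continuous.comp (continuous_conj.comp Md.hΦ.continuous)).continuousOn
  refine ⟨|Md.R| + |C1| + |C2| + 2, fun y hy => ?_⟩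
  have a1 := h1 y (mem_closedBall_zero_iff.2 hy)
  have a2 := h2 y (mem_closedBall_zero_iff.2 hy)
  have := le_abs_self Md.R
  have := le_abs_self C1
  have := le_abs_self C2
  have := abs_nonneg Md.R
  have := abs_nonneg C1
  have := abs_nonneg C2
  exact ⟨by linarith, by linarith, by linarith⟩

lemma cl_bound (Md : Model) {y : ℂ} (hy : y ∈ closure ((fun z => Md.P0 (Erad 0 z)) '' U)) :
    ‖y‖ ≤ Md.R + 1 := by
  have : closure ((fun z => Md.P0 (Erad 0 z)) '' U) ⊆ closedBall 0 Md.R :=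
    closure_minimal (by rintro _ ⟨z, hz, rfl⟩; exact mem_closedBall_zero_iff.2 (Md.bound z hz))
      isClosed_closedBall
  linarith [mem_closedBall_zero_iff.1 (this hy)]

lemma agree_on (Md : Model) : EqOn Md.Φ Md.Ψ ((fun z => Md.P0 (Erad 0 z)) '' U) := by
  rintro _ ⟨z, hz, rfl⟩; exact Md.agree z hz

lemma cl_agree (Md : Model) {y : ℂ} (hy : y ∈ closure ((fun z => Md.P0 (Erad 0 z)) '' U)) :
    Md.Φ y = Md.Ψ y := (agree_on Md).closure Md.hΦ.continuous Md.hΨ.continuous hy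


variable {ι : Type} {l : Filter ι} {Θ I0 Iv : ι → ℂ → ℂ} {A : ℝ}

lemma push {f : ι → ℂ → ℂ} {g : ℂ → ℂ} {x y : ℂ} {k : ℕ} (h : CV k l f g x) (hy : g x = y)
    (P : ι → ℂ → Prop) (hP : ∀ᶠ p : ι × ℂ in l ×ˢ 𝓝 y, P p.1 p.2) :
    ∀ᶠ p : ι × ℂ in l ×ˢ 𝓝 x, P p.1 (f p.1 p.2) := ev_push h.tendsto (hy ▸ hP)

/-- reflection in the corrected mirror -/
lemma refl_CV (hIv : ∀ z, CV 2 l Iv In0 z) {Ξ : ℂ → ℂ} {y : ℂ}
    (h1 : CV 2 l Θ (fun y => In0 (Ξ y)) y) (h2 : ‖Ξ y‖ < A) :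
    CV 2 l (fun i y => Iv i (conj (Function.invFunOn (Iv i) (ball 0 A) (Θ i y))))
      (fun y => In0 (conj (Ξ y))) y :=
  ((hIv _).comp ((inv_CV hIv h2).comp' h1 rfl).conj).congr
    (Eventually.of_forall fun _ => rfl) (Eventually.of_forall fun _ => by simp)

variable (Md : Model)
  (hA : ∀ y : ℂ, ‖y‖ ≤ Md.R + 1 → ‖y‖ < A ∧ ‖Md.Φ y‖ ≤ A - 2 ∧ ‖Md.Φi (conj (Md.Φ y))‖ < A)
  (hΘ : ∀ z : ℂ, ‖z‖ ≤ A → CV 2 l Θ (fun y => In0 (Md.Φ y)) z)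

include hA in
lemma psi_le {y : ℂ} (hy : y ∈ closure ((fun z => Md.P0 (Erad 0 z)) '' U)) :
    ‖Md.Ψ y‖ ≤ A - 2 := by
  rw [← cl_agree Md hy]; exact (hA y (cl_bound Md hy)).2.1

include hΘ in
lemma th_inj : ∀ᶠ i in l, InjOn (Θ i) (ball 0 A) :=
  inj_ball hΘ (comp_inv Md.hΦ Md.hΦi Md.Φl) (In0_inj.comp Md.Φl.injective)

lemma beta_sm (j : Fin 4) {ζ : ℂ} (hζ : ‖ζ‖ = 1) :
    ∀ᶠ o in 𝓝 ((del : ℂ) * ζ), ContDiffAt ℝ ∞ (Md.β0 j) o :=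
  (ann hζ).mono fun o ho => (Md.hβ0 j o ho.1 ho.2).1

lemma B_inj (j : Fin 4) : InjOn (fun o => Md.Ψ (Md.β0 j o)) (sphere 0 del) := by
  intro o ho o' ho' e
  have h1 : ∀ o ∈ sphere (0 : ℂ) del, Md.ν0 j (Md.β0 j o) = o := fun o ho => by
    rw [mem_sphere_zero_iff_norm] at ho
    refine (Md.hβ0 j o (norm_pos_iff.1 (ho ▸ del_pos)) ?_).2.2.1
    rw [ho]; norm_num [del]
  rw [← h1 o ho, ← h1 o' ho', Md.Ψl.injective e]

lemma B_fd (j : Fin 4) {ζ : ℂ} (hζ : ‖ζ‖ = 1) :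
    Function.Injective (fderiv ℝ (fun o => Md.Ψ (Md.β0 j o)) (del * ζ)) := by
  have h2 := (ann hζ).self_of_nhds
  have h3 := Md.hβ0 j _ h2.1 h2.2
  refine inj_of_linv (h := fun w => Md.ν0 j (Md.Ψi w))
    (cd_diff (Md.hΨ.contDiffAt.comp _ h3.1)) (cd_diff ?_) ((ann hζ).mono fun o ho => ?_)
  · refine ContDiffAt.comp _ ?_ Md.hΨi.contDiffAt
    rw [Md.Ψl]; exact h3.2.1
  · simp only [Md.Ψl (Md.β0 j o)]
    exact (Md.hβ0 j o ho.1 ho.2).2.2.1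

include hA hΘ

lemma th_psi {y : ℂ} (hy : y ∈ closure ((fun z => Md.P0 (Erad 0 z)) '' U)) :
    CV 2 l Θ (fun y => In0 (Md.Ψ y)) y :=
  (hΘ y (hA y (cl_bound Md hy)).1.le).congr_lim Md.isOpen_island hy
    (Eventually.of_forall fun _ => (In0.contDiff.comp Md.hΨ).contDiffAt)
    fun _ hz => congrArg In0 (agree_on Md hz)

lemma th_beta (j : Fin 4) {ζ : ℂ} (hζ : ‖ζ‖ = 1) : CV 2 l (fun i o => Θ i (Md.β0 j o))
    (fun o => In0 (Md.Ψ (Md.β0 j o))) (del * ζ) :=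
  (th_psi Md hA hΘ (Md.circ_closure j hζ)).pre (beta_sm Md j hζ)

lemma Bn_CV (hI0 : ∀ z, CV 2 l I0 In0 z) (j : Fin 4) {ζ : ℂ} (hζ : ‖ζ‖ = 1) :
    CV 2 l (fun i o => Function.invFunOn (I0 i) (ball 0 A) (Θ i (Md.β0 j o)))
      (fun o => Md.Ψ (Md.β0 j o)) (del * ζ) :=
  ((inv_CV hI0 (A := A) (by linarith [psi_le Md hA (Md.circ_closure j hζ)])).comp'
    (th_beta Md hA hΘ j hζ) rfl).congr
    (Eventually.of_forall fun _ => rfl) (Eventually.of_forall fun _ => by simp)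

lemma F_CV (hIv : ∀ z, CV 2 l Iv In0 z) {y : ℂ}
    (hy : y ∈ closure ((fun z => Md.P0 (Erad 0 z)) '' U)) :
    CV 2 l (fun i y => conj (Function.invFunOn (Θ i) (ball 0 A)
      (Iv i (conj (Function.invFunOn (Iv i) (ball 0 A) (Θ i y))))))
      (fun y => conj (Md.Ψi (conj (Md.Ψ y)))) y := by
  have h1 := Md.island_refl hy
  have h2 := (th_psi Md hA hΘ h1).invFunOn (comp_inv Md.hΨ Md.hΨi Md.Ψl _)
    (ball_nhds (hA _ (cl_bound Md h1)).1) (th_inj Md hΘ) (h0 := fun w => Md.Ψi (Ini w))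
    (Eventually.of_forall fun z => by simp [Md.Ψl z])
  refine ((h2.comp' (refl_CV hIv (th_psi Md hA hΘ hy) (A := A)
    (by linarith [psi_le Md hA hy])) ?_).conj).congr
    (Eventually.of_forall fun _ => rfl) (Eventually.of_forall fun _ => by simp)
  rw [Md.Ψr]

lemma circ_ev (hI0 : ∀ z, CV 2 l I0 In0 z) {σ : ι → ℝ → ℝ} (hσ : ∀ ξ, CV 2 l σ (fun _ => 0) ξ)
    (j : Fin 4) : ∀ᶠ i in l, ∀ ζ : ℂ, ‖ζ‖ = 1 → ∀ o, o = Real.sqrt (del ^ 2 + σ i ζ.re) • ζ →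
      I0 i (Function.invFunOn (I0 i) (ball 0 A) (Θ i (Md.β0 j o))) = Θ i (Md.β0 j o) ∧
        Md.β0 j o ∈ ball (0 : ℂ) A ∧ o ≠ 0 ∧ ‖o‖ < 1 / 64 := by
  have h := ev_compact' (l := l) (isCompact_sphere (0 : ℂ) 1)
    (P := fun i ζ => ∀ o, o = Real.sqrt (del ^ 2 + σ i ζ.re) • ζ →
      I0 i (Function.invFunOn (I0 i) (ball 0 A) (Θ i (Md.β0 j o))) = Θ i (Md.β0 j o) ∧
        Md.β0 j o ∈ ball (0 : ℂ) A ∧ o ≠ 0 ∧ ‖o‖ < 1 / 64) fun ζ hζ => by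
    rw [mem_sphere_zero_iff_norm] at hζ
    have a1 := psi_le Md hA (Md.circ_closure j hζ)
    have a2 := push (th_beta Md hA hΘ j hζ) rfl
      (fun i w => I0 i (Function.invFunOn (I0 i) (ball 0 A) w) = w)
      ((inv_right hI0 (A := A) (by linarith)).mono fun _ h => h.2)
    have a3 : ∀ᶠ o in 𝓝 ((del : ℂ) * ζ), Md.β0 j o ∈ ball (0 : ℂ) A :=
      (beta_sm Md j hζ).self_of_nhds.continuousAt.eventually_mem
        (ball_nhds (hA _ (cl_bound Md (Md.circ_closure j hζ))).1)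
    have a4 := (tendsto_fst.prodMk (circ_tendsto hσ ζ)).eventually
      (a2.and (ev_snd (l := l) (a3.and (ann hζ))))
    exact a4.mono fun p hp o ho => ho ▸ hp
  exact h.mono fun i hi ζ hζ => hi ζ (mem_sphere_zero_iff_norm.2 hζ)

lemma pt_ev (hIv : ∀ z, CV 2 l Iv In0 z) : ∀ᶠ i in l, ∀ y ∈ closedBall (0 : ℂ) (Md.R + 1),
    (Function.invFunOn (Iv i) (ball 0 A) (Θ i y) ∈ ball (0 : ℂ) A ∧
      Iv i (Function.invFunOn (Iv i) (ball 0 A) (Θ i y)) = Θ i y) ∧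
      Function.invFunOn (Θ i) (ball 0 A)
        (Iv i (conj (Function.invFunOn (Iv i) (ball 0 A) (Θ i y)))) ∈ ball (0 : ℂ) A ∧
      Θ i (Function.invFunOn (Θ i) (ball 0 A)
        (Iv i (conj (Function.invFunOn (Iv i) (ball 0 A) (Θ i y))))) =
        Iv i (conj (Function.invFunOn (Iv i) (ball 0 A) (Θ i y))) := by
  refine ev_compact' (isCompact_closedBall _ _) fun y hy => ?_
  obtain ⟨a1, a2, a3⟩ := hA y (mem_closedBall_zero_iff.1 hy)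
  have b1 := hΘ y a1.le
  have b2 := (hΘ _ a3.le).invFunOn_right (comp_inv Md.hΦ Md.hΦi Md.Φl _) (ball_nhds a3)
    (th_inj Md hΘ)
  rw [Md.Φr] at b2
  exact (push b1 rfl (fun i w => Function.invFunOn (Iv i) (ball 0 A) w ∈ ball (0 : ℂ) A ∧
      Iv i (Function.invFunOn (Iv i) (ball 0 A) w) = w) (inv_right hIv (by linarith))).and
    (push (refl_CV hIv b1 (A := A) (by linarith)) rfl
      (fun i w => Function.invFunOn (Θ i) (ball 0 A) w ∈ ball (0 : ℂ) A ∧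
        Θ i (Function.invFunOn (Θ i) (ball 0 A) w) = w) b2)

lemma inv_ev (hI0 : ∀ z, CV 2 l I0 In0 z) (hIv : ∀ z, CV 2 l Iv In0 z) {σ : ι → ℝ → ℝ}
    (hσ : ∀ ξ, CV 2 l σ (fun _ => 0) ξ) (j : Fin 4)
    (hC : ∀ᶠ i in l, ∀ ζ : ℂ, ‖ζ‖ = 1 → ∃ ζ' s : ℂ, ‖ζ'‖ = 1 ∧ s.re ∈ univ ∧ ‖s‖ ≤ A - 2 + 1 ∧
      Iv i s = I0 i (Function.invFunOn (I0 i) (ball 0 A)
        (Θ i (Md.β0 j (Real.sqrt (del ^ 2 + σ i ζ.re) • ζ)))) ∧
      Iv i (conj s) = I0 i (Function.invFunOn (I0 i) (ball 0 A)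
        (Θ i (Md.β0 j (Real.sqrt (del ^ 2 + σ i ζ'.re) • ζ'))))) :
    ∀ᶠ i in l, ∀ ζ : ℂ, ‖ζ‖ = 1 → ∃ ζ' : ℂ, ‖ζ'‖ = 1 ∧
      conj (Function.invFunOn (Θ i) (ball 0 A) (Iv i (conj (Function.invFunOn (Iv i) (ball 0 A)
        (Θ i (Md.β0 j (Real.sqrt (del ^ 2 + σ i ζ.re) • ζ))))))) =
        Md.β0 j (Real.sqrt (del ^ 2 + σ i ζ'.re) • ζ') := by
  filter_upwards [circ_ev Md hA hΘ hI0 hσ j, hC, th_inj Md hΘ,
    inj_ball (A := A) (fun z _ => hIv z) In0_inv In0_inj] with i h1 h2 h3 h4 ζ hζ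
  obtain ⟨ζ', s, b1, -, b2, b3, b4⟩ := h2 ζ hζ
  have c1 := h1 ζ hζ _ rfl
  have c2 := h1 ζ' b1 _ rfl
  refine ⟨conj ζ', by simpa using b1, ?_⟩
  have d1 : Function.invFunOn (Iv i) (ball 0 A) (Iv i s) = s :=
    h4.leftInvOn_invFunOn (mem_ball_zero_iff.2 (by linarith))
  rw [← b3.trans c1.1, d1, b4.trans c2.1, h3.leftInvOn_invFunOn c2.2.1,
    ← (Md.hβ0 j _ c2.2.2.1 c2.2.2.2).2.2.2]
  simp

end BMain

open BMain in
theorem main_of (hcf : BMain.CurveFix) :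
    ∃ (Y : Set ℂ) (γ : ℝ → ℂ) (L : ℝ) (φ : ℝ × ℝ → ℝ × ℝ), IsTable Y γ L ∧ IsBilliardMap γ L φ ∧
      IsProbabilityMeasure (liouville L) ∧ MeasurePreserving φ (liouville L) (liouville L) ∧
      0 < ksEntropy (liouville L) φ := by
  obtain ⟨Md⟩ := exists_model
  obtain ⟨A, hA⟩ := exists_A Md
  obtain ⟨ε, Θ, hε, hε0, hΘ, hR⟩ := chain Md.Φ Md.Φi Md.hΦ Md.hΦi Md.Φl Md.Φr Md.det A
  have hI0 := I0_CV hε hε0
  obtain ⟨v, σ, hvs, hv, hv0, hσ, hC⟩ := all_fix hcf Md hε hε0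
    (Bn := fun j i o => Function.invFunOn (Inc (ε i) (Real.pi / 2) (w0 (ε i))) (ball 0 A)
      (Θ i (Md.β0 j o))) (B := fun j o => Md.Ψ (Md.β0 j o)) (Bd := A - 2)
    (fun j ζ hζ => by
      obtain ⟨ζ0, h0, rfl⟩ := mob_surj hζ
      rw [← Md.circ_semi j h0]
      exact psi_le Md hA (Md.circ_closure j h0))
    (fun j ζ hζ => ⟨Bn_CV Md hA hΘ hI0 j hζ, Md.circ_semi j hζ, B_fd Md j hζ⟩) (B_inj Md) 4 le_rfl
  have hIv := Iv_CV hε hε0 hv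
  have hsm := small_of_supp hv (isCompact_iUnion fun j => isCompact_iUnion fun _ => arc_cpt Md j)
    hv0
  obtain ⟨i, ⟨G, C, g1, g2, g3, g4, g5, g6, g7⟩, h1, h2⟩ :=
    ((lift_global Md hσ (fun y hy => F_CV Md hA hΘ hIv hy) fun j =>
      inv_ev Md hA hΘ hI0 hIv (hσ j) j (hC j j.isLt univ isOpen_univ (subset_univ _))).and
      ((pt_ev Md hA hΘ hIv).and hsm)).exists
  refine final_step (p := fun z => Md.P0 (Erad (σ i) z)) (C := C) (hε i) (hR i) (hvs i) h2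
    (fun z hz => ?_) g1 g3 (fun z hz => ⟨(g4 z hz).1, (g4 z hz).2.1⟩) g5 g6 g7
  have a1 := (g4 z hz).2.2
  obtain ⟨⟨b1, b2⟩, b3, b4⟩ := h1 _ (mem_closedBall_zero_iff.2 a1)
  exact ⟨(hA _ a1).1.le, _, _, (mem_ball_zero_iff.1 b1).le, (mem_ball_zero_iff.1 b3).le, b2,
    b4.symm, (g2 z hz).symm⟩

end Pool.Agent.Lib.MP_0281e9_an
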