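import Pool.Agent.Lib.MP_0281e9_an.Base
import Pool.Agent.Lib.MP_0281e9_an.Conv2

namespace Pool.Agent.Lib.MP_0281e9_an

namespace Mc

open Set Filter Complex MeasureTheory Topology
open scoped ContDiff

noncomputable section

variable {ι : Type} {l : Filter ι} {ε : ι → ℝ}

def S (e b : ℝ) : ℝ := Real.sin (e * b) / e
def W1 (e a : ℝ) : ℝ := 3 / 2 * a + S e a / 2
def yf (e a b : ℝ) : ℝ := -W1 e a * Real.cos (e * b) - e * w0 e a * Real.sin (e * b)
def Ff (e a b : ℝ) : ℝ := W1 e a * S e b - w0 e a * Real.cos (e * b)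
def Gf (e a b : ℝ) : ℝ := -(2 + 3 / 4 * e ^ 2 * a ^ 2) * S e b

lemma S_deriv {e : ℝ} (he : e ≠ 0) (b : ℝ) : HasDerivAt (S e) (Real.cos (e * b)) b := by
  have h := (((hasDerivAt_id b).const_mul e).sin).div_const e
  refine h.congr_deriv ?_
  simp only [id]
  field_simp

lemma S_cd (e : ℝ) : ContDiff ℝ ∞ (S e) := by
  unfold S
  fun_prop

lemma w0_cd (e : ℝ) : ContDiff ℝ ∞ (w0 e) := by
  unfold w0
  fun_prop

lemma w0_deriv {e : ℝ} (he : e ≠ 0) (a : ℝ) : HasDerivAt (w0 e) (W1 e a) a := by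
  have h1 := ((hasDerivAt_id a).pow 2).const_mul (3 / 4 : ℝ)
  have h2 := ((((hasDerivAt_id a).const_mul e).cos).const_sub 1).div_const (2 * e ^ 2)
  refine (h1.add h2).congr_deriv ?_
  simp only [id, W1, S]
  field_simp
  ring

lemma W1_deriv {e : ℝ} (he : e ≠ 0) (a : ℝ) :
    HasDerivAt (W1 e) (3 / 2 + Real.cos (e * a) / 2) a := by
  have h := (((hasDerivAt_id a).const_mul (3 / 2 : ℝ)).add ((S_deriv he a).div_const 2))
  refine h.congr_deriv ?_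
  simp

lemma w0_eq {e : ℝ} (he : e ≠ 0) (a : ℝ) : w0 e a = 3 / 4 * a ^ 2 + S e (a / 2) * S e (a / 2) := by
  have h : Real.cos (e * a) = 1 - 2 * Real.sin (e * (a / 2)) ^ 2 := by
    rw [show e * a = 2 * (e * (a / 2)) by ring, Real.cos_two_mul, Real.cos_sq']
    ring
  simp only [w0, S, h]
  field_simp
  ring

lemma eps_mul {E : Type} [NormedAddCommGroup E] [NormedSpace ℝ E] {k : ℕ}
    (hε0 : Tendsto ε l (𝓝 0)) {f : ι → E → ℝ} {g : E → ℝ} {x : E} (h : CV k l f g x) :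
    CV k l (fun i y => ε i * f i y) (fun _ => 0) x :=
  ((CV.cst hε0).mul h).congr (Eventually.of_forall fun _ => rfl)
    (Eventually.of_forall fun _ => by simp)

lemma cos_CV {E : Type} [NormedAddCommGroup E] [NormedSpace ℝ E] {k : ℕ}
    (hε0 : Tendsto ε l (𝓝 0)) {f : ι → E → ℝ} {g : E → ℝ} {x : E} (h : CV k l f g x) :
    CV k l (fun i y => Real.cos (ε i * f i y)) (fun _ => 1) x :=
  (eps_mul hε0 h).cos.congr (Eventually.of_forall fun _ => rfl)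
    (Eventually.of_forall fun _ => by simp)

lemma sin_CV {E : Type} [NormedAddCommGroup E] [NormedSpace ℝ E] {k : ℕ}
    (hε0 : Tendsto ε l (𝓝 0)) {f : ι → E → ℝ} {g : E → ℝ} {x : E} (h : CV k l f g x) :
    CV k l (fun i y => Real.sin (ε i * f i y)) (fun _ => 0) x :=
  (eps_mul hε0 h).sin.congr (Eventually.of_forall fun _ => rfl)
    (Eventually.of_forall fun _ => by simp)

lemma S_CV (hε : ∀ i, 0 < ε i) (hε0 : Tendsto ε l (𝓝 0)) (k : ℕ) (b : ℝ) :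
    CV k l (fun i => S (ε i)) (fun y => y) b := by
  have h0 : CV 0 l (fun i => S (ε i)) (fun y => y) b := by
    refine CV.zero (Eventually.of_forall fun p => (S_cd _).contDiffAt)
      (Eventually.of_forall fun _ => contDiffAt_id) ?_
    have t1 : Tendsto (fun p : ι × ℝ => p.2) (l ×ˢ 𝓝 b) (𝓝 b) := tendsto_snd
    have t2 : Tendsto (fun p : ι × ℝ => ε p.1 * p.2) (l ×ˢ 𝓝 b) (𝓝 (0 * b)) :=
      (hε0.comp tendsto_fst).mul t1
    have t3 := t1.mul ((Real.continuous_sinc.tendsto _).comp t2)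
    simp only [zero_mul, Real.sinc_zero, mul_one] at t3
    refine t3.congr fun p => ?_
    have he := (hε p.1).ne'
    by_cases hb : p.2 = 0
    · simp [S, hb]
    · simp only [Function.comp, S]
      rw [Real.sinc_of_ne_zero (mul_ne_zero he hb)]
      field_simp
  cases k with
  | zero => exact h0
  | succ k =>
    refine h0.of_deriv ?_
    refine (cos_CV hε0 (CV.id' (k := k) (x := b))).congr
      (Eventually.of_forall fun p => (S_deriv (hε p.1).ne' p.2).deriv.symm)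
      (Eventually.of_forall fun y => by simp)

section
variable {E : Type} [NormedAddCommGroup E] [NormedSpace ℝ E] {k : ℕ}
  {f f' : ι → E → ℝ} {g g' : E → ℝ} {x : E}

lemma S_CV' (hε : ∀ i, 0 < ε i) (hε0 : Tendsto ε l (𝓝 0)) (h : CV k l f g x) :
    CV k l (fun i y => S (ε i) (f i y)) g x := (S_CV hε hε0 k (g x)).comp h

lemma w0_CV' (hε : ∀ i, 0 < ε i) (hε0 : Tendsto ε l (𝓝 0)) (h : CV k l f g x) :
    CV k l (fun i y => w0 (ε i) (f i y)) (fun y => g y ^ 2) x := by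
  have h2 := S_CV' hε hε0 (h.post' (g := fun a : ℝ => a / 2) (by fun_prop))
  have h1 := h.post' (g := fun a : ℝ => 3 / 4 * a ^ 2) (by fun_prop)
  refine (h1.add (h2.mul h2)).congr
    (Eventually.of_forall fun p => (w0_eq (hε p.1).ne' _).symm)
    (Eventually.of_forall fun y => ?_)
  simp only
  ring

lemma W1_CV' (hε : ∀ i, 0 < ε i) (hε0 : Tendsto ε l (𝓝 0)) (h : CV k l f g x) :
    CV k l (fun i y => W1 (ε i) (f i y)) (fun y => 2 * g y) x := by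
  have h2 := (S_CV' hε hε0 h).post' (g := fun a : ℝ => a / 2) (by fun_prop)
  have h1 := h.post' (g := fun a : ℝ => 3 / 2 * a) (by fun_prop)
  refine (h1.add h2).congr (Eventually.of_forall fun p => rfl) (Eventually.of_forall fun y => ?_)
  simp only
  ring

lemma yf_CV (hε : ∀ i, 0 < ε i) (hε0 : Tendsto ε l (𝓝 0)) (h : CV k l f g x)
    (h' : CV k l f' g' x) :
    CV k l (fun i y => yf (ε i) (f i y) (f' i y)) (fun y => -(2 * g y)) x := by
  have h1 := (W1_CV' hε hε0 h).neg.mul (cos_CV hε0 h')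
  have h2 := (eps_mul hε0 (w0_CV' hε hε0 h)).mul (sin_CV hε0 h')
  refine (h1.sub h2).congr (Eventually.of_forall fun p => rfl) (Eventually.of_forall fun y => ?_)
  simp

lemma Ff_CV (hε : ∀ i, 0 < ε i) (hε0 : Tendsto ε l (𝓝 0)) (h : CV k l f g x)
    (h' : CV k l f' g' x) :
    CV k l (fun i y => Ff (ε i) (f i y) (f' i y)) (fun y => 2 * g y * g' y - g y ^ 2) x := by
  have h1 := (W1_CV' hε hε0 h).mul (S_CV' hε hε0 h')
  have h2 := (w0_CV' hε hε0 h).mul (cos_CV hε0 h')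
  refine (h1.sub h2).congr (Eventually.of_forall fun p => rfl) (Eventually.of_forall fun y => ?_)
  simp

lemma Gf_CV (hε : ∀ i, 0 < ε i) (hε0 : Tendsto ε l (𝓝 0)) (h : CV k l f g x)
    (h' : CV k l f' g' x) :
    CV k l (fun i y => Gf (ε i) (f i y) (f' i y)) (fun y => -2 * g' y) x := by
  have h0 := eps_mul hε0 h
  have h1 := h0.post' (g := fun a : ℝ => -(2 + 3 / 4 * a ^ 2)) (by fun_prop)
  refine (h1.mul (S_CV' hε hε0 h')).congr (Eventually.of_forall fun p => ?_)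
    (Eventually.of_forall fun y => ?_)
  · simp only [Gf]
    ring
  · simp

end

/-- primitives of a function that is smooth on an open interval -/
lemma prim_loc {f : ℝ → ℝ} {c d a : ℝ} (ha : a ∈ Ioo c d)
    (hf : ∀ y ∈ Ioo c d, ContDiffAt ℝ ∞ f y) {x : ℝ} (hx : x ∈ Ioo c d) :
    HasDerivAt (fun u => ∫ t in a..u, f t) (f x) x ∧
      ContDiffAt ℝ ∞ (fun u => ∫ t in a..u, f t) x := by
  have hc : ContinuousOn f (Ioo c d) := fun y hy => (hf y hy).continuousAt.continuousWithinAt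
  have key : ∀ x ∈ Ioo c d, HasDerivAt (fun u => ∫ t in a..u, f t) (f x) x := fun x hx =>
    intervalIntegral.integral_hasDerivAt_right
      ((hc.mono (ordConnected_Ioo.uIcc_subset ha hx)).intervalIntegrable)
      (hc.stronglyMeasurableAtFilter isOpen_Ioo x hx) (hf x hx).continuousAt
  refine ⟨key x hx, ?_⟩
  have h : ContDiffOn ℝ ∞ (fun u => ∫ t in a..u, f t) (Ioo c d) := by
    rw [contDiffOn_infty_iff_deriv_of_isOpen isOpen_Ioo]
    refine ⟨fun y hy => (key y hy).differentiableAt.differentiableWithinAt, ?_⟩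
    refine ContDiffOn.congr (f := f) (fun y hy => (hf y hy).contDiffWithinAt) ?_
    exact fun y hy => (key y hy).deriv
  exact h.contDiffAt (isOpen_Ioo.mem_nhds hx)

lemma nhd_Icc {a1 a4 : ℝ} (h : a1 ≤ a4) {V : Set ℝ} (hV : V ∈ 𝓝ˢ (Icc a1 a4)) :
    ∃ c d, c < a1 ∧ a4 < d ∧ Ioo c d ⊆ V := by
  obtain ⟨c, hc, h1⟩ := (mem_nhds_iff_exists_Ioo_subset.1
    (mem_nhdsSet_iff_forall.1 hV a1 ⟨le_rfl, h⟩))
  obtain ⟨c', d, hd, h2⟩ := (mem_nhds_iff_exists_Ioo_subset.1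
    (mem_nhdsSet_iff_forall.1 hV a4 ⟨h, le_rfl⟩))
  refine ⟨c, d, h1.1.1, hd.2, fun y hy => ?_⟩
  by_cases h3 : y < a1
  · exact h1.2 ⟨hy.1, h3.trans h1.1.2⟩
  by_cases h4 : a4 < y
  · exact h2 ⟨hd.1.trans h4, hy.2⟩
  exact subset_of_mem_nhdsSet hV ⟨not_lt.1 h3, not_lt.1 h4⟩

/-- convergence of primitives -/
lemma prim_CV {k : ℕ} {a1 a4 : ℝ} (h14 : a1 ≤ a4) {f : ι → ℝ → ℝ} {g : ℝ → ℝ}
    (h : ∀ a ∈ Icc a1 a4, CV k l f g a) {a : ℝ} (ha : a ∈ Icc a1 a4) :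
    CV (k + 1) l (fun i u => ∫ t in a1..u, f i t) (fun u => ∫ t in a1..u, g t) a ∧
      ∀ᶠ p : ι × ℝ in l ×ˢ 𝓝 a, HasDerivAt (fun u => ∫ t in a1..u, f p.1 t) (f p.1 p.2) p.2 := by
  have key : ∀ e : ℝ, 0 < e → ∃ c d, c < a1 ∧ a4 < d ∧ (∀ y ∈ Ioo c d, ContDiffAt ℝ ∞ g y) ∧
      ∀ᶠ i in l, ∀ y ∈ Ioo c d, ContDiffAt ℝ ∞ (f i) y ∧ ‖f i y - g y‖ ≤ e := by
    intro e he
    obtain ⟨V, hV, H⟩ := ev_compact (l := l) isCompact_Icc
      (P := fun i y => ContDiffAt ℝ ∞ (f i) y ∧ ‖f i y - g y‖ ≤ e)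
      fun x hx => (h x hx).sm.and ((h x hx).close he)
    have hW : {y | ContDiffAt ℝ ∞ g y} ∈ 𝓝ˢ (Icc a1 a4) :=
      mem_nhdsSet_iff_forall.2 fun x hx => (h x hx).smg
    obtain ⟨c, d, hc, hd, hs⟩ := nhd_Icc h14 (inter_mem hV hW)
    exact ⟨c, d, hc, hd, fun y hy => (hs hy).2, H.mono fun i hi y hy => hi y (hs hy).1⟩
  obtain ⟨c, d, hc, hd, hg, H⟩ := key 1 one_pos
  have h1 : a1 ∈ Ioo c d := ⟨hc, h14.trans_lt hd⟩
  have hn : Ioo c d ∈ 𝓝 a := Ioo_mem_nhds (hc.trans_le ha.1) (ha.2.trans_lt hd)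
  have A : ∀ᶠ p : ι × ℝ in l ×ˢ 𝓝 a,
      HasDerivAt (fun u => ∫ t in a1..u, f p.1 t) (f p.1 p.2) p.2 ∧
      ContDiffAt ℝ ∞ (fun u => ∫ t in a1..u, f p.1 t) p.2 := by
    filter_upwards [ev_fst (x := a) H, ev_snd (l := l) (P := fun y => y ∈ Ioo c d) hn] with p p1 p2
    exact prim_loc h1 (fun y hy => (p1 y hy).1) p2
  have B : ∀ᶠ y in 𝓝 a, HasDerivAt (fun u => ∫ t in a1..u, g t) (g y) y ∧
      ContDiffAt ℝ ∞ (fun u => ∫ t in a1..u, g t) y :=
    eventually_of_mem hn fun y hy => prim_loc h1 hg hy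
  refine ⟨?_, A.mono fun _ hp => hp.1⟩
  refine CV.of_deriv ?_ ((h a ha).congr (A.mono fun p hp => hp.1.deriv.symm)
    (B.mono fun y hy => hy.1.deriv.symm))
  refine CV.of_close (A.mono fun _ hp => hp.2) (B.mono fun _ hp => hp.2) fun e he => ?_
  have hcd : 0 < d - c := by linarith [h1.1, h1.2]
  obtain ⟨c', d', hc', hd', hg', H'⟩ := key (e / (d - c)) (div_pos he hcd)
  have h1' : a1 ∈ Ioo c' d' := ⟨hc', h14.trans_lt hd'⟩
  have hn' : Ioo c' d' ∈ 𝓝 a := Ioo_mem_nhds (hc'.trans_le ha.1) (ha.2.trans_lt hd')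
  filter_upwards [ev_fst (x := a) H', ev_snd (l := l) (P := fun y => y ∈ Ioo c d) hn,
    ev_snd (l := l) (P := fun y => y ∈ Ioo c' d') hn'] with p p1 p2 p3
  have hs : uIcc a1 p.2 ⊆ Ioo c' d' := ordConnected_Ioo.uIcc_subset h1' p3
  have i1 : IntervalIntegrable (f p.1) volume a1 p.2 :=
    ContinuousOn.intervalIntegrable fun y hy =>
      (p1 y (hs hy)).1.continuousAt.continuousWithinAt
  have i2 : IntervalIntegrable g volume a1 p.2 :=
    ContinuousOn.intervalIntegrable fun y hy => (hg' y (hs hy)).continuousAt.continuousWithinAt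
  rw [← intervalIntegral.integral_sub i1 i2]
  refine (intervalIntegral.norm_integral_le_of_norm_le_const
    (C := e / (d - c)) fun y hy => (p1 y (hs (uIoc_subset_uIcc hy))).2).trans ?_
  have : |p.2 - a1| ≤ d - c := abs_le.2 ⟨by linarith [p2.1, h1.2], by linarith [p2.2, h1.1]⟩
  calc e / (d - c) * |p.2 - a1| ≤ e / (d - c) * (d - c) := by gcongr
    _ = e := by field_simp

/-- the eikonal along the curve `a + i u a` -/
def sf (e a1 : ℝ) (u : ℝ → ℝ) (a : ℝ) : ℝ := Ff e a (u a) + ∫ t in a1..a, Gf e t (u t)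

lemma sf_deriv {e a1 a u' : ℝ} (he : e ≠ 0) {u : ℝ → ℝ} (hu : HasDerivAt u u' a)
    (hI : HasDerivAt (fun x => ∫ t in a1..x, Gf e t (u t)) (Gf e a (u a)) a) :
    HasDerivAt (sf e a1 u) (yf e a (u a) * (1 - u')) a := by
  have h1 := (W1_deriv he a).mul ((S_deriv he (u a)).comp a hu)
  have h2 := (w0_deriv he a).mul ((hu.const_mul e).cos)
  refine ((h1.sub h2).add hI).congr_deriv ?_
  simp only [Function.comp, yf, Gf, w0, S]
  field_simp
  ring

lemma sf_CV (hε : ∀ i, 0 < ε i) (hε0 : Tendsto ε l (𝓝 0)) {a1 a4 : ℝ} (h14 : a1 ≤ a4)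
    {u : ι → ℝ → ℝ} {u0 : ℝ → ℝ} (h : ∀ a ∈ Icc a1 a4, CV 2 l u u0 a) {a : ℝ}
    (ha : a ∈ Icc a1 a4) :
    CV 2 l (fun i => sf (ε i) a1 (u i))
      (fun x => 2 * x * u0 x - x ^ 2 + ∫ t in a1..x, -2 * u0 t) a ∧
    ∀ᶠ p : ι × ℝ in l ×ˢ 𝓝 a, HasDerivAt (u p.1) (deriv (u p.1) p.2) p.2 ∧
      HasDerivAt (sf (ε p.1) a1 (u p.1))
        (yf (ε p.1) p.2 (u p.1 p.2) * (1 - deriv (u p.1) p.2)) p.2 := by
  obtain ⟨h1, h2⟩ := prim_CV h14 (fun x hx => Gf_CV hε hε0 CV.id' (h x hx)) ha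
  refine ⟨(Ff_CV hε hε0 CV.id' (h a ha)).add h1.pred, ?_⟩
  filter_upwards [h2, (h a ha).sm] with p p1 p2
  exact ⟨(cd_diff p2).hasDerivAt, sf_deriv (hε p.1).ne' (cd_diff p2).hasDerivAt p1⟩

lemma Inc_eq (e : ℝ) (w : ℝ → ℝ) (a b : ℝ) : Inc e (Real.pi / 2) w (a + b * I) =
    ((a - b : ℝ) : ℂ) +
      ((-deriv w a * Real.cos (e * b) - e * w a * Real.sin (e * b) : ℝ) : ℂ) * I := by
  have h1 : ((a : ℂ) + b * I).re = a := by simp
  have h2 : ((a : ℂ) + b * I).im = b := by simp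
  simp only [Inc, h1, h2]
  rw [add_comm (Real.pi / 2), Real.sin_add_pi_div_two, Real.cos_add_pi_div_two]
  congr 3
  ring

lemma Inc_w0 {e : ℝ} (he : e ≠ 0) (a b : ℝ) : Inc e (Real.pi / 2) (w0 e) (a + b * I) =
    ((a - b : ℝ) : ℂ) + ((yf e a b : ℝ) : ℂ) * I := by
  rw [Inc_eq, (w0_deriv he a).deriv]
  rfl

end

end Mc

end Pool.Agent.Lib.MP_0281e9_an
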