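import Pool.Agent.Lib.MP_0281e9_an.Base
import Pool.Agent.Lib.MP_0281e9_an.Conv

namespace Pool.Agent.Lib.MP_0281e9_an.BM

open Set Filter Complex MeasureTheory Topology
open scoped ContDiff ComplexConjugate

noncomputable section

lemma det_eq (L : ℂ →L[ℝ] ℂ) : L.det = (L 1).re * (L I).im - (L I).re * (L 1).im := by
  rw [ContinuousLinearMap.det, ← LinearMap.det_toMatrix basisOneI, Matrix.det_fin_two]
  simp [LinearMap.toMatrix_apply]

lemma det_comp' (A B : ℂ →L[ℝ] ℂ) : (A.comp B).det = A.det * B.det :=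
  LinearMap.det_comp (A : ℂ →ₗ[ℝ] ℂ) (B : ℂ →ₗ[ℝ] ℂ)

lemma det_ne_iff (L : ℂ →L[ℝ] ℂ) : L.det ≠ 0 ↔ Function.Injective L := by
  constructor
  · intro h
    exact (L.toContinuousLinearEquivOfDetNeZero h).injective
  · intro h
    have hb : Function.Bijective (L : ℂ →ₗ[ℝ] ℂ) :=
      ⟨h, LinearMap.injective_iff_surjective.1 h⟩
    exact (LinearEquiv.isUnit_det' (LinearEquiv.ofBijective _ hb)).ne_zero

lemma det_mat (a b c d : ℝ) : (mat a b c d).det = a * d - b * c := by
  rw [det_eq]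
  simp

/-- Jacobian determinant -/
def J (f : ℂ → ℂ) (z : ℂ) : ℝ := (fderiv ℝ f z).det

lemma J_comp {f g : ℂ → ℂ} {z : ℂ} (hg : DifferentiableAt ℝ g (f z))
    (hf : DifferentiableAt ℝ f z) : J (fun y => g (f y)) z = J g (f z) * J f z := by
  unfold J
  rw [← det_comp', ← fderiv_comp z hg hf]
  rfl

lemma J_congr {f g : ℂ → ℂ} {z : ℂ} (h : f =ᶠ[𝓝 z] g) : J f z = J g z := by
  unfold J
  rw [h.fderiv_eq]

lemma J_id (z : ℂ) : J (fun y => y) z = 1 := by
  unfold J
  rw [fderiv_fun_id, det_eq]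
  simp

lemma J_smooth {f : ℂ → ℂ} {z : ℂ} (h : ContDiffAt ℝ ∞ f z) : ContDiffAt ℝ ∞ (J f) z := by
  have h1 := cd_fderiv h
  have e : J f = fun y => (fderiv ℝ f y 1).re * (fderiv ℝ f y I).im -
      (fderiv ℝ f y I).re * (fderiv ℝ f y 1).im := funext fun y => det_eq _
  have a1 : ContDiffAt ℝ ∞ (fun y => fderiv ℝ f y 1) z := h1.clm_apply contDiffAt_const
  have a2 : ContDiffAt ℝ ∞ (fun y => fderiv ℝ f y I) z := h1.clm_apply contDiffAt_const
  rw [e]
  exact ((reCLM.contDiff.contDiffAt.comp z a1).mul (imCLM.contDiff.contDiffAt.comp z a2)).sub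
    ((reCLM.contDiff.contDiffAt.comp z a2).mul (imCLM.contDiff.contDiffAt.comp z a1))

lemma J_holo {f : ℂ → ℂ} {f' z : ℂ} (h : HasDerivAt f f' z) : J f z = normSq f' := by
  unfold J
  rw [(h.hasFDerivAt.restrictScalars ℝ).fderiv, det_eq]
  simp [normSq_apply]

lemma J_affine (L : ℂ →L[ℝ] ℂ) (c z : ℂ) : J (fun y => L y + c) z = L.det := by
  unfold J
  rw [(L.hasFDerivAt.add_const c).fderiv]

lemma J_clm (L : ℂ →L[ℝ] ℂ) (z : ℂ) : J L z = L.det := by
  unfold J
  rw [L.fderiv]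

lemma locinv {f : ℂ → ℂ} {x : ℂ} (h : ContDiffAt ℝ ∞ f x) (hJ : J f x ≠ 0) :
    ∃ ψ : ℂ → ℂ, ContDiffAt ℝ ∞ ψ (f x) ∧ ψ (f x) = x ∧ ∀ᶠ y in 𝓝 (f x), f (ψ y) = y := by
  have hd : HasFDerivAt f
      ((fderiv ℝ f x).toContinuousLinearEquivOfDetNeZero hJ : ℂ →L[ℝ] ℂ) x := by
    rw [ContinuousLinearMap.coe_toContinuousLinearEquivOfDetNeZero]
    exact (cd_diff h).hasFDerivAt
  have hn : (∞ : WithTop ℕ∞) ≠ 0 := by simp
  exact ⟨h.localInverse hd hn, h.to_localInverse hd hn, h.localInverse_apply_image hd hn,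
    (h.hasStrictFDerivAt' hd hn).eventually_right_inverse⟩

/-- local inverse with values in a prescribed neighbourhood -/
lemma locinv' {f : ℂ → ℂ} {x : ℂ} (h : ContDiffAt ℝ ∞ f x) (hJ : J f x ≠ 0) {S : Set ℂ}
    (hS : S ∈ 𝓝 x) : ∃ ψ : ℂ → ℂ, ContDiffAt ℝ ∞ ψ (f x) ∧ ψ (f x) = x ∧
      ∀ᶠ y in 𝓝 (f x), ψ y ∈ S ∧ f (ψ y) = y := by
  obtain ⟨ψ, h1, h2, h3⟩ := locinv h hJ
  refine ⟨ψ, h1, h2, Eventually.and ?_ h3⟩
  exact h1.continuousAt.eventually (h2.symm ▸ hS)

lemma glob_inv {f : ℂ → ℂ} (h : ContDiff ℝ ∞ f) (hb : Function.Bijective f)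
    (hJ : ∀ z, J f z ≠ 0) :
    ∃ g : ℂ → ℂ, ContDiff ℝ ∞ g ∧ Function.LeftInverse g f ∧ Function.RightInverse g f := by
  obtain ⟨g, hl, hr⟩ := Function.bijective_iff_has_inverse.1 hb
  refine ⟨g, contDiff_iff_contDiffAt.2 fun y => ?_, hl, hr⟩
  obtain ⟨x, rfl⟩ := hb.2 y
  obtain ⟨ψ, h1, -, h3⟩ := locinv h.contDiffAt (hJ x)
  refine h1.congr_of_eventuallyEq (h3.mono fun y hy => ?_)
  conv_lhs => rw [← hy]
  exact hl _

lemma J_mul_inv {f g : ℂ → ℂ} (hf : ContDiff ℝ ∞ f) (hg : ContDiff ℝ ∞ g)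
    (hl : Function.LeftInverse g f) (z : ℂ) : J g (f z) * J f z = 1 := by
  rw [← J_comp (cd_diff hg.contDiffAt) (cd_diff hf.contDiffAt), ← J_id z]
  exact J_congr (Eventually.of_forall hl)

lemma J_pos {f g : ℂ → ℂ} (hf : ContDiff ℝ ∞ f) (hg : ContDiff ℝ ∞ g)
    (hl : Function.LeftInverse g f) {z0 : ℂ} (h0 : 0 < J f z0) (z : ℂ) : 0 < J f z := by
  by_contra hz
  have hc : Continuous (J f) :=
    continuous_iff_continuousAt.2 fun y => (J_smooth hf.contDiffAt).continuousAt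
  obtain ⟨y, hy⟩ := intermediate_value_univ z z0 hc ⟨not_lt.1 hz, h0.le⟩
  have := J_mul_inv hf hg hl y
  rw [hy, mul_zero] at this
  exact zero_ne_one this

lemma contDiff_param_nat {E : Type} [NormedAddCommGroup E] [NormedSpace ℝ E] [ProperSpace E]
    (n : ℕ) : ∀ {F : Type} [NormedAddCommGroup F] [NormedSpace ℝ F] [CompleteSpace F]
      (f : E × ℝ → F), ContDiff ℝ ∞ f → ContDiff ℝ n fun x => ∫ t in (0 : ℝ)..1, f (x, t) := by
  induction n with
  | zero =>
    intro F _ _ _ f hf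
    rw [Nat.cast_zero, contDiff_zero]
    exact intervalIntegral.continuous_parametric_intervalIntegral_of_continuous'
      (f := fun x t => f (x, t)) hf.continuous 0 1
  | succ n ih =>
    intro F _ _ _ f hf
    let f' : E × ℝ → E →L[ℝ] F := fun p => (fderiv ℝ f p).comp (ContinuousLinearMap.inl ℝ E ℝ)
    have hf' : ContDiff ℝ ∞ f' :=
      (hf.fderiv_right (m := ∞) (by exact_mod_cast le_rfl)).clm_comp contDiff_const
    have hd : ∀ x t, HasFDerivAt (fun x => f (x, t)) (f' (x, t)) x := fun x t =>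
      (cd_diff hf.contDiffAt).hasFDerivAt.comp x (hasFDerivAt_prodMk_left x t)
    have key : ∀ x, HasFDerivAt (fun x => ∫ t in (0 : ℝ)..1, f (x, t))
        (∫ t in (0 : ℝ)..1, f' (x, t)) x := by
      intro x
      obtain ⟨C, hC⟩ := ((isCompact_closedBall x 1).prod (isCompact_uIcc (a := (0 : ℝ))
        (b := 1))).exists_bound_of_continuousOn hf'.continuous.continuousOn
      have c1 : ∀ y, Continuous fun t => f (y, t) := fun y =>
        hf.continuous.comp (Continuous.prodMk_right y)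
      have c2 : Continuous fun t => f' (x, t) := hf'.continuous.comp (Continuous.prodMk_right x)
      refine intervalIntegral.hasFDerivAt_integral_of_dominated_of_fderiv_le
        (F := fun x t => f (x, t)) (F' := fun x t => f' (x, t)) (bound := fun _ => C)
        (Metric.closedBall_mem_nhds x one_pos)
        (Eventually.of_forall fun y => (c1 y).aestronglyMeasurable)
        ((c1 x).intervalIntegrable _ _) c2.aestronglyMeasurable
        (Eventually.of_forall fun t ht y hy => hC (y, t) ⟨hy, uIoc_subset_uIcc ht⟩)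
        intervalIntegrable_const (Eventually.of_forall fun t _ y _ => hd y t)
    rw [Nat.cast_succ, contDiff_succ_iff_fderiv]
    refine ⟨fun x => (key x).differentiableAt, by simp, ?_⟩
    have : fderiv ℝ (fun x => ∫ t in (0 : ℝ)..1, f (x, t)) =
        fun x => ∫ t in (0 : ℝ)..1, f' (x, t) := funext fun x => (key x).fderiv
    rw [this]
    exact ih f' hf'

lemma contDiff_param {E : Type} [NormedAddCommGroup E] [NormedSpace ℝ E] [ProperSpace E]
    {f : E × ℝ → ℝ} (hf : ContDiff ℝ ∞ f) :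
    ContDiff ℝ ∞ fun x => ∫ t in (0 : ℝ)..1, f (x, t) :=
  contDiff_infty.2 fun n => contDiff_param_nat n f hf

/-- vertical primitive -/
def prim (m : ℂ → ℝ) (x y : ℝ) : ℝ := ∫ t in (0 : ℝ)..y, m (x + t * I)

def kap (m : ℂ → ℝ) (c : ℝ → ℝ) (w : ℂ) : ℂ :=
  (w.re : ℂ) + ((prim m w.re w.im - c w.re : ℝ) : ℂ) * I

@[simp] lemma kap_re (m : ℂ → ℝ) (c : ℝ → ℝ) (w : ℂ) : (kap m c w).re = w.re := by simp [kap]

@[simp] lemma kap_im (m : ℂ → ℝ) (c : ℝ → ℝ) (w : ℂ) :
    (kap m c w).im = prim m w.re w.im - c w.re := by simp [kap]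

lemma cont_line {m : ℂ → ℝ} (hm : Continuous m) (x : ℝ) :
    Continuous fun t : ℝ => m (x + t * I) := hm.comp (by fun_prop)

lemma prim_smooth {m : ℂ → ℝ} (hm : ContDiff ℝ ∞ m) :
    ContDiff ℝ ∞ fun w : ℂ => prim m w.re w.im := by
  have e : (fun w : ℂ => prim m w.re w.im) =
      fun w : ℂ => w.im * ∫ t in (0 : ℝ)..1, m (w.re + ((w.im * t : ℝ) : ℂ) * I) := by
    funext w
    have := intervalIntegral.smul_integral_comp_mul_left (a := 0) (b := 1)
      (fun t : ℝ => m (w.re + t * I)) w.im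
    simp only [mul_zero, mul_one, smul_eq_mul] at this
    rw [this, prim]
  rw [e]
  have hre : ContDiff ℝ ∞ fun w : ℂ => w.re := reCLM.contDiff
  have him : ContDiff ℝ ∞ fun w : ℂ => w.im := imCLM.contDiff
  refine him.mul (contDiff_param
    (f := fun p : ℂ × ℝ => m (p.1.re + ((p.1.im * p.2 : ℝ) : ℂ) * I)) (hm.comp ?_))
  exact (ofRealCLM.contDiff.comp (hre.comp contDiff_fst)).add
    ((ofRealCLM.contDiff.comp ((him.comp contDiff_fst).mul contDiff_snd)).mul contDiff_const)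

lemma prim_deriv {m : ℂ → ℝ} (hm : Continuous m) (x y : ℝ) :
    HasDerivAt (prim m x) (m (x + y * I)) y :=
  intervalIntegral.integral_hasDerivAt_right ((cont_line hm x).intervalIntegrable _ _)
    ((cont_line hm x).stronglyMeasurableAtFilter _ _) (cont_line hm x).continuousAt

lemma kap_smooth {m : ℂ → ℝ} {c : ℝ → ℝ} (hm : ContDiff ℝ ∞ m) (hc : ContDiff ℝ ∞ c) :
    ContDiff ℝ ∞ (kap m c) := by
  have hre : ContDiff ℝ ∞ fun w : ℂ => w.re := reCLM.contDiff
  exact (ofRealCLM.contDiff.comp hre).add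
    ((ofRealCLM.contDiff.comp ((prim_smooth hm).sub (hc.comp hre))).mul contDiff_const)

lemma kap_J {m : ℂ → ℝ} {c : ℝ → ℝ} (hm : ContDiff ℝ ∞ m) (hc : ContDiff ℝ ∞ c) (w : ℂ) :
    J (kap m c) w = m w := by
  have hd := (cd_diff (kap_smooth hm hc).contDiffAt : DifferentiableAt ℝ (kap m c) w).hasFDerivAt
  have h1 : reCLM.comp (fderiv ℝ (kap m c) w) = reCLM := by
    have a := reCLM.hasFDerivAt.comp w hd
    have e : (⇑reCLM ∘ kap m c) = reCLM := funext fun z => by simp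
    rw [e] at a
    exact a.unique reCLM.hasFDerivAt
  have r1 : (fderiv ℝ (kap m c) w 1).re = 1 := by simpa using DFunLike.congr_fun h1 1
  have r2 : (fderiv ℝ (kap m c) w I).re = 0 := by simpa using DFunLike.congr_fun h1 I
  have hl : HasDerivAt (fun t : ℝ => (w.re : ℂ) + (t : ℂ) * I) I w.im := by
    simpa using ((ofRealCLM.hasDerivAt (x := w.im)).mul_const I).const_add (w.re : ℂ)
  have h2 : HasDerivAt (fun t : ℝ => (kap m c ((w.re : ℂ) + (t : ℂ) * I)).im)
      (fderiv ℝ (kap m c) w I).im w.im := by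
    have hd' : HasFDerivAt (kap m c) (fderiv ℝ (kap m c) w) ((w.re : ℂ) + (w.im : ℂ) * I) := by
      rwa [re_add_im]
    exact imCLM.hasFDerivAt.comp_hasDerivAt w.im (hd'.comp_hasDerivAt w.im hl)
  have h3 : HasDerivAt (fun t : ℝ => (kap m c ((w.re : ℂ) + (t : ℂ) * I)).im) (m w) w.im := by
    have := (prim_deriv hm.continuous w.re w.im).sub_const (c w.re)
    rw [re_add_im] at this
    simpa using this
  rw [J, det_eq, r1, r2, h2.unique h3]
  ring

lemma kap_bij {m : ℂ → ℝ} (c : ℝ → ℝ) (hm : Continuous m) (hp : ∀ w, 0 < m w) {R : ℝ}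
    (hR : ∀ w, R ≤ ‖w‖ → m w = 1) : Function.Bijective (kap m c) := by
  obtain ⟨μ, hμ, hle⟩ : ∃ μ : ℝ, 0 < μ ∧ ∀ w, μ ≤ m w := by
    obtain ⟨w0, -, h0⟩ := (isCompact_closedBall (0 : ℂ) |R|).exists_isMinOn
      ⟨0, by simp⟩ hm.continuousOn
    refine ⟨min 1 (m w0), lt_min one_pos (hp _), fun w => ?_⟩
    by_cases hw : R ≤ ‖w‖
    · rw [hR w hw]
      exact min_le_left _ _
    · refine (min_le_right _ _).trans (h0 ?_)
      simpa using (not_le.1 hw).le.trans (le_abs_self R)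
  have mono : ∀ x, StrictMono (prim m x) := fun x =>
    strictMono_of_deriv_pos fun y => by rw [(prim_deriv hm x y).deriv]; exact hp _
  have mono2 : ∀ x, Monotone fun y => prim m x y - μ * y := fun x => by
    have hd : ∀ y : ℝ, HasDerivAt (fun y => prim m x y - μ * y) (m (x + y * I) - μ) y :=
      fun y => ((prim_deriv hm x y).sub ((hasDerivAt_id y).const_mul μ)).congr_deriv (by simp)
    exact monotone_of_deriv_nonneg (fun y => (hd y).differentiableAt) fun y => by
      rw [(hd y).deriv]; exact sub_nonneg.2 (hle _)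
  have p0 : ∀ x, prim m x 0 = 0 := fun x => by simp [prim]
  have surj : ∀ x, Function.Surjective (prim m x) := fun x => by
    refine Continuous.surjective
      (continuous_iff_continuousAt.2 fun y => (prim_deriv hm x y).continuousAt) ?_ ?_
    · refine tendsto_atTop_mono' _ ?_ (tendsto_id.const_mul_atTop hμ)
      filter_upwards [eventually_ge_atTop 0] with y hy
      have := mono2 x hy
      simp only [p0, mul_zero, sub_zero] at this
      simp only [id]
      linarith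
    · refine tendsto_atBot_mono' _ ?_ (tendsto_id.const_mul_atBot hμ)
      filter_upwards [eventually_le_atBot 0] with y hy
      have := mono2 x hy
      simp only [p0, mul_zero, sub_zero] at this
      simp only [id]
      linarith
  constructor
  · intro a b hab
    have h1 : a.re = b.re := by simpa using congrArg re hab
    have h2 := congrArg im hab
    rw [kap_im, kap_im, h1, sub_left_inj] at h2
    exact Complex.ext h1 ((mono _).injective h2)
  · intro w
    obtain ⟨y, hy⟩ := surj w.re (w.im + c w.re)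
    refine ⟨w.re + y * I, Complex.ext (by simp) ?_⟩
    simp [hy]

lemma kap_inv {m : ℂ → ℝ} {c : ℝ → ℝ} (hm : ContDiff ℝ ∞ m) (hc : ContDiff ℝ ∞ c)
    (hp : ∀ w, 0 < m w) {R : ℝ} (hR : ∀ w, R ≤ ‖w‖ → m w = 1) :
    ∃ g : ℂ → ℂ, ContDiff ℝ ∞ g ∧ Function.LeftInverse g (kap m c) ∧
      Function.RightInverse g (kap m c) :=
  glob_inv (kap_smooth hm hc) (kap_bij c hm.continuous hp hR) fun z => by
    rw [kap_J hm hc]; exact (hp z).ne'

lemma prim_neg (m : ℂ → ℝ) (x y : ℝ) : prim m x (-y) = -prim (fun w => m (conj w)) x y := by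
  have := intervalIntegral.integral_comp_neg (a := 0) (b := y) (fun t : ℝ => m (x + t * I))
  rw [neg_zero] at this
  rw [prim, prim, intervalIntegral.integral_symm, ← this]
  simp

lemma kap_conj {m : ℂ → ℝ} (hm : ∀ w, m (conj w) = m w) (w : ℂ) :
    kap m 0 (conj w) = conj (kap m 0 w) := by
  apply Complex.ext
  · simp
  · simp [prim_neg, hm]

end

end Pool.Agent.Lib.MP_0281e9_an.BM
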