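import Pool.Agent.Lib.MP_0281e9_an.ModelA

namespace Pool.Agent.Lib.MP_0281e9_an.BM

open Set Filter Complex MeasureTheory Topology
open scoped ContDiff ComplexConjugate

noncomputable section

/-- the facts on the radial map used here -/
structure RF : Prop where
  add : ∀ z m n, Erad 0 (z + 2 * lp m n) = Erad 0 z + 2 * lp m n
  neg : ∀ z, Erad 0 (-z) = -Erad 0 z
  cj : ∀ z, Erad 0 (conj z) = conj (Erad 0 z)
  near : ∀ m n z, ‖z‖ < 1 / 2 → Erad 0 (lp m n + z) = lp m n + rad 0 z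
  maps : MapsTo (Erad 0) U U
  inj : InjOn (Erad 0) U
  smooth : ∀ z ∈ U, ContDiffAt ℝ ∞ (Erad 0) z ∧ Function.Injective (fderiv ℝ (Erad 0) z)
  image : ∀ w, w ∈ Erad 0 '' U ↔ del < normSq (fr w)

@[simp] lemma lp_re (m n : ℤ) : (lp m n).re = m := by simp [lp]
@[simp] lemma lp_im (m n : ℤ) : (lp m n).im = n := by simp [lp]

lemma lp_add (m n a b : ℤ) : lp m n + 2 * lp a b = lp (m + 2 * a) (n + 2 * b) := by
  apply Complex.ext <;> simp

lemma lp_neg (m n : ℤ) : -lp m n = lp (-m) (-n) := by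
  apply Complex.ext <;> simp

lemma round_near (m : ℤ) {x : ℝ} (hx : |x| < 1 / 2) : round ((m : ℝ) + x) = m := by
  rw [round_intCast_add, round_eq_zero_iff.2 ⟨(abs_lt.1 hx).1.le, (abs_lt.1 hx).2⟩, add_zero]

lemma lat_near (m n : ℤ) {w : ℂ} (hw : ‖w‖ < 1 / 2) : lat (lp m n + w) = lp m n := by
  unfold lat
  rw [add_re, add_im, lp_re, lp_im, round_near m ((abs_re_le_norm w).trans_lt hw),
    round_near n ((abs_im_le_norm w).trans_lt hw)]

lemma fr_near (m n : ℤ) {w : ℂ} (hw : ‖w‖ < 1 / 2) : fr (lp m n + w) = w := by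
  rw [fr, lat_near m n hw, add_sub_cancel_left]

lemma norm_lt_of_normSq {w : ℂ} {r : ℝ} (hr : 0 ≤ r) (h : normSq w < r ^ 2) : ‖w‖ < r := by
  rw [normSq_eq_norm_sq] at h
  exact lt_of_pow_lt_pow_left₀ 2 hr h

lemma isOpen_U : IsOpen U := by
  have h := Int.isClosedEmbedding_coe_real.isClosed_range
  have : U = (re ⁻¹' range ((↑) : ℤ → ℝ) ∩ im ⁻¹' range ((↑) : ℤ → ℝ))ᶜ := by
    ext z
    simp [U, eq_comm]
  rw [this]
  exact ((h.preimage continuous_re).inter (h.preimage continuous_im)).isOpen_compl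

lemma mem_U_iff {z : ℂ} : z ∈ U ↔ ∀ m n, z ≠ lp m n := by
  constructor
  · rintro h m n rfl
    exact h ⟨⟨m, by simp⟩, n, by simp⟩
  · rintro h ⟨⟨m, hm⟩, n, hn⟩
    exact h m n (Complex.ext (by simpa using hm) (by simpa using hn))

lemma near_mem_U (m n : ℤ) {z : ℂ} (h0 : z ≠ 0) (hz : ‖z‖ < 1 / 2) : lp m n + z ∈ U := by
  refine mem_U_iff.2 fun a b h => h0 ?_
  have h1 := fr_near m n hz
  have h2 := fr_near a b (w := 0) (by simp)
  rw [add_zero, ← h, h1] at h2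
  exact h2

lemma U_add {z : ℂ} (h : z ∈ U) (m n : ℤ) : z + 2 * lp m n ∈ U := by
  refine mem_U_iff.2 fun a b hab => mem_U_iff.1 h (a + 2 * -m) (b + 2 * -n) ?_
  rw [← lp_add, ← hab, ← lp_neg]
  ring

lemma U_neg {z : ℂ} (h : z ∈ U) : -z ∈ U := by
  refine mem_U_iff.2 fun a b hab => mem_U_iff.1 h (-a) (-b) ?_
  rw [← lp_neg, ← hab, neg_neg]

lemma U_conj {z : ℂ} (h : z ∈ U) : conj z ∈ U := by
  rintro ⟨⟨m, hm⟩, n, hn⟩
  refine h ⟨⟨m, by simpa using hm⟩, -n, ?_⟩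
  have : -z.im = n := by simpa using hn
  push_cast
  linarith

lemma U_rel {z z' : ℂ} (h : z ∈ U) (hr : Rel z z') : z' ∈ U := by
  obtain ⟨m, n, rfl | rfl⟩ := hr
  · exact U_add h m n
  · exact U_add (U_neg h) m n

/-- the plane minus the doubled lattice -/
def V : Set ℂ := {z | ∀ m n, z ≠ 2 * lp m n}

lemma U_sub_V : U ⊆ V := fun z hz m n h => mem_U_iff.1 hz (0 + 2 * m) (0 + 2 * n) (by
  rw [← lp_add, h]; simp [lp])

lemma Rel.refl' (z : ℂ) : Rel z z := ⟨0, 0, Or.inl (by simp [lp])⟩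

lemma RF.rel (hR : RF) {z z' : ℂ} (h : Rel z z') : Rel (Erad 0 z) (Erad 0 z') := by
  obtain ⟨m, n, rfl | rfl⟩ := h
  · exact ⟨m, n, Or.inl (hR.add _ _ _)⟩
  · exact ⟨m, n, Or.inr (by rw [hR.add, hR.neg])⟩

lemma RF.rel_inv (hR : RF) {z w : ℂ} (hz : z ∈ U) (h : Rel (Erad 0 z) w) :
    ∃ z' ∈ U, Rel z z' ∧ w = Erad 0 z' := by
  obtain ⟨m, n, rfl | rfl⟩ := h
  · exact ⟨_, U_add hz m n, ⟨m, n, Or.inl rfl⟩, (hR.add _ _ _).symm⟩
  · exact ⟨_, U_add (U_neg hz) m n, ⟨m, n, Or.inr rfl⟩, by rw [hR.add, hR.neg]⟩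

lemma RF.cases (hR : RF) (z : ℂ) :
    (∃ z0 ∈ U, z = Erad 0 z0) ∨ ∃ m n w, normSq w ≤ del ∧ z = lp m n + w := by
  by_cases h : del < normSq (fr z)
  · obtain ⟨z0, h0, h1⟩ := (hR.image z).2 h
    exact Or.inl ⟨z0, h0, h1.symm⟩
  · exact Or.inr ⟨round z.re, round z.im, fr z, not_lt.1 h, by simp [fr, lat]⟩

lemma del_pos : 0 < del := by norm_num [del]
lemma cc_pos : 0 < cc := by norm_num [cc]

lemma small_of_del {w : ℂ} (h : normSq w ≤ del) : ‖w‖ < 1 / 8 :=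
  norm_lt_of_normSq (by norm_num) (h.trans_lt (by norm_num [del]))

lemma Sfun_small {ρ : ℝ} (h : ρ ≤ 1 / 256) : Sfun ρ = del ^ 2 + cc * ρ := by
  rw [Sfun, Real.smoothTransition.zero_of_nonpos (by linarith)]
  ring

lemma rad_small {z : ℂ} (h : normSq z ≤ 1 / 256) :
    rad 0 z = Real.sqrt (Real.sqrt (del ^ 2 + cc * normSq z) / normSq z) • z := by
  rw [rad, Sfun_small h]
  simp

lemma rad_sq {z : ℂ} (h : normSq z ≤ 1 / 256) : rad 0 z ^ 2 = om z := by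
  rw [rad_small h, smul_pow, Real.sq_sqrt (div_nonneg (Real.sqrt_nonneg _) (normSq_nonneg _)), om]

lemma normSq_smul' (t : ℝ) (w : ℂ) : normSq (t • w) = t ^ 2 * normSq w := by
  simp [normSq_apply]
  ring

lemma normSq_rad {z : ℂ} (h0 : z ≠ 0) (h : normSq z ≤ 1 / 256) :
    normSq (rad 0 z) = Real.sqrt (del ^ 2 + cc * normSq z) := by
  rw [rad_small h, normSq_smul',
    Real.sq_sqrt (div_nonneg (Real.sqrt_nonneg _) (normSq_nonneg _)),
    div_mul_cancel₀ _ (normSq_pos.2 h0).ne']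

lemma exists_radi {w : ℂ} {ρ : ℝ} (hρ : ρ ≤ 1 / 256) (h1 : del < normSq w)
    (h2 : normSq w ^ 2 < del ^ 2 + cc * ρ) : ∃ z : ℂ, z ≠ 0 ∧ normSq z < ρ ∧ rad 0 z = w := by
  have hN : 0 < normSq w := del_pos.trans h1
  have hd : 0 < (normSq w ^ 2 - del ^ 2) / cc :=
    div_pos (sub_pos.2 (pow_lt_pow_left₀ h1 del_pos.le two_ne_zero)) cc_pos
  set d := (normSq w ^ 2 - del ^ 2) / cc with hdd
  have hn : normSq (Real.sqrt (d / normSq w) • w) = d := by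
    rw [normSq_smul', Real.sq_sqrt (div_pos hd hN).le, div_mul_cancel₀ _ hN.ne']
  have hlt : d < ρ := by
    rw [hdd, div_lt_iff₀ cc_pos]
    linarith
  refine ⟨Real.sqrt (d / normSq w) • w, ?_, hn.trans_lt hlt, ?_⟩
  · intro h
    rw [h, map_zero] at hn
    exact hd.ne hn
  · rw [rad_small (by rw [hn]; linarith), hn, smul_smul]
    have e : del ^ 2 + cc * d = normSq w ^ 2 := by
      rw [hdd, mul_div_cancel₀ _ cc_pos.ne']
      ring
    rw [e, Real.sqrt_sq hN.le, ← Real.sqrt_mul (div_pos hN hd).le, div_mul_div_comm,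
      mul_comm d, div_self (mul_pos hN hd).ne', Real.sqrt_one, one_smul]

/-- a linear map together with its extension into the hole -/
structure Pair (g : ℂ →L[ℝ] ℂ) (e : ℂ → ℂ) : Prop where
  sm : ContDiff ℝ ∞ e
  odd : ∀ z, e (-z) = -e z
  id0 : ∀ᶠ z in 𝓝 0, e z = z
  hole : ∀ z, normSq (e z) ≤ del ↔ normSq z ≤ del
  lin : ∀ᶠ z in 𝓝[≠] 0, e (rad 0 z) = rad 0 (g z)
  lat : ∀ m n, ∃ a b, g (lp m n) = lp m n + 2 * lp a b
  maps : MapsTo g U U

open Classical in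
def Hat (g : ℂ →L[ℝ] ℂ) (e : ℂ → ℂ) (z : ℂ) : ℂ :=
  if del < normSq (fr z) then Erad 0 (g (Function.invFunOn (Erad 0) U z)) else g (lat z) + e (fr z)

variable {g : ℂ →L[ℝ] ℂ} {e : ℂ → ℂ}

lemma Hat_E (hR : RF) {z : ℂ} (hz : z ∈ U) : Hat g e (Erad 0 z) = Erad 0 (g z) := by
  rw [Hat, if_pos ((hR.image _).1 ⟨z, hz, rfl⟩), hR.inj.leftInvOn_invFunOn hz]

lemma Hat_in (m n : ℤ) {w : ℂ} (hw : normSq w ≤ del) :
    Hat g e (lp m n + w) = g (lp m n) + e w := by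
  have h : ‖w‖ < 1 / 2 := (small_of_del hw).trans (by norm_num)
  rw [Hat, fr_near m n h, lat_near m n h, if_neg (not_lt.2 hw)]

lemma Pair.lat' (hp : Pair g e) (m n : ℤ) : ∃ a b, g (lp m n) = lp a b := by
  obtain ⟨a, b, h⟩ := hp.lat m n
  exact ⟨_, _, h.trans (lp_add _ _ _ _)⟩

lemma Hat_near (hR : RF) (hp : Pair g e) :
    ∃ δ, del < δ ∧ ∀ m n w, normSq w < δ → Hat g e (lp m n + w) = g (lp m n) + e w := by
  have h1 : ∀ᶠ z in 𝓝 (0 : ℂ), ‖g z‖ < 1 / 2 :=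
    g.continuous.norm.continuousAt.eventually_lt continuousAt_const (by simp)
  obtain ⟨r, hr, h⟩ := Metric.eventually_nhds_iff.1
    ((eventually_nhdsWithin_iff.1 hp.lin).and h1)
  set ρ := min (r ^ 2) (1 / 256) with hρ
  have hρ0 : 0 < ρ := lt_min (by positivity) (by norm_num)
  have hs : 0 < del ^ 2 + cc * ρ := add_pos (pow_pos del_pos 2) (mul_pos cc_pos hρ0)
  refine ⟨Real.sqrt (del ^ 2 + cc * ρ), Real.lt_sqrt_of_sq_lt (by
    linarith [mul_pos cc_pos hρ0]), fun m n w hw => ?_⟩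
  by_cases hd : normSq w ≤ del
  · exact Hat_in m n hd
  obtain ⟨z, hz0, hz1, rfl⟩ := exists_radi (min_le_right _ _) (not_le.1 hd)
    ((Real.lt_sqrt (normSq_nonneg w)).1 hw)
  have hzr : ‖z‖ < r := norm_lt_of_normSq hr.le (hz1.trans_le (min_le_left _ _))
  have hz2 : ‖z‖ < 1 / 2 :=
    norm_lt_of_normSq (by norm_num) (hz1.trans_le ((min_le_right _ _).trans (by norm_num)))
  obtain ⟨h2, h3⟩ := h (y := z) (by simpa using hzr)
  obtain ⟨a, b, hab⟩ := hp.lat' m n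
  rw [← hR.near m n z hz2, Hat_E hR (near_mem_U m n hz0 hz2), map_add, hab, hR.near a b _ h3,
    h2 hz0]

lemma Hat_smooth (hR : RF) (hp : Pair g e) : ContDiff ℝ ∞ (Hat g e) := by
  refine contDiff_iff_contDiffAt.2 fun z => ?_
  rcases hR.cases z with ⟨z0, h0, rfl⟩ | ⟨m, n, w, hw, rfl⟩
  · obtain ⟨ψ, h1, h2, h3⟩ := locinv' (hR.smooth z0 h0).1
      ((det_ne_iff _).2 (hR.smooth z0 h0).2) (isOpen_U.mem_nhds h0)
    have h4 : ContDiffAt ℝ ∞ (fun y => Erad 0 (g (ψ y))) (Erad 0 z0) := by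
      refine ContDiffAt.comp (g := Erad 0) _ ?_ (g.contDiff.contDiffAt.comp _ h1)
      rw [h2]
      exact (hR.smooth _ (hp.maps h0)).1
    refine h4.congr_of_eventuallyEq (h3.mono fun y hy => ?_)
    conv_lhs => rw [← hy.2]
    exact Hat_E hR hy.1
  · obtain ⟨δ, hδ, h⟩ := Hat_near hR hp
    have h1 : ∀ᶠ y in 𝓝 (lp m n + w), normSq (y - lp m n) < δ :=
      (continuous_normSq.comp (continuous_id.sub continuous_const)).continuousAt.eventually_lt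
        continuousAt_const (by simpa using hw.trans_lt hδ)
    have h2 : ContDiff ℝ ∞ fun y => g (lp m n) + e (y - lp m n) :=
      contDiff_const.add (hp.sm.comp (contDiff_id.sub contDiff_const))
    refine h2.contDiffAt.congr_of_eventuallyEq (h1.mono fun y hy => ?_)
    have := h m n _ hy
    rwa [add_sub_cancel] at this

lemma g_two (g : ℂ →L[ℝ] ℂ) (z : ℂ) : g (2 * z) = 2 * g z := by
  rw [two_mul, map_add, two_mul]

lemma Pair.rel (hp : Pair g e) {z z' : ℂ} (h : Rel z z') : Rel (g z) (g z') := by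
  obtain ⟨m, n, h⟩ := h
  obtain ⟨a, b, hab⟩ := hp.lat' m n
  refine ⟨a, b, h.imp ?_ ?_⟩ <;> rintro rfl
  · rw [map_add, g_two, hab]
  · rw [map_add, g_two, hab, map_neg]

lemma Hat_rel (hR : RF) (hp : Pair g e) {z z' : ℂ} (h : Rel z z') :
    Rel (Hat g e z) (Hat g e z') := by
  rcases hR.cases z with ⟨z0, h0, rfl⟩ | ⟨m, n, w, hw, rfl⟩
  · obtain ⟨z1, h1, h2, rfl⟩ := hR.rel_inv h0 h
    rw [Hat_E hR h0, Hat_E hR h1]
    exact hR.rel (hp.rel h2)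
  · obtain ⟨a, b, h⟩ := h
    obtain ⟨c, d, hcd⟩ := hp.lat' a b
    refine ⟨c, d, h.imp ?_ ?_⟩ <;> rintro rfl
    · rw [add_right_comm, lp_add, Hat_in _ _ hw, Hat_in _ _ hw, ← lp_add, map_add, g_two, hcd]
      ring
    · rw [neg_add, add_right_comm, lp_neg, lp_add, Hat_in _ _ hw,
        Hat_in _ _ (w := -w) (by rwa [normSq_neg]), ← lp_add, map_add, g_two, hcd, ← lp_neg,
        map_neg, hp.odd]
      ring

lemma Hat_inv (hR : RF) (hp : Pair g e) {g' : ℂ →L[ℝ] ℂ} {e' : ℂ → ℂ}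
    (hg : Function.LeftInverse g' g) (he : Function.LeftInverse e' e) :
    Function.LeftInverse (Hat g' e') (Hat g e) := by
  intro z
  rcases hR.cases z with ⟨z0, h0, rfl⟩ | ⟨m, n, w, hw, rfl⟩
  · rw [Hat_E hR h0, Hat_E hR (hp.maps h0), hg]
  · obtain ⟨a, b, hab⟩ := hp.lat' m n
    rw [Hat_in _ _ hw, hab, Hat_in _ _ ((hp.hole w).2 hw), ← hab, hg, he]

lemma Hat_lat (hp : Pair g e) :
    ∃ r, 0 < r ∧ ∀ m n w, ‖w‖ < r → Rel (lp m n + w) (Hat g e (lp m n + w)) := by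
  have h1 : ∀ᶠ z in 𝓝 (0 : ℂ), normSq z < del :=
    continuous_normSq.continuousAt.eventually_lt continuousAt_const (by simpa using del_pos)
  obtain ⟨r, hr, h⟩ := Metric.eventually_nhds_iff.1 (hp.id0.and h1)
  refine ⟨r, hr, fun m n w hw => ?_⟩
  obtain ⟨h2, h3⟩ := h (y := w) (by simpa using hw)
  obtain ⟨a, b, hab⟩ := hp.lat m n
  refine ⟨a, b, Or.inl ?_⟩
  rw [Hat_in _ _ h3.le, hab, h2]
  ring

lemma Hat_V (hR : RF) (hp : Pair g e) {g' : ℂ →L[ℝ] ℂ} {e' : ℂ → ℂ} (hp' : Pair g' e')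
    (hg : Function.LeftInverse g' g) (he : Function.LeftInverse e' e) {z : ℂ} (hz : z ∈ V) :
    Hat g e z ∈ V := by
  intro m n h
  have h1 := Hat_inv hR hp hg he z
  have h2 : (2 * lp m n : ℂ) = lp (0 + 2 * m) (0 + 2 * n) + 0 := by
    rw [← lp_add]; simp [lp]
  have h3 : e' 0 = 0 := hp'.id0.self_of_nhds
  rw [h, h2, Hat_in _ _ (by simpa using del_pos.le), h3, add_zero, ← add_zero (lp _ _), ← h2,
    g_two] at h1
  obtain ⟨a, b, hab⟩ := hp'.lat' m n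
  exact hz a b (by rw [← h1, hab])

lemma g_ginv (z : ℂ) : gmat (ginv z) = z := by
  apply Complex.ext <;> simp [gmat, ginv] <;> ring

lemma ginv_g (z : ℂ) : ginv (gmat z) = z := by
  apply Complex.ext <;> simp [gmat, ginv] <;> ring

lemma g_lp (m n : ℤ) : gmat (lp m n) = lp m n + 2 * lp (2 * m + n) m := by
  apply Complex.ext <;> simp [gmat] <;> ring

lemma ginv_lp (m n : ℤ) : ginv (lp m n) = lp m n + 2 * lp (-n) (2 * n - m) := by
  apply Complex.ext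
  · simp [ginv]
  · simp [ginv]
    ring

lemma g_U : MapsTo gmat U U := fun z hz => mem_U_iff.2 fun m n h =>
  mem_U_iff.1 hz _ _ ((ginv_g z).symm.trans (by rw [h, ginv_lp]; exact lp_add _ _ _ _))

lemma ginv_U : MapsTo ginv U U := fun z hz => mem_U_iff.2 fun m n h =>
  mem_U_iff.1 hz _ _ ((g_ginv z).symm.trans (by rw [h, g_lp]; exact lp_add _ _ _ _))

lemma pairs {e ei : ℂ → ℂ} (h1 : ContDiff ℝ ∞ e) (h2 : ContDiff ℝ ∞ ei)
    (hl : Function.LeftInverse ei e) (hr : Function.RightInverse ei e) (ho : ∀ z, e (-z) = -e z)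
    (h0 : ∀ᶠ z in 𝓝 0, e z = z) (hh : ∀ z, normSq (e z) ≤ del ↔ normSq z ≤ del)
    (hlin : ∀ᶠ z in 𝓝[≠] 0, e (rad 0 z) = rad 0 (gmat z)) : Pair gmat e ∧ Pair ginv ei := by
  refine ⟨⟨h1, ho, h0, hh, hlin, fun m n => ⟨_, _, g_lp m n⟩, g_U⟩,
    ⟨h2, fun z => ?_, h0.mono fun z hz => ?_, fun z => ?_, ?_, fun m n => ⟨_, _, ginv_lp m n⟩,
      ginv_U⟩⟩
  · apply hl.injective
    rw [hr, ho, hr]
  · conv_lhs => rw [← hz]
    exact hl z
  · rw [← hh, hr]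
  · have ht : Tendsto ginv (𝓝[≠] 0) (𝓝[≠] 0) := by
      refine tendsto_nhdsWithin_iff.2 ⟨?_, eventually_nhdsWithin_of_forall fun z hz h => hz ?_⟩
      · simpa using (ginv.continuous.tendsto 0).mono_left nhdsWithin_le_nhds
      · have h' : ginv z = 0 := h
        rw [← g_ginv z, h', map_zero]
        rfl
    refine (ht.eventually hlin).mono fun z hz => ?_
    rw [g_ginv] at hz
    rw [← hz, hl]

end

end Pool.Agent.Lib.MP_0281e9_an.BM
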