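import Pool.Agent.Lib.MP_0281e9_an.ModelB

namespace Pool.Agent.Lib.MP_0281e9_an.BM

open Set Filter Complex MeasureTheory Topology
open scoped ContDiff ComplexConjugate

noncomputable section

def ca : Fin 4 → ℝ := ![2, -99, 101, 0]
def cb : Fin 4 → ℝ := ![10, 10, 10, -10]
def cd : Fin 4 → ℝ := ![0, 10, 10, 0]
def dl (j : Fin 4) : ℝ := ca j * cd j - cb j

def mm (j : Fin 4) (o : ℂ) : ℂ := (cd j * o - cb j) / (ca j - o)
def nn (j : Fin 4) (w : ℂ) : ℂ := (ca j * w + cb j) / (w + cd j)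

lemma dl_ne (j : Fin 4) : dl j ≠ 0 := by
  fin_cases j <;> norm_num [dl, ca, cb, cd]

lemma dl_ne' (j : Fin 4) : (ca j : ℂ) * cd j - cb j ≠ 0 := by
  exact_mod_cast dl_ne j

lemma mm_add {j : Fin 4} {o : ℂ} (h : o ≠ ca j) :
    mm j o + cd j = (ca j * cd j - cb j) / (ca j - o) := by
  have := sub_ne_zero.2 h.symm
  rw [mm]
  field_simp
  ring

lemma mm_add_ne {j : Fin 4} {o : ℂ} (h : o ≠ ca j) : mm j o + cd j ≠ 0 := by
  rw [mm_add h]
  exact div_ne_zero (dl_ne' j) (sub_ne_zero.2 h.symm)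

lemma nn_mm {j : Fin 4} {o : ℂ} (h : o ≠ ca j) : nn j (mm j o) = o := by
  have h1 := sub_ne_zero.2 h.symm
  rw [nn, div_eq_iff (mm_add_ne h), mm]
  field_simp
  ring

lemma nn_ne {j : Fin 4} {w : ℂ} (h : w + cd j ≠ 0) : nn j w ≠ ca j := by
  intro h1
  rw [nn, div_eq_iff h] at h1
  exact dl_ne' j (by linear_combination -h1)

lemma mm_nn {j : Fin 4} {w : ℂ} (h : w + cd j ≠ 0) : mm j (nn j w) = w := by
  rw [mm, div_eq_iff (sub_ne_zero.2 (nn_ne h).symm), nn]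
  field_simp
  ring

lemma mm_conj (j : Fin 4) (o : ℂ) : mm j (conj o) = conj (mm j o) := by
  simp [mm]

lemma mm_smooth {j : Fin 4} {o : ℂ} (h : o ≠ ca j) : ContDiffAt ℝ ∞ (mm j) o := by
  have : ContDiffAt ℂ ∞ (mm j) o :=
    ((contDiffAt_const.mul contDiffAt_id).sub contDiffAt_const).div
      (contDiffAt_const.sub contDiffAt_id) (sub_ne_zero.2 h.symm)
  exact this.restrict_scalars ℝ

lemma nn_smooth {j : Fin 4} {w : ℂ} (h : w + cd j ≠ 0) : ContDiffAt ℝ ∞ (nn j) w := by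
  have : ContDiffAt ℂ ∞ (nn j) w :=
    ((contDiffAt_const.mul contDiffAt_id).add contDiffAt_const).div
      (contDiffAt_id.add contDiffAt_const) h
  exact this.restrict_scalars ℝ

lemma J_mm_ne {j : Fin 4} {o : ℂ} (h : o ≠ ca j) : J (mm j) o ≠ 0 := by
  have h1 := J_comp (g := nn j) (f := mm j) (cd_diff (nn_smooth (mm_add_ne h)))
    (cd_diff (mm_smooth h))
  have h2 : J (fun y => nn j (mm j y)) o = J (fun y => y) o :=
    J_congr ((eventually_ne_nhds h).mono fun y hy => nn_mm hy)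
  rw [h2, J_id] at h1
  exact right_ne_zero_of_mul_eq_one h1.symm

lemma ne_ca {j : Fin 4} {o : ℂ} (h0 : o ≠ 0 ∨ j ≠ 3) (h : ‖o‖ < 1) : o ≠ ca j := by
  rintro rfl
  fin_cases j
  · norm_num [ca] at h
  · norm_num [ca] at h
  · norm_num [ca] at h
  · simp [ca] at h0

lemma exists_cls (j : Fin 4) : ∃ m n, cls m n = j := by
  fin_cases j
  · exact ⟨1, 0, by decide⟩
  · exact ⟨0, 1, by decide⟩
  · exact ⟨1, 1, by decide⟩
  · exact ⟨0, 0, by decide⟩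

lemma lp_mem_V {m n : ℤ} : lp m n ∈ V ↔ cls m n ≠ 3 := by
  have key : ∀ a b : ℤ, lp m n = 2 * lp a b ↔ m = 2 * a ∧ n = 2 * b := fun a b => by
    rw [Complex.ext_iff]
    simp only [lp_re, lp_im, mul_re, mul_im, re_ofNat, im_ofNat, zero_mul, sub_zero, add_zero]
    refine and_congr ⟨fun h => Int.cast_injective (α := ℝ) ?_, fun h => ?_⟩
      ⟨fun h => Int.cast_injective (α := ℝ) ?_, fun h => ?_⟩ <;> simp [h]
  constructor
  · intro h h3
    by_cases hm : Even m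
    · by_cases hn : Even n
      · obtain ⟨a, ha⟩ := hm
        obtain ⟨b, hb⟩ := hn
        exact h a b ((key a b).2 ⟨by omega, by omega⟩)
      · simp [cls, hm, hn] at h3
    · by_cases hn : Even n <;> simp [cls, hm, hn] at h3
  · intro h a b hab
    obtain ⟨rfl, rfl⟩ := (key a b).1 hab
    simp [cls] at h

lemma near_mem_V {m n : ℤ} {u : ℂ} (hu : ‖u‖ < 1 / 8) :
    lp m n + u ∈ V ↔ u ^ 2 ≠ ca (cls m n) := by
  have h1 : ‖u ^ 2‖ < 1 := by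
    rw [norm_pow]
    nlinarith [norm_nonneg u]
  by_cases h0 : u = 0
  · subst h0
    rw [add_zero, lp_mem_V]
    refine ⟨fun h => ne_ca (Or.inr h) h1, fun h h3 => h ?_⟩
    simp [h3, ca]
  · exact iff_of_true (U_sub_V (near_mem_U m n h0 (hu.trans (by norm_num))))
      (ne_ca (Or.inl (pow_ne_zero 2 h0)) h1)

lemma exists_pre (j : Fin 4) {o : ℂ} (ho : ‖o‖ < 1 / 64) (ha : o ≠ ca j) :
    ∃ m n u, cls m n = j ∧ u ^ 2 = o ∧ ‖u‖ < 1 / 8 ∧ lp m n + u ∈ V := by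
  obtain ⟨m, n, rfl⟩ := exists_cls j
  obtain ⟨u, rfl⟩ := IsAlgClosed.exists_pow_nat_eq o two_pos
  have hu : ‖u‖ < 1 / 8 := by
    rw [norm_pow] at ho
    exact lt_of_pow_lt_pow_left₀ 2 (by norm_num) (by linarith)
  exact ⟨m, n, u, rfl, rfl, hu, (near_mem_V hu).2 ha⟩

/-- the facts on the pillowcase cover used here -/
structure CF (Q : ℂ → ℂ) : Prop where
  sm : ∀ z ∈ V, ContDiffAt ℝ ∞ Q z
  inj : ∀ z ∈ U, Function.Injective (fderiv ℝ Q z)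
  rel : ∀ z ∈ V, ∀ z' ∈ V, Q z = Q z' ↔ Rel z z'
  surj : ∀ w, ∃ z ∈ V, Q z = w
  cj : ∀ z, Q (conj z) = conj (Q z)
  chart : ∀ (m n : ℤ) (z : ℂ), ‖z‖ < 1 / 8 → Q (lp m n + z) = mm (cls m n) (z ^ 2)

structure Lf (H : ℂ → ℂ) : Prop where
  sm : ContDiff ℝ ∞ H
  rel : ∀ z z', Rel z z' → Rel (H z) (H z')
  maps : MapsTo H V V
  near : ∃ r, 0 < r ∧ ∀ m n w, ‖w‖ < r → Rel (lp m n + w) (H (lp m n + w))

def Ft (Q H : ℂ → ℂ) (w : ℂ) : ℂ := Q (H (Function.invFunOn Q V w))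

variable {Q H : ℂ → ℂ}

lemma Ft_Q (hQ : CF Q) (hH : Lf H) {z : ℂ} (hz : z ∈ V) : Ft Q H (Q z) = Q (H z) := by
  have h : ∃ a ∈ V, Q a = Q z := ⟨z, hz, rfl⟩
  have h1 := Function.invFunOn_mem h
  exact (hQ.rel _ (hH.maps h1) _ (hH.maps hz)).2
    (hH.rel _ _ ((hQ.rel _ h1 _ hz).1 (Function.invFunOn_eq h)))

lemma Ft_id (hQ : CF Q) (hH : Lf H) :
    ∃ r, 0 < r ∧ ∀ j (o : ℂ), ‖o‖ < r → o ≠ ca j → Ft Q H (mm j o) = mm j o := by
  obtain ⟨r, hr, h⟩ := hH.near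
  refine ⟨min (r ^ 2) (1 / 64), lt_min (by positivity) (by norm_num), fun j o ho ha => ?_⟩
  obtain ⟨m, n, u, rfl, rfl, hu, hV⟩ := exists_pre j (ho.trans_le (min_le_right _ _)) ha
  have hur : ‖u‖ < r := by
    have := ho.trans_le (min_le_left _ _)
    rw [norm_pow] at this
    exact lt_of_pow_lt_pow_left₀ 2 hr.le this
  rw [← hQ.chart m n u hu, Ft_Q hQ hH hV]
  exact ((hQ.rel _ hV _ (hH.maps hV)).2 (h m n u hur)).symm

lemma Ft_far (hQ : CF Q) (hH : Lf H) : ∃ R, ∀ w, R ≤ ‖w‖ → Ft Q H w = w := by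
  obtain ⟨r, hr, h⟩ := Ft_id hQ hH
  refine ⟨10 / r + 1, fun w hw => ?_⟩
  have h1 : 10 / r < ‖w‖ := by linarith
  have h2 : 0 < ‖w‖ := (by positivity : 0 < 10 / r).trans h1
  have h3 : w + cd 3 ≠ 0 := by simpa [cd] using h2
  have h4 : ‖nn 3 w‖ < r := by
    have : ‖nn 3 w‖ = 10 / ‖w‖ := by simp [nn, ca, cb, cd]
    rw [this, div_lt_iff₀ h2]
    rw [div_lt_iff₀ hr] at h1
    linarith
  have := h 3 _ h4 (nn_ne h3)
  rwa [mm_nn h3] at this

lemma near_chart {j : Fin 4} {o : ℂ} {r : ℝ} (ha : o ≠ ca j) (ho : ‖o‖ < r) :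
    ∀ᶠ y : ℂ in 𝓝 (mm j o), y + cd j ≠ 0 ∧ ‖nn j y‖ < r := by
  refine ((continuous_id.add continuous_const).continuousAt.eventually_ne (mm_add_ne ha)).and ?_
  exact (nn_smooth (mm_add_ne ha)).continuousAt.norm.eventually_lt continuousAt_const
    (by rwa [nn_mm ha])

lemma Ft_smooth (hQ : CF Q) (hH : Lf H) : ContDiff ℝ ∞ (Ft Q H) := by
  refine contDiff_iff_contDiffAt.2 fun w => ?_
  obtain ⟨z, hz, rfl⟩ := hQ.surj w
  by_cases hU : z ∈ U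
  · obtain ⟨ψ, h1, h2, h3⟩ := locinv' (hQ.sm z hz) ((det_ne_iff _).2 (hQ.inj z hU))
      (isOpen_U.mem_nhds hU)
    have h4 : ContDiffAt ℝ ∞ (fun y => Q (H (ψ y))) (Q z) := by
      refine ContDiffAt.comp (g := Q) _ ?_ (hH.sm.contDiffAt.comp _ h1)
      rw [h2]
      exact hQ.sm _ (hH.maps hz)
    refine h4.congr_of_eventuallyEq (h3.mono fun y hy => ?_)
    conv_lhs => rw [← hy.2]
    exact Ft_Q hQ hH (U_sub_V hy.1)
  · obtain ⟨m, n, rfl⟩ : ∃ m n, z = lp m n := by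
      by_contra h
      exact hU (mem_U_iff.2 fun m n hmn => h ⟨m, n, hmn⟩)
    obtain ⟨r, hr, h⟩ := Ft_id hQ hH
    have h0 : (0 : ℂ) ≠ ca (cls m n) := ne_ca (Or.inr (lp_mem_V.1 hz)) (by simp)
    have h1 : Q (lp m n) = mm (cls m n) 0 := by simpa using hQ.chart m n 0 (by simp)
    rw [h1]
    refine contDiffAt_id.congr_of_eventuallyEq
      ((near_chart (r := r) h0 (by simpa using hr)).mono fun y hy => ?_)
    have := h _ _ hy.2 (nn_ne hy.1)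
    rwa [mm_nn hy.1] at this

lemma Ft_inv (hQ : CF Q) (hH : Lf H) {H' : ℂ → ℂ} (hH' : Lf H') (h : Function.LeftInverse H' H) :
    Function.LeftInverse (Ft Q H') (Ft Q H) := by
  intro w
  obtain ⟨z, hz, rfl⟩ := hQ.surj w
  rw [Ft_Q hQ hH hz, Ft_Q hQ hH' (hH.maps hz), h]

lemma Ft_J_pos (hQ : CF Q) (hH : Lf H) {H' : ℂ → ℂ} (hH' : Lf H')
    (h : Function.LeftInverse H' H) (w : ℂ) : 0 < J (Ft Q H) w := by
  obtain ⟨R, hR⟩ := Ft_far hQ hH
  refine J_pos (Ft_smooth hQ hH) (Ft_smooth hQ hH') (Ft_inv hQ hH hH' h)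
    (z0 := ((|R| + 1 : ℝ) : ℂ)) ?_ w
  have h1 : ∀ᶠ y in 𝓝 ((|R| + 1 : ℝ) : ℂ), R < ‖y‖ :=
    continuousAt_const.eventually_lt continuous_norm.continuousAt (by
      rw [norm_real, Real.norm_of_nonneg (by positivity)]
      linarith [le_abs_self R])
  rw [J_congr (g := fun y => y) (h1.mono fun y hy => hR y hy.le), J_id]
  exact one_pos

def Hole (j : Fin 4) (w : ℂ) : Prop := normSq (ca j * w + cb j) ≤ del ^ 2 * normSq (w + cd j)

lemma Hole.ne {j : Fin 4} {w : ℂ} (h : Hole j w) : w + cd j ≠ 0 := by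
  intro h0
  rw [Hole, h0, map_zero, mul_zero] at h
  have h1 := normSq_eq_zero.1 (le_antisymm h (normSq_nonneg _))
  exact dl_ne' j (by linear_combination (ca j : ℂ) * h0 - h1)

lemma hole_iff {j : Fin 4} {w : ℂ} (h : w + cd j ≠ 0) : Hole j w ↔ ‖nn j w‖ ≤ del := by
  rw [Hole, ← sq_le_sq₀ (norm_nonneg _) del_pos.le, ← normSq_eq_norm_sq, nn, normSq_div,
    div_le_iff₀ (normSq_pos.2 h)]

def p0 (Q : ℂ → ℂ) (z : ℂ) : ℂ := Q (Erad 0 z)

lemma p0_smooth (hR : RF) (hQ : CF Q) {z : ℂ} (hz : z ∈ U) : ContDiffAt ℝ ∞ (p0 Q) z :=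
  (hQ.sm _ (U_sub_V (hR.maps hz))).comp z (hR.smooth z hz).1

lemma p0_J_ne (hR : RF) (hQ : CF Q) {z : ℂ} (hz : z ∈ U) : J (p0 Q) z ≠ 0 := by
  have := J_comp (g := Q) (f := Erad 0) (cd_diff (hQ.sm _ (U_sub_V (hR.maps hz))))
    (cd_diff (hR.smooth z hz).1)
  exact this ▸ mul_ne_zero ((det_ne_iff _).2 (hQ.inj _ (hR.maps hz)))
    ((det_ne_iff _).2 (hR.smooth z hz).2)

lemma p0_of_rel (hR : RF) (hQ : CF Q) {z z' : ℂ} (hz : z ∈ U) (h : Rel z z') :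
    p0 Q z = p0 Q z' :=
  (hQ.rel _ (U_sub_V (hR.maps hz)) _ (U_sub_V (hR.maps (U_rel hz h)))).2 (hR.rel h)

lemma p0_rel (hR : RF) (hQ : CF Q) {z z' : ℂ} (hz : z ∈ U) (hz' : z' ∈ U)
    (h : p0 Q z = p0 Q z') : Rel z z' := by
  obtain ⟨z1, h1, h2, h3⟩ := hR.rel_inv hz
    ((hQ.rel _ (U_sub_V (hR.maps hz)) _ (U_sub_V (hR.maps hz'))).1 h)
  rwa [hR.inj hz' h1 h3]

lemma p0_J_rel (hR : RF) (hQ : CF Q) {z z' : ℂ} (hz : z ∈ U) (h : Rel z z') :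
    J (p0 Q) z' = J (p0 Q) z := by
  have key : ∀ (L : ℂ →L[ℝ] ℂ) (c : ℂ), L.det = 1 → (∀ y, Rel y (L y + c)) →
      J (p0 Q) (L z + c) = J (p0 Q) z := by
    intro L c hL hr
    have h1 := J_comp (g := p0 Q) (f := fun y => L y + c)
      (cd_diff (p0_smooth hR hQ (U_rel hz (hr z)))) (L.differentiableAt.add_const c)
    rw [J_affine, hL, mul_one] at h1
    rw [← h1]
    exact J_congr (eventually_of_mem (isOpen_U.mem_nhds hz) fun y hy =>
      (p0_of_rel hR hQ hy (hr y)).symm)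
  obtain ⟨m, n, rfl | rfl⟩ := h
  · exact key (ContinuousLinearMap.id ℝ ℂ) _ (by rw [det_eq]; simp) fun y => ⟨m, n, Or.inl rfl⟩
  · exact key (-ContinuousLinearMap.id ℝ ℂ) _ (by rw [det_eq]; simp) fun y => ⟨m, n, Or.inr rfl⟩

lemma p0_conj (hR : RF) (hQ : CF Q) (z : ℂ) : p0 Q (conj z) = conj (p0 Q z) := by
  rw [p0, hR.cj, hQ.cj, p0]

lemma p0_J_conj (hR : RF) (hQ : CF Q) {z : ℂ} (hz : z ∈ U) :
    J (p0 Q) (conj z) = J (p0 Q) z := by
  have h1 := J_comp (g := p0 Q) (f := (conjCLE : ℂ →L[ℝ] ℂ))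
    (cd_diff (p0_smooth hR hQ (U_conj hz))) (ContinuousLinearMap.differentiableAt _)
  have h2 := J_comp (f := p0 Q) (g := (conjCLE : ℂ →L[ℝ] ℂ))
    (ContinuousLinearMap.differentiableAt _) (cd_diff (p0_smooth hR hQ hz))
  have h3 : (conjCLE : ℂ →L[ℝ] ℂ).det = -1 := by rw [det_eq]; simp
  have h4 : (fun y => p0 Q ((conjCLE : ℂ →L[ℝ] ℂ) y)) =
      fun y => (conjCLE : ℂ →L[ℝ] ℂ) (p0 Q y) := funext fun y => p0_conj hR hQ y
  rw [J_clm, h3] at h1 h2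
  rw [h4, h2] at h1
  have h5 : (conjCLE : ℂ →L[ℝ] ℂ) z = conj z := rfl
  rw [h5] at h1
  linarith

lemma not_hole (hR : RF) (hQ : CF Q) {z : ℂ} (hz : z ∈ U) (j : Fin 4) : ¬ Hole j (p0 Q z) := by
  intro h
  have h1 := (hole_iff h.ne).1 h
  obtain ⟨m, n, u, rfl, h2, hu, hV⟩ := exists_pre j (h1.trans_lt (by norm_num [del])) (nn_ne h.ne)
  have h3 : p0 Q z = Q (lp m n + u) := by rw [hQ.chart m n u hu, h2, mm_nn h.ne]
  obtain ⟨z1, h4, -, h5⟩ := hR.rel_inv hz ((hQ.rel _ (U_sub_V (hR.maps hz)) _ hV).1 h3)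
  have h6 := (hR.image _).1 ⟨z1, h4, h5.symm⟩
  rw [fr_near m n (hu.trans (by norm_num)), normSq_eq_norm_sq, ← norm_pow, h2] at h6
  exact h6.not_ge h1

lemma mem_or_hole (hR : RF) (hQ : CF Q) (w : ℂ) : w ∈ p0 Q '' U ∨ ∃ j, Hole j w := by
  obtain ⟨z, hz, rfl⟩ := hQ.surj w
  rcases hR.cases z with ⟨z0, h0, rfl⟩ | ⟨m, n, u, hu, rfl⟩
  · exact Or.inl ⟨z0, h0, rfl⟩
  · have h1 := small_of_del hu
    have h2 := (near_mem_V h1).1 hz
    refine Or.inr ⟨cls m n, ?_⟩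
    rw [hQ.chart m n u h1, hole_iff (mm_add_ne h2), nn_mm h2, norm_pow, ← normSq_eq_norm_sq]
    exact hu

lemma om_deriv {z : ℂ} (hz : z ≠ 0) : DifferentiableAt ℝ om z ∧ J om z = 2 * cc := by
  have hρ : 0 < normSq z := normSq_pos.2 hz
  have hS : 0 < del ^ 2 + cc * normSq z := add_pos (pow_pos del_pos 2) (mul_pos cc_pos hρ)
  have hs := Real.sqrt_pos.2 hS
  have hN : HasFDerivAt (fun y : ℂ => normSq y) ((2 * z.re) • reCLM + (2 * z.im) • imCLM) z := by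
    have := (reCLM.hasFDerivAt.mul reCLM.hasFDerivAt).add
      (imCLM.hasFDerivAt.mul (imCLM.hasFDerivAt (x := z)))
    refine (this.congr_fderiv ?_).congr_of_eventuallyEq (Eventually.of_forall fun y => ?_)
    · ext v
      simp
      ring
    · simp [normSq_apply]
  have hf : HasDerivAt (fun t => Real.sqrt (del ^ 2 + cc * t) / t)
      ((cc / (2 * Real.sqrt (del ^ 2 + cc * normSq z)) * normSq z -
        Real.sqrt (del ^ 2 + cc * normSq z)) / normSq z ^ 2) (normSq z) := by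
    have h1 : HasDerivAt (fun t => del ^ 2 + cc * t) cc (normSq z) :=
      (((hasDerivAt_id (normSq z)).const_mul cc).const_add _).congr_deriv (by simp)
    exact ((h1.sqrt hS.ne').div (hasDerivAt_id _) hρ.ne').congr_deriv (by simp)
  have h2 : HasFDerivAt (fun y : ℂ => y ^ 2) _ z :=
    (hasDerivAt_pow 2 z).hasFDerivAt.restrictScalars ℝ
  have h3 : HasFDerivAt om _ z := (hf.comp_hasFDerivAt z hN).smul h2
  refine ⟨h3.differentiableAt, ?_⟩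
  have key : ∀ A B : ℝ, (A • ContinuousLinearMap.restrictScalars ℝ
      (ContinuousLinearMap.toSpanSingleton ℂ (((2 : ℕ) : ℂ) * z ^ (2 - 1))) +
      (B • ((2 * z.re) • reCLM + (2 * z.im) • imCLM)).smulRight (z ^ 2)).det =
      4 * A ^ 2 * normSq z + 4 * A * B * normSq z ^ 2 := by
    intro A B
    rw [det_eq]
    simp [pow_two, normSq_apply]
    ring
  rw [J, h3.fderiv, key, Function.comp_apply]
  field_simp
  ring

end

end Pool.Agent.Lib.MP_0281e9_an.BM
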