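import Pool.Agent.Lib.MP_0281e9_an.ModelD

namespace Pool.Agent.Lib.MP_0281e9_an.BM

open Set Filter Complex MeasureTheory Topology
open scoped ContDiff ComplexConjugate

noncomputable section

lemma lf_hat (hR : RF) {g g' : ℂ →L[ℝ] ℂ} {e e' : ℂ → ℂ} (hp : Pair g e) (hp' : Pair g' e')
    (hg : Function.LeftInverse g' g) (he : Function.LeftInverse e' e) : Lf (Hat g e) :=
  ⟨Hat_smooth hR hp, fun _ _ => Hat_rel hR hp, fun _ => Hat_V hR hp hp' hg he, Hat_lat hp⟩

lemma chart_facts {m : ℂ → ℝ} (hm : ContDiff ℝ ∞ m) (hev : ∀ w, m (conj w) = m w) {K : ℂ → ℂ}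
    (hK : ContDiff ℝ ∞ K) (hl : Function.LeftInverse K (kap m 0)) (j : Fin 4) (o : ℂ) (h0 : o ≠ 0)
    (ho : ‖o‖ < 1 / 64) : ContDiffAt ℝ ∞ (fun o => kap m 0 (mm j o)) o ∧
      ContDiffAt ℝ ∞ (fun w => nn j (K w)) (kap m 0 (mm j o)) ∧ nn j (K (kap m 0 (mm j o))) = o ∧
      kap m 0 (mm j (conj o)) = conj (kap m 0 (mm j o)) := by
  have ha : o ≠ ca j := ne_ca (Or.inl h0) (ho.trans (by norm_num))
  refine ⟨(kap_smooth hm contDiff_const).contDiffAt.comp o (mm_smooth ha), ?_, ?_, ?_⟩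
  · refine ContDiffAt.comp (g := nn j) _ ?_ hK.contDiffAt
    rw [hl]
    exact nn_smooth (mm_add_ne ha)
  · rw [hl, nn_mm ha]
  · rw [mm_conj, kap_conj hev]

theorem model_of (hR : RF) {Q : ℂ → ℂ} (hQ : CF Q) {e ei : ℂ → ℂ} (hp : Pair gmat e)
    (hp' : Pair ginv ei) (hl : Function.LeftInverse ei e) (hr : Function.RightInverse ei e) :
    Nonempty Model := by
  have hH := lf_hat hR hp hp' ginv_g hl
  have hH' := lf_hat hR hp' hp g_ginv hr
  have i1 := Hat_inv hR hp ginv_g hl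
  have i2 := Hat_inv hR hp' g_ginv hr
  set F := Ft Q (Hat gmat e) with hFd
  set F' := Ft Q (Hat ginv ei) with hFd'
  have hF : ContDiff ℝ ∞ F := Ft_smooth hQ hH
  have hF' : ContDiff ℝ ∞ F' := Ft_smooth hQ hH'
  have Fl : Function.LeftInverse F' F := Ft_inv hQ hH hH' i1
  have Fr : Function.LeftInverse F F' := Ft_inv hQ hH' hH i2
  have Fp : ∀ w, 0 < J F' w := Ft_J_pos hQ hH' hH i2
  have FE : ∀ z ∈ U, F (p0 Q z) = p0 Q (gmat z) := fun z hz => by
    rw [p0, hFd, Ft_Q hQ hH (U_sub_V (hR.maps hz)), Hat_E hR hz, p0]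
  have FE' : ∀ z ∈ U, F' (p0 Q z) = p0 Q (ginv z) := fun z hz => by
    rw [p0, hFd', Ft_Q hQ hH' (U_sub_V (hR.maps hz)), Hat_E hR hz, p0]
  obtain ⟨R', hR'⟩ := Ft_far hQ hH'
  obtain ⟨m0, s0, p0', ev0, val0, far0⟩ := exists_m0 hR hQ
  let m1 : ℂ → ℝ := fun w => m0 (F' w) * J F' w
  have s1 : ContDiff ℝ ∞ m1 :=
    (s0.comp hF').mul (contDiff_iff_contDiffAt.2 fun w => J_smooth hF'.contDiffAt)
  have p1 : ∀ w, 0 < m1 w := fun w => mul_pos (p0' _) (Fp w)
  have far1 : ∀ w, max 5121 (R' + 1) ≤ ‖w‖ → m1 w = 1 := fun w hw => by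
    have h1 : ∀ᶠ y in 𝓝 w, R' < ‖y‖ :=
      continuousAt_const.eventually_lt continuous_norm.continuousAt (by
        linarith [le_max_right 5121 (R' + 1)])
    have h2 : F' =ᶠ[𝓝 w] fun y => y := h1.mono fun y hy => hR' y hy.le
    simp only [m1]
    rw [J_congr h2, J_id, h2.self_of_nhds, far0 w ((le_max_left _ _).trans hw), mul_one]
  have val1 : ∀ z ∈ U, m1 (p0 Q z) = m0 (p0 Q z) := fun z hz => by
    have h1 := J_comp (g := F') (f := p0 Q) (cd_diff hF'.contDiffAt)
      (cd_diff (p0_smooth hR hQ hz))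
    have h2 := J_comp (g := p0 Q) (f := ginv) (cd_diff (p0_smooth hR hQ (ginv_U hz)))
      (ginv.differentiableAt (x := z))
    have h3 : J ginv z = 1 := by
      rw [J_clm, ginv, det_mat]
      norm_num
    rw [h3, mul_one, ← J_congr (f := fun y => F' (p0 Q y))
      (eventually_of_mem (isOpen_U.mem_nhds hz) FE'), h1] at h2
    have h4 := (Fp (p0 Q z)).ne'
    have h5 := abs_ne_zero.2 (p0_J_ne hR hQ hz)
    simp only [m1]
    rw [FE' z hz, val0 _ (ginv_U hz), val0 z hz, ← h2, abs_mul, abs_of_pos (Fp _)]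
    field_simp
  let me : ℂ → ℝ := fun w => (m1 w + m1 (conj w)) / 2
  let mo : ℂ → ℝ := fun w => (m1 w - m1 (conj w)) / 2
  have sc : ContDiff ℝ ∞ fun w => m1 (conj w) := s1.comp (conjCLE : ℂ →L[ℝ] ℂ).contDiff
  have se : ContDiff ℝ ∞ me := (s1.add sc).div_const _
  have so : ContDiff ℝ ∞ mo := (s1.sub sc).div_const _
  have pe : ∀ w, 0 < me w := fun w => by
    simp only [me]
    linarith [p1 w, p1 (conj w)]
  have eve : ∀ w, me (conj w) = me w := fun w => by simp [me, add_comm]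
  have fare : ∀ w, max 5121 (R' + 1) ≤ ‖w‖ → me w = 1 := fun w hw => by
    simp only [me]
    rw [far1 w hw, far1 (conj w) (by simpa using hw)]
    norm_num
  have odo : ∀ w, mo (conj w) = -mo w := fun w => by
    simp only [mo, conj_conj]
    ring
  have zo : ∀ w, (∀ j, ¬ Hole j w) → mo w = 0 := fun w hw => by
    obtain ⟨z, hz, rfl⟩ := (mem_or_hole hR hQ w).resolve_right fun ⟨j, hj⟩ => hw j hj
    simp only [mo]
    rw [← p0_conj hR hQ, val1 z hz, val1 _ (U_conj hz), p0_conj hR hQ, ev0, sub_self, zero_div]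
  let χ : ContDiffBump (0 : ℝ) := ⟨10, 20, by norm_num, by norm_num⟩
  let c : ℝ → ℝ := fun x => χ x * prim mo x 1
  have hc : ContDiff ℝ ∞ c := by
    refine χ.contDiff.mul ?_
    have := (prim_smooth so).comp (ofRealCLM.contDiff.add (contDiff_const (c := I)))
    simpa [Function.comp_def] using this
  have agr : ∀ z ∈ U, kap m1 c (p0 Q z) = kap me 0 (p0 Q z) := fun z hz => by
    have h1 := prim_odd so.continuous odo zo (χ := χ)
      (fun x hx => χ.one_of_mem_closedBall (by simpa using hx))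
      (fun x hx => χ.zero_of_le_dist (by simpa using hx))
      (x := (p0 Q z).re) (y := (p0 Q z).im) (by rw [re_add_im]; exact not_hole hR hQ hz)
    have h2 : ∀ x y, prim m1 x y = prim me x y + prim mo x y := fun x y => by
      rw [prim, prim, prim, ← intervalIntegral.integral_add
        ((cont_line se.continuous x).intervalIntegrable _ _)
        ((cont_line so.continuous x).intervalIntegrable _ _)]
      refine intervalIntegral.integral_congr fun t _ => ?_
      simp only [me, mo]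
      ring
    refine Complex.ext (by simp) ?_
    rw [kap_im, kap_im, h2, h1]
    simp [c]
  obtain ⟨K0, sK0, l0, r0⟩ := kap_inv (c := 0) s0 contDiff_const p0' far0
  obtain ⟨K1, sK1, l1, r1⟩ := kap_inv s1 hc p1 far1
  obtain ⟨Ke, sKe, le, re'⟩ := kap_inv (c := 0) se contDiff_const pe fare
  have k0 : ContDiff ℝ ∞ (kap m0 0) := kap_smooth s0 contDiff_const
  have k1 : ContDiff ℝ ∞ (kap m1 c) := kap_smooth s1 hc
  have ke : ContDiff ℝ ∞ (kap me 0) := kap_smooth se contDiff_const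
  obtain ⟨B, hB⟩ := (isCompact_closedBall (0 : ℂ) 5120).exists_bound_of_continuousOn
    k0.continuous.continuousOn
  refine ⟨{
    Φ := fun z => kap m1 c (F (K0 z))
    Φi := fun z => kap m0 0 (F' (K1 z))
    Ψ := fun z => kap me 0 (F (K0 z))
    Ψi := fun z => kap m0 0 (F' (Ke z))
    P0 := fun z => kap m0 0 (Q z)
    P1 := fun z => kap me 0 (Q z)
    β0 := fun j o => kap m0 0 (mm j o)
    ν0 := fun j w => nn j (K0 w)
    β1 := fun j o => kap me 0 (mm j o)
    ν1 := fun j w => nn j (Ke w)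
    x := xx
    R := B
    hΦ := k1.comp (hF.comp sK0)
    hΦi := k0.comp (hF'.comp sK1)
    Φl := fun z => by simp only [l1 _, Fl _, r0 _]
    Φr := fun z => by simp only [l0 _, Fr _, r1 _]
    det := fun z => ?_
    hΨ := ke.comp (hF.comp sK0)
    hΨi := k0.comp (hF'.comp sKe)
    Ψl := fun z => by simp only [le _, Fl _, r0 _]
    Ψr := fun z => by simp only [l0 _, Fr _, re' _]
    P0s := fun z hz => ⟨k0.contDiffAt.comp z (hQ.sm z (U_sub_V hz)), ?_⟩
    P0inj := fun z hz z' hz' => l0.injective.eq_iff.trans (hQ.rel z (U_sub_V hz) z' (U_sub_V hz'))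
    P0conj := fun z _ => by rw [hQ.cj, kap_conj ev0]
    P1conj := fun z _ => by rw [hQ.cj, kap_conj eve]
    semi := fun z hz => by rw [l0]; exact congrArg _ (FE z hz)
    agree := fun z hz => ?_
    chart0 := fun m n z _ hz => by rw [hQ.chart m n z hz]
    chart1 := fun m n z _ hz => by rw [hQ.chart m n z hz]
    hβ0 := chart_facts s0 ev0 sK0 l0
    hβ1 := chart_facts se eve sKe le
    xre := fun j ζ h => by rw [kap_re, xx_re j ζ h]
    xd := fun j ξ h => xx_deriv j h
    sep := xx_sep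
    bound := fun z hz => hB _ (mem_closedBall_zero_iff.2 (p0_bound hR hQ hz).le) }⟩
  · obtain ⟨w, rfl⟩ := r0.surjective z
    have h1 := J_comp (g := kap m1 c) (f := fun z => F (K0 z)) (z := kap m0 0 w)
      (cd_diff k1.contDiffAt) (cd_diff (hF.comp sK0).contDiffAt)
    have h2 := J_comp (g := F) (f := K0) (z := kap m0 0 w) (cd_diff hF.contDiffAt)
      (cd_diff sK0.contDiffAt)
    have h3 := J_mul_inv k0 sK0 l0 w
    have h4 := J_mul_inv hF hF' Fl w
    rw [kap_J (c := 0) s0 contDiff_const] at h3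
    rw [h2, kap_J s1 hc, l0] at h1
    refine h1.trans ?_
    simp only [m1]
    rw [Fl]
    linear_combination (J F' (F w) * J F w) * h3 + h4
  · have h1 := J_comp (g := kap m0 0) (f := Q) (cd_diff k0.contDiffAt)
      (cd_diff (hQ.sm z (U_sub_V hz)))
    refine (det_ne_iff _).1 (h1.trans_ne (mul_ne_zero ?_ ((det_ne_iff _).2 (hQ.inj z hz))))
    rw [kap_J (c := 0) s0 contDiff_const]
    exact (p0' _).ne'
  · rw [l0]
    have h1 : F (Q (Erad 0 z)) = p0 Q (gmat z) := FE z hz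
    rw [h1]
    exact agr _ (g_U hz)

end

end Pool.Agent.Lib.MP_0281e9_an.BM
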