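import Pool.Agent.Lib.MP_0281e9_an.Base

namespace Pool.Agent.Lib.MP_0281e9_an.BS

open Set Filter Complex MeasureTheory Topology
open scoped ContDiff

noncomputable section

structure Hyp (h : ℝ → ℝ) : Prop where
  hs : ContDiff ℝ ∞ h
  hp : Function.Periodic h (2 * Real.pi)
  hc : ∀ ψ, 0 < h ψ + deriv (deriv h) ψ

def rho (h : ℝ → ℝ) (ψ : ℝ) : ℝ := h ψ + deriv (deriv h) ψ

def g (h : ℝ → ℝ) (ψ : ℝ) : ℂ := ((h ψ : ℂ) + (deriv h ψ : ℝ) * I) * exp (ψ * I)

/-- the component of `y` in the direction `ψ` -/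
def cmp (y : ℂ) (ψ : ℝ) : ℝ := y.re * Real.cos ψ + y.im * Real.sin ψ

variable {h : ℝ → ℝ}

lemma per_deriv {f : ℝ → ℝ} {c : ℝ} (hf : Function.Periodic f c) :
    Function.Periodic (deriv f) c := by
  intro x
  rw [← deriv_comp_add_const]
  congr 1
  funext y
  exact hf y

namespace Hyp

variable (H : Hyp h)
include H

lemma hs1 : ContDiff ℝ ∞ (deriv h) := (contDiff_infty_iff_deriv.1 H.hs).2
lemma hs2 : ContDiff ℝ ∞ (deriv (deriv h)) := (contDiff_infty_iff_deriv.1 H.hs1).2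
lemma d0 (ψ : ℝ) : HasDerivAt h (deriv h ψ) ψ :=
  ((contDiff_infty_iff_deriv.1 H.hs).1 ψ).hasDerivAt
lemma d1 (ψ : ℝ) : HasDerivAt (deriv h) (deriv (deriv h) ψ) ψ :=
  ((contDiff_infty_iff_deriv.1 H.hs1).1 ψ).hasDerivAt
lemma hp1 : Function.Periodic (deriv h) (2 * Real.pi) := per_deriv H.hp
lemma hp2 : Function.Periodic (deriv (deriv h)) (2 * Real.pi) := per_deriv H.hp1
lemma rho_pos (ψ : ℝ) : 0 < rho h ψ := H.hc ψ
lemma rho_smooth : ContDiff ℝ ∞ (rho h) := H.hs.add H.hs2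
lemma rho_per : Function.Periodic (rho h) (2 * Real.pi) := fun ψ => by
  simp only [rho, H.hp ψ, H.hp2 ψ]

lemma g_per : Function.Periodic (g h) (2 * Real.pi) := fun ψ => by
  simp only [g, H.hp ψ, H.hp1 ψ]
  congr 1
  push_cast
  rw [add_mul, exp_add, exp_two_pi_mul_I, mul_one]

lemma g_deriv (ψ : ℝ) : HasDerivAt (g h) (I * rho h ψ * exp (ψ * I)) ψ := by
  have h1 : HasDerivAt (fun t : ℝ => ((h t : ℂ) + (deriv h t : ℝ) * I))
      (((deriv h ψ : ℝ) : ℂ) + (deriv (deriv h) ψ : ℝ) * I) ψ :=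
    (H.d0 ψ).ofReal_comp.add ((H.d1 ψ).ofReal_comp.mul_const I)
  have h2 : HasDerivAt (fun t : ℝ => exp (t * I)) (exp (ψ * I) * (1 * I)) ψ := by
    have : HasDerivAt (fun t : ℝ => (t : ℂ) * I) (1 * I) ψ := by
      simpa using ((hasDerivAt_id ψ).ofReal_comp.mul_const I)
    exact this.cexp
  refine (h1.mul h2).congr_deriv ?_
  simp only [rho]
  push_cast
  linear_combination ((deriv h ψ : ℝ) * exp (ψ * I)) * I_mul_I

lemma g_smooth : ContDiff ℝ ∞ (g h) := by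
  unfold g
  have h1 : ContDiff ℝ ∞ (fun t : ℝ => (h t : ℂ)) := ofRealCLM.contDiff.comp H.hs
  have h2 : ContDiff ℝ ∞ (fun t : ℝ => ((deriv h t : ℝ) : ℂ)) := ofRealCLM.contDiff.comp H.hs1
  have h3 : ContDiff ℝ ∞ (fun t : ℝ => (t : ℂ)) := ofRealCLM.contDiff
  exact (h1.add (h2.mul contDiff_const)).mul (h3.mul contDiff_const).cexp

omit H in
lemma g_re (ψ : ℝ) : (g h ψ).re = h ψ * Real.cos ψ - deriv h ψ * Real.sin ψ := by
  simp [g, exp_ofReal_mul_I_re, exp_ofReal_mul_I_im]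

omit H in
lemma g_im (ψ : ℝ) : (g h ψ).im = h ψ * Real.sin ψ + deriv h ψ * Real.cos ψ := by
  simp [g, exp_ofReal_mul_I_re, exp_ofReal_mul_I_im]

omit H in
lemma cmp_g (φ ψ : ℝ) : cmp (g h ψ) φ = fl h φ ψ := by
  simp only [cmp, g_re, g_im, fl, Real.cos_sub, Real.sin_sub]
  ring

omit H in
lemma fl_self (φ : ℝ) : fl h φ φ = h φ := by simp [fl]

lemma fl_deriv (φ ψ : ℝ) : HasDerivAt (fl h φ) (-(rho h ψ * Real.sin (ψ - φ))) ψ := by
  have e : HasDerivAt (fun t : ℝ => t - φ) 1 ψ := (hasDerivAt_id ψ).sub_const φ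
  have h1 := ((H.d0 ψ).mul e.cos).sub ((H.d1 ψ).mul e.sin)
  refine h1.congr_deriv ?_
  simp only [rho]
  ring

lemma fl_cont (φ : ℝ) : Continuous (fl h φ) :=
  continuous_iff_continuousAt.2 fun ψ => (H.fl_deriv φ ψ).continuousAt

lemma fl_per (φ : ℝ) : Function.Periodic (fl h φ) (2 * Real.pi) := fun ψ => by
  rw [← cmp_g, ← cmp_g, H.g_per ψ]

omit H in
lemma fl_per' (φ ψ : ℝ) (n : ℤ) : fl h (φ + n * (2 * Real.pi)) ψ = fl h φ ψ := by
  rw [← cmp_g, ← cmp_g]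
  simp only [cmp, Real.cos_add_int_mul_two_pi, Real.sin_add_int_mul_two_pi]

omit H in
lemma fl_add_pi (φ ψ : ℝ) : fl h (φ + Real.pi) ψ = -fl h φ ψ := by
  rw [← cmp_g, ← cmp_g]
  simp only [cmp, Real.cos_add_pi, Real.sin_add_pi]
  ring

lemma fl_anti (φ : ℝ) : StrictAntiOn (fl h φ) (Icc φ (φ + Real.pi)) := by
  refine strictAntiOn_of_deriv_neg (convex_Icc _ _) (H.fl_cont φ).continuousOn ?_
  intro ψ hψ
  rw [interior_Icc] at hψ
  rw [(H.fl_deriv φ ψ).deriv]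
  have := Real.sin_pos_of_pos_of_lt_pi (x := ψ - φ) (by linarith [hψ.1]) (by linarith [hψ.2])
  have := mul_pos (H.rho_pos ψ) this
  linarith

lemma fl_mono (φ : ℝ) : StrictMonoOn (fl h φ) (Icc (φ - Real.pi) φ) := by
  refine strictMonoOn_of_deriv_pos (convex_Icc _ _) (H.fl_cont φ).continuousOn ?_
  intro ψ hψ
  rw [interior_Icc] at hψ
  rw [(H.fl_deriv φ ψ).deriv]
  have := Real.sin_pos_of_pos_of_lt_pi (x := φ - ψ) (by linarith [hψ.2]) (by linarith [hψ.1])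
  have h2 := mul_pos (H.rho_pos ψ) this
  have h3 : Real.sin (ψ - φ) = -Real.sin (φ - ψ) := by rw [← Real.sin_neg]; congr 1; ring
  rw [h3]
  linarith

lemma fl_lt {φ ψ : ℝ} (hne : ∀ n : ℤ, ψ ≠ φ + n * (2 * Real.pi)) : fl h φ ψ < h φ := by
  have hpi := Real.pi_pos
  have h2 : (0 : ℝ) < 2 * Real.pi := by linarith
  set n := toIcoDiv h2 (φ - Real.pi) ψ
  set ψ' := toIcoMod h2 (φ - Real.pi) ψ with hψ'
  have hm : ψ' ∈ Ico (φ - Real.pi) (φ - Real.pi + 2 * Real.pi) := toIcoMod_mem_Ico h2 _ _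
  have he : ψ' + n • (2 * Real.pi) = ψ := toIcoMod_add_toIcoDiv_zsmul h2 _ _
  have hf : fl h φ ψ = fl h φ ψ' := by
    rw [← he]
    exact (H.fl_per φ).zsmul n ψ'
  have hne' : ψ' ≠ φ := by
    intro e
    apply hne n
    rw [← he, e, zsmul_eq_mul]
  rw [hf, ← fl_self (h := h) φ]
  rcases lt_or_gt_of_ne hne' with hl | hl
  · exact H.fl_mono φ ⟨hm.1, hl.le⟩ ⟨by linarith, le_rfl⟩ hl
  · exact H.fl_anti φ ⟨le_rfl, by linarith⟩ ⟨hl.le, by linarith [hm.2]⟩ hl

lemma fl_le (φ ψ : ℝ) : fl h φ ψ ≤ h φ := by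
  by_cases hne : ∀ n : ℤ, ψ ≠ φ + n * (2 * Real.pi)
  · exact (H.fl_lt hne).le
  · push Not at hne
    obtain ⟨n, rfl⟩ := hne
    rw [← zsmul_eq_mul, (H.fl_per φ).zsmul n φ, fl_self]

end Hyp

/-- the table -/
def tab (h : ℝ → ℝ) : Set ℂ := {y | ∀ ψ, cmp y ψ ≤ h ψ}

lemma cmp_cont (y : ℂ) : Continuous (cmp y) := by unfold cmp; fun_prop

lemma cmp_cont' (ψ : ℝ) : Continuous (fun y => cmp y ψ) := by unfold cmp; fun_prop

lemma cmp_le_norm (y : ℂ) (ψ : ℝ) : cmp y ψ ≤ ‖y‖ := by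
  have h1 : cmp y ψ = (y * exp ((-ψ : ℝ) * I)).re := by
    simp only [cmp, mul_re, exp_ofReal_mul_I_re, exp_ofReal_mul_I_im, Real.cos_neg, Real.sin_neg]
    ring
  rw [h1]
  refine (re_le_norm _).trans ?_
  rw [norm_mul, norm_exp_ofReal_mul_I, mul_one]

lemma cmp_arg (y : ℂ) : cmp y (arg y) = ‖y‖ := by
  by_cases hy : y = 0
  · simp [hy, cmp]
  · have hn : ‖y‖ ≠ 0 := norm_ne_zero_iff.2 hy
    rw [cmp, cos_arg hy, sin_arg]
    field_simp
    rw [Complex.sq_norm, normSq_apply]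
    ring

lemma cmp_comb (y z : ℂ) (a b ψ : ℝ) : cmp (a • y + b • z) ψ = a * cmp y ψ + b * cmp z ψ := by
  simp only [cmp, add_re, add_im, real_smul, mul_re, mul_im, ofReal_re, ofReal_im]
  ring

lemma cmp_per (y : ℂ) : Function.Periodic (cmp y) (2 * Real.pi) := fun ψ => by
  simp only [cmp, Real.cos_add_two_pi, Real.sin_add_two_pi]

namespace Hyp

variable (H : Hyp h)
include H

lemma g_mem (ψ : ℝ) : g h ψ ∈ tab h := fun φ => by
  rw [cmp_g]; exact H.fl_le φ ψ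

lemma eq_g {y : ℂ} (hy : y ∈ tab h) {ψ : ℝ} (he : cmp y ψ = h ψ) : y = g h ψ := by
  have hmin : IsLocalMin (fun t => h t - cmp y t) ψ :=
    Filter.Eventually.of_forall fun t => by
      have := hy t
      simp only
      linarith
  have hd : HasDerivAt (fun t => h t - cmp y t)
      (deriv h ψ - (y.re * (-Real.sin ψ) + y.im * Real.cos ψ)) ψ :=
    (H.d0 ψ).sub (((Real.hasDerivAt_cos ψ).const_mul y.re).add
      ((Real.hasDerivAt_sin ψ).const_mul y.im))
  have h0 := hmin.hasDerivAt_eq_zero hd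
  have h1 := Real.sin_sq_add_cos_sq ψ
  unfold cmp at he
  apply Complex.ext
  · rw [g_re]
    linear_combination Real.cos ψ * he + Real.sin ψ * h0 - y.re * h1
  · rw [g_im]
    linear_combination Real.sin ψ * he - Real.cos ψ * h0 - y.im * h1

omit H in
lemma tab_closed : IsClosed (tab h) := by
  have : tab h = ⋂ ψ, {y | cmp y ψ ≤ h ψ} := by ext; simp [tab]
  rw [this]
  exact isClosed_iInter fun ψ => isClosed_le (cmp_cont' ψ) continuous_const

lemma tab_compact : IsCompact (tab h) := by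
  obtain ⟨C, hC⟩ := (isCompact_Icc (a := -Real.pi) (b := Real.pi)).bddAbove_image
    H.hs.continuous.continuousOn
  refine Metric.isCompact_of_isClosed_isBounded tab_closed ?_
  refine (Metric.isBounded_closedBall (x := (0 : ℂ)) (r := C)).subset fun y hy => ?_
  rw [mem_closedBall_zero_iff, ← cmp_arg]
  exact (hy _).trans (hC ⟨_, ⟨(neg_pi_lt_arg y).le, arg_le_pi y⟩, rfl⟩)

lemma mem_interior {y : ℂ} : y ∈ interior (tab h) ↔ ∀ ψ, cmp y ψ < h ψ := by
  constructor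
  · intro hy ψ
    have hc : Continuous fun t : ℝ => y + t * exp (ψ * I) := by fun_prop
    have h1 : ∀ᶠ t : ℝ in 𝓝 0, y + t * exp (ψ * I) ∈ tab h := by
      apply hc.continuousAt.eventually
      simpa using mem_interior_iff_mem_nhds.1 hy
    obtain ⟨t, ht, ht0⟩ := ((h1.filter_mono nhdsWithin_le_nhds).and
      (self_mem_nhdsWithin (s := Ioi (0 : ℝ)))).exists
    have h2 := ht ψ
    have h3 : cmp (y + t * exp (ψ * I)) ψ = cmp y ψ + t := by
      simp only [cmp, add_re, add_im, mul_re, mul_im, ofReal_re, ofReal_im, exp_ofReal_mul_I_re,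
        exp_ofReal_mul_I_im]
      linear_combination t * Real.sin_sq_add_cos_sq ψ
    have : (0 : ℝ) < t := ht0
    linarith
  · intro hy
    have hpi := Real.pi_pos
    have h2 : (0 : ℝ) < 2 * Real.pi := by linarith
    have hc : Continuous fun t => h t - cmp y t := H.hs.continuous.sub (cmp_cont y)
    obtain ⟨ψ0, -, hψ0⟩ := (isCompact_Icc (a := (0 : ℝ)) (b := 0 + 2 * Real.pi)).exists_isMinOn
      ⟨0, le_rfl, by linarith⟩ hc.continuousOn
    have hper : Function.Periodic (fun t => h t - cmp y t) (2 * Real.pi) := fun t => by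
      simp only [H.hp t, cmp_per y t]
    have hm : ∀ ψ, h ψ0 - cmp y ψ0 ≤ h ψ - cmp y ψ := by
      intro ψ
      obtain ⟨t, ht, e⟩ := hper.exists_mem_Ico h2 ψ 0
      have := hψ0 (Ico_subset_Icc_self ht)
      simp only [mem_ofPred_eq] at this e
      linarith
    rw [mem_interior_iff_mem_nhds, Metric.mem_nhds_iff]
    refine ⟨h ψ0 - cmp y ψ0, by linarith [hy ψ0], fun z hz ψ => ?_⟩
    have h3 : cmp z ψ = cmp y ψ + cmp (z - y) ψ := by
      simp only [cmp, sub_re, sub_im]; ring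
    have h4 := cmp_le_norm (z - y) ψ
    rw [mem_ball_iff_norm] at hz
    linarith [hm ψ]

lemma frontier_tab : frontier (tab h) = range (g h) := by
  rw [tab_closed.frontier_eq]
  ext y
  constructor
  · rintro ⟨hy, hn⟩
    rw [H.mem_interior] at hn
    push Not at hn
    obtain ⟨ψ, hψ⟩ := hn
    exact ⟨ψ, (H.eq_g hy (le_antisymm (hy ψ) hψ)).symm⟩
  · rintro ⟨ψ, rfl⟩
    refine ⟨H.g_mem ψ, fun hn => ?_⟩
    have := H.mem_interior.1 hn ψ
    rw [cmp_g, fl_self] at this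
    exact lt_irrefl _ this

lemma strict_tab : StrictConvex ℝ (tab h) := by
  intro y hy z hz hne a b ha hb hab
  rw [H.mem_interior]
  intro ψ
  rw [cmp_comb]
  have e : h ψ = a * h ψ + b * h ψ := by rw [← add_mul, hab, one_mul]
  rw [e]
  rcases (hy ψ).lt_or_eq with h1 | h1
  · have := mul_lt_mul_of_pos_left h1 ha
    have := mul_le_mul_of_nonneg_left (hz ψ) hb.le
    linarith
  · rcases (hz ψ).lt_or_eq with h2 | h2
    · have := mul_lt_mul_of_pos_left h2 hb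
      have := mul_le_mul_of_nonneg_left (hy ψ) ha.le
      linarith
    · exact absurd ((H.eq_g hy h1).trans (H.eq_g hz h2).symm) hne

lemma g_inj {ψ ψ' : ℝ} (e : g h ψ = g h ψ') : ∃ n : ℤ, ψ = ψ' + n * (2 * Real.pi) := by
  by_contra hn
  push Not at hn
  have := H.fl_lt hn
  rw [← cmp_g, e, cmp_g, fl_self] at this
  exact lt_irrefl _ this

lemma inner_tab : (interior (tab h)).Nonempty := by
  have hne : g h Real.pi ≠ g h 0 := by
    intro e
    obtain ⟨n, hn⟩ := H.g_inj e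
    have hpi := Real.pi_pos
    have h1 : (1 : ℝ) = n * 2 := by
      apply mul_right_cancel₀ hpi.ne'
      linarith
    have h2 : (1 : ℤ) = n * 2 := by exact_mod_cast h1
    omega
  exact ⟨_, H.strict_tab (H.g_mem _) (H.g_mem _) hne (a := 1 / 2) (b := 1 / 2) (by norm_num)
    (by norm_num) (by norm_num)⟩

end Hyp

end

end Pool.Agent.Lib.MP_0281e9_an.BS
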