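import Pool.Agent.Lib.MP_0281e9_an.SuppA

namespace Pool.Agent.Lib.MP_0281e9_an.BS

open Set Filter Complex MeasureTheory Topology
open scoped ContDiff

noncomputable section

variable {h : ℝ → ℝ}

/-- arclength as a function of the normal angle -/
def arc (h : ℝ → ℝ) (ψ : ℝ) : ℝ := ∫ t in (-Real.pi)..ψ, rho h t

def len (h : ℝ → ℝ) : ℝ := arc h Real.pi

namespace Hyp

variable (H : Hyp h)
include H

lemma arc_deriv (ψ : ℝ) : HasDerivAt (arc h) (rho h ψ) ψ :=
  (H.rho_smooth.continuous.integral_hasStrictDerivAt _ _).hasDerivAt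

lemma arc_deriv' : deriv (arc h) = rho h := funext fun ψ => (H.arc_deriv ψ).deriv

lemma arc_smooth : ContDiff ℝ ∞ (arc h) := by
  rw [contDiff_infty_iff_deriv, H.arc_deriv']
  exact ⟨fun ψ => (H.arc_deriv ψ).differentiableAt, H.rho_smooth⟩

lemma arc_mono : StrictMono (arc h) :=
  strictMono_of_deriv_pos fun ψ => by rw [H.arc_deriv']; exact H.rho_pos ψ

omit H in
lemma arc_neg_pi : arc h (-Real.pi) = 0 := by simp [arc]

lemma len_pos : 0 < len h := by
  rw [← arc_neg_pi (h := h)]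
  exact H.arc_mono (by linarith [Real.pi_pos])

lemma arc_add (ψ : ℝ) : arc h (ψ + 2 * Real.pi) = arc h ψ + len h := by
  have hd : ∀ t, HasDerivAt (fun t => arc h (t + 2 * Real.pi) - arc h t) 0 t := by
    intro t
    have h1 := ((H.arc_deriv (t + 2 * Real.pi)).comp_add_const t (2 * Real.pi)).sub (H.arc_deriv t)
    rw [H.rho_per t, sub_self] at h1
    exact h1
  have hc := is_const_of_deriv_eq_zero (fun t => (hd t).differentiableAt)
    (fun t => (hd t).deriv) ψ (-Real.pi)
  rw [arc_neg_pi, show -Real.pi + 2 * Real.pi = Real.pi by ring] at hc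
  unfold len
  linarith

lemma arc_add_int (ψ : ℝ) (n : ℤ) : arc h (ψ + n * (2 * Real.pi)) = arc h ψ + n * len h := by
  induction n using Int.induction_on with
  | zero => simp
  | succ n ih =>
    push_cast at ih ⊢
    rw [show ψ + ((n : ℝ) + 1) * (2 * Real.pi) = ψ + n * (2 * Real.pi) + 2 * Real.pi by ring,
      H.arc_add, ih]
    ring
  | pred n ih =>
    push_cast at ih ⊢
    have := H.arc_add (ψ + (-(n : ℝ) - 1) * (2 * Real.pi))
    rw [show ψ + (-(n : ℝ) - 1) * (2 * Real.pi) + 2 * Real.pi = ψ + -n * (2 * Real.pi) by ring,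
      ih] at this
    linarith

lemma arc_surj : Function.Surjective (arc h) := by
  have hL := H.len_pos
  refine H.arc_smooth.continuous.surjective ?_ ?_
  · refine H.arc_mono.monotone.tendsto_atTop_atTop fun b => ?_
    obtain ⟨n, hn⟩ := exists_int_gt (b / len h)
    refine ⟨-Real.pi + n * (2 * Real.pi), ?_⟩
    rw [H.arc_add_int, arc_neg_pi, zero_add]
    exact ((div_lt_iff₀ hL).1 hn).le
  · refine H.arc_mono.monotone.tendsto_atBot_atBot fun b => ?_
    obtain ⟨n, hn⟩ := exists_int_lt (b / len h)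
    refine ⟨-Real.pi + n * (2 * Real.pi), ?_⟩
    rw [H.arc_add_int, arc_neg_pi, zero_add]
    exact ((lt_div_iff₀ hL).1 hn).le

def arcH : ℝ ≃ₜ ℝ := (H.arc_mono.orderIsoOfSurjective _ H.arc_surj).toHomeomorph

/-- the normal angle as a function of arclength -/
def ang : ℝ → ℝ := H.arcH.symm

lemma arc_ang (x : ℝ) : arc h (H.ang x) = x := H.arcH.apply_symm_apply x

lemma ang_arc (ψ : ℝ) : H.ang (arc h ψ) = ψ := H.arcH.symm_apply_apply ψ

lemma ang_smooth : ContDiff ℝ ∞ H.ang :=
  H.arcH.contDiff_symm_deriv (f' := rho h) (fun x => (H.rho_pos x).ne') H.arc_deriv H.arc_smooth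

lemma ang_deriv (x : ℝ) : HasDerivAt H.ang (rho h (H.ang x))⁻¹ x :=
  HasDerivAt.of_local_left_inverse H.ang_smooth.continuous.continuousAt (H.arc_deriv _)
    (H.rho_pos _).ne' (Eventually.of_forall H.arc_ang)

lemma ang_add_int (x : ℝ) (n : ℤ) : H.ang (x + n * len h) = H.ang x + n * (2 * Real.pi) := by
  apply H.arc_mono.injective
  rw [H.arc_ang, H.arc_add_int, H.arc_ang]

lemma ang_inj {x x' : ℝ} (hx : x ∈ Ico 0 (len h)) (hx' : x' ∈ Ico 0 (len h)) {n : ℤ}
    (e : H.ang x = H.ang x' + n * (2 * Real.pi)) : x = x' := by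
  have hL := H.len_pos
  have h1 : x = x' + n * len h := by
    rw [← H.arc_ang x, e, H.arc_add_int, H.arc_ang]
  have h2 : (n : ℝ) < 1 := by
    by_contra hn
    push Not at hn
    nlinarith [hx.2, hx'.1]
  have h3 : (-1 : ℝ) < n := by
    by_contra hn
    push Not at hn
    nlinarith [hx.1, hx'.2]
  have h4 : n < 1 := by exact_mod_cast h2
  have h5 : -1 < n := by exact_mod_cast h3
  have h6 : n = 0 := by omega
  rw [h1, h6]
  simp

/-- the boundary curve -/
def gam (x : ℝ) : ℂ := g h (H.ang x)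

lemma gam_deriv (x : ℝ) : HasDerivAt H.gam (I * exp (H.ang x * I)) x := by
  have h1 := (H.g_deriv (H.ang x)).scomp x (H.ang_deriv x)
  refine h1.congr_deriv ?_
  have : (rho h (H.ang x) : ℂ) ≠ 0 := by exact_mod_cast (H.rho_pos _).ne'
  rw [real_smul]
  push_cast
  field_simp

lemma gam_deriv' : deriv H.gam = fun x => I * exp (H.ang x * I) :=
  funext fun x => (H.gam_deriv x).deriv

lemma isTable : IsTable (tab h) H.gam (len h) where
  pos := H.len_pos
  smooth := H.g_smooth.comp H.ang_smooth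
  unit := fun x => by simp [H.gam_deriv', norm_exp_ofReal_mul_I]
  periodic := fun x => by
    have := H.ang_add_int x 1
    simp only [Int.cast_one, one_mul] at this
    simp only [gam, this, H.g_per _]
  simple := fun x hx x' hx' e => by
    obtain ⟨n, hn⟩ := H.g_inj e
    exact H.ang_inj hx hx' hn
  compact := H.tab_compact
  inner := H.inner_tab
  boundary := by
    rw [H.frontier_tab]
    ext y
    constructor
    · rintro ⟨ψ, rfl⟩
      exact ⟨arc h ψ, by simp only [gam, H.ang_arc]⟩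
    · rintro ⟨x, rfl⟩
      exact ⟨_, rfl⟩
  strict := H.strict_tab
  left := fun x y hy => by
    have h1 := hy (H.ang x)
    rw [← fl_self (h := h), ← cmp_g] at h1
    have h2 : (y - H.gam x) / deriv H.gam x =
        -I * (y - H.gam x) * exp ((-H.ang x : ℝ) * I) := by
      rw [H.gam_deriv']
      have : exp (H.ang x * I) ≠ 0 := exp_ne_zero _
      push_cast
      rw [neg_mul (H.ang x : ℂ) I, exp_neg]
      field_simp
      linear_combination (y - H.gam x) * I_mul_I
    rw [h2]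
    simp only [mul_im, mul_re, neg_re, neg_im, I_re, I_im, exp_ofReal_mul_I_re,
      exp_ofReal_mul_I_im, Real.cos_neg, Real.sin_neg, sub_re, sub_im]
    unfold cmp at h1
    unfold gam
    linarith
  curv := fun x => by
    have h1 : HasDerivAt (fun x => I * exp (H.ang x * I))
        (I * (exp (H.ang x * I) * (((rho h (H.ang x))⁻¹ : ℝ) * I))) x :=
      (((H.ang_deriv x).ofReal_comp.mul_const I).cexp).const_mul I
    rw [H.gam_deriv', h1.deriv]
    have : exp (H.ang x * I) ≠ 0 := exp_ne_zero _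
    have h2 : I * (exp (H.ang x * I) * (((rho h (H.ang x))⁻¹ : ℝ) * I)) / (I * exp (H.ang x * I)) =
        (((rho h (H.ang x))⁻¹ : ℝ) * I) := by
      field_simp
    rw [h2]
    simpa using H.rho_pos _

lemma next_exists {s : ℝ × ℝ} (hs : s.2 ∈ Ioo 0 Real.pi) : ∃ s', Next h s s' := by
  have hpi := Real.pi_pos
  set φ := s.1 + s.2 with hφ
  have h1 : s.1 ∈ Icc (φ - Real.pi) φ := ⟨by linarith [hs.2], by linarith [hs.1]⟩
  have h2 : fl h φ s.1 < fl h φ φ :=
    H.fl_mono φ h1 ⟨by linarith, le_rfl⟩ (by linarith [hs.1])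
  have h3 : fl h φ (φ + Real.pi) < fl h φ s.1 := by
    rw [← (H.fl_per φ).sub_eq, show φ + Real.pi - 2 * Real.pi = φ - Real.pi by ring]
    exact H.fl_mono φ ⟨le_rfl, by linarith⟩ h1 (by linarith [hs.2])
  obtain ⟨ψ, hψ, e⟩ := intermediate_value_Ioo' (show φ ≤ φ + Real.pi by linarith)
    (H.fl_cont φ).continuousOn ⟨h3, h2⟩
  exact ⟨(ψ, ψ - φ), hs, ⟨by linarith [hψ.1], by linarith [hψ.2]⟩, by simp [hφ], e.symm⟩

lemma next_unique {s s' s'' : ℝ × ℝ} (h1 : Next h s s') (h2 : Next h s s'') : s' = s'' := by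
  obtain ⟨-, a1, a2, a3⟩ := h1
  obtain ⟨-, b1, b2, b3⟩ := h2
  have e : s'.1 = s''.1 :=
    (H.fl_anti (s.1 + s.2)).injOn ⟨by linarith [a1.1], by linarith [a1.2]⟩
      ⟨by linarith [b1.1], by linarith [b1.2]⟩ (a3.symm.trans b3)
  exact Prod.ext e (by linarith)

lemma next_shift {s s' : ℝ × ℝ} (h1 : Next h s s') (n : ℤ) :
    Next h (s.1 + n * (2 * Real.pi), s.2) (s'.1 + n * (2 * Real.pi), s'.2) := by
  obtain ⟨a0, a1, a2, a3⟩ := h1
  refine ⟨a0, a1, by simp only; linarith, ?_⟩
  simp only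
  rw [show s.1 + n * (2 * Real.pi) + s.2 = s.1 + s.2 + n * (2 * Real.pi) by ring, fl_per', fl_per',
    ← zsmul_eq_mul, (H.fl_per _).zsmul n, (H.fl_per _).zsmul n, a3]

lemma next_rev {s s' : ℝ × ℝ} (h1 : Next h s s') :
    Next h (s'.1, Real.pi - s'.2) (s.1 + 2 * Real.pi, Real.pi - s.2) := by
  obtain ⟨a0, a1, a2, a3⟩ := h1
  refine ⟨⟨by linarith [a1.2], by linarith [a1.1]⟩, ⟨by linarith [a0.2], by linarith [a0.1]⟩,
    by simp only; linarith, ?_⟩
  simp only
  rw [show s'.1 + (Real.pi - s'.2) = s.1 + s.2 + Real.pi by linarith, fl_add_pi, fl_add_pi,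
    H.fl_per _ _, a3]

/-- reduction to the phase annulus -/
def XX (s : ℝ × ℝ) : ℝ × ℝ := (toIcoMod H.len_pos 0 (arc h s.1), s.2)

/-- the billiard map -/
def bil (p : ℝ × ℝ) : ℝ × ℝ :=
  if hp : p.2 ∈ Ioo 0 Real.pi then H.XX (H.next_exists (s := (H.ang p.1, p.2)) hp).choose else p

lemma XX_shift (s : ℝ × ℝ) (n : ℤ) : H.XX (s.1 + n * (2 * Real.pi), s.2) = H.XX s := by
  simp only [XX]
  rw [H.arc_add_int, ← zsmul_eq_mul, toIcoMod_add_zsmul]

lemma XX_mem (s : ℝ × ℝ) : (H.XX s).1 ∈ Ico 0 (len h) := toIcoMod_mem_Ico' _ _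

lemma ang_XX (s : ℝ × ℝ) : ∃ n : ℤ, H.ang (H.XX s).1 = s.1 + n * (2 * Real.pi) := by
  refine ⟨-toIcoDiv H.len_pos 0 (arc h s.1), ?_⟩
  simp only [XX]
  rw [← self_sub_toIcoDiv_zsmul, sub_eq_add_neg, ← neg_zsmul, zsmul_eq_mul, H.ang_add_int,
    H.ang_arc]

lemma XX_ang {p : ℝ × ℝ} (hp : p.1 ∈ Ico 0 (len h)) : H.XX (H.ang p.1, p.2) = p := by
  simp only [XX, H.arc_ang]
  rw [(toIcoMod_eq_self H.len_pos).2 (by simpa using hp)]

lemma bil_of_next {p s' : ℝ × ℝ} (h1 : Next h (H.ang p.1, p.2) s') : H.bil p = H.XX s' := by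
  have hp : p.2 ∈ Ioo 0 Real.pi := h1.1
  rw [bil, dif_pos hp, H.next_unique (H.next_exists (s := (H.ang p.1, p.2)) hp).choose_spec h1]

lemma bil_XX {s s' : ℝ × ℝ} (h1 : Next h s s') : H.bil (H.XX s) = H.XX s' := by
  obtain ⟨n, hn⟩ := H.ang_XX s
  have h2 := H.next_shift h1 n
  rw [← hn] at h2
  rw [H.bil_of_next (p := H.XX s) h2, H.XX_shift]

lemma bil_rev {s s' : ℝ × ℝ} (h1 : Next h s s') :
    H.bil (H.XX (s'.1, Real.pi - s'.2)) = H.XX (s.1, Real.pi - s.2) := by
  rw [H.bil_XX (H.next_rev h1)]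
  have := H.XX_shift (s.1, Real.pi - s.2) 1
  simpa using this

lemma isBilliard : IsBilliardMap H.gam (len h) H.bil where
  maps := fun p hp => by
    by_cases h0 : p.2 ∈ Ioo 0 Real.pi
    · obtain ⟨s', hs'⟩ := H.next_exists (s := (H.ang p.1, p.2)) h0
      rw [H.bil_of_next hs']
      exact ⟨H.XX_mem _, Ioo_subset_Icc_self hs'.2.1⟩
    · rw [bil, dif_neg h0]
      exact hp
  tangent := fun p _ h0 => by
    rw [bil, dif_neg]
    rintro ⟨a, b⟩
    rcases h0 with h0 | h0 <;> linarith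
  chord := fun p _ h0 h1 => by
    obtain ⟨s', hs'⟩ := H.next_exists (s := (H.ang p.1, p.2)) ⟨h0, h1⟩
    rw [H.bil_of_next hs']
    obtain ⟨n, hn⟩ := H.ang_XX s'
    obtain ⟨-, a1, a2, a3⟩ := hs'
    simp only at a2 a3
    have e1 : H.gam (H.XX s').1 = g h s'.1 := by
      rw [gam, hn, ← zsmul_eq_mul, H.g_per.zsmul n]
    rw [e1, gam, dir, H.gam_deriv']
    set ψ := H.ang p.1
    set φ := ψ + p.2 with hφ
    set w := g h s'.1 - g h ψ with hw
    have e2 : w.re * Real.cos φ + w.im * Real.sin φ = 0 := by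
      rw [← cmp_g, ← cmp_g] at a3
      unfold cmp at a3
      simp only [hw, sub_re, sub_im]
      linarith
    have e3 : w.re * Real.cos ψ + w.im * Real.sin ψ < 0 := by
      have hne : ∀ m : ℤ, s'.1 ≠ ψ + m * (2 * Real.pi) := by
        intro m hm
        have hpi := Real.pi_pos
        have b1 : (0 : ℝ) < m := by
          by_contra hc
          push Not at hc
          nlinarith [a1.1]
        have b2 : (m : ℝ) < 1 := by
          by_contra hc
          push Not at hc
          nlinarith [a1.2]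
        have b3 : 0 < m := by exact_mod_cast b1
        have b4 : m < 1 := by exact_mod_cast b2
        omega
      have := H.fl_lt hne
      rw [← fl_self (h := h), ← cmp_g, ← cmp_g] at this
      unfold cmp at this
      simp only [hw, sub_re, sub_im]
      linarith
    have e4 := Real.sin_sq_add_cos_sq φ
    set t := -w.re * Real.sin φ + w.im * Real.cos φ with ht
    have e5 : w.re = -t * Real.sin φ := by
      rw [ht]; linear_combination Real.cos φ * e2 - w.re * e4
    have e6 : w.im = t * Real.cos φ := by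
      rw [ht]; linear_combination Real.sin φ * e2 - w.im * e4
    have e7 : Real.sin p.2 = Real.sin φ * Real.cos ψ - Real.cos φ * Real.sin ψ := by
      rw [← Real.sin_sub]; congr 1; simp [hφ]
    have e8 := Real.sin_pos_of_pos_of_lt_pi h0 h1
    refine ⟨t, ?_, ?_⟩
    · rw [e5, e6] at e3
      by_contra hc
      push Not at hc
      nlinarith
    · have e9 : I * exp (ψ * I) * exp (p.2 * I) = I * exp (φ * I) := by
        rw [mul_assoc, ← exp_add, hφ]
        push_cast
        ring_nf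
      simp only
      rw [e9, ← sub_eq_iff_eq_add', ← hw]
      apply Complex.ext
      · simp only [mul_re, mul_im, ofReal_re, ofReal_im, I_re, I_im, exp_ofReal_mul_I_re,
          exp_ofReal_mul_I_im]
        linarith
      · simp only [mul_re, mul_im, ofReal_re, ofReal_im, I_re, I_im, exp_ofReal_mul_I_re,
          exp_ofReal_mul_I_im]
        linarith
  bounce := fun p _ h0 h1 => by
    obtain ⟨s', hs'⟩ := H.next_exists (s := (H.ang p.1, p.2)) ⟨h0, h1⟩
    rw [H.bil_of_next hs']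
    obtain ⟨n, hn⟩ := H.ang_XX s'
    obtain ⟨-, a1, a2, a3⟩ := hs'
    simp only at a2 a3
    have e2 : (H.XX s').2 = s'.2 := rfl
    simp only [dir, H.gam_deriv', hn, e2, reflect]
    have c1 : Real.cos (s'.1 + n * (2 * Real.pi)) = Real.cos s'.1 :=
      Real.cos_add_int_mul_two_pi _ _
    have c2 : Real.sin (s'.1 + n * (2 * Real.pi)) = Real.sin s'.1 :=
      Real.sin_add_int_mul_two_pi _ _
    have c3 : Real.cos (H.ang p.1) * Real.cos p.2 - Real.sin (H.ang p.1) * Real.sin p.2 =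
        Real.cos s'.1 * Real.cos s'.2 + Real.sin s'.1 * Real.sin s'.2 := by
      rw [← Real.cos_add, ← Real.cos_sub, a2]
    have c4 : Real.sin (H.ang p.1) * Real.cos p.2 + Real.cos (H.ang p.1) * Real.sin p.2 =
        Real.sin s'.1 * Real.cos s'.2 - Real.cos s'.1 * Real.sin s'.2 := by
      rw [← Real.sin_add, ← Real.sin_sub, a2]
    have c5 := Real.sin_sq_add_cos_sq s'.1
    apply Complex.ext
    · simp only [mul_re, mul_im, sub_re, ofReal_re, ofReal_im, I_re, I_im, exp_ofReal_mul_I_re,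
        exp_ofReal_mul_I_im, c1, c2]
      linear_combination (2 * Real.sin s'.1 * Real.cos s'.1) * c3 +
        (2 * Real.sin s'.1 ^ 2 - 1) * c4 +
        (2 * Real.sin s'.1 * Real.cos s'.2) * c5
    · simp only [mul_re, mul_im, sub_im, ofReal_re, ofReal_im, I_re, I_im, exp_ofReal_mul_I_re,
        exp_ofReal_mul_I_im, c1, c2]
      linear_combination (1 - 2 * Real.cos s'.1 ^ 2) * c3 -
        (2 * Real.sin s'.1 * Real.cos s'.1) * c4 -
        (2 * Real.cos s'.1 * Real.cos s'.2) * c5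

end Hyp

end

end Pool.Agent.Lib.MP_0281e9_an.BS
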