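import Pool.Agent.Lib.MP_0281e9_an.Base

namespace Pool.Agent.Lib.MP_0281e9_an.BH

open Set Filter
open scoped ContDiff Topology

noncomputable section

/-- primitive of a function -/
def prim (c : ℝ) (f : ℝ → ℝ) (a : ℝ) : ℝ := ∫ t in c..a, f t

lemma prim_hasDerivAt (c : ℝ) {f : ℝ → ℝ} (hf : Continuous f) (a : ℝ) :
    HasDerivAt (prim c f) (f a) a :=
  intervalIntegral.integral_hasDerivAt_right (hf.intervalIntegrable _ _)
    (hf.stronglyMeasurableAtFilter _ _) hf.continuousAt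

lemma prim_deriv (c : ℝ) {f : ℝ → ℝ} (hf : Continuous f) : deriv (prim c f) = f :=
  funext fun a => (prim_hasDerivAt c hf a).deriv

lemma prim_contDiff (c : ℝ) {f : ℝ → ℝ} (hf : ContDiff ℝ ∞ f) : ContDiff ℝ ∞ (prim c f) := by
  rw [contDiff_infty_iff_deriv, prim_deriv c hf.continuous]
  exact ⟨fun a => (prim_hasDerivAt c hf.continuous a).differentiableAt, hf⟩

lemma prim_self (c : ℝ) (f : ℝ → ℝ) : prim c f c = 0 := by simp [prim]

lemma hd1 {f : ℝ → ℝ} (hf : ContDiff ℝ ∞ f) (x : ℝ) : HasDerivAt f (deriv f x) x :=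
  ((contDiff_infty_iff_deriv.1 hf).1 x).hasDerivAt

lemma cd1 {f : ℝ → ℝ} (hf : ContDiff ℝ ∞ f) : ContDiff ℝ ∞ (deriv f) :=
  (contDiff_infty_iff_deriv.1 hf).2

lemma hd2 {f : ℝ → ℝ} (hf : ContDiff ℝ ∞ f) (x : ℝ) :
    HasDerivAt (deriv f) (deriv (deriv f) x) x := hd1 (cd1 hf) x

lemma dd_eq {f f1 : ℝ → ℝ} {y x : ℝ} (h1 : ∀ x, HasDerivAt f (f1 x) x) (h2 : HasDerivAt f1 y x) :
    deriv (deriv f) x = y := by
  have : deriv f = f1 := funext fun x => (h1 x).deriv
  rw [this, h2.deriv]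

def sg (s : ℝ) : ℝ := Real.smoothTransition ((s + 1) / 2)

lemma sg_contDiff : ContDiff ℝ ∞ sg :=
  Real.smoothTransition.contDiff.comp ((contDiff_id.add contDiff_const).div_const _)

lemma sg_mono : Monotone sg := fun a b h =>
  Real.smoothTransition.monotone (by linarith)

lemma sg_nonneg (s : ℝ) : 0 ≤ sg s := Real.smoothTransition.nonneg _

lemma sg_le (s : ℝ) : sg s ≤ 1 := Real.smoothTransition.le_one _

lemma sg_zero {s : ℝ} (h : s ≤ -1) : sg s = 0 :=
  Real.smoothTransition.zero_of_nonpos (by linarith)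

lemma sg_symm (s : ℝ) : sg s + sg (-s) = 1 := by
  unfold sg Real.smoothTransition
  have h1 : (1 : ℝ) - (-s + 1) / 2 = (s + 1) / 2 := by ring
  have h2 : (1 : ℝ) - (s + 1) / 2 = (-s + 1) / 2 := by ring
  have h3 := Real.smoothTransition.pos_denom ((s + 1) / 2)
  rw [h1, h2] at *
  rw [add_comm (expNegInvGlue ((-s + 1) / 2)), ← add_div]
  exact div_self h3.ne'

def th : ℝ → ℝ := prim (-1) sg

lemma th_hd (s : ℝ) : HasDerivAt th (sg s) s := prim_hasDerivAt _ sg_contDiff.continuous s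

lemma th_contDiff : ContDiff ℝ ∞ th := prim_contDiff _ sg_contDiff

lemma th_zero {s : ℝ} (h : s ≤ -1) : th s = 0 := by
  unfold th prim
  rw [intervalIntegral.integral_congr (g := fun _ => (0 : ℝ))]
  · simp
  · intro t ht
    rw [uIcc_of_ge h] at ht
    exact sg_zero ht.2

lemma th_mono : Monotone th :=
  monotone_of_hasDerivAt_nonneg th_hd fun s => sg_nonneg s

lemma th_nonneg (s : ℝ) : 0 ≤ th s := by
  rcases le_total s (-1) with h | h
  · rw [th_zero h]
  · rw [← th_zero (le_refl (-1 : ℝ))]; exact th_mono h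

lemma th_symm (s : ℝ) : th s = s + th (-s) := by
  have hd : ∀ x, HasDerivAt (fun x => th x - (x + th (-x))) 0 x := by
    intro x
    have h1 := (th_hd (-x)).comp x (hasDerivAt_neg x)
    have h2 := (th_hd x).sub ((hasDerivAt_id x).add h1)
    have h3 : sg x - (1 + sg (-x) * -1) = 0 := by linarith [sg_symm x]
    rw [h3] at h2
    exact h2
  have := is_const_of_deriv_eq_zero (fun x => (hd x).differentiableAt) (fun x => (hd x).deriv) s 0
  simp only [neg_zero, zero_add, sub_self] at this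
  linarith

lemma th_one {s : ℝ} (h : 1 ≤ s) : th s = s := by
  rw [th_symm, th_zero (by linarith), add_zero]

lemma th_gap (s : ℝ) : 0 ≤ th s - s * sg s := by
  rcases le_total s 0 with h | h
  · nlinarith [th_nonneg s, sg_nonneg s]
  · rw [th_symm]; nlinarith [th_nonneg (-s), sg_le s]

/-- smooth, periodic and `f + f'' ≥ c` -/
structure Good (c : ℝ) (f : ℝ → ℝ) : Prop where
  cd : ContDiff ℝ ∞ f
  per : Function.Periodic f (2 * Real.pi)
  le : ∀ x, c ≤ f x + deriv (deriv f) x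

lemma Good.mono {c d : ℝ} {f : ℝ → ℝ} (h : Good c f) (hd : d ≤ c) : Good d f :=
  ⟨h.cd, h.per, fun x => hd.trans (h.le x)⟩

lemma Good.add {c d : ℝ} {f g : ℝ → ℝ} (hf : Good c f) (hg : Good d g) :
    Good (c + d) (fun x => f x + g x) := by
  refine ⟨hf.cd.add hg.cd, fun x => by simp only [hf.per x, hg.per x], fun x => ?_⟩
  rw [dd_eq (fun x => (hd1 hf.cd x).fun_add (hd1 hg.cd x)) ((hd2 hf.cd x).fun_add (hd2 hg.cd x))]
  linarith [hf.le x, hg.le x]

lemma good_const (c : ℝ) : Good c (fun _ => c) :=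
  ⟨contDiff_const, fun _ => rfl, fun x => by simp⟩

lemma good_sum {c : ℝ} {f : ℕ → ℝ → ℝ} (n : ℕ) (hf : ∀ i < n, Good c (f i)) :
    Good (n * c) (fun x => ∑ i ∈ Finset.range n, f i x) := by
  induction n with
  | zero => simpa using good_const 0
  | succ n ih =>
    have h := (ih fun i hi => hf i (by omega)).add (hf n (by omega))
    simp only [Finset.sum_range_succ]
    refine h.mono (le_of_eq ?_)
    push_cast; ring

/-- smooth maximum -/
def smax (μ : ℝ) (u v : ℝ → ℝ) (x : ℝ) : ℝ := v x + μ * th ((u x - v x) / μ)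

lemma smax_left {μ : ℝ} (hμ : 0 < μ) {u v : ℝ → ℝ} {x : ℝ} (h : v x + μ ≤ u x) :
    smax μ u v x = u x := by
  unfold smax
  rw [th_one (by rw [le_div_iff₀ hμ]; linarith)]
  field_simp; ring

lemma smax_right {μ : ℝ} (hμ : 0 < μ) {u v : ℝ → ℝ} {x : ℝ} (h : u x + μ ≤ v x) :
    smax μ u v x = v x := by
  unfold smax
  rw [th_zero (by rw [div_le_iff₀ hμ]; linarith)]
  ring

lemma Good.smax {c μ : ℝ} (hμ : 0 < μ) {u v : ℝ → ℝ} (hu : Good c u) (hv : Good c v) :
    Good c (smax μ u v) := by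
  refine ⟨hv.cd.add (contDiff_const.mul (th_contDiff.comp ((hu.cd.sub hv.cd).div_const _))),
    fun x => by simp only [BH.smax, hu.per x, hv.per x], fun x => ?_⟩
  have hs : ∀ x, HasDerivAt (fun x => (u x - v x) / μ) ((deriv u x - deriv v x) / μ) x :=
    fun x => ((hd1 hu.cd x).fun_sub (hd1 hv.cd x)).div_const μ
  have h1 : ∀ x, HasDerivAt (BH.smax μ u v)
      (deriv v x + sg ((u x - v x) / μ) * (deriv u x - deriv v x)) x := by
    intro x
    have := (hd1 hv.cd x).fun_add (((th_hd _).comp x (hs x)).const_mul μ)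
    refine this.congr_deriv ?_
    field_simp
  have h2 := (hd2 hv.cd x).fun_add (((hd1 sg_contDiff _).comp x (hs x)).fun_mul
    ((hd2 hu.cd x).fun_sub (hd2 hv.cd x)))
  rw [dd_eq h1 h2]
  simp only [Function.comp, BH.smax]
  set s := (u x - v x) / μ with hs'
  have e1 : u x = v x + μ * s := by rw [hs']; field_simp; ring
  have a1 := hu.le x
  have a2 := hv.le x
  have a3 := th_gap s
  have a4 := sg_nonneg s
  have a5 := sg_le s
  have a6 : 0 ≤ deriv sg s * ((deriv u x - deriv v x) / μ) * (deriv u x - deriv v x) := by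
    rw [mul_assoc, div_mul_eq_mul_div]
    exact mul_nonneg sg_mono.deriv_nonneg (div_nonneg (mul_self_nonneg _) hμ.le)
  have a7 := mul_nonneg hμ.le a3
  have a8 := mul_nonneg a4 (sub_nonneg.2 a1)
  have a9 := mul_nonneg (sub_nonneg.2 a5) (sub_nonneg.2 a2)
  rw [e1] at a8
  nlinarith

/-- the arcs at the two ends -/
def Uf (a b τ x : ℝ) : ℝ := Real.cos (x - a) + τ * Real.cos (x - b) + (1 - Real.cos (x - b)) / 2

lemma good_Uf (a b τ : ℝ) : Good (1 / 2) (Uf a b τ) := by
  refine ⟨?_, fun x => ?_, fun x => ?_⟩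
  · unfold Uf; fun_prop
  · unfold Uf
    rw [show x + 2 * Real.pi - a = x - a + 2 * Real.pi by ring,
      show x + 2 * Real.pi - b = x - b + 2 * Real.pi by ring, Real.cos_add_two_pi,
      Real.cos_add_two_pi]
  · have hc : ∀ a x : ℝ, HasDerivAt (fun x => Real.cos (x - a)) (-Real.sin (x - a)) x := by
      intro a x
      simpa using ((hasDerivAt_id x).sub_const a).cos
    have hs : ∀ a x : ℝ, HasDerivAt (fun x => -Real.sin (x - a)) (-Real.cos (x - a)) x := by
      intro a x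
      simpa using ((hasDerivAt_id x).sub_const a).sin.fun_neg
    have h1 : ∀ x, HasDerivAt (Uf a b τ)
        (-Real.sin (x - a) + τ * -Real.sin (x - b) + (-(-Real.sin (x - b))) / 2) x := fun x =>
      ((hc a x).fun_add ((hc b x).const_mul τ)).fun_add (((hc b x).const_sub 1).div_const 2)
    have h2 := ((hs a x).fun_add ((hs b x).const_mul τ)).fun_add ((hs b x).fun_neg.div_const 2)
    rw [dd_eq h1 h2]
    unfold Uf
    linarith

/-- periodisation -/
def per (b : ℝ → ℝ) (t : ℝ) : ℝ := b (t - 2 * Real.pi * round (t / (2 * Real.pi)))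

lemma per_eq {b : ℝ → ℝ} (hb : ∀ t, 1 ≤ |t| → b t = 0) (t : ℝ) (k : ℤ)
    (hk : |t - 2 * Real.pi * k| ≤ 5) : per b t = b (t - 2 * Real.pi * k) := by
  unfold per
  set k' := round (t / (2 * Real.pi)) with hk'
  by_cases h : k' = k
  · rw [h]
  have hpi := Real.pi_gt_three
  have hpi' := Real.pi_le_four
  have h1 : |t - 2 * Real.pi * k'| ≤ Real.pi := by
    have h2 := abs_sub_round (t / (2 * Real.pi))
    rw [← hk'] at h2
    have h3 : t - 2 * Real.pi * k' = (2 * Real.pi) * (t / (2 * Real.pi) - k') := by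
      field_simp
    rw [h3, abs_mul, abs_of_pos (by positivity)]
    nlinarith
  have h4 : (1 : ℝ) ≤ |(k' : ℝ) - k| := by
    have : (1 : ℤ) ≤ |k' - k| := Int.one_le_abs (sub_ne_zero.2 h)
    exact_mod_cast this
  have h5 : 2 * Real.pi ≤ |t - 2 * Real.pi * k| + |t - 2 * Real.pi * k'| := by
    have h6 := abs_sub (t - 2 * Real.pi * k) (t - 2 * Real.pi * k')
    rw [show t - 2 * Real.pi * k - (t - 2 * Real.pi * k') = (2 * Real.pi) * ((k' : ℝ) - k) by ring,
      abs_mul, abs_of_pos (show 0 < 2 * Real.pi by positivity)] at h6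
    nlinarith
  rw [hb _ (by linarith), hb _ (by linarith)]

lemma good_per {b : ℝ → ℝ} {c : ℝ} (hb : ∀ t, 1 ≤ |t| → b t = 0) (hs : ContDiff ℝ ∞ b)
    (hc : ∀ t, c ≤ b t + deriv (deriv b) t) (p : ℝ) : Good c (fun x => per b (x - p)) := by
  have hloc : ∀ x0 : ℝ, ∃ q : ℝ, (fun x => per b (x - p)) =ᶠ[𝓝 x0] fun x => b (x - q) := by
    intro x0
    set k := round ((x0 - p) / (2 * Real.pi)) with hk
    refine ⟨p + 2 * Real.pi * k, ?_⟩
    have hpi := Real.pi_pos
    have hpi' := Real.pi_le_four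
    have h1 : |x0 - p - 2 * Real.pi * k| ≤ Real.pi := by
      have h2 := abs_sub_round ((x0 - p) / (2 * Real.pi))
      rw [← hk] at h2
      have h3 : x0 - p - 2 * Real.pi * k = (2 * Real.pi) * ((x0 - p) / (2 * Real.pi) - k) := by
        field_simp
      rw [h3, abs_mul, abs_of_pos (by positivity)]
      nlinarith
    filter_upwards [Ioo_mem_nhds (show x0 - 1 < x0 by linarith) (show x0 < x0 + 1 by linarith)]
      with x hx
    rw [per_eq hb (x - p) k, sub_sub]
    rw [abs_le] at h1 ⊢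
    constructor <;> linarith [hx.1, hx.2, h1.1, h1.2]
  refine ⟨contDiff_iff_contDiffAt.2 fun x0 => ?_, fun x => ?_, fun x0 => ?_⟩
  · obtain ⟨q, hq⟩ := hloc x0
    exact ((hs.comp (contDiff_id.sub contDiff_const)).contDiffAt).congr_of_eventuallyEq hq
  · simp only [per]
    have hpi := Real.pi_pos
    rw [show (x + 2 * Real.pi - p) / (2 * Real.pi) = (x - p) / (2 * Real.pi) + 1 by
      field_simp; ring, round_add_one]
    congr 1
    push_cast; ring
  · obtain ⟨q, hq⟩ := hloc x0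
    rw [hq.deriv.deriv_eq, hq.eq_of_nhds]
    have h1 : ∀ x, HasDerivAt (fun x => b (x - q)) (deriv b (x - q)) x := fun x =>
      (hd1 hs (x - q)).comp_sub_const x q
    have h2 : HasDerivAt (fun x => deriv b (x - q)) (deriv (deriv b) (x0 - q)) x0 :=
      (hd2 hs (x0 - q)).comp_sub_const x0 q
    rw [dd_eq h1 h2]
    exact hc _

end

end Pool.Agent.Lib.MP_0281e9_an.BH
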