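import Pool.Agent.Lib.MP_0281e9_an.TabA

namespace Pool.Agent.Lib.MP_0281e9_an.BH

open Set Filter
open scoped ContDiff Topology

noncomputable section

def m1 (A a : ℝ) : ℝ := -A - 1 / 2 + 1 / 2 * th (2 * (a + A + 1 / 2))

lemma m1_contDiff (A : ℝ) : ContDiff ℝ ∞ (m1 A) :=
  contDiff_const.add (contDiff_const.mul (th_contDiff.comp (by fun_prop)))

lemma m1_mono (A : ℝ) : Monotone (m1 A) := fun a b h => by
  have := th_mono (show 2 * (a + A + 1 / 2) ≤ 2 * (b + A + 1 / 2) by linarith)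
  unfold m1; linarith

lemma m1_ge (A a : ℝ) : -A - 1 / 2 ≤ m1 A a := by
  have := th_nonneg (2 * (a + A + 1 / 2))
  unfold m1; linarith

lemma m1_eq {A a : ℝ} (h : -A ≤ a) : m1 A a = a := by
  unfold m1; rw [th_one (by linarith)]; ring

/-- smooth monotone clamp -/
def cl (A a : ℝ) : ℝ := -m1 A (-m1 A a)

lemma cl_contDiff (A : ℝ) : ContDiff ℝ ∞ (cl A) :=
  ((m1_contDiff A).comp (m1_contDiff A).neg).neg

lemma cl_mono (A : ℝ) : Monotone (cl A) := fun _ _ h =>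
  neg_le_neg (m1_mono A (neg_le_neg (m1_mono A h)))

lemma cl_eq {A a : ℝ} (h : |a| ≤ A) : cl A a = a := by
  rw [abs_le] at h
  unfold cl
  rw [m1_eq h.1, m1_eq (by linarith [h.2]), neg_neg]

lemma cl_abs {A : ℝ} (hA : 0 ≤ A) (a : ℝ) : |cl A a| ≤ A + 1 := by
  rw [abs_le]
  unfold cl
  have h1 := m1_ge A (-m1 A a)
  have h2 := m1_mono A (show -m1 A a ≤ A + 1 / 2 by linarith [m1_ge A a])
  rw [m1_eq (show -A ≤ A + 1 / 2 by linarith)] at h2
  constructor <;> linarith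

/-- truncated convex function -/
def vt (A : ℝ) (v : ℝ → ℝ) (a : ℝ) : ℝ := v 0 + prim 0 (fun s => deriv v (cl A s)) a

lemma vt_contDiff (A : ℝ) {v : ℝ → ℝ} (hv : ContDiff ℝ ∞ v) : ContDiff ℝ ∞ (vt A v) :=
  contDiff_const.add (prim_contDiff _ ((cd1 hv).comp (cl_contDiff A)))

lemma vt_hd (A : ℝ) {v : ℝ → ℝ} (hv : ContDiff ℝ ∞ v) (a : ℝ) :
    HasDerivAt (vt A v) (deriv v (cl A a)) a :=
  (prim_hasDerivAt 0 ((cd1 hv).comp (cl_contDiff A)).continuous a).const_add _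

lemma vt_hd2 (A : ℝ) {v : ℝ → ℝ} (hv : ContDiff ℝ ∞ v) (a : ℝ) :
    HasDerivAt (fun a => deriv v (cl A a)) (deriv (deriv v) (cl A a) * deriv (cl A) a) a :=
  (hd2 hv _).comp a (hd1 (cl_contDiff A) a)

lemma vt_eq {A : ℝ} {v : ℝ → ℝ} (hv : ContDiff ℝ ∞ v) {a : ℝ} (h : |a| ≤ A) : vt A v a = v a := by
  unfold vt prim
  rw [intervalIntegral.integral_congr (g := deriv v), intervalIntegral.integral_deriv_eq_sub]
  · ring
  · exact fun x _ => (hd1 hv x).differentiableAt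
  · exact (cd1 hv).continuous.intervalIntegrable _ _
  · intro t ht
    have : |t| ≤ A := by
      rw [abs_le] at h ⊢
      rcases le_total 0 a with h' | h'
      · rw [uIcc_of_le h'] at ht; constructor <;> linarith [ht.1, ht.2]
      · rw [uIcc_of_ge h'] at ht; constructor <;> linarith [ht.1, ht.2]
    simp only [cl_eq this]

lemma vt_abs {A C : ℝ} (hA : 0 ≤ A) {v : ℝ → ℝ} (h0 : |v 0| ≤ C)
    (h1 : ∀ a, |a| ≤ A + 1 → |deriv v a| ≤ C) (a : ℝ) : |vt A v a| ≤ C + C * |a| := by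
  unfold vt prim
  refine (abs_add_le _ _).trans (add_le_add h0 ?_)
  have := intervalIntegral.norm_integral_le_of_norm_le_const (a := 0) (b := a) (C := C)
    (f := fun s => deriv v (cl A s)) (fun x _ => h1 _ (cl_abs hA x))
  simpa using this

def bump : ContDiffBump (0 : ℝ) := ⟨1 / 2, 1, by norm_num, by norm_num⟩

def chi (s : ℝ) : ℝ := bump s

lemma chi_contDiff : ContDiff ℝ ∞ chi := bump.contDiff

lemma chi_one {s : ℝ} (h : |s| ≤ 1 / 2) : chi s = 1 :=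
  bump.one_of_mem_closedBall (by simpa [bump] using h)

lemma chi_zero {s : ℝ} (h : 1 ≤ |s|) : chi s = 0 :=
  bump.zero_of_le_dist (by simpa [bump] using h)

lemma chi_nonneg (s : ℝ) : 0 ≤ chi s := bump.nonneg

lemma chi_supp : HasCompactSupport chi := bump.hasCompactSupport

lemma chi_bound : ∃ K : ℝ, 0 ≤ K ∧ ∀ s, |chi s| ≤ K ∧ |s * chi s| ≤ K ∧ |deriv chi s| ≤ K ∧
    |deriv (deriv chi) s| ≤ K ∧ |s * deriv (deriv chi) s| ≤ K := by
  have c0 := chi_contDiff.continuous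
  have c1 := (cd1 chi_contDiff).continuous
  have c2 := (cd1 (cd1 chi_contDiff)).continuous
  obtain ⟨K1, h1⟩ := c0.bounded_above_of_compact_support chi_supp
  obtain ⟨K2, h2⟩ := (continuous_id.mul c0).bounded_above_of_compact_support chi_supp.mul_left
  obtain ⟨K3, h3⟩ := c1.bounded_above_of_compact_support chi_supp.deriv
  obtain ⟨K4, h4⟩ := c2.bounded_above_of_compact_support chi_supp.deriv.deriv
  obtain ⟨K5, h5⟩ := (continuous_id.mul c2).bounded_above_of_compact_support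
    chi_supp.deriv.deriv.mul_left
  have p1 := (norm_nonneg _).trans (h1 0)
  have p2 := (norm_nonneg _).trans (h2 0)
  have p3 := (norm_nonneg _).trans (h3 0)
  have p4 := (norm_nonneg _).trans (h4 0)
  have p5 := (norm_nonneg _).trans (h5 0)
  refine ⟨K1 + K2 + K3 + K4 + K5, by positivity, fun s => ?_⟩
  have q1 : |chi s| ≤ K1 := h1 s
  have q2 : |s * chi s| ≤ K2 := h2 s
  have q3 : |deriv chi s| ≤ K3 := h3 s
  have q4 : |deriv (deriv chi) s| ≤ K4 := h4 s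
  have q5 : |s * deriv (deriv chi) s| ≤ K5 := h5 s
  refine ⟨?_, ?_, ?_, ?_, ?_⟩ <;> linarith

/-- the small mirror -/
def bb (η A : ℝ) (v : ℝ → ℝ) (t : ℝ) : ℝ := η ^ 4 * (vt A v (t / η ^ 2) * chi (4 * t / η))

lemma bb_contDiff (η A : ℝ) {v : ℝ → ℝ} (hv : ContDiff ℝ ∞ v) : ContDiff ℝ ∞ (bb η A v) :=
  contDiff_const.mul (((vt_contDiff A hv).comp (contDiff_id.div_const _)).mul
    (chi_contDiff.comp ((contDiff_const.mul contDiff_id).div_const _)))

lemma bb_zero {η : ℝ} (hη : 0 < η) (A : ℝ) (v : ℝ → ℝ) {t : ℝ} (ht : η / 4 ≤ |t|) :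
    bb η A v t = 0 := by
  unfold bb
  rw [chi_zero, mul_zero, mul_zero]
  rw [abs_div, abs_mul, abs_of_pos hη, le_div_iff₀ hη, abs_of_pos (show (0 : ℝ) < 4 by norm_num)]
  linarith

lemma bb_eq {η A : ℝ} (hη : 0 < η) (hA : η * A ≤ 1 / 100) {v : ℝ → ℝ} (hv : ContDiff ℝ ∞ v)
    {a : ℝ} (ha : |a| ≤ A) : bb η A v (η ^ 2 * a) = η ^ 4 * v a := by
  unfold bb
  rw [show η ^ 2 * a / η ^ 2 = a by field_simp, vt_eq hv ha, chi_one, mul_one]
  rw [show 4 * (η ^ 2 * a) / η = (4 * η) * a by field_simp, abs_mul,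
    abs_of_pos (show 0 < 4 * η by positivity)]
  nlinarith

lemma bb_le {η A C K : ℝ} (hη : 0 < η) (hη1 : η ≤ 1) (hA : 0 ≤ A) {v : ℝ → ℝ}
    (hv : ContDiff ℝ ∞ v) (hvv : ∀ a, 0 ≤ deriv (deriv v) a) (h0 : |v 0| ≤ C)
    (h1 : ∀ a, |a| ≤ A + 1 → |deriv v a| ≤ C) (hK0 : 0 ≤ K)
    (hK : ∀ s, |chi s| ≤ K ∧ |s * chi s| ≤ K ∧ |deriv chi s| ≤ K ∧
      |deriv (deriv chi) s| ≤ K ∧ |s * deriv (deriv chi) s| ≤ K) (t : ℝ) :
    -(30 * C * K * η) ≤ bb η A v t + deriv (deriv (bb η A v)) t := by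
  have hC : 0 ≤ C := (abs_nonneg _).trans h0
  have ha : ∀ t : ℝ, HasDerivAt (fun t => t / η ^ 2) (1 / η ^ 2) t := fun t =>
    (hasDerivAt_id t).div_const _
  have hs : ∀ t : ℝ, HasDerivAt (fun t => 4 * t / η) (4 / η) t := fun t => by
    simpa using ((hasDerivAt_id t).const_mul 4).div_const η
  have d1 : ∀ t, HasDerivAt (bb η A v) (η ^ 4 * (deriv v (cl A (t / η ^ 2)) * (1 / η ^ 2) *
      chi (4 * t / η) + vt A v (t / η ^ 2) * (deriv chi (4 * t / η) * (4 / η)))) t := fun t =>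
    (((vt_hd A hv _).comp t (ha t)).fun_mul ((hd1 chi_contDiff _).comp t (hs t))).const_mul _
  have d2 := (((((vt_hd2 A hv _).comp t (ha t)).mul_const (1 / η ^ 2)).fun_mul
    ((hd1 chi_contDiff _).comp t (hs t))).fun_add (((vt_hd A hv _).comp t (ha t)).fun_mul
      (((hd2 chi_contDiff _).comp t (hs t)).mul_const (4 / η)))).const_mul (η ^ 4)
  rw [dd_eq d1 d2]
  simp only [Function.comp, bb]
  set s := 4 * t / η with hs'
  have e1 : t / η ^ 2 = s / (4 * η) := by rw [hs']; field_simp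
  obtain ⟨k1, k2, k3, k4, k5⟩ := hK s
  have b1 := vt_abs hA h0 h1 (t / η ^ 2)
  have b2 := h1 _ (cl_abs hA (t / η ^ 2))
  have b3 : 0 ≤ deriv (deriv v) (cl A (t / η ^ 2)) * deriv (cl A) (t / η ^ 2) * chi s :=
    mul_nonneg (mul_nonneg (hvv _) (cl_mono A).deriv_nonneg) (chi_nonneg s)
  set V := vt A v (t / η ^ 2)
  set V1 := deriv v (cl A (t / η ^ 2))
  set V2 := deriv (deriv v) (cl A (t / η ^ 2)) * deriv (cl A) (t / η ^ 2)
  rw [e1, abs_div, abs_of_pos (show 0 < 4 * η by positivity)] at b1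
  have key : ∀ y : ℝ, |y| ≤ K → |s * y| ≤ K → |η * (V * y)| ≤ C * K * η + C * K / 4 := by
    intro y hy hsy
    rw [abs_mul] at hsy
    rw [abs_mul, abs_mul, abs_of_pos hη]
    calc η * (|V| * |y|) ≤ η * ((C + C * (|s| / (4 * η))) * |y|) := by gcongr
      _ = C * |y| * η + C * (|s| * |y|) / 4 := by field_simp
      _ ≤ C * K * η + C * K / 4 := by gcongr
  have c1 := (abs_le.1 (key _ k1 k2)).1
  have c2 := (abs_le.1 (key _ k4 k5)).1
  have c3 : -(C * K) ≤ V1 * deriv chi s := by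
    have : |V1 * deriv chi s| ≤ C * K := by rw [abs_mul]; gcongr
    exact (abs_le.1 this).1
  have e2 : η ^ 4 * (V * chi s) + η ^ 4 * (V2 * (1 / η ^ 2) * (1 / η ^ 2) * chi s +
      V1 * (1 / η ^ 2) * (deriv chi s * (4 / η)) + (V1 * (1 / η ^ 2) * (deriv chi s * (4 / η)) +
      V * (deriv (deriv chi) s * (4 / η) * (4 / η)))) =
      η ^ 3 * (η * (V * chi s)) + V2 * chi s + 8 * η * (V1 * deriv chi s) +
        16 * η * (η * (V * deriv (deriv chi) s)) := by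
    field_simp; ring
  rw [e2]
  have hCK : 0 ≤ C * K := mul_nonneg hC hK0
  have f0 : C * K * η ≤ C * K := by nlinarith
  have hη3 : η ^ 3 ≤ η := by nlinarith [mul_pos hη hη, mul_le_one₀ hη1 hη.le hη1]
  have f1 : -(2 * (C * K) * η) ≤ η ^ 3 * (η * (V * chi s)) := by
    have : -(2 * (C * K)) ≤ η * (V * chi s) := by linarith
    nlinarith [pow_pos hη 3]
  have f2 : -(8 * (C * K) * η) ≤ 8 * η * (V1 * deriv chi s) := by nlinarith
  have f3 : -(20 * (C * K) * η) ≤ 16 * η * (η * (V * deriv (deriv chi) s)) := by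
    have : -(5 / 4 * (C * K)) ≤ η * (V * deriv (deriv chi) s) := by linarith
    nlinarith
  linarith

lemma cos_le_small {s : ℝ} (h : |s| ≤ 1) : Real.cos s ≤ 1 - 43 / 96 * s ^ 2 := by
  have h1 := (abs_le.1 (Real.cos_bound h)).2
  have h2 : |s| ^ 4 ≤ s ^ 2 := by
    have : |s| ^ 4 = s ^ 2 * |s| ^ 2 := by rw [← sq_abs s]; ring
    rw [this]
    exact mul_le_of_le_one_right (sq_nonneg _) (pow_le_one₀ (abs_nonneg _) h)
  linarith

/-- the end arc is below the unit circle on all other windows -/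
lemma U_low {η : ℝ} (hη : 0 < η) {j : ℕ} (hj : 1 ≤ j) (hjη : (j + 2) * η ≤ 1 / 2) {e : ℝ}
    (he : |e| ≤ 6 / 10 * η) {t : ℝ} (ht : t = -(j * (Real.pi + η)) + e) :
    Real.cos t + 3 / 10 * η ^ 2 * Real.cos (t + η / 2) + (1 - Real.cos (t + η / 2)) / 2 ≤
      1 - η ^ 2 / 20 := by
  have hj' : (1 : ℝ) ≤ j := by exact_mod_cast hj
  rw [abs_le] at he
  set s := -(j * η) + e with hs
  have hη' : η ≤ 1 / 6 := by nlinarith
  have hjj : j * η ≤ 1 / 2 - 2 * η := by linarith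
  have c1 : Real.cos (t + η / 2) ≤ 1 := Real.cos_le_one _
  have c2 : 3 / 10 * η ^ 2 * Real.cos (t + η / 2) ≤ 3 / 10 * η ^ 2 :=
    mul_le_of_le_one_right (by positivity) c1
  rcases Nat.even_or_odd' j with ⟨k, hk | hk⟩
  · have hk1 : 1 ≤ k := by omega
    have hj2 : (2 : ℝ) ≤ j := by exact_mod_cast (show 2 ≤ j by omega)
    have e1 : t = s - k * (2 * Real.pi) := by rw [ht, hs, hk]; push_cast; ring
    have e2 : t + η / 2 = s + η / 2 - k * (2 * Real.pi) := by rw [e1]; ring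
    have s1 : s ≤ -(14 / 10 * η) := by nlinarith
    have s2 : -(1 / 2) ≤ s := by linarith
    rw [e2] at c2 ⊢
    rw [e1, Real.cos_sub_nat_mul_two_pi] at *
    rw [Real.cos_sub_nat_mul_two_pi]
    have a1 := cos_le_small (s := s) (by rw [abs_le]; constructor <;> linarith)
    have a2 := Real.one_sub_sq_div_two_le_cos (x := s + η / 2)
    have a3 : (s + η / 2) ^ 2 ≤ s ^ 2 := by nlinarith
    have a4 : (14 / 10 * η) ^ 2 ≤ s ^ 2 := by nlinarith
    nlinarith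
  · have e1 : t = s - Real.pi - k * (2 * Real.pi) := by rw [ht, hs, hk]; push_cast; ring
    have s1 : s ≤ 0 := by nlinarith
    have s2 : -(1 / 2) ≤ s := by linarith
    have a1 : Real.cos t = -Real.cos s := by
      rw [e1, Real.cos_sub_nat_mul_two_pi, Real.cos_sub_pi]
    have a2 := Real.one_sub_sq_div_two_le_cos (x := s)
    have a3 := Real.neg_one_le_cos (t + η / 2)
    nlinarith

lemma U_high {η : ℝ} (hη : 0 < η) (hη1 : η ≤ 1) {t : ℝ} (ht : |t + η / 2| ≤ η / 100) :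
    1 + η ^ 2 / 20 ≤
      Real.cos t + 3 / 10 * η ^ 2 * Real.cos (t + η / 2) + (1 - Real.cos (t + η / 2)) / 2 := by
  rw [abs_le] at ht
  have a1 := Real.one_sub_sq_div_two_le_cos (x := t)
  have a2 := Real.one_sub_sq_div_two_le_cos (x := t + η / 2)
  have a3 := Real.cos_le_one (t + η / 2)
  have a4 : t ^ 2 ≤ (51 / 100 * η) ^ 2 := by nlinarith
  have a5 : (t + η / 2) ^ 2 ≤ 1 / 100 := by nlinarith
  have a6 : 99 / 100 ≤ Real.cos (t + η / 2) := by linarith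
  nlinarith [sq_nonneg η]

end

end Pool.Agent.Lib.MP_0281e9_an.BH
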