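import Pool.Agent.Lib.MP_0281e9_an.TurSm

/-! Convergence of a perturbed Euler scheme in every `C^r` norm. -/

open Set Filter Topology Metric MeasureTheory
open scoped ContDiff

namespace Pool.Agent.Lib.MP_0281e9_an.BT

section
variable {D E : Type*} [NormedAddCommGroup D] [NormedSpace ℝ D]
  [NormedAddCommGroup E] [NormedSpace ℝ E]

/-- Euler scheme with step `h`, fields `A j` and initial map `f0`. -/
def eul (A : ℕ → E → E) (h : ℝ) (f0 : D → E) : ℕ → D → E
  | 0 => f0
  | j + 1 => fun z => eul A h f0 j z + h • A j (eul A h f0 j z)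

theorem eul_smooth {A : ℕ → E → E} {h : ℝ} {f0 : D → E} (hA : ∀ j, ContDiff ℝ ∞ (A j))
    (hf : ContDiff ℝ ∞ f0) : ∀ j, ContDiff ℝ ∞ (eul A h f0 j)
  | 0 => hf
  | j + 1 => by
    have h1 := eul_smooth (h := h) hA hf j
    have h2 := hA j
    simp only [eul]
    fun_prop

theorem hasDerivAt_time {Φ : ℝ × D → E} (hΦ : ContDiff ℝ ∞ Φ) (t : ℝ) (z : D) :
    HasDerivAt (fun s => Φ (s, z)) (fderiv ℝ Φ (t, z) (1, 0)) t := by
  have h1 := ((hΦ.differentiable (by simp)) (t, z)).hasFDerivAt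
  have h2 : HasDerivAt (fun s : ℝ => (s, z)) (1, 0) t :=
    (hasDerivAt_id t).prodMk (hasDerivAt_const t z)
  exact h1.comp_hasDerivAt t h2

theorem fderiv_space {Φ : ℝ × D → E} (hΦ : ContDiff ℝ ∞ Φ) (t : ℝ) (z : D) :
    fderiv ℝ (fun z => Φ (t, z)) z = (fderiv ℝ Φ (t, z)).comp (ContinuousLinearMap.inr ℝ ℝ D) := by
  have h1 := ((hΦ.differentiable (by simp)) (t, z)).hasFDerivAt
  have h2 : HasFDerivAt (fun z : D => (t, z)) (ContinuousLinearMap.inr ℝ ℝ D) z :=
    hasFDerivAt_prodMk_right t z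
  exact (h1.comp z h2).fderiv

/-- Time and space derivatives commute. -/
theorem hasDerivAt_fderiv_space {Φ : ℝ × D → E} (hΦ : ContDiff ℝ ∞ Φ) (t : ℝ) (z : D) :
    HasDerivAt (fun s => fderiv ℝ (fun z => Φ (s, z)) z)
      (fderiv ℝ (fun z => fderiv ℝ Φ (t, z) (1, 0)) z) t := by
  have hF : ContDiff ℝ ∞ (fderiv ℝ Φ) := hΦ.fderiv_right infty_add_one_le
  simp only [fderiv_space hΦ]
  have h1 := (hasDerivAt_time hF t z).clm_comp
    (hasDerivAt_const t (ContinuousLinearMap.inr ℝ ℝ D))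
  convert h1 using 1
  have h2 := fderiv_space (Φ := fun q => fderiv ℝ Φ q (1, 0)) (by fun_prop) t z
  rw [h2]
  ext v
  have h3 : fderiv ℝ (fun q => fderiv ℝ Φ q (1, 0)) (t, z) =
      (fderiv ℝ (fderiv ℝ Φ) (t, z)).flip (1, 0) := by
    rw [fderiv_clm_apply (hF.differentiable (by simp) _) (by fun_prop)]
    simp
  have h4 := (hΦ.contDiffAt (x := (t, z))).isSymmSndFDerivAt (by simp; exact nat_le_infty 2)
  simp [h3, h4.eq (0, v) (1, 0)]

theorem hasDerivAt_fderiv_ode {Φ : ℝ × D → E} {X : ℝ × E → E} (hΦ : ContDiff ℝ ∞ Φ)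
    (hX : ContDiff ℝ ∞ X) {U : Set D} (hU : IsOpen U) {t : ℝ}
    (ode : ∀ z ∈ U, HasDerivAt (fun s => Φ (s, z)) (X (t, Φ (t, z))) t) {z : D} (hz : z ∈ U) :
    HasDerivAt (fun s => fderiv ℝ (fun z => Φ (s, z)) z)
      ((fderiv ℝ (fun y => X (t, y)) (Φ (t, z))).comp (fderiv ℝ (fun z => Φ (t, z)) z)) t := by
  have e : (fun z => fderiv ℝ Φ (t, z) (1, 0)) =ᶠ[𝓝 z] fun z => X (t, Φ (t, z)) := by
    filter_upwards [hU.mem_nhds hz] with w hw
    exact (hasDerivAt_time hΦ t w).unique (ode w hw)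
  have h0 := hasDerivAt_fderiv_space hΦ t z
  rw [e.fderiv_eq] at h0
  have h1 : DifferentiableAt ℝ (fun z => Φ (t, z)) z := by
    have := hΦ.differentiable (by simp); fun_prop
  have h2 : DifferentiableAt ℝ (fun y => X (t, y)) (Φ (t, z)) := by
    have := hX.differentiable (by simp); fun_prop
  rw [← fderiv_comp z h2 h1]
  exact h0

theorem euler_zero [FiniteDimensional ℝ E] {Φ : ℝ × D → E} {X : ℝ × E → E} {K : Set D}
    (hΦ : ContDiff ℝ ∞ Φ) (hX : ContDiff ℝ ∞ X) (hK : IsCompact K)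
    (ode : ∀ t ∈ Icc (0:ℝ) 1, ∀ z ∈ K, HasDerivAt (fun s => Φ (s, z)) (X (t, Φ (t, z))) t)
    {η : ℝ} (hη : 0 < η) :
    ∃ δ > 0, ∃ ρ : ℝ, ∃ N0 : ℕ, ∀ N ≥ N0, ∀ (A : ℕ → E → E) (f0 : D → E),
      (∀ j < N, ∀ y ∈ closedBall (0:E) ρ, ‖A j y - X ((j:ℝ) / N, y)‖ ≤ δ) →
      (∀ z ∈ K, ‖f0 z - Φ (0, z)‖ ≤ δ) →
      ∀ z ∈ K, ‖eul A (1 / N) f0 N z - Φ (1, z)‖ ≤ η := by
  obtain ⟨B, hB⟩ := ((isCompact_Icc (a := (0:ℝ)) (b := 1)).prod hK).exists_bound_of_continuousOn
    hΦ.continuous.continuousOn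
  set ρ := |B| + 1 with hρ
  have hS : IsCompact (Icc (0:ℝ) 1 ×ˢ closedBall (0:E) ρ) :=
    isCompact_Icc.prod (isCompact_closedBall _ _)
  obtain ⟨L, hL⟩ := hX.contDiffOn.exists_lipschitzOnWith (by simp)
    ((convex_Icc _ _).prod (convex_closedBall _ _)) hS
  obtain ⟨M, hM⟩ := hS.exists_bound_of_continuousOn hX.continuous.continuousOn
  have hin : ∀ t ∈ Icc (0:ℝ) 1, ∀ z ∈ K, ∀ y, ‖y - Φ (t, z)‖ ≤ 1 → y ∈ closedBall (0:E) ρ := by
    intro t ht z hz y hy
    have := hB (t, z) ⟨ht, hz⟩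
    have h2 := norm_add_le (y - Φ (t, z)) (Φ (t, z))
    simp only [sub_add_cancel] at h2
    simp only [mem_closedBall, dist_zero_right]
    linarith [le_abs_self B]
  have hin0 : ∀ t ∈ Icc (0:ℝ) 1, ∀ z ∈ K, Φ (t, z) ∈ closedBall (0:E) ρ :=
    fun t ht z hz => hin t ht z hz _ (by simp)
  set C := (L:ℝ) * max 1 |M| with hC
  have hC0 : 0 ≤ C := by positivity
  -- local truncation error
  have loc : ∀ z ∈ K, ∀ t h, 0 ≤ t → 0 ≤ h → t + h ≤ 1 →
      ‖Φ (t + h, z) - Φ (t, z) - h • X (t, Φ (t, z))‖ ≤ C * h * h := by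
    intro z hz t h ht hh hth
    have sub : Icc t (t + h) ⊆ Icc 0 1 := Icc_subset_Icc ht hth
    have h1 : ∀ s ∈ Icc t (t + h), ‖Φ (s, z) - Φ (t, z)‖ ≤ |M| * (s - t) :=
      norm_image_sub_le_of_norm_deriv_le_segment'
        (fun s hs => (ode s (sub hs) z hz).hasDerivWithinAt)
        (fun s hs => (hM (s, Φ (s, z)) ⟨sub (Ico_subset_Icc_self hs),
          hin0 s (sub (Ico_subset_Icc_self hs)) z hz⟩).trans (le_abs_self _))
    have h2 := norm_image_sub_le_of_norm_deriv_le_segment' (a := t) (b := t + h) (C := C * h)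
      (f := fun s => Φ (s, z) - s • X (t, Φ (t, z)))
      (f' := fun s => X (s, Φ (s, z)) - X (t, Φ (t, z)))
      (fun s hs => by
        simpa using ((ode s (sub hs) z hz).fun_sub
          ((hasDerivAt_id s).smul_const (X (t, Φ (t, z))))).hasDerivWithinAt)
      (fun s hs => by
        have hs' := Ico_subset_Icc_self hs
        have ht' : t ∈ Icc (0:ℝ) 1 := ⟨ht, by linarith⟩
        have := hL.dist_le_mul (s, Φ (s, z)) ⟨sub hs', hin0 s (sub hs') z hz⟩
          (t, Φ (t, z)) ⟨ht', hin0 t ht' z hz⟩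
        rw [dist_eq_norm, Prod.dist_eq, Real.dist_eq, dist_eq_norm] at this
        refine this.trans ?_
        rw [hC, mul_assoc]
        gcongr
        have e1 : 0 ≤ s - t := by linarith [hs.1]
        have e2 : s - t ≤ h := by linarith [hs.2]
        refine max_le ?_ ((h1 s hs').trans ?_)
        · rw [abs_of_nonneg e1]
          nlinarith [le_max_left 1 |M|]
        · gcongr; exact le_max_right _ _)
      (t + h) (right_mem_Icc.2 (by linarith))
    convert h2 using 2
    · simp only [add_smul]; abel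
    · ring
  set μ := min η 1 with hμ
  have hμ0 : 0 < μ := lt_min hη one_pos
  set δ := μ / (3 * Real.exp L) with hδ
  have hδ0 : 0 < δ := by positivity
  obtain ⟨N0, hN0⟩ := exists_nat_gt (C / δ)
  refine ⟨δ, hδ0, ρ, N0 + 1, fun N hN A f0 hA hf z hz => ?_⟩
  have hNpos : (0:ℝ) < N := by exact_mod_cast (by omega : 0 < N)
  have hCN : C / N ≤ δ := by
    have : C / δ < N := hN0.trans (by exact_mod_cast (by omega : N0 < N))
    rw [div_lt_iff₀ hδ0] at this
    rw [div_le_iff₀ hNpos]; linarith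
  have bd : ∀ j ≤ N, (δ + 2 * δ * (j / N)) * Real.exp (L * (j / N)) ≤ μ := by
    intro j hj
    have hj' : (j:ℝ) / N ≤ 1 := by
      rw [div_le_one hNpos]; exact_mod_cast hj
    have hj0 : (0:ℝ) ≤ j / N := by positivity
    calc _ ≤ (δ + 2 * δ * 1) * Real.exp (L * 1) := by gcongr
      _ = μ := by rw [hδ]; field_simp; ring
  have main : ∀ j ≤ N, ‖eul A (1 / N) f0 j z - Φ (j / N, z)‖ ≤
      (δ + 2 * δ * (j / N)) * Real.exp (L * (j / N)) := by
    intro j
    induction j with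
    | zero => intro _; simpa [eul] using hf z hz
    | succ j ih =>
      intro hj
      have ih' := ih (by omega)
      have hb := bd j (by omega)
      set t : ℝ := j / N with ht
      set h : ℝ := 1 / N with hh
      have ht0 : 0 ≤ t := by positivity
      have hh0 : 0 < h := by positivity
      have hth : ((j + 1 : ℕ) : ℝ) / N = t + h := by push_cast; rw [ht, hh]; ring
      have hth1 : t + h ≤ 1 := by
        rw [← hth, div_le_one hNpos]; exact_mod_cast hj
      have ht' : t ∈ Icc (0:ℝ) 1 := ⟨ht0, by linarith⟩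
      rw [hth]
      set y := eul A h f0 j z with hy
      have hyB : y ∈ closedBall (0:E) ρ :=
        hin t ht' z hz y (ih'.trans (hb.trans (min_le_right _ _)))
      have e1 := hA j (by omega) y hyB
      have e2 := hL.dist_le_mul (t, y) ⟨ht', hyB⟩ (t, Φ (t, z)) ⟨ht', hin0 t ht' z hz⟩
      rw [dist_eq_norm, Prod.dist_eq, dist_self, dist_eq_norm,
        max_eq_right (norm_nonneg _)] at e2
      have e3 := loc z hz t h ht0 hh0.le hth1
      have e4 : eul A h f0 (j + 1) z - Φ (t + h, z) = (y - Φ (t, z)) + h • (A j y - X (t, y))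
          + h • (X (t, y) - X (t, Φ (t, z))) - (Φ (t + h, z) - Φ (t, z) - h • X (t, Φ (t, z))) := by
        simp only [eul, ← hy, smul_sub]; abel
      have e5 : C * h ≤ δ := by rw [hh]; simpa [div_eq_mul_inv] using hCN
      rw [e4]
      set e := ‖y - Φ (t, z)‖ with he
      have e6 : ‖(y - Φ (t, z)) + h • (A j y - X (t, y)) + h • (X (t, y) - X (t, Φ (t, z)))
          - (Φ (t + h, z) - Φ (t, z) - h • X (t, Φ (t, z)))‖ ≤ e + h * δ + h * (L * e) + δ * h := by
        refine (norm_sub_le _ _).trans (add_le_add ((norm_add_le _ _).trans (add_le_add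
          ((norm_add_le _ _).trans (add_le_add le_rfl ?_)) ?_)) (e3.trans (by gcongr)))
        · rw [norm_smul, Real.norm_of_nonneg hh0.le]; gcongr
        · rw [norm_smul, Real.norm_of_nonneg hh0.le]; gcongr
      refine e6.trans ?_
      have x1 : 1 + L * h ≤ Real.exp (L * h) := by linarith [Real.add_one_le_exp (L * h)]
      have x2 : 1 ≤ Real.exp (L * (t + h)) := Real.one_le_exp (by positivity)
      have x3 : Real.exp (L * (t + h)) = Real.exp (L * t) * Real.exp (L * h) := by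
        rw [← Real.exp_add]; ring_nf
      calc e + h * δ + h * (L * e) + δ * h = e * (1 + L * h) + 2 * δ * h * 1 := by ring
        _ ≤ (δ + 2 * δ * t) * Real.exp (L * t) * Real.exp (L * h)
            + 2 * δ * h * Real.exp (L * (t + h)) := by gcongr
        _ = _ := by rw [x3]; ring
  have := (main N le_rfl).trans ((bd N le_rfl).trans (min_le_left _ _))
  rwa [div_self hNpos.ne'] at this

/-- The lift of a map of `E` to `E × (D →L E)`. -/
noncomputable def lft (D : Type*) [NormedAddCommGroup D] [NormedSpace ℝ D] (A : E → E)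
    (q : E × (D →L[ℝ] E)) : E × (D →L[ℝ] E) := (A q.1, (fderiv ℝ A q.1).comp q.2)

theorem lft_smooth {A : E → E} (hA : ContDiff ℝ ∞ A) : ContDiff ℝ ∞ (lft D A) := by
  have := hA.fderiv_right infty_add_one_le
  unfold lft
  fun_prop

theorem eul_lft {A : ℕ → E → E} {h : ℝ} {f0 : D → E} (hA : ∀ j, ContDiff ℝ ∞ (A j))
    (hf : ContDiff ℝ ∞ f0) (j : ℕ) :
    eul (fun j => lft D (A j)) h (fun z => (f0 z, fderiv ℝ f0 z)) j =
      fun z => (eul A h f0 j z, fderiv ℝ (eul A h f0 j) z) := by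
  induction j with
  | zero => rfl
  | succ j ih =>
    funext z
    have h1 := ((eul_smooth (h := h) hA hf j).differentiable (by simp) z).hasFDerivAt
    have h2 := ((hA j).differentiable (by simp) (eul A h f0 j z)).hasFDerivAt
    have h3 := (h1.fun_add ((h2.comp z h1).fun_const_smul h)).fderiv
    simp only [eul, ih, lft, Prod.smul_mk, Prod.mk_add_mk]
    exact Prod.ext rfl h3.symm

theorem sm_lft [FiniteDimensional ℝ D] [FiniteDimensional ℝ E] (r : ℕ) (ρ : ℝ) :
    ∃ C > 0, ∀ (h : E → E) (δ : ℝ), 0 ≤ δ → ContDiff ℝ ∞ h →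
      Sm (r + 1) (closedBall 0 ρ) δ h → Sm r (closedBall 0 ρ) (C * δ) (lft D h) := by
  obtain ⟨b, hb0, hb⟩ := exists_sm r (isCompact_closedBall (0 : E × (D →L[ℝ] E)) ρ)
    (h := fun q => q.2) contDiff_snd
  refine ⟨2 ^ r * b + 1, by positivity, fun h δ hδ hh H => ?_⟩
  have hF := hh.fderiv_right infty_add_one_le
  have hm : MapsTo (ContinuousLinearMap.fst ℝ E (D →L[ℝ] E)) (closedBall 0 ρ) (closedBall 0 ρ) := by
    intro q hq
    simp only [mem_closedBall, dist_zero_right] at hq ⊢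
    exact (norm_fst_le q).trans hq
  have hn := ContinuousLinearMap.norm_fst_le ℝ E (D →L[ℝ] E)
  have h1 := (H.mono (Nat.le_succ r) subset_rfl le_rfl).comp_clm hh _ hn hm
  have h2 := H.fderiv.comp_clm hF _ hn hm
  have h3 := Sm.bilin (by fun_prop) contDiff_snd h2 hb (ContinuousLinearMap.compL ℝ D E E)
    (ContinuousLinearMap.norm_compL_le _ _ _ _)
  unfold lft
  rw [sm_pair (by fun_prop) (by fun_prop)]
  refine ⟨h1.mono le_rfl subset_rfl ?_, h3.mono le_rfl subset_rfl ?_⟩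
  · nlinarith [mul_nonneg (mul_nonneg (by positivity : (0:ℝ) ≤ 2 ^ r) hb0) hδ]
  · nlinarith

end

theorem euler (r : ℕ) : ∀ {D E : Type} [NormedAddCommGroup D] [NormedSpace ℝ D]
    [NormedAddCommGroup E] [NormedSpace ℝ E] [FiniteDimensional ℝ D] [FiniteDimensional ℝ E]
    {Φ : ℝ × D → E} {X : ℝ × E → E} {U K : Set D},
    ContDiff ℝ ∞ Φ → ContDiff ℝ ∞ X → IsOpen U → IsCompact K → K ⊆ U →
    (∀ t ∈ Icc (0:ℝ) 1, ∀ z ∈ U, HasDerivAt (fun s => Φ (s, z)) (X (t, Φ (t, z))) t) →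
    ∀ {η : ℝ}, 0 < η →
    ∃ δ > 0, ∃ ρ : ℝ, ∃ N0 : ℕ, ∀ N ≥ N0, ∀ (A : ℕ → E → E) (f0 : D → E),
      (∀ j, ContDiff ℝ ∞ (A j)) → ContDiff ℝ ∞ f0 →
      (∀ j < N, Sm r (closedBall (0:E) ρ) δ (fun y => A j y - X ((j:ℝ) / N, y))) →
      Sm r K δ (fun z => f0 z - Φ (0, z)) →
      Sm r K η (fun z => eul A (1 / N) f0 N z - Φ (1, z)) := by
  induction r with
  | zero =>
    intro D E _ _ _ _ _ _ Φ X U K hΦ hX hU hK hKU ode η hη
    obtain ⟨δ, hδ, ρ, N0, H⟩ := euler_zero hΦ hX hK (fun t ht z hz => ode t ht z (hKU hz)) hη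
    refine ⟨δ, hδ, ρ, N0, fun N hN A f0 _ _ hA hf => ?_⟩
    simp only [sm_zero_iff] at hA hf ⊢
    exact H N hN A f0 hA hf
  | succ r ih =>
    intro D E _ _ _ _ _ _ Φ X U K hΦ hX hU hK hKU ode η hη
    have hΦ' : ContDiff ℝ ∞ fun q : ℝ × D => fderiv ℝ (fun z => Φ (q.1, z)) q.2 :=
      ContDiff.fderiv (f := fun (q : ℝ × D) z => Φ (q.1, z)) (g := fun q => q.2) (m := ∞)
        (by unfold Function.uncurry; fun_prop) (by fun_prop) infty_add_one_le
    have hX' : ContDiff ℝ ∞ fun q : ℝ × E => fderiv ℝ (fun z => X (q.1, z)) q.2 :=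
      ContDiff.fderiv (f := fun (q : ℝ × E) z => X (q.1, z)) (g := fun q => q.2) (m := ∞)
        (by unfold Function.uncurry; fun_prop) (by fun_prop) infty_add_one_le
    obtain ⟨δ, hδ, ρ, N0, H⟩ := ih (D := D) (E := E × (D →L[ℝ] E))
      (Φ := fun q => (Φ q, fderiv ℝ (fun z => Φ (q.1, z)) q.2))
      (X := fun q => lft D (fun y => X (q.1, y)) q.2) (hΦ.prodMk hΦ')
      (by
        unfold lft
        refine ContDiff.prodMk (by fun_prop) (ContDiff.clm_comp ?_ (by fun_prop))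
        exact hX'.comp (f := fun q : ℝ × (E × (D →L[ℝ] E)) => (q.1, q.2.1)) (by fun_prop))
      hU hK hKU
      (by
        intro t ht z hz
        refine (ode t ht z hz).prodMk ?_
        exact hasDerivAt_fderiv_ode hΦ hX hU (ode t ht) hz) hη
    obtain ⟨C, hC, HC⟩ := sm_lft (D := D) (E := E) r ρ
    refine ⟨min δ (δ / C), lt_min hδ (by positivity), ρ, N0, fun N hN A f0 hA hf HA Hf => ?_⟩
    have hF0 := hf.fderiv_right infty_add_one_le
    have key := H N hN (fun j => lft D (A j)) (fun z => (f0 z, fderiv ℝ f0 z))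
      (fun j => lft_smooth (hA j)) (hf.prodMk hF0) ?_ ?_
    · have hE := eul_smooth (h := 1 / N) hA hf N
      rw [sm_succ_iff (by fun_prop)]
      rw [eul_lft hA hf] at key
      convert key using 2 with z
      simp only [Prod.mk_sub_mk]
      congr 1
      exact fderiv_fun_sub (hE.differentiable (by simp) z)
        (by have := hΦ.differentiable (by simp); fun_prop)
    · intro j hj
      have hAj := hA j
      have := HC _ _ (le_min hδ.le (by positivity)) (by fun_prop) (HA j hj)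
      refine Sm.mono ?_ le_rfl subset_rfl
        (show C * min δ (δ / C) ≤ δ from (mul_le_mul_of_nonneg_left (min_le_right _ _) hC.le).trans
          (by field_simp; rfl))
      convert this using 2 with q
      simp only [lft, Prod.mk_sub_mk]
      congr 1
      rw [fderiv_fun_sub (hAj.differentiable (by simp) _)
        (by have := hX.differentiable (by simp); fun_prop), ContinuousLinearMap.sub_comp]
    · rw [sm_succ_iff (by fun_prop)] at Hf
      refine Sm.mono ?_ le_rfl subset_rfl (min_le_left δ (δ / C))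
      convert Hf using 2 with z
      simp only [Prod.mk_sub_mk]
      congr 1
      exact (fderiv_fun_sub (hf.differentiable (by simp) z)
        (by have := hΦ.differentiable (by simp); fun_prop)).symm

end Pool.Agent.Lib.MP_0281e9_an.BT
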